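import Pool.Agent.Lib.MP_8daebb_an.AS.Def

/-! The one-sided stress lemma in the form that holds in every dimension: statement. -/

open MeasureTheory Metric Set Module
open scoped RealInnerProductSpace

namespace Pool.Agent.Lib.MP_8daebb_an.AS

variable {E : Type*} [NormedAddCommGroup E] [InnerProductSpace ℝ E] [FiniteDimensional ℝ E]
  [MeasurableSpace E] [BorelSpace E]

/-- As `Loc`, with the growth bound only for radii up to ten. The hypotheses, in units where the cell has radius one and heights are of order one; the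
smallest scale is `exp (-3 L)`. -/
structure LocW {ι : Type*} [Fintype ι] (D : Dat E ι) (Q : ℕ) (C₀ L η κ : ℝ) : Prop where
  c_ε : Continuous D.ε
  c_T : Continuous D.T
  c_ee : Continuous D.ee
  c_U : ∀ i j, ContDiff ℝ 2 (D.U i j)
  ee_nonneg : ∀ y, 0 ≤ D.ee y
  ee_le : ∀ y ∈ ball (0 : E) 4, D.ee y ≤ Real.exp (9 * L)
  symm : ∀ y ∈ ball (0 : E) 5, ∀ v w, ⟪D.T y v, w⟫ = ⟪v, D.T y w⟫
  psd : ∀ y ∈ ball (0 : E) 5, ∀ v, 0 ≤ ⟪D.T y v, v⟫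
  s1 : ∀ Y : E → E, ContDiff ℝ 1 Y → tsupport Y ⊆ ball 0 4 →
    |∫ y, pair (D.ε y) (D.T y) (fderiv ℝ Y y)| ≤
      Real.exp (-L) * ∫ y, (‖fderiv ℝ Y y‖ + ‖Y y‖)
  s2 : ∀ y ∈ ball (0 : E) 4, |D.ε y| + D.τ y ≤ C₀ * D.avτ C₀ (Real.exp (-3 * L)) y
  s3 : ∀ (y : E) (s : ℝ), Real.exp (-3 * L) ≤ s → s ≤ 10 →
    ∫ x in ball y s ∩ ball 0 5, D.τ x ≤ C₀ * (s ^ finrank ℝ E / s ^ 2)
  s4 : ∀ y ∈ ball (0 : E) 4, ∀ v, D.qf Q y v ≤ ⟪D.T y v, v⟫ + D.gam C₀ L κ y * ‖v‖ ^ 2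
  U_zero : ∀ i y, D.U i 0 y = 0
  U_le : ∀ i, ∀ j ≤ Q, ∀ y ∈ ball (0 : E) 4, |D.U i j y| ≤ C₀
  s5 : ∀ i, ∀ j ≤ Q, ∀ y ∈ ball (0 : E) 4, 0 ≤ lap (D.U i j) y + D.gam C₀ L κ y
  s6 : ∀ y ∈ ball (0 : E) 4,
    ∫ x in ball y (C₀ * Real.exp (-3 * L)), D.τ x ≤
      η * (Real.exp (-3 * L) ^ finrank ℝ E / Real.exp (-3 * L) ^ 2) →
    |D.β y| ≤ D.ee y ∧ ∀ v, |⟪D.T y v, v⟫ - D.qf Q y v| ≤ D.ee y * ‖v‖ ^ 2

/-- The one-sided stress lemma in the form that holds in every dimension. -/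
def SLemL (E : Type*) [NormedAddCommGroup E] [InnerProductSpace ℝ E] [FiniteDimensional ℝ E]
    [MeasurableSpace E] [BorelSpace E] (ι : Type*) [Fintype ι] : Prop :=
  ∀ (Q : ℕ) (C₀ : ℝ) (A : ℕ), 1 ≤ C₀ → ∃ γ > (0 : ℝ), ∃ C L₀ : ℝ, 0 ≤ C ∧ ∀ L, L₀ ≤ L →
    ∀ D : Dat E ι, LocW D Q C₀ L (L ^ A)⁻¹ (L ^ (finrank ℝ E + 4))⁻¹ → ∀ φ : E → ℝ,
    (∀ y, 0 ≤ φ y) → LipschitzWith 1 φ → (∀ y, 1 / 2 ≤ ‖y‖ → φ y = 0) →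
    ∫ y, φ y * D.β y ≤ L ^ (-(1 + γ)) * (∫ y, φ y * D.τ y) + C * (∫ y, φ y * D.ee y) +
      C * Real.exp (-L / 2) * (∫ y in ball (0 : E) 2, (D.τ y + D.ee y)) + C * Real.exp (-L ^ 2)

end Pool.Agent.Lib.MP_8daebb_an.AS
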