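import Pool.Agent.Lib.MP_8daebb_an.AS.LiftA
import Pool.Agent.Lib.MP_8daebb_an.AS.LDef

/-! The one-sided stress lemma in every dimension, from the lemma on the product with a plane. -/

set_option linter.unusedSectionVars false

open MeasureTheory Metric Set Module
open scoped RealInnerProductSpace

namespace Pool.Agent.Lib.MP_8daebb_an.AS

variable {E : Type*} [NormedAddCommGroup E] [InnerProductSpace ℝ E] [FiniteDimensional ℝ E]
  [MeasurableSpace E] [BorelSpace E] {ι : Type*} [Fintype ι]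

/-- The data extended trivially. -/
noncomputable def Dat.up (D : Dat E ι) : Dat (Up E) ι where
  ε y := D.ε (p1 y)
  T y := (i1 : E →L[ℝ] Up E).comp ((D.T (p1 y)).comp p1)
  ee y := D.ee (p1 y)
  U i j y := D.U i j (p1 y)

theorem up_τ (D : Dat E ι) (y : Up E) : D.up.τ y = D.τ (p1 y) := tr_up _

theorem up_β (D : Dat E ι) (y : Up E) : D.up.β y = D.β (p1 y) := by
  rw [Dat.β, up_τ]
  rfl

theorem up_inner (D : Dat E ι) (y v w : Up E) :
    ⟪D.up.T y v, w⟫ = ⟪D.T (p1 y) (p1 v), p1 w⟫ := inner_i1 _ _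

theorem up_qf (D : Dat E ι) (hU : ∀ i j, ContDiff ℝ 2 (D.U i j)) (Q : ℕ) (y v : Up E) :
    D.up.qf Q y v = D.qf Q (p1 y) (p1 v) := by
  refine Finset.sum_congr rfl fun i _ => Finset.sum_congr rfl fun j _ => ?_
  have h : Differentiable ℝ (D.u i j) :=
    ((hU i (j + 1)).sub (hU i j)).differentiable (by norm_num)
  have h2 := fderiv_up h y
  rw [show D.up.u i j = fun z : Up E => D.u i j (p1 z) from rfl, h2]
  rfl

theorem cont_tr : Continuous fun A : E →L[ℝ] E => tr A := by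
  have h : ∀ A : E →L[ℝ] E, tr A =
      ∑ k, ⟪stdOrthonormalBasis ℝ E k, A (stdOrthonormalBasis ℝ E k)⟫ := fun A =>
    LinearMap.trace_eq_sum_inner _ _
  simp only [h]
  fun_prop

theorem tr_nonneg {A : E →L[ℝ] E} (h : ∀ v, 0 ≤ ⟪A v, v⟫) : 0 ≤ tr A := by
  rw [tr, LinearMap.trace_eq_sum_inner _ (stdOrthonormalBasis ℝ E)]
  exact Finset.sum_nonneg fun k _ => by rw [real_inner_comm]; exact h _

theorem mem_p1 {y : Up E} {r : ℝ} (hy : y ∈ ball (0 : Up E) r) : p1 y ∈ ball (0 : E) r :=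
  mem_ball_zero_iff.2 ((norm_p1_le y).trans_lt (mem_ball_zero_iff.1 hy))

variable {D : Dat E ι} {Q : ℕ} {C₀ L η κ : ℝ}

theorem LocW.cont_τ (h : LocW D Q C₀ L η κ) : Continuous D.τ := cont_tr.comp h.c_T

theorem LocW.τ_nonneg (h : LocW D Q C₀ L η κ) {y : E} (hy : y ∈ ball (0 : E) 5) : 0 ≤ D.τ y :=
  tr_nonneg (h.psd y hy)

/-- lower bound of the energy of the extension in a small ball -/
theorem up_low (h : LocW D Q C₀ L η κ) {y : Up E} (hy : y ∈ ball (0 : Up E) 4) {r : ℝ}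
    (hr : 0 ≤ r) (hr1 : 4 * r ≤ 1) :
    (∫ x in ball (p1 y) r, D.τ x) * (Real.pi * r ^ 2) ≤ ∫ x in ball y (4 * r), D.up.τ x := by
  rw [← setIntegral_up D.τ measurableSet_ball (p2 y) hr]
  simp only [up_τ]
  refine setIntegral_mono_set (integrableOn_up h.cont_τ isBounded_ball) ?_
    (LE.le.eventuallyLE fun z hz => ?_)
  · refine (ae_restrict_iff' measurableSet_ball).2 (Filter.Eventually.of_forall fun z hz => ?_)
    refine h.τ_nonneg (mem_p1 (ball_subset_ball' ?_ hz))
    have := mem_ball.1 hy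
    linarith
  · have h1 := mem_ball_iff_norm.1 hz.1
    have h2 := mem_ball_iff_norm.1 hz.2
    have h3 := norm_le_add (z - y)
    rw [map_sub, map_sub] at h3
    rw [mem_ball_iff_norm]
    linarith

theorem up_av (h : LocW D Q C₀ L η κ) (hC : 1 ≤ C₀) {y : Up E} (hy : y ∈ ball (0 : Up E) 4) {ρ : ℝ}
    (hρ : 0 < ρ) (hr1 : 4 * (C₀ * ρ) ≤ 1) :
    0 ≤ D.avτ C₀ ρ (p1 y) ∧ D.avτ C₀ ρ (p1 y) ≤ D.up.avτ (4 * C₀) ρ y := by
  have h0 : 0 ≤ ∫ x in ball (p1 y) (C₀ * ρ), D.τ x :=
    setIntegral_nonneg measurableSet_ball fun z hz => h.τ_nonneg (ball_subset_ball' (by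
      have := mem_ball.1 (mem_p1 hy)
      have : 0 ≤ C₀ * ρ := by positivity
      linarith) hz)
  refine ⟨mul_nonneg (by positivity) h0, ?_⟩
  have h1 := up_low h hy (r := C₀ * ρ) (by positivity) hr1
  rw [Dat.avτ, Dat.avτ, finrank_up, mul_assoc 4, pow_add, mul_inv, mul_assoc]
  refine mul_le_mul_of_nonneg_left ?_ (by positivity)
  rw [le_inv_mul_iff₀ (by positivity)]
  refine le_trans ?_ h1
  rw [mul_comm]
  refine mul_le_mul_of_nonneg_left ?_ h0
  have h2 : 1 ≤ C₀ ^ 2 := one_le_pow₀ hC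
  have h3 := Real.pi_gt_three
  rw [mul_pow, ← mul_assoc]
  exact le_mul_of_one_le_left (by positivity) (by nlinarith)

theorem up_s1 (h : LocW D Q C₀ L η κ) (Y : Up E → Up E) (hY : ContDiff ℝ 1 Y)
    (hs : tsupport Y ⊆ ball 0 4) :
    |∫ y, pair (D.up.ε y) (D.up.T y) (fderiv ℝ Y y)| ≤
      Real.exp (-L) * ∫ y, (‖fderiv ℝ Y y‖ + ‖Y y‖) := by
  have hc : HasCompactSupport Y :=
    (isCompact_closedBall 0 4).of_isClosed_subset (isClosed_tsupport Y)
      (hs.trans ball_subset_closedBall)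
  have hD : Continuous (fderiv ℝ Y) := hY.continuous_fderiv one_ne_zero
  have hcD : HasCompactSupport (fderiv ℝ Y) := hc.fderiv ℝ
  have hε : Continuous fun y : Up E => D.ε (p1 y) := h.c_ε.comp (p1 (E := E)).continuous
  have hT : Continuous fun y : Up E => D.T (p1 y) := h.c_T.comp (p1 (E := E)).continuous
  have hint : ∀ g : Up E → ℝ, Continuous g → (∀ y, fderiv ℝ Y y = 0 → Y y = 0 → g y = 0) →
      Integrable g := fun g hg h0 => by
    refine hg.integrable_of_hasCompactSupport (HasCompactSupport.intro hc.isCompact fun y hy => ?_)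
    exact h0 y (fderiv_of_notMem_tsupport ℝ hy) (image_eq_zero_of_notMem_tsupport hy)
  set b := EuclideanSpace.basisFun (Fin 2) ℝ
  have e2 : ∀ y, tr (p2.comp ((fderiv ℝ Y y).comp (i2 : F2 →L[ℝ] Up E))) =
      ∑ k, ⟪b k, p2 (fderiv ℝ Y y (i2 (b k)))⟫ := fun y => LinearMap.trace_eq_sum_inner _ b
  have i2k : ∀ k, Integrable fun y : Up E => D.ε (p1 y) * ⟪b k, p2 (fderiv ℝ Y y (i2 (b k)))⟫ :=
    fun k => hint _ (by fun_prop) fun y h1 _ => by simp [h1]
  have z2 : ∀ k, ∫ y : Up E, D.ε (p1 y) * ⟪b k, p2 (fderiv ℝ Y y (i2 (b k)))⟫ = 0 := fun k => by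
    have := integral_bilinear_hasLineDerivAt_right_eq_neg_left_of_integrable
      (μ := (volume : Measure (Up E))) (f := fun y : Up E => D.ε (p1 y)) (f' := fun _ => (0 : ℝ))
      (g := fun y => ⟪b k, p2 (Y y)⟫) (g' := fun y => ⟪b k, p2 (fderiv ℝ Y y (i2 (b k)))⟫)
      (v := i2 (b k)) (B := ContinuousLinearMap.mul ℝ ℝ) (by simp) (i2k k)
      (hint _ (by have := hY.continuous; fun_prop) fun y _ h1 => by simp [h1])
      (fun y _ => by
        unfold HasLineDerivAt
        simp only [map_add, map_smul, p1_i2, smul_zero, add_zero]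
        exact hasDerivAt_const _ _)
      (fun y _ => (((innerSL ℝ (b k)).comp (p2 (E := E))).hasFDerivAt.comp y
        (hY.differentiable one_ne_zero y).hasFDerivAt).hasLineDerivAt _)
    simpa using this
  have cp : Continuous fun y : Up E =>
      pair (D.ε (p1 y)) (D.T (p1 y)) (p1.comp ((fderiv ℝ Y y).comp i1)) := by
    have h1 : Continuous fun y : Up E => p1.comp ((fderiv ℝ Y y).comp (i1 : E →L[ℝ] Up E)) :=
      continuous_const.clm_comp (hD.clm_comp continuous_const)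
    exact (hε.mul (cont_tr.comp h1)).sub (cont_tr.comp (hT.clm_comp h1))
  have ip := hint _ cp fun y h1 _ => by simp [h1, pair, tr]
  have iR : Integrable fun y : Up E => ‖fderiv ℝ Y y‖ + ‖Y y‖ :=
    hint _ (hD.norm.add hY.continuous.norm) fun y h1 h2 => by simp [h1, h2]
  have e1 : ∫ y, pair (D.up.ε y) (D.up.T y) (fderiv ℝ Y y) =
      ∫ y : Up E, pair (D.ε (p1 y)) (D.T (p1 y)) (p1.comp ((fderiv ℝ Y y).comp i1)) := by
    have e3 : ∀ y, pair (D.up.ε y) (D.up.T y) (fderiv ℝ Y y) =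
        pair (D.ε (p1 y)) (D.T (p1 y)) (p1.comp ((fderiv ℝ Y y).comp i1)) +
          ∑ k, D.ε (p1 y) * ⟪b k, p2 (fderiv ℝ Y y (i2 (b k)))⟫ := fun y => by
      rw [← Finset.mul_sum, ← e2]
      exact pair_up _ _ _
    simp only [e3]
    rw [integral_add ip (integrable_finsetSum _ fun k _ => i2k k),
      integral_finsetSum _ fun k _ => i2k k]
    simp [z2]
  rw [e1, integral_up, integral_up, integral_prod_symm _ (integrable_up ip),
    integral_prod_symm _ (integrable_up iR), ← integral_const_mul]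
  refine (abs_integral_le_integral_abs).trans (integral_mono_of_nonneg
    (Filter.Eventually.of_forall fun s => abs_nonneg _)
    ((integrable_up iR).integral_prod_right.const_mul _) (Filter.Eventually.of_forall fun s => ?_))
  have hj : ∀ x : E, HasFDerivAt (fun x : E => (i1 x + i2 s : Up E)) i1 x := fun x =>
    (i1 : E →L[ℝ] Up E).hasFDerivAt.add_const _
  have cj : Continuous fun x : E => (i1 x + i2 s : Up E) := by fun_prop
  have hd : ∀ x : E, fderiv ℝ (fun x : E => p1 (Y (i1 x + i2 s))) x =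
      p1.comp ((fderiv ℝ Y (i1 x + i2 s)).comp i1) := fun x =>
    ((p1 : Up E →L[ℝ] E).hasFDerivAt.comp x
      ((hY.differentiable one_ne_zero _).hasFDerivAt.comp x (hj x))).fderiv
  have hp : ∀ x : E, p1 (i1 x + i2 s : Up E) = x := fun x => by
    rw [map_add, p1_i1, p1_i2, add_zero]
  have h1 := h.s1 (fun x : E => p1 (Y (i1 x + i2 s)))
    ((p1 : Up E →L[ℝ] E).contDiff.comp (hY.comp ((i1 : E →L[ℝ] Up E).contDiff.add contDiff_const)))
    fun x hx => by
      have h2 : (i1 x + i2 s : Up E) ∈ tsupport Y :=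
        tsupport_comp_subset_preimage Y cj
          (tsupport_comp_subset (g := p1) (map_zero _) (fun x : E => Y (i1 x + i2 s)) hx)
      have h3 := mem_p1 (hs h2)
      rwa [hp] at h3
  simp only [toLp_eq, hp]
  simp only [hd] at h1
  refine h1.trans (mul_le_mul_of_nonneg_left (integral_mono_of_nonneg
    (Filter.Eventually.of_forall fun x => by positivity) ?_
    (Filter.Eventually.of_forall fun x => add_le_add (norm_p1_comp_le _) (norm_p1_le _)))
    (Real.exp_pos _).le)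
  refine ((hD.comp cj).norm.add (hY.continuous.comp cj).norm).integrable_of_hasCompactSupport
    (HasCompactSupport.intro (isCompact_closedBall (0 : E) 4) fun x hx => ?_)
  have h2 : (i1 x + i2 s : Up E) ∉ tsupport Y := fun h2 => by
    have h3 := mem_p1 (hs h2)
    rw [hp] at h3
    exact hx (ball_subset_closedBall h3)
  simp [fderiv_of_notMem_tsupport ℝ h2, image_eq_zero_of_notMem_tsupport h2]

theorem up_s3 (h : LocW D Q C₀ L η κ) (hC : 1 ≤ C₀) (y : Up E) {s : ℝ}
    (hs : Real.exp (-3 * L) ≤ s) (hs1 : s ≤ 10) :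
    ∫ x in ball y s ∩ ball 0 5, D.up.τ x ≤ 4 * C₀ * (s ^ finrank ℝ (Up E) / s ^ 2) := by
  have hs0 : 0 < s := (Real.exp_pos _).trans_le hs
  have h1 := h.s3 (p1 y) s hs hs1
  have h2 := setIntegral_up D.τ (A := ball (p1 y) s ∩ ball 0 5)
    (measurableSet_ball.inter measurableSet_ball) (p2 y) hs0.le
  have h3 : ∫ x in ball y s ∩ ball 0 5, D.up.τ x ≤
      ∫ z in {z : Up E | p1 z ∈ ball (p1 y) s ∩ ball 0 5 ∧ p2 z ∈ ball (p2 y) s}, D.τ (p1 z) := by
    simp only [up_τ]
    refine setIntegral_mono_set (integrableOn_up h.cont_τ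
      (bounded_box (isBounded_ball.subset inter_subset_left) _ _)) ?_
      (LE.le.eventuallyLE fun z hz => ?_)
    · refine (ae_restrict_iff' ?_).2 (Filter.Eventually.of_forall fun z hz => h.τ_nonneg hz.1.2)
      exact ((measurableSet_ball.inter measurableSet_ball).preimage
        (p1 (E := E)).continuous.measurable).inter (measurableSet_ball.preimage (p2 (E := E)).continuous.measurable)
    · have h4 := mem_ball_iff_norm.1 hz.1
      have h5 := norm_p1_le (z - y)
      have h6 := norm_p2_le (z - y)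
      rw [map_sub] at h5 h6
      exact ⟨⟨mem_ball_iff_norm.2 (h5.trans_lt h4), mem_p1 hz.2⟩,
        mem_ball_iff_norm.2 (h6.trans_lt h4)⟩
  rw [h2] at h3
  refine h3.trans ((mul_le_mul_of_nonneg_right h1 (by positivity)).trans ?_)
  have h4 := Real.pi_le_four
  have h5 : 0 ≤ C₀ * s ^ finrank ℝ E := by positivity
  rw [finrank_up, pow_add]
  calc _ = Real.pi * (C₀ * s ^ finrank ℝ E) := by field_simp
    _ ≤ 4 * (C₀ * s ^ finrank ℝ E) := by gcongr
    _ = _ := by field_simp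

theorem LocW.up (h : LocW D Q C₀ L η κ) (hC : 1 ≤ C₀) (hκ : 0 ≤ κ) (hη : 0 ≤ η)
    (hL : 4 * (C₀ * Real.exp (-3 * L)) ≤ 1) : Loc D.up Q (4 * C₀) L η κ := by
  have hρ := Real.exp_pos (-3 * L)
  have hg : ∀ y ∈ ball (0 : Up E) 4, 0 ≤ D.gam C₀ L κ (p1 y) ∧
      D.gam C₀ L κ (p1 y) ≤ D.up.gam (4 * C₀) L κ y := fun y hy => by
    obtain ⟨h1, h2⟩ := up_av h hC hy hρ hL
    refine ⟨add_nonneg (mul_nonneg hκ h1) (Real.exp_pos _).le, ?_⟩
    unfold Dat.gam
    gcongr
  have hn : ∀ v : Up E, ‖p1 v‖ ^ 2 ≤ ‖v‖ ^ 2 := fun v => by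
    gcongr
    exact norm_p1_le v
  refine ⟨h.c_ε.comp (p1 (E := E)).continuous,
    continuous_const.clm_comp ((h.c_T.comp (p1 (E := E)).continuous).clm_comp continuous_const),
    h.c_ee.comp (p1 (E := E)).continuous, fun i j => (h.c_U i j).comp (p1 (E := E)).contDiff, fun y => h.ee_nonneg _,
    fun y hy => h.ee_le _ (mem_p1 hy), fun y hy v w => ?_, fun y hy v => ?_, up_s1 h,
    fun y hy => ?_, fun y s hs => ?_, fun y hy v => ?_, fun i y => h.U_zero i _,
    fun i j hj y hy => (h.U_le i j hj _ (mem_p1 hy)).trans (by linarith), fun i j hj y hy => ?_,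
    fun y hy h1 => ?_⟩
  · rw [up_inner, real_inner_comm (D.up.T y w), up_inner, h.symm _ (mem_p1 hy), real_inner_comm]
  · rw [up_inner]
    exact h.psd _ (mem_p1 hy) _
  · obtain ⟨h1, h2⟩ := up_av h hC hy hρ hL
    rw [up_τ]
    refine (h.s2 _ (mem_p1 hy)).trans ?_
    nlinarith
  · rcases le_or_gt s 10 with hs1 | hs1
    · exact up_s3 h hC y hs hs1
    · have h1 := up_s3 h hC 0 (s := 10) (by nlinarith) le_rfl
      have h2 : ∫ x in ball y s ∩ ball 0 5, D.up.τ x ≤
          ∫ x in ball (0 : Up E) 10 ∩ ball 0 5, D.up.τ x := by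
        simp only [up_τ]
        refine setIntegral_mono_set (integrableOn_up h.cont_τ
          (isBounded_ball.subset inter_subset_left)) ?_ (LE.le.eventuallyLE fun z hz =>
            ⟨ball_subset_ball (by norm_num) hz.2, hz.2⟩)
        exact (ae_restrict_iff' (measurableSet_ball.inter measurableSet_ball)).2
          (Filter.Eventually.of_forall fun z hz => h.τ_nonneg (mem_p1 hz.2))
      refine h2.trans (h1.trans (mul_le_mul_of_nonneg_left ?_ (by linarith)))
      have h3 : 0 < s := by linarith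
      rw [finrank_up, pow_add, pow_add, mul_div_assoc, mul_div_assoc, div_self (by positivity),
        div_self (by positivity)]
      gcongr
  · obtain ⟨h1, h2⟩ := hg y hy
    rw [up_qf D h.c_U, up_inner]
    refine (h.s4 _ (mem_p1 hy) _).trans (add_le_add le_rfl ?_)
    exact mul_le_mul h2 (hn v) (by positivity) (h1.trans h2)
  · have h1 := h.s5 i j hj _ (mem_p1 hy)
    have h2 := lap_up (h.c_U i j) y
    have h3 := (hg y hy).2
    rw [show D.up.U i j = fun z : Up E => D.U i j (p1 z) from rfl, h2]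
    linarith
  · have h2 := up_low h hy (r := C₀ * Real.exp (-3 * L)) (by positivity) hL
    rw [mul_assoc 4, finrank_up, pow_add, mul_div_assoc, div_self (by positivity), mul_one] at h1
    have h3 : ∫ x in ball (p1 y) (C₀ * Real.exp (-3 * L)), D.τ x ≤
        η * (Real.exp (-3 * L) ^ finrank ℝ E / Real.exp (-3 * L) ^ 2) := by
      have h4 : Real.exp (-3 * L) ^ 2 ≤ Real.pi * (C₀ * Real.exp (-3 * L)) ^ 2 := by
        have h5 : 1 ≤ C₀ ^ 2 := one_le_pow₀ hC
        have h6 := Real.pi_gt_three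
        rw [mul_pow, ← mul_assoc]
        exact le_mul_of_one_le_left (by positivity) (by nlinarith)
      rcases le_or_gt (∫ x in ball (p1 y) (C₀ * Real.exp (-3 * L)), D.τ x) 0 with h5 | h5
      · exact h5.trans (by positivity)
      · rw [← mul_div_assoc, le_div_iff₀ (by positivity)]
        exact (mul_le_mul_of_nonneg_left h4 h5.le).trans (h2.trans h1)
    obtain ⟨h4, h5⟩ := h.s6 _ (mem_p1 hy) h3
    refine ⟨by rw [up_β]; exact h4, fun v => ?_⟩
    rw [up_qf D h.c_U, up_inner]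
    exact (h5 _).trans (mul_le_mul_of_nonneg_left (hn v) (h.ee_nonneg _))

/-- the lemma on the product with a plane gives the lemma on the space -/
theorem lift (hE : 1 ≤ finrank ℝ E) (h : SLem (Up E) ι) : SLemL E ι := by
  intro Q C₀ A hC
  have := Module.nontrivial_of_finrank_pos (R := ℝ) (M := E) hE
  obtain ⟨γ, hγ, C, L₀, h⟩ := h Q (4 * C₀) A (by linarith)
  set ψ : F2 → ℝ := fun s => max (1 / 2 - ‖s‖) 0 with hψ
  have ψc : Continuous ψ := by fun_prop
  have ψ0 : ∀ s, 0 ≤ ψ s := fun s => le_max_right _ _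
  have ψ1 : ∀ s, ψ s ≤ 1 / 2 := fun s => max_le (by linarith [norm_nonneg s]) (by norm_num)
  have ψz : ∀ s, 1 / 2 ≤ ‖s‖ → ψ s = 0 := fun s hs => max_eq_right (by linarith)
  have ψl : ∀ s s', |ψ s - ψ s'| ≤ ‖s - s'‖ := fun s s' => by
    refine (abs_max_sub_max_le_abs _ _ _).trans ?_
    rw [show 1 / 2 - ‖s‖ - (1 / 2 - ‖s'‖) = -(‖s‖ - ‖s'‖) by ring, abs_neg]
    exact abs_norm_sub_norm_le _ _
  have hc : 0 < ∫ s, ψ s := ψc.integral_pos_of_hasCompactSupport_nonneg_nonzero
    (HasCompactSupport.intro (isCompact_closedBall (0 : F2) (1 / 2)) fun s hs =>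
      ψz s (not_le.1 fun h1 => hs (mem_closedBall_zero_iff.2 h1)).le) ψ0 (x := 0) (by simp [hψ])
  set c := ∫ s, ψ s
  have hpi := Real.pi_pos
  refine ⟨γ, hγ, |C| + 2 * (Real.pi * 2 ^ 2) / c + 2 / c, max L₀ (2 * C₀), by positivity,
    fun L hL D hD φ φ0 φl φz => ?_⟩
  have hL1 : 2 * C₀ ≤ L := (le_max_right _ _).trans hL
  have hL0 : 0 < L := by linarith
  have hρ : 4 * (C₀ * Real.exp (-3 * L)) ≤ 1 := by
    have h1 := Real.add_one_le_exp (3 * L)
    rw [show -3 * L = -(3 * L) by ring, Real.exp_neg, ← mul_assoc, ← div_eq_mul_inv,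
      div_le_one (Real.exp_pos _)]
    linarith
  have hU := hD.up hC (by positivity) (by positivity) hρ
  have φd : ∀ y z, |φ y - φ z| ≤ ‖y - z‖ := fun y z => by
    simpa [Real.dist_eq, dist_eq_norm] using φl.dist_le_mul y z
  have φ1 : ∀ y, φ y ≤ 1 := fun y => by
    rcases le_or_gt (1 / 2) ‖y‖ with h1 | h1
    · rw [φz y h1]; norm_num
    · obtain ⟨z, hz⟩ := exists_norm_eq E (show (0 : ℝ) ≤ 1 / 2 by norm_num)
      have h4 := φd y z
      rw [φz z hz.ge, sub_zero] at h4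
      linarith [le_abs_self (φ y), norm_sub_le y z]
  have h1 := h L ((le_max_left _ _).trans hL) D.up (by rwa [finrank_up])
    (fun y => φ (p1 y) * (ψ (p2 y) / 2))
    (fun y => mul_nonneg (φ0 _) (by linarith [ψ0 (p2 y)]))
    (LipschitzWith.of_dist_le_mul fun y z => by
      have h2 := (φd (p1 y) (p1 z)).trans ((map_sub p1 y z) ▸ norm_p1_le (y - z))
      have h3 := (ψl (p2 y) (p2 z)).trans ((map_sub p2 y z) ▸ norm_p2_le (y - z))
      have h4 : φ (p1 y) * (ψ (p2 y) / 2) - φ (p1 z) * (ψ (p2 z) / 2) =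
          φ (p1 y) / 2 * (ψ (p2 y) - ψ (p2 z)) + ψ (p2 z) / 2 * (φ (p1 y) - φ (p1 z)) := by ring
      have h5 := φ0 (p1 y)
      have h6 := φ1 (p1 y)
      have h7 := ψ0 (p2 z)
      have h8 := ψ1 (p2 z)
      rw [Real.dist_eq, dist_eq_norm, NNReal.coe_one, one_mul, h4]
      refine (abs_add_le _ _).trans ?_
      rw [abs_mul, abs_mul, abs_of_nonneg (a := φ (p1 y) / 2) (by linarith),
        abs_of_nonneg (a := ψ (p2 z) / 2) (by linarith)]
      nlinarith [abs_nonneg (ψ (p2 y) - ψ (p2 z)), abs_nonneg (φ (p1 y) - φ (p1 z))])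
    (fun y hy => by
      rcases le_or_gt (1 / 2) ‖p1 y‖ with h2 | h2
      · rw [φz _ h2, zero_mul]
      · rw [ψz _ (by linarith [norm_le_add y]), zero_div, mul_zero])
  have e : ∀ f : E → ℝ, ∫ y : Up E, φ (p1 y) * (ψ (p2 y) / 2) * f (p1 y) =
      c / 2 * ∫ y, φ y * f y := fun f => by
    rw [mul_comm, ← integral_div, ← integral_up_mul (fun y => φ y * f y) fun s => ψ s / 2]
    exact integral_congr_ae (Filter.Eventually.of_forall fun y => by ring)
  have n0 : ∀ y ∈ ball (0 : E) 2, 0 ≤ D.τ y + D.ee y := fun y hy =>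
    add_nonneg (hD.τ_nonneg (ball_subset_ball (by norm_num) hy)) (hD.ee_nonneg y)
  have e2 : ∫ y in ball (0 : Up E) 2, (D.up.τ y + D.up.ee y) ≤
      (∫ y in ball (0 : E) 2, (D.τ y + D.ee y)) * (Real.pi * 2 ^ 2) := by
    rw [← setIntegral_up (fun y => D.τ y + D.ee y) measurableSet_ball (0 : F2) (by norm_num)]
    simp only [up_τ]
    refine setIntegral_mono_set (integrableOn_up (hD.cont_τ.add hD.c_ee)
      (bounded_box isBounded_ball _ _)) ?_ (LE.le.eventuallyLE fun z hz => ⟨mem_p1 hz, ?_⟩)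
    · refine (ae_restrict_iff' ?_).2 (Filter.Eventually.of_forall fun z hz => n0 _ hz.1)
      exact (measurableSet_ball.preimage (p1 (E := E)).continuous.measurable).inter
        (measurableSet_ball.preimage (p2 (E := E)).continuous.measurable)
    · exact mem_ball_zero_iff.2 ((norm_p2_le z).trans_lt (mem_ball_zero_iff.1 hz))
  simp only [up_β, up_τ] at h1 e2
  rw [e D.β, e D.τ, show (fun y : Up E => φ (p1 y) * (ψ (p2 y) / 2) * D.up.ee y) =
    fun y : Up E => φ (p1 y) * (ψ (p2 y) / 2) * D.ee (p1 y) from rfl, e D.ee] at h1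
  have n1 : 0 ≤ ∫ y in ball (0 : E) 2, (D.τ y + D.ee y) := setIntegral_nonneg measurableSet_ball n0
  have n2 : 0 ≤ ∫ y, φ y * D.ee y := integral_nonneg fun y => mul_nonneg (φ0 y) (hD.ee_nonneg y)
  generalize ∫ y in ball (0 : E) 2, (D.τ y + D.ee y) = a₁ at *
  generalize ∫ y, φ y * D.ee y = a₂ at *
  generalize ∫ y, φ y * D.β y = a₃ at *
  generalize ∫ y, φ y * D.τ y = a₄ at *
  have x1 := Real.exp_pos (-L / 2)
  have x2 := Real.exp_pos (-L ^ 2)
  have h2 := h1.trans (add_le_add (add_le_add le_rfl (mul_le_mul_of_nonneg_left e2 x1.le)) le_rfl)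
  have h3 : a₃ ≤ L ^ (-(1 + γ)) * a₄ + C * a₂ +
      2 * (Real.pi * 2 ^ 2) / c * (Real.exp (-L / 2) * a₁) + 2 / c * Real.exp (-L ^ 2) := by
    refine le_of_mul_le_mul_left (h2.trans_eq ?_) (half_pos hc)
    field_simp
  have k1 : 0 ≤ 2 * (Real.pi * 2 ^ 2) / c := by positivity
  have k2 : 0 ≤ 2 / c := by positivity
  have k3 := abs_nonneg C
  have k4 := le_abs_self C
  have k5 := mul_nonneg x1.le n1
  rw [mul_assoc _ (Real.exp (-L / 2))]
  refine h3.trans (add_le_add (add_le_add (add_le_add le_rfl ?_) ?_) ?_) <;> gcongr <;> linarith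

end Pool.Agent.Lib.MP_8daebb_an.AS
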