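import Pool.Agent.Lib.MP_8daebb_an.AS.Main
import Pool.Agent.Lib.MP_8daebb_an.AS.Lift
import Pool.Agent.Lib.MP_8daebb_an.G6.Main

/-! The one-sided stress lemma in every dimension. -/

open Module

namespace Pool.Agent.Lib.MP_8daebb_an.AS

variable {E : Type*} [NormedAddCommGroup E] [InnerProductSpace ℝ E] [FiniteDimensional ℝ E]
  [MeasurableSpace E] [BorelSpace E]

theorem slemL {ι : Type*} [Fintype ι] (hE : 1 ≤ finrank ℝ E) : SLemL E ι :=
  have h3 : 3 ≤ finrank ℝ (Up E) := by rw [finrank_up]; omega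
  lift hE (s_lemma h3 (G6.geomStmt h3))

end Pool.Agent.Lib.MP_8daebb_an.AS
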