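import Pool.Agent.Lib.MP_8daebb_an.AS.Df2

/-! Basic facts on stress triples. -/

open MeasureTheory Metric Set Module
open scoped RealInnerProductSpace

namespace Pool.Agent.Lib.MP_8daebb_an.AS

open HK

variable {E : Type*} [NormedAddCommGroup E] [InnerProductSpace ℝ E] [FiniteDimensional ℝ E]
  [MeasurableSpace E] [BorelSpace E]

variable {ε ff : E → ℝ} {T : E → E →L[ℝ] E} {C₁ ρ B κ tM : ℝ}

theorem tr_eq_sum {ι : Type*} [Fintype ι] (b : OrthonormalBasis ι ℝ E) (A : E →L[ℝ] E) :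
    tr A = ∑ i, ⟪A (b i), b i⟫ := by
  unfold tr
  rw [LinearMap.trace_eq_sum_inner _ b]
  exact Finset.sum_congr rfl fun i _ => real_inner_comm _ _

theorem continuous_tr : Continuous (tr : (E →L[ℝ] E) → ℝ) := by
  have : (tr : (E →L[ℝ] E) → ℝ) = fun A => ∑ i, ⟪A (stdOrthonormalBasis ℝ E i),
    stdOrthonormalBasis ℝ E i⟫ := funext (tr_eq_sum _)
  rw [this]
  fun_prop

theorem abs_tr_le (A : E →L[ℝ] E) : |tr A| ≤ finrank ℝ E * ‖A‖ := by
  set b := stdOrthonormalBasis ℝ E
  rw [tr_eq_sum b]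
  refine (Finset.abs_sum_le_sum_abs _ _).trans
    ((Finset.sum_le_sum (g := fun _ => ‖A‖) fun i _ => ?_).trans (by simp))
  refine (abs_real_inner_le_norm _ _).trans ?_
  have := A.le_opNorm (b i)
  rwa [b.orthonormal.1 i, mul_one] at this ⊢

theorem lap_eq_sum {ι : Type*} [Fintype ι] (b : OrthonormalBasis ι ℝ E) {f : E → ℝ}
    (hf : ContDiff ℝ 2 f) (x : E) :
    lap f x = ∑ i, fderiv ℝ (fun y => fderiv ℝ f y (b i)) x (b i) := by
  unfold lap
  rw [tr_eq_sum b]
  refine Finset.sum_congr rfl fun i _ => ?_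
  have h1 : Differentiable ℝ (fderiv ℝ f) :=
    (hf.fderiv_right (m := 1) (by norm_num)).differentiable one_ne_zero
  have h2 : DifferentiableAt ℝ (gradient f) x :=
    (InnerProductSpace.toDual ℝ E).symm.toContinuousLinearEquiv.differentiableAt.comp x (h1 x)
  have h3 : (fun y => fderiv ℝ f y (b i)) = fun y => ⟪b i, gradient f y⟫ := by
    funext y
    rw [real_inner_comm]
    exact (InnerProductSpace.toDual_symm_apply).symm
  have h4 : HasFDerivAt (fun y => ⟪b i, gradient f y⟫)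
      ((innerSL ℝ (b i)).comp (fderiv ℝ (gradient f) x)) x :=
    (innerSL ℝ (b i)).hasFDerivAt.comp x h2.hasFDerivAt
  rw [h3, h4.fderiv]
  exact real_inner_comm _ _

/-- A symmetric nonnegative operator. -/
structure PsdBas (A : E →L[ℝ] E) : Prop where
  symm : ∀ v w, ⟪A v, w⟫ = ⟪v, A w⟫
  psd : ∀ v, 0 ≤ ⟪A v, v⟫

theorem PsdBas.tr_nonneg {A : E →L[ℝ] E} (h : PsdBas A) : 0 ≤ tr A := by
  rw [tr_eq_sum (stdOrthonormalBasis ℝ E)]
  exact Finset.sum_nonneg fun i _ => h.psd _

theorem PsdBas.cs {A : E →L[ℝ] E} (h : PsdBas A) (v w : E) :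
    ⟪A v, w⟫ ^ 2 ≤ ⟪A v, v⟫ * ⟪A w, w⟫ := by
  have := discrim_le_zero (a := ⟪A w, w⟫) (b := 2 * ⟪A v, w⟫) (c := ⟪A v, v⟫) fun x => by
    have h1 := h.psd (v + x • w)
    have h2 : ⟪A w, v⟫ = ⟪A v, w⟫ := by rw [h.symm, real_inner_comm]
    simp only [map_add, map_smul, inner_add_left, inner_add_right, real_inner_smul_left,
      real_inner_smul_right, h2] at h1
    linarith
  unfold discrim at this
  linarith

theorem PsdBas.sq_le {A : E →L[ℝ] E} (h : PsdBas A) (v : E) :
    ‖A v‖ ^ 2 ≤ ⟪A v, v⟫ * tr A := by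
  set b := stdOrthonormalBasis ℝ E
  rw [← b.sum_sq_inner_left, tr_eq_sum b, Finset.mul_sum]
  exact Finset.sum_le_sum fun i _ => h.cs _ _

theorem PsdBas.inner_le {A : E →L[ℝ] E} (h : PsdBas A) (v : E) : ⟪A v, v⟫ ≤ tr A * ‖v‖ ^ 2 := by
  rcases (h.psd v).eq_or_lt with e | e
  · rw [← e]; exact mul_nonneg h.tr_nonneg (sq_nonneg _)
  refine le_of_mul_le_mul_left ?_ e
  have h1 := pow_le_pow_left₀ e.le (real_inner_le_norm (A v) v) 2
  have h2 := mul_le_mul_of_nonneg_right (h.sq_le v) (sq_nonneg ‖v‖)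
  rw [mul_pow] at h1
  linarith

theorem PsdBas.norm_le {A : E →L[ℝ] E} (h : PsdBas A) : ‖A‖ ≤ tr A := by
  refine A.opNorm_le_bound h.tr_nonneg fun v => ?_
  refine le_of_sq_le_sq ?_ (mul_nonneg h.tr_nonneg (norm_nonneg _))
  have := mul_le_mul_of_nonneg_right (h.inner_le v) h.tr_nonneg
  linarith [h.sq_le v]

theorem PsdBas.conj {A : E →L[ℝ] E} (h : PsdBas A) (W : Submodule ℝ E) :
    PsdBas (W.starProjection.comp (A.comp W.starProjection)) := by
  refine ⟨fun v w => ?_, fun v => ?_⟩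
  · simp only [ContinuousLinearMap.comp_apply]
    rw [W.inner_starProjection_left_eq_right, h.symm, W.inner_starProjection_left_eq_right]
  · simp only [ContinuousLinearMap.comp_apply]
    rw [W.inner_starProjection_left_eq_right]
    exact h.psd _

theorem tr_conj_bas (A : E →L[ℝ] E) (W : Submodule ℝ E) :
    tr (A.comp W.starProjection) = tr (W.starProjection.comp (A.comp W.starProjection)) := by
  have h1 : A.comp W.starProjection = (A.comp W.starProjection).comp W.starProjection := by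
    ext v
    simp only [ContinuousLinearMap.comp_apply]
    rw [Submodule.starProjection_eq_self_iff.2 (W.starProjection_apply_mem v)]
  conv_lhs => rw [h1]
  exact LinearMap.trace_comp_comm' _ _

theorem St.psdBas (h : St ε T ff C₁ ρ B κ tM) (y : E) : PsdBas (T y) := ⟨h.symm y, h.psd y⟩

theorem St.τ_nonneg (h : St ε T ff C₁ ρ B κ tM) (y : E) : 0 ≤ τf T y := by
  exact (h.psdBas y).tr_nonneg

theorem St.cs (h : St ε T ff C₁ ρ B κ tM) (y v w : E) :
    ⟪T y v, w⟫ ^ 2 ≤ ⟪T y v, v⟫ * ⟪T y w, w⟫ := by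
  exact (h.psdBas y).cs v w

theorem St.inner_le (h : St ε T ff C₁ ρ B κ tM) (y v : E) : ⟪T y v, v⟫ ≤ τf T y * ‖v‖ ^ 2 := by
  exact (h.psdBas y).inner_le v

theorem St.norm_le (h : St ε T ff C₁ ρ B κ tM) (y : E) : ‖T y‖ ≤ τf T y := by
  exact (h.psdBas y).norm_le

theorem St.c_τ (h : St ε T ff C₁ ρ B κ tM) : Continuous (τf T) := by
  exact continuous_tr.comp h.c_T

theorem St.c_β (h : St ε T ff C₁ ρ B κ tM) : Continuous (βf ε T) := by
  exact (continuous_const.mul h.c_ε).sub h.c_τ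

theorem St.i_τ (h : St ε T ff C₁ ρ B κ tM) : Integrable (τf T) := by
  refine (h.i_T.norm.const_mul (finrank ℝ E : ℝ)).mono' h.c_τ.aestronglyMeasurable
    (.of_forall fun y => abs_tr_le _)

theorem St.i_β (h : St ε T ff C₁ ρ B κ tM) : Integrable (βf ε T) := by
  exact (h.i_ε.const_mul 2).sub h.i_τ

theorem St.abs_β_le (h : St ε T ff C₁ ρ B κ tM) (y : E) : |βf ε T y| ≤ 3 * B := by
  have h1 := abs_le.1 (h.ε_le y)
  have h2 := h.τ_le y
  have h3 := h.τ_nonneg y
  unfold τf at h2 h3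
  unfold βf
  rw [abs_le]
  constructor <;> linarith [h1.1, h1.2]

theorem St.bm_ε (h : St ε T ff C₁ ρ B κ tM) : BM ε := by
  exact ⟨h.c_ε.measurable, B, h.ε_le⟩

theorem St.bm_τ (h : St ε T ff C₁ ρ B κ tM) : BM (τf T) := by
  exact ⟨h.c_τ.measurable, B, fun y => (abs_of_nonneg (h.τ_nonneg y)).trans_le (h.τ_le y)⟩

theorem St.bm_β (h : St ε T ff C₁ ρ B κ tM) : BM (βf ε T) := by
  exact ⟨h.c_β.measurable, 3 * B, h.abs_β_le⟩

theorem St.bm_ff (h : St ε T ff C₁ ρ B κ tM) : BM ff := by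
  exact ⟨h.c_ff.measurable, B, fun y => (abs_of_nonneg (h.ff_nonneg y)).trans_le (h.ff_le y)⟩

theorem bm_inner_bas {A : E → E →L[ℝ] E} (hA : Continuous A) {K : ℝ} (hK : ∀ y, ‖A y‖ ≤ K)
    (v w : E) : BM (fun y => ⟪A y v, w⟫) := by
  refine ⟨(by fun_prop : Continuous fun y => ⟪A y v, w⟫).measurable, K * ‖v‖ * ‖w‖, fun y => ?_⟩
  refine (abs_real_inner_le_norm _ _).trans (mul_le_mul_of_nonneg_right ?_ (norm_nonneg _))
  exact ((A y).le_opNorm v).trans (mul_le_mul_of_nonneg_right (hK y) (norm_nonneg _))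

theorem St.norm_le_bas (h : St ε T ff C₁ ρ B κ tM) (y : E) : ‖T y‖ ≤ B :=
  (h.norm_le y).trans (h.τ_le y)

theorem St.bm_inner (h : St ε T ff C₁ ρ B κ tM) (v w : E) : BM (fun y => ⟪T y v, w⟫) := by
  exact bm_inner_bas h.c_T h.norm_le_bas v w

theorem St.tt_le (h : St ε T ff C₁ ρ B κ tM) (x : E) {t : ℝ} (ht : 0 < t) : tt T x t ≤ C₁ := by
  have h1 : P t (τf T) x ≤ P t (fun y => |ε y| + τf T y) x :=
    P_mono h.bm_τ (h.bm_ε.abs.add h.bm_τ) ht (fun y => le_add_of_nonneg_left (abs_nonneg _)) x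
  have h2 : 0 ≤ P t (τf T) x := P_nonneg ht.le h.τ_nonneg x
  exact (mul_le_mul (le_add_of_nonneg_right (sq_nonneg ρ)) h1 h2 (by positivity)).trans
    (h.dens x t ht)

theorem St.τpar_nonneg (h : St ε T ff C₁ ρ B κ tM) (W : Submodule ℝ E) (y : E) :
    0 ≤ τpar W T y := by
  unfold τpar
  rw [tr_conj_bas]
  exact ((h.psdBas y).conj W).tr_nonneg

theorem St.τpar_le (h : St ε T ff C₁ ρ B κ tM) (W : Submodule ℝ E) (y : E) :
    τpar W T y ≤ τf T y := by
  have h1 : τf T y = τpar W T y + τpar Wᗮ T y := by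
    unfold τf τpar
    simp only [tr_eq_sum (stdOrthonormalBasis ℝ E), ContinuousLinearMap.comp_apply]
    rw [← Finset.sum_add_distrib]
    refine Finset.sum_congr rfl fun i _ => ?_
    rw [← inner_add_left, ← map_add, W.starProjection_add_starProjection_orthogonal]
  linarith [h.τpar_nonneg Wᗮ y]

theorem St.inner_le_τpar (h : St ε T ff C₁ ρ B κ tM) (W : Submodule ℝ E) (y : E) {v : E}
    (hv : v ∈ W) : ⟪T y v, v⟫ ≤ τpar W T y * ‖v‖ ^ 2 := by
  have h1 := ((h.psdBas y).conj W).inner_le v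
  simp only [ContinuousLinearMap.comp_apply] at h1
  rw [W.inner_starProjection_left_eq_right, Submodule.starProjection_eq_self_iff.2 hv,
    ← tr_conj_bas] at h1
  exact h1

theorem St.c_τpar (h : St ε T ff C₁ ρ B κ tM) (W : Submodule ℝ E) : Continuous (τpar W T) := by
  exact continuous_tr.comp (h.c_T.clm_comp continuous_const)

section PV

variable {F : Type*} [NormedAddCommGroup F] [NormedSpace ℝ F] {g : E → F} {K s : ℝ}

/-- Heat average of a vector valued function. -/
noncomputable def PVbas (s : ℝ) (g : E → F) (x : E) : F := ∫ y, G s (y - x) • g y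

theorem PVbas_shift (s : ℝ) (g : E → F) (x : E) : PVbas s g x = ∫ z, G s z • g (x + z) := by
  rw [PVbas, ← integral_add_left_eq_self _ x]
  simp

theorem norm_G_smul_bas (hs : 0 < s) (z : E) (a : F) : ‖G s z • a‖ = G s z * ‖a‖ := by
  rw [norm_smul, Real.norm_eq_abs, abs_G hs.le]

theorem int_PVbas (hg : Continuous g) (hK : ∀ y, ‖g y‖ ≤ K) (hs : 0 < s) (x : E) :
    Integrable fun y => G s (y - x) • g y :=
  ((integrable_G_sub hs x).mul_const K).mono'
    (by fun_prop : Continuous fun y => G s (y - x) • g y).aestronglyMeasurable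
    (.of_forall fun y => (norm_G_smul_bas hs _ _).trans_le
      (mul_le_mul_of_nonneg_left (hK y) (G_nonneg hs.le _)))

theorem norm_PVbas (hs : 0 < s) (g : E → F) (x : E) :
    ‖PVbas s g x‖ ≤ P s (fun y => ‖g y‖) x := by
  refine (norm_integral_le_integral_norm _).trans (le_of_eq ?_)
  simp only [norm_G_smul_bas hs]
  rfl

theorem norm_PVbas_le (hK : ∀ y, ‖g y‖ ≤ K) (hs : 0 < s) (x : E) : ‖PVbas s g x‖ ≤ K :=
  (norm_PVbas hs g x).trans ((le_abs_self _).trans
    (abs_P_le_const hs (fun y => (abs_norm _).trans_le (hK y)) x))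

theorem continuous_PVbas (hg : Continuous g) (hK : ∀ y, ‖g y‖ ≤ K) (hs : 0 < s) :
    Continuous (PVbas s g) := by
  rw [funext (PVbas_shift s g)]
  exact continuous_of_dominated (bound := fun z => G s z * K)
    (fun x => (by fun_prop : Continuous fun z => G s z • g (x + z)).aestronglyMeasurable)
    (fun x => .of_forall fun z => (norm_G_smul_bas hs _ _).trans_le
      (mul_le_mul_of_nonneg_left (hK _) (G_nonneg hs.le _)))
    ((integrable_G hs).mul_const K) (.of_forall fun z => by fun_prop)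

theorem hasFDerivAt_PVbas (hg : ContDiff ℝ 1 g) (hK : ∀ y, ‖g y‖ ≤ K)
    (hK' : ∀ y, ‖fderiv ℝ g y‖ ≤ K) (hs : 0 < s) (x : E) :
    HasFDerivAt (PVbas s g) (PVbas s (fderiv ℝ g) x) x := by
  have c0 := hg.continuous
  have c1 : Continuous (fderiv ℝ g) := hg.continuous_fderiv one_ne_zero
  rw [funext (PVbas_shift s g), PVbas_shift]
  refine hasFDerivAt_integral_of_dominated_of_fderiv_le (s := univ)
    (F' := fun x z => G s z • fderiv ℝ g (x + z)) (bound := fun z => G s z * K) Filter.univ_mem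
    (.of_forall fun x => (by fun_prop : Continuous fun z => G s z • g (x + z)).aestronglyMeasurable)
    (((integrable_G hs).mul_const K).mono'
      (by fun_prop : Continuous fun z => G s z • g (x + z)).aestronglyMeasurable
      (.of_forall fun z => (norm_G_smul_bas hs _ _).trans_le
        (mul_le_mul_of_nonneg_left (hK _) (G_nonneg hs.le _))))
    (by fun_prop : Continuous fun z => G s z • fderiv ℝ g (x + z)).aestronglyMeasurable
    (.of_forall fun z x _ => (norm_G_smul_bas hs _ _).trans_le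
      (mul_le_mul_of_nonneg_left (hK' _) (G_nonneg hs.le _)))
    ((integrable_G hs).mul_const K) (.of_forall fun z x _ => ?_)
  have h1 := ((hg.differentiable one_ne_zero) (x + z)).hasFDerivAt
  exact ((hasFDerivAt_comp_add_right z).2 h1).const_smul (G s z)

end PV

theorem inner_PV_bas {A : E → E →L[ℝ] E} (hA : Continuous A) {K s : ℝ} (hK : ∀ y, ‖A y‖ ≤ K)
    (hs : 0 < s) (x v w : E) : ⟪PVbas s A x v, w⟫ = P s (fun y => ⟪A y v, w⟫) x := by
  have h1 := ((innerSL ℝ w).comp (ContinuousLinearMap.apply ℝ E v)).integral_comp_comm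
    (int_PVbas hA hK hs x)
  simp only [ContinuousLinearMap.comp_apply, ContinuousLinearMap.apply_apply, innerSL_apply_apply,
    smul_apply, real_inner_smul_right] at h1
  rw [real_inner_comm]
  refine h1.symm.trans ?_
  simp only [real_inner_comm w]
  rfl

theorem St.inner_PT (h : St ε T ff C₁ ρ B κ tM) {s : ℝ} (hs : 0 < s) (x v w : E) :
    ⟪PT s T x v, w⟫ = P s (fun y => ⟪T y v, w⟫) x := by
  exact inner_PV_bas h.c_T h.norm_le_bas hs x v w

theorem St.τf_PT (h : St ε T ff C₁ ρ B κ tM) {s : ℝ} (hs : 0 < s) :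
    τf (PT s T) = P s (τf T) := by
  funext x
  have e : τf T = fun y => ∑ i, ⟪T y (stdOrthonormalBasis ℝ E i), stdOrthonormalBasis ℝ E i⟫ :=
    funext fun y => tr_eq_sum _ _
  rw [e, P_sum _ (fun i _ => h.bm_inner _ _) hs, τf, tr_eq_sum (stdOrthonormalBasis ℝ E)]
  exact Finset.sum_congr rfl fun i _ => h.inner_PT hs x _ _

theorem St.βf_PT (h : St ε T ff C₁ ρ B κ tM) {s : ℝ} (hs : 0 < s) :
    βf (P s ε) (PT s T) = P s (βf ε T) := by
  funext x
  have h1 := P_sub (h.bm_ε.const_mul 2) h.bm_τ hs x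
  rw [P_const_mul, ← h.τf_PT hs] at h1
  exact h1.symm

theorem St.τpar_PT (h : St ε T ff C₁ ρ B κ tM) (W : Submodule ℝ E) {s : ℝ} (hs : 0 < s) :
    τpar W (PT s T) = P s (τpar W T) := by
  funext x
  have e : τpar W T = fun y => ∑ i, ⟪T y (W.starProjection (stdOrthonormalBasis ℝ E i)),
      stdOrthonormalBasis ℝ E i⟫ := funext fun y => tr_eq_sum _ _
  rw [e, P_sum _ (fun i _ => h.bm_inner _ _) hs, τpar, tr_eq_sum (stdOrthonormalBasis ℝ E)]
  exact Finset.sum_congr rfl fun i _ => h.inner_PT hs x _ _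

theorem pair_eq_bas {ι : Type*} [Fintype ι] (b : OrthonormalBasis ι ℝ E) (e : ℝ)
    (S A : E →L[ℝ] E) : pair e S A = ∑ i, e * ⟪A (b i), b i⟫ -
      ∑ p : ι × ι, ⟪S (b p.2), b p.1⟫ * ⟪A (b p.1), b p.2⟫ := by
  unfold pair
  rw [tr_eq_sum b, tr_eq_sum b, Finset.mul_sum, Fintype.sum_prod_type]
  congr 1
  refine Finset.sum_congr rfl fun i _ => ?_
  rw [ContinuousLinearMap.comp_apply]
  conv_lhs => rw [← b.sum_repr' (A (b i))]
  rw [map_sum, sum_inner]
  refine Finset.sum_congr rfl fun j _ => ?_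
  rw [map_smul, real_inner_smul_left, real_inner_comm (A (b i)), mul_comm]

theorem St.pair_PV_bas (h : St ε T ff C₁ ρ B κ tM) {A : E → E →L[ℝ] E} (hA : Continuous A)
    {K s : ℝ} (hK : ∀ y, ‖A y‖ ≤ K) (hs : 0 < s) :
    ∫ y, pair (P s ε y) (PT s T y) (A y) = ∫ y, pair (ε y) (T y) (PVbas s A y) := by
  set b := stdOrthonormalBasis ℝ E
  have iT : ∀ v w : E, Integrable fun y => ⟪T y v, w⟫ := fun v w =>
    ((innerSL ℝ w).integrable_comp (h.i_T.apply_continuousLinearMap v)).congr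
      (.of_forall fun y => real_inner_comm _ _)
  have bA := bm_inner_bas hA hK
  simp only [pair_eq_bas b, h.inner_PT hs, inner_PV_bas hA hK hs]
  have a1 : ∀ i, Integrable fun y => P s ε y * ⟪A y (b i), b i⟫ := fun i =>
    (bA _ _).integrable_mul (integrable_P h.i_ε hs)
  have a2 : ∀ p : Fin (finrank ℝ E) × Fin (finrank ℝ E), Integrable fun y =>
      P s (fun y => ⟪T y (b p.2), b p.1⟫) y * ⟪A y (b p.1), b p.2⟫ := fun p =>
    (bA _ _).integrable_mul (integrable_P (iT _ _) hs)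
  have a3 : ∀ i, Integrable fun y => ε y * P s (fun y => ⟪A y (b i), b i⟫) y := fun i =>
    ((bA _ _).P hs).integrable_mul h.i_ε
  have a4 : ∀ p : Fin (finrank ℝ E) × Fin (finrank ℝ E), Integrable fun y =>
      ⟪T y (b p.2), b p.1⟫ * P s (fun y => ⟪A y (b p.1), b p.2⟫) y := fun p =>
    ((bA _ _).P hs).integrable_mul (iT _ _)
  rw [integral_sub (integrable_finsetSum _ fun i _ => a1 i) (integrable_finsetSum _ fun p _ => a2 p),
    integral_sub (integrable_finsetSum _ fun i _ => a3 i) (integrable_finsetSum _ fun p _ => a4 p),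
    integral_finsetSum _ fun i _ => a1 i, integral_finsetSum _ fun p _ => a2 p,
    integral_finsetSum _ fun i _ => a3 i, integral_finsetSum _ fun p _ => a4 p]
  congr 1
  · exact Finset.sum_congr rfl fun i _ => (integral_mul_P h.i_ε (bA _ _) hs).symm
  · exact Finset.sum_congr rfl fun p _ => (integral_mul_P (iT _ _) (bA _ _) hs).symm

/-- The heat average of a stress triple is a stress triple. -/
theorem St.bar (h : St ε T ff C₁ ρ B κ tM) {s : ℝ} (hs : 0 < s) (hs' : s ≤ tM / 2) :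
    St (P s ε) (PT s T) (P s ff) C₁ ρ B κ (tM / 2) := by
  have cT : Continuous (PT s T) := continuous_PVbas h.c_T h.norm_le_bas hs
  have b1 := h.bm_ε.abs.add h.bm_τ
  refine ⟨continuous_P h.bm_ε hs, cT, continuous_P h.bm_ff hs, integrable_P h.i_ε hs,
    (integrable_P h.i_T.norm hs).mono' cT.aestronglyMeasurable
      (.of_forall fun x => norm_PVbas hs T x),
    integrable_P h.i_ff hs, fun y v w => ?_, fun y v => ?_, abs_P_le_const hs h.ε_le,
    fun y => ?_, P_nonneg hs.le h.ff_nonneg, fun y => ?_,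
    fun y hy => h.ffP y s hy hs (by linarith), fun x t hx ht ht' => ?_, fun Y hY ⟨K, hK⟩ => ?_,
    h.ρ_pos, fun x t ht => ?_⟩
  · rw [real_inner_comm (PT s T y w), h.inner_PT hs, h.inner_PT hs]
    congr 1
    funext z
    rw [h.symm, real_inner_comm]
  · rw [h.inner_PT hs]
    exact P_nonneg hs.le (fun z => h.psd z v) y
  · rw [h.τf_PT hs]
    exact (le_abs_self _).trans (abs_P_le_const hs
      (fun z => (abs_of_nonneg (h.τ_nonneg z)).trans_le (h.τ_le z)) y)
  · exact (le_abs_self _).trans (abs_P_le_const hs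
      (fun z => (abs_of_nonneg (h.ff_nonneg z)).trans_le (h.ff_le z)) y)
  · rw [P_P h.bm_ff ht hs]
    exact h.ffP x _ hx (by linarith) (by linarith)
  · have k0 := fun y => (hK y).1
    have k1 := fun y => (hK y).2
    have c0 := hY.continuous
    have c1 : Continuous (fderiv ℝ Y) := hY.continuous_fderiv one_ne_zero
    have d1 := hasFDerivAt_PVbas hY k0 k1 hs
    have d2 : fderiv ℝ (PVbas s Y) = PVbas s (fderiv ℝ Y) := funext fun x => (d1 x).fderiv
    have c2 := continuous_PVbas c1 k1 hs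
    have c3 := continuous_PVbas c0 k0 hs
    have d3 : ContDiff ℝ 1 (PVbas s Y) :=
      contDiff_one_iff_fderiv.2 ⟨fun x => (d1 x).differentiableAt, d2 ▸ c2⟩
    have key := h.stat (PVbas s Y) d3
      ⟨K, fun y => ⟨norm_PVbas_le k0 hs y, d2 ▸ norm_PVbas_le k1 hs y⟩⟩
    rw [d2] at key
    rw [h.pair_PV_bas c1 k1 hs]
    have m0 : BM fun y => ‖Y y‖ := ⟨c0.norm.measurable, K, fun y => (abs_norm _).trans_le (k0 y)⟩
    have m1 : BM fun y => ‖fderiv ℝ Y y‖ :=
      ⟨c1.norm.measurable, K, fun y => (abs_norm _).trans_le (k1 y)⟩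
    rw [← integral_mul_P h.i_ff (m1.add m0) hs]
    refine key.trans (integral_mono_of_nonneg
      (.of_forall fun y => mul_nonneg (h.ff_nonneg y) (by positivity))
      (((m1.add m0).P hs).integrable_mul h.i_ff) (.of_forall fun y => ?_))
    refine mul_le_mul_of_nonneg_left ?_ (h.ff_nonneg y)
    rw [P_add m1 m0 hs]
    exact add_le_add (norm_PVbas hs _ y) (norm_PVbas hs _ y)
  · have h1 : P t (fun y => |P s ε y| + τf (PT s T) y) x ≤
        P t (P s fun y => |ε y| + τf T y) x := by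
      rw [h.τf_PT hs]
      refine P_mono ((h.bm_ε.P hs).abs.add (h.bm_τ.P hs)) (b1.P hs) ht (fun y => ?_) x
      rw [P_add h.bm_ε.abs h.bm_τ hs]
      exact add_le_add (abs_P_le hs.le ε y) le_rfl
    rw [P_P b1 ht hs] at h1
    have h2 : 0 ≤ P (t + s) (fun y => |ε y| + τf T y) x :=
      P_nonneg (by linarith) (fun y => add_nonneg (abs_nonneg _) (h.τ_nonneg y)) x
    exact ((mul_le_mul_of_nonneg_left h1 (by positivity)).trans
      (mul_le_mul_of_nonneg_right (by linarith) h2)).trans (h.dens x (t + s) (by linarith))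

theorem lipschitz_dd (W : Submodule ℝ E) (x₁ : E) : LipschitzWith 1 (dd W x₁) := by
  refine LipschitzWith.of_dist_le_mul fun y z => ?_
  rw [NNReal.coe_one, one_mul, Real.dist_eq, dist_eq_norm]
  refine (abs_norm_sub_norm_le _ _).trans ?_
  rw [← map_sub, sub_sub_sub_cancel_right]
  exact Wᗮ.norm_starProjection_apply_le _

end Pool.Agent.Lib.MP_8daebb_an.AS
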