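import Pool.Agent.Lib.MP_8daebb_an.AS.Bas2a

/-! Comparison of levels, weights, cell weights. -/

open MeasureTheory Metric Set Module Filter
open scoped RealInnerProductSpace

namespace Pool.Agent.Lib.MP_8daebb_an.AS

open HK

variable {E : Type*} [NormedAddCommGroup E] [InnerProductSpace ℝ E] [FiniteDimensional ℝ E]
  [MeasurableSpace E] [BorelSpace E]

variable {f g φ : E → ℝ} {B t : ℝ}

omit [InnerProductSpace ℝ E] [FiniteDimensional ℝ E] [MeasurableSpace E] [BorelSpace E] in
theorem kk_nonneg (l : ℝ) (z y : E) : 0 ≤ kk l z y := by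
  exact pow_nonneg (le_max_right _ _) 4

omit [InnerProductSpace ℝ E] [FiniteDimensional ℝ E] [MeasurableSpace E] [BorelSpace E] in
theorem kk_le_one (l : ℝ) (z y : E) : kk l z y ≤ 1 := by
  exact pow_le_one₀ (le_max_right _ _) (max_le (sub_le_self _ (by positivity)) zero_le_one)

omit [InnerProductSpace ℝ E] [FiniteDimensional ℝ E] [MeasurableSpace E] [BorelSpace E] in
theorem kk_eq_zero {l : ℝ} (hl : 0 < l) {z y : E} (h : l ≤ ‖y - z‖) : kk l z y = 0 := by
  have : 1 ≤ ‖y - z‖ ^ 2 / l ^ 2 :=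
    (one_le_div (by positivity)).2 (pow_le_pow_left₀ hl.le h 2)
  rw [kk, max_eq_right (by linarith), zero_pow (by norm_num)]

omit [InnerProductSpace ℝ E] [FiniteDimensional ℝ E] [MeasurableSpace E] [BorelSpace E] in
theorem kk_comm (l : ℝ) (z y : E) : kk l z y = kk l y z := by
  rw [kk, kk, norm_sub_rev]

omit [InnerProductSpace ℝ E] [FiniteDimensional ℝ E] [MeasurableSpace E] [BorelSpace E] in
theorem continuous_kk (l : ℝ) : Continuous (fun p : E × E => kk l p.1 p.2) := by
  unfold kk
  fun_prop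

theorem supp_int_bas2 {k : E → ℝ} (hk : BM k) {l : ℝ} {z : E} (h : ∀ y, l ≤ ‖y - z‖ → k y = 0) :
    Integrable k :=
  (hk.integrableOn (isBounded_ball (x := z) (r := l))).integrable_of_forall_notMem_eq_zero
    fun y hy => h y (by simpa [dist_eq_norm] using hy)

omit [InnerProductSpace ℝ E] [FiniteDimensional ℝ E] [MeasurableSpace E] [BorelSpace E] in
theorem kk_cont_bas2 (l : ℝ) (z : E) : Continuous (kk l z) := by
  unfold kk
  fun_prop

theorem kk_int_bas2 {l : ℝ} (hl : 0 < l) (z : E) (hf : BM f) :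
    Integrable (fun y => kk l z y * f y) :=
  hf.integrable_mul (supp_int_bas2
    ⟨(kk_cont_bas2 l z).measurable, 1, fun y => by
      rw [abs_of_nonneg (kk_nonneg l z y)]; exact kk_le_one l z y⟩ fun _ h => kk_eq_zero hl h)

theorem ck_pos : 0 < ck E := by
  refine integral_pos_of_integrable_nonneg_nonzero (x := (0 : E))
    (kk_cont_bas2 1 0) ?_ (kk_nonneg 1 0) (by simp [kk])
  simpa using kk_int_bas2 one_pos (0 : E) (BM.const 1)

theorem integral_kk {l : ℝ} (hl : 0 < l) (z : E) :
    ∫ y, kk l z y = ck E * l ^ finrank ℝ E := by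
  have e : ∀ y, kk l z y = kk 1 0 (l⁻¹ • (y - z)) := fun y => by
    rw [kk, kk, sub_zero, norm_smul, norm_inv, Real.norm_of_nonneg hl.le, one_pow, div_one,
      mul_pow, inv_pow, inv_mul_eq_div]
  simp only [e]
  rw [integral_sub_right_eq_self (fun y => kk 1 0 (l⁻¹ • y)) z,
    Measure.integral_comp_inv_smul_of_nonneg volume (kk 1 0) hl.le, smul_eq_mul, mul_comm, ck]

theorem integrable_kk_mul {l : ℝ} (hl : 0 < l) (z : E) (hf : BM f) :
    Integrable (fun y => kk l z y * f y) := by
  exact kk_int_bas2 hl z hf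

theorem bm_kk {l : ℝ} (hl : 0 < l) (hf : BM f) : BM (fun z => ∫ y, kk l z y * f y) := by
  obtain ⟨C, hC⟩ := hf.bdd
  refine ⟨(((continuous_kk l).measurable.mul (hf.meas.comp measurable_snd)
    ).stronglyMeasurable.integral_prod_right' (ν := volume)).measurable,
    ck E * l ^ finrank ℝ E * C, fun z => ?_⟩
  rw [← integral_kk hl z, ← integral_mul_const]
  refine norm_integral_le_of_norm_le (f := fun y => kk l z y * f y)
    (integrable_kk_mul hl z (BM.const C)) (Eventually.of_forall fun y => ?_)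
  rw [Real.norm_eq_abs, abs_mul, abs_of_nonneg (kk_nonneg l z y)]
  exact mul_le_mul_of_nonneg_left (hC y) (kk_nonneg l z y)

theorem kb_meas_bas2 (s : ℝ) :
    Measurable fun p : E × E => if ‖p.2 - p.1‖ < s then (1 : ℝ) else 0 :=
  Measurable.ite (isOpen_lt (by fun_prop) continuous_const).measurableSet measurable_const
    measurable_const

theorem kb_int_bas2 (s : ℝ) (z : E) (f : E → ℝ) :
    ∫ y in ball z s, f y = ∫ y, (if ‖y - z‖ < s then (1 : ℝ) else 0) * f y := by
  rw [← integral_indicator measurableSet_ball]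
  simp only [indicator, mem_ball, dist_eq_norm, ite_mul, one_mul, zero_mul]

theorem bm_ball {s : ℝ} (hs : 0 < s) (hf : BM f) : BM (fun z => ∫ y in ball z s, f y) := by
  obtain ⟨C, hC⟩ := hf.bdd
  refine ⟨?_, C * (s ^ finrank ℝ E * om E), fun z => ?_⟩
  · simp only [kb_int_bas2]
    exact (((kb_meas_bas2 s).mul (hf.meas.comp measurable_snd)
      ).stronglyMeasurable.integral_prod_right' (ν := volume)).measurable
  · rw [← real_ball z hs]
    exact norm_setIntegral_le_of_norm_le_const (f := f) measure_ball_lt_top fun y _ => hC y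

theorem kk_le_ball {l : ℝ} (hl : 0 < l) (z : E) (hf : BM f) (h0 : ∀ y, 0 ≤ f y) :
    ∫ y, kk l z y * f y ≤ ∫ y in ball z l, f y := by
  rw [← integral_indicator measurableSet_ball]
  refine integral_mono (integrable_kk_mul hl z hf)
    (ind_int_bas2 hf measurableSet_ball isBounded_ball) fun y => ?_
  beta_reduce
  by_cases hy : y ∈ ball z l
  · rw [indicator_of_mem hy]
    exact mul_le_of_le_one_left (h0 y) (kk_le_one l z y)
  · rw [indicator_of_notMem hy, kk_eq_zero hl (by simpa [dist_eq_norm] using hy), zero_mul]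

/-- Averaging with a symmetric kernel of small range against a weight. -/
theorem ker_bas2 (hφ : Wt φ) (hf : BM f) {l M : ℝ} (hl : 0 < l) (hl' : l ≤ 1 / 4) {k : E → E → ℝ}
    (hm : Measurable fun p : E × E => k p.1 p.2) (k0 : ∀ z y, 0 ≤ k z y) (k1 : ∀ z y, k z y ≤ 1)
    (ks : ∀ z y, k z y = k y z) (kz : ∀ z y, l ≤ ‖y - z‖ → k z y = 0)
    (kM : ∀ z, ∫ y, k z y = M) :
    |(∫ z, φ z * ∫ y, k z y * f y) - M * ∫ y, φ y * f y| ≤
      M * (l * ∫ y in ball (0 : E) (5 / 4), |f y|) := by
  have hK : MeasurableSet (ball (0 : E) (5 / 4)) := measurableSet_ball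
  have i1 := ind_int_bas2 hf.abs hK isBounded_ball
  have ki : ∀ z, Integrable (k z) := fun z => supp_int_bas2
    ⟨hm.comp measurable_prodMk_left, 1, fun y => by rw [abs_of_nonneg (k0 z y)]; exact k1 z y⟩
    (kz z)
  have out : ∀ z y, y ∉ ball (0 : E) (5 / 4) → φ z * k z y = 0 := fun z y hy => by
    rcases le_or_gt 1 ‖z‖ with hz | hz
    · rw [hφ.zero z hz, zero_mul]
    · rw [mem_ball_zero_iff] at hy
      rw [kz z y (by linarith [norm_sub_norm_le y z]), mul_zero]
  have hI : Integrable (Function.uncurry fun z y => φ z * k z y * f y) (volume.prod volume) := by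
    refine (hφ.integrable.mul_prod i1).mono' (((hφ.bm.meas.comp measurable_fst).mul hm).mul
      (hf.meas.comp measurable_snd)).aestronglyMeasurable (Eventually.of_forall fun p => ?_)
    show ‖φ p.1 * k p.1 p.2 * f p.2‖ ≤ _
    by_cases hy : p.2 ∈ ball (0 : E) (5 / 4)
    · rw [indicator_of_mem hy, Real.norm_eq_abs, abs_mul,
        abs_of_nonneg (mul_nonneg (hφ.nonneg _) (k0 _ _))]
      exact mul_le_mul_of_nonneg_right (mul_le_of_le_one_right (hφ.nonneg _) (k1 _ _))
        (abs_nonneg _)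
    · rw [indicator_of_notMem hy, out _ _ hy, zero_mul, norm_zero, mul_zero]
  have e : ∫ z, φ z * ∫ y, k z y * f y = ∫ y, ∫ z, φ z * k z y * f y := by
    rw [← integral_integral_swap hI]
    simp only [← integral_const_mul, mul_assoc]
  have hJ : Integrable fun y => ∫ z, φ z * k z y * f y := hI.integral_prod_right
  rw [e, ← integral_const_mul, ← integral_sub hJ ((hφ.integrable_mul hf).const_mul M),
    ← integral_indicator hK, ← mul_assoc, ← integral_const_mul]
  rw [← Real.norm_eq_abs]
  refine norm_integral_le_of_norm_le (i1.const_mul _) (Eventually.of_forall fun y => ?_)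
  simp only [integral_mul_const]
  by_cases hy : y ∈ ball (0 : E) (5 / 4)
  · rw [indicator_of_mem hy, ← mul_assoc, ← sub_mul, Real.norm_eq_abs, abs_mul]
    refine mul_le_mul_of_nonneg_right ?_ (abs_nonneg _)
    simp only [fun z => ks z y]
    rw [← kM y, ← integral_mul_const, ← integral_mul_const,
      ← integral_sub (hφ.bm.mul_integrable (ki y)) ((ki y).mul_const _)]
    refine norm_integral_le_of_norm_le (f := fun z => φ z * k y z - k y z * φ y)
      ((ki y).mul_const _) (Eventually.of_forall fun z => ?_)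
    rw [mul_comm (φ z), ← mul_sub, Real.norm_eq_abs, abs_mul, abs_of_nonneg (k0 y z)]
    rcases le_or_gt l ‖z - y‖ with h | h
    · rw [kz y z h, zero_mul, zero_mul]
    · exact mul_le_mul_of_nonneg_left ((hφ.sub_le z y).trans h.le) (k0 y z)
  · simp only [indicator_of_notMem hy, fun z => out z y hy, integral_zero, zero_mul, mul_zero,
      hφ.zero y (by rw [mem_ball_zero_iff] at hy; linarith), sub_self, norm_zero, le_refl]

theorem wt_kk (hφ : Wt φ) (hf : BM f) {l : ℝ} (hl : 0 < l) (hl' : l ≤ 1 / 4) :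
    |(∫ z, φ z * ∫ y, kk l z y * f y) - ck E * l ^ finrank ℝ E * ∫ y, φ y * f y| ≤
      ck E * l ^ finrank ℝ E * (l * ∫ y in ball (0 : E) (5 / 4), |f y|) := by
  exact ker_bas2 hφ hf hl hl' (continuous_kk l).measurable (kk_nonneg l) (kk_le_one l)
    (kk_comm l) (fun z y h => kk_eq_zero hl h) (integral_kk hl)

theorem wt_ball (hφ : Wt φ) (hf : BM f) (h0 : ∀ y, 0 ≤ f y) {s : ℝ} (hs : 0 < s)
    (hs' : s ≤ 1 / 4) :
    ∫ z, φ z * ∫ y in ball z s, f y ≤ om E * s ^ finrank ℝ E *
      ((∫ y, φ y * f y) + s * ∫ y in ball (0 : E) (5 / 4), f y) := by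
  have h := ker_bas2 hφ hf hs hs' (k := fun z y => if ‖y - z‖ < s then 1 else 0)
    (M := om E * s ^ finrank ℝ E) (kb_meas_bas2 s) (fun z y => by split_ifs <;> norm_num)
    (fun z y => by split_ifs <;> norm_num) (fun z y => by rw [norm_sub_rev])
    (fun z y h => if_neg (not_lt.2 h)) fun z => by
      have := kb_int_bas2 s z fun _ => 1
      simp only [mul_one] at this
      rw [← this, setIntegral_const, real_ball z hs, smul_eq_mul, mul_one, mul_comm]
  simp only [← kb_int_bas2, abs_of_nonneg (h0 _)] at h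
  linarith [(abs_le.1 h).2]

end Pool.Agent.Lib.MP_8daebb_an.AS
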