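import Pool.Agent.Lib.MP_8daebb_an.AS.Bas

/-! Comparison of levels and weights. -/

open MeasureTheory Metric Set Module Filter
open scoped RealInnerProductSpace

namespace Pool.Agent.Lib.MP_8daebb_an.AS

open HK

variable {E : Type*} [NormedAddCommGroup E] [InnerProductSpace ℝ E] [FiniteDimensional ℝ E]
  [MeasurableSpace E] [BorelSpace E]

variable {f g φ : E → ℝ} {B t : ℝ}

theorem far_bas2 (ht : 0 < t) (hB : ∀ y, |f y| ≤ B) {d : ℝ} (hd0 : 0 ≤ d) {x : E}
    (h : ∀ y, f y ≠ 0 → d ≤ ‖y - x‖) :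
    |P t f x| ≤ 2 ^ hd E * Real.exp (-(d ^ 2 / (8 * t))) * B := by
  have h1 := abs_P_le_tail (f := f) (BM.const B) ht (A := d ^ 2 / t) (x := x) hB fun y hy => by
    rw [div_mul_cancel₀ _ ht.ne']
    exact pow_le_pow_left₀ hd0 (h y hy) 2
  rwa [P_const (by positivity), div_div, mul_comm t 8] at h1

theorem P_split_bas2 (hf : BM f) (ht : 0 < t) {K : Set E} (hK : MeasurableSet K) (x : E) :
    P t f x = P t (K.indicator f) x + P t (Kᶜ.indicator f) x := by
  rw [← P_add (hf.indicator hK) (hf.indicator hK.compl) ht]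
  simp only [indicator_self_add_compl_apply]

theorem ind_int_bas2 (hf : BM f) {K : Set E} (hK : MeasurableSet K)
    (hb : Bornology.IsBounded K) : Integrable (K.indicator f) :=
  (integrable_indicator_iff hK).2 (hf.integrableOn hb)

theorem abs_ind_bas2 {X : Type*} {f : X → ℝ} (hB : ∀ y, |f y| ≤ B) (K : Set X) (y : X) :
    |K.indicator f y| ≤ B := by
  by_cases hy : y ∈ K
  · rw [indicator_of_mem hy]; exact hB y
  · rw [indicator_of_notMem hy, abs_zero]; exact (abs_nonneg _).trans (hB y)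

omit [InnerProductSpace ℝ E] [FiniteDimensional ℝ E] [MeasurableSpace E] [BorelSpace E] in
theorem thick_bas2 {A : Set E} {d : ℝ} {x y : E} (hx : x ∉ cthickening d A) (hy : y ∈ A) :
    d ≤ ‖x - y‖ := by
  by_contra h
  exact hx (mem_cthickening_of_dist_le x y d A hy (by rw [dist_eq_norm]; linarith))

theorem lev (hf : BM f) (h0 : ∀ y, 0 ≤ f y) (hB : ∀ y, f y ≤ B) (ht : 0 < t) {A : Set E}
    (hA : MeasurableSet A) (hb : Bornology.IsBounded A) {d : ℝ} (hd0 : 0 < d) :
    ∫ y in A, P t f y ≤ (∫ y in cthickening d A, f y) +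
      2 ^ hd E * Real.exp (-(d ^ 2 / (8 * t))) * B * volume.real A := by
  have hK : MeasurableSet (cthickening d A) := isClosed_cthickening.measurableSet
  have h1 := ind_int_bas2 hf hK hb.cthickening
  have h2 := integrable_P h1 ht
  have hc : IntegrableOn (fun _ : E => 2 ^ hd E * Real.exp (-(d ^ 2 / (8 * t))) * B) A :=
    (BM.const _).integrableOn hb
  calc _ ≤ ∫ y in A, (P t ((cthickening d A).indicator f) y +
        2 ^ hd E * Real.exp (-(d ^ 2 / (8 * t))) * B) := by
        refine setIntegral_mono_on ((hf.P ht).integrableOn hb) (h2.integrableOn.add hc) hA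
          fun y hy => ?_
        rw [P_split_bas2 hf ht hK]
        refine add_le_add le_rfl ((le_abs_self _).trans (far_bas2 ht
          (abs_ind_bas2 (fun z => by rw [abs_of_nonneg (h0 z)]; exact hB z) _) hd0.le
          fun z hz => thick_bas2 (mem_of_indicator_ne_zero hz) hy))
    _ ≤ _ := by
        rw [integral_add h2.integrableOn hc, setIntegral_const, smul_eq_mul, mul_comm,
          ← integral_indicator hK, ← integral_P h1 ht]
        exact add_le_add (setIntegral_le_integral h2 (Eventually.of_forall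
          (P_nonneg ht.le (indicator_nonneg fun y _ => h0 y)))) le_rfl

theorem lev' : ∃ C > (0 : ℝ), ∀ (f : E → ℝ) (t d : ℝ) (A : Set E), BM f → (∀ y, 0 ≤ f y) →
    0 < t → MeasurableSet A → Bornology.IsBounded A → 0 < d → C * t ≤ d ^ 2 →
    ∫ y in A, f y ≤ 2 * ∫ y in cthickening d A, P t f y := by
  have hh := hd_nonneg (V := E)
  refine ⟨8 * (hd E + 1), by positivity, fun f t d A hf h0 ht hA hb hd0 hC => ?_⟩
  have hK : MeasurableSet (cthickening d A) := isClosed_cthickening.measurableSet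
  have h1 := ind_int_bas2 hf hA hb
  have h2 := integrable_P h1 ht
  have h3 := integrable_P h1 (show 0 < 2 * t by positivity)
  have i0 : ∀ y, 0 ≤ A.indicator f y := indicator_nonneg fun y _ => h0 y
  have hθ : (2 : ℝ) ^ hd E * Real.exp (-(8 * (hd E + 1) / 8)) ≤ 1 / 2 := by
    have a : (2 : ℝ) ^ (hd E + 1) ≤ Real.exp 1 ^ (hd E + 1) :=
      Real.rpow_le_rpow (by norm_num) (by linarith [Real.add_one_le_exp 1]) (by positivity)
    rw [Real.exp_one_rpow, Real.rpow_add_one two_ne_zero] at a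
    rw [mul_div_cancel_left₀ _ (by norm_num), Real.exp_neg, ← div_eq_mul_inv,
      div_le_iff₀ (Real.exp_pos _)]
    linarith
  have e1 : ∫ y in (cthickening d A)ᶜ, P t (A.indicator f) y ≤ 1 / 2 * ∫ y in A, f y := by
    calc _ ≤ ∫ y in (cthickening d A)ᶜ, 1 / 2 * P (2 * t) (A.indicator f) y := by
          refine setIntegral_mono_on h2.integrableOn (h3.const_mul _).integrableOn hK.compl
            fun x hx => (le_abs_self _).trans ((abs_P_le_tail (hf.indicator hA) ht
              (A := 8 * (hd E + 1)) (fun y => (abs_of_nonneg (i0 y)).le) fun y hy => ?_).trans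
              (mul_le_mul_of_nonneg_right hθ (P_nonneg (by positivity) i0 x)))
          have := thick_bas2 hx (mem_of_indicator_ne_zero hy)
          rw [norm_sub_rev] at this
          exact hC.trans (pow_le_pow_left₀ hd0.le this 2)
      _ ≤ ∫ y, 1 / 2 * P (2 * t) (A.indicator f) y :=
          setIntegral_le_integral (h3.const_mul _) (Eventually.of_forall fun x =>
            mul_nonneg (by norm_num) (P_nonneg (by positivity) i0 x))
      _ = _ := by rw [integral_const_mul, integral_P h1 (by positivity), integral_indicator hA]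
  have e2 : ∫ y in cthickening d A, P t (A.indicator f) y ≤ ∫ y in cthickening d A, P t f y :=
    setIntegral_mono_on h2.integrableOn ((hf.P ht).integrableOn hb.cthickening) hK fun x _ =>
      P_mono (hf.indicator hA) hf ht (indicator_le_self' fun y _ => h0 y) x
  have e3 := integral_add_compl hK h2
  rw [integral_P h1 ht, integral_indicator hA] at e3
  linarith

omit [InnerProductSpace ℝ E] [FiniteDimensional ℝ E] [MeasurableSpace E] [BorelSpace E] in
theorem Wt.sub_le (h : Wt φ) (y z : E) : |φ y - φ z| ≤ ‖y - z‖ := by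
  have := h.lip.dist_le_mul y z
  rwa [NNReal.coe_one, one_mul, dist_eq_norm y z, Real.dist_eq] at this

omit [FiniteDimensional ℝ E] [MeasurableSpace E] [BorelSpace E] in
theorem Wt.le_one [Nontrivial E] (h : Wt φ) (y : E) : φ y ≤ 1 := by
  rcases le_or_gt 1 ‖y‖ with hy | hy
  · rw [h.zero y hy]; exact zero_le_one
  obtain ⟨z, hz, hz'⟩ : ∃ z : E, 1 ≤ ‖z‖ ∧ ‖y - z‖ ≤ 1 := by
    rcases eq_or_ne y 0 with rfl | h0
    · obtain ⟨z, hz⟩ := exists_norm_eq E zero_le_one
      exact ⟨z, hz.ge, by rw [zero_sub, norm_neg, hz]⟩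
    · have hn : 0 < ‖y‖ := norm_pos_iff.2 h0
      refine ⟨y + ‖y‖⁻¹ • y, ?_, by
        rw [sub_add_cancel_left, norm_neg, norm_smul, norm_inv, norm_norm,
          inv_mul_cancel₀ hn.ne']⟩
      rw [show y + ‖y‖⁻¹ • y = (1 + ‖y‖⁻¹) • y by rw [add_smul, one_smul], norm_smul,
        Real.norm_of_nonneg (by positivity), add_mul, inv_mul_cancel₀ hn.ne']
      linarith
  have := (le_abs_self _).trans (h.sub_le y z)
  rw [h.zero z hz] at this
  linarith

omit [FiniteDimensional ℝ E] [MeasurableSpace E] [BorelSpace E] in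
theorem Wt.le_one' (hE : 0 < finrank ℝ E) (h : Wt φ) (y : E) : φ y ≤ 1 :=
  have := Module.nontrivial_of_finrank_pos (R := ℝ) (M := E) hE
  h.le_one y

omit [InnerProductSpace ℝ E] [FiniteDimensional ℝ E] in
theorem Wt.bm (h : Wt φ) : BM φ := by
  refine ⟨h.lip.continuous.measurable, φ 0 + 1, fun y => ?_⟩
  rw [abs_of_nonneg (h.nonneg y)]
  rcases le_or_gt 1 ‖y‖ with hy | hy
  · rw [h.zero y hy]; linarith [h.nonneg 0]
  · have := (le_abs_self _).trans (h.sub_le y 0)
    rw [sub_zero] at this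
    linarith

theorem Wt.integrable_mul (h : Wt φ) (hf : BM f) : Integrable (fun y => φ y * f y) := by
  refine ((h.bm.mul hf).integrableOn (isBounded_ball (x := 0) (r := 1))
    ).integrable_of_forall_notMem_eq_zero fun y hy => ?_
  rw [h.zero y (by simpa using hy), zero_mul]

theorem Wt.integrable (h : Wt φ) : Integrable φ := by
  simpa using h.integrable_mul (BM.const 1)

theorem Wt.ind_bas2 (h : Wt φ) (f : E → ℝ) :
    ∫ y, φ y * (ball (0 : E) (5 / 4)).indicator f y = ∫ y, φ y * f y := by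
  refine integral_congr_ae (Eventually.of_forall fun y => ?_)
  by_cases hy : y ∈ ball (0 : E) (5 / 4)
  · simp only [indicator_of_mem hy]
  · simp only [h.zero y (by rw [mem_ball_zero_iff] at hy; linarith), zero_mul]

/-- The contribution of the region far from the support of the weight. -/
theorem Wt.far_bas2 (h : Wt φ) {q : E → ℝ} (hq : BM q) (q0 : ∀ y, 0 ≤ q y) (ht : 0 < t)
    (hB : ∀ y, |g y| ≤ B) : |∫ y, φ y * (q y * P t ((ball (0 : E) (5 / 4))ᶜ.indicator g) y)| ≤
      2 ^ hd E * Real.exp (-(1 / (128 * t))) * B * ∫ y in ball (0 : E) 1, q y := by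
  have B0 : 0 ≤ B := (abs_nonneg _).trans (hB 0)
  rw [← integral_indicator measurableSet_ball, ← integral_const_mul]
  refine norm_integral_le_of_norm_le (f := fun y => φ y * (q y *
    P t ((ball (0 : E) (5 / 4))ᶜ.indicator g) y))
    ((ind_int_bas2 hq measurableSet_ball isBounded_ball).const_mul _)
    (Eventually.of_forall fun x => ?_)
  by_cases hx : x ∈ ball (0 : E) 1
  · have q1 := q0 x
    rw [indicator_of_mem hx, Real.norm_eq_abs, abs_mul, abs_mul, abs_of_nonneg (h.nonneg x),
      abs_of_nonneg q1]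
    rcases subsingleton_or_nontrivial E with hE | hE
    · have : (ball (0 : E) (5 / 4))ᶜ.indicator g = fun _ => 0 := funext fun y =>
        indicator_of_notMem (by rw [Subsingleton.elim y 0]; simp) _
      rw [this, P_const ht, abs_zero, mul_zero, mul_zero]
      positivity
    · have h1 := AS.far_bas2 ht (abs_ind_bas2 hB (ball (0 : E) (5 / 4))ᶜ) (d := 1 / 4) (x := x)
        (by norm_num) fun y hy => by
          have a := mem_of_indicator_ne_zero hy
          rw [mem_compl_iff, mem_ball_zero_iff] at a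
          rw [mem_ball_zero_iff] at hx
          linarith [norm_sub_norm_le y x]
      rw [show (1 / 4 : ℝ) ^ 2 / (8 * t) = 1 / (128 * t) by field_simp; norm_num] at h1
      refine (mul_le_of_le_one_left (by positivity) (h.le_one x)).trans ?_
      rw [mul_comm]
      exact mul_le_mul_of_nonneg_right h1 q1
  · rw [indicator_of_notMem hx, h.zero x (by simpa using hx), zero_mul, norm_zero, mul_zero]

theorem wt : ∃ C > (0 : ℝ), ∀ (φ f : E → ℝ) (B t : ℝ), Wt φ → BM f → (∀ y, |f y| ≤ B) → 0 < t →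
    |(∫ y, φ y * P t f y) - ∫ y, φ y * f y| ≤
      C * (√t * (∫ y in ball (0 : E) (5 / 4), |f y|) + B * Real.exp (-(1 / (128 * t)))) := by
  have ho := om_pos (V := E)
  refine ⟨2 ^ hd E * (5 + om E), by positivity, fun φ f B t hφ hf hB ht => ?_⟩
  have B0 : 0 ≤ B := (abs_nonneg _).trans (hB 0)
  have hK : MeasurableSet (ball (0 : E) (5 / 4)) := measurableSet_ball
  have b1 := hf.indicator hK
  have i1 := ind_int_bas2 hf hK isBounded_ball
  have h2 := hφ.far_bas2 (BM.const 1) (fun _ => zero_le_one) ht hB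
  simp only [one_mul] at h2
  rw [setIntegral_const, smul_eq_mul, mul_one, ← om] at h2
  have h1 : |(∫ y, φ y * P t ((ball (0 : E) (5 / 4)).indicator f) y) - ∫ y, φ y * f y| ≤
      5 * 2 ^ hd E * √t * ∫ y in ball (0 : E) (5 / 4), |f y| := by
    rw [integral_mul_P hφ.integrable b1 ht, ← hφ.ind_bas2 f,
      ← integral_sub ((hφ.bm.P ht).mul_integrable i1) (hφ.integrable_mul b1),
      ← integral_indicator hK, ← integral_const_mul]
    refine norm_integral_le_of_norm_le (f := fun y => P t φ y * _ - φ y * _)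
      ((ind_int_bas2 hf.abs hK isBounded_ball).const_mul _) (Eventually.of_forall fun y => ?_)
    have a := abs_P_sub_self hφ.bm ht zero_le_one (x := y) fun z => by
      rw [one_mul]; exact hφ.sub_le z y
    rw [mul_one] at a
    rw [← sub_mul, Real.norm_eq_abs, abs_mul]
    refine mul_le_mul a ?_ (abs_nonneg _) (by positivity)
    by_cases hy : y ∈ ball (0 : E) (5 / 4) <;> simp [hy]
  simp only [P_split_bas2 hf ht hK, mul_add]
  rw [integral_add (hφ.integrable_mul (b1.P ht))
    (hφ.integrable_mul ((hf.indicator hK.compl).P ht)), add_sub_right_comm]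
  refine (abs_add_le _ _).trans ((add_le_add h1 h2).trans ?_)
  have p1 : 0 ≤ 2 ^ hd E * om E * (√t * ∫ y in ball (0 : E) (5 / 4), |f y|) :=
    mul_nonneg (by positivity) (mul_nonneg (Real.sqrt_nonneg _)
      (integral_nonneg fun _ => abs_nonneg _))
  have p2 : 0 ≤ 2 ^ hd E * (B * Real.exp (-(1 / (128 * t)))) := by positivity
  linarith

theorem Wt.P_le_bas2 (h : Wt φ) {q : E → ℝ} (hq : BM q) (q0 : ∀ y, 0 ≤ q y) (ht : 0 < t) {K : ℝ}
    {y : E} (h1 : P t q y ≤ K) (h2 : P (2 * t) q y ≤ K) :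
    P t (fun z => φ z * q z) y ≤ φ y * K + 5 * 2 ^ hd E * √t * K := by
  have a : |P t (fun z => φ z * q z - φ y * q z) y| ≤ 5 * 2 ^ hd E * √t * P (2 * t) q y :=
    abs_integral_le_P hq (by positivity) fun z => by
      beta_reduce
      rw [← sub_mul, abs_mul, abs_mul, abs_G ht.le, abs_of_nonneg (q0 z), ← mul_assoc,
        ← mul_assoc, mul_comm (G t _)]
      exact mul_le_mul_of_nonneg_right ((mul_le_mul_of_nonneg_right (h.sub_le z y)
        (G_pos ht _).le).trans (norm_mul_G_le ht _)) (q0 z)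
  rw [P_sub (h.bm.mul hq) (hq.const_mul _) ht, P_const_mul] at a
  have b := mul_le_mul_of_nonneg_left h1 (h.nonneg y)
  have c := mul_le_mul_of_nonneg_left h2 (show 0 ≤ 5 * 2 ^ hd E * √t by positivity)
  linarith [le_abs_self (P t (fun z => φ z * q z) y - φ y * P t q y)]

/-- Weighted averaging lemma. -/
theorem av_wt : ∃ C > (0 : ℝ), ∀ (φ h D g : E → ℝ) (η B t : ℝ), Wt φ → BM h → (∀ y, 0 ≤ h y) →
    Measurable D → 0 < η → (∀ y, η ≤ D y) → 0 < t → t ≤ 1 → (∀ y, P t h y ≤ D y) → BM g →
    (∀ y, 0 ≤ g y) → (∀ y, g y ≤ B) →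
    ∫ y, φ y * (h y / D y * P (2 * t) g y) ≤ C * ((∫ y, φ y * g y) +
      √t * (∫ y in ball (0 : E) (5 / 4), g y) + B * Real.exp (-(1 / (600 * t)))) := by
  have hc := cAV_pos (V := E)
  have hπ := Real.pi_pos
  obtain ⟨c₁, hc₁, c10⟩ : ∃ c : ℝ, c = 10 * 2 ^ hd E ∧ 0 < c := ⟨_, rfl, by positivity⟩
  obtain ⟨c₂, hc₂, c20⟩ : ∃ c : ℝ, c = 2 ^ hd E * ((4 * Real.pi * 2) ^ hd E * Real.exp (1 / 4)) ∧
    0 < c := ⟨_, rfl, by positivity⟩
  refine ⟨cAV E * (1 + c₁ + c₂), by positivity,
    fun φ h D g η B t hφ hh h0 hD hη hD1 ht ht1 hD2 hg g0 hB => ?_⟩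
  have B0 : 0 ≤ B := (g0 0).trans (hB 0)
  have hq : BM fun x => h x / D x := (P_div_le hh h0 ht hD hη hD1 hD2 0).1
  have q0 : ∀ x, 0 ≤ h x / D x := fun x => div_nonneg (h0 x) (hη.le.trans (hD1 x))
  have hP : ∀ s, t < s → ∀ y, P s (fun x => h x / D x) y ≤ cAV E := fun s hs y => by
    rw [← sub_add_cancel s t, ← P_P hq (sub_pos.2 hs) ht, ← P_const (sub_pos.2 hs) (cAV E) y]
    exact P_mono (hq.P ht) (BM.const _) (sub_pos.2 hs)
      (fun x => (P_div_le hh h0 ht hD hη hD1 hD2 x).2) y
  have hK : MeasurableSet (ball (0 : E) (5 / 4)) := measurableSet_ball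
  have b1 := hg.indicator hK
  have i1 := ind_int_bas2 hg hK isBounded_ball
  have h2t : 0 < 2 * t := by positivity
  have hs : √(2 * t) ≤ 2 * √t := by
    rw [Real.sqrt_mul (by norm_num)]
    exact mul_le_mul_of_nonneg_right (Real.sqrt_le_iff.2 ⟨by norm_num, by norm_num⟩)
      (Real.sqrt_nonneg _)
  have e1 : ∫ y, φ y * (h y / D y * P (2 * t) ((ball (0 : E) (5 / 4)).indicator g) y) ≤
      cAV E * (∫ y, φ y * g y) + cAV E * c₁ * (√t * ∫ y in ball (0 : E) (5 / 4), g y) := by
    simp only [← mul_assoc]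
    rw [integral_mul_P (hφ.integrable_mul hq) b1 h2t, ← hφ.ind_bas2 g, ← integral_indicator hK,
      ← integral_const_mul, ← integral_const_mul,
      ← integral_add ((hφ.integrable_mul b1).const_mul _) (i1.const_mul _)]
    refine integral_mono (((hφ.bm.mul hq).P h2t).mul_integrable i1)
      (((hφ.integrable_mul b1).const_mul _).add (i1.const_mul _)) fun y => ?_
    have a := hφ.P_le_bas2 hq q0 h2t (hP _ (by linarith) y) (hP _ (by linarith) y)
    have b := mul_le_mul_of_nonneg_left hs (show 0 ≤ 5 * 2 ^ hd E * cAV E by positivity)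
    have c := mul_le_mul_of_nonneg_right (show _ ≤ cAV E * φ y + cAV E * c₁ * √t from
      a.trans (by rw [hc₁]; linarith))
      (indicator_nonneg (s := ball (0 : E) (5 / 4)) (fun y _ => g0 y) y)
    beta_reduce
    linarith
  have e2 := (le_abs_self _).trans (hφ.far_bas2 hq q0 h2t (g := g) (B := B)
    fun y => by rw [abs_of_nonneg (g0 y)]; exact hB y)
  have e3 := (mass_ball_le_P hq q0 two_pos (A := 1) (r := 1) 0 (by norm_num)).trans
    (mul_le_mul_of_nonneg_left (hP 2 (by linarith) 0) (by positivity))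
  have e4 : Real.exp (-(1 / (128 * (2 * t)))) ≤ Real.exp (-(1 / (600 * t))) :=
    Real.exp_le_exp.2 (neg_le_neg (one_div_le_one_div_of_le (by positivity) (by linarith)))
  have e5 := e2.trans (mul_le_mul (mul_le_mul_of_nonneg_right
    (mul_le_mul_of_nonneg_left e4 (by positivity)) B0) e3
    (setIntegral_nonneg measurableSet_ball fun y _ => q0 y) (by positivity))
  simp only [P_split_bas2 hg h2t hK, mul_add]
  rw [integral_add (hφ.integrable_mul (hq.mul (b1.P h2t)))
    (hφ.integrable_mul (hq.mul ((hg.indicator hK.compl).P h2t)))]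
  have e6 : 2 ^ hd E * Real.exp (-(1 / (600 * t))) * B *
      ((4 * Real.pi * 2) ^ hd E * Real.exp (1 / 4) * cAV E) =
      cAV E * c₂ * (B * Real.exp (-(1 / (600 * t)))) := by rw [hc₂]; ring
  rw [e6] at e5
  have n1 : 0 ≤ ∫ y, φ y * g y := integral_nonneg fun y => mul_nonneg (hφ.nonneg y) (g0 y)
  have n2 : 0 ≤ √t * ∫ y in ball (0 : E) (5 / 4), g y :=
    mul_nonneg (Real.sqrt_nonneg _) (setIntegral_nonneg hK fun y _ => g0 y)
  have n3 : 0 ≤ B * Real.exp (-(1 / (600 * t))) := by positivity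
  generalize ∫ y, φ y * g y = X at e1 n1 ⊢
  generalize √t * ∫ y in ball (0 : E) (5 / 4), g y = Y at e1 n2 ⊢
  generalize B * Real.exp (-(1 / (600 * t))) = Z at e5 n3 ⊢
  have m1 : 0 ≤ cAV E * ((c₁ + c₂) * X + (1 + c₂) * Y + (1 + c₁) * Z) := by positivity
  linarith

end Pool.Agent.Lib.MP_8daebb_an.AS
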