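import Mathlib

/-! The abstract setting of the one-sided stress lemma: functions on a Euclidean space. -/

open MeasureTheory Metric Set Module
open scoped RealInnerProductSpace

namespace Pool.Agent.Lib.MP_8daebb_an.AS

variable {E : Type*} [NormedAddCommGroup E] [InnerProductSpace ℝ E] [FiniteDimensional ℝ E]
  [MeasurableSpace E] [BorelSpace E]

/-- Trace. -/
noncomputable def tr (A : E →L[ℝ] E) : ℝ := LinearMap.trace ℝ E (A : E →ₗ[ℝ] E)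

/-- Laplacian: trace of the derivative of the gradient. -/
noncomputable def lap (f : E → ℝ) (x : E) : ℝ := tr (fderiv ℝ (gradient f) x)

/-- The pairing `(ε I - T) : DY`. -/
noncomputable def pair (ε : ℝ) (T A : E →L[ℝ] E) : ℝ := ε * tr A - tr (T.comp A)

/-- Data: excess `ε`, tilt tensor `T`, error `ee`, potentials `U i j`. -/
structure Dat (E : Type*) [NormedAddCommGroup E] [InnerProductSpace ℝ E] (ι : Type*) where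
  ε : E → ℝ
  T : E → E →L[ℝ] E
  ee : E → ℝ
  U : ι → ℕ → E → ℝ

namespace Dat

variable {ι : Type*} [Fintype ι] (D : Dat E ι)

/-- Energy density. -/
noncomputable def τ (y : E) : ℝ := tr (D.T y)

/-- The defect `2 ε - τ`. -/
noncomputable def β (y : E) : ℝ := 2 * D.ε y - D.τ y

/-- Sheet functions. -/
def u (i : ι) (j : ℕ) (y : E) : ℝ := D.U i (j + 1) y - D.U i j y

/-- The quadratic form `∑ Du ⊗ Du`. -/
noncomputable def qf (Q : ℕ) (y v : E) : ℝ :=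
  ∑ i, ∑ j ∈ Finset.range Q, fderiv ℝ (D.u i j) y v ^ 2

/-- Average of the energy at the smallest scale `ρ`. -/
noncomputable def avτ (C₀ ρ : ℝ) (y : E) : ℝ :=
  (ρ ^ finrank ℝ E)⁻¹ * ∫ x in ball y (C₀ * ρ), D.τ x

/-- The relative error of `s4` and `s5`. -/
noncomputable def gam (C₀ L κ : ℝ) (y : E) : ℝ :=
  κ * D.avτ C₀ (Real.exp (-3 * L)) y + Real.exp (-L)

end Dat

/-- The hypotheses, in units where the cell has radius one and heights are of order one; the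
smallest scale is `exp (-3 L)`. -/
structure Loc {ι : Type*} [Fintype ι] (D : Dat E ι) (Q : ℕ) (C₀ L η κ : ℝ) : Prop where
  c_ε : Continuous D.ε
  c_T : Continuous D.T
  c_ee : Continuous D.ee
  c_U : ∀ i j, ContDiff ℝ 2 (D.U i j)
  ee_nonneg : ∀ y, 0 ≤ D.ee y
  ee_le : ∀ y ∈ ball (0 : E) 4, D.ee y ≤ Real.exp (9 * L)
  symm : ∀ y ∈ ball (0 : E) 5, ∀ v w, ⟪D.T y v, w⟫ = ⟪v, D.T y w⟫
  psd : ∀ y ∈ ball (0 : E) 5, ∀ v, 0 ≤ ⟪D.T y v, v⟫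
  s1 : ∀ Y : E → E, ContDiff ℝ 1 Y → tsupport Y ⊆ ball 0 4 →
    |∫ y, pair (D.ε y) (D.T y) (fderiv ℝ Y y)| ≤
      Real.exp (-L) * ∫ y, (‖fderiv ℝ Y y‖ + ‖Y y‖)
  s2 : ∀ y ∈ ball (0 : E) 4, |D.ε y| + D.τ y ≤ C₀ * D.avτ C₀ (Real.exp (-3 * L)) y
  s3 : ∀ (y : E) (s : ℝ), Real.exp (-3 * L) ≤ s →
    ∫ x in ball y s ∩ ball 0 5, D.τ x ≤ C₀ * (s ^ finrank ℝ E / s ^ 2)
  s4 : ∀ y ∈ ball (0 : E) 4, ∀ v, D.qf Q y v ≤ ⟪D.T y v, v⟫ + D.gam C₀ L κ y * ‖v‖ ^ 2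
  U_zero : ∀ i y, D.U i 0 y = 0
  U_le : ∀ i, ∀ j ≤ Q, ∀ y ∈ ball (0 : E) 4, |D.U i j y| ≤ C₀
  s5 : ∀ i, ∀ j ≤ Q, ∀ y ∈ ball (0 : E) 4, 0 ≤ lap (D.U i j) y + D.gam C₀ L κ y
  s6 : ∀ y ∈ ball (0 : E) 4,
    ∫ x in ball y (C₀ * Real.exp (-3 * L)), D.τ x ≤
      η * (Real.exp (-3 * L) ^ finrank ℝ E / Real.exp (-3 * L) ^ 2) →
    |D.β y| ≤ D.ee y ∧ ∀ v, |⟪D.T y v, v⟫ - D.qf Q y v| ≤ D.ee y * ‖v‖ ^ 2

/-- The statement of the one-sided stress lemma on `E` (proved for `3 ≤ finrank ℝ E`). -/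
def SLem (E : Type*) [NormedAddCommGroup E] [InnerProductSpace ℝ E] [FiniteDimensional ℝ E]
    [MeasurableSpace E] [BorelSpace E] (ι : Type*) [Fintype ι] : Prop :=
  ∀ (Q : ℕ) (C₀ : ℝ) (A : ℕ), 1 ≤ C₀ → ∃ γ > (0 : ℝ), ∃ C L₀ : ℝ, ∀ L, L₀ ≤ L → ∀ D : Dat E ι,
    Loc D Q C₀ L (L ^ A)⁻¹ (L ^ (finrank ℝ E + 2))⁻¹ → ∀ φ : E → ℝ, (∀ y, 0 ≤ φ y) → LipschitzWith 1 φ →
    (∀ y, 1 ≤ ‖y‖ → φ y = 0) →
    ∫ y, φ y * D.β y ≤ L ^ (-(1 + γ)) * (∫ y, φ y * D.τ y) + C * (∫ y, φ y * D.ee y) +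
      Real.exp (-L / 2) * (∫ y in ball (0 : E) 2, (D.τ y + D.ee y)) + Real.exp (-L ^ 2)

end Pool.Agent.Lib.MP_8daebb_an.AS
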