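import Pool.Agent.Lib.MP_8daebb_an.AS.Def
import Pool.Agent.Lib.MP_8daebb_an.HK.Mass

/-! Internal definitions for the one-sided stress lemma. -/

open MeasureTheory Metric Set Module
open scoped RealInnerProductSpace

namespace Pool.Agent.Lib.MP_8daebb_an.AS

open HK

variable {E : Type*} [NormedAddCommGroup E] [InnerProductSpace ℝ E] [FiniteDimensional ℝ E]
  [MeasurableSpace E] [BorelSpace E]

/-- Smallest scale. -/
noncomputable def rho (L : ℝ) : ℝ := Real.exp (-3 * L)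
/-- Crude global bound. -/
noncomputable def big (L : ℝ) : ℝ := Real.exp (10 * L)
/-- Exponentially small error. -/
noncomputable def kz (L : ℝ) : ℝ := Real.exp (-L / 2)
/-- Largest time. -/
noncomputable def tm (L : ℝ) : ℝ := Real.exp (-L)
/-- Middle time. -/
noncomputable def ts (L : ℝ) : ℝ := Real.exp (-4 * L)
/-- Negligible error. -/
noncomputable def ng (L : ℝ) : ℝ := Real.exp (-2 * L ^ 2)
/-- Negligible error in conclusions. -/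
noncomputable def ng' (L : ℝ) : ℝ := Real.exp (-(3 / 2) * L ^ 2)

/-- `s ^ (m - 2)`. -/
noncomputable def pk (E : Type*) [NormedAddCommGroup E] [InnerProductSpace ℝ E] (s : ℝ) : ℝ :=
  s ^ finrank ℝ E / s ^ 2

/-- Heat average of a tensor field. -/
noncomputable def PT (t : ℝ) (T : E → E →L[ℝ] E) (x : E) : E →L[ℝ] E := ∫ y, G t (y - x) • T y

/-- Trace of a tensor field. -/
noncomputable def τf (T : E → E →L[ℝ] E) (y : E) : ℝ := tr (T y)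

/-- The defect. -/
noncomputable def βf (ε : E → ℝ) (T : E → E →L[ℝ] E) (y : E) : ℝ := 2 * ε y - tr (T y)

/-- The component `S(e,e)` of the stress. -/
noncomputable def See (ε : E → ℝ) (T : E → E →L[ℝ] E) (e y : E) : ℝ := ε y - ⟪T y e, e⟫

/-- Gaussian density of the energy. -/
noncomputable def tt (T : E → E →L[ℝ] E) (x : E) (t : ℝ) : ℝ := t * P t (τf T) x

/-- Radial energy. -/
noncomputable def rad (T : E → E →L[ℝ] E) (x : E) (t : ℝ) : ℝ :=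
  (∫ y, G t (y - x) * ⟪T y (y - x), y - x⟫) / 4

/-- Potential of the energy up to time `s`. -/
noncomputable def ZZ (T : E → E →L[ℝ] E) (x : E) (s : ℝ) : ℝ := ∫ t in (0 : ℝ)..s, P t (τf T) x

/-- Density seen from above. -/
noncomputable def th (T : E → E →L[ℝ] E) (x : E) (s : ℝ) : ℝ :=
  s * ∫ t in Ioi s, P (4 * t) (τf T) x / t

/-- A stress triple. -/
structure St (ε : E → ℝ) (T : E → E →L[ℝ] E) (ff : E → ℝ) (C₁ ρ B κ tM : ℝ) : Prop where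
  c_ε : Continuous ε
  c_T : Continuous T
  c_ff : Continuous ff
  i_ε : Integrable ε
  i_T : Integrable T
  i_ff : Integrable ff
  symm : ∀ y v w, ⟪T y v, w⟫ = ⟪v, T y w⟫
  psd : ∀ y v, 0 ≤ ⟪T y v, v⟫
  ε_le : ∀ y, |ε y| ≤ B
  τ_le : ∀ y, τf T y ≤ B
  ff_nonneg : ∀ y, 0 ≤ ff y
  ff_le : ∀ y, ff y ≤ B
  ff_small : ∀ y, ‖y‖ ≤ 5 / 2 → ff y ≤ κ
  ffP : ∀ x t, ‖x‖ ≤ 5 / 2 → 0 < t → t ≤ tM → P t ff x ≤ κ
  stat : ∀ Y : E → E, ContDiff ℝ 1 Y → (∃ K, ∀ y, ‖Y y‖ ≤ K ∧ ‖fderiv ℝ Y y‖ ≤ K) →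
    |∫ y, pair (ε y) (T y) (fderiv ℝ Y y)| ≤ ∫ y, ff y * (‖fderiv ℝ Y y‖ + ‖Y y‖)
  ρ_pos : 0 < ρ
  dens : ∀ x t, 0 < t → (t + ρ ^ 2) * P t (fun y => |ε y| + τf T y) x ≤ C₁

namespace Dat

variable {ι : Type*} [Fintype ι] (D : Dat E ι)

/-- Dirichlet energy density of the sheet functions. -/
noncomputable def en (Q : ℕ) (y : E) : ℝ :=
  ∑ i, ∑ j ∈ Finset.range Q, ‖fderiv ℝ (D.u i j) y‖ ^ 2

/-- The component `(e,e)` of the stress of the sheet functions. -/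
noncomputable def Su (Q : ℕ) (e y : E) : ℝ := D.en Q y / 2 - D.qf Q y e

/-- The data with potentials smoothed at level `t`. -/
noncomputable def sm (t : ℝ) : Dat E ι := { D with U := fun i j => P t (D.U i j) }

end Dat

/-- The global setting. -/
structure GS {ι : Type*} [Fintype ι] (D : Dat E ι) (ff Γ : E → ℝ) (Q : ℕ) (C₁ L η κ : ℝ) :
    Prop where
  st : St D.ε D.T ff C₁ (rho L) (big L) (kz L) (tm L)
  c_ee : Continuous D.ee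
  i_ee : Integrable D.ee
  ee_nonneg : ∀ y, 0 ≤ D.ee y
  ee_le : ∀ y, D.ee y ≤ big L
  har : ∀ y, ‖y‖ ≤ 3 → |D.ε y| + D.τ y ≤ C₁ * P (rho L ^ 2) D.τ y
  harP : ∀ x t, ‖x‖ ≤ 5 / 2 → 0 < t → t ≤ tm L →
    P t (fun y => |D.ε y| + D.τ y) x ≤ C₁ * P (t + rho L ^ 2) D.τ x + ng L
  c_U : ∀ i j, ContDiff ℝ 2 (D.U i j)
  U_supp : ∀ i j, HasCompactSupport (D.U i j)
  U_far : ∀ i j y, 4 ≤ ‖y‖ → D.U i j y = 0
  U_zero : ∀ i y, D.U i 0 y = 0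
  U_le : ∀ i, ∀ j ≤ Q, ∀ y, |D.U i j y| ≤ C₁
  c_Γ : Continuous Γ
  i_Γ : Integrable Γ
  Γ_nonneg : ∀ y, 0 ≤ Γ y
  Γ_le : ∀ y, Γ y ≤ big L
  Γ_small : ∀ y, ‖y‖ ≤ 3 → Γ y ≤ κ * P (rho L ^ 2) D.τ y + kz L
  ΓP : ∀ x t, ‖x‖ ≤ 5 / 2 → 0 < t → t ≤ tm L →
    P t Γ x ≤ κ * P (t + rho L ^ 2) D.τ x + kz L
  s4 : ∀ y v, D.qf Q y v ≤ ⟪D.T y v, v⟫ + Γ y * ‖v‖ ^ 2
  s5 : ∀ i, ∀ j ≤ Q, ∀ y, 0 ≤ lap (D.U i j) y + Γ y
  s6 : ∀ y, ‖y‖ ≤ 3 → rho L ^ 2 * P (rho L ^ 2) D.τ y ≤ η →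
    |D.β y| ≤ D.ee y ∧ ∀ v, |⟪D.T y v, v⟫ - D.qf Q y v| ≤ D.ee y * ‖v‖ ^ 2

/-- An admissible weight. -/
structure Wt (φ : E → ℝ) : Prop where
  nonneg : ∀ y, 0 ≤ φ y
  lip : LipschitzWith 1 φ
  zero : ∀ y, 1 ≤ ‖y‖ → φ y = 0

/-- The cell weight. -/
noncomputable def kk (l : ℝ) (z y : E) : ℝ := (max (1 - ‖y - z‖ ^ 2 / l ^ 2) 0) ^ 4

/-- Mass of the unit cell weight. -/
noncomputable def ck (E : Type*) [NormedAddCommGroup E] [InnerProductSpace ℝ E]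
    [FiniteDimensional ℝ E] [MeasurableSpace E] [BorelSpace E] : ℝ := ∫ y : E, kk 1 0 y

/-- Negative part. -/
noncomputable def np (x : ℝ) : ℝ := max (-x) 0

/-- Raw non-calmness over the times `[a, b]`. -/
noncomputable def e0 (ε : E → ℝ) (T : E → E →L[ℝ] E) (η₂ a b : ℝ) (x : E) : ℝ :=
  ∫ t in a..b, (rad T x t + t * P (2 * t) (fun y => |βf ε T y|) x) / ((tt T x t + η₂) * t)

/-- A good cell: what the geometric part receives. -/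
structure Win (ε : E → ℝ) (T : E → E →L[ℝ] E) (e : E → ℝ) (x₀ : E) (C₂ σ κ' a b l l' : ℝ) :
    Prop where
  m_e : Measurable e
  e_nonneg : ∀ x, 0 ≤ e x
  e_bdd : ∃ K, ∀ x, e x ≤ K
  e_x₀ : e x₀ ≤ κ'
  low : ∀ t ∈ Icc a b, σ ≤ tt T x₀ t
  calm : ∀ x, ‖x - x₀‖ ^ 2 ≤ b → e x ≤ 1 → ∀ t ∈ Icc a b, tt T x t ≤ C₂ * σ ∧
    rad T x t ≤ e x * σ ∧ t * P t (fun y => |βf ε T y|) x ≤ e x * σ ∧
      ∀ t' ∈ Icc a b, |tt T x t - tt T x t'| ≤ e x * σ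
  avg : ∀ s, s = l ∨ s = l' →
    s ^ 2 * P (s ^ 2) (fun y => e y * τf T y + |βf ε T y|) x₀ ≤ κ' * σ

/-- Tangential energy. -/
noncomputable def τpar (W : Submodule ℝ E) (T : E → E →L[ℝ] E) (y : E) : ℝ :=
  tr ((T y).comp W.starProjection)

/-- Distance to the affine plane `x₁ + W`. -/
noncomputable def dd (W : Submodule ℝ E) (x₁ y : E) : ℝ := ‖Wᗮ.starProjection (y - x₁)‖

end Pool.Agent.Lib.MP_8daebb_an.AS
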