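import Pool.Agent.Lib.MP_8daebb_an.AS.GlobA

/-! The cut-off data form a stress triple. -/

open MeasureTheory Metric Set Module Filter Topology
open scoped RealInnerProductSpace

namespace Pool.Agent.Lib.MP_8daebb_an.AS

open HK

variable {E : Type*} [NormedAddCommGroup E] [InnerProductSpace ℝ E] [FiniteDimensional ℝ E]
  [MeasurableSpace E] [BorelSpace E] {ι : Type*} [Fintype ι]

/-- Constant comparing ball averages with heat averages. -/
noncomputable def khGlob (E : Type*) [NormedAddCommGroup E] [InnerProductSpace ℝ E] (C₀ : ℝ) : ℝ :=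
  (4 * Real.pi) ^ hd E * Real.exp (C₀ ^ 2 / 4)

/-- Constant in the density bound. -/
noncomputable def ksGlob (E : Type*) [NormedAddCommGroup E] [InnerProductSpace ℝ E] (C₀ : ℝ) : ℝ :=
  cS (finrank ℝ E - 2) * C₀

/-- Crude bound for the energy density. -/
noncomputable def xxGlob (L : ℝ) : ℝ := Real.exp (7 * L)

/-- All constants are at most `L`. -/
structure NumGlob (E : Type*) [NormedAddCommGroup E] [InnerProductSpace ℝ E] (ι : Type*)
    [Fintype ι] (Q : ℕ) (C₀ K L : ℝ) : Prop where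
  dim : 2 ≤ finrank ℝ E
  n0 : 1 ≤ C₀
  n1 : 1000 ≤ L
  n2 : 10 * C₀ ≤ L
  n3 : C₀ * khGlob E C₀ * ksGlob E C₀ ≤ L
  n4 : K ≤ L
  n5 : 2 ^ hd E ≤ L
  n6 : Fintype.card ι * (Q * (8 * C₀ ^ 2 * K ^ 2)) ≤ L
  n7 : 8 * (finrank ℝ E * K * Q) ≤ L
  n8 : C₀ * K ≤ L
  n9 : finrank ℝ E * K ≤ L

/-- The cut-off data. -/
noncomputable def cutGlob (χ χ' : E → ℝ) (D : Dat E ι) : Dat E ι :=
  ⟨fun y => χ y * D.ε y, fun y => χ y • D.T y, fun y => χ y * D.ee y,
    fun i j y => χ' y * D.U i j y⟩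

/-- The error in the stationarity of the cut-off data. -/
noncomputable def ffGlob (χ : E → ℝ) (D : Dat E ι) (L : ℝ) (y : E) : ℝ :=
  Real.exp (-L) * (χ y + ‖fderiv ℝ χ y‖) +
    finrank ℝ E * (‖fderiv ℝ χ y‖ * (|D.ε y| + ‖D.T y‖))

omit [FiniteDimensional ℝ E] [MeasurableSpace E] [BorelSpace E] in
theorem one_le_kh_glob (C₀ : ℝ) : 1 ≤ khGlob E C₀ :=
  one_le_mul_of_one_le_of_one_le
    (Real.one_le_rpow (by linarith [Real.pi_gt_three]) hd_nonneg)
    (Real.one_le_exp (by positivity))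

omit [FiniteDimensional ℝ E] [MeasurableSpace E] [BorelSpace E] in
theorem one_le_ks_glob {C₀ : ℝ} (h : 1 ≤ C₀) : 1 ≤ ksGlob E C₀ :=
  one_le_mul_of_one_le_of_one_le (one_le_cS _) h

theorem rho_pos_glob (L : ℝ) : 0 < rho L := Real.exp_pos _

theorem exp_glob {L : ℝ} (hL : 1000 ≤ L) : L ≤ xxGlob L ∧ L ≤ xxGlob L * rho L ^ 2 ∧
    (L + 7) * xxGlob L ≤ Real.exp (9 * L) ∧ 3 * Real.exp (9 * L) ≤ big L ∧ L * rho L ≤ 1 ∧
    Real.exp (-L) + ng L ≤ kz L ∧ Real.exp (-L) ≤ 1 := by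
  unfold xxGlob rho big ng kz
  refine ⟨by linarith [Real.add_one_le_exp (7 * L)], ?_, ?_, ?_, ?_, ?_,
    Real.exp_le_one_iff.2 (by linarith)⟩
  · rw [← Real.exp_nat_mul, ← Real.exp_add]
    refine le_trans ?_ (Real.add_one_le_exp _)
    push_cast
    linarith
  · rw [show 9 * L = 2 * L + 7 * L by ring, Real.exp_add]
    exact mul_le_mul_of_nonneg_right (by linarith [Real.add_one_le_exp (2 * L)])
      (Real.exp_pos _).le
  · rw [show 10 * L = L + 9 * L by ring, Real.exp_add]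
    exact mul_le_mul_of_nonneg_right (by linarith [Real.add_one_le_exp L]) (Real.exp_pos _).le
  · calc L * Real.exp (-3 * L) ≤ Real.exp (3 * L) * Real.exp (-3 * L) :=
          mul_le_mul_of_nonneg_right (by linarith [Real.add_one_le_exp (3 * L)])
            (Real.exp_pos _).le
      _ = 1 := by rw [← Real.exp_add]; simp
  · have h1 : Real.exp (-2 * L ^ 2) ≤ Real.exp (-L) := Real.exp_le_exp.2 (by nlinarith)
    have h2 : 2 * Real.exp (-L) ≤ Real.exp (L / 2) * Real.exp (-L) :=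
      mul_le_mul_of_nonneg_right (by linarith [Real.add_one_le_exp (L / 2)]) (Real.exp_pos _).le
    rw [← Real.exp_add, show L / 2 + -L = -L / 2 by ring] at h2
    linarith

theorem mass_glob {τ f : E → ℝ} {C₀ ρ : ℝ} {y : E} (hρ : 0 < ρ) (hf : BM f) (h0 : ∀ z, 0 ≤ f z)
    (he : ∀ z ∈ ball y (C₀ * ρ), τ z = f z) :
    ∫ x in ball y (C₀ * ρ), τ x ≤ khGlob E C₀ * ρ ^ finrank ℝ E * P (ρ ^ 2) f y := by
  rw [setIntegral_congr_fun measurableSet_ball he]
  refine (mass_ball_le_P hf h0 (pow_pos hρ 2) (A := C₀ ^ 2) y (le_of_eq (by ring))).trans_eq ?_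
  rw [Real.mul_rpow (by positivity) (by positivity), rpow_hd_eq (pow_pos hρ 2),
    Real.sqrt_sq hρ.le, khGlob]
  ring

variable {D : Dat E ι} {Q : ℕ} {C₀ L η κ K : ℝ} {χ χ' : E → ℝ} {y : E}

omit [Fintype ι] in
theorem av_glob {f : E → ℝ} {ρ : ℝ} (hρ : 0 < ρ) (hf : BM f) (h0 : ∀ z, 0 ≤ f z)
    (he : ∀ z ∈ ball y (C₀ * ρ), D.τ z = f z) :
    D.avτ C₀ ρ y ≤ khGlob E C₀ * P (ρ ^ 2) f y := by
  rw [Dat.avτ, inv_mul_le_iff₀ (pow_pos hρ _)]
  exact (mass_glob hρ hf h0 he).trans_eq (by ring)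

omit [FiniteDimensional ℝ E] [MeasurableSpace E] [BorelSpace E] in
theorem NumGlob.near (n : NumGlob E ι Q C₀ K L) {z : E} (hz : z ∈ ball y (C₀ * rho L)) :
    ‖z‖ < ‖y‖ + 1 / 10 := by
  have h1 := (exp_glob n.n1).2.2.2.2.1
  have h2 := mul_le_mul_of_nonneg_right n.n2 (rho_pos_glob L).le
  have h3 := norm_sub_norm_le z y
  rw [mem_ball, dist_eq_norm] at hz
  linarith

omit [FiniteDimensional ℝ E] [MeasurableSpace E] [BorelSpace E] in
theorem NumGlob.kh_le (n : NumGlob E ι Q C₀ K L) :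
    khGlob E C₀ ≤ C₀ * khGlob E C₀ ∧ C₀ * khGlob E C₀ ≤ C₀ * khGlob E C₀ * ksGlob E C₀ := by
  have h1 := one_le_kh_glob (E := E) C₀
  have h2 := n.n0
  exact ⟨le_mul_of_one_le_left (by linarith) h2,
    le_mul_of_one_le_right (by positivity) (one_le_ks_glob h2)⟩

theorem Loc.T_le_glob (h : Loc D Q C₀ L η κ) (hy : ‖y‖ < 5) : ‖D.T y‖ ≤ D.τ y :=
  psd_norm_glob (h.symm y (mem_ball_zero_iff.2 hy)) (h.psd y (mem_ball_zero_iff.2 hy))

theorem Loc.c_τ_glob (h : Loc D Q C₀ L η κ) : Continuous D.τ := continuous_tr.comp h.c_T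

theorem Loc.five_glob (h : Loc D Q C₀ L η κ) (n : NumGlob E ι Q C₀ K L) :
    ∃ f : E → ℝ, BM f ∧ (∀ z, 0 ≤ f z) ∧ (∀ z, ‖z‖ < 5 → D.τ z = f z) ∧
      ∀ x s, rho L ^ 2 ≤ s → s * P s f x ≤ ksGlob E C₀ := by
  obtain ⟨C, hC⟩ := (isCompact_closedBall (0 : E) 5).exists_bound_of_continuousOn
    h.c_τ_glob.continuousOn
  have hρ := rho_pos_glob L
  have h0 : ∀ z, 0 ≤ (ball (0 : E) 5).indicator D.τ z := fun z => indicator_nonneg
    (fun w hw => (norm_nonneg _).trans (h.T_le_glob (mem_ball_zero_iff.1 hw))) z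
  have hb : BM ((ball (0 : E) 5).indicator D.τ) :=
    ⟨h.c_τ_glob.measurable.indicator measurableSet_ball, C, fun z => by
      by_cases hz : z ∈ ball (0 : E) 5
      · rw [indicator_of_mem hz]
        exact hC z (ball_subset_closedBall hz)
      · rw [indicator_of_notMem hz, abs_zero]
        exact (norm_nonneg _).trans (hC 0 (mem_closedBall_self (by norm_num)))⟩
  refine ⟨_, hb, h0, fun z hz => (indicator_of_mem (mem_ball_zero_iff.2 hz) _).symm,
    fun x s hs => mul_P_le_of_mass n.dim hb h0 ((pow_pos hρ 2).trans_le hs) fun r hr => ?_⟩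
  rw [setIntegral_indicator measurableSet_ball]
  exact h.s3 x r ((Real.le_sqrt_of_sq_le hs).trans hr)

theorem Loc.bd_glob (h : Loc D Q C₀ L η κ) (n : NumGlob E ι Q C₀ K L) (hy : ‖y‖ < 4) :
    0 ≤ D.avτ C₀ (rho L) y ∧ D.avτ C₀ (rho L) y ≤ xxGlob L ∧ |D.ε y| + D.τ y ≤ xxGlob L := by
  obtain ⟨f, hf, h0, he, hd⟩ := h.five_glob n
  have hρ := rho_pos_glob L
  have hC := n.n0
  have hk := one_le_kh_glob (E := E) C₀
  have a0 : 0 ≤ D.avτ C₀ (rho L) y := mul_nonneg (by positivity)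
    (setIntegral_nonneg measurableSet_ball fun z hz =>
      (norm_nonneg _).trans (h.T_le_glob (by linarith [n.near hz])))
  have a1 := av_glob (D := D) (C₀ := C₀) (y := y) hρ hf h0 fun z hz =>
    he z (by linarith [n.near hz])
  have a2 : C₀ * D.avτ C₀ (rho L) y ≤ xxGlob L := by
    refine le_of_mul_le_mul_right ?_ (pow_pos hρ 2)
    calc C₀ * D.avτ C₀ (rho L) y * rho L ^ 2
        ≤ C₀ * (khGlob E C₀ * P (rho L ^ 2) f y) * rho L ^ 2 := by gcongr
      _ = C₀ * khGlob E C₀ * (rho L ^ 2 * P (rho L ^ 2) f y) := by ring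
      _ ≤ C₀ * khGlob E C₀ * ksGlob E C₀ :=
          mul_le_mul_of_nonneg_left (hd y _ le_rfl) (by positivity)
      _ ≤ _ := n.n3.trans (exp_glob n.n1).2.1
  exact ⟨a0, (le_mul_of_one_le_left a0 hC).trans a2, (h.s2 y (mem_ball_zero_iff.2 hy)).trans a2⟩

omit [FiniteDimensional ℝ E] [MeasurableSpace E] [BorelSpace E] [Fintype ι] in
theorem τ_cut_glob (y : E) : (cutGlob χ χ' D).τ y = χ y * D.τ y := tr_smul_glob _ _

omit [MeasurableSpace E] [BorelSpace E] [Fintype ι] in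
theorem sum_cut_glob (hχ : CutGlob χ (7 / 2) (39 / 10) K) (y : E) :
    |(cutGlob χ χ' D).ε y| + (cutGlob χ χ' D).τ y = χ y * (|D.ε y| + D.τ y) := by
  rw [τ_cut_glob, mul_add, ← abs_of_nonneg (hχ.nonneg y), ← abs_mul, abs_of_nonneg (hχ.nonneg y)]
  rfl

omit [MeasurableSpace E] [BorelSpace E] in
theorem CutGlob.mul_le (hχ : CutGlob χ (7 / 2) (39 / 10) K) {a b : ℝ} (hb : 0 ≤ b)
    (h : ‖y‖ < 4 → a ≤ b) : χ y * a ≤ b := by
  by_cases hy : ‖y‖ < 4
  · exact (mul_le_mul_of_nonneg_left (h hy) (hχ.nonneg y)).trans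
      (mul_le_of_le_one_left hb (hχ.le_one y))
  · rw [hχ.zero y (by linarith [not_lt.1 hy]), zero_mul]
    exact hb

theorem Loc.cut_glob (h : Loc D Q C₀ L η κ) (n : NumGlob E ι Q C₀ K L)
    (hχ : CutGlob χ (7 / 2) (39 / 10) K) (χ' : E → ℝ) :
    Continuous (cutGlob χ χ' D).τ ∧ (∀ y, 4 ≤ ‖y‖ → (cutGlob χ χ' D).τ y = 0) ∧
      (∀ y, 0 ≤ (cutGlob χ χ' D).τ y) ∧
      (∀ y, |(cutGlob χ χ' D).ε y| + (cutGlob χ χ' D).τ y ≤ xxGlob L) ∧
      ∀ y, ‖y‖ ≤ 17 / 5 → ∀ z ∈ ball y (C₀ * rho L), D.τ z = (cutGlob χ χ' D).τ z := by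
  refine ⟨?_, fun y hy => ?_, fun y => ?_, fun y => ?_, fun y hy z hz => ?_⟩
  · rw [funext τ_cut_glob]
    exact hχ.cd.continuous.mul h.c_τ_glob
  · rw [τ_cut_glob, hχ.zero y (by linarith), zero_mul]
  · have := hχ.mul_le (y := y) (a := -D.τ y) le_rfl fun hy =>
      neg_nonpos.2 ((norm_nonneg _).trans (h.T_le_glob (by linarith)))
    rw [τ_cut_glob]
    linarith
  · rw [sum_cut_glob hχ]
    exact hχ.mul_le (Real.exp_pos _).le fun hy => (h.bd_glob n hy).2.2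
  · rw [τ_cut_glob, hχ.one z (by linarith [n.near hz]), one_mul]

theorem Loc.st_glob (h : Loc D Q C₀ L η κ) (n : NumGlob E ι Q C₀ K L)
    (hχ : CutGlob χ (7 / 2) (39 / 10) K) (χ' : E → ℝ) :
    St (cutGlob χ χ' D).ε (cutGlob χ χ' D).T (ffGlob χ D L) (C₀ * khGlob E C₀ * ksGlob E C₀)
      (rho L) (big L) (kz L) (tm L) := by
  obtain ⟨c1, c2, c3, c4, -⟩ := h.cut_glob n hχ χ'
  obtain ⟨e1, -, e3, e4, -, e6, e7⟩ := exp_glob n.n1
  have hL := n.n1
  have hX : 0 < xxGlob L := Real.exp_pos _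
  have hN : 0 < ng L := Real.exp_pos _
  have hXB : xxGlob L ≤ big L := by nlinarith
  have cχ := hχ.cd.continuous
  have cD := hχ.cd.continuous_fderiv two_ne_zero
  have cε := h.c_ε
  have cT := h.c_T
  have z0 : ∀ y, 4 ≤ ‖y‖ → χ y = 0 := fun y hy => hχ.zero y (by linarith)
  have z1 : ∀ y, 4 ≤ ‖y‖ → fderiv ℝ χ y = 0 := fun y hy => (hχ.flat y (Or.inr (by linarith))).1
  have cε' : Continuous (cutGlob χ χ' D).ε := cχ.mul cε
  have zε : ∀ y, 4 ≤ ‖y‖ → (cutGlob χ χ' D).ε y = 0 := fun y hy => by simp [cutGlob, z0 y hy]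
  have cf : Continuous (ffGlob χ D L) := by unfold ffGlob; fun_prop
  have zf : ∀ y, 4 ≤ ‖y‖ → ffGlob χ D L y = 0 := fun y hy => by simp [ffGlob, z0 y hy, z1 y hy]
  have f1 : ∀ y, ‖y‖ ≤ 3 → ffGlob χ D L y ≤ Real.exp (-L) := fun y hy => by
    simp [ffGlob, hχ.one y (by linarith), (hχ.flat y (Or.inl (by linarith))).1]
  have f2 : ∀ y, ffGlob χ D L y ≤ big L := fun y => by
    by_cases hy : ‖y‖ < 4
    · have a1 : |D.ε y| + ‖D.T y‖ ≤ xxGlob L := by
        linarith [(h.bd_glob n hy).2.2, h.T_le_glob (y := y) (by linarith)]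
      have a2 : Real.exp (-L) * (χ y + ‖fderiv ℝ χ y‖) ≤ 1 * (1 + L) :=
        mul_le_mul e7 (add_le_add (hχ.le_one y) ((hχ.d1 y).trans n.n4))
          (add_nonneg (hχ.nonneg y) (norm_nonneg _)) zero_le_one
      have a3 : finrank ℝ E * (‖fderiv ℝ χ y‖ * (|D.ε y| + ‖D.T y‖)) ≤ L * xxGlob L := by
        rw [← mul_assoc]
        exact mul_le_mul ((mul_le_mul_of_nonneg_left (hχ.d1 y) (Nat.cast_nonneg _)).trans n.n9)
          a1 (by positivity) (by linarith)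
      unfold ffGlob
      nlinarith
    · rw [zf y (not_lt.1 hy)]
      linarith
  refine ⟨cε', cχ.smul cT, cf, int_glob cε' zε,
    int_glob (R := 4) (cχ.smul cT) fun y hy => by simp [cutGlob, z0 y hy], int_glob cf zf,
    fun y v w => ?_, fun y v => ?_, fun y => by linarith [c3 y, c4 y],
    fun y => (le_add_of_nonneg_left (abs_nonneg _)).trans ((c4 y).trans hXB), fun y => ?_, f2,
    fun y hy => by linarith [f1 y (by linarith)], fun x t hx ht htm => ?_,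
    fun Y hY _ => stat_glob cε cT hχ (Real.exp_pos _).le h.s1 Y hY, rho_pos_glob L,
    fun x t ht => ?_⟩
  · by_cases hy : ‖y‖ < 4
    · simp only [cutGlob, smul_apply, real_inner_smul_left, real_inner_smul_right,
        h.symm y (mem_ball_zero_iff.2 (by linarith)) v w]
    · simp [cutGlob, z0 y (not_lt.1 hy)]
  · have := hχ.mul_le (y := y) (a := -⟪D.T y v, v⟫) le_rfl fun hy =>
      neg_nonpos.2 (h.psd y (mem_ball_zero_iff.2 (by linarith)) v)
    simp only [cutGlob, smul_apply, real_inner_smul_left]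
    linarith
  · have := hχ.nonneg y
    unfold ffGlob
    positivity
  · have := far_glob (bm_glob cf zf) (BM.const (Real.exp (-L))) (fun _ => (Real.exp_pos _).le)
      f1 f2 hL n.n5 hx ht htm
    rw [P_const ht] at this
    linarith
  · obtain ⟨f, hf, h0, he, hd⟩ := h.five_glob n
    have hρ := pow_pos (rho_pos_glob L) 2
    have hk : 0 ≤ C₀ * khGlob E C₀ := by
      linarith [n.kh_le.1, one_le_kh_glob (E := E) C₀]
    have a1 := P_mono ((bm_glob cε' zε).abs.add (bm_glob c1 c2))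
      ((hf.P hρ).const_mul (C₀ * khGlob E C₀)) ht (fun y => by
        rw [sum_cut_glob hχ]
        refine hχ.mul_le (mul_nonneg hk (P_nonneg hρ.le h0 y)) fun hy => ?_
        refine (h.s2 y (mem_ball_zero_iff.2 hy)).trans ?_
        rw [mul_assoc]
        exact mul_le_mul_of_nonneg_left (av_glob (rho_pos_glob L) hf h0 fun z hz =>
          he z (by linarith [n.near hz])) (by linarith [n.n0])) x
    rw [P_const_mul, P_P hf ht hρ] at a1
    calc _ ≤ (t + rho L ^ 2) * (C₀ * khGlob E C₀ * P (t + rho L ^ 2) f x) :=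
          mul_le_mul_of_nonneg_left a1 (by positivity)
      _ = C₀ * khGlob E C₀ * ((t + rho L ^ 2) * P (t + rho L ^ 2) f x) := by ring
      _ ≤ _ := mul_le_mul_of_nonneg_left (hd x _ (by linarith)) hk

end Pool.Agent.Lib.MP_8daebb_an.AS
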