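import Pool.Agent.Lib.MP_8daebb_an.AS.Bas
import Pool.Agent.Lib.MP_8daebb_an.AS.GlobB

/-! From the local hypotheses to the global setting, by cutting off. -/

open MeasureTheory Metric Set Module
open scoped RealInnerProductSpace

namespace Pool.Agent.Lib.MP_8daebb_an.AS

open HK

variable {E : Type*} [NormedAddCommGroup E] [InnerProductSpace ℝ E] [FiniteDimensional ℝ E]
  [MeasurableSpace E] [BorelSpace E]

section aux

variable {ι : Type*} [Fintype ι] {D : Dat E ι} {Q : ℕ} {C₀ L η κ K : ℝ} {χ χ' : E → ℝ} {y : E}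

theorem Loc.du_glob (h : Loc D Q C₀ L η κ) (i : ι) (j : ℕ) : Differentiable ℝ (D.u i j) :=
  ((h.c_U i (j + 1)).sub (h.c_U i j)).differentiable two_ne_zero

theorem Loc.qf_cut_glob (h : Loc D Q C₀ L η κ) (hU : CutGlob χ' (31 / 10) (33 / 10) K) (y v : E) :
    (cutGlob χ χ' D).qf Q y v = ∑ i, ∑ j ∈ Finset.range Q,
      (χ' y * fderiv ℝ (D.u i j) y v + D.u i j y * fderiv ℝ χ' y v) ^ 2 := by
  refine Finset.sum_congr rfl fun i _ => Finset.sum_congr rfl fun j _ => ?_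
  have h1 : (cutGlob χ χ' D).u i j = fun y => χ' y * D.u i j y := by
    funext z
    simp only [Dat.u, cutGlob, mul_sub]
  rw [h1, fderiv_fun_mul (hU.cd.differentiable two_ne_zero y) (h.du_glob i j y)]
  rfl

theorem Loc.qf_in_glob (h : Loc D Q C₀ L η κ) (hU : CutGlob χ' (31 / 10) (33 / 10) K)
    (hy : ‖y‖ < 31 / 10) (v : E) : (cutGlob χ χ' D).qf Q y v = D.qf Q y v := by
  rw [h.qf_cut_glob hU]
  simp [hU.one y hy.le, (hU.flat y (Or.inl hy)).1, Dat.qf]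

theorem Loc.gam_glob (h : Loc D Q C₀ L η κ) (n : NumGlob E ι Q C₀ K L) (k0 : 0 ≤ κ) (k1 : κ ≤ 1)
    (hy : ‖y‖ < 4) : 0 ≤ D.gam C₀ L κ y ∧ D.gam C₀ L κ y ≤ 2 * xxGlob L ∧
      ∀ v, D.qf Q y v ≤ 3 * xxGlob L * ‖v‖ ^ 2 := by
  obtain ⟨a0, a1, a2⟩ := h.bd_glob n hy
  obtain ⟨e1, -, -, -, -, -, e7⟩ := exp_glob n.n1
  have a3 : D.gam C₀ L κ y ≤ 2 * xxGlob L := by
    have := (mul_le_of_le_one_left a0 k1).trans a1
    change κ * D.avτ C₀ (rho L) y + Real.exp (-L) ≤ _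
    linarith [n.n1]
  refine ⟨add_nonneg (mul_nonneg k0 a0) (Real.exp_pos _).le, a3, fun v => ?_⟩
  have b1 : ‖D.T y‖ ≤ xxGlob L := by
    linarith [h.T_le_glob (y := y) (by linarith), abs_nonneg (D.ε y)]
  have b2 : ⟪D.T y v, v⟫ ≤ xxGlob L * ‖v‖ * ‖v‖ := (real_inner_le_norm _ _).trans
    (mul_le_mul_of_nonneg_right ((D.T y).le_of_opNorm_le b1 v) (norm_nonneg v))
  have b3 := mul_le_mul_of_nonneg_right a3 (sq_nonneg ‖v‖)
  linarith [h.s4 y (mem_ball_zero_iff.2 hy) v]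

theorem Loc.qf_le_glob (h : Loc D Q C₀ L η κ) (n : NumGlob E ι Q C₀ K L)
    (hU : CutGlob χ' (31 / 10) (33 / 10) K) (k0 : 0 ≤ κ) (k1 : κ ≤ 1) (hy : ‖y‖ < 4) (v : E) :
    (cutGlob χ χ' D).qf Q y v ≤ Real.exp (9 * L) * ‖v‖ ^ 2 := by
  obtain ⟨e1, -, e3, -⟩ := exp_glob n.n1
  have hy' := mem_ball_zero_iff.2 hy
  have h1 : (cutGlob χ χ' D).qf Q y v ≤ ∑ i, ∑ j ∈ Finset.range Q,
      (2 * fderiv ℝ (D.u i j) y v ^ 2 + 8 * C₀ ^ 2 * K ^ 2 * ‖v‖ ^ 2) := by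
    rw [h.qf_cut_glob hU]
    refine Finset.sum_le_sum fun i _ => Finset.sum_le_sum fun j hj => ?_
    have hj' := Finset.mem_range.1 hj
    have a1 : |D.u i j y| ≤ 2 * C₀ := (abs_sub _ _).trans
      (by linarith [h.U_le i (j + 1) hj' y hy', h.U_le i j hj'.le y hy'])
    have a2 : |fderiv ℝ χ' y v| ≤ K * ‖v‖ := (fderiv ℝ χ' y).le_of_opNorm_le (hU.d1 y) v
    have a3 : (D.u i j y * fderiv ℝ χ' y v) ^ 2 ≤ (2 * C₀ * (K * ‖v‖)) ^ 2 := by
      rw [← sq_abs, abs_mul]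
      exact pow_le_pow_left₀ (by positivity)
        (mul_le_mul a1 a2 (abs_nonneg _) (by linarith [n.n0])) 2
    have a4 : (χ' y * fderiv ℝ (D.u i j) y v) ^ 2 ≤ fderiv ℝ (D.u i j) y v ^ 2 := by
      rw [mul_pow]
      exact mul_le_of_le_one_left (sq_nonneg _) (pow_le_one₀ (hU.nonneg y) (hU.le_one y))
    nlinarith [sq_nonneg (χ' y * fderiv ℝ (D.u i j) y v - D.u i j y * fderiv ℝ χ' y v)]
  have h2 : ∑ i, ∑ j ∈ Finset.range Q,
      (2 * fderiv ℝ (D.u i j) y v ^ 2 + 8 * C₀ ^ 2 * K ^ 2 * ‖v‖ ^ 2) =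
      2 * D.qf Q y v + Fintype.card ι * (Q * (8 * C₀ ^ 2 * K ^ 2)) * ‖v‖ ^ 2 := by
    simp only [Dat.qf, Finset.sum_add_distrib, ← Finset.mul_sum, Finset.sum_const,
      Finset.card_range, Finset.card_univ, nsmul_eq_mul]
    ring
  have h3 := (h.gam_glob n k0 k1 hy).2.2 v
  have h4 := mul_le_mul_of_nonneg_right n.n6 (sq_nonneg ‖v‖)
  have h5 : 6 * xxGlob L + L ≤ Real.exp (9 * L) := by nlinarith [n.n1]
  have h6 := mul_le_mul_of_nonneg_right h5 (sq_nonneg ‖v‖)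
  linarith

theorem Loc.dU_glob (h : Loc D Q C₀ L η κ) (n : NumGlob E ι Q C₀ K L) (k0 : 0 ≤ κ) (k1 : κ ≤ 1)
    (hy : ‖y‖ < 4) (i : ι) {j : ℕ} (hj : j ≤ Q) :
    ‖fderiv ℝ (D.U i j) y‖ ≤ j * (4 * xxGlob L) := by
  have hX : 1 ≤ xxGlob L := by linarith [(exp_glob n.n1).1, n.n1]
  induction j with
  | zero => simp [funext (h.U_zero i)]
  | succ j ih =>
    have h1 : D.U i (j + 1) = fun z => D.U i j z + D.u i j z := by
      funext z
      simp [Dat.u]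
    have h2 : ‖fderiv ℝ (D.u i j) y‖ ≤ 4 * xxGlob L := by
      refine ContinuousLinearMap.opNorm_le_bound _ (by linarith) fun v => ?_
      have a1 : fderiv ℝ (D.u i j) y v ^ 2 ≤ D.qf Q y v :=
        (Finset.single_le_sum (f := fun j => fderiv ℝ (D.u i j) y v ^ 2)
          (fun _ _ => sq_nonneg _) (Finset.mem_range.2 hj)).trans
          (Finset.single_le_sum (f := fun i => ∑ j ∈ Finset.range Q, fderiv ℝ (D.u i j) y v ^ 2)
            (fun _ _ => Finset.sum_nonneg fun _ _ => sq_nonneg _) (Finset.mem_univ i))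
      have a2 := (h.gam_glob n k0 k1 hy).2.2 v
      have a3 : 3 * xxGlob L ≤ (4 * xxGlob L) ^ 2 := by nlinarith
      have a4 := mul_le_mul_of_nonneg_right a3 (sq_nonneg ‖v‖)
      exact abs_le_of_sq_le_sq (by rw [mul_pow]; linarith) (by positivity)
    rw [h1, fderiv_fun_add ((h.c_U i j).differentiable two_ne_zero y) (h.du_glob i j y)]
    refine (norm_add_le _ _).trans ?_
    push_cast
    linarith [ih (Nat.le_of_succ_le hj)]

theorem Loc.lap_glob (h : Loc D Q C₀ L η κ) (n : NumGlob E ι Q C₀ K L)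
    (hU : CutGlob χ' (31 / 10) (33 / 10) K) (k0 : 0 ≤ κ) (k1 : κ ≤ 1) (i : ι) {j : ℕ}
    (hj : j ≤ Q) (y : E) :
    (‖y‖ < 31 / 10 → lap ((cutGlob χ χ' D).U i j) y = lap (D.U i j) y) ∧
      (33 / 10 < ‖y‖ → lap ((cutGlob χ χ' D).U i j) y = 0) ∧
      (‖y‖ < 4 → 0 ≤ lap ((cutGlob χ χ' D).U i j) y + Real.exp (9 * L)) := by
  obtain ⟨c, hc, e⟩ := lap_mul_glob hU.cd (h.c_U i j) y
  have e' : lap ((cutGlob χ χ' D).U i j) y =
      χ' y * lap (D.U i j) y + 2 * c + D.U i j y * lap χ' y := e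
  have h0 : fderiv ℝ χ' y = 0 → c = 0 := fun hz => by simpa [hz] using hc
  refine ⟨fun hy => ?_, fun hy => ?_, fun hy => ?_⟩
  · simp [e', h0 (hU.flat y (Or.inl hy)).1, (hU.flat y (Or.inl hy)).2, hU.one y hy.le]
  · simp [e', h0 (hU.flat y (Or.inr hy)).1, (hU.flat y (Or.inr hy)).2, hU.zero y hy.le]
  · obtain ⟨e1, -, e3, -⟩ := exp_glob n.n1
    obtain ⟨g0, g1, -⟩ := h.gam_glob n k0 k1 hy
    have hy' := mem_ball_zero_iff.2 hy
    have hX : 0 < xxGlob L := Real.exp_pos _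
    have hK : 0 ≤ K := (norm_nonneg _).trans (hU.d1 y)
    have a1 := mul_nonneg (hU.nonneg y) (h.s5 i j hj y hy')
    have a2 := mul_le_of_le_one_left g0 (hU.le_one y)
    have a3 : |D.U i j y * lap χ' y| ≤ C₀ * K := by
      rw [abs_mul]
      exact mul_le_mul (h.U_le i j hj y hy') (hU.d2 y) (abs_nonneg _) (by linarith [n.n0])
    have a4 : ‖fderiv ℝ (D.U i j) y‖ ≤ Q * (4 * xxGlob L) := (h.dU_glob n k0 k1 hy i hj).trans
      (mul_le_mul_of_nonneg_right (by exact_mod_cast hj) (by positivity))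
    have a5 : |c| ≤ finrank ℝ E * (K * (Q * (4 * xxGlob L))) := hc.trans
      (mul_le_mul_of_nonneg_left (mul_le_mul (hU.d1 y) a4 (norm_nonneg _) hK) (Nat.cast_nonneg _))
    have a6 := mul_le_mul_of_nonneg_right n.n7 hX.le
    rw [e']
    nlinarith [neg_abs_le c, neg_abs_le (D.U i j y * lap χ' y), n.n8]

theorem Loc.gs_glob (h : Loc D Q C₀ L η κ) (n : NumGlob E ι Q C₀ K L)
    (hχ : CutGlob χ (7 / 2) (39 / 10) K) (hU : CutGlob χ' (31 / 10) (33 / 10) K) {η' κ' : ℝ}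
    (k0 : 0 ≤ κ) (k2 : κ * khGlob E C₀ ≤ κ') (k3 : κ' ≤ 1) (hη : η' * khGlob E C₀ ≤ η) :
    ∃ Γ, GS (cutGlob χ χ' D) (ffGlob χ D L) Γ Q (C₀ * khGlob E C₀ * ksGlob E C₀) L η' κ' := by
  have hst := h.st_glob n hχ χ'
  obtain ⟨c1, c2, c3, c4, c5⟩ := h.cut_glob n hχ χ'
  obtain ⟨e1, -, e3, e4, -, e6, e7⟩ := exp_glob n.n1
  obtain ⟨kh1, kh2⟩ := n.kh_le
  have kh0 := one_le_kh_glob (E := E) C₀
  have k1 : κ ≤ 1 := ((le_mul_of_one_le_right k0 kh0).trans k2).trans k3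
  have k4 : 0 ≤ κ * khGlob E C₀ := by positivity
  have hL := n.n1
  have hC := n.n0
  have hX : 0 < xxGlob L := Real.exp_pos _
  have hN : 0 < ng L := Real.exp_pos _
  have h9 : 0 < Real.exp (9 * L) := Real.exp_pos _
  have h1 : 0 < Real.exp (-L) := Real.exp_pos _
  have hρ := rho_pos_glob L
  have hρ2 := pow_pos hρ 2
  have cχ := hχ.cd.continuous
  have z0 : ∀ y, 4 ≤ ‖y‖ → χ y = 0 := fun y hy => hχ.zero y (by linarith)
  have bτ := bm_glob c1 c2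
  obtain ⟨p, hp⟩ : ∃ p, p = P (rho L ^ 2) (cutGlob χ χ' D).τ := ⟨_, rfl⟩
  have p0 : ∀ y, 0 ≤ p y := fun y => hp ▸ P_nonneg hρ2.le c3 y
  have p1 : ∀ y, p y ≤ xxGlob L := fun y => hp ▸ (le_abs_self _).trans (abs_P_le_const hρ2
    (fun z => by rw [abs_of_nonneg (c3 z)]; linarith [c4 z, abs_nonneg ((cutGlob χ χ' D).ε z)]) y)
  have p2 : ∀ y, ‖y‖ ≤ 17 / 5 → D.avτ C₀ (rho L) y ≤ khGlob E C₀ * p y := fun y hy =>
    hp ▸ av_glob hρ bτ c3 (c5 y hy)
  have bp : BM p := hp ▸ bτ.P hρ2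
  have pP : ∀ t x, 0 < t → P t p x = P (t + rho L ^ 2) (cutGlob χ χ' D).τ x := fun t x ht =>
    hp ▸ P_P bτ ht hρ2 x
  have har : ∀ y, ‖y‖ ≤ 3 → |(cutGlob χ χ' D).ε y| + (cutGlob χ χ' D).τ y ≤
      C₀ * khGlob E C₀ * ksGlob E C₀ * p y := fun y hy => by
    rw [sum_cut_glob hχ, hχ.one y (by linarith), one_mul]
    refine (h.s2 y (mem_ball_zero_iff.2 (by linarith))).trans ?_
    refine (mul_le_mul_of_nonneg_left (p2 y (by linarith)) (by linarith)).trans ?_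
    rw [← mul_assoc]
    exact mul_le_mul_of_nonneg_right kh2 (p0 y)
  obtain ⟨w, hw⟩ : ∃ w : E → ℝ, w = fun y =>
    χ y * (Real.exp (-L) + Real.exp (9 * L) * min 1 (max 0 (10 * (‖y‖ - 3)))) := ⟨_, rfl⟩
  have m0 : ∀ y : E, 0 ≤ Real.exp (9 * L) * min 1 (max 0 (10 * (‖y‖ - 3))) := fun y => by
    positivity
  have cw : Continuous w := by rw [hw]; fun_prop
  have zw : ∀ y, 4 ≤ ‖y‖ → w y = 0 := fun y hy => by simp [hw, z0 y hy]
  have w0 : ∀ y, 0 ≤ w y := fun y => hw ▸ mul_nonneg (hχ.nonneg y) (add_nonneg h1.le (m0 y))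
  have w1 : ∀ y, w y ≤ 1 + Real.exp (9 * L) := fun y => hw ▸ hχ.mul_le (by linarith) fun _ =>
    add_le_add e7 (mul_le_of_le_one_right h9.le (min_le_left _ _))
  have w2 : ∀ y, ‖y‖ ≤ 3 → w y = Real.exp (-L) := fun y hy => by
    have : max 0 (10 * (‖y‖ - 3)) = 0 := max_eq_left (by linarith)
    simp [hw, this, hχ.one y (by linarith)]
  have w3 : ∀ y, ‖y‖ < 31 / 10 → D.gam C₀ L κ y ≤ κ * khGlob E C₀ * p y + w y := fun y hy => by
    have a1 := mul_le_mul_of_nonneg_left (p2 y (by linarith)) k0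
    have a2 : Real.exp (-L) ≤ w y := by
      simp only [hw, hχ.one y (by linarith), one_mul]
      linarith [m0 y]
    change κ * D.avτ C₀ (rho L) y + Real.exp (-L) ≤ _
    linarith
  have w4 : ∀ y, 31 / 10 ≤ ‖y‖ → ‖y‖ ≤ 33 / 10 →
      Real.exp (9 * L) ≤ κ * khGlob E C₀ * p y + w y := fun y hy hy' => by
    have a1 : min 1 (max 0 (10 * (‖y‖ - 3))) = 1 :=
      min_eq_left (le_max_of_le_right (by linarith))
    simp only [hw, hχ.one y (by linarith), one_mul, a1, mul_one]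
    linarith [mul_nonneg k4 (p0 y)]
  have G0 : ∀ y, 0 ≤ κ * khGlob E C₀ * p y + w y := fun y =>
    add_nonneg (mul_nonneg k4 (p0 y)) (w0 y)
  have G1 : ∀ y, κ * khGlob E C₀ * p y + w y ≤ big L := fun y => by
    have := (mul_le_of_le_one_left (p0 y) (k2.trans k3)).trans (p1 y)
    nlinarith [w1 y]
  have G2 : ∀ y, ‖y‖ ≤ 3 → κ * khGlob E C₀ * p y + w y ≤ κ' * p y + Real.exp (-L) :=
    fun y hy => add_le_add (mul_le_mul_of_nonneg_right k2 (p0 y)) (w2 y hy).le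
  have zU : ∀ i j y, 4 ≤ ‖y‖ → (cutGlob χ χ' D).U i j y = 0 := fun i j y hy => by
    simp [cutGlob, hU.zero y (by linarith)]
  refine ⟨fun y => κ * khGlob E C₀ * p y + w y, hst, cχ.mul h.c_ee,
    int_glob (R := 4) (cχ.mul h.c_ee) fun y hy => by simp [cutGlob, z0 y hy],
    fun y => mul_nonneg (hχ.nonneg y) (h.ee_nonneg y),
    fun y => hχ.mul_le (by linarith) fun hy => by linarith [h.ee_le y (mem_ball_zero_iff.2 hy)],
    hp ▸ har, fun x t hx ht htm => ?_, fun i j => hU.cd.mul (h.c_U i j),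
    fun i j => cs_glob (zU i j), zU, fun i y => by simp [cutGlob, h.U_zero], fun i j hj y => ?_,
    ((hp ▸ continuous_P bτ hρ2 : Continuous p).const_mul _).add cw,
    ((hp ▸ integrable_P (int_glob c1 c2) hρ2 : Integrable p).const_mul _).add (int_glob cw zw),
    G0, G1, fun y hy => by rw [← hp]; linarith [G2 y hy], fun x t hx ht htm => ?_,
    fun y v => ?_, fun i j hj y => ?_, fun y hy hs => ?_⟩
  · have := far_glob (hst.bm_ε.abs.add bτ) (bp.const_mul (C₀ * khGlob E C₀ * ksGlob E C₀))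
      (fun y => mul_nonneg (by linarith) (p0 y)) har (fun y => by nlinarith [c4 y]) hL n.n5 hx ht
      htm
    rwa [P_const_mul, pP t x ht] at this
  · by_cases hy : ‖y‖ < 4
    · have a1 := h.U_le i j hj y (mem_ball_zero_iff.2 hy)
      have a2 : |χ' y * D.U i j y| ≤ |D.U i j y| := by
        rw [abs_mul, abs_of_nonneg (hU.nonneg y)]
        exact mul_le_of_le_one_left (abs_nonneg _) (hU.le_one y)
      have a3 : C₀ ≤ C₀ * khGlob E C₀ := le_mul_of_one_le_right (by linarith) kh0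
      exact a2.trans (by linarith)
    · rw [zU i j y (not_lt.1 hy), abs_zero]
      linarith
  · have := far_glob ((bp.const_mul (κ * khGlob E C₀)).add (bm_glob cw zw))
      ((bp.const_mul κ').add (BM.const (Real.exp (-L))))
      (fun y => add_nonneg (mul_nonneg (k4.trans k2) (p0 y)) h1.le) G2 G1 hL n.n5 hx ht htm
    rw [P_add (bp.const_mul κ') (BM.const _) ht, P_const_mul, P_const ht, pP t x ht] at this
    linarith
  · have a0 := hst.psd y v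
    rcases lt_or_ge ‖y‖ (31 / 10) with hy | hy
    · have a1 : (cutGlob χ χ' D).T y = D.T y := by simp [cutGlob, hχ.one y (by linarith)]
      rw [h.qf_in_glob hU hy, a1]
      linarith [h.s4 y (mem_ball_zero_iff.2 (by linarith)) v,
        mul_le_mul_of_nonneg_right (w3 y hy) (sq_nonneg ‖v‖)]
    rcases le_or_gt ‖y‖ (33 / 10) with hy' | hy'
    · linarith [h.qf_le_glob (χ := χ) n hU k0 k1 (y := y) (by linarith) v,
        mul_le_mul_of_nonneg_right (w4 y hy hy') (sq_nonneg ‖v‖)]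
    · have a1 : (cutGlob χ χ' D).qf Q y v = 0 := by
        simp [h.qf_cut_glob hU, hU.zero y hy'.le, (hU.flat y (Or.inr hy')).1]
      linarith [mul_nonneg (G0 y) (sq_nonneg ‖v‖)]
  · obtain ⟨l1, l2, l3⟩ := h.lap_glob (χ := χ) n hU k0 k1 i hj y
    rcases lt_or_ge ‖y‖ (31 / 10) with hy | hy
    · linarith [l1 hy, w3 y hy, h.s5 i j hj y (mem_ball_zero_iff.2 (by linarith))]
    rcases le_or_gt ‖y‖ (33 / 10) with hy' | hy'
    · linarith [l3 (by linarith), w4 y hy hy']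
    · linarith [l2 hy', G0 y]
  · have a1 : χ y = 1 := hχ.one y (by linarith)
    have a2 := h.s6 y (mem_ball_zero_iff.2 (by linarith)) (by
      refine (mass_glob hρ bτ c3 (c5 y (by linarith))).trans ?_
      change _ ≤ η * (rho L ^ finrank ℝ E / rho L ^ 2)
      calc _ = rho L ^ 2 * P (rho L ^ 2) (cutGlob χ χ' D).τ y * khGlob E C₀ *
            (rho L ^ finrank ℝ E / rho L ^ 2) := by field_simp
        _ ≤ _ := mul_le_mul_of_nonneg_right
          ((mul_le_mul_of_nonneg_right hs (by linarith)).trans hη) (by positivity))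
    simp only [h.qf_in_glob hU (show ‖y‖ < 31 / 10 by linarith)]
    simpa only [Dat.β, Dat.τ, cutGlob, a1, one_mul, one_smul] using a2

theorem inv_pow_glob {L c : ℝ} (hL : 0 < L) (hc : c ≤ L) (k : ℕ) :
    (L ^ (k + 1))⁻¹ * c ≤ (L ^ k)⁻¹ := by
  refine (mul_le_mul_of_nonneg_left hc (by positivity)).trans_eq ?_
  rw [pow_succ]
  field_simp

end aux

theorem glob {ι : Type*} [Fintype ι] (hm : 2 ≤ finrank ℝ E) (Q : ℕ) (C₀ : ℝ) (A : ℕ)
    (hC : 1 ≤ C₀) : ∃ C₁ L₀ : ℝ, 1 ≤ C₁ ∧ ∀ L, L₀ ≤ L → ∀ D : Dat E ι,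
    Loc D Q C₀ L (L ^ A)⁻¹ (L ^ (finrank ℝ E + 2))⁻¹ →
    ∃ (D' : Dat E ι) (ff Γ : E → ℝ),
      GS D' ff Γ Q C₁ L (L ^ (A + 1))⁻¹ (L ^ (finrank ℝ E + 1))⁻¹ ∧
      ∀ y, ‖y‖ ≤ 3 → D'.ε y = D.ε y ∧ D'.T y = D.T y ∧ D'.ee y = D.ee y := by
  obtain ⟨χ, K₁, hK₁, h1⟩ := exists_cut_glob (E := E) (a := 7 / 2) (b := 39 / 10) (by norm_num)
    (by norm_num)
  obtain ⟨χ', K₂, hK₂, h2⟩ := exists_cut_glob (E := E) (a := 31 / 10) (b := 33 / 10)
    (by norm_num) (by norm_num)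
  have hχ := h1 (K₁ + K₂) (by linarith)
  have hU := h2 (K₁ + K₂) (by linarith)
  have hK : 0 ≤ K₁ + K₂ := by linarith
  generalize K₁ + K₂ = K at hχ hU hK
  have a1 := one_le_kh_glob (E := E) C₀
  have a2 := one_le_ks_glob (E := E) hC
  have a3 : 1 ≤ C₀ * khGlob E C₀ * ksGlob E C₀ :=
    one_le_mul_of_one_le_of_one_le (one_le_mul_of_one_le_of_one_le hC a1) a2
  have a4 : (0 : ℝ) ≤ 2 ^ hd E := by positivity
  have a5 : (0 : ℝ) ≤ Fintype.card ι * (Q * (8 * C₀ ^ 2 * K ^ 2)) := by positivity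
  have a6 : (0 : ℝ) ≤ 8 * (finrank ℝ E * K * Q) := by positivity
  have a7 : 0 ≤ C₀ * K := by positivity
  have a8 : (0 : ℝ) ≤ finrank ℝ E * K := by positivity
  refine ⟨C₀ * khGlob E C₀ * ksGlob E C₀, 1000 + 10 * C₀ + C₀ * khGlob E C₀ * ksGlob E C₀ + K +
    2 ^ hd E + Fintype.card ι * (Q * (8 * C₀ ^ 2 * K ^ 2)) + 8 * (finrank ℝ E * K * Q) + C₀ * K +
    finrank ℝ E * K, a3, fun L hL D h => ?_⟩
  have n : NumGlob E ι Q C₀ K L := ⟨hm, hC, by linarith, by linarith, by linarith, by linarith,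
    by linarith, by linarith, by linarith, by linarith, by linarith⟩
  have hL1 : 1 ≤ L := by linarith [n.n1]
  have hk : khGlob E C₀ ≤ L := (n.kh_le.1.trans n.kh_le.2).trans n.n3
  obtain ⟨Γ, hΓ⟩ := h.gs_glob n hχ hU (by positivity)
    (inv_pow_glob (by linarith) hk (finrank ℝ E + 1))
    (inv_le_one_of_one_le₀ (one_le_pow₀ hL1)) (inv_pow_glob (by linarith) hk A)
  exact ⟨_, _, Γ, hΓ, fun y hy => by simp [cutGlob, hχ.one y (by linarith)]⟩

end Pool.Agent.Lib.MP_8daebb_an.AS
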