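import Pool.Agent.Lib.MP_8daebb_an.AS.Bas

/-! Cutoff functions, product rules and Gaussian tails used for the globalisation. -/

open MeasureTheory Metric Set Module Filter Topology
open scoped RealInnerProductSpace

namespace Pool.Agent.Lib.MP_8daebb_an.AS

open HK

variable {E : Type*} [NormedAddCommGroup E] [InnerProductSpace ℝ E] [FiniteDimensional ℝ E]
  [MeasurableSpace E] [BorelSpace E]

theorem psd_norm_glob {A : E →L[ℝ] E} (hs : ∀ v w, ⟪A v, w⟫ = ⟪v, A w⟫)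
    (hp : ∀ v, 0 ≤ ⟪A v, v⟫) : ‖A‖ ≤ tr A := by
  have cs : ∀ v w, ⟪A v, w⟫ ^ 2 ≤ ⟪A v, v⟫ * ⟪A w, w⟫ := by
    intro v w
    have h1 : ∀ t : ℝ, 0 ≤ ⟪A w, w⟫ * (t * t) + 2 * ⟪A v, w⟫ * t + ⟪A v, v⟫ := by
      intro t
      have h2 := hp (v + t • w)
      have h3 : ⟪A w, v⟫ = ⟪A v, w⟫ := by rw [hs, real_inner_comm]
      simp only [map_add, map_smul, inner_add_left, inner_add_right, real_inner_smul_left,
        real_inner_smul_right, h3] at h2
      linarith
    have h4 := discrim_le_zero h1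
    unfold discrim at h4
    linarith
  let b := stdOrthonormalBasis ℝ E
  have ht : 0 ≤ tr A := by
    rw [tr_eq_sum b]
    exact Finset.sum_nonneg fun i _ => hp _
  refine A.opNorm_le_bound ht fun v => ?_
  have h2 : ‖A v‖ ^ 2 ≤ ⟪A v, v⟫ * tr A := by
    rw [← b.sum_sq_inner_left (A v), tr_eq_sum b, Finset.mul_sum]
    exact Finset.sum_le_sum fun i _ => cs _ _
  have h3 := mul_le_mul_of_nonneg_right (real_inner_le_norm (A v) v) ht
  rcases (norm_nonneg (A v)).eq_or_lt with h0 | h0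
  · rw [← h0]
    positivity
  · exact le_of_mul_le_mul_left (by nlinarith) h0

omit [FiniteDimensional ℝ E] [MeasurableSpace E] [BorelSpace E] in
theorem tr_smul_glob (c : ℝ) (A : E →L[ℝ] E) : tr (c • A) = c * tr A := by
  simp [tr]

omit [FiniteDimensional ℝ E] [MeasurableSpace E] [BorelSpace E] in
theorem tr_add_glob (A A' : E →L[ℝ] E) : tr (A + A') = tr A + tr A' := by
  simp [tr]

omit [FiniteDimensional ℝ E] [MeasurableSpace E] [BorelSpace E] in
theorem tr_zero_glob : tr (0 : E →L[ℝ] E) = 0 := by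
  simp [tr]

omit [FiniteDimensional ℝ E] [MeasurableSpace E] [BorelSpace E] in
theorem pair_glob (c ε : ℝ) (T A A' : E →L[ℝ] E) :
    pair ε T (c • A + A') = pair (c * ε) (c • T) A + pair ε T A' := by
  simp only [pair, ContinuousLinearMap.comp_add, ContinuousLinearMap.comp_smul,
    ContinuousLinearMap.smul_comp, tr_add_glob, tr_smul_glob]
  ring

theorem abs_pair_glob (ε : ℝ) (T A : E →L[ℝ] E) :
    |pair ε T A| ≤ finrank ℝ E * ((|ε| + ‖T‖) * ‖A‖) := by
  have h1 := mul_le_mul_of_nonneg_left (abs_tr_le A) (abs_nonneg ε)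
  have h2 := (abs_tr_le (T.comp A)).trans
    (mul_le_mul_of_nonneg_left (T.opNorm_comp_le A) (Nat.cast_nonneg _))
  have h3 := abs_sub (ε * tr A) (tr (T.comp A))
  rw [abs_mul] at h3
  unfold pair
  linarith

theorem c_pair_glob {ε : E → ℝ} {T A : E → E →L[ℝ] E} (hε : Continuous ε) (hT : Continuous T)
    (hA : Continuous A) : Continuous fun y => pair (ε y) (T y) (A y) :=
  (hε.mul (continuous_tr.comp hA)).sub (continuous_tr.comp (hT.clm_comp hA))

omit [MeasurableSpace E] [BorelSpace E] in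
theorem cs_glob {F : Type*} [Zero F] {f : E → F} {R : ℝ} (h : ∀ y, R ≤ ‖y‖ → f y = 0) :
    HasCompactSupport f :=
  HasCompactSupport.intro (isCompact_closedBall (0 : E) R) fun y hy =>
    h y (le_of_not_ge fun h' => hy (mem_closedBall_zero_iff.2 h'))

theorem int_glob {F : Type*} [NormedAddCommGroup F] {f : E → F} {R : ℝ} (hf : Continuous f)
    (h : ∀ y, R ≤ ‖y‖ → f y = 0) : Integrable f :=
  hf.integrable_of_hasCompactSupport (cs_glob h)

theorem bm_glob {f : E → ℝ} {R : ℝ} (hf : Continuous f) (h : ∀ y, R ≤ ‖y‖ → f y = 0) : BM f :=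
  BM.of_compactSupport hf (cs_glob h)

omit [MeasurableSpace E] [BorelSpace E] in
theorem flat_glob {f : E → ℝ} {x : E} {c : ℝ} (h : f =ᶠ[𝓝 x] fun _ => c) :
    fderiv ℝ f x = 0 ∧ lap f x = 0 := by
  refine ⟨by rw [h.fderiv_eq, fderiv_fun_const]; rfl, ?_⟩
  rw [lap, h.gradient.fderiv_eq, gradient_fun_const', fderiv_fun_const]
  exact tr_zero_glob

/-- A cutoff between the radii `a` and `b`. -/
structure CutGlob (χ : E → ℝ) (a b K : ℝ) : Prop where
  cd : ContDiff ℝ 2 χ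
  nonneg : ∀ y, 0 ≤ χ y
  le_one : ∀ y, χ y ≤ 1
  one : ∀ y, ‖y‖ ≤ a → χ y = 1
  zero : ∀ y, b ≤ ‖y‖ → χ y = 0
  flat : ∀ y, ‖y‖ < a ∨ b < ‖y‖ → fderiv ℝ χ y = 0 ∧ lap χ y = 0
  d1 : ∀ y, ‖fderiv ℝ χ y‖ ≤ K
  d2 : ∀ y, |lap χ y| ≤ K

theorem c_lap_glob {f : E → ℝ} (hf : ContDiff ℝ 2 f) : Continuous (lap f) := by
  have h1 : ContDiff ℝ 1 (fderiv ℝ f) := hf.fderiv_right (by norm_num)
  rw [funext (lap_eq_sum (stdOrthonormalBasis ℝ E) hf)]
  exact continuous_finsetSum _ fun i _ =>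
    ((h1.clm_apply contDiff_const).continuous_fderiv one_ne_zero).clm_apply continuous_const

theorem exists_cut_glob {a b : ℝ} (ha : 0 < a) (hab : a < b) :
    ∃ (χ : E → ℝ) (K₀ : ℝ), 0 ≤ K₀ ∧ ∀ K, K₀ ≤ K → CutGlob χ a b K := by
  let f : ContDiffBump (0 : E) := ⟨a, b, ha, hab⟩
  have cd : ContDiff ℝ 2 f := f.contDiff
  have h1 : ∀ y, ‖y‖ ≤ a → f y = 1 := fun y hy =>
    f.one_of_mem_closedBall (mem_closedBall_zero_iff.2 hy)
  have h0 : ∀ y, b ≤ ‖y‖ → f y = 0 := fun y hy => f.zero_of_le_dist (by rwa [dist_zero_right])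
  have hf : ∀ y, ‖y‖ < a ∨ b < ‖y‖ → fderiv ℝ f y = 0 ∧ lap f y = 0 := by
    rintro y (hy | hy)
    · exact flat_glob (((isOpen_lt continuous_norm continuous_const).eventually_mem hy).mono
        fun z hz => h1 z (le_of_lt hz))
    · exact flat_glob (((isOpen_lt continuous_const continuous_norm).eventually_mem hy).mono
        fun z hz => h0 z (le_of_lt hz))
  obtain ⟨K₁, hK₁⟩ := (cd.continuous_fderiv two_ne_zero).bounded_above_of_compact_support
    (cs_glob (R := b + 1) fun y hy => (hf y (Or.inr (by linarith))).1)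
  obtain ⟨K₂, hK₂⟩ := (c_lap_glob cd).bounded_above_of_compact_support
    (cs_glob (R := b + 1) fun y hy => (hf y (Or.inr (by linarith))).2)
  have a1 : 0 ≤ K₁ := (norm_nonneg _).trans (hK₁ 0)
  have a2 : 0 ≤ K₂ := (norm_nonneg _).trans (hK₂ 0)
  exact ⟨f, K₁ + K₂, by linarith, fun K hK => ⟨cd, f.nonneg', fun _ => f.le_one, h1, h0, hf,
    fun y => (hK₁ y).trans (by linarith), fun y => (hK₂ y).trans (by linarith)⟩⟩

theorem lap_mul_glob {f g : E → ℝ} (hf : ContDiff ℝ 2 f) (hg : ContDiff ℝ 2 g) (x : E) :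
    ∃ c, |c| ≤ finrank ℝ E * (‖fderiv ℝ f x‖ * ‖fderiv ℝ g x‖) ∧
      lap (fun y => f y * g y) x = f x * lap g x + 2 * c + g x * lap f x := by
  let b := stdOrthonormalBasis ℝ E
  have df : Differentiable ℝ f := hf.differentiable two_ne_zero
  have dg : Differentiable ℝ g := hg.differentiable two_ne_zero
  have d2 : ∀ {u : E → ℝ}, ContDiff ℝ 2 u → ∀ v, Differentiable ℝ fun y => fderiv ℝ u y v :=
    fun hu v => ((hu.fderiv_right (m := 1) (by norm_num)).clm_apply contDiff_const).differentiable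
      one_ne_zero
  refine ⟨∑ i, fderiv ℝ f x (b i) * fderiv ℝ g x (b i), ?_, ?_⟩
  · refine (Finset.abs_sum_le_sum_abs _ _).trans ?_
    refine (Finset.sum_le_card_nsmul _ _ (‖fderiv ℝ f x‖ * ‖fderiv ℝ g x‖) fun i _ => ?_).trans
      (by simp)
    have h1 := (fderiv ℝ f x).le_opNorm (b i)
    have h2 := (fderiv ℝ g x).le_opNorm (b i)
    rw [b.orthonormal.1 i, mul_one] at h1 h2
    rw [abs_mul]
    exact mul_le_mul h1 h2 (abs_nonneg _) (norm_nonneg _)
  · rw [lap_eq_sum b (hf.mul hg), lap_eq_sum b hf, lap_eq_sum b hg, Finset.mul_sum,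
      Finset.mul_sum, Finset.mul_sum, ← Finset.sum_add_distrib, ← Finset.sum_add_distrib]
    refine Finset.sum_congr rfl fun i _ => ?_
    have h1 : (fun y => fderiv ℝ (fun y => f y * g y) y (b i)) =
        fun y => f y * fderiv ℝ g y (b i) + g y * fderiv ℝ f y (b i) := by
      funext y
      rw [fderiv_fun_mul (df y) (dg y)]
      simp
    rw [h1, fderiv_fun_add ((df x).fun_mul (d2 hg _ x)) ((dg x).fun_mul (d2 hf _ x)),
      fderiv_fun_mul (df x) (d2 hg _ x), fderiv_fun_mul (dg x) (d2 hf _ x)]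
    simp only [add_apply, smul_apply, smul_eq_mul]
    ring

theorem tail_num_glob {L c : ℝ} (hL : 1000 ≤ L) (hc : c ≤ L) :
    c * Real.exp (-(Real.exp L / 4 / 8)) * big L ≤ ng L := by
  have h1 : L ^ 3 / 6 ≤ Real.exp L := by
    simpa [Nat.factorial] using Real.pow_div_factorial_le_exp L (by linarith) 3
  have h2 : c ≤ Real.exp L := by linarith [Real.add_one_le_exp L]
  have h3 : 1000 * L ^ 2 ≤ L ^ 3 := by nlinarith [sq_nonneg L]
  have h4 : 1000 * L ≤ L ^ 2 := by nlinarith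
  unfold big ng
  calc c * Real.exp (-(Real.exp L / 4 / 8)) * Real.exp (10 * L)
      ≤ Real.exp L * Real.exp (-(Real.exp L / 4 / 8)) * Real.exp (10 * L) := by gcongr
    _ ≤ _ := by
      rw [← Real.exp_add, ← Real.exp_add, Real.exp_le_exp]
      linarith

/-- A bound on the ball of radius three passes to the heat averages. -/
theorem far_glob {f g : E → ℝ} {L t : ℝ} {x : E} (hf : BM f) (hg : BM g) (g0 : ∀ y, 0 ≤ g y)
    (hfg : ∀ y, ‖y‖ ≤ 3 → f y ≤ g y) (hB : ∀ y, f y ≤ big L) (hL : 1000 ≤ L)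
    (hc : 2 ^ hd E ≤ L) (hx : ‖x‖ ≤ 5 / 2) (ht : 0 < t) (htm : t ≤ tm L) :
    P t f x ≤ P t g x + ng L := by
  have hb : 0 < big L := Real.exp_pos _
  have hA : MeasurableSet {y : E | 3 < ‖y‖} := measurableSet_lt measurable_const measurable_norm
  have hk : BM ({y : E | 3 < ‖y‖}.indicator fun _ => big L) := (BM.const _).indicator hA
  have h1 := P_mono hf (hg.add hk) ht (fun y => by
    by_cases hy : 3 < ‖y‖
    · rw [indicator_of_mem (show y ∈ {y : E | 3 < ‖y‖} from hy)]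
      linarith [hB y, g0 y]
    · rw [indicator_of_notMem (show y ∉ {y : E | 3 < ‖y‖} from hy), add_zero]
      exact hfg y (not_lt.1 hy)) x
  have h2 := abs_P_le_tail (f := {y : E | 3 < ‖y‖}.indicator fun _ => big L) (BM.const (big L)) ht
    (A := Real.exp L / 4) (x := x) (fun y => by
      by_cases hy : y ∈ {y : E | 3 < ‖y‖} <;> simp [hy, hb.le, abs_of_pos hb]) fun y hy => by
      have a1 : y ∈ {y : E | 3 < ‖y‖} := mem_of_indicator_ne_zero hy
      rw [mem_ofPred_eq] at a1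
      have a2 : 1 / 2 ≤ ‖y - x‖ := by linarith [norm_sub_norm_le y x]
      have a3 : Real.exp L * t ≤ 1 := by
        refine (mul_le_mul_of_nonneg_left htm (Real.exp_pos L).le).trans_eq ?_
        rw [tm, ← Real.exp_add, add_neg_cancel, Real.exp_zero]
      nlinarith
  rw [P_const (by positivity)] at h2
  rw [P_add hg hk ht] at h1
  linarith [le_abs_self (P t ({y : E | 3 < ‖y‖}.indicator fun _ => big L) x), tail_num_glob hL hc]

/-- Stationarity after cutting off. -/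
theorem stat_glob {ε χ : E → ℝ} {T : E → E →L[ℝ] E} {K δ : ℝ} (hε : Continuous ε)
    (hT : Continuous T) (hχ : CutGlob χ (7 / 2) (39 / 10) K) (hδ : 0 ≤ δ)
    (s1 : ∀ Y : E → E, ContDiff ℝ 1 Y → tsupport Y ⊆ ball 0 4 →
      |∫ y, pair (ε y) (T y) (fderiv ℝ Y y)| ≤ δ * ∫ y, (‖fderiv ℝ Y y‖ + ‖Y y‖))
    (Y : E → E) (hY : ContDiff ℝ 1 Y) :
    |∫ y, pair (χ y * ε y) (χ y • T y) (fderiv ℝ Y y)| ≤
      ∫ y, (δ * (χ y + ‖fderiv ℝ χ y‖) + finrank ℝ E * (‖fderiv ℝ χ y‖ * (|ε y| + ‖T y‖))) *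
        (‖fderiv ℝ Y y‖ + ‖Y y‖) := by
  have cχ := hχ.cd.continuous
  have cD := hχ.cd.continuous_fderiv two_ne_zero
  have cY := hY.continuous
  have cDY := hY.continuous_fderiv one_ne_zero
  have z0 : ∀ y, 4 ≤ ‖y‖ → χ y = 0 := fun y hy => hχ.zero y (by linarith)
  have z1 : ∀ y, 4 ≤ ‖y‖ → fderiv ℝ χ y = 0 := fun y hy => (hχ.flat y (Or.inr (by linarith))).1
  have hZ : ContDiff ℝ 1 fun y => χ y • Y y := (hχ.cd.of_le one_le_two).smul hY
  have hD : ∀ y, fderiv ℝ (fun y => χ y • Y y) y =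
      χ y • fderiv ℝ Y y + (fderiv ℝ χ y).smulRight (Y y) := fun y =>
    fderiv_fun_smul (hχ.cd.differentiable two_ne_zero y) (hY.differentiable one_ne_zero y)
  have hs : tsupport (fun y => χ y • Y y) ⊆ ball 0 4 := by
    refine (closure_minimal (fun y hy => ?_) isClosed_closedBall).trans
      (closedBall_subset_ball (show (39 / 10 : ℝ) < 4 by norm_num))
    refine mem_closedBall_zero_iff.2 (le_of_not_ge fun h => hy ?_)
    simp [hχ.zero y h]
  have h1 := s1 _ hZ hs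
  have i1 : Integrable fun y => pair (ε y) (T y) (fderiv ℝ (fun y => χ y • Y y) y) :=
    int_glob (R := 4) (c_pair_glob hε hT (hZ.continuous_fderiv one_ne_zero)) fun y hy => by
      simp [hD, z0 y hy, z1 y hy, pair, tr_zero_glob]
  have i2 : Integrable fun y => pair (χ y * ε y) (χ y • T y) (fderiv ℝ Y y) :=
    int_glob (R := 4) (c_pair_glob (cχ.mul hε) (cχ.smul hT) cDY) fun y hy => by
      simp [z0 y hy, pair, tr_zero_glob]
  have i3 : Integrable fun y => (χ y + ‖fderiv ℝ χ y‖) * (‖fderiv ℝ Y y‖ + ‖Y y‖) :=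
    int_glob (R := 4) (by fun_prop) fun y hy => by simp [z0 y hy, z1 y hy]
  have i4 : Integrable fun y => finrank ℝ E * (‖fderiv ℝ χ y‖ * (|ε y| + ‖T y‖)) *
      (‖fderiv ℝ Y y‖ + ‖Y y‖) :=
    int_glob (R := 4) (by fun_prop) fun y hy => by simp [z1 y hy]
  have h2 : ∫ y, (‖fderiv ℝ (fun y => χ y • Y y) y‖ + ‖χ y • Y y‖) ≤
      ∫ y, (χ y + ‖fderiv ℝ χ y‖) * (‖fderiv ℝ Y y‖ + ‖Y y‖) := by
    refine integral_mono_of_nonneg (Eventually.of_forall fun y => by positivity) i3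
      (Eventually.of_forall fun y => ?_)
    have a1 := norm_add_le (χ y • fderiv ℝ Y y) ((fderiv ℝ χ y).smulRight (Y y))
    rw [← hD, norm_smul, ContinuousLinearMap.norm_smulRight_apply,
      Real.norm_of_nonneg (hχ.nonneg y)] at a1
    have a2 := mul_nonneg (norm_nonneg (fderiv ℝ χ y)) (norm_nonneg (fderiv ℝ Y y))
    simp only [norm_smul, Real.norm_of_nonneg (hχ.nonneg y)]
    linarith
  have h3 : ‖∫ y, (pair (ε y) (T y) (fderiv ℝ (fun y => χ y • Y y) y) -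
      pair (χ y * ε y) (χ y • T y) (fderiv ℝ Y y))‖ ≤
      ∫ y, finrank ℝ E * (‖fderiv ℝ χ y‖ * (|ε y| + ‖T y‖)) * (‖fderiv ℝ Y y‖ + ‖Y y‖) := by
    refine norm_integral_le_of_norm_le i4 (Eventually.of_forall fun y => ?_)
    rw [hD, pair_glob, add_sub_cancel_left, Real.norm_eq_abs]
    refine (abs_pair_glob _ _ _).trans ?_
    rw [ContinuousLinearMap.norm_smulRight_apply, mul_assoc]
    refine mul_le_mul_of_nonneg_left ?_ (Nat.cast_nonneg _)
    have a2 : 0 ≤ ‖fderiv ℝ χ y‖ * (|ε y| + ‖T y‖) * ‖fderiv ℝ Y y‖ := by positivity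
    linarith
  rw [integral_sub i1 i2, Real.norm_eq_abs] at h3
  have h4 : ∫ y, (δ * (χ y + ‖fderiv ℝ χ y‖) +
      finrank ℝ E * (‖fderiv ℝ χ y‖ * (|ε y| + ‖T y‖))) * (‖fderiv ℝ Y y‖ + ‖Y y‖) =
      δ * (∫ y, (χ y + ‖fderiv ℝ χ y‖) * (‖fderiv ℝ Y y‖ + ‖Y y‖)) +
      ∫ y, finrank ℝ E * (‖fderiv ℝ χ y‖ * (|ε y| + ‖T y‖)) * (‖fderiv ℝ Y y‖ + ‖Y y‖) := by
    rw [← integral_const_mul, ← integral_add (i3.const_mul δ) i4]
    exact integral_congr_ae (Eventually.of_forall fun y => by ring)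
  have h5 := mul_le_mul_of_nonneg_left h2 hδ
  have h6 := abs_sub_abs_le_abs_sub (∫ y, pair (χ y * ε y) (χ y • T y) (fderiv ℝ Y y))
    (∫ y, pair (ε y) (T y) (fderiv ℝ (fun y => χ y • Y y) y))
  rw [abs_sub_comm] at h6
  linarith

end Pool.Agent.Lib.MP_8daebb_an.AS
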