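import Pool.Agent.Lib.MP_8daebb_an.AS.Def

/-! Trivial extension of the abstract data to the product with a plane: algebra and integrals. -/

set_option linter.unusedSectionVars false

open MeasureTheory Metric Set Module
open scoped RealInnerProductSpace

namespace Pool.Agent.Lib.MP_8daebb_an.AS

/-- The extra plane. -/
abbrev F2 : Type := EuclideanSpace ℝ (Fin 2)

/-- The product with the extra plane. -/
def Up (E : Type*) : Type _ := WithLp 2 (E × F2)

variable {E : Type*} [NormedAddCommGroup E] [InnerProductSpace ℝ E] [FiniteDimensional ℝ E]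
  [MeasurableSpace E] [BorelSpace E]

noncomputable instance : NormedAddCommGroup (Up E) :=
  inferInstanceAs (NormedAddCommGroup (WithLp 2 (E × F2)))

noncomputable instance : InnerProductSpace ℝ (Up E) :=
  inferInstanceAs (InnerProductSpace ℝ (WithLp 2 (E × F2)))

instance : FiniteDimensional ℝ (Up E) := inferInstanceAs (FiniteDimensional ℝ (WithLp 2 (E × F2)))

instance : MeasurableSpace (Up E) := inferInstanceAs (MeasurableSpace (WithLp 2 (E × F2)))

instance : BorelSpace (Up E) := inferInstanceAs (BorelSpace (WithLp 2 (E × F2)))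

/-- the point with the given components -/
def mk (z : E × F2) : Up E := WithLp.toLp 2 z

/-- first projection -/
noncomputable def p1 : Up E →L[ℝ] E := WithLp.fstL 2 ℝ E F2

/-- second projection -/
noncomputable def p2 : Up E →L[ℝ] F2 := WithLp.sndL 2 ℝ E F2

/-- first inclusion -/
noncomputable def i1 : E →L[ℝ] Up E :=
  ((WithLp.prodContinuousLinearEquiv 2 ℝ E F2).symm : E × F2 →L[ℝ] WithLp 2 (E × F2)).comp
    (ContinuousLinearMap.inl ℝ E F2)

/-- second inclusion -/
noncomputable def i2 : F2 →L[ℝ] Up E :=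
  ((WithLp.prodContinuousLinearEquiv 2 ℝ E F2).symm : E × F2 →L[ℝ] WithLp 2 (E × F2)).comp
    (ContinuousLinearMap.inr ℝ E F2)

theorem p1_i1 (x : E) : p1 (i1 x : Up E) = x := rfl

theorem p2_i2 (s : F2) : p2 (i2 s : Up E) = s := rfl

theorem p1_i2 (s : F2) : p1 (i2 s : Up E) = 0 := rfl

theorem p2_i1 (x : E) : p2 (i1 x : Up E) = 0 := rfl

theorem i1_add_i2 (y : Up E) : i1 (p1 y) + i2 (p2 y) = y := by
  obtain ⟨a, b⟩ := y
  show WithLp.toLp 2 (a, (0 : F2)) + WithLp.toLp 2 ((0 : E), b) = WithLp.toLp 2 (a, b)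
  rw [← WithLp.toLp_add]
  simp

theorem toLp_eq (x : E) (s : F2) : mk (x, s) = i1 x + i2 s :=
  (i1_add_i2 (mk (x, s))).symm

theorem inner_i1 (x : E) (y : Up E) : ⟪(i1 x : Up E), y⟫ = ⟪x, p1 y⟫ := by
  show ⟪x, p1 y⟫ + ⟪(0 : F2), p2 y⟫ = _
  rw [inner_zero_left, add_zero]

theorem norm_p1_le (y : Up E) : ‖p1 y‖ ≤ ‖y‖ := WithLp.norm_fst_le _ y

theorem norm_p2_le (y : Up E) : ‖p2 y‖ ≤ ‖y‖ := WithLp.norm_snd_le _ y

theorem norm_i1 (x : E) : ‖(i1 x : Up E)‖ = ‖x‖ := WithLp.norm_toLp_fst 2 E F2 x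

theorem norm_i2 (s : F2) : ‖(i2 s : Up E)‖ = ‖s‖ := WithLp.norm_toLp_snd 2 E F2 s

theorem norm_le_add (y : Up E) : ‖y‖ ≤ ‖p1 y‖ + ‖p2 y‖ := by
  calc ‖y‖ = ‖i1 (p1 y) + i2 (p2 y)‖ := by rw [i1_add_i2]
    _ ≤ _ := norm_add_le _ _
    _ = _ := by rw [norm_i1, norm_i2]

theorem finrank_up : finrank ℝ (Up E) = finrank ℝ E + 2 := by
  refine (WithLp.linearEquiv 2 ℝ (E × F2)).finrank_eq.trans ?_
  rw [finrank_prod, finrank_euclideanSpace_fin]

theorem tr_comm {X Y : Type*} [NormedAddCommGroup X] [InnerProductSpace ℝ X]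
    [FiniteDimensional ℝ X] [NormedAddCommGroup Y] [InnerProductSpace ℝ Y] [FiniteDimensional ℝ Y]
    (A : X →L[ℝ] Y) (B : Y →L[ℝ] X) : tr (A.comp B) = tr (B.comp A) :=
  LinearMap.trace_comp_comm' (B : Y →ₗ[ℝ] X) (A : X →ₗ[ℝ] Y)

theorem tr_add' {X : Type*} [NormedAddCommGroup X] [InnerProductSpace ℝ X] (A B : X →L[ℝ] X) :
    tr (A + B) = tr A + tr B := by
  unfold tr
  rw [ContinuousLinearMap.toLinearMap_add, map_add]

theorem tr_up (A : E →L[ℝ] E) : tr ((i1 : E →L[ℝ] Up E).comp (A.comp p1)) = tr A := by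
  rw [tr_comm, ContinuousLinearMap.comp_assoc]
  rfl

theorem tr_split (B : Up E →L[ℝ] Up E) :
    tr B = tr ((p1 : Up E →L[ℝ] E).comp (B.comp i1)) +
      tr ((p2 : Up E →L[ℝ] F2).comp (B.comp i2)) := by
  have h : B = (B.comp (i1 (E := E))).comp (p1 (E := E)) +
      (B.comp (i2 (E := E))).comp (p2 (E := E)) := by
    ext1 y
    show B y = B (i1 (p1 y)) + B (i2 (p2 y))
    rw [← map_add, i1_add_i2]
  rw [tr_comm (B.comp i1) p1 |>.symm, tr_comm (B.comp i2) p2 |>.symm, ← tr_add', ← h]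

theorem pair_up (ε : ℝ) (T : E →L[ℝ] E) (B : Up E →L[ℝ] Up E) :
    pair ε ((i1 : E →L[ℝ] Up E).comp (T.comp p1)) B =
      pair ε T (p1.comp (B.comp i1)) + ε * tr (p2.comp (B.comp i2)) := by
  have h : tr (((i1 : E →L[ℝ] Up E).comp (T.comp p1)).comp B) =
      tr (T.comp (p1.comp (B.comp i1))) := by
    rw [ContinuousLinearMap.comp_assoc, tr_comm]
    rfl
  unfold pair
  rw [h, tr_split B]
  ring

theorem norm_p1_comp_le (B : Up E →L[ℝ] Up E) : ‖p1.comp (B.comp (i1 : E →L[ℝ] Up E))‖ ≤ ‖B‖ := by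
  refine ContinuousLinearMap.opNorm_le_bound _ (ContinuousLinearMap.opNorm_nonneg B) fun x => ?_
  calc _ ≤ ‖B (i1 x)‖ := norm_p1_le _
    _ ≤ ‖B‖ * ‖(i1 x : Up E)‖ := B.le_opNorm _
    _ = _ := by rw [norm_i1]

theorem fderiv_up {f : E → ℝ} (hf : Differentiable ℝ f) (y : Up E) :
    fderiv ℝ (fun z : Up E => f (p1 z)) y = (fderiv ℝ f (p1 y)).comp p1 :=
  ((hf _).hasFDerivAt.comp y (p1 : Up E →L[ℝ] E).hasFDerivAt).fderiv

theorem gradient_up {f : E → ℝ} (hf : Differentiable ℝ f) (y : Up E) :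
    gradient (fun z : Up E => f (p1 z)) y = i1 (gradient f (p1 y)) := by
  have := FiniteDimensional.complete ℝ E
  have := FiniteDimensional.complete ℝ (Up E)
  refine ext_inner_right ℝ fun v => ?_
  rw [inner_i1, gradient, gradient, InnerProductSpace.toDual_symm_apply,
    InnerProductSpace.toDual_symm_apply, fderiv_up hf]
  rfl

theorem lap_up {f : E → ℝ} (hf : ContDiff ℝ 2 f) (y : Up E) :
    lap (fun z : Up E => f (p1 z)) y = lap f (p1 y) := by
  have := FiniteDimensional.complete ℝ E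
  have h1 : Differentiable ℝ f := hf.differentiable (by norm_num)
  have h2 : Differentiable ℝ (gradient f) :=
    (InnerProductSpace.toDual ℝ E).symm.toContinuousLinearEquiv.differentiable.comp
      ((hf.fderiv_right (m := 1) (by norm_num)).differentiable one_ne_zero)
  have h3 : gradient (fun z : Up E => f (p1 z)) = fun z => i1 (gradient f (p1 z)) :=
    funext (gradient_up h1)
  have h4 : fderiv ℝ (fun z : Up E => (i1 (gradient f (p1 z)) : Up E)) y =
      i1.comp ((fderiv ℝ (gradient f) (p1 y)).comp p1) :=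
    ((i1 : E →L[ℝ] Up E).hasFDerivAt.comp y
      ((h2 _).hasFDerivAt.comp y (p1 : Up E →L[ℝ] E).hasFDerivAt)).fderiv
  rw [lap, h3, h4, tr_up, lap]

theorem integral_up (g : Up E → ℝ) :
    ∫ y, g y = ∫ z : E × F2, g (mk z) ∂(volume.prod volume) :=
  ((WithLp.volume_preserving_toLp E F2).integral_comp
    (MeasurableEquiv.toLp 2 (E × F2)).measurableEmbedding g).symm

theorem integrable_up {g : Up E → ℝ} (hg : Integrable g) :
    Integrable (fun z : E × F2 => g (mk z)) (volume.prod volume) :=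
  ((WithLp.volume_preserving_toLp E F2).integrable_comp_emb
    (MeasurableEquiv.toLp 2 (E × F2)).measurableEmbedding).2 hg

theorem integral_up_mul (f : E → ℝ) (g : F2 → ℝ) :
    ∫ y : Up E, f (p1 y) * g (p2 y) = (∫ x, f x) * ∫ s, g s := by
  rw [integral_up, ← integral_prod_mul]
  rfl

theorem setIntegral_up (f : E → ℝ) {A : Set E} (hA : MeasurableSet A) (c : F2) {r : ℝ}
    (hr : 0 ≤ r) :
    ∫ y in {y : Up E | p1 y ∈ A ∧ p2 y ∈ ball c r}, f (p1 y) = (∫ x in A, f x) * (Real.pi * r ^ 2) := by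
  have hm : MeasurableSet {y : Up E | p1 y ∈ A ∧ p2 y ∈ ball c r} :=
    (hA.preimage (p1 (E := E)).continuous.measurable).inter
      (measurableSet_ball.preimage (p2 (E := E)).continuous.measurable)
  have h1 : ∫ s : F2, (ball c r).indicator (fun _ => (1 : ℝ)) s = Real.pi * r ^ 2 := by
    rw [integral_indicator measurableSet_ball, setIntegral_const, Measure.real,
      EuclideanSpace.volume_ball_fin_two, ENNReal.toReal_mul, ENNReal.toReal_pow,
      ENNReal.toReal_ofReal hr, ENNReal.toReal_ofReal Real.pi_pos.le, smul_eq_mul]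
    ring
  rw [← integral_indicator hm, ← integral_indicator hA, ← h1, ← integral_up_mul]
  refine integral_congr_ae (Filter.Eventually.of_forall fun y => ?_)
  by_cases h2 : p1 y ∈ A
  · by_cases h3 : p2 y ∈ ball c r
    · simp only [indicator_of_mem h2, indicator_of_mem h3, mul_one]
      exact indicator_of_mem (show y ∈ {y : Up E | p1 y ∈ A ∧ p2 y ∈ ball c r} from ⟨h2, h3⟩) _
    · simp only [indicator_of_notMem h3, mul_zero]
      exact indicator_of_notMem (fun h => h3 h.2) _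
  · simp only [indicator_of_notMem h2, zero_mul]
    exact indicator_of_notMem (fun h => h2 h.1) _

theorem integrableOn_up {f : E → ℝ} (hf : Continuous f) {S : Set (Up E)}
    (hS : Bornology.IsBounded S) : IntegrableOn (fun y : Up E => f (p1 y)) S := by
  obtain ⟨R, hR⟩ := hS.subset_closedBall 0
  exact ((hf.comp p1.continuous).continuousOn.integrableOn_compact
    (isCompact_closedBall 0 R)).mono_set hR

theorem bounded_box {A : Set E} (hA : Bornology.IsBounded A) (c : F2) (r : ℝ) :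
    Bornology.IsBounded {y : Up E | p1 y ∈ A ∧ p2 y ∈ ball c r} := by
  obtain ⟨R, hR⟩ := hA.subset_closedBall 0
  refine (isBounded_closedBall (x := (0 : Up E)) (r := R + (‖c‖ + r))).subset fun y hy => ?_
  have h1 := mem_closedBall_zero_iff.1 (hR hy.1)
  have h2 : ‖p2 y - c‖ < r := mem_ball_iff_norm.1 hy.2
  have h3 := norm_le_add y
  have h4 := norm_sub_norm_le (p2 y) c
  rw [mem_closedBall_zero_iff]
  linarith

end Pool.Agent.Lib.MP_8daebb_an.AS
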