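import Pool.Agent.Lib.MP_8daebb_an.AS.Bas2

/-! Utilities for the assembly. -/

open MeasureTheory Metric Set Module Filter
open scoped RealInnerProductSpace

namespace Pool.Agent.Lib.MP_8daebb_an.AS

open HK

variable {E : Type*} [NormedAddCommGroup E] [InnerProductSpace ℝ E] [FiniteDimensional ℝ E]
  [MeasurableSpace E] [BorelSpace E]

theorem np_nonneg (x : ℝ) : 0 ≤ np x := le_max_right _ _

theorem np_le_abs (x : ℝ) : np x ≤ |x| := max_le (neg_le_abs x) (abs_nonneg x)

theorem neg_le_np (x : ℝ) : -x ≤ np x := le_max_left _ _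

theorem np_of_nonneg {x : ℝ} (h : 0 ≤ x) : np x = 0 := max_eq_right (by linarith)

omit [NormedAddCommGroup E] [InnerProductSpace ℝ E] [FiniteDimensional ℝ E] [BorelSpace E] in
theorem bm_np {f : E → ℝ} (hf : BM f) : BM (fun y => np (f y)) := hf.neg.max (BM.const 0)

theorem abs_eq_np (x : ℝ) : |x| = 2 * max x 0 - x := by
  rcases le_total 0 x with h | h
  · rw [abs_of_nonneg h, max_eq_left h]; ring
  · rw [abs_of_nonpos h, max_eq_right h]; ring

theorem np_int_le {f : E → ℝ} (hf : BM f) {l : ℝ} (hl : 0 < l) (z : E) :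
    np (∫ y, kk l z y * f y) ≤ ∫ y, kk l z y * np (f y) := by
  refine max_le ?_ (integral_nonneg fun y => mul_nonneg (kk_nonneg _ _ _) (np_nonneg _))
  rw [← integral_neg]
  refine integral_mono (integrable_kk_mul hl z hf).neg (integrable_kk_mul hl z (bm_np hf))
    fun y => ?_
  have := mul_le_mul_of_nonneg_left (neg_le_np (f y)) (kk_nonneg l z y)
  simp only
  linarith

theorem Win.mono {ε e : E → ℝ} {T : E → E →L[ℝ] E} {x₀ : E} {C₂ σ κ κ' a b l l' : ℝ}
    (h : Win ε T e x₀ C₂ σ κ a b l l') (hκ : κ ≤ κ') (hσ : 0 ≤ σ) :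
    Win ε T e x₀ C₂ σ κ' a b l l' :=
  { h with
    e_x₀ := h.e_x₀.trans hκ
    avg := fun s hs => (h.avg s hs).trans (mul_le_mul_of_nonneg_right hκ hσ) }

omit [FiniteDimensional ℝ E] [MeasurableSpace E] [BorelSpace E] in
theorem pk_pos_m {l : ℝ} (hl : 0 < l) : 0 < pk E l := by unfold pk; positivity

omit [FiniteDimensional ℝ E] [MeasurableSpace E] [BorelSpace E] in
theorem sq_mul_pk {l : ℝ} (hl : 0 < l) : l ^ 2 * pk E l = l ^ finrank ℝ E := by
  unfold pk; field_simp

theorem ev_pow_m (C c : ℝ) (hc : 0 < c) (k : ℕ) :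
    ∀ᶠ L : ℝ in atTop, C * L ^ k ≤ Real.exp (c * L) := by
  have h := (isLittleO_pow_exp_pos_mul_atTop k hc).bound (c := 1 / (|C| + 1)) (by positivity)
  filter_upwards [h, eventually_ge_atTop 0] with L h hL
  rw [Real.norm_eq_abs, Real.norm_eq_abs, abs_of_nonneg (by positivity),
    abs_of_pos (Real.exp_pos _)] at h
  have h1 : C * L ^ k ≤ (|C| + 1) * L ^ k :=
    mul_le_mul_of_nonneg_right (by linarith [le_abs_self C]) (by positivity)
  have h2 : (|C| + 1) * L ^ k ≤ (|C| + 1) * (1 / (|C| + 1) * Real.exp (c * L)) :=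
    mul_le_mul_of_nonneg_left h (by positivity)
  rw [← mul_assoc, mul_one_div_cancel (by positivity), one_mul] at h2
  exact h1.trans h2

theorem tendsto_XL {N : ℕ} (hN : 1 ≤ N) : Tendsto (fun X : ℝ => X ^ (2 * N)) atTop atTop :=
  tendsto_pow_atTop (by omega)

theorem ev_log (C : ℝ) (N : ℕ) : ∀ᶠ X : ℝ in atTop, C * Real.log (X ^ (2 * N)) ≤ X := by
  have h := Real.isLittleO_log_id_atTop.bound (c := 1 / (|C| * (2 * N) + 1)) (by positivity)
  filter_upwards [h, eventually_ge_atTop 1] with X h hX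
  have h0 : 0 ≤ Real.log X := Real.log_nonneg hX
  rw [Real.norm_eq_abs, Real.norm_eq_abs, abs_of_nonneg h0, id, abs_of_nonneg (show 0 ≤ X by linarith)] at h
  rw [Real.log_pow]
  have h1 : C * ((2 * N : ℕ) * Real.log X) ≤ (|C| * (2 * N) + 1) * Real.log X := by
    push_cast
    have : C * (2 * N) ≤ |C| * (2 * N) := mul_le_mul_of_nonneg_right (le_abs_self C) (by positivity)
    nlinarith
  have h2 := mul_le_mul_of_nonneg_left h (show 0 ≤ |C| * (2 * N) + 1 by positivity)
  rw [← mul_assoc _ (1 / _), mul_one_div_cancel (by positivity), one_mul] at h2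
  exact h1.trans h2

/-- The crude bound times a Gaussian tail is negligible. -/
theorem ev_tail (C : ℝ) : ∀ᶠ L : ℝ in atTop, ∀ x, L ^ 3 ≤ x →
    C * big L * Real.exp (-x) ≤ ng' L := by
  filter_upwards [ev_pow_m C 1 one_pos 0, eventually_ge_atTop 6] with L h hL x hx
  rw [pow_zero, mul_one, one_mul] at h
  unfold big ng'
  calc C * Real.exp (10 * L) * Real.exp (-x) ≤ Real.exp L * Real.exp (10 * L) * Real.exp (-x) := by
        gcongr
    _ = Real.exp (L + 10 * L + -x) := by rw [Real.exp_add, Real.exp_add]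
    _ ≤ _ := Real.exp_le_exp.2 (by nlinarith [mul_nonneg (sq_nonneg L) (show 0 ≤ L - 6 by linarith)])

/-- For small times the exponent of the tail is large. -/
theorem ev_small : ∀ᶠ L : ℝ in atTop, ∀ s c : ℝ, 0 < s → s ≤ Real.exp (-L) → 0 < c → c ≤ 10 ^ 5 →
    L ^ 3 ≤ 1 / (c * s) := by
  filter_upwards [ev_pow_m (10 ^ 5) 1 one_pos 3, eventually_ge_atTop 0] with L h hL s c hs hs' hc hc'
  rw [le_div_iff₀ (by positivity)]
  calc L ^ 3 * (c * s) ≤ L ^ 3 * (10 ^ 5 * Real.exp (-L)) := by gcongr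
    _ = 10 ^ 5 * L ^ 3 * Real.exp (-L) := by ring
    _ ≤ Real.exp (1 * L) * Real.exp (-L) := by gcongr
    _ = 1 := by rw [← Real.exp_add]; simp

theorem ng_le_ng' (L : ℝ) : ng L ≤ ng' L := by
  unfold ng ng'
  exact Real.exp_le_exp.2 (by nlinarith [sq_nonneg L])

theorem ng'_pos (L : ℝ) : 0 < ng' L := Real.exp_pos _

theorem ts_pos (L : ℝ) : 0 < ts L := Real.exp_pos _

theorem big_pos (L : ℝ) : 0 < big L := Real.exp_pos _

theorem rho_sq (L : ℝ) : rho L ^ 2 = Real.exp (-6 * L) := by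
  unfold rho; rw [← Real.exp_nat_mul]; congr 1; push_cast; ring

theorem ts_le_half {L : ℝ} (hL : 1 ≤ L) : ts L ≤ tm L / 2 := by
  unfold ts tm
  have : Real.exp (-4 * L) = Real.exp (-L) * Real.exp (-3 * L) := by
    rw [← Real.exp_add]; congr 1; ring
  rw [this, div_eq_mul_inv]
  refine mul_le_mul_of_nonneg_left ?_ (Real.exp_pos _).le
  rw [show -3 * L = -(3 * L) by ring, Real.exp_neg]
  exact inv_anti₀ (by norm_num) (by linarith [Real.add_one_le_exp (3 * L)])

end Pool.Agent.Lib.MP_8daebb_an.AS
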