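import Pool.Agent.Lib.MP_8daebb_an.AS.M0

/-! Scales of a window and the averaged data. -/

open MeasureTheory Metric Set Module Filter
open scoped RealInnerProductSpace

namespace Pool.Agent.Lib.MP_8daebb_an.AS

open HK

variable {E : Type*} [NormedAddCommGroup E] [InnerProductSpace ℝ E] [FiniteDimensional ℝ E]
  [MeasurableSpace E] [BorelSpace E] {ι : Type*} [Fintype ι]

namespace Dat

variable (D : Dat E ι)

/-- Averaged excess. -/
noncomputable def εb (L : ℝ) : E → ℝ := P (ts L) D.ε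
/-- Averaged tensor. -/
noncomputable def Tb (L : ℝ) : E → E →L[ℝ] E := PT (ts L) D.T
/-- Averaged energy. -/
noncomputable def τb (L : ℝ) : E → ℝ := P (ts L) D.τ
/-- Averaged defect. -/
noncomputable def βb (L : ℝ) : E → ℝ := P (ts L) D.β
/-- The error of the first pointwise bound. -/
noncomputable def er (L T : ℝ) (y : E) : ℝ :=
  P T D.ee y + (L ^ 5)⁻¹ * P (8 * T) (fun w => D.τ w + D.ee w) y + ng' L
/-- The test function of a window. -/
noncomputable def fe (L η₂ s : ℝ) (y : E) : ℝ :=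
  e0 (D.εb L) (D.Tb L) η₂ s (s * L ^ 40) y * D.τb L y

end Dat

/-- The scales of a window. -/
structure Sc (X L s r l l' : ℝ) (N cθ cΞ : ℕ) : Prop where
  hX : 2 ≤ X
  hL : L = X ^ (2 * N)
  hN : 4 ≤ N
  hθ : cθ ≤ N
  hΞ : cΞ + 1 ≤ N
  hs : ts L ≤ s
  hs' : s * L ^ 40 ≤ Real.exp (-2 * L)
  hr : r = 2 * L ^ 3 * √s
  hl : l = r * (X ^ cθ * X ^ N)
  hl' : l' = X ^ cΞ * l

namespace Sc

variable {X L s r l l' : ℝ} {N cθ cΞ : ℕ} (h : Sc X L s r l l' N cθ cΞ)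
include h

theorem X1 : 1 ≤ X := by linarith [h.hX]
theorem X0 : 0 < X := by linarith [h.hX]
theorem pow_le_L {k : ℕ} (hk : k ≤ 2 * N) : X ^ k ≤ L := h.hL ▸ pow_le_pow_right₀ h.X1 hk
theorem L_ge : 256 ≤ L := by
  have h1 : X ^ 8 ≤ L := h.pow_le_L (by have := h.hN; omega)
  have h2 : (2 : ℝ) ^ 8 ≤ X ^ 8 := pow_le_pow_left₀ (by norm_num) h.hX 8
  norm_num at h2
  linarith
theorem L0 : 0 < L := by linarith [h.L_ge]
theorem L1 : 1 ≤ L := by linarith [h.L_ge]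
theorem sqrt_L : √L = X ^ N := by
  rw [h.hL, mul_comm, pow_mul, Real.sqrt_sq (pow_pos h.X0 _).le]
theorem s0 : 0 < s := (ts_pos L).trans_le h.hs
theorem r0 : 0 < r := by
  have := h.L0; have := Real.sqrt_pos.2 h.s0
  rw [h.hr]; positivity
theorem r_sq : r ^ 2 = 4 * L ^ 6 * s := by
  rw [h.hr, mul_pow, Real.sq_sqrt h.s0.le]; ring
theorem one_le_fac : 1 ≤ X ^ cθ * X ^ N :=
  one_le_mul_of_one_le_of_one_le (one_le_pow₀ h.X1) (one_le_pow₀ h.X1)
theorem fac_le : X ^ cθ * X ^ N ≤ L := by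
  rw [← pow_add]; exact h.pow_le_L (by have := h.hθ; omega)
theorem r_le : r ≤ l := by rw [h.hl]; exact le_mul_of_one_le_right h.r0.le h.one_le_fac
theorem l0 : 0 < l := h.r0.trans_le h.r_le
theorem r_eq : r = l / (X ^ cθ * X ^ N) := by
  have := h.X0
  rw [h.hl]; field_simp
theorem l_le : l ≤ l' := by rw [h.hl']; exact le_mul_of_one_le_left h.l0.le (one_le_pow₀ h.X1)
theorem l'0 : 0 < l' := h.l0.trans_le h.l_le
theorem l_sq_ge : 4 * L ^ 6 * s ≤ l ^ 2 := h.r_sq ▸ pow_le_pow_left₀ h.r0.le h.r_le 2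
theorem l_sq_le : l ^ 2 ≤ 4 * L ^ 8 * s := by
  have h1 : l ≤ r * L := by rw [h.hl]; exact mul_le_mul_of_nonneg_left h.fac_le h.r0.le
  calc l ^ 2 ≤ (r * L) ^ 2 := pow_le_pow_left₀ h.l0.le h1 2
    _ = _ := by rw [mul_pow, h.r_sq]; ring
theorem Xl'_sq_le : (X * l') ^ 2 ≤ 4 * L ^ 9 * s := by
  have h1 : (X * X ^ cΞ) ^ 2 ≤ L := by
    rw [← pow_succ', ← pow_mul]; exact h.pow_le_L (by have := h.hΞ; omega)
  calc (X * l') ^ 2 = (X * X ^ cΞ) ^ 2 * l ^ 2 := by rw [h.hl']; ring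
    _ ≤ L * (4 * L ^ 8 * s) := mul_le_mul h1 h.l_sq_le (sq_nonneg _) h.L0.le
    _ = _ := by ring
theorem l'_sq_le : l' ^ 2 ≤ 4 * L ^ 9 * s :=
  (pow_le_pow_left₀ h.l'0.le (le_mul_of_one_le_left h.l'0.le h.X1) 2).trans h.Xl'_sq_le
theorem mul_le_top {c : ℝ} (hc : c ≤ 256) {k : ℕ} (hk : k ≤ 39) : c * L ^ k * s ≤ s * L ^ 40 := by
  have h1 : c * L ^ k ≤ L * L ^ 39 :=
    mul_le_mul (hc.trans h.L_ge) (pow_le_pow_right₀ h.L1 hk) (pow_pos h.L0 _).le h.L0.le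
  calc c * L ^ k * s ≤ L * L ^ 39 * s := mul_le_mul_of_nonneg_right h1 h.s0.le
    _ = _ := by ring
omit h in
theorem exp_two : Real.exp (-2 * L) = Real.exp (-L) ^ 2 := by
  rw [← Real.exp_nat_mul]; congr 1; push_cast; ring
theorem l'_le_exp : l' ≤ Real.exp (-L) := by
  refine (pow_le_pow_iff_left₀ h.l'0.le (Real.exp_pos _).le two_ne_zero).1 ?_
  rw [← exp_two (L := L)]
  exact (h.l'_sq_le.trans (h.mul_le_top (by norm_num) (by norm_num))).trans h.hs'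
theorem l_le_exp : l ≤ Real.exp (-L) := h.l_le.trans h.l'_le_exp
theorem exp_le : Real.exp (-L) ≤ 1 / 256 := by
  rw [Real.exp_neg, one_div]
  exact inv_anti₀ (by norm_num) (by linarith [Real.add_one_le_exp L, h.L_ge])
theorem top_le : s * L ^ 40 ≤ Real.exp (-L) / 256 := by
  refine h.hs'.trans ?_
  rw [exp_two (L := L), sq, div_eq_mul_one_div]
  exact mul_le_mul_of_nonneg_left h.exp_le (Real.exp_pos _).le
theorem s_le_top : s ≤ s * L ^ 40 := le_mul_of_one_le_right h.s0.le (one_le_pow₀ h.L1)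
theorem T_le : s + ts L ≤ 2 * s := by linarith [h.hs]
theorem T_le_exp : s + ts L ≤ Real.exp (-2 * L) := by
  have := h.mul_le_top (c := 2) (k := 0) (by norm_num) (by norm_num)
  rw [pow_zero, mul_one] at this
  linarith [h.T_le, h.hs']
theorem T6 : (s + ts L) * L ^ 6 ≤ r ^ 2 := by
  rw [h.r_sq]
  nlinarith [h.T_le, pow_pos h.L0 6, h.s0, mul_pos h.s0 (pow_pos h.L0 6)]
theorem T6' : (s + ts L) * L ^ 6 ≤ l ^ 2 := h.T6.trans (pow_le_pow_left₀ h.r0.le h.r_le 2)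
theorem T20 : l ^ 2 ≤ (s + ts L) * L ^ 20 := by
  have h1 : 4 * L ^ 8 ≤ L * L ^ 19 :=
    mul_le_mul (by linarith [h.L_ge]) (pow_le_pow_right₀ h.L1 (by norm_num)) (pow_pos h.L0 _).le
      h.L0.le
  calc l ^ 2 ≤ 4 * L ^ 8 * s := h.l_sq_le
    _ ≤ L * L ^ 19 * (s + ts L) :=
      mul_le_mul h1 (by linarith [ts_pos L]) h.s0.le (by have := h.L0; positivity)
    _ = _ := by ring
theorem s_le_l_sq : 4 * s ≤ l ^ 2 := by
  have := h.l_sq_ge
  nlinarith [one_le_pow₀ (n := 6) h.L1, h.s0]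

end Sc

namespace GS

variable {D : Dat E ι} {ff Γ : E → ℝ} {Q : ℕ} {C₁ L η κ : ℝ} (h : GS D ff Γ Q C₁ L η κ)
include h

theorem bτ : BM D.τ := h.st.bm_τ
theorem bβ : BM D.β := h.st.bm_β
theorem τ0 (y : E) : 0 ≤ D.τ y := h.st.τ_nonneg y
theorem τle (y : E) : D.τ y ≤ big L := h.st.τ_le y
theorem bee : BM D.ee :=
  ⟨h.c_ee.measurable, big L, fun y => by rw [abs_of_nonneg (h.ee_nonneg y)]; exact h.ee_le y⟩
theorem bar (hL : 1 ≤ L) :
    St (D.εb L) (D.Tb L) (P (ts L) ff) C₁ (rho L) (big L) (kz L) (tm L / 2) :=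
  h.st.bar (ts_pos L) (ts_le_half hL)
theorem τf_Tb : τf (D.Tb L) = D.τb L := h.st.τf_PT (ts_pos L)
theorem βf_b : βf (D.εb L) (D.Tb L) = D.βb L := h.st.βf_PT (ts_pos L)
theorem bm_τb : BM (D.τb L) := h.bτ.P (ts_pos L)
theorem bm_βb : BM (D.βb L) := h.bβ.P (ts_pos L)
theorem τb0 (y : E) : 0 ≤ D.τb L y := P_nonneg (ts_pos L).le h.τ0 y
theorem τb_le (y : E) : D.τb L y ≤ big L :=
  (le_abs_self _).trans (abs_P_le_const (ts_pos L)
    (fun w => by rw [abs_of_nonneg (h.τ0 w)]; exact h.τle w) y)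
theorem abs_βb_le (y : E) : |D.βb L y| ≤ 3 * big L :=
  abs_P_le_const (ts_pos L) (fun w => h.st.abs_β_le w) y
theorem P_τb {s : ℝ} (hs : 0 < s) (y : E) : P s (D.τb L) y = P (s + ts L) D.τ y :=
  P_P h.bτ hs (ts_pos L) y
theorem P_βb {s : ℝ} (hs : 0 < s) (y : E) : P s (D.βb L) y = P (s + ts L) D.β y :=
  P_P h.bβ hs (ts_pos L) y
theorem bm_er {T : ℝ} (hT : 0 < T) : BM (D.er L T) :=
  ((h.bee.P hT).add (((h.bτ.add h.bee).P (by positivity)).const_mul _)).add (BM.const _)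
theorem er0 (hL : 0 ≤ L) {T : ℝ} (hT : 0 < T) (y : E) : 0 ≤ D.er L T y :=
  add_nonneg (add_nonneg (P_nonneg hT.le h.ee_nonneg y) (mul_nonneg (by positivity)
    (P_nonneg (by positivity) (fun w => add_nonneg (h.τ0 w) (h.ee_nonneg w)) y))) (ng'_pos L).le
/-- Comparison of the energy with its average. -/
theorem Pτ_le_m {s : ℝ} (hs : ts L ≤ s) (y : E) : P s D.τ y ≤ 2 ^ hd E * P s (D.τb L) y := by
  have hs0 := (ts_pos L).trans_le hs
  rw [h.P_τb hs0]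
  exact P_le_of_le_mul h.bτ h.τ0 hs0 (by linarith [ts_pos L]) (by linarith) y

end GS

end Pool.Agent.Lib.MP_8daebb_an.AS
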