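import Pool.Agent.Lib.MP_8daebb_an.AS.S4a

/-! Mass bounds on a cell and elementary asymptotics. -/

open MeasureTheory Metric Set Module Filter
open scoped RealInnerProductSpace

namespace Pool.Agent.Lib.MP_8daebb_an.AS

open HK

theorem ev_pow_le_exp (C : ℝ) (k : ℕ) {c : ℝ} (hc : 0 < c) :
    ∀ᶠ L : ℝ in atTop, C * L ^ k ≤ Real.exp (c * L) := by
  have h := (tendsto_exp_mul_div_rpow_atTop k c hc).eventually_ge_atTop C
  filter_upwards [h, eventually_gt_atTop 0] with L hL h0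
  rw [Real.rpow_natCast, le_div_iff₀ (by positivity)] at hL
  exact hL

theorem ev_exp_le_inv_pow (C : ℝ) (k : ℕ) {c : ℝ} (hc : 0 < c) :
    ∀ᶠ L : ℝ in atTop, C * Real.exp (-(c * L)) ≤ (L ^ k)⁻¹ := by
  filter_upwards [ev_pow_le_exp C k hc, eventually_gt_atTop 0] with L hL h0
  rw [Real.exp_neg, ← div_eq_mul_inv, ← one_div, div_le_div_iff₀ (Real.exp_pos _) (by positivity)]
  linarith

variable {E : Type*} [NormedAddCommGroup E] [InnerProductSpace ℝ E] [FiniteDimensional ℝ E]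
  [MeasurableSpace E] [BorelSpace E]

/-- constant of the mass bounds -/
noncomputable def cM (E : Type*) [NormedAddCommGroup E] [InnerProductSpace ℝ E] : ℝ :=
  (64 * Real.pi) ^ hd E * Real.exp 1

section
omit [FiniteDimensional ℝ E] [MeasurableSpace E] [BorelSpace E]

theorem cM_pos : 0 < cM E := by unfold cM; positivity

theorem pk_pos {l : ℝ} (hl : 0 < l) : 0 < pk E l := by unfold pk; positivity

theorem pk_mul {l : ℝ} (hl : 0 < l) : pk E l * l ^ 2 = l ^ finrank ℝ E := by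
  unfold pk; field_simp

theorem pow_le_pk {l : ℝ} (hl : 0 < l) (h1 : l ≤ 1) : l ^ finrank ℝ E ≤ pk E l := by
  rw [← pk_mul (E := E) hl]
  exact mul_le_of_le_one_right (pk_pos hl).le (pow_le_one₀ hl.le h1)

theorem sq_rpow_hd {l : ℝ} (hl : 0 < l) : (l ^ 2) ^ hd E = l ^ finrank ℝ E := by
  rw [rpow_hd_eq (by positivity), Real.sqrt_sq hl.le]

end

variable {f : E → ℝ} {l s : ℝ}

theorem mass_aux (hf : BM f) (h0 : ∀ y, 0 ≤ f y) (hl : 0 < l) (hs : 8 * l ^ 2 ≤ s)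
    (hs' : s ≤ 16 * l ^ 2) (z : E) :
    ∫ y in ball z (5 * l), f y ≤ cM E * (l ^ 2 * P s f z) * pk E l := by
  have hs0 : 0 < s := lt_of_lt_of_le (by positivity) hs
  have h1 := mass_ball_le_P hf h0 hs0 (A := 4) (r := 5 * l) z (by nlinarith [sq_nonneg l])
  have h2 : (4 * Real.pi * s) ^ hd E ≤ (64 * Real.pi) ^ hd E * l ^ finrank ℝ E := by
    rw [← sq_rpow_hd hl, ← Real.mul_rpow (by positivity) (by positivity)]
    exact Real.rpow_le_rpow (by positivity) (by nlinarith [Real.pi_pos]) hd_nonneg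
  have h3 : 0 ≤ P s f z := P_nonneg hs0.le h0 z
  rw [show (4 : ℝ) / 4 = 1 by norm_num] at h1
  calc _ ≤ _ := h1
    _ ≤ (64 * Real.pi) ^ hd E * l ^ finrank ℝ E * Real.exp 1 * P s f z := by gcongr
    _ = _ := by rw [← pk_mul (E := E) hl, cM]; ring

theorem mass_le (hf : BM f) (h0 : ∀ y, 0 ≤ f y) (hl : 0 < l) (z : E) :
    ∫ y in ball z (5 * l), f y ≤ cM E * (l ^ 2 * P (16 * l ^ 2) f z) * pk E l :=
  mass_aux hf h0 hl (by nlinarith [sq_nonneg l]) le_rfl z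

theorem mass_P_le (hf : BM f) (h0 : ∀ y, 0 ≤ f y) (hl : 0 < l) (hs : 0 < s)
    (hs' : s ≤ 8 * l ^ 2) (z : E) :
    ∫ y in ball z (5 * l), P s f y ≤ cM E * (l ^ 2 * P (16 * l ^ 2) f z) * pk E l := by
  have h1 := mass_aux (hf.P hs) (P_nonneg hs.le h0) hl (s := 16 * l ^ 2 - s) (by linarith)
    (by linarith) z
  rwa [P_P hf (by nlinarith [sq_pos_of_pos hl]) hs, sub_add_cancel] at h1

theorem setIntegral_le_ball (hf : BM f) (h0 : ∀ y, 0 ≤ f y) {A : Set E} {z : E} {R : ℝ}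
    (h : A ⊆ ball z R) : ∫ y in A, f y ≤ ∫ y in ball z R, f y :=
  setIntegral_mono_set (hf.integrableOn isBounded_ball) (Eventually.of_forall h0) h.eventuallyLE

theorem setIntegral_le_set (hf : BM f) (h0 : ∀ y, 0 ≤ f y) {A B : Set E}
    (hB : Bornology.IsBounded B) (h : A ⊆ B) : ∫ y in A, f y ≤ ∫ y in B, f y :=
  setIntegral_mono_set (hf.integrableOn hB) (Eventually.of_forall h0) h.eventuallyLE

theorem mass_of_le {g : E → ℝ} (hf : BM f) (hg : BM g) (hl : 0 < l) {z : E} {a b : ℝ}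
    (h : ∀ y ∈ ball z (5 * l), f y ≤ a * g y + b) :
    ∫ y in ball z (5 * l), f y ≤ a * (∫ y in ball z (5 * l), g y) +
      b * (5 ^ finrank ℝ E * om E * l ^ finrank ℝ E) := by
  have h1 := setIntegral_mono_on (hf.integrableOn isBounded_ball)
    (((hg.const_mul a).add (BM.const b)).integrableOn isBounded_ball) measurableSet_ball h
  rw [integral_add ((hg.const_mul a).integrableOn isBounded_ball)
    ((BM.const b).integrableOn isBounded_ball), integral_const_mul, setIntegral_const,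
    real_ball z (by positivity), smul_eq_mul, mul_pow] at h1
  linarith

variable {ι : Type*} [Fintype ι] {D : Dat E ι} {ff Γ : E → ℝ} {Q : ℕ} {C₁ L η κ : ℝ}

theorem GS.mass_Γ (h : GS D ff Γ Q C₁ L η κ) (hκ : 0 ≤ κ) (hl : 0 < l) (hl' : l ≤ 1 / 5)
    (hρ : rho L ^ 2 ≤ 8 * l ^ 2) {z : E} (hz : ‖z‖ ≤ 3 / 2) :
    ∫ y in ball z (5 * l), Γ y ≤ (κ * (cM E * (l ^ 2 * P (16 * l ^ 2) D.τ z)) +
      kz L * (5 ^ finrank ℝ E * om E)) * pk E l := by
  have hρ0 : 0 < rho L ^ 2 := pow_pos h.st.ρ_pos 2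
  have h1 := mass_of_le h.bm_Γ (h.bm_τ.P hρ0) hl (z := z) fun y hy => h.Γ_small y (by
    have := norm_le_norm_add_norm_sub' y z
    rw [mem_ball_iff_norm] at hy
    linarith)
  have h2 := mul_le_mul_of_nonneg_left (mass_P_le h.bm_τ h.τ_nonneg hl hρ0 hρ z) hκ
  have h3 := pow_le_pk (E := E) hl (by linarith)
  have h4 : 0 ≤ kz L * (5 ^ finrank ℝ E * om E) :=
    mul_nonneg (Real.exp_pos _).le (mul_nonneg (by positivity) om_pos.le)
  nlinarith [mul_le_mul_of_nonneg_left h3 h4]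

theorem GS.mass_P_Γ (h : GS D ff Γ Q C₁ L η κ) (hκ : 0 ≤ κ) (hl : 0 < l) (hl' : l ≤ 1 / 5)
    (hs : 0 < s) (hs' : s ≤ tm L) (hρ : s + rho L ^ 2 ≤ 8 * l ^ 2) {z : E} (hz : ‖z‖ ≤ 3 / 2) :
    ∫ y in ball z (5 * l), P s Γ y ≤ (κ * (cM E * (l ^ 2 * P (16 * l ^ 2) D.τ z)) +
      kz L * (5 ^ finrank ℝ E * om E)) * pk E l := by
  have hρ0 : 0 < s + rho L ^ 2 := by positivity
  have h1 := mass_of_le (h.bm_Γ.P hs) (h.bm_τ.P hρ0) hl (z := z) fun y hy => h.ΓP y s (by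
    have := norm_le_norm_add_norm_sub' y z
    rw [mem_ball_iff_norm] at hy
    linarith) hs hs'
  have h2 := mul_le_mul_of_nonneg_left (mass_P_le h.bm_τ h.τ_nonneg hl hρ0 hρ z) hκ
  have h3 := pow_le_pk (E := E) hl (by linarith)
  have h4 : 0 ≤ kz L * (5 ^ finrank ℝ E * om E) :=
    mul_nonneg (Real.exp_pos _).le (mul_nonneg (by positivity) om_pos.le)
  nlinarith [mul_le_mul_of_nonneg_left h3 h4]

theorem GS.dens16 (h : GS D ff Γ Q C₁ L η κ) (hl : 0 < l) (z : E) :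
    l ^ 2 * P (16 * l ^ 2) D.τ z ≤ C₁ := by
  have h1 := h.st.tt_le z (show 0 < 16 * l ^ 2 by positivity)
  have h2 : 0 ≤ P (16 * l ^ 2) D.τ z := P_nonneg (by positivity) h.τ_nonneg z
  change 16 * l ^ 2 * P (16 * l ^ 2) D.τ z ≤ C₁ at h1
  nlinarith [mul_nonneg (sq_nonneg l) h2]

/-- small times near the centre of the cell are controlled by the time `16 l ^ 2` -/
theorem P_le_cell (hf : BM f) (h0 : ∀ y, 0 ≤ f y) (hl : 0 < l) {c : ℝ} (hs : 0 < s)
    (hs1 : s ≤ 8 * l ^ 2) (hs2 : 8 * l ^ 2 ≤ c * s) {z x : E} (hx : ‖x - z‖ ≤ 5 * l) :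
    P s f x ≤ c ^ hd E * (2 ^ hd E * Real.exp 1) * P (16 * l ^ 2) f z := by
  have h1 := P_le_of_le_mul hf h0 hs hs1 hs2 x
  have h2 := P_shift_le hf h0 (A := 4) (show 0 < 8 * l ^ 2 by positivity) (x := z) (x' := x) (by
    rw [norm_sub_rev]; nlinarith [norm_nonneg (x - z)])
  have hc : 0 < c := by
    by_contra hc
    nlinarith [sq_pos_of_pos hl, mul_nonneg (neg_nonneg.2 (not_lt.1 hc)) hs.le]
  rw [show (4 : ℝ) / 4 = 1 by norm_num, show 2 * (8 * l ^ 2) = 16 * l ^ 2 by ring] at h2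
  calc _ ≤ _ := h1
    _ ≤ c ^ hd E * (2 ^ hd E * Real.exp 1 * P (16 * l ^ 2) f z) := by gcongr
    _ = _ := by ring

end Pool.Agent.Lib.MP_8daebb_an.AS
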