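import Pool.Agent.Lib.MP_8daebb_an.AS.S4b
import Pool.Agent.Lib.MP_8daebb_an.AS.S4m
import Pool.Agent.Lib.MP_8daebb_an.AS.Bas2

/-! Choice of the level. -/

open MeasureTheory Metric Set Module Filter
open scoped RealInnerProductSpace

namespace Pool.Agent.Lib.MP_8daebb_an.AS

open HK

variable {E : Type*} [NormedAddCommGroup E] [InnerProductSpace ℝ E] [FiniteDimensional ℝ E]
  [MeasurableSpace E] [BorelSpace E]

variable {ι : Type*} [Fintype ι]

/-- Lipschitz cutoff of a set. -/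
noncomputable def zeta_s4e (S : Set E) (r : ℝ) (y : E) : ℝ :=
  max 0 (min 1 (2 - 8 / r * infDist y S))

section cutoff
omit [InnerProductSpace ℝ E] [FiniteDimensional ℝ E] [MeasurableSpace E] [BorelSpace E]
variable {S : Set E} {r : ℝ}

theorem abs_zeta_s4e (S : Set E) (r : ℝ) (y : E) : |zeta_s4e S r y| ≤ 1 := by
  unfold zeta_s4e
  rw [abs_of_nonneg (le_max_left _ _)]
  exact max_le zero_le_one (min_le_left _ _)

theorem continuous_zeta_s4e (S : Set E) (r : ℝ) : Continuous (zeta_s4e S r) :=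
  continuous_const.max (continuous_const.min
    (continuous_const.sub (continuous_const.mul (continuous_infDist_pt S))))

theorem lip_zeta_s4e (hr : 0 < r) (x y : E) :
    |zeta_s4e S r x - zeta_s4e S r y| ≤ 8 / r * ‖x - y‖ := by
  have h1 : |infDist x S - infDist y S| ≤ ‖x - y‖ := by
    have := (lipschitz_infDist_pt S).dist_le_mul x y
    simpa [Real.dist_eq, dist_eq_norm] using this
  unfold zeta_s4e
  rw [max_comm 0, max_comm 0, min_comm 1, min_comm 1]
  refine (abs_max_sub_max_le_abs _ _ _).trans ((abs_min_sub_min_le_max _ _ _ _).trans ?_)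
  rw [sub_self, abs_zero]
  refine max_le ?_ (by positivity)
  rw [show 2 - 8 / r * infDist x S - (2 - 8 / r * infDist y S) =
    -(8 / r * (infDist x S - infDist y S)) by ring, abs_neg, abs_mul, abs_of_pos (by positivity)]
  gcongr

theorem zeta_one_s4e (hr : 0 < r) {y : E} (hy : y ∈ cthickening (r / 8) S) :
    zeta_s4e S r y = 1 := by
  have h1 : infDist y S ≤ r / 8 := by
    rw [mem_cthickening_iff] at hy
    exact ENNReal.toReal_le_of_le_ofReal (by positivity) hy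
  have h2 : 8 / r * infDist y S ≤ 1 := by
    calc _ ≤ 8 / r * (r / 8) := by gcongr
      _ = 1 := by field_simp
  unfold zeta_s4e
  rw [min_eq_left (by linarith), max_eq_right zero_le_one]

theorem zeta_zero_s4e (hr : 0 < r) {y : E} (hy : r / 4 ≤ infDist y S) : zeta_s4e S r y = 0 := by
  have h2 : 2 ≤ 8 / r * infDist y S := by
    calc (2 : ℝ) = 8 / r * (r / 4) := by field_simp; norm_num
      _ ≤ _ := by gcongr
  unfold zeta_s4e
  exact max_eq_left ((min_le_right _ _).trans (by linarith))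

theorem zeta_off_s4e (hr : 0 < r) (hS : S.Nonempty) {y : E} (hy : y ∉ cthickening (r / 4) S) :
    zeta_s4e S r y = 0 := by
  refine zeta_zero_s4e hr (not_lt.1 fun h => hy ?_)
  exact thickening_subset_cthickening _ _ ((mem_thickening_iff_infDist_lt hS).2 h)

end cutoff

theorem level_aux_s4e {D : Dat E ι} {ff Γ : E → ℝ} {Q : ℕ} {C₁ L η κ : ℝ}
    (h : GS D ff Γ Q C₁ L η κ) {τ : ℕ → ℝ} {n : ℕ} {z : E} {l r T₀ : ℝ} {S : Set E}
    (h0 : 0 < τ 0) (hm : Monotone τ) (hT : τ n ≤ T₀) (hr : 0 < r) (hrl : r ≤ l)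
    (hS : S.Nonempty) (hSz : S ⊆ ball z (2 * l)) :
    ∑ i ∈ Finset.range n, ∫ y in cthickening (r / 8) S, D.band Q (τ i) (τ (i + 1)) y ≤
      3 * (∫ y in cthickening (r / 4) S, D.en Q y) + 6 * n *
        (8 * 2 ^ hd E * (8 / r) ^ 2 * T₀ * (∫ y in ball z (3 * l + l), D.en Q y) +
          2 ^ hd E * Real.exp (-(l ^ 2 / T₀ / 8)) * ∫ y, D.en Q y) := by
  have hp : ∀ i, 0 < τ i := fun i => h0.trans_le (hm (Nat.zero_le i))
  set ζ := zeta_s4e S r with hζ
  have bζ : BM ζ := BM.of_continuous (continuous_zeta_s4e S r) (abs_zeta_s4e S r)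
  have hz : ∀ x, 3 * l ≤ ‖x - z‖ → ζ x = 0 := fun x hx => zeta_zero_s4e hr (by
    refine (le_infDist hS).2 fun y hy => ?_
    have h1 := mem_ball_iff_norm.1 (hSz hy)
    have h2 := norm_sub_le_norm_sub_add_norm_sub x y z
    rw [dist_eq_norm]; linarith)
  have hli : ∀ i j k, LI fun y => ζ y ^ 2 *
      ‖fderiv ℝ (P (τ k) (D.u i j)) y - fderiv ℝ (P (τ (k + 1)) (D.u i j)) y‖ ^ 2 := fun i j k => by
    have hu : LI (D.u i j) := LI.of_compact (h.cd_u i j).continuous (h.supp_u i j)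
    refine LI.bd_mul (LI.sq (LI.of_le ((continuous_fderiv_P hu.bm (hp k)).sub
      (continuous_fderiv_P hu.bm (hp _))).norm.measurable
      ((hu.norm_fderiv_P (hp k)).add (hu.norm_fderiv_P (hp (k + 1)))) fun y => ?_)) bζ.sq
    rw [abs_norm]; exact norm_sub_le _ _
  have a1 : ∀ k, ∫ y in cthickening (r / 8) S, D.band Q (τ k) (τ (k + 1)) y ≤
      ∑ i, ∑ j ∈ Finset.range Q, ∫ y, ζ y ^ 2 *
        ‖fderiv ℝ (P (τ k) (D.u i j)) y - fderiv ℝ (P (τ (k + 1)) (D.u i j)) y‖ ^ 2 := fun k => by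
    have e : ∑ i, ∑ j ∈ Finset.range Q, ∫ y, ζ y ^ 2 *
        ‖fderiv ℝ (P (τ k) (D.u i j)) y - fderiv ℝ (P (τ (k + 1)) (D.u i j)) y‖ ^ 2 =
        ∫ y, ζ y ^ 2 * D.band Q (τ k) (τ (k + 1)) y := by
      simp only [Dat.band, Finset.mul_sum]
      rw [integral_finsetSum _ fun i _ => (LI.sum _ fun j _ => hli i j k).int]
      exact Finset.sum_congr rfl fun i _ => (integral_finsetSum _ fun j _ => (hli i j k).int).symm
    rw [e, ← setIntegral_congr_fun isClosed_cthickening.measurableSet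
      (f := fun y => ζ y ^ 2 * D.band Q (τ k) (τ (k + 1)) y) fun y hy => by
        simp only [hζ, zeta_one_s4e hr hy, one_pow, one_mul]]
    exact setIntegral_le_integral ((h.li_band (hp k) (hp _)).bd_mul bζ.sq).int
      (Eventually.of_forall fun y => mul_nonneg (sq_nonneg _) (D.band_nonneg _ _ _ _))
  have a2 : ∫ y, ζ y ^ 2 * D.en Q y ≤ ∫ y in cthickening (r / 4) S, D.en Q y := by
    rw [← setIntegral_eq_integral_of_forall_compl_eq_zero (s := cthickening (r / 4) S)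
      fun y hy => by simp only [hζ, zeta_off_s4e hr hS hy]; simp]
    refine setIntegral_mono (h.li_en.bd_mul bζ.sq).int.integrableOn h.li_en.int.integrableOn
      fun y => mul_le_of_le_one_left (D.en_nonneg Q y) ?_
    rw [← sq_abs]; exact pow_le_one₀ (abs_nonneg _) (abs_zeta_s4e S r y)
  have e1 : ∫ y, ζ y ^ 2 * D.en Q y =
      ∑ i, ∑ j ∈ Finset.range Q, ∫ y, ζ y ^ 2 * ‖fderiv ℝ (D.u i j) y‖ ^ 2 := by
    simp only [Dat.en, Finset.mul_sum]
    rw [integral_finsetSum _ fun i _ =>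
      (LI.sum _ fun j _ => (h.li_norm_fderiv i j).sq.bd_mul bζ.sq).int]
    exact Finset.sum_congr rfl fun i _ =>
      integral_finsetSum _ fun j _ => ((h.li_norm_fderiv i j).sq.bd_mul bζ.sq).int
  have e2 : ∀ A : Set E, ∫ y in A, D.en Q y =
      ∑ i, ∑ j ∈ Finset.range Q, ∫ y in A, ‖fderiv ℝ (D.u i j) y‖ ^ 2 := fun A => by
    simp only [Dat.en]
    rw [integral_finsetSum _ fun i _ =>
      (LI.sum _ fun j _ => (h.li_norm_fderiv i j).sq).int.integrableOn]
    exact Finset.sum_congr rfl fun i _ =>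
      integral_finsetSum _ fun j _ => (h.li_norm_fderiv i j).sq.int.integrableOn
  have e3 := e2 univ
  simp only [Measure.restrict_univ] at e3
  refine (Finset.sum_le_sum fun k _ => a1 k).trans ?_
  rw [Finset.sum_comm]
  refine (Finset.sum_le_sum fun i _ => (Finset.sum_comm.trans_le (Finset.sum_le_sum fun j _ =>
    sum_cutoff_band_grad_le bζ (h.c2b_u i j).c1 (h.integrable_norm_fderiv i j) h0 hm n hT
      (lip_zeta_s4e hr) (abs_zeta_s4e S r) (hr.le.trans hrl) hz))).trans ?_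
  simp only [Finset.sum_add_distrib, ← Finset.mul_sum]
  rw [← e1, ← e2, ← e3]
  linarith

theorem level_band (hm : 2 ≤ finrank ℝ E) (Q : ℕ) (C₁ C₂ : ℝ) (A₃ : ℕ) :
    ∃ C L₀ : ℝ, 0 < C ∧ ∀ L, L₀ ≤ L → ∀ (D : Dat E ι) (ff Γ : E → ℝ) (η : ℝ),
    GS D ff Γ Q C₁ L η (L ^ (finrank ℝ E + 1))⁻¹ →
    ∀ (τ : ℕ → ℝ) (n : ℕ) (z : E) (l r T σ M₂ : ℝ) (S : Set E), 0 < τ 0 → Monotone τ → 1 ≤ n →
    τ n ≤ Real.exp (-5 * L) → ‖z‖ ≤ 3 / 2 → 2 * ts L ≤ T → T * L ^ 6 ≤ r ^ 2 → 0 < r → r ≤ l →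
    l ≤ Real.exp (-L) → (L ^ A₃)⁻¹ ≤ σ → l ^ 2 * P (16 * l ^ 2) D.τ z ≤ C₂ * σ →
    S ⊆ ball z (2 * l) → (∫ y in cthickening (r / 2) S, P (ts L) D.τ y) ≤ M₂ →
    ∃ i < n, ∫ y in cthickening (r / 8) S, D.band Q (τ i) (τ (i + 1)) y ≤
      6 / n * M₂ + C * (L ^ 3)⁻¹ * σ * pk E l := by
  obtain ⟨Cl, hCl0, hlev⟩ := lev' (E := E)
  set m := finrank ℝ E with hmd
  set o := 5 ^ m * om E with ho
  have ho0 : 0 < o := mul_pos (by positivity) om_pos
  set a := cM E * |C₂| with ha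
  have ha0 : 0 ≤ a := mul_nonneg cM_pos.le (abs_nonneg _)
  have ev := (ev_exp_le_inv_pow 1 (A₃ + 3) (c := 1 / 2) (by norm_num)).and
    (((ev_pow_le_exp (8 * (2 * m + 11)) 1 one_pos).and (eventually_ge_atTop 2)).and
      (ev_exp_le_inv_pow (6 * 2 ^ hd E * ((1 + m) * o)) (A₃ + 3) one_pos))
  obtain ⟨L₀, hL₀⟩ := eventually_atTop.1 (ev.and (eventually_ge_atTop (16 * Cl)))
  have h2h : (0 : ℝ) < 2 ^ hd E := by positivity
  refine ⟨3 * m * (a + o) + 6 * (512 * 2 ^ hd E * (a + m * (a + o))) + 1, L₀, by positivity,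
    fun L hL D ff Γ η h τ n z l r T σ M₂ S h0 hmo hn hτ hz hT hTr hr hrl hl hσ hC hSz hM => ?_⟩
  obtain ⟨⟨e1, ⟨e3, e4⟩, e5⟩, e6⟩ := hL₀ L hL
  have hL1 : 1 ≤ L := by linarith
  have hl0 : 0 < l := hr.trans_le hrl
  have hts : 0 < ts L := Real.exp_pos _
  have hpk := pk_pos (E := E) hl0
  have hσ0 : 0 < σ := lt_of_lt_of_le (by positivity) hσ
  set u := (L ^ 3)⁻¹ with hu
  have hu0 : 0 < u := by positivity
  have hu1 : u ≤ 1 := inv_le_one_of_one_le₀ (one_le_pow₀ hL1)
  have hn0 : (1 : ℝ) ≤ n := by exact_mod_cast hn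
  have hM0 : 0 ≤ M₂ := le_trans (integral_nonneg (P_nonneg hts.le h.τ_nonneg)) hM
  rcases S.eq_empty_or_nonempty with rfl | hS
  · refine ⟨0, hn, ?_⟩
    rw [cthickening_empty, Measure.restrict_empty, integral_zero_measure]
    positivity
  have hL6 : L ≤ L ^ 6 := le_self_pow₀ hL1 (by norm_num)
  have hr2 : 2 * ts L * L ^ 6 ≤ r ^ 2 := le_trans (by gcongr) hTr
  have hrl2 : r ^ 2 ≤ l ^ 2 := by gcongr
  have hts2 : ts L ≤ l ^ 2 := by nlinarith
  have hl5 : l ≤ 1 / 5 := by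
    refine hl.trans ((Real.exp_le_exp.2 (show -L ≤ -2 by linarith)).trans ?_)
    rw [Real.exp_neg, one_div]
    refine inv_anti₀ (by norm_num) ?_
    linarith [Real.quadratic_le_exp_of_nonneg (show (0 : ℝ) ≤ 2 by norm_num)]
  have hρ : rho L ^ 2 ≤ 8 * l ^ 2 := by
    have : rho L ^ 2 ≤ ts L := by
      rw [rho, ts, ← Real.exp_nat_mul]
      exact Real.exp_le_exp.2 (by push_cast; linarith)
    linarith
  have hA : (L ^ (A₃ + 3))⁻¹ ≤ u * σ := by
    rw [pow_add, mul_inv, mul_comm]; gcongr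
  have hκ : (L ^ (m + 1))⁻¹ ≤ u := inv_anti₀ (by positivity) (pow_le_pow_right₀ hL1 (by omega))
  have hkz : kz L ≤ u * σ := by
    refine le_trans (le_of_eq ?_) (e1.trans hA)
    rw [kz, one_mul]; congr 1; ring
  have hP0 : 0 ≤ l ^ 2 * P (16 * l ^ 2) D.τ z :=
    mul_nonneg (sq_nonneg _) (P_nonneg (by positivity) h.τ_nonneg z)
  have hP : cM E * (l ^ 2 * P (16 * l ^ 2) D.τ z) ≤ a * σ := by
    rw [ha, mul_assoc]
    exact mul_le_mul_of_nonneg_left (hC.trans (by gcongr; exact le_abs_self _)) cM_pos.le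
  have mτ : ∫ y in ball z (5 * l), D.τ y ≤ a * σ * pk E l :=
    (mass_le h.bm_τ h.τ_nonneg hl0 z).trans (by gcongr)
  have mΓ : ∫ y in ball z (5 * l), Γ y ≤ (a + o) * (u * σ) * pk E l := by
    refine (h.mass_Γ (by positivity) hl0 hl5 hρ hz).trans
      (mul_le_mul_of_nonneg_right ?_ hpk.le)
    have h1 := mul_le_mul hκ hP (mul_nonneg cM_pos.le hP0) hu0.le
    have h2 := mul_le_mul_of_nonneg_right hkz ho0.le
    linarith
  have men : ∀ A : Set E, Bornology.IsBounded A → ∫ y in A, D.en Q y ≤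
      (∫ y in A, D.τ y) + m * ∫ y in A, Γ y := fun A hA => by
    rw [← integral_const_mul, ← integral_add (h.bm_τ.integrableOn hA)
      ((h.bm_Γ.const_mul _).integrableOn hA)]
    exact setIntegral_mono (h.bm_en.integrableOn hA)
      ((h.bm_τ.add (h.bm_Γ.const_mul _)).integrableOn hA) h.en_le
  have hSb : Bornology.IsBounded S := isBounded_ball.subset hSz
  have sub4 : cthickening (r / 4) S ⊆ ball z (5 * l) := by
    refine (cthickening_subset_of_subset _ hSz).trans ?_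
    rw [cthickening_ball (by positivity) (by positivity)]
    exact closedBall_subset_ball (by linarith)
  have b1 : ∫ y in cthickening (r / 4) S, D.τ y ≤ 2 * M₂ := by
    refine (hlev D.τ (ts L) (r / 4) _ h.bm_τ h.τ_nonneg hts isClosed_cthickening.measurableSet
      hSb.cthickening (by positivity) (by nlinarith)).trans ?_
    refine mul_le_mul_of_nonneg_left (le_trans (setIntegral_le_set (h.bm_τ.P hts)
      (P_nonneg hts.le h.τ_nonneg) hSb.cthickening ?_) hM) zero_le_two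
    refine (cthickening_cthickening_subset (by positivity) (by positivity) S).trans ?_
    rw [show r / 4 + r / 4 = r / 2 by ring]
  have b2 : ∫ y in cthickening (r / 4) S, D.en Q y ≤
      2 * M₂ + m * ((a + o) * (u * σ) * pk E l) :=
    (men _ hSb.cthickening).trans (add_le_add b1 (mul_le_mul_of_nonneg_left
      ((setIntegral_le_ball h.bm_Γ h.Γ_nonneg sub4).trans mΓ) (Nat.cast_nonneg _)))
  have b3 : ∫ y in ball z (3 * l + l), D.en Q y ≤ (a + m * (a + o)) * σ * pk E l := by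
    refine (setIntegral_le_ball h.bm_en (D.en_nonneg Q) (R := 5 * l)
      (ball_subset_ball (by linarith))).trans ((men _ isBounded_ball).trans ?_)
    have h1 : (a + o) * (u * σ) * pk E l ≤ (a + o) * (1 * σ) * pk E l := by gcongr
    have h2 := mul_le_mul_of_nonneg_left (mΓ.trans h1) (Nat.cast_nonneg (α := ℝ) m)
    linarith
  have b4 : (8 / r) ^ 2 * Real.exp (-5 * L) ≤ 64 * u := by
    have h1 : Real.exp (-5 * L) ≤ ts L := Real.exp_le_exp.2 (by linarith)
    have h2 : L ^ 3 ≤ L ^ 6 := pow_le_pow_right₀ hL1 (by norm_num)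
    rw [div_pow, div_mul_eq_mul_div, hu, ← div_eq_mul_inv,
      div_le_div_iff₀ (by positivity) (by positivity)]
    have h3 : Real.exp (-5 * L) * L ^ 3 ≤ ts L * L ^ 6 := by gcongr
    nlinarith
  have b5 : 6 * (2 ^ hd E * Real.exp (-(l ^ 2 / Real.exp (-5 * L) / 8)) * ∫ y, D.en Q y) ≤
      u * σ * pk E l := by
    have h1 : Real.exp L ≤ l ^ 2 / Real.exp (-5 * L) := by
      rw [le_div_iff₀ (Real.exp_pos _), ← Real.exp_add]
      exact le_trans (le_of_eq (by rw [ts]; congr 1; ring)) hts2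
    have h2 : Real.exp (-2 * L) ≤ l := by
      refine le_of_sq_le_sq (le_trans (le_of_eq ?_) hts2) hl0.le
      rw [ts, ← Real.exp_nat_mul]; congr 1; push_cast; ring
    have h3 : Real.exp (m * (-2 * L)) ≤ pk E l := by
      rw [Real.exp_nat_mul]
      exact le_trans (by gcongr) (pow_le_pk hl0 (by linarith))
    have h4 : Real.exp (-(l ^ 2 / Real.exp (-5 * L) / 8)) * big L ≤
        Real.exp (-(1 * L)) * Real.exp (m * (-2 * L)) := by
      rw [big, ← Real.exp_add, ← Real.exp_add]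
      refine Real.exp_le_exp.2 ?_
      rw [one_mul, pow_one] at e3
      linarith
    calc _ ≤ 6 * (2 ^ hd E * Real.exp (-(l ^ 2 / Real.exp (-5 * L) / 8)) *
          ((1 + m) * big L * o)) := by gcongr; exact h.integral_en_le
      _ = 6 * 2 ^ hd E * ((1 + m) * o) *
          (Real.exp (-(l ^ 2 / Real.exp (-5 * L) / 8)) * big L) := by ring
      _ ≤ 6 * 2 ^ hd E * ((1 + m) * o) * (Real.exp (-(1 * L)) * pk E l) :=
          mul_le_mul_of_nonneg_left (h4.trans (by gcongr)) (by positivity)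
      _ = 6 * 2 ^ hd E * ((1 + m) * o) * Real.exp (-(1 * L)) * pk E l := by ring
      _ ≤ _ := mul_le_mul_of_nonneg_right (e5.trans hA) hpk.le
  have key := level_aux_s4e h (T₀ := Real.exp (-5 * L)) h0 hmo hτ hr hrl hS hSz
  have b6 : 8 * 2 ^ hd E * (8 / r) ^ 2 * Real.exp (-5 * L) * ∫ y in ball z (3 * l + l), D.en Q y ≤
      512 * 2 ^ hd E * (a + m * (a + o)) * u * σ * pk E l := by
    calc _ = 8 * 2 ^ hd E * ((8 / r) ^ 2 * Real.exp (-5 * L)) *
          ∫ y in ball z (3 * l + l), D.en Q y := by ring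
      _ ≤ 8 * 2 ^ hd E * (64 * u) * ((a + m * (a + o)) * σ * pk E l) := by
          gcongr
          exact integral_nonneg (D.en_nonneg Q)
      _ = _ := by ring
  obtain ⟨i, hi, hi'⟩ := Finset.exists_le_of_sum_le (s := Finset.range n)
    (Finset.nonempty_range_iff.2 (by omega))
    (f := fun i => ∫ y in cthickening (r / 8) S, D.band Q (τ i) (τ (i + 1)) y)
    (g := fun _ => 6 / n * M₂ + (3 * m * (a + o) + 6 * (512 * 2 ^ hd E * (a + m * (a + o))) + 1) *
      u * σ * pk E l) (by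
      rw [Finset.sum_const, Finset.card_range, nsmul_eq_mul, mul_add,
        show (n : ℝ) * (6 / n * M₂) = 6 * M₂ by field_simp]
      have h1 := mul_le_mul_of_nonneg_left b5 (Nat.cast_nonneg (α := ℝ) n)
      have h2 := mul_le_mul_of_nonneg_left b6 (Nat.cast_nonneg (α := ℝ) n)
      have h3 := le_mul_of_one_le_left
        (show 0 ≤ m * ((a + o) * (u * σ) * pk E l) by positivity) hn0
      linarith)
  exact ⟨i, Finset.mem_range.1 hi, hi'⟩

end Pool.Agent.Lib.MP_8daebb_an.AS
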