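import Pool.Agent.Lib.MP_8daebb_an.AS.S4d
import Pool.Agent.Lib.MP_8daebb_an.AS.S4e
import Pool.Agent.Lib.MP_8daebb_an.AS.Bas2

/-! Isotropy (section 4). -/

open MeasureTheory Metric Set Module Filter
open scoped RealInnerProductSpace

namespace Pool.Agent.Lib.MP_8daebb_an.AS

open HK

variable {E : Type*} [NormedAddCommGroup E] [InnerProductSpace ℝ E] [FiniteDimensional ℝ E]
  [MeasurableSpace E] [BorelSpace E]

variable {ι : Type*} [Fintype ι]

theorem lev_s4 {f : E → ℝ} {B t d r T L V : ℝ} {S : Set E} (hf : BM f) (h0 : ∀ y, 0 ≤ f y)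
    (hB : ∀ y, f y ≤ B * big L) (ht : 0 < t) (htT : t ≤ 4 * T) (hS : MeasurableSet S)
    (hb : Bornology.IsBounded S) (hr : 0 < r) (hrd : r / 8 ≤ d) (hL : 8 ≤ L)
    (hT : T * L ^ 6 ≤ r ^ 2) (hV : volume.real S ≤ V) :
    ∫ y in S, P t f y ≤ (∫ y in cthickening d S, f y) + B * (2 ^ hd E * Real.exp (-(1 * L)) * V) := by
  have B0 : 0 ≤ B * big L := (h0 0).trans (hB 0)
  have b0 : 0 < big L := Real.exp_pos _
  have B1 : 0 ≤ B := nonneg_of_mul_nonneg_left B0 b0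
  refine (lev hf h0 hB ht hS hb (d := d) (by linarith)).trans (add_le_add le_rfl ?_)
  have a1 : Real.exp (-(d ^ 2 / (8 * t))) * big L ≤ Real.exp (-(1 * L)) := by
    rw [big, ← Real.exp_add, Real.exp_le_exp]
    have c1 : 11 * L ≤ d ^ 2 / (8 * t) := by
      rw [le_div_iff₀ (by positivity)]
      have c2 : (r / 8) ^ 2 ≤ d ^ 2 := by gcongr
      have c3 : 8 ^ 5 ≤ L ^ 5 := by gcongr
      have c4 : T * L * 8 ^ 5 ≤ T * L * L ^ 5 :=
        mul_le_mul_of_nonneg_left c3 (mul_nonneg (by linarith) (by linarith))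
      have c5 := mul_le_mul_of_nonneg_left htT (show 0 ≤ L by linarith)
      nlinarith [mul_pos ht (show 0 < L by linarith)]
    linarith
  calc _ = B * (2 ^ hd E * (Real.exp (-(d ^ 2 / (8 * t))) * big L) * volume.real S) := by ring
    _ ≤ _ := by gcongr

theorem iso_cell (hm : 2 ≤ finrank ℝ E) (Q : ℕ) (C₁ C₂ : ℝ) (A A₃ : ℕ) :
    ∃ C₃ C L₀ : ℝ, 1 ≤ C₃ ∧ 0 < C ∧ ∀ L, L₀ ≤ L → ∀ (D : Dat E ι) (ff Γ : E → ℝ),
    GS D ff Γ Q C₁ L (L ^ A)⁻¹ (L ^ (finrank ℝ E + 1))⁻¹ →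
    ∀ (z : E) (l r T σ M₂ : ℝ) (S : Set E), ‖z‖ ≤ 3 / 2 → 2 * ts L ≤ T → T * L ^ 6 ≤ r ^ 2 →
    l ^ 2 ≤ T * L ^ 20 → 0 < r → r ≤ l → l ≤ Real.exp (-L) → (L ^ A₃)⁻¹ ≤ σ →
    l ^ 2 * P (16 * l ^ 2) D.τ z ≤ C₂ * σ → MeasurableSet S → S ⊆ ball z (2 * l) →
    (∫ y in cthickening (r / 2) S, P (ts L) D.τ y) ≤ M₂ →
    ∃ (t : ℝ) (Err : E → ℝ), rho L ^ 2 ≤ t ∧ t ≤ Real.exp (-5 * L) ∧ BM Err ∧ (∀ y, 0 ≤ Err y) ∧
      (∀ y e : E, ‖y‖ ≤ 2 → ‖e‖ = 1 → C₃ * P T D.β y - Err y ≤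
        P T (fun w => See D.ε D.T e w - (D.sm t).Su Q e w) y) ∧
      ∫ y in S, Err y ≤ C * Real.log L / √L * M₂ + (L ^ 2)⁻¹ * σ * pk E l +
        C * ∫ y in ball z (3 * l), D.ee y := by
  obtain ⟨C₃, C, L₁, hC₃, C0, hpt⟩ := iso_pt (ι := ι) hm Q C₁ A (A₃ + 23)
  obtain ⟨Cb, L₂, Cb0, hlev⟩ := level_band (ι := ι) hm Q C₁ C₂ A₃
  obtain ⟨cV, hcV⟩ : ∃ c : ℝ, c = 2 ^ finrank ℝ E * om E := ⟨_, rfl⟩
  have cV0 : 0 < cV := by rw [hcV]; exact mul_pos (by positivity) om_pos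
  have cM0 := cM_pos (E := E)
  obtain ⟨L₃, hL₃⟩ := eventually_atTop.1 (ev_exp_le_inv_pow
    ((2 + 12 * finrank ℝ E) * (2 ^ hd E * cV)) (A₃ + 3) one_pos)
  refine ⟨C₃, 25 * C, max (max L₁ L₂) (max L₃ (max 25 (C * (Cb + cM E * |C₂| + cV + 1)))), hC₃,
    by positivity, fun L hL D ff Γ h z l r T σ M₂ S hz hT hTr hlT hr hrl hl hσ hd16 hS hSz hM => ?_⟩
  simp only [max_le_iff] at hL
  obtain ⟨⟨hL1, hL2⟩, hL3, hL16, hLC⟩ := hL
  have L0 : 0 < L := by linarith
  have q4 : 4 ≤ √L := Real.le_sqrt_of_sq_le (by linarith)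
  have qq : √L * √L = L := Real.mul_self_sqrt L0.le
  have ts0 : 0 < ts L := Real.exp_pos _
  have T0 : 0 < T := by linarith
  have l0 : 0 < l := hr.trans_le hrl
  have l1 : l ≤ 1 / 4 := hl.trans (by
    rw [Real.exp_neg, one_div]
    exact inv_anti₀ (by norm_num) (by linarith [Real.add_one_le_exp L]))
  have Tl : T ≤ l ^ 2 := (le_mul_of_one_le_right T0.le (one_le_pow₀ (by linarith))).trans
    (hTr.trans (by gcongr))
  have σ0 : 0 < σ := lt_of_lt_of_le (by positivity) hσ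
  have p0 := pk_pos (E := E) l0
  have hb : Bornology.IsBounded S := isBounded_ball.subset hSz
  have M0 : 0 ≤ M₂ := (integral_nonneg fun y => P_nonneg ts0.le h.τ_nonneg y).trans hM
  obtain ⟨n, hn⟩ : ∃ n : ℕ, n = ⌊√L / 2⌋₊ := ⟨_, rfl⟩
  have n1 : (n : ℝ) ≤ √L / 2 := hn ▸ Nat.floor_le (by positivity)
  have n2 : √L / 4 ≤ n := by have := hn ▸ Nat.lt_floor_add_one (√L / 2); linarith
  have ρ0 : 0 < rho L ^ 2 := pow_pos h.st.ρ_pos 2
  have hmono : Monotone fun i : ℕ => rho L ^ 2 * Real.exp (2 * √L * i) := fun i j hij => by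
    have : (i : ℝ) ≤ j := Nat.cast_le.2 hij
    simp only
    gcongr
  have hn5 : rho L ^ 2 * Real.exp (2 * √L * n) ≤ Real.exp (-5 * L) := by
    rw [rho, sq, ← Real.exp_add, ← Real.exp_add, Real.exp_le_exp]
    nlinarith
  obtain ⟨i, hi, hband⟩ := hlev L hL2 D ff Γ _ h _ n z l r T σ M₂ S (by positivity) hmono
    (by exact_mod_cast (show (1 : ℝ) ≤ n by linarith)) hn5 hz hT hTr hr hrl hl hσ hd16 hSz hM
  obtain ⟨t, ht⟩ : ∃ t, t = rho L ^ 2 * Real.exp (2 * √L * i) := ⟨_, rfl⟩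
  have e1 : rho L ^ 2 * Real.exp (2 * √L * (i + 1 : ℕ)) = t * Real.exp (2 * √L) := by
    rw [ht, mul_assoc (rho L ^ 2), ← Real.exp_add]; congr 2; push_cast; ring
  simp only [e1, ← ht] at hband
  have t1 : rho L ^ 2 ≤ t := ht ▸ le_mul_of_one_le_right ρ0.le (Real.one_le_exp (by positivity))
  have t0 : 0 < t := ρ0.trans_le t1
  have t2 : t * Real.exp (2 * √L) ≤ Real.exp (-5 * L) := e1 ▸ (hmono hi).trans hn5
  have t3 : 0 < t * Real.exp (2 * √L) := by positivity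
  have lg1 : 1 ≤ Real.log L := by
    rw [Real.le_log_iff_exp_le L0]; linarith [Real.exp_one_lt_d9]
  have lg2 : Real.log L / √L ≤ 1 := by
    rw [div_le_one (by positivity), Real.log_le_iff_le_exp L0]
    have := Real.pow_div_factorial_le_exp _ (Real.sqrt_nonneg L) 4
    norm_num [Nat.factorial] at this
    have e : √L ^ 4 = L * L := by rw [show √L ^ 4 = (√L * √L) * (√L * √L) by ring, qq]
    rw [e] at this
    linarith [mul_le_mul_of_nonneg_right hL16 L0.le]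
  have lg0 : 0 < Real.log L / √L := by positivity
  have b1 := (h.bm_τ.P (show 0 < 4 * T by positivity)).const_mul (Real.log L / √L)
  have b2 := (h.bm_band t0 t3).P (show 0 < 4 * T by positivity)
  have b3 := h.bm_ee.P (show 0 < 4 * T by positivity)
  have b4 := (h.bm_τ.P (show 0 < 8 * T by positivity)).const_mul (L ^ 3)⁻¹
  have b5 : BM fun _ : E => (L ^ (A₃ + 23))⁻¹ / T := BM.const _
  refine ⟨t, _, t1, (le_mul_of_one_le_right t0.le (Real.one_le_exp (by positivity))).trans t2,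
    ((((b1.add b2).add b3).add b4).add b5).const_mul C, fun y => ?_, fun y e hy he =>
    hpt L hL1 D ff Γ _ h (inv_le_one_of_one_le₀ (one_le_pow₀ (by linarith))) t T t1 t2
      (by linarith) (Tl.trans ?_) y e hy he, ?_⟩
  · have a1 := P_nonneg (show 0 ≤ 4 * T by positivity) h.τ_nonneg y
    have a2 := P_nonneg (show 0 ≤ 4 * T by positivity)
      (D.band_nonneg Q t (t * Real.exp (2 * √L))) y
    have a3 := P_nonneg (show 0 ≤ 4 * T by positivity) h.ee_nonneg y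
    have a4 := P_nonneg (show 0 ≤ 8 * T by positivity) h.τ_nonneg y
    positivity
  · rw [show -2 * L = -L + -L by ring, Real.exp_add, sq]; gcongr
  clear hpt hlev
  have hV : volume.real S ≤ cV * (pk E l * l ^ 2) := by
    refine (measureReal_mono hSz measure_ball_lt_top.ne).trans (le_of_eq ?_)
    rw [real_ball z (by positivity), pk_mul l0, hcV]; ring
  have hV' : volume.real S ≤ cV * pk E l :=
    hV.trans (mul_le_mul_of_nonneg_left (mul_le_of_le_one_right p0.le (by nlinarith)) cV0.le)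
  have i1 := lev_s4 (B := 1) (t := 4 * T - ts L) (d := r / 2) (h.bm_τ.P ts0)
    (fun y => P_nonneg ts0.le h.τ_nonneg y) (fun y => by
      rw [one_mul]
      exact (le_abs_self _).trans (abs_P_le_const ts0
        (fun w => by rw [abs_of_nonneg (h.τ_nonneg w)]; exact h.τ_le w) y))
    (by linarith) (by linarith) hS hb hr (by linarith) (by linarith) hTr hV'
  simp only [P_P h.bm_τ (show 0 < 4 * T - ts L by linarith) ts0, sub_add_cancel] at i1
  have hen : ∀ s, 0 < s → ∀ y, (D.sm s).en Q y ≤ finrank ℝ E * (3 * big L) := fun s hs y =>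
    (h.sm_en_le hs y).trans ((le_abs_self _).trans (abs_P_le_const hs (fun w => by
      rw [abs_of_nonneg (D.en_nonneg Q w)]
      exact (h.en_le_wf (by omega) w).trans
        (mul_le_mul_of_nonneg_left (h.wf_le w) (by positivity))) y))
  have i2 := lev_s4 (B := 12 * finrank ℝ E) (t := 4 * T) (d := r / 8) (h.bm_band t0 t3)
    (D.band_nonneg Q _ _) (fun y => by linarith [h.band_le t0 t3 y, hen _ t0 y, hen _ t3 y])
    (by positivity) le_rfl hS hb hr le_rfl (by linarith) hTr hV'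
  have i3 := lev_s4 (B := 1) (t := 4 * T) (d := l / 2) h.bm_ee h.ee_nonneg
    (fun y => by rw [one_mul]; exact h.ee_le y) (by positivity) le_rfl hS hb hr (by linarith)
    (by linarith) hTr hV'
  have i3' : ∫ y in cthickening (l / 2) S, D.ee y ≤ ∫ y in ball z (3 * l), D.ee y := by
    refine setIntegral_le_ball h.bm_ee h.ee_nonneg ((cthickening_subset_of_subset _ hSz).trans ?_)
    rw [cthickening_ball (by positivity) (by positivity)]
    exact closedBall_subset_ball (by linarith)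
  have i4 : ∫ y in S, P (8 * T) D.τ y ≤ cM E * |C₂| * (σ * pk E l) := by
    refine (setIntegral_le_ball (h.bm_τ.P (by positivity))
      (fun y => P_nonneg (by positivity) h.τ_nonneg y)
      (hSz.trans (ball_subset_ball (by linarith)))).trans
      ((mass_P_le h.bm_τ h.τ_nonneg l0 (by positivity) (by linarith) z).trans ?_)
    calc _ ≤ cM E * (|C₂| * σ) * pk E l := mul_le_mul_of_nonneg_right (mul_le_mul_of_nonneg_left
          (hd16.trans (mul_le_mul_of_nonneg_right (le_abs_self _) σ0.le)) cM0.le) p0.le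
      _ = _ := by ring
  have i5 : volume.real S * ((L ^ (A₃ + 23))⁻¹ / T) ≤ cV * ((L ^ 3)⁻¹ * (σ * pk E l)) := by
    calc _ ≤ cV * (pk E l * (T * L ^ 20)) * ((L ^ (A₃ + 23))⁻¹ / T) := by
          gcongr; exact hV.trans (by gcongr)
      _ = cV * ((L ^ 3)⁻¹ * ((L ^ A₃)⁻¹ * pk E l)) := by rw [pow_add]; field_simp
      _ ≤ _ := by gcongr
  have i6 : (2 + 12 * finrank ℝ E) * (2 ^ hd E * Real.exp (-(1 * L)) * (cV * pk E l)) ≤
      (L ^ 3)⁻¹ * (σ * pk E l) := by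
    calc _ = (2 + 12 * finrank ℝ E) * (2 ^ hd E * cV) * Real.exp (-(1 * L)) * pk E l := by ring
      _ ≤ (L ^ (A₃ + 3))⁻¹ * pk E l := mul_le_mul_of_nonneg_right (hL₃ L hL3) p0.le
      _ = (L ^ 3)⁻¹ * ((L ^ A₃)⁻¹ * pk E l) := by rw [pow_add]; field_simp
      _ ≤ _ := by gcongr
  have i7 : 6 / n * M₂ ≤ 24 * (Real.log L / √L * M₂) := by
    have : 6 / (n : ℝ) ≤ 24 * (Real.log L / √L) := by
      calc 6 / (n : ℝ) ≤ 6 / (√L / 4) := by gcongr
        _ = 24 * (1 / √L) := by field_simp; norm_num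
        _ ≤ _ := by gcongr
    rw [← mul_assoc]
    exact mul_le_mul_of_nonneg_right this M0
  have i8 : C * (Cb + cM E * |C₂| + cV + 1) * ((L ^ 3)⁻¹ * (σ * pk E l)) ≤
      (L ^ 2)⁻¹ * σ * pk E l := by
    calc _ ≤ L * ((L ^ 3)⁻¹ * (σ * pk E l)) := by gcongr
      _ = _ := by field_simp
  have hI := fun {f : E → ℝ} (hf : BM f) => hf.integrableOn hb
  rw [integral_const_mul, integral_add (hI (((b1.add b2).add b3).add b4)) (hI b5),
    integral_add (hI ((b1.add b2).add b3)) (hI b4), integral_add (hI (b1.add b2)) (hI b3),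
    integral_add (hI b1) (hI b2), integral_const_mul, integral_const_mul, setIntegral_const,
    smul_eq_mul]
  have X0 : 0 ≤ 2 ^ hd E * Real.exp (-(1 * L)) * (cV * pk E l) := by positivity
  have j1 := mul_le_mul_of_nonneg_left (i1.trans (add_le_add hM le_rfl)) lg0.le
  have j2 := mul_le_mul_of_nonneg_right lg2 X0
  have j4 := mul_le_mul_of_nonneg_left i4 (show 0 ≤ (L ^ 3)⁻¹ by positivity)
  have e0 : 0 ≤ ∫ y in ball z (3 * l), D.ee y := integral_nonneg h.ee_nonneg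
  have j5 : Real.log L / √L * (∫ y in S, P (4 * T) D.τ y) +
      (∫ y in S, P (4 * T) (D.band Q t (t * Real.exp (2 * √L))) y) + (∫ y in S, P (4 * T) D.ee y) +
      (L ^ 3)⁻¹ * (∫ y in S, P (8 * T) D.τ y) + volume.real S * ((L ^ (A₃ + 23))⁻¹ / T) ≤
      25 * (Real.log L / √L * M₂) + (Cb + cM E * |C₂| + cV + 1) * ((L ^ 3)⁻¹ * (σ * pk E l)) +
        25 * ∫ y in ball z (3 * l), D.ee y := by linarith
  refine (mul_le_mul_of_nonneg_left j5 C0.le).trans ?_
  have e2 : 25 * C * Real.log L / √L * M₂ = C * (25 * (Real.log L / √L * M₂)) := by ring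
  linarith

end Pool.Agent.Lib.MP_8daebb_an.AS
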