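import Pool.Agent.Lib.MP_8daebb_an.AS.W5a
import Pool.Agent.Lib.MP_8daebb_an.G6.Def

/-! Cells that are not low and do not fail are good. -/

open MeasureTheory Metric Set Module Real Filter
open scoped RealInnerProductSpace

namespace Pool.Agent.Lib.MP_8daebb_an.AS

open HK

variable {E : Type*} [NormedAddCommGroup E] [InnerProductSpace ℝ E] [FiniteDimensional ℝ E]
  [MeasurableSpace E] [BorelSpace E]

theorem st_s5 {ε ff : E → ℝ} {T : E → E →L[ℝ] E} {C₁ ρ B κ tM R : ℝ} {x₀ : E}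
    (h : St ε T ff C₁ ρ B κ tM) (hκ : 0 ≤ κ) (hx : ‖x₀‖ ≤ 2) (hR : R ≤ 1 / 2) (hR' : R ^ 2 ≤ tM) :
    G6.St ε T x₀ R (2 * κ) := by
  refine ⟨h.bm_ε, h.bm_inner, h.symm, h.psd, by positivity, by linarith, ?_⟩
  intro Y K s w hY hs hsR hw h1 h2
  have hK : 0 ≤ K := by
    have h3 := (norm_nonneg _).trans (h1 w)
    exact nonneg_of_mul_nonneg_left h3 (G_pos hs _)
  have hb : ∀ y, K * G s (y - w) ≤ K * (4 * Real.pi * s) ^ (-hd E) := fun y =>
    mul_le_mul_of_nonneg_left (G_le_zero hs _) hK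
  have hw' : ‖w‖ ≤ 5 / 2 := by
    have := norm_add_le (w - x₀) x₀
    rw [sub_add_cancel] at this
    linarith
  refine (h.stat Y hY ⟨_, fun y => ⟨(h1 y).trans (hb y), (h2 y).trans (hb y)⟩⟩).trans ?_
  have hP := h.ffP w s hw' hs (hsR.trans hR')
  calc ∫ y, ff y * (‖fderiv ℝ Y y‖ + ‖Y y‖) ≤ ∫ y, 2 * K * (G s (y - w) * ff y) := by
        refine integral_mono_of_nonneg (Filter.Eventually.of_forall fun y => ?_)
          ((h.bm_ff.integrable_G hs w).const_mul _) (Filter.Eventually.of_forall fun y => ?_)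
        · have := h.ff_nonneg y
          simp only [Pi.zero_apply]
          positivity
        · have h3 := h.ff_nonneg y
          have h4 : ‖fderiv ℝ Y y‖ + ‖Y y‖ ≤ 2 * K * G s (y - w) := by linarith [h1 y, h2 y]
          calc ff y * (‖fderiv ℝ Y y‖ + ‖Y y‖) ≤ ff y * (2 * K * G s (y - w)) :=
                mul_le_mul_of_nonneg_left h4 h3
            _ = _ := by ring
    _ = 2 * K * P s ff w := by rw [integral_const_mul]; rfl
    _ ≤ 2 * K * κ := mul_le_mul_of_nonneg_left hP (by positivity)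
    _ = _ := by ring

theorem rad_eq_s5 (T : E → E →L[ℝ] E) (t : ℝ) (x : E) : G6.rad T t x = rad T x t := by
  unfold G6.rad rad
  rw [← integral_div]
  simp only [mul_div_assoc]

/-- At a calm point the regularised density is almost constant and controls the defects. -/
theorem calm5 : ∃ C : ℝ, 1 ≤ C ∧ ∀ (ε ff : E → ℝ) (T : E → E →L[ℝ] E) (C₁ ρ B κ tM η₂ a b : ℝ)
    (x : E), St ε T ff C₁ ρ B κ tM → tM ≤ 1 → 0 < η₂ → 0 < a → a ≤ b → 8 * b ≤ tM →
    ‖x‖ ≤ 5 / 2 → C * (e0 ε T η₂ a (4 * b) x + κ * b / η₂) ≤ 1 →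
    (∀ t ∈ Icc a (4 * b), ∀ t' ∈ Icc a (4 * b), tt T x t' + η₂ ≤ 2 * (tt T x t + η₂)) ∧
    ∀ t ∈ Icc a (2 * b), rad T x t + t * P t (fun y => |βf ε T y|) x ≤
      4 * 4 ^ hd E * (e0 ε T η₂ a (4 * b) x + κ * b / η₂) * (tt T x t + η₂) := by
  obtain ⟨C, C1, hC⟩ := logD (E := E)
  refine ⟨8 * C, by linarith, fun ε ff T C₁ ρ B κ tM η₂ a b x h hM hη ha hab hb hx he => ?_⟩
  have κ0 := h.κ_nonneg5
  have b0 := ha.trans_le hab
  have kb : 0 ≤ κ * b / η₂ := by positivity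
  have e00 := h.e0_nonneg hη ha (show a ≤ 4 * b by linarith) x
  have k1 : ∀ t ∈ Icc a (4 * b), ∀ t' ∈ Icc a (4 * b), t ≤ t' →
      |log (tt T x t' + η₂) - log (tt T x t + η₂)| ≤ 1 / 2 := fun t ht t' ht' htt => by
    have h1 := (hC ε ff T C₁ ρ B κ tM η₂ t t' x h hM hη (ha.trans_le ht.1) htt
      (by linarith [ht'.2]) hx).1
    have h2 := h.e0_mono hη ha ht.1 htt ht'.2 x
    have h3 : κ * t' / η₂ ≤ 4 * (κ * b / η₂) := by
      calc _ ≤ κ * (4 * b) / η₂ := by gcongr; exact ht'.2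
        _ = _ := by ring
    have h4 : C * (e0 ε T η₂ t t' x + κ * t' / η₂) ≤
        C * (4 * (e0 ε T η₂ a (4 * b) x + κ * b / η₂)) := by gcongr; linarith
    linarith
  have k2 : ∀ t ∈ Icc a (4 * b), ∀ t' ∈ Icc a (4 * b), tt T x t' + η₂ ≤ 2 * (tt T x t + η₂) :=
    fun t ht t' ht' => by
      have d := h.D_pos5 hη x (ha.trans_le ht.1)
      have d' := h.D_pos5 hη x (ha.trans_le ht'.1)
      have h1 : log (tt T x t' + η₂) - log (tt T x t + η₂) ≤ 1 / 2 := by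
        rcases le_total t t' with h' | h'
        · exact (abs_le.1 (k1 t ht t' ht' h')).2
        · linarith [(abs_le.1 (k1 t' ht' t ht h')).1]
      rw [← log_le_log_iff d' (by positivity), log_mul (by norm_num) d.ne']
      linarith [log_two_gt_d9]
  refine ⟨k2, fun t ht => ?_⟩
  have t0 : 0 < t := ha.trans_le ht.1
  have tI : t ∈ Icc a (4 * b) := ⟨ht.1, by linarith [ht.2]⟩
  have d := h.D_pos5 hη x t0
  have hab2 : t ≤ 2 * t := by linarith
  have q0 : 0 ≤ rad T x t + t * P t (fun y => |βf ε T y|) x :=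
    add_nonneg (h.rad_nonneg x t0) (mul_nonneg t0.le (P_nonneg t0.le (fun _ => abs_nonneg _) x))
  have h1 : ∫ u in t..(2 * t), (rad T x t + t * P t (fun y => |βf ε T y|) x) * (1 / u) ≤
      ∫ u in t..(2 * t), 4 ^ hd E * (2 * (tt T x t + η₂)) * qe ε T η₂ x u := by
    refine intervalIntegral.integral_mono_on hab2 (ii_of_Ioi (continuousOn_const.mul
      (continuousOn_const.div continuousOn_id fun t ht => ne_of_gt ht)) t0 (by positivity))
      ((ii_of_Ioi (h.continuousOn_qe hη x) t0 (by positivity)).const_mul _) fun u hu => ?_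
    have u0 : 0 < u := t0.trans_le hu.1
    have du := h.D_pos5 hη x u0
    have a1 := h.rad_mono x t0 hu.1 (c := 4) (by linarith [hu.2])
    have a2 := P_le_of_le_mul h.bm_β.abs (fun _ => abs_nonneg _) (s := 2 * u) (c := 4) t0
      (by linarith [hu.1]) (by linarith [hu.2]) x
    have a3 : t * P t (fun y => |βf ε T y|) x ≤
        u * (4 ^ hd E * P (2 * u) (fun y => |βf ε T y|) x) :=
      mul_le_mul hu.1 a2 (P_nonneg t0.le (fun _ => abs_nonneg _) x) u0.le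
    have a4 := k2 t tI u ⟨ht.1.trans hu.1, by linarith [hu.2, ht.2]⟩
    have a5 := h.qe_nonneg hη x u0
    calc _ ≤ (4 ^ hd E * (rad T x u + u * P (2 * u) (fun y => |βf ε T y|) x)) * (1 / u) := by
          gcongr; linarith
      _ = 4 ^ hd E * (tt T x u + η₂) * qe ε T η₂ x u := by unfold qe; field_simp
      _ ≤ _ := by gcongr
  rw [intervalIntegral.integral_const_mul, intervalIntegral.integral_const_mul,
    w1_int_inv t0 hab2, show 2 * t / t = 2 by field_simp, ← e0_eq] at h1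
  have h2 := h.e0_mono hη ha ht.1 hab2 (show 2 * t ≤ 4 * b by linarith [ht.2]) x
  have h3 : 4 ^ hd E * (2 * (tt T x t + η₂)) * e0 ε T η₂ t (2 * t) x ≤
      4 ^ hd E * (2 * (tt T x t + η₂)) * (e0 ε T η₂ a (4 * b) x + κ * b / η₂) := by
    gcongr; linarith
  nlinarith [log_two_gt_d9]

theorem shift5 {f : E → ℝ} (hf : BM f) (h0 : ∀ y, 0 ≤ f y) {t : ℝ} (ht : 0 < t) {x x' : E}
    (h : ‖x - x'‖ ^ 2 ≤ 4 * t) : P t f x' ≤ 2 ^ hd E * exp 1 * P (2 * t) f x := by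
  simpa using P_shift_le hf h0 ht h

theorem mass5 {f : E → ℝ} (hf : BM f) (h0 : ∀ y, 0 ≤ f y) {s A : ℝ} (hs : 0 < s) (z : E) :
    ∫ y in ball z (A * s), f y ≤
      (8 * π) ^ hd E * exp (A ^ 2 / 8) * s ^ finrank ℝ E * P (2 * s ^ 2) f z := by
  have h := mass_ball_le_P hf h0 (t := 2 * s ^ 2) (A := A ^ 2 / 2) (r := A * s) (by positivity) z
    (le_of_eq (by ring))
  rw [show 4 * π * (2 * s ^ 2) = 8 * π * s ^ 2 by ring, mul_rpow (by positivity) (by positivity),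
    rpow_hd_eq (t := s ^ 2) (by positivity), sqrt_sq hs.le,
    show A ^ 2 / 2 / 4 = A ^ 2 / 8 by ring] at h
  linarith

/-- Cells that are not low and do not fail are good. -/
theorem winC (A : ℝ) (hA : 1 ≤ A) : ∃ Cg C₂ : ℝ, 1 ≤ Cg ∧ 1 ≤ C₂ ∧
    ∀ (ε ff : E → ℝ) (T : E → E →L[ℝ] E) (C₁ ρ B κ tM η₂ η₃ a b r l l' K κ₁ κ' : ℝ) (z : E),
    St ε T ff C₁ ρ B κ tM → tM ≤ 1 → 0 < η₂ → C₂ * η₂ ≤ η₃ → 0 < a → 0 < r → a ≤ r ^ 2 →
    a ≤ l ^ 2 → 0 < l → l ≤ l' → 64 * (A * l') ^ 2 ≤ b → 16 * b ≤ tM → ‖z‖ ≤ 3 / 2 → 1 ≤ K →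
    0 < κ₁ → C₂ * K * κ₁ ≤ κ' → C₂ * κ' ≤ 1 → κ * b / η₂ ≤ κ₁ →
    η₃ ≤ l ^ 2 * P (2 * l ^ 2) (τf T) z →
    l ^ finrank ℝ E * P (4 * l ^ 2) (τf T) z ≤ K * (∫ y in ball z (2 * l), τf T y) →
    (∀ s, s = l ∨ s = l' → P (2 * s ^ 2) (fun y => e0 ε T η₂ a (4 * b) y * τf T y) z ≤
        κ₁ * (P (4 * s ^ 2) (τf T) z + η₂ / s ^ 2)) →
    ∃ (x₀ : E) (σ : ℝ), ‖x₀ - z‖ ≤ 2 * l ∧
      G6.Cell ε T (fun x => e0 ε T η₂ a (4 * b) x + κ * b / η₂) x₀ A Cg (2 * κ) σ κ' r l l' ∧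
      η₃ ≤ C₂ * σ ∧ σ ≤ C₂ * (l ^ 2 * P (2 * l ^ 2) (τf T) z) ∧
      l ^ 2 * P (16 * l ^ 2) (τf T) z ≤ C₂ * σ := by
  obtain ⟨C, C1, hC⟩ := calm5 (E := E)
  obtain ⟨c, hc⟩ : ∃ c : ℝ, c = 2 ^ hd E := ⟨_, rfl⟩
  obtain ⟨cs, hcs⟩ : ∃ c : ℝ, c = 2 ^ hd E * exp 1 := ⟨_, rfl⟩
  obtain ⟨c4, hc4⟩ : ∃ c : ℝ, c = 4 * 4 ^ hd E := ⟨_, rfl⟩
  obtain ⟨c8, hc8⟩ : ∃ c : ℝ, c = (8 * π) ^ hd E * exp (2 ^ 2 / 8) := ⟨_, rfl⟩
  obtain ⟨cA, hcA⟩ : ∃ c : ℝ, c = (8 * π) ^ hd E * exp ((A + 2) ^ 2 / 8) := ⟨_, rfl⟩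
  have c0 : 0 < c := by rw [hc]; positivity
  have cs0 : 0 < cs := by rw [hcs]; positivity
  have c41 : 1 ≤ c4 := by
    have : (1 : ℝ) ≤ 4 ^ hd E := one_le_rpow (by norm_num) hd_nonneg
    rw [hc4]; linarith
  have c80 : 0 < c8 := by rw [hc8]; positivity
  have cA0 : 0 < cA := by rw [hcA]; positivity
  have z1 : 0 < c4 * (8 * cs + 2) := by positivity
  have z2 : 0 < c8 * (1 + c) := by positivity
  have z3 : 0 < cA * ((1 + c) * cs + 1) := by positivity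
  refine ⟨C + c4 * (8 * cs + 2), C + 2 * cs + (c8 * (1 + c) + 2) + cA * ((1 + c) * cs + 1),
    by linarith, by linarith, ?_⟩
  generalize hC₂ : C + 2 * cs + (c8 * (1 + c) + 2) + cA * ((1 + c) * cs + 1) = C₂
  intro ε ff T C₁ ρ B κ tM η₂ η₃ a b r l l' K κ₁ κ' z h hM hη hη₃ ha hr har hal hl hll hb hbM hz
    hK hκ₁ hκ' hκ'' hκb hlow hF1 hF2
  have g1 : C ≤ C₂ := by linarith
  have g2 : 2 * cs ≤ C₂ := by linarith
  have g3 : c8 * (1 + c) + 2 ≤ C₂ := by linarith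
  have g4 : cA * ((1 + c) * cs + 1) ≤ C₂ := by linarith
  have g5 : 1 ≤ C₂ := by linarith
  have κ0 := h.κ_nonneg5
  have l'0 : 0 < l' := hl.trans_le hll
  have lA : l' ≤ A * l' := le_mul_of_one_le_left l'0.le hA
  have l2 : l ^ 2 ≤ l' ^ 2 := by gcongr
  have l3 : l' ^ 2 ≤ (A * l') ^ 2 := by gcongr
  have l20 : 0 < l ^ 2 := by positivity
  have A32 : A * l' ≤ 1 / 32 := by
    exact (abs_le_of_sq_le_sq' (b := 1 / 32) (by linarith) (by norm_num)).2
  have hab : a ≤ b := by linarith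
  have b0 : 0 < b := ha.trans_le hab
  have kb : 0 ≤ κ * b / η₂ := by positivity
  have a4 : a ≤ 4 * b := by linarith
  have be := h.bm_e05 hη ha a4
  have e00 := h.e0_nonneg hη ha a4
  have bτ := h.bm_τ
  have τ0 := h.τ_nonneg
  have η₃0 : 0 < η₃ := lt_of_lt_of_le (by positivity) hη₃
  have η23 : η₂ ≤ η₃ := (le_mul_of_one_le_left hη.le g5).trans hη₃
  have Kκ : κ₁ ≤ K * κ₁ := le_mul_of_one_le_left hκ₁.le hK
  have Kκ0 : 0 < K * κ₁ := by positivity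
  have κ'1 : C₂ * (K * κ₁) ≤ κ' := by rw [← mul_assoc]; exact hκ'
  have κ'2 : κ₁ ≤ κ' := Kκ.trans ((le_mul_of_one_le_left Kκ0.le g5).trans κ'1)
  have dbl : ∀ {s : ℝ}, 0 < s → P (2 * s ^ 2) (τf T) z ≤ c * P (4 * s ^ 2) (τf T) z :=
    fun {s} hs => by
      have s2 : 0 < s ^ 2 := by positivity
      rw [hc]
      exact P_le_of_le_mul bτ τ0 (by positivity) (by linarith) (by linarith) z
  -- the base point
  obtain ⟨x₀, hx₀, ex₀⟩ : ∃ x₀ ∈ ball z (2 * l),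
      e0 ε T η₂ a (4 * b) x₀ ≤ (c8 * (1 + c) + 1) * (K * κ₁) := by
    by_contra hcon
    push Not at hcon
    have m0 : 0 < l ^ finrank ℝ E := by positivity
    have p2 : η₃ / l ^ 2 ≤ P (2 * l ^ 2) (τf T) z := by rw [div_le_iff₀' l20]; exact hlow
    have p4 : 0 < P (4 * l ^ 2) (τf T) z :=
      pos_of_mul_pos_right ((lt_of_lt_of_le (by positivity) p2).trans_le (dbl hl)) c0.le
    have M0 : 0 < ∫ y in ball z (2 * l), τf T y :=
      pos_of_mul_pos_right (lt_of_lt_of_le (by positivity) hF1) (by linarith)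
    have h1 := mass5 (be.mul bτ) (fun y => mul_nonneg (e00 y) (τ0 y)) (A := 2) hl z
    rw [← hc8] at h1
    have h2 := hF2 l (Or.inl rfl)
    have h3 : η₂ / l ^ 2 ≤ c * P (4 * l ^ 2) (τf T) z :=
      (div_le_div_of_nonneg_right η23 l20.le).trans (p2.trans (dbl hl))
    have h4 : ∫ y in ball z (2 * l), (c8 * (1 + c) + 1) * (K * κ₁) * τf T y ≤
        ∫ y in ball z (2 * l), e0 ε T η₂ a (4 * b) y * τf T y :=
      setIntegral_mono_on ((bτ.const_mul _).integrableOn isBounded_ball)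
        ((be.mul bτ).integrableOn isBounded_ball) measurableSet_ball
        fun y hy => mul_le_mul_of_nonneg_right (hcon y hy).le (τ0 y)
    rw [integral_const_mul] at h4
    have h5 : c8 * l ^ finrank ℝ E * P (2 * l ^ 2) (fun y => e0 ε T η₂ a (4 * b) y * τf T y) z ≤
        c8 * (1 + c) * (K * κ₁) * ∫ y in ball z (2 * l), τf T y := by
      calc _ ≤ c8 * l ^ finrank ℝ E * (κ₁ * ((1 + c) * P (4 * l ^ 2) (τf T) z)) := by
            gcongr
            exact h2.trans (by gcongr; linarith)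
        _ = c8 * (1 + c) * κ₁ * (l ^ finrank ℝ E * P (4 * l ^ 2) (τf T) z) := by ring
        _ ≤ c8 * (1 + c) * κ₁ * (K * ∫ y in ball z (2 * l), τf T y) := by gcongr
        _ = _ := by ring
    linarith only [h1, h4, h5, mul_pos Kκ0 M0]
  have hx₀' : ‖x₀ - z‖ ≤ 2 * l := by rw [← dist_eq_norm]; exact (mem_ball.1 hx₀).le
  have hx₀2 : ‖x₀ - z‖ ^ 2 ≤ 4 * l ^ 2 := by
    linarith only [pow_le_pow_left₀ (norm_nonneg _) hx₀' 2]
  have nx₀ : ‖x₀‖ ≤ 3 / 2 + 1 / 16 := by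
    have := norm_add_le (x₀ - z) z
    rw [sub_add_cancel] at this
    linarith
  have eb : e0 ε T η₂ a (4 * b) x₀ + κ * b / η₂ ≤ κ' := by
    have : (c8 * (1 + c) + 2) * (K * κ₁) ≤ C₂ * (K * κ₁) := by gcongr
    linarith
  have κ'0 : 0 < κ' := hκ₁.trans_le κ'2
  have cal := fun (x : E) (hx : ‖x‖ ≤ 5 / 2) he =>
    hC ε ff T C₁ ρ B κ tM η₂ a b x h hM hη ha hab (by linarith) hx he
  have cb := (cal x₀ (by linarith) (le_trans (mul_le_mul g1 eb (add_nonneg (e00 _) kb)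
    (by linarith)) hκ'')).1
  obtain ⟨σ, hσ⟩ : ∃ σ, σ = (tt T x₀ a + η₂) / 4 := ⟨_, rfl⟩
  have σ0 : 0 < σ := by rw [hσ]; exact div_pos (h.D_pos5 hη x₀ ha) (by norm_num)
  have aI : a ∈ Icc a (4 * b) := left_mem_Icc.2 a4
  have up : ∀ t, a ≤ t → t ≤ 4 * b → t * P t (τf T) x₀ ≤ 8 * σ := fun t h1 h2 => by
    have := cb a aI t ⟨h1, h2⟩
    change tt T x₀ t ≤ _
    linarith
  have sh : ∀ {t : ℝ} {x : E}, a ≤ 2 * t → t ≤ 2 * b → ‖x₀ - x‖ ^ 2 ≤ 4 * t →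
      t * P t (τf T) x ≤ 4 * cs * σ := fun {t x} h1 h2 h3 => by
    have t0 : 0 < t := by linarith
    have h4 := shift5 bτ τ0 t0 h3
    rw [← hcs] at h4
    have h5 := up (2 * t) h1 (by linarith)
    calc _ ≤ t * (cs * P (2 * t) (τf T) x₀) := by gcongr
      _ = cs / 2 * (2 * t * P (2 * t) (τf T) x₀) := by ring
      _ ≤ cs / 2 * (8 * σ) := by gcongr
      _ = _ := by ring
  have s1 : η₃ ≤ C₂ * σ := by
    have := sh (t := 2 * l ^ 2) (x := z) (by linarith) (by linarith) (by linarith)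
    have h2 : 2 * cs * σ ≤ C₂ * σ := by gcongr
    linarith
  have s2 : η₂ ≤ σ := le_of_mul_le_mul_left (hη₃.trans s1) (by linarith)
  have lo : ∀ t, a ≤ t → t ≤ 4 * b → σ ≤ t * P t (τf T) x₀ := fun t h1 h2 => by
    have := cb t ⟨h1, h2⟩ a aI
    change _ ≤ tt T x₀ t
    linarith
  have few : ∀ s, s = l ∨ s = l' → ∫ y in ball x₀ (A * s),
      (e0 ε T η₂ a (4 * b) y + κ * b / η₂) * G6.tau T y ≤ κ' * σ * (s ^ finrank ℝ E / s ^ 2) := by
    intro s hs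
    have ls : l ≤ s := by rcases hs with rfl | rfl <;> linarith
    have sl : s ≤ l' := by rcases hs with rfl | rfl <;> linarith
    have s0 : 0 < s := hl.trans_le ls
    have s20 : 0 < s ^ 2 := by positivity
    have ls2 : l ^ 2 ≤ s ^ 2 := by gcongr
    have sl2 : s ^ 2 ≤ l' ^ 2 := by gcongr
    have bf : BM fun y => (e0 ε T η₂ a (4 * b) y + κ * b / η₂) * τf T y :=
      (be.add (BM.const _)).mul bτ
    have f0 : ∀ y, 0 ≤ (e0 ε T η₂ a (4 * b) y + κ * b / η₂) * τf T y :=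
      fun y => mul_nonneg (add_nonneg (e00 y) kb) (τ0 y)
    have h1 : ∫ y in ball x₀ (A * s), (e0 ε T η₂ a (4 * b) y + κ * b / η₂) * τf T y ≤
        ∫ y in ball z ((A + 2) * s), (e0 ε T η₂ a (4 * b) y + κ * b / η₂) * τf T y :=
      setIntegral_mono_set (bf.integrableOn isBounded_ball) (Eventually.of_forall f0)
        (ball_subset_ball' (by rw [dist_eq_norm]; linarith)).eventuallyLE
    have h2 := mass5 bf f0 (A := A + 2) s0 z
    rw [← hcA] at h2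
    have h3 := sh (t := 4 * s ^ 2) (x := z) (by linarith) (by linarith) (by linarith)
    have h4 : P (4 * s ^ 2) (τf T) z ≤ cs * σ / s ^ 2 := by rw [le_div_iff₀ s20]; linarith
    have h5 : P (2 * s ^ 2) (fun y => (e0 ε T η₂ a (4 * b) y + κ * b / η₂) * τf T y) z ≤
        κ₁ * (((1 + c) * cs + 1) * σ / s ^ 2) := by
      simp only [add_mul]
      rw [P_add (be.mul bτ) (bτ.const_mul _) (by positivity), P_const_mul]
      have a1 : κ * b / η₂ * P (2 * s ^ 2) (τf T) z ≤ κ₁ * (c * (cs * σ / s ^ 2)) :=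
        mul_le_mul hκb ((dbl s0).trans (by gcongr)) (P_nonneg (by positivity) τ0 z) hκ₁.le
      have a2 : κ₁ * (P (4 * s ^ 2) (τf T) z + η₂ / s ^ 2) ≤
          κ₁ * (cs * σ / s ^ 2 + σ / s ^ 2) := by gcongr
      calc _ ≤ _ := add_le_add ((hF2 s hs).trans a2) a1
        _ = _ := by ring
    have h6 : cA * ((1 + c) * cs + 1) * κ₁ ≤ κ' :=
      (mul_le_mul g4 Kκ hκ₁.le (by linarith)).trans κ'1
    calc _ ≤ cA * s ^ finrank ℝ E * (κ₁ * (((1 + c) * cs + 1) * σ / s ^ 2)) :=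
          h1.trans (h2.trans (by gcongr))
      _ = cA * ((1 + c) * cs + 1) * κ₁ * σ * (s ^ finrank ℝ E / s ^ 2) := by ring
      _ ≤ _ := by gcongr
  refine ⟨x₀, σ, hx₀', ⟨st_s5 h κ0 (by linarith) (by linarith) (by linarith), be.add (BM.const _),
    fun x => add_nonneg (e00 x) kb, σ0, κ'0, hr, eb, fun t h1 h2 => ⟨lo t (by linarith)
      (by linarith), (up t (by linarith) (by linarith)).trans (by linarith)⟩,
    fun x hx he t h1 h2 => ?_, few l (Or.inl rfl), few l' (Or.inr rfl), ?_⟩, s1, ?_, ?_⟩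
  · have nx : ‖x‖ ≤ 5 / 2 := by
      have := norm_add_le (x - x₀) x₀
      rw [sub_add_cancel] at this
      linarith
    have ex := add_nonneg (e00 x) kb
    have he' : (C + c4 * (8 * cs + 2)) * (e0 ε T η₂ a (4 * b) x + κ * b / η₂) ≤ 1 := by
      rwa [le_div_iff₀' (by linarith)] at he
    obtain ⟨k1, k2⟩ := cal x nx (le_trans (by gcongr; linarith) he')
    have k3 := k1 b ⟨hab, by linarith⟩ t ⟨by linarith, by linarith⟩
    have k4 : tt T x b ≤ 4 * cs * σ := sh (by linarith) (by linarith) (by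
      rw [norm_sub_rev]
      have : ‖x - x₀‖ ^ 2 ≤ (A * l') ^ 2 := by gcongr
      linarith)
    have k5 : tt T x t + η₂ ≤ (8 * cs + 2) * σ := by linarith
    have k6 := k2 t ⟨by linarith, by linarith⟩
    rw [← hc4] at k6
    have k7 : 8 * cs + 2 ≤ c4 * (8 * cs + 2) := le_mul_of_one_le_left (by linarith) c41
    constructor
    · rw [rad_eq_s5]
      calc _ ≤ c4 * (e0 ε T η₂ a (4 * b) x + κ * b / η₂) * ((8 * cs + 2) * σ) :=
            k6.trans (by gcongr)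
        _ = c4 * (8 * cs + 2) * (e0 ε T η₂ a (4 * b) x + κ * b / η₂) * σ := by ring
        _ ≤ _ := by gcongr; linarith
    · change tt T x t ≤ _
      calc tt T x t ≤ (8 * cs + 2) * σ := by linarith
        _ ≤ _ := mul_le_mul_of_nonneg_right (by linarith) σ0.le
  · rw [div_le_iff₀ hη] at hκb
    have a1 : κ * l' ^ 2 ≤ κ * (b / 64) := by gcongr; linarith
    have a2 : κ₁ * η₂ ≤ κ' * σ := by gcongr
    linarith only [a1, a2, hκb, mul_nonneg κ0 b0.le]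
  · have a1 := lo (l ^ 2) hal (by linarith)
    have a2 := shift5 bτ τ0 l20 (x := z) (x' := x₀) (by rw [norm_sub_rev]; exact hx₀2)
    rw [← hcs] at a2
    have a3 : 0 ≤ P (2 * l ^ 2) (τf T) z := P_nonneg (by positivity) τ0 z
    calc σ ≤ l ^ 2 * (cs * P (2 * l ^ 2) (τf T) z) := a1.trans (by gcongr)
      _ = cs * (l ^ 2 * P (2 * l ^ 2) (τf T) z) := by ring
      _ ≤ _ := by gcongr; linarith
  · have a1 := sh (t := 16 * l ^ 2) (x := z) (by linarith) (by linarith) (by linarith)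
    have a2 : 2 * cs * σ ≤ C₂ * σ := by gcongr
    linarith only [a1, a2, mul_pos cs0 σ0]

end Pool.Agent.Lib.MP_8daebb_an.AS
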