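import Pool.Agent.Lib.MP_8daebb_an.AS.W5c
import Pool.Agent.Lib.MP_8daebb_an.AS.W5d

/-! Entropy, good cells, negative parts (section 5). -/

open MeasureTheory Metric Set Module
open scoped RealInnerProductSpace

namespace Pool.Agent.Lib.MP_8daebb_an.AS

open HK

variable {E : Type*} [NormedAddCommGroup E] [InnerProductSpace ℝ E] [FiniteDimensional ℝ E]
  [MeasurableSpace E] [BorelSpace E]

theorem St.bm_e0 {ε ff : E → ℝ} {T : E → E →L[ℝ] E} {C₁ ρ B κ tM : ℝ}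
    (h : St ε T ff C₁ ρ B κ tM) {η₂ a b : ℝ} (hη : 0 < η₂) (ha : 0 < a) (hab : a ≤ b) :
    BM (e0 ε T η₂ a b) ∧ (∀ x, 0 ≤ e0 ε T η₂ a b x) ∧
      ∀ x, e0 ε T η₂ a b x ≤ (2 ^ hd E + 2) * C₁ / η₂ * Real.log (b / a) := by
  refine ⟨h.bm_e05 hη ha hab, h.e0_nonneg hη ha hab, fun x => (h.e0_le hη ha hab x).trans ?_⟩
  have := h.C₁_nonneg5
  have : 0 ≤ Real.log (b / a) := Real.log_nonneg ((one_le_div ha).2 hab)
  gcongr
  norm_num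

theorem St.e0_add {ε ff : E → ℝ} {T : E → E →L[ℝ] E} {C₁ ρ B κ tM : ℝ}
    (h : St ε T ff C₁ ρ B κ tM) {η₂ a b c : ℝ} (hη : 0 < η₂) (ha : 0 < a) (hab : a ≤ b)
    (hbc : b ≤ c) (x : E) : e0 ε T η₂ a b x + e0 ε T η₂ b c x = e0 ε T η₂ a c x :=
  h.e0_add5 hη ha (ha.trans_le hab) ((ha.trans_le hab).trans_le hbc) x

/-- Entropy bound. -/
theorem ent : ∃ C > (0 : ℝ), ∀ (ε ff φ : E → ℝ) (T : E → E →L[ℝ] E) (C₁ ρ B κ tM η₂ a b : ℝ),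
    St ε T ff C₁ ρ B κ tM → tM ≤ 1 → Wt φ → 0 < η₂ → 0 < a → a ≤ b → 2 * b ≤ tM →
    ∫ x, φ x * (e0 ε T η₂ a b x * τf T x) ≤
      C * (Real.log ((C₁ + η₂) / η₂) + κ * b / η₂) * (∫ x, φ x * τf T x) +
      C * Real.log (b / a) * ((∫ x, φ x * |βf ε T x|) +
        √b * (∫ x in ball (0 : E) (5 / 4), |βf ε T x|) + B * Real.exp (-(1 / (600 * b)))) :=
  ent_s5

/-- Mass of the cells that fail the second test. -/
theorem av_fail : ∃ C > (0 : ℝ), ∀ (φ τ f : E → ℝ) (η B s l lam : ℝ), Wt φ → BM τ →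
    (∀ y, 0 ≤ τ y) → BM f → (∀ y, 0 ≤ f y) → (∀ y, f y ≤ B) → 0 < η → 0 < s → s ≤ l ^ 2 →
    0 < l → l ≤ lam → lam ≤ 1 →
    ∫ z, φ z * ((∫ y, kk l z y * P s τ y) / (P (4 * lam ^ 2) τ z + η) * P (2 * lam ^ 2) f z) ≤
      C * l ^ finrank ℝ E * ((∫ y, φ y * f y) + lam * (∫ y in ball (0 : E) (5 / 4), f y) +
        B * Real.exp (-(1 / (600 * lam ^ 2)))) :=
  av_fail_s5

/-- The negative parts almost telescope. -/
theorem neg_chain : ∃ C > (0 : ℝ), ∀ (φ g : E → ℝ) (B s s' l : ℝ), Wt φ → BM g →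
    (∀ y, |g y| ≤ B) → 0 < s → s ≤ l ^ 2 → 0 < l → 4 * l ^ 2 ≤ s' → s' ≤ 1 / 400 →
    ∫ z, φ z * ((∫ y, kk l z y * np (P s g y)) - np (∫ y, kk l z y * P s g y)) ≤
      ck E * l ^ finrank ℝ E * ((∫ y, φ y * np (P s g y)) - ∫ y, φ y * np (P s' g y)) +
      C * l ^ finrank ℝ E * (l / √s' * (∫ y, φ y * |g y|) +
        √s' * (∫ y in ball (0 : E) (3 / 2), |g y|) + B * Real.exp (-(1 / (600 * s')))) :=
  neg_chain_s5

end Pool.Agent.Lib.MP_8daebb_an.AS
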