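import Pool.Agent.Lib.MP_8daebb_an.AS.Bas
import Pool.Agent.Lib.MP_8daebb_an.G6.Def

/-! Geometry of a good cell (section 6). -/

open MeasureTheory Metric Set Module
open scoped RealInnerProductSpace

namespace Pool.Agent.Lib.MP_8daebb_an.AS

open HK

variable {E : Type*} [NormedAddCommGroup E] [InnerProductSpace ℝ E] [FiniteDimensional ℝ E]
  [MeasurableSpace E] [BorelSpace E]

theorem pow_div_le_s6 {X : ℝ} (hX : 1 ≤ X) {a b c d : ℕ} (h : a + d ≤ c + b) :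
    X ^ a / X ^ b ≤ X ^ c / X ^ d := by
  have h0 : 0 < X := by linarith
  rw [div_le_div_iff₀ (by positivity) (by positivity), ← pow_add, ← pow_add]
  exact pow_le_pow_right₀ hX h

theorem inv_pow_le_s6 {X c : ℝ} (hX : 1 ≤ X) (hc : 0 < c) (hXc : 1 / c ≤ X) {s : ℕ} (hs : 1 ≤ s) :
    1 / X ^ s ≤ c := by
  have h0 : 0 < X := by linarith
  have h1 : X ≤ X ^ s := by
    calc X = X ^ 1 := (pow_one X).symm
      _ ≤ X ^ s := pow_le_pow_right₀ hX hs
  rw [div_le_iff₀ (by positivity)]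
  rw [div_le_iff₀ hc] at hXc
  nlinarith

theorem par_s6 (m c₅ cθ cκ cΞ s N : ℕ) {c X l : ℝ} (hc : 0 < c) (hX : 2 ≤ X) (hXc : 1 / c ≤ X)
    (hl : 0 < l) (h1 : c₅ + 2 * cθ + 2 ≤ cΞ) (h2 : c₅ + m * cΞ + cθ + cκ + 3 ≤ s)
    (h3 : c₅ + (cΞ + s) * (m + 4) + cΞ + cθ + 1 ≤ N)
    (h4 : c₅ + m * cΞ + 2 * cΞ + 2 * s + cκ + 2 ≤ N) :
    G6.Par m c (X ^ c₅ / X ^ (2 * N)) (1 / X ^ (cκ + 1 + N)) (l / (X ^ cθ * X ^ N) / X)
      (l / X ^ s) l (X ^ cΞ * l) := by
  have hX1 : 1 ≤ X := by linarith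
  have h0 : 0 < X := by linarith
  have hr : l / (X ^ cθ * X ^ N) / X = l * (X ^ 0 / X ^ (cθ + N + 1)) := by
    rw [pow_add, pow_add]; field_simp
  have hB : l / X ^ s = l * (X ^ 0 / X ^ s) := by field_simp
  have hq : X ^ cΞ * l / (l / X ^ s) = X ^ (cΞ + s) := by rw [pow_add]; field_simp
  have hq' : X ^ cΞ * l / l = X ^ cΞ := by field_simp
  have hsN : s ≤ N := by omega
  refine ⟨?_, ?_, ?_, ?_, ?_, ?_, ?_, ?_⟩
  · rw [hr, hB]
    exact mul_le_mul_of_nonneg_left (pow_div_le_s6 hX1 (by omega)) hl.le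
  · have := inv_pow_le_s6 hX1 hc hXc (s := s) (by omega)
    calc l / X ^ s = 1 / X ^ s * l := by ring
      _ ≤ c * l := mul_le_mul_of_nonneg_right this hl.le
  · have := inv_pow_le_s6 hX1 hc hXc (s := cΞ) (by omega)
    rw [div_le_iff₀ (by positivity)] at this
    calc l = 1 * l := (one_mul l).symm
      _ ≤ (c * X ^ cΞ) * l := mul_le_mul_of_nonneg_right this hl.le
      _ = c * (X ^ cΞ * l) := by ring
  · rw [hq, hr]
    have e1 : X ^ c₅ / X ^ (2 * N) * (X ^ (cΞ + s)) ^ (m + 4) * (X ^ cΞ * l) =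
        l * (X ^ (c₅ + (cΞ + s) * (m + 4) + cΞ) / X ^ (2 * N)) := by
      rw [← pow_mul, pow_add X (c₅ + (cΞ + s) * (m + 4)), pow_add X c₅]; ring
    rw [e1]
    exact mul_le_mul_of_nonneg_left (pow_div_le_s6 hX1 (by omega)) hl.le
  · rw [hr]
    have e1 : (l * (X ^ 0 / X ^ (cθ + N + 1))) ^ 2 * (X ^ cΞ * l) ^ 2 =
        X ^ (cΞ * 2) / X ^ ((cθ + N + 1) * 2) * l ^ 4 := by
      rw [pow_mul, pow_mul]; field_simp
    rw [e1]
    exact mul_le_mul_of_nonneg_right (pow_div_le_s6 hX1 (by omega)) (by positivity)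
  · rw [hr]
    have e1 : (l * (X ^ 0 / X ^ (cθ + N + 1))) ^ 2 =
        X ^ 0 / X ^ ((cθ + N + 1) * 2) * l ^ 2 := by
      rw [pow_mul]; field_simp
    rw [e1]
    exact mul_le_mul_of_nonneg_right (pow_div_le_s6 hX1 (by omega)) (by positivity)
  · rw [hq, hq', hr]
    have e1 : X ^ c₅ / X ^ (2 * N) * (X ^ cΞ) ^ m *
        ((X ^ (cΞ + s)) ^ 2 + l / X ^ s / (l * (X ^ 0 / X ^ (cθ + N + 1)))) =
        X ^ (c₅ + cΞ * m + (cΞ + s) * 2) / X ^ (2 * N) +
          X ^ (c₅ + cΞ * m + (cθ + N + 1)) / X ^ (2 * N + s) := by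
      rw [pow_add X (c₅ + cΞ * m), pow_add X (c₅ + cΞ * m), pow_add X c₅, pow_mul X cΞ,
        pow_mul X (cΞ + s), pow_add X (2 * N)]
      field_simp
    have hmul : cΞ * m = m * cΞ := Nat.mul_comm _ _
    have b1 : X ^ (c₅ + cΞ * m + (cΞ + s) * 2) / X ^ (2 * N) ≤ X ^ 0 / X ^ (cκ + 1 + N + 1) :=
      pow_div_le_s6 hX1 (by omega)
    have b2 : X ^ (c₅ + cΞ * m + (cθ + N + 1)) / X ^ (2 * N + s) ≤
        X ^ 0 / X ^ (cκ + 1 + N + 1) := pow_div_le_s6 hX1 (by omega)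
    have b3 : X ^ 0 / X ^ (cκ + 1 + N + 1) + X ^ 0 / X ^ (cκ + 1 + N + 1) ≤
        1 / X ^ (cκ + 1 + N) := by
      rw [pow_succ X (cκ + 1 + N), pow_zero, ← add_div,
        div_le_div_iff₀ (by positivity) (by positivity)]
      have : 0 < X ^ (cκ + 1 + N) := by positivity
      nlinarith
    rw [e1]; linarith
  · exact inv_pow_le_s6 hX1 hc hXc (by omega)

omit [MeasurableSpace E] [BorelSpace E] in
theorem proj_eq_s6 {d : ℕ} {n : Fin d → E} (hn : Orthonormal ℝ n) :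
    (Submodule.span ℝ (range n))ᗮᗮ.starProjection = G6.Pn n := by
  ext v
  have hP : G6.Pn n v = ∑ i, ⟪n i, v⟫ • n i := by
    simp [G6.Pn]
  apply Submodule.eq_starProjection_of_mem_orthogonal
  · apply Submodule.le_orthogonal_orthogonal
    rw [hP]
    exact Submodule.sum_mem _ fun i _ =>
      Submodule.smul_mem _ _ (Submodule.subset_span (mem_range_self i))
  · rw [Submodule.triorthogonal_eq_orthogonal, Submodule.mem_orthogonal]
    intro u hu
    induction hu using Submodule.span_induction with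
    | mem x hx =>
      obtain ⟨j, rfl⟩ := hx
      rw [hP, inner_sub_right, hn.inner_right_fintype]
      simp
    | zero => simp
    | add x y _ _ hx hy => rw [inner_add_left, hx, hy, add_zero]
    | smul a x _ hx => rw [inner_smul_left, hx, mul_zero]

theorem τpar_eq_s6 {d : ℕ} {n : Fin d → E} (hn : Orthonormal ℝ n) (T : E → E →L[ℝ] E) (y : E) :
    τpar (Submodule.span ℝ (range n))ᗮ T y = G6.tpar T n y := by
  have hP : ∀ v, G6.Pn n v = ∑ i, ⟪n i, v⟫ • n i := by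
    intro v; simp [G6.Pn]
  have hW : ∀ v, (Submodule.span ℝ (range n))ᗮ.starProjection v = v - G6.Pn n v := by
    intro v
    rw [← proj_eq_s6 hn]
    exact eq_sub_of_add_eq (Submodule.starProjection_add_starProjection_orthogonal v)
  unfold τpar G6.tpar
  rw [tr_eq_sum (stdOrthonormalBasis ℝ E), tr_eq_sum (stdOrthonormalBasis ℝ E)]
  simp only [ContinuousLinearMap.comp_apply, hW, hP, map_sub, map_sum, map_smul, inner_sub_left,
    sum_inner, real_inner_smul_left, Finset.sum_sub_distrib]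
  congr 1
  rw [Finset.sum_comm]
  refine Finset.sum_congr rfl fun i _ => ?_
  rw [← (stdOrthonormalBasis ℝ E).sum_inner_mul_inner (T y (n i)) (n i)]
  refine Finset.sum_congr rfl fun j _ => ?_
  rw [mul_comm, real_inner_comm (n i)]

theorem τpar_nonneg_s6 (W : Submodule ℝ E) {T : E → E →L[ℝ] E} (hT : ∀ y v, 0 ≤ ⟪T y v, v⟫)
    (y : E) : 0 ≤ τpar W T y := by
  have h1 : τpar W T y = tr (W.starProjection.comp ((T y).comp W.starProjection)) := by
    unfold τpar tr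
    have e : (T y).comp W.starProjection =
        ((T y).comp W.starProjection).comp W.starProjection := by
      ext v
      simp only [ContinuousLinearMap.comp_apply]
      rw [Submodule.starProjection_eq_self_iff.2 (W.starProjection_apply_mem v)]
    conv_lhs => rw [e]
    exact LinearMap.trace_comp_comm' (W.starProjection : E →ₗ[ℝ] E)
      (((T y).comp W.starProjection : E →L[ℝ] E) : E →ₗ[ℝ] E)
  rw [h1, tr_eq_sum (stdOrthonormalBasis ℝ E)]
  refine Finset.sum_nonneg fun i _ => ?_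
  simp only [ContinuousLinearMap.comp_apply]
  rw [Submodule.inner_starProjection_left_eq_right]
  exact hT _ _

theorem τf_nonneg_s6 {T : E → E →L[ℝ] E} (hT : ∀ y v, 0 ≤ ⟪T y v, v⟫) (y : E) : 0 ≤ τf T y := by
  unfold τf
  rw [tr_eq_sum (stdOrthonormalBasis ℝ E)]
  exact Finset.sum_nonneg fun i _ => hT _ _

theorem intOn_s6 {f : E → ℝ} (hf : Continuous f) (x : E) (R : ℝ) : IntegrableOn f (ball x R) :=
  (hf.continuousOn.integrableOn_compact (isCompact_closedBall x R)).mono_set ball_subset_closedBall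

/-- Adapter: `G6.GeomStmt` with all parameters powers of `X`. -/
theorem geom (hG : G6.GeomStmt E) : ∃ A : ℝ, 8 ≤ A ∧ ∀ Cg : ℝ, 1 ≤ Cg → ∀ c₅ cθ cκ : ℕ,
    ∃ cΞ N₆ : ℕ, ∀ N, N₆ ≤ N → ∃ X₀ : ℝ, ∀ X L : ℝ, X₀ ≤ X → L = X ^ (2 * N) →
    ∀ (ε e : E → ℝ) (T : E → E →L[ℝ] E) (μ σ l r : ℝ) (x₀ : E), r = l / (X ^ cθ * X ^ N) →
    G6.Cell ε T e x₀ A Cg μ σ (X ^ c₅ / L) (r / X) l (X ^ cΞ * l) → Continuous T →
    ∃ (W : Submodule ℝ E) (x₁ : E), finrank ℝ W + 2 = finrank ℝ E ∧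
      (∫ y in ball x₀ (8 * l), (τpar W T y + (dd W x₁ y / l) ^ 2 * τf T y)) ≤
        X ^ (c₅ + 1) / L * σ * pk E l ∧
      (∫ y in ball x₀ (8 * l) ∩ {y | r / 8 < dd W x₁ y}, τf T y) ≤
        (X ^ cκ * X ^ N)⁻¹ * σ * pk E l := by
  obtain ⟨C₁, hC₁, hG⟩ := hG
  refine ⟨max C₁ 8, le_max_right _ _, fun Cg hCg c₅ cθ cκ => ?_⟩
  obtain ⟨c, hc, C, hC, hG⟩ := hG (max C₁ 8) (le_max_left _ _) Cg hCg
  obtain ⟨cΞ, h1⟩ : ∃ cΞ, c₅ + 2 * cθ + 2 ≤ cΞ := ⟨_, le_rfl⟩
  obtain ⟨s, h2⟩ : ∃ s, c₅ + finrank ℝ E * cΞ + cθ + cκ + 3 ≤ s := ⟨_, le_rfl⟩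
  refine ⟨cΞ, (c₅ + (cΞ + s) * (finrank ℝ E + 4) + cΞ + cθ + 1) +
    (c₅ + finrank ℝ E * cΞ + 2 * cΞ + 2 * s + cκ + 2), fun N hN => ?_⟩
  refine ⟨max (8 * C) (1 / c), fun X L hX hL ε e T μ σ l r x₀ hr hcell hT => ?_⟩
  have hX8 : 8 * C ≤ X := le_trans (le_max_left _ _) hX
  have hXc : 1 / c ≤ X := le_trans (le_max_right _ _) hX
  have hX2 : 2 ≤ X := by linarith
  have hX0 : 0 < X := by linarith
  have hr0 : 0 < r := by
    have := mul_pos hcell.r0 hX0
    rwa [div_mul_cancel₀ _ hX0.ne'] at this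
  have hl : 0 < l := by
    have := mul_pos hr0 (show 0 < X ^ cθ * X ^ N by positivity)
    rwa [hr, div_mul_cancel₀ _ (by positivity)] at this
  have hpar := par_s6 (finrank ℝ E) c₅ cθ cκ cΞ s N hc hX2 hXc hl h1 h2 (by omega) (by omega)
  rw [← hr, ← hL] at hpar
  obtain ⟨p, n, hgeo⟩ := hG ε T e x₀ μ σ _ _ _ _ _ _ hcell hpar
  have hn := hgeo.on
  have hσ := hcell.σ0
  have hκ := hcell.κ0
  have hpsd := hcell.st.psd
  have hdd : ∀ y, dd (Submodule.span ℝ (range n))ᗮ p y = ‖G6.Pn n (y - p)‖ := by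
    intro y; unfold dd; rw [proj_eq_s6 hn]
  have hτc : Continuous (τf T) := continuous_tr.comp hT
  have hτ0 := τf_nonneg_s6 hpsd
  have hdc : Continuous fun y => ‖G6.Pn n (y - p)‖ := by fun_prop
  have hpc : Continuous (G6.tpar T n) := by
    unfold G6.tpar
    refine hτc.sub (continuous_finsetSum _ fun i _ => ?_)
    fun_prop
  have hp0 : ∀ y, 0 ≤ G6.tpar T n y := fun y => by
    rw [← τpar_eq_s6 hn]; exact τpar_nonneg_s6 _ hpsd y
  have hsub : ball x₀ (8 * l) ⊆ ball x₀ (max C₁ 8 * l) :=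
    ball_subset_ball (mul_le_mul_of_nonneg_right (le_max_right _ _) hl.le)
  have hpk : 0 < pk E l := by unfold pk; positivity
  refine ⟨(Submodule.span ℝ (range n))ᗮ, p, ?_, ?_, ?_⟩
  · have e1 := (Submodule.span ℝ (range n)).finrank_add_finrank_orthogonal
    have e2 : finrank ℝ (Submodule.span ℝ (range n)) = 2 := by
      rw [finrank_span_eq_card hn.linearIndependent]; simp
    omega
  · have i1 := intOn_s6 hpc x₀ (max C₁ 8 * l)
    have i2 : IntegrableOn (fun y => ‖G6.Pn n (y - p)‖ ^ 2 * τf T y) (ball x₀ (max C₁ 8 * l)) :=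
      intOn_s6 ((hdc.pow 2).mul hτc) x₀ (max C₁ 8 * l)
    have e1 : ∀ y, τpar (Submodule.span ℝ (range n))ᗮ T y +
        (dd (Submodule.span ℝ (range n))ᗮ p y / l) ^ 2 * τf T y =
        G6.tpar T n y + (l ^ 2)⁻¹ * (‖G6.Pn n (y - p)‖ ^ 2 * τf T y) := by
      intro y; rw [τpar_eq_s6 hn, hdd]; field_simp
    simp only [e1]
    have b1 : C * (X ^ c₅ / L) * σ * pk E l + C * (X ^ c₅ / L) * σ * pk E l ≤
        X ^ (c₅ + 1) / L * σ * pk E l := by
      have : 0 < X ^ c₅ / L * σ * pk E l := by positivity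
      calc _ = (2 * C) * (X ^ c₅ / L * σ * pk E l) := by ring
        _ ≤ X * (X ^ c₅ / L * σ * pk E l) := mul_le_mul_of_nonneg_right (by linarith) this.le
        _ = _ := by ring
    have b2 : (l ^ 2)⁻¹ * ∫ y in ball x₀ (max C₁ 8 * l), ‖G6.Pn n (y - p)‖ ^ 2 * τf T y ≤
        C * (X ^ c₅ / L) * σ * pk E l := by
      calc _ ≤ (l ^ 2)⁻¹ * (C * (X ^ c₅ / L) * σ * l ^ finrank ℝ E) :=
            mul_le_mul_of_nonneg_left hgeo.dist (by positivity)
        _ = _ := by unfold pk; ring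
    have b3 : ∫ y in ball x₀ (max C₁ 8 * l), G6.tpar T n y ≤ C * (X ^ c₅ / L) * σ * pk E l :=
      hgeo.par
    calc _ ≤ ∫ y in ball x₀ (max C₁ 8 * l),
          (G6.tpar T n y + (l ^ 2)⁻¹ * (‖G6.Pn n (y - p)‖ ^ 2 * τf T y)) := by
          refine setIntegral_mono_set (i1.add (i2.const_mul _)) ?_ hsub.eventuallyLE
          refine Filter.Eventually.of_forall fun y => ?_
          have := hp0 y
          have := hτ0 y
          simp only [Pi.zero_apply]
          positivity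
      _ = (∫ y in ball x₀ (max C₁ 8 * l), G6.tpar T n y) +
          (l ^ 2)⁻¹ * ∫ y in ball x₀ (max C₁ 8 * l), ‖G6.Pn n (y - p)‖ ^ 2 * τf T y := by
          rw [integral_add i1 (i2.const_mul _), integral_const_mul]
      _ ≤ _ := by linarith
  · have hs2 : ball x₀ (8 * l) ∩ {y | r / 8 < dd (Submodule.span ℝ (range n))ᗮ p y} ⊆
        ball x₀ (max C₁ 8 * l) ∩ {y | C * (r / X) < ‖G6.Pn n (y - p)‖} := by
      refine inter_subset_inter hsub fun y hy => ?_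
      simp only [mem_ofPred_eq, hdd] at hy ⊢
      refine lt_of_le_of_lt ?_ hy
      rw [mul_div_assoc', div_le_div_iff₀ hX0 (by norm_num)]
      nlinarith
    have b1 : C * (1 / X ^ (cκ + 1 + N)) ≤ (X ^ cκ * X ^ N)⁻¹ := by
      rw [← pow_add, show cκ + 1 + N = cκ + N + 1 by omega, pow_succ, mul_one_div, ← one_div,
        div_le_div_iff₀ (by positivity) (by positivity)]
      have : 0 < X ^ (cκ + N) := by positivity
      nlinarith
    calc _ ≤ ∫ y in ball x₀ (max C₁ 8 * l) ∩ {y | C * (r / X) < ‖G6.Pn n (y - p)‖}, τf T y :=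
          setIntegral_mono_set ((intOn_s6 hτc _ _).mono_set inter_subset_left)
            (Filter.Eventually.of_forall hτ0) hs2.eventuallyLE
      _ ≤ C * (1 / X ^ (cκ + 1 + N)) * σ * pk E l := hgeo.far
      _ ≤ _ := mul_le_mul_of_nonneg_right (mul_le_mul_of_nonneg_right b1 hσ.le) hpk.le

end Pool.Agent.Lib.MP_8daebb_an.AS
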