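import Pool.Agent.Lib.MP_8daebb_an.PR.Pair

/-! Arithmetic of the error of the pair estimate. -/

namespace Pool.Agent.Lib.MP_8daebb_an.AS

theorem gg_le_s7 {X L σ κ g1 AΓ t0 : ℝ} (hX : 16 ≤ X) (hL : X ^ 2 ≤ L) (hσ : 0 < σ) (hκ0 : 0 ≤ κ)
    (hκ : κ ≤ (L ^ 4)⁻¹) (g0 : 0 ≤ g1) (hg : g1 ≤ κ * σ * X) (A0 : 0 ≤ AΓ) (hA : AΓ ≤ κ * X)
    (ht : Real.exp (-6 * L) ≤ t0) : 0 ≤ PR.gg g1 AΓ t0 ∧ PR.gg g1 AΓ t0 ≤ σ / L ^ 3 := by
  have hL8 : 8 ≤ L := by nlinarith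
  have ht0 : 0 < t0 := (Real.exp_pos _).trans_le ht
  have h0 : 0 ≤ Real.log (1 + 2 / t0) :=
    Real.log_nonneg (le_add_of_nonneg_right (by positivity))
  have h1 : Real.log (1 + 2 / t0) ≤ 7 * L := by
    rw [Real.log_le_iff_le_exp (by positivity), show 7 * L = L + 6 * L by ring, Real.exp_add]
    have h2 : 2 / t0 ≤ 2 * Real.exp (6 * L) := by
      calc 2 / t0 ≤ 2 / Real.exp (-6 * L) := by gcongr
        _ = _ := by rw [div_eq_mul_inv, ← Real.exp_neg]; congr 2; ring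
    have h3 : 1 ≤ Real.exp (6 * L) := Real.one_le_exp (by linarith)
    have h4 := Real.add_one_le_exp L
    nlinarith
  refine ⟨mul_nonneg (mul_nonneg g0 A0) (by linarith), ?_⟩
  calc PR.gg g1 AΓ t0 ≤ (κ * σ * X) * (κ * X) * (L * L) := by
        unfold PR.gg
        gcongr
        nlinarith
    _ = κ * κ * σ * X ^ 2 * L ^ 2 := by ring
    _ ≤ (L ^ 4)⁻¹ * (L ^ 4)⁻¹ * σ * L * L ^ 2 := by gcongr
    _ = σ / L ^ 5 := by field_simp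
    _ ≤ _ := by gcongr; linarith; norm_num

theorem perr_le_s7 {X L σ κ q E0 E1 g1 AΓ t0 A : ℝ} {N c₆ c₈ m k n b : ℕ} (hX : 16 ≤ X)
    (hL : L = X ^ (2 * N)) (hN : c₈ + 2 ≤ N) (hk : k + 2 = m) (hm : 3 ≤ m) (hσ : 0 < σ)
    (hκ : κ = (L ^ (m + 1))⁻¹) (hb : c₆ + c₈ + m + 6 ≤ b)
    (hq : q ^ n ≤ (X ^ (c₆ + c₈ + 6))⁻¹) (hE0 : E0 ≤ X * σ) (E10 : 0 ≤ E1)
    (hE1 : E1 ≤ X ^ (c₆ + 1) * (σ / L)) (g0 : 0 ≤ g1) (hg : g1 ≤ κ * σ * X) (hg' : g1 ≤ κ * X)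
    (A0 : 0 ≤ AΓ) (hA : AΓ ≤ κ * X) (ht : Real.exp (-6 * L) ≤ t0) (A0' : 0 ≤ A) (hA' : A ≤ X)
    (hlog : 4 * N * Real.log X ≤ X) (hexp : X * Real.exp (-(X / 1024)) ≤ √σ) (E00 : 0 ≤ E0) :
    PR.perr k n q (X ^ (N + b))⁻¹ (X ^ (c₆ + c₈ + 6))⁻¹ (1 / X) (L ^ 2)⁻¹ E0 E1 g1 AΓ t0 A
      (X ^ (m + 1) * √σ) ≤ 9 * ((X ^ (c₈ + 3))⁻¹ * (σ / L)) := by
  have hX1 : 1 ≤ X := by linarith
  have hX0 : 0 < X := by linarith
  have pw : ∀ {i j : ℕ}, i ≤ j → X ^ i ≤ X ^ j := fun h => pow_le_pow_right₀ hX1 h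
  have hL2 : X ^ 2 ≤ L := hL ▸ pw (by omega)
  have hXL : X ≤ L := by nlinarith
  have hL1 : 1 ≤ L := by linarith
  have hL0 : 0 < L := by linarith
  have hκ0 : 0 < κ := by rw [hκ]; positivity
  have hκ4 : κ ≤ (L ^ 4)⁻¹ := hκ ▸ inv_anti₀ (by positivity) (pow_le_pow_right₀ hL1 (by omega))
  obtain ⟨G0, hG⟩ := gg_le_s7 hX hL2 hσ hκ0.le hκ4 g0 hg A0 hA ht
  set u := σ / L with hu
  have u0 : 0 < u := by positivity
  have hG1 : PR.gg g1 AΓ t0 ≤ (X ^ (c₈ + 3))⁻¹ * u := by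
    refine hG.trans ?_
    have h1 : X ^ (c₈ + 3) ≤ L ^ 2 := by rw [hL, ← pow_mul]; exact pw (by omega)
    calc σ / L ^ 3 = (L ^ 2)⁻¹ * u := by rw [hu]; field_simp
      _ ≤ _ := by gcongr
  have hG2 : PR.gg g1 AΓ t0 ≤ u :=
    hG1.trans (mul_le_of_le_one_left u0.le (inv_le_one_of_one_le₀ (one_le_pow₀ hX1)))
  have hg2 : g1 ^ 2 ≤ κ ^ 2 * σ * L := by
    calc g1 ^ 2 = g1 * g1 := sq _
      _ ≤ (κ * σ * X) * (κ * X) := by gcongr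
      _ = κ ^ 2 * σ * X ^ 2 := by ring
      _ ≤ _ := by gcongr
  have hw : PR.ww k (1 / X) (L ^ 2)⁻¹ E0 E1 g1 AΓ t0 ≤ X ^ (c₆ + 3) * u := by
    have a1 : Real.log (1 / X / (L ^ 2)⁻¹) ≤ X := by
      refine le_trans (Real.log_le_log (by positivity) (show _ ≤ X ^ (4 * N) from ?_)) ?_
      · rw [div_inv_eq_mul, hL, ← pow_mul, show 2 * N * 2 = 4 * N by ring]
        exact mul_le_of_le_one_left (by positivity) ((div_le_one hX0).2 hX1)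
      · rw [Real.log_pow]; push_cast; exact hlog
    have a2 : E1 * (1 / (1 / X) + Real.log (1 / X / (L ^ 2)⁻¹) + 1) ≤ 3 * (X ^ (c₆ + 2) * u) := by
      calc _ ≤ E1 * (3 * X) := by rw [one_div_one_div]; gcongr; linarith
        _ ≤ X ^ (c₆ + 1) * u * (3 * X) := by gcongr
        _ = _ := by ring
    have a3 : (L ^ 2)⁻¹ * E0 ≤ u := by
      calc _ ≤ (L ^ 2)⁻¹ * (L * σ) := by gcongr; exact hE0.trans (by gcongr)
        _ = _ := by rw [hu]; field_simp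
    have a4 : g1 ^ 2 * (L ^ 2)⁻¹ ^ (-(k / 2 : ℝ)) ≤ u := by
      have e : (L ^ 2)⁻¹ ^ (-(k / 2 : ℝ)) = L ^ k := by
        rw [Real.inv_rpow (by positivity), Real.rpow_neg (by positivity), inv_inv,
          ← Real.rpow_natCast, ← Real.rpow_mul hL0.le, ← Real.rpow_natCast]
        congr 1; push_cast; ring
      have h1 : L ^ (k + 2) ≤ (L ^ (m + 1)) ^ 2 := by
        rw [← pow_mul]; exact pow_le_pow_right₀ hL1 (by omega)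
      calc _ ≤ κ ^ 2 * σ * L * L ^ k := by rw [e]; gcongr
        _ = L ^ (k + 2) / (L ^ (m + 1)) ^ 2 * u := by rw [hκ, hu]; field_simp; ring
        _ ≤ _ := mul_le_of_le_one_left u0.le ((div_le_one (by positivity)).2 h1)
    have a5 : u ≤ X ^ (c₆ + 2) * u := le_mul_of_one_le_left u0.le (one_le_pow₀ hX1)
    have a6 : 6 * (X ^ (c₆ + 2) * u) ≤ X * (X ^ (c₆ + 2) * u) := by gcongr; linarith
    unfold PR.ww
    calc _ ≤ X * (X ^ (c₆ + 2) * u) := by linarith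
      _ = _ := by ring
  have w0 : 0 ≤ PR.ww k (1 / X) (L ^ 2)⁻¹ E0 E1 g1 AΓ t0 := by
    have a1 : 0 ≤ Real.log (1 / X / (L ^ 2)⁻¹) := by
      refine Real.log_nonneg ?_
      rw [div_inv_eq_mul, div_mul_eq_mul_div, le_div_iff₀ hX0]; nlinarith
    unfold PR.ww
    positivity
  have t1 : (q ^ n + (X ^ (c₆ + c₈ + 6))⁻¹) * PR.ww k (1 / X) (L ^ 2)⁻¹ E0 E1 g1 AΓ t0 ≤
      2 * ((X ^ (c₈ + 3))⁻¹ * u) := by
    calc _ ≤ (2 * (X ^ (c₆ + c₈ + 6))⁻¹) * (X ^ (c₆ + 3) * u) :=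
          mul_le_mul (by linarith) hw w0 (by positivity)
      _ = _ := by field_simp; ring
  have t2 : (X ^ (N + b))⁻¹ ^ 2 / (X ^ (c₆ + c₈ + 6))⁻¹ * (E0 + PR.gg g1 AΓ t0) ≤
      2 * ((X ^ (c₈ + 3))⁻¹ * u) := by
    have a1 : u ≤ X * σ := by
      rw [hu]; exact (div_le_self hσ.le hL1).trans (le_mul_of_one_le_left hσ.le hX1)
    have a2 : X ^ (c₆ + c₈ + 6 + 1 + (c₈ + 3)) ≤ X ^ (2 * b) := pw (by omega)
    calc _ ≤ (X ^ (N + b))⁻¹ ^ 2 / (X ^ (c₆ + c₈ + 6))⁻¹ * (2 * (X * σ)) := by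
          gcongr; linarith
      _ = X ^ (c₆ + c₈ + 6 + 1 + (c₈ + 3)) / X ^ (2 * b) * (2 * ((X ^ (c₈ + 3))⁻¹ * u)) := by
          rw [hu, hL]; field_simp; ring
      _ ≤ _ := mul_le_of_le_one_left (by positivity) ((div_le_one (by positivity)).2 a2)
  have t4 : (X ^ (N + b))⁻¹ * (√E1 + g1) *
      (X ^ (m + 1) * √σ + A * Real.exp (-(1 / (1024 * (1 / X))))) ≤
      4 * ((X ^ (c₈ + 3))⁻¹ * u) := by
    have s0 : 0 < √σ := Real.sqrt_pos.2 hσ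
    have s2 : √σ ^ 2 = σ := Real.sq_sqrt hσ.le
    have e1 : (X ^ (c₆ + 1) * √σ / X ^ N) ^ 2 = X ^ (c₆ + 1) * (X ^ (c₆ + 1) * u) := by
      rw [div_pow, mul_pow, s2, hu, hL]; field_simp; ring
    have a0 : X ^ (c₆ + 1) * u ≤ X ^ (c₆ + 1) * (X ^ (c₆ + 1) * u) :=
      le_mul_of_one_le_left (by positivity) (one_le_pow₀ hX1)
    have a1 : √E1 ≤ X ^ (c₆ + 1) * √σ / X ^ N :=
      Real.sqrt_le_iff.2 ⟨by positivity, e1 ▸ hE1.trans a0⟩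
    have a2 : g1 ≤ X ^ (c₆ + 1) * √σ / X ^ N := by
      refine le_of_sq_le_sq (e1 ▸ le_trans ?_ ((le_mul_of_one_le_left u0.le
        (one_le_pow₀ hX1)).trans a0)) (by positivity)
      have h1 : κ ≤ L⁻¹ := hκ4.trans (inv_anti₀ hL0 (le_self_pow₀ hL1 (by norm_num)))
      calc _ ≤ _ := hg2
        _ ≤ L⁻¹ ^ 2 * σ * L := by gcongr
        _ = _ := by rw [hu]; field_simp
    have a3 : A * Real.exp (-(1 / (1024 * (1 / X)))) ≤ X ^ (m + 1) * √σ := by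
      rw [show 1 / (1024 * (1 / X)) = X / 1024 by field_simp]
      calc _ ≤ X * Real.exp (-(X / 1024)) := by gcongr
        _ ≤ _ := hexp.trans (le_mul_of_one_le_left s0.le (one_le_pow₀ hX1))
    have a4 : X ^ (c₆ + 1 + (m + 1) + (c₈ + 3)) ≤ X ^ b := pw (by omega)
    calc _ ≤ (X ^ (N + b))⁻¹ * (2 * (X ^ (c₆ + 1) * √σ / X ^ N)) * (2 * (X ^ (m + 1) * √σ)) := by
          gcongr <;> linarith
      _ = X ^ (c₆ + 1 + (m + 1) + (c₈ + 3)) / X ^ b * (4 * ((X ^ (c₈ + 3))⁻¹ * (√σ ^ 2 / L))) := by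
          rw [hL]; field_simp; ring
      _ ≤ _ := by
          rw [s2]
          exact mul_le_of_le_one_left (by positivity) ((div_le_one (by positivity)).2 a4)
  unfold PR.perr
  linarith

end Pool.Agent.Lib.MP_8daebb_an.AS
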