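import Pool.Agent.Lib.MP_8daebb_an.AS.S7pb
import Pool.Agent.Lib.MP_8daebb_an.AS.S7pc

/-! The pair estimate in the global setting. -/

open MeasureTheory Metric Set Module Filter
open scoped RealInnerProductSpace

namespace Pool.Agent.Lib.MP_8daebb_an.AS

open HK

variable {E : Type*} [NormedAddCommGroup E] [InnerProductSpace ℝ E] [FiniteDimensional ℝ E]
  [MeasurableSpace E] [BorelSpace E]

variable {ι : Type*} [Fintype ι]

theorem levels_s7 {q X : ℝ} {M e : ℕ} (hq : 0 < q) (hM : q ^ M ≤ 1 / 2) (hM1 : 1 ≤ M)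
    (he : 1 ≤ e) (hX : 2 ≤ X) :
    ∃ n : ℕ, 1 ≤ n ∧ q ^ n ≤ (X ^ e)⁻¹ ∧ (4 : ℝ) ^ n ≤ X ^ (4 * M * e) := by
  obtain ⟨s, h1, h2⟩ := exists_nat_pow_near (x := X) (y := 2) (by linarith) one_lt_two
  refine ⟨M * (e * (s + 1)), Nat.mul_pos hM1 (Nat.mul_pos he s.succ_pos), ?_, ?_⟩
  · calc _ = (q ^ M) ^ (e * (s + 1)) := pow_mul _ _ _
      _ ≤ (1 / 2) ^ (e * (s + 1)) := by gcongr
      _ = ((2 ^ (s + 1)) ^ e)⁻¹ := by rw [one_div, inv_pow, ← pow_mul, mul_comm]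
      _ ≤ _ := by gcongr
  · have h3 : (2 : ℝ) ^ (s + 1) ≤ X ^ 2 := by rw [pow_succ]; nlinarith
    calc (4 : ℝ) ^ (M * (e * (s + 1))) = (2 ^ (s + 1)) ^ (2 * M * e) := by
          rw [show (4 : ℝ) = 2 ^ 2 by norm_num, ← pow_mul, ← pow_mul]; congr 1; ring
      _ ≤ (X ^ 2) ^ (2 * M * e) := by gcongr
      _ = _ := by rw [← pow_mul]; congr 1; ring

theorem pi_lower (hm : 3 ≤ finrank ℝ E) (Q : ℕ) (C₁ C₂ c Cp : ℝ) (hCp : 1 ≤ Cp)
    (c₆ c₈ a b : ℕ) :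
    ∃ cθ N₇ : ℕ, 2 * a + b + 1 ≤ cθ ∧ ∀ N, N₇ ≤ N → ∀ A₃ : ℕ, ∃ X₀ : ℝ, ∀ X L : ℝ, X₀ ≤ X →
    L = X ^ (2 * N) → ∀ (D : Dat E ι) (ff Γ : E → ℝ) (η : ℝ),
    GS D ff Γ Q C₁ L η (L ^ (finrank ℝ E + 1))⁻¹ →
    ∀ (t T l r σ : ℝ) (z x₁ : E) (W : Submodule ℝ E),
    rho L ^ 2 ≤ t → t ≤ Real.exp (-5 * L) → 2 * ts L ≤ T → T * L ^ 6 ≤ r ^ 2 → 0 < l →
    r = l / (X ^ cθ * X ^ N) → l ≤ Real.exp (-L) → ‖z‖ ≤ 3 / 2 → (L ^ A₃)⁻¹ ≤ σ →
    finrank ℝ W + 2 = finrank ℝ E → l ^ 2 * P (16 * l ^ 2) D.τ z ≤ C₂ * σ →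
    (∫ y in ball z (5 * l), (τpar W (PT (ts L) D.T) y +
      (dd W x₁ y / l) ^ 2 * τf (PT (ts L) D.T) y)) ≤ X ^ c₆ / L * σ * pk E l →
    dd W x₁ z ≤ l → ∀ th : E → ℝ, PR.Th W c th → ∀ φ : ℝ → ℝ → ℝ,
    (∀ ρ, 0 < ρ → PR.Prof Cp ρ (X ^ a)⁻¹ (φ ρ)) →
    ∃ ρ : ℝ, 4 * (r / l) ≤ ρ ∧ ρ / ((X ^ a)⁻¹) ^ 2 ≤ (X ^ (N + b))⁻¹ ∧
      -((X ^ c₈ * L)⁻¹ * σ) ≤ ∑ i, ∑ j ∈ Finset.range Q, ∫ y,
        PR.sd (fun y => P t (D.u i j) (z - PR.pe W (z - x₁) + l • y)) (PR.fld W th (φ ρ)) y := by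
  obtain ⟨q, hq0, hq1, C, hC, hcore⟩ := PR.pair_core (E := E) (ι × Fin Q) Q c Cp hCp
  obtain ⟨Cl, hCl, htop⟩ := top_s7 (E := E) (ι := ι)
  obtain ⟨M, hM⟩ := exists_pow_lt_of_lt_one (show (0 : ℝ) < 1 / 2 by norm_num) hq1
  have hM' : q ^ (M + 1) ≤ 1 / 2 :=
    (pow_le_pow_of_le_one hq0.le hq1.le (Nat.le_succ M)).trans hM.le
  set m := finrank ℝ E with hmd
  set e := c₆ + c₈ + 6 with he
  set b' := b + c₆ + c₈ + m + 6 with hb'
  refine ⟨2 * a + b' + 4 * (M + 1) * e, c₈ + 2, by omega, fun N hN A₃ => ?_⟩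
  set o := 5 ^ m * om E with ho
  have ho0 : 0 < o := mul_pos (by positivity) om_pos
  have hcM := cM_pos (E := E)
  have hh := hd_nonneg (V := E)
  set a₂ := cM E * |C₂| with ha₂
  have ha0 : 0 ≤ a₂ := by positivity
  set K : ℝ := Fintype.card ι * Q ^ 3 with hK
  set n' : ℝ := Fintype.card ι * (Q + 1) with hn'
  have hK0 : 0 ≤ K := by positivity
  have hn0 : 0 ≤ n' := by positivity
  obtain ⟨L₀, hL₀⟩ := eventually_atTop.1
    (ev_exp_le_inv_pow 1 (A₃ + (m + 1)) (c := 1 / 2) (by norm_num))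
  obtain ⟨X₀, hX₀⟩ := eventually_atTop.1 ((((((eventually_ge_atTop (16 : ℝ)).and
    (eventually_ge_atTop L₀)).and ((eventually_ge_atTop Cl).and (eventually_ge_atTop (9 * C)))).and
    (((eventually_ge_atTop (K * (a₂ + m * (a₂ + o)))).and
      (eventually_ge_atTop (K * (128 + m * (a₂ + o))))).and
     ((eventually_ge_atTop (n' * (a₂ + o))).and
      (eventually_ge_atTop (n' * (cM E * |C₁| + o)))))).and
    ((eventually_ge_atTop ((2 + hd E) * 2 ^ hd E * (Fintype.card ι * Q ^ 2 * (2 * |C₁|)) +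
      n' * (|C₁| + 3))).and
     (eventually_ge_atTop ((1 + m) * (8 ^ hd E * (2 ^ hd E * Real.exp 1) * |C₂|) + m)))).and
    ((ev_pow_le_exp 1 (4 * N) one_pos).and
     (ev_exp_le_inv_pow 1 (N * A₃ + 1) (c := 1 / 1024) (by norm_num))))
  refine ⟨X₀, fun X L hX hL D ff Γ η h t T l r σ z x₁ W hρt ht hT hTr hl hr hlL hz hσ hdim hP hpar
    hdz th hth φ hφ => ?_⟩
  obtain ⟨⟨⟨⟨⟨x16, xL⟩, xCl, xC⟩, ⟨k1, k2⟩, k3, k4⟩, k5, k6⟩, x1, x2⟩ := hX₀ X hX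
  have hX1 : 1 ≤ X := by linarith
  have hX0 : 0 < X := by linarith
  have pw : ∀ {i j : ℕ}, i ≤ j → X ^ i ≤ X ^ j := fun h => pow_le_pow_right₀ hX1 h
  have hXL : X ≤ L := hL ▸ le_self_pow₀ hX1 (by omega)
  have hL1 : 1 ≤ L := by linarith
  have hL0 : 0 < L := by linarith
  have hσ0 : 0 < σ := lt_of_lt_of_le (by positivity) hσ
  set κ := (L ^ (m + 1))⁻¹ with hκ
  have κ0 : 0 < κ := by positivity
  have κL : κ ≤ L⁻¹ := inv_anti₀ hL0 (le_self_pow₀ hL1 (by omega))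
  have κ1 : κ ≤ 1 := κL.trans (inv_le_one_of_one_le₀ hL1)
  have hkz0 : kz L ≤ (L ^ A₃)⁻¹ * κ := by
    rw [hκ, ← mul_inv, ← pow_add]
    refine le_trans (le_of_eq ?_) (hL₀ L (xL.trans hXL))
    rw [kz, one_mul]; congr 1; ring
  have hkz : kz L ≤ κ * σ := hkz0.trans (by rw [mul_comm]; gcongr)
  have hkz' : kz L ≤ κ :=
    hkz0.trans (mul_le_of_le_one_left κ0.le (inv_le_one_of_one_le₀ (one_le_pow₀ hL1)))
  have kz0 : 0 < kz L := Real.exp_pos _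
  have hρ := h.st.ρ_pos
  have ht0 : 0 < t := lt_of_lt_of_le (by positivity) hρt
  have hts : 0 < ts L := Real.exp_pos _
  have tts : t < ts L := ht.trans_lt (Real.exp_lt_exp.2 (by linarith))
  have hrl : r / l = (X ^ (2 * a + b' + 4 * (M + 1) * e + N))⁻¹ := by
    rw [hr, pow_add X _ N]; field_simp
  have hr0 : 0 < r / l := by rw [hrl]; positivity
  have hr1 : r ≤ l := (div_le_one hl).1 (hrl ▸ inv_le_one_of_one_le₀ (one_le_pow₀ hX1))
  have hl2 : 2 * ts L * L ≤ l ^ 2 := by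
    have h1 : 0 < r := by simpa [hl.ne'] using mul_pos hr0 hl
    have h2 : L ≤ L ^ 6 := le_self_pow₀ hL1 (by norm_num)
    calc _ ≤ T * L ^ 6 := by gcongr; linarith
      _ ≤ r ^ 2 := hTr
      _ ≤ _ := by gcongr
  have e5 : Real.exp (-L) ≤ 1 / 5 := by
    refine (Real.exp_le_exp.2 (show -L ≤ -4 by linarith)).trans ?_
    rw [Real.exp_neg, one_div]
    exact inv_anti₀ (by norm_num) (by linarith [Real.add_one_le_exp (4 : ℝ)])
  have h7 : C7 D ff Γ Q C₁ L η κ t l (X ^ c₆ / L * σ) z x₁ W := by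
    refine ⟨h, κ0.le, ht0, tts, hl, hlL.trans e5, ?_,
      by linarith only [hl2, tts, hρt, mul_le_mul_of_nonneg_left hL1 hts.le], hz, hdz, hdim, hpar⟩
    have h1 : t ≤ Real.exp (-L) * Real.exp (-L) := by
      rw [← Real.exp_add]; exact ht.trans (Real.exp_le_exp.2 (by linarith))
    have h2 : l ^ 2 ≤ Real.exp (-L) * Real.exp (-L) := by rw [sq]; gcongr
    have h3 := Real.exp_pos (-L)
    unfold tm
    linarith only [h1, h2, h3, mul_le_mul_of_nonneg_left e5 h3.le]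
  have hTop := htop D ff Γ Q C₁ L η κ t l _ z x₁ W h7
    (by linarith only [hl2, mul_le_mul_of_nonneg_right (xCl.trans hXL) hts.le, mul_pos hts hL0])
  have P0 : 0 ≤ l ^ 2 * P (16 * l ^ 2) D.τ z :=
    mul_nonneg (sq_nonneg _) (P_nonneg (by positivity) h.τ_nonneg z)
  have P1 : l ^ 2 * P (16 * l ^ 2) D.τ z ≤ |C₂| * σ := hP.trans (by gcongr; exact le_abs_self _)
  have P2 : cM E * (l ^ 2 * P (16 * l ^ 2) D.τ z) ≤ a₂ * σ := by rw [ha₂, mul_assoc]; gcongr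
  have c1 : C₁ ≤ |C₁| := le_abs_self _
  have γ0 := h7.gm_nonneg
  have γ1 : gm7 D L κ l z ≤ κ * σ * (a₂ + o) := by
    have h1 := mul_le_mul_of_nonneg_left P2 κ0.le
    have h2 := mul_le_mul_of_nonneg_right hkz ho0.le
    unfold gm7; linarith
  have γ2 : gm7 D L κ l z ≤ κ * (cM E * |C₁| + o) := by
    have h1 := mul_le_mul_of_nonneg_left (mul_le_mul_of_nonneg_left
      ((h.dens16 hl z).trans c1) hcM.le) κ0.le
    have h2 := mul_le_mul_of_nonneg_right hkz' ho0.le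
    unfold gm7; linarith
  have A1 : n' * (κ * C₁ + 3 * kz L) ≤ κ * (n' * (|C₁| + 3)) := by
    have h1 := mul_le_mul_of_nonneg_left c1 κ0.le
    have h2 : n' * (κ * C₁ + 3 * kz L) ≤ n' * (κ * |C₁| + 3 * κ) := by gcongr
    linarith
  have A2 : 0 ≤ (2 + hd E) * 2 ^ hd E * (Fintype.card ι * Q ^ 2 * (2 * |C₁|)) := by positivity
  obtain ⟨n, hn1, hqn, h4n⟩ := levels_s7 (e := e) hq0 hM' (by omega) (by omega)
    (show 2 ≤ X by linarith)
  have hθ : 4 ^ n * (r / l) / ((X ^ a)⁻¹) ^ 2 ≤ (X ^ (N + b'))⁻¹ := by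
    calc _ ≤ X ^ (4 * (M + 1) * e) * (r / l) / ((X ^ a)⁻¹) ^ 2 := by gcongr
      _ = _ := by rw [hrl]; field_simp; ring
  have hθ1 : (X ^ (N + b'))⁻¹ ≤ 1 / 16 := by
    rw [one_div]
    exact inv_anti₀ (by norm_num) (x16.trans (le_self_pow₀ hX1 (by omega)))
  have hAf : ∀ x : ℝ, 0 ≤ x → x ≤ x / ((X ^ a)⁻¹) ^ 2 := fun x hx =>
    le_div_self hx (by positivity)
      (pow_le_one₀ (by positivity) (inv_le_one_of_one_le₀ (one_le_pow₀ hX1)))
  have s0 : 0 < √σ := Real.sqrt_pos.2 hσ0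
  obtain ⟨a', ha', hres⟩ := hcore W (us D Q t (z - PR.pe W (z - x₁)) l) (cfs ι Q) _ th
    (fun a' => φ (4 ^ (a' + 1) * (r / l))) n (r / l) (X ^ a)⁻¹ (X ^ (N + b'))⁻¹ (X ^ e)⁻¹ (1 / X)
    (L ^ 2)⁻¹ _ _ _ _ _ _ (X ^ (m + 1) * √σ) (h.cb_us ht0 3) (abs_cfs_le Q) hTop
    (h.abs_lap_us_le ht0) hth (fun a' _ => hφ _ (by positivity)) hn1 hr0
    (by have := hAf (4 ^ n * (r / l)) (by positivity); rw [pow_succ]; linarith) hθ
    (by linarith) (by positivity) (by positivity)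
    (by rw [one_div]; exact inv_anti₀ hX0 (hXL.trans (le_self_pow₀ hL1 two_ne_zero))) ((div_le_one hX0).2 hX1)
    (by positivity) fun p y hy => by
      refine le_of_sq_le_sq ((h7.norm_fderiv_P_us (c := 8 * X) (by positivity)
        ((div_le_one hX0).2 hX1) (by field_simp; rfl) p hy).trans ?_) (by positivity)
      have h1 : (8 * X) ^ hd E ≤ 8 ^ hd E * X ^ m := by
        rw [Real.mul_rpow (by norm_num) hX0.le, ← Real.rpow_natCast]
        gcongr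
        unfold hd
        linarith [Nat.cast_nonneg (α := ℝ) m]
      have h2 : kz L ≤ X ^ m * σ :=
        hkz.trans (mul_le_mul_of_nonneg_right (κ1.trans (one_le_pow₀ hX1)) hσ0.le)
      calc _ ≤ (1 + m * 1) * (8 ^ hd E * X ^ m * (2 ^ hd E * Real.exp 1) * (|C₂| * σ)) +
            m * (X ^ m * σ) := by gcongr
        _ = ((1 + m) * (8 ^ hd E * (2 ^ hd E * Real.exp 1) * |C₂|) + m) * (X ^ m * σ) := by ring
        _ ≤ X * (X ^ m * σ) := by gcongr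
        _ = X ^ (m + 1) * σ := by ring
        _ ≤ X ^ ((m + 1) * 2) * σ := by gcongr; omega
        _ = _ := by rw [mul_pow, Real.sq_sqrt hσ0.le, pow_mul]
  have hu : κ * σ ≤ X ^ c₆ / L * σ := by
    gcongr
    rw [div_eq_mul_inv]
    exact κL.trans (le_mul_of_one_le_left (by positivity) (one_le_pow₀ hX1))
  have herr := perr_le_s7 (q := q) (n := n) (b := b') (c₆ := c₆) x16 hL hN hdim hm hσ0 hκ
    (by omega) hqn
    (E0 := K * (cM E * (l ^ 2 * P (16 * l ^ 2) D.τ z) + m * gm7 D L κ l z)) (by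
      have h1 : gm7 D L κ l z ≤ 1 * σ * (a₂ + o) := γ1.trans (by gcongr)
      calc _ ≤ K * (a₂ * σ + m * (1 * σ * (a₂ + o))) := by gcongr
        _ = K * (a₂ + m * (a₂ + o)) * σ := by ring
        _ ≤ _ := by gcongr)
    (E1 := K * (128 * (X ^ c₆ / L * σ) + m * gm7 D L κ l z)) (by positivity) (by
      have h1 : gm7 D L κ l z ≤ X ^ c₆ / L * σ * (a₂ + o) := γ1.trans (by gcongr)
      calc _ ≤ K * (128 * (X ^ c₆ / L * σ) + m * (X ^ c₆ / L * σ * (a₂ + o))) := by gcongr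
        _ = K * (128 + m * (a₂ + o)) * (X ^ c₆ / L * σ) := by ring
        _ ≤ X * (X ^ c₆ / L * σ) := by gcongr
        _ = _ := by ring)
    (g1 := n' * gm7 D L κ l z) (by positivity) (by
      calc _ ≤ n' * (κ * σ * (a₂ + o)) := by gcongr
        _ = κ * σ * (n' * (a₂ + o)) := by ring
        _ ≤ _ := by gcongr) (by
      calc _ ≤ n' * (κ * (cM E * |C₁| + o)) := by gcongr
        _ = κ * (n' * (cM E * |C₁| + o)) := by ring
        _ ≤ _ := by gcongr)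
    hTop.AΓ0 (A1.trans (by gcongr; linarith)) (t0 := rho L ^ 2 / l ^ 2) (by
      refine le_trans (le_of_eq ?_) (le_div_self (sq_nonneg _) (by positivity)
        (pow_le_one₀ hl.le (by linarith [h7.l5])))
      rw [rho, ← Real.exp_nat_mul]; congr 1; push_cast; ring)
    hTop.A0 (by
      have h1 : κ * (n' * (|C₁| + 3)) ≤ 1 * (n' * (|C₁| + 3)) := by gcongr
      have h2 : (2 + hd E) * 2 ^ hd E * (Fintype.card ι * Q ^ 2 * (2 * C₁)) ≤
        (2 + hd E) * 2 ^ hd E * (Fintype.card ι * Q ^ 2 * (2 * |C₁|)) := by gcongr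
      linarith) (by
      have h1 := Real.log_le_log (by positivity) x1
      rw [one_mul, one_mul, Real.log_exp, Real.log_pow] at h1
      exact_mod_cast h1) (by
      refine Real.le_sqrt_of_sq_le (le_trans ?_ hσ)
      rw [one_mul, show 1 / 1024 * X = X / 1024 by ring] at x2
      calc _ ≤ (X * (X ^ (N * A₃ + 1))⁻¹) ^ 2 := by gcongr
        _ = _ := by rw [hL]; field_simp; ring) (by positivity)
  refine ⟨4 ^ (a' + 1) * (r / l), ?_, ?_, ?_⟩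
  · gcongr
    exact le_self_pow₀ (by norm_num) (by omega)
  · refine le_trans ?_ (hθ.trans (inv_anti₀ (by positivity) (pw (by omega))))
    gcongr
    · norm_num
    · omega
  · rw [← sum_prod_s7 fun i j => ∫ y, PR.sd (fun y => P t (D.u i j)
      (z - PR.pe W (z - x₁) + l • y)) (PR.fld W th (φ (4 ^ (a' + 1) * (r / l)))) y]
    refine le_trans (neg_le_neg ?_) hres
    have h1 : 9 * C ≤ X ^ 3 := xC.trans (le_self_pow₀ hX1 (by norm_num))
    calc _ ≤ C * (9 * ((X ^ (c₈ + 3))⁻¹ * (σ / L))) := mul_le_mul_of_nonneg_left herr hC.le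
      _ = 9 * C / X ^ 3 * ((X ^ c₈ * L)⁻¹ * σ) := by field_simp; ring
      _ ≤ _ := mul_le_of_le_one_left (by positivity) ((div_le_one (by positivity)).2 h1)

end Pool.Agent.Lib.MP_8daebb_an.AS
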