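import Pool.Agent.Lib.MP_8daebb_an.AS.S1
import Pool.Agent.Lib.MP_8daebb_an.AS.S7p
import Pool.Agent.Lib.MP_8daebb_an.PR.Raw
import Pool.Agent.Lib.MP_8daebb_an.PR.Prof

/-! The cell inequality (section 7). -/

open MeasureTheory Metric Set Module
open scoped RealInnerProductSpace

namespace Pool.Agent.Lib.MP_8daebb_an.AS

open HK

theorem pow_le_exp_s7 (p : ℕ) {L : ℝ} (hL : (2 : ℝ) ^ (p + 1) * (p + 1).factorial ≤ L) :
    L ^ p ≤ Real.exp (L / 2) := by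
  have hf : (0 : ℝ) < (p + 1).factorial := by exact_mod_cast Nat.factorial_pos _
  have h2 : (0 : ℝ) < 2 ^ (p + 1) := by positivity
  have hL0 : 0 < L := lt_of_lt_of_le (by positivity) hL
  have h := Real.pow_div_factorial_le_exp (L / 2) (by positivity) (p + 1)
  refine le_trans ?_ h
  rw [le_div_iff₀ hf, div_pow, le_div_iff₀ h2, pow_succ L p, mul_assoc]
  refine mul_le_mul_of_nonneg_left ?_ (by positivity)
  linarith [mul_comm ((p + 1).factorial : ℝ) (2 ^ (p + 1))]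

theorem inv_pow_le_s7 {X : ℝ} (hX : 1 ≤ X) {i j : ℕ} (h : i ≤ j) : (X ^ j)⁻¹ ≤ (X ^ i)⁻¹ :=
  inv_anti₀ (by positivity) (pow_le_pow_right₀ hX h)

theorem num_s7 {X L κ s C : ℝ} {N c₆ c₇ cθ m : ℕ} (hX : 4 ≤ X) (hC : 16 * C ≤ X) (hC0 : 0 < C)
    (hL : L = X ^ (2 * N)) (hκ : κ = (L ^ (m + 1))⁻¹) (hm : 1 ≤ m) (hN : 3 * cθ + c₇ + 3 ≤ N)
    (hs : s ≤ (X ^ cθ * X ^ N) ^ 3 / L ^ 3) :
    (X ^ (c₇ + 1) * L)⁻¹ + C * ((X ^ (c₆ + c₇ + 2))⁻¹ * (X ^ c₆ / L + κ) +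
      ((X ^ (N + (c₇ + 3)))⁻¹) ^ 2 + κ +
      X / L * ((X ^ (N + (c₇ + 3)))⁻¹ + (X ^ N)⁻¹ + κ) + s) ≤ (X ^ c₇ * L)⁻¹ := by
  have hX1 : 1 ≤ X := by linarith
  have hX0 : 0 < X := by linarith
  set w := (X ^ (c₇ + 2 + 2 * N))⁻¹ with hw
  have hw0 : 0 < w := by positivity
  have hκ' : κ = (X ^ (2 * N * (m + 1)))⁻¹ := by rw [hκ, hL, ← pow_mul]
  have hκ0 : 0 < κ := by rw [hκ']; positivity
  have hκw : κ ≤ w := by
    rw [hκ']
    exact inv_pow_le_s7 hX1 (by nlinarith)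
  have h1 : (X ^ (c₆ + c₇ + 2))⁻¹ * (X ^ c₆ / L) = w := by
    rw [hw, hL]
    field_simp
    ring
  have h2 : (X ^ (c₆ + c₇ + 2))⁻¹ * κ ≤ w :=
    (mul_le_of_le_one_left hκ0.le (inv_le_one_of_one_le₀ (one_le_pow₀ hX1))).trans hκw
  have h3 : ((X ^ (N + (c₇ + 3)))⁻¹) ^ 2 ≤ w := by
    rw [inv_pow, ← pow_mul]
    exact inv_pow_le_s7 hX1 (by omega)
  have h4 : X / L * (X ^ N)⁻¹ ≤ w := by
    obtain ⟨N', rfl⟩ : ∃ N', N = N' + 1 := ⟨N - 1, by omega⟩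
    have e : X / L * (X ^ (N' + 1))⁻¹ = (X ^ (N' + 2 * (N' + 1)))⁻¹ := by
      rw [hL]
      field_simp
      ring
    rw [e]
    exact inv_pow_le_s7 hX1 (by omega)
  have hXL : 0 ≤ X / L := by rw [hL]; positivity
  have h5 : X / L * (X ^ (N + (c₇ + 3)))⁻¹ ≤ w :=
    (mul_le_mul_of_nonneg_left (inv_pow_le_s7 hX1 (by omega)) hXL).trans h4
  have h6 : X / L * κ ≤ w := by
    refine (mul_le_of_le_one_left hκ0.le ?_).trans hκw
    rw [hL, div_le_one (by positivity)]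
    simpa using pow_le_pow_right₀ hX1 (show 1 ≤ 2 * N by omega)
  have h7 : s ≤ w := by
    refine hs.trans ?_
    obtain ⟨N', rfl⟩ : ∃ N', N = N' + cθ := ⟨N - cθ, by omega⟩
    have e : (X ^ cθ * X ^ (N' + cθ)) ^ 3 / L ^ 3 = (X ^ (3 * N'))⁻¹ := by
      rw [hL]
      field_simp
      ring
    rw [e]
    exact inv_pow_le_s7 hX1 (by omega)
  have e1 : (X ^ (c₇ + 1) * L)⁻¹ = X * w := by
    rw [hw, hL]
    field_simp
    ring
  have e2 : (X ^ c₇ * L)⁻¹ = X * X * w := by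
    rw [hw, hL]
    field_simp
    ring
  rw [e1, e2]
  have h8 : (X ^ (c₆ + c₇ + 2))⁻¹ * (X ^ c₆ / L + κ) + ((X ^ (N + (c₇ + 3)))⁻¹) ^ 2 + κ +
      X / L * ((X ^ (N + (c₇ + 3)))⁻¹ + (X ^ N)⁻¹ + κ) + s ≤ 8 * w := by
    rw [mul_add, mul_add, mul_add]
    linarith
  have h9 := mul_le_mul_of_nonneg_left h8 hC0.le
  have h10 : C * (8 * w) ≤ X * w := by nlinarith
  have h11 : 2 * (X * w) ≤ X * X * w := by nlinarith [mul_pos hX0 hw0]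
  linarith

theorem last_s7 {T L l r ρ Z : ℝ} (hL : 0 < L) (hl : 0 < l) (hZ : 0 < Z) (hr : r = l / Z)
    (hT : T * L ^ 6 ≤ r ^ 2) (hρ : r / l ≤ ρ) : √T / l / ρ ^ 4 ≤ Z ^ 3 / L ^ 3 := by
  have hr0 : 0 < r := by rw [hr]; positivity
  have h1 : √T ≤ r / L ^ 3 := by
    refine Real.sqrt_le_iff.2 ⟨by positivity, ?_⟩
    rw [div_pow, le_div_iff₀ (by positivity), ← pow_mul]
    exact hT
  have h2 : 0 < r / l := by positivity
  calc √T / l / ρ ^ 4 ≤ r / L ^ 3 / l / (r / l) ^ 4 := by gcongr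
    _ = Z ^ 3 / L ^ 3 := by
      rw [hr]
      field_simp

variable {E : Type*} [NormedAddCommGroup E] [InnerProductSpace ℝ E] [FiniteDimensional ℝ E]
  [MeasurableSpace E] [BorelSpace E]

omit [MeasurableSpace E] [BorelSpace E] in
theorem sd_zero_s7 (u : E → ℝ) (W : Submodule ℝ E) {th : E → ℝ} (h : ∀ y, th y = 0) (φ : ℝ → ℝ)
    (y : E) : PR.sd u (PR.fld W th φ) y = 0 := by
  have e : PR.fld W th φ = fun _ => 0 := funext fun y => by simp [PR.fld, h y]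
  rw [e]
  simp [PR.sd, tr]

variable {ι : Type*} [Fintype ι]

theorem cell (hm : 3 ≤ finrank ℝ E) (Q : ℕ) (C₁ C₂ C₃ : ℝ) (hC₃ : 1 ≤ C₃) (c₆ c₇ : ℕ) :
    ∃ (cθ N₇ : ℕ) (C : ℝ), 0 < C ∧ ∀ N, N₇ ≤ N → ∀ A₃ : ℕ, ∃ X₀ : ℝ, ∀ X L : ℝ, X₀ ≤ X →
    L = X ^ (2 * N) → ∀ (D : Dat E ι) (ff Γ : E → ℝ) (η : ℝ),
    GS D ff Γ Q C₁ L η (L ^ (finrank ℝ E + 1))⁻¹ →
    ∀ (t T l r σ E₁ E₂ : ℝ) (z x₁ : E) (W : Submodule ℝ E) (Err Err₂ : E → ℝ),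
    rho L ^ 2 ≤ t → t ≤ Real.exp (-5 * L) → 2 * ts L ≤ T → T * L ^ 6 ≤ r ^ 2 →
    l ^ 2 ≤ T * L ^ 20 → 0 < l →
    r = l / (X ^ cθ * X ^ N) → l ≤ Real.exp (-L) → ‖z‖ ≤ 3 / 2 → (L ^ A₃)⁻¹ ≤ σ →
    finrank ℝ W + 2 = finrank ℝ E → l ^ 2 * P (16 * l ^ 2) D.τ z ≤ C₂ * σ →
    (∫ y in ball z (5 * l), (τpar W (PT (ts L) D.T) y +
      (dd W x₁ y / l) ^ 2 * τf (PT (ts L) D.T) y)) ≤ X ^ c₆ / L * σ * pk E l →
    (∫ y in ball z (5 * l) ∩ {y | r / 8 < dd W x₁ y}, τf (PT (ts L) D.T) y) ≤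
      (X ^ N)⁻¹ * σ * pk E l →
    BM Err → (∀ y, 0 ≤ Err y) →
    (∀ y ∈ ball z (2 * l), ∀ e : E, ‖e‖ = 1 → C₃ * P T D.β y - Err y ≤
      P T (fun w => See D.ε D.T e w - (D.sm t).Su Q e w) y) →
    (∫ y in ball z (2 * l) ∩ {y | r ≤ dd W x₁ y}, Err y) ≤ E₁ →
    BM Err₂ → (∀ y, 0 ≤ Err₂ y) →
    (∀ y ∈ ball z (2 * l), P T D.β y ≤ X / L * P T D.τ y + Err₂ y) →
    (∫ y in ball z (2 * l), Err₂ y) ≤ E₂ →
    ∫ y, kk l z y * P T D.β y ≤ (X ^ c₇ * L)⁻¹ * σ * pk E l + C * (E₁ + E₂) +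
      C * (∫ y, kk l z y * np (P T D.β y)) +
      (X ^ N)⁻¹ * ∫ y in ball z (2 * l), np (P T D.β y) := by
  obtain ⟨Cp, hCp, hprof⟩ := PR.exists_prof
  obtain ⟨c, hth⟩ := PR.th_thk (E := E)
  obtain ⟨C, L₀, hC, hraw⟩ := PR.cell_raw E ι C₁ C₂ C₃ c Cp hC₃
  obtain ⟨cθ, N₇, hcθ, hpi⟩ := pi_lower (ι := ι) hm Q C₁ C₂ c Cp hCp c₆ (c₇ + 1) (c₆ + c₇ + 2)
    (c₇ + 3)
  refine ⟨cθ, max N₇ (3 * cθ + c₇ + 3), C, hC, fun N hN A₃ => ?_⟩
  obtain ⟨X₁, hX₁⟩ := hpi N ((le_max_left _ _).trans hN) A₃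
  have hN' : 3 * cθ + c₇ + 3 ≤ N := (le_max_right _ _).trans hN
  set p := finrank ℝ E + 1 + A₃ with hp
  refine ⟨max (max X₁ L₀) (max (16 * C + 8) ((2 : ℝ) ^ (p + 1) * (p + 1).factorial)), ?_⟩
  intro X L hX hL D ff Γ η hG t T l r σ E₁ E₂ z x₁ W Err Err₂ ht1 ht2 hT1 hT2 _ hl hr hlL hz hσ
    hW hden hpar hcore hE1 hE2 hE3 hE4 hF1 hF2 hF3 hF4
  have hXa : X₁ ≤ X := ((le_max_left _ _).trans (le_max_left _ _)).trans hX
  have hXb : L₀ ≤ X := ((le_max_right _ _).trans (le_max_left _ _)).trans hX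
  have hXc : 16 * C + 8 ≤ X := ((le_max_left _ _).trans (le_max_right _ _)).trans hX
  have hXd : (2 : ℝ) ^ (p + 1) * (p + 1).factorial ≤ X :=
    ((le_max_right _ _).trans (le_max_right _ _)).trans hX
  have hX8 : 8 ≤ X := by linarith
  have hX1 : 1 ≤ X := by linarith
  have hX0 : 0 < X := by linarith
  have hXL : X ≤ L := by
    rw [hL]
    simpa using pow_le_pow_right₀ hX1 (show 1 ≤ 2 * N by omega)
  have hL1 : 1 ≤ L := hX1.trans hXL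
  have hL0 : 0 < L := by linarith
  have hexp : L ^ p ≤ Real.exp (L / 2) := pow_le_exp_s7 p (hXd.trans hXL)
  set κ := (L ^ (finrank ℝ E + 1))⁻¹ with hκ
  have hκ0 : 0 < κ := by positivity
  have hσ0 : 0 < σ := lt_of_lt_of_le (by positivity) hσ
  have hkz : kz L ≤ κ * (L ^ A₃)⁻¹ := by
    rw [hκ, ← mul_inv, ← pow_add, kz, neg_div, Real.exp_neg]
    exact inv_anti₀ (by positivity) hexp
  have hkz' : kz L ≤ κ * σ := hkz.trans (mul_le_mul_of_nonneg_left hσ hκ0.le)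
  have hZ : 1 ≤ X ^ cθ * X ^ N := one_le_mul_of_one_le_of_one_le (one_le_pow₀ hX1) (one_le_pow₀ hX1)
  have hr0 : 0 < r := by rw [hr]; positivity
  have hch : PR.CH D ff Γ Q C₁ C₂ L η κ t T l r σ (X ^ c₆ / L) (X ^ N)⁻¹ z x₁ W := by
    refine ⟨hG, lt_of_lt_of_le (pow_pos hG.st.ρ_pos 2) ht1, ?_, hT1, hT2, hr0, ?_, hlL, hz, hW,
      hden, hpar, hcore, by positivity, by positivity, hκ0,
      inv_le_one_of_one_le₀ (one_le_pow₀ hL1), hkz', le_trans ?_ hkz'⟩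
    · have h1 : kz L ≤ κ := hkz.trans
        (mul_le_of_le_one_right hκ0.le (inv_le_one_of_one_le₀ (one_le_pow₀ hL1)))
      have h2 : Real.exp (-5 * L) ≤ kz L * ts L := by
        rw [kz, ts, ← Real.exp_add]
        exact Real.exp_le_exp.2 (by linarith)
      have h3 : 0 < ts L := Real.exp_pos _
      have h4 : kz L * ts L ≤ κ * T := mul_le_mul h1 (by linarith) h3.le hκ0.le
      linarith
    · rw [hr]
      exact div_le_self hl.le hZ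
    · rw [big, kz, ← Real.exp_add]
      refine Real.exp_le_exp.2 ?_
      have h1 : (8 : ℝ) ^ 5 ≤ L ^ 5 := pow_le_pow_left₀ (by norm_num) (hX8.trans hXL) 5
      have h2 : (8 : ℝ) ^ 5 * L ≤ L ^ 5 * L := mul_le_mul_of_nonneg_right h1 hL0.le
      have h3 : L ^ 5 * L = L ^ 6 := by ring
      norm_num at h2
      linarith
  set Af := (X ^ (c₆ + c₇ + 2))⁻¹ with hAf
  have hAf0 : 0 < Af := by positivity
  have hAf1 : Af ≤ 1 / 2 := by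
    rw [hAf, one_div]
    refine inv_anti₀ (by norm_num) (le_trans (by linarith) (le_self_pow₀ hX1 (by omega)))
  have hφ : ∀ ρ : ℝ, ∃ φ : ℝ → ℝ, 0 < ρ → PR.Prof Cp ρ Af φ := fun ρ => by
    by_cases h : 0 < ρ
    · obtain ⟨φ, hφ⟩ := hprof ρ Af h hAf0 hAf1
      exact ⟨φ, fun _ => hφ⟩
    · exact ⟨fun _ => 0, fun h' => absurd h' h⟩
  choose φ hφ using hφ
  have hth' := hth W (l⁻¹ • (z - PR.foot W x₁ z)) (PR.pa_foot W x₁ z l)
  have hrl : 0 < r / l := by positivity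
  have key : ∃ ρ : ℝ, 4 * (r / l) ≤ ρ ∧ ρ / Af ^ 2 ≤ (X ^ (N + (c₇ + 3)))⁻¹ ∧
      -((X ^ (c₇ + 1) * L)⁻¹ * σ) ≤ ∑ i, ∑ j ∈ Finset.range Q, ∫ y,
        PR.sd (fun y => P t (D.u i j) (PR.foot W x₁ z + l • y))
          (PR.fld W (PR.thk W (l⁻¹ • (z - PR.foot W x₁ z))) (φ ρ)) y := by
    rcases le_total (dd W x₁ z) l with hd | hd
    · exact hX₁ X L hXa hL D ff Γ η hG t T l r σ z x₁ W ht1 ht2 hT1 hT2 hl hr hlL hz hσ hW hden
        hpar hd _ hth' φ hφ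
    · refine ⟨4 * (r / l), le_rfl, ?_, ?_⟩
      · obtain ⟨d, hd'⟩ := Nat.exists_eq_add_of_le hcθ
        have e : 4 * (r / l) / Af ^ 2 = 4 / X ^ (d + 1) * (X ^ (N + (c₇ + 3)))⁻¹ := by
          rw [hr, hAf, hd']
          field_simp
          ring
        rw [e]
        refine mul_le_of_le_one_left (by positivity) ?_
        rw [div_le_one (by positivity)]
        exact le_trans (by linarith) (le_self_pow₀ hX1 (by omega))
      · have h0 : ∀ y, PR.thk W (l⁻¹ • (z - PR.foot W x₁ z)) y = 0 :=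
          PR.thk_eq_zero (PR.pa_foot W x₁ z l) (by
            rw [PR.norm_foot hl, le_div_iff₀ hl, one_mul]
            exact hd)
        simp only [sd_zero_s7 _ W h0, integral_zero, Finset.sum_const_zero]
        exact neg_nonpos.2 (by positivity)
  obtain ⟨ρ, hρ1, hρ2, hρ3⟩ := key
  have hρ4 : r / l ≤ ρ := by linarith
  have hθ : (X ^ (N + (c₇ + 3)))⁻¹ ≤ 1 / 8 := by
    rw [one_div]
    exact inv_anti₀ (by norm_num) (hX8.trans (le_self_pow₀ hX1 (by omega)))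
  have main := hraw L (hXb.trans hXL) D ff Γ Q η κ t T l r σ _ _ z x₁ W hch (φ ρ) ρ Af _ _
    (X / L) E₁ E₂ Err Err₂ hth' (hφ ρ (hrl.trans_le hρ4)) hρ4 hAf0 (by linarith) hρ2 hθ
    (by positivity) hρ3 hE1 hE2 hE3 hE4 hF1 hF2 hF3 hF4
  have hnum := num_s7 (c₆ := c₆) (by linarith) (by linarith) hC hL hκ (by omega) hN'
    (last_s7 hL0 hl (by positivity) hr hT2 hρ4)
  have hpk : 0 < pk E l := by unfold pk; positivity
  have h1 := mul_le_mul_of_nonneg_right (mul_le_mul_of_nonneg_right hnum hσ0.le) hpk.le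
  have h2 : C * (X ^ (N + (c₇ + 3)))⁻¹ ≤ (X ^ N)⁻¹ := by
    rw [pow_add, mul_inv, mul_comm]
    rw [mul_assoc]
    refine mul_le_of_le_one_right (by positivity) ?_
    rw [inv_mul_le_iff₀ (by positivity), mul_one]
    exact le_trans (by linarith) (le_self_pow₀ hX1 (by omega))
  have h3 : 0 ≤ ∫ y in ball z (2 * l), np (P T D.β y) :=
    integral_nonneg fun y => le_max_right _ _
  have h4 := mul_le_mul_of_nonneg_right h2 h3
  linarith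

end Pool.Agent.Lib.MP_8daebb_an.AS
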