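import Pool.Agent.Lib.MP_8daebb_an.AS.M1
import Pool.Agent.Lib.MP_8daebb_an.AS.S4
import Pool.Agent.Lib.MP_8daebb_an.AS.S5
import Pool.Agent.Lib.MP_8daebb_an.AS.S6
import Pool.Agent.Lib.MP_8daebb_an.AS.S7

/-! The inequality in a good cell. -/

open MeasureTheory Metric Set Module Filter
open scoped RealInnerProductSpace

namespace Pool.Agent.Lib.MP_8daebb_an.AS

open HK

variable {E : Type*} [NormedAddCommGroup E] [InnerProductSpace ℝ E] [FiniteDimensional ℝ E]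
  [MeasurableSpace E] [BorelSpace E] {ι : Type*} [Fintype ι]

omit [FiniteDimensional ℝ E] [MeasurableSpace E] [BorelSpace E] in
theorem one_le_two_hd : (1 : ℝ) ≤ 2 ^ hd E := Real.one_le_rpow (by norm_num) hd_nonneg

theorem thick_sub_m2 (W : Submodule ℝ E) (x₁ : E) {z x₀ : E} {l r : ℝ} (hr : 0 < r) (hrl : r ≤ l)
    (hx : ‖x₀ - z‖ ≤ 2 * l) :
    cthickening (r / 2) (ball z (2 * l) ∩ {y | r ≤ dd W x₁ y}) ⊆
      ball x₀ (8 * l) ∩ {y | r / 8 < dd W x₁ y} := by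
  intro y hy
  have h1 := cthickening_subset_thickening' (δ₂ := 3 * r / 4) (by positivity) (by linarith) _ hy
  obtain ⟨w, ⟨hw1, hw2⟩, hw⟩ := mem_thickening_iff.1 h1
  have h2 := (lipschitz_dd W x₁).dist_le_mul w y
  rw [Real.dist_eq, NNReal.coe_one, one_mul, dist_comm] at h2
  rw [mem_ball] at hw1
  rw [mem_ofPred_eq] at hw2
  have h3 : dist z x₀ ≤ 2 * l := by rw [dist_comm, dist_eq_norm]; exact hx
  refine ⟨?_, ?_⟩
  · rw [mem_ball]
    linarith [dist_triangle4 y w z x₀]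
  · rw [mem_ofPred_eq]
    linarith [le_abs_self (dd W x₁ w - dd W x₁ y)]

/-- The mass of a cell that is not low and passes the first test is seen in the double ball. -/
theorem mu_link (A₃ : ℕ) : ∀ᶠ L : ℝ in atTop, ∀ (D : Dat E ι) (ff Γ : E → ℝ) (Q : ℕ)
    (C₁ η κ X s r l l' : ℝ) (N cθ cΞ : ℕ) (z : E), 2 ≤ finrank ℝ E → GS D ff Γ Q C₁ L η κ →
    Sc X L s r l l' N cθ cΞ → (L ^ (A₃ + 1))⁻¹ ≤ l ^ 2 * P (2 * l ^ 2) (D.τb L) z →
    l ^ finrank ℝ E * P (4 * l ^ 2) (D.τb L) z ≤ X ^ 3 * (∫ y, kk l z y * P s (D.τb L) y) →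
    ∫ y, kk l z y * P s (D.τb L) y ≤ 2 * ∫ y in ball z (2 * l), D.τb L y := by
  filter_upwards [ev_tail (2 ^ hd E * om E), ev_pow_m (2 * 2 ^ hd E) 1 one_pos (A₃ + 2)]
    with L h1 h2 D ff Γ Q C₁ η κ X s r l l' N cθ cΞ z hm h hs hlow hF
  have l0 := hs.l0
  have s0 := hs.s0
  have L0 := hs.L0
  have X0 := hs.X0
  set μ := ∫ y, kk l z y * P s (D.τb L) y with hμ
  have a1 : μ ≤ ∫ y in ball z l, P s (D.τb L) y :=
    kk_le_ball l0 z (h.bm_τb.P s0) fun y => P_nonneg s0.le h.τb0 y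
  have a2 := lev h.bm_τb h.τb0 h.τb_le s0 (measurableSet_ball (x := z) (ε := l)) isBounded_ball
    (d := l / 2) (by positivity)
  have a3 : ∫ y in cthickening (l / 2) (ball z l), D.τb L y ≤ ∫ y in ball z (2 * l), D.τb L y := by
    refine setIntegral_mono_set (h.bm_τb.integrableOn isBounded_ball)
      (Eventually.of_forall h.τb0) (LE.le.eventuallyLE ?_)
    rw [cthickening_ball (by positivity) l0]
    exact closedBall_subset_ball (by linarith)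
  have a4 : L ^ 3 ≤ (l / 2) ^ 2 / (8 * s) := by
    rw [le_div_iff₀ (by positivity)]
    have b1 := hs.l_sq_ge
    have b2 : 8 * L ^ 3 ≤ L ^ 6 := by
      have : (8 : ℝ) ≤ L ^ 3 := by nlinarith [hs.L_ge, sq_nonneg L, mul_pos L0 L0]
      nlinarith [pow_pos L0 3]
    nlinarith
  have a5 := h1 _ a4
  rw [real_ball z l0] at a2
  have a6 : 2 ^ hd E * Real.exp (-((l / 2) ^ 2 / (8 * s))) * big L * (l ^ finrank ℝ E * om E) ≤
      ng' L * l ^ finrank ℝ E := by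
    have := mul_le_mul_of_nonneg_right a5 (pow_pos l0 (finrank ℝ E)).le
    linarith
  have a7 : P (2 * l ^ 2) (D.τb L) z ≤ 2 ^ hd E * P (4 * l ^ 2) (D.τb L) z :=
    P_le_of_le_mul h.bm_τb h.τb0 (by positivity) (by nlinarith [sq_nonneg l]) (by linarith) z
  have pk0 := pk_pos_m (E := E) l0
  have a8 : (L ^ (A₃ + 1))⁻¹ * pk E l ≤ 2 ^ hd E * (L * μ) := by
    calc (L ^ (A₃ + 1))⁻¹ * pk E l ≤ l ^ 2 * (2 ^ hd E * P (4 * l ^ 2) (D.τb L) z) * pk E l := by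
          refine mul_le_mul_of_nonneg_right (hlow.trans ?_) pk0.le
          exact mul_le_mul_of_nonneg_left a7 (sq_nonneg l)
      _ = 2 ^ hd E * (l ^ finrank ℝ E * P (4 * l ^ 2) (D.τb L) z) := by
          rw [← sq_mul_pk (E := E) l0]; ring
      _ ≤ 2 ^ hd E * (L * μ) := by
          refine mul_le_mul_of_nonneg_left (hF.trans ?_) (by positivity)
          refine mul_le_mul_of_nonneg_right (hs.pow_le_L (by have := hs.hN; omega)) ?_
          exact integral_nonneg fun y => mul_nonneg (kk_nonneg _ _ _) (P_nonneg s0.le h.τb0 y)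
  have a9 : l ^ finrank ℝ E ≤ pk E l := by
    rw [← sq_mul_pk (E := E) l0]
    refine mul_le_of_le_one_left pk0.le (pow_le_one₀ l0.le ?_)
    linarith [hs.l_le_exp, hs.exp_le]
  have a10 : ng' L * (2 * 2 ^ hd E * L ^ (A₃ + 2)) ≤ 1 := by
    calc ng' L * (2 * 2 ^ hd E * L ^ (A₃ + 2)) ≤ ng' L * Real.exp (1 * L) :=
          mul_le_mul_of_nonneg_left h2 (ng'_pos L).le
      _ ≤ 1 := by
          unfold ng'
          rw [← Real.exp_add]
          exact Real.exp_le_one_iff.2 (by nlinarith [hs.L_ge])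
  have a11 : pk E l ≤ 2 ^ hd E * L ^ (A₃ + 2) * μ := by
    rw [inv_mul_le_iff₀ (by positivity)] at a8
    calc pk E l ≤ _ := a8
      _ = _ := by ring
  have μ0 : 0 ≤ μ :=
    integral_nonneg fun y => mul_nonneg (kk_nonneg _ _ _) (P_nonneg s0.le h.τb0 y)
  have a12 : ng' L * l ^ finrank ℝ E ≤ μ / 2 := by
    calc ng' L * l ^ finrank ℝ E ≤ ng' L * (2 ^ hd E * L ^ (A₃ + 2) * μ) :=
          mul_le_mul_of_nonneg_left (a9.trans a11) (ng'_pos L).le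
      _ = ng' L * (2 * 2 ^ hd E * L ^ (A₃ + 2)) * (μ / 2) := by ring
      _ ≤ 1 * (μ / 2) := mul_le_mul_of_nonneg_right a10 (by positivity)
      _ = _ := one_mul _
  linarith

theorem fin_m2 {X L Cc Ci H σ p μ n₁ n₂ n₃ n₄ a : ℝ} {N : ℕ} (hX : 2 ≤ X) (hL : L = X ^ (2 * N))
    (hN : 4 ≤ N) (hCc : 0 < Cc) (hCi : 0 < Ci) (hH : 0 < H) (xC : 3 * (Cc + 1) * H ≤ X)
    (xlog : Ci * Real.log L ≤ X) (sp : σ * p ≤ H * X ^ 3 * μ) (σ0 : 0 < σ) (p0 : 0 < p)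
    (μ0 : 0 ≤ μ) (h₁ : 0 ≤ n₁) (h₂ : 0 ≤ n₂) (h₃ : 0 ≤ n₃)
    (key : a ≤ (X ^ 6 * L)⁻¹ * σ * p + Cc * (Ci * Real.log L / √L * ((X ^ 8 * X ^ N)⁻¹ * σ * p) +
      (L ^ 2)⁻¹ * σ * p + Ci * n₂ + n₃) + Cc * n₁ + n₄) :
    a ≤ (X ^ 2 * L)⁻¹ * μ + Cc * (Ci + 1) * n₁ + n₄ + Cc * (Ci + 1) * (n₂ + n₃) := by
  have X0 : 0 < X := by linarith
  have X1 : 1 ≤ X := by linarith
  have L0 : 0 < L := by rw [hL]; positivity
  have sq : √L = X ^ N := by rw [hL, mul_comm, pow_mul, Real.sqrt_sq (pow_pos X0 _).le]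
  have q1 : Ci * Real.log L / √L * ((X ^ 8 * X ^ N)⁻¹ * σ * p) ≤
      (X ^ 6 * L)⁻¹ / 2 * (σ * p) := by
    rw [sq, mul_assoc _ σ, ← mul_assoc]
    refine mul_le_mul_of_nonneg_right ?_ (by positivity)
    calc Ci * Real.log L / X ^ N * (X ^ 8 * X ^ N)⁻¹ ≤ X / X ^ N * (X ^ 8 * X ^ N)⁻¹ := by gcongr
      _ = (X ^ 6 * L)⁻¹ / X := by rw [hL, two_mul, pow_add]; field_simp
      _ ≤ _ := by gcongr
  have q2 : (L ^ 2)⁻¹ * σ * p ≤ (X ^ 6 * L)⁻¹ / 2 * (σ * p) := by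
    rw [mul_assoc]
    refine mul_le_mul_of_nonneg_right ?_ (by positivity)
    rw [div_eq_mul_inv, ← mul_inv]
    refine inv_anti₀ (by positivity) ?_
    have b1 : X ^ 7 ≤ L := hL ▸ pow_le_pow_right₀ X1 (by omega)
    have b2 : X ^ 6 * 2 ≤ X ^ 7 := by
      rw [pow_succ X 6]; exact mul_le_mul_of_nonneg_left hX (pow_pos X0 6).le
    calc X ^ 6 * L * 2 = X ^ 6 * 2 * L := by ring
      _ ≤ L * L := mul_le_mul_of_nonneg_right (b2.trans b1) L0.le
      _ = _ := (pow_two L).symm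
  have q3 : (Cc + 1) * ((X ^ 6 * L)⁻¹ * (σ * p)) ≤ (X ^ 2 * L)⁻¹ * μ := by
    calc (Cc + 1) * ((X ^ 6 * L)⁻¹ * (σ * p))
        ≤ (Cc + 1) * ((X ^ 6 * L)⁻¹ * (H * X ^ 3 * μ)) := by gcongr
      _ = (Cc + 1) * H / X * ((X ^ 2 * L)⁻¹ * μ) := by field_simp
      _ ≤ 1 * ((X ^ 2 * L)⁻¹ * μ) := by
          refine mul_le_mul_of_nonneg_right ?_ (by positivity)
          rw [div_le_one X0]
          have := mul_pos (show 0 < Cc + 1 by linarith) hH
          linarith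
      _ = _ := one_mul _
  have q4 := mul_le_mul_of_nonneg_left (add_le_add q1 q2) hCc.le
  have q5 := mul_nonneg (mul_nonneg hCc.le hCi.le) h₁
  have q6 := mul_nonneg (mul_nonneg hCc.le hCi.le) h₃
  have q7 := mul_nonneg hCc.le h₂
  linarith

theorem hard_cell (hm : 3 ≤ finrank ℝ E) (hG : G6.GeomStmt E) (Q : ℕ) (C₁ : ℝ) (A A₃ : ℕ) :
    ∃ (N cθ cΞ : ℕ) (C : ℝ), 4 ≤ N ∧ cθ ≤ N ∧ cΞ + 1 ≤ N ∧ 0 < C ∧ ∀ᶠ X : ℝ in atTop,
    ∀ (L : ℝ) (D : Dat E ι) (ff Γ : E → ℝ),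
    GS D ff Γ Q C₁ L (L ^ A)⁻¹ (L ^ (finrank ℝ E + 1))⁻¹ →
    ∀ s r l l', Sc X L s r l l' N cθ cΞ → ∀ z : E, ‖z‖ ≤ 1 →
    (L ^ A₃)⁻¹ ≤ l ^ 2 * P (2 * l ^ 2) D.τ z →
    l ^ finrank ℝ E * P (4 * l ^ 2) (D.τb L) z ≤ X ^ 3 * (∫ y, kk l z y * P s (D.τb L) y) →
    (∀ u, u = l ∨ u = l' → P (2 * u ^ 2) (D.fe L (L ^ (A₃ + 2))⁻¹ s) z ≤
      X ^ 6 / L * (P (4 * u ^ 2) (D.τb L) z + (L ^ (A₃ + 2))⁻¹ / u ^ 2)) →
    (∀ y ∈ ball z (2 * l), P (s + ts L) D.β y ≤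
      X / L * P (s + ts L) D.τ y + D.er L (s + ts L) y) →
    ∫ y, kk l z y * P s (D.βb L) y ≤ (X ^ 2 * L)⁻¹ * (∫ y, kk l z y * P s (D.τb L) y) +
      C * (∫ y, kk l z y * np (P s (D.βb L) y)) +
      (X ^ N)⁻¹ * (∫ y in ball z (2 * l), np (P s (D.βb L) y)) +
      C * ((∫ y in ball z (3 * l), D.ee y) + ∫ y in ball z (2 * l), D.er L (s + ts L) y) := by
  obtain ⟨A₀, hA₀, hg⟩ := geom hG
  obtain ⟨Cg, C₂, hCg, hC₂, hw⟩ := winC (E := E) A₀ (by linarith)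
  obtain ⟨C₃, Ci, Li, hC₃, hCi, hi⟩ :=
    iso_cell (ι := ι) (by omega : 2 ≤ finrank ℝ E) Q C₁ (2 ^ hd E * C₂) A (A₃ + 2)
  obtain ⟨cθ, N₇, Cc, hCc, hc⟩ := cell (ι := ι) hm Q C₁ (2 ^ hd E * C₂) C₃ hC₃ 11 6
  obtain ⟨cΞ, N₆, hg⟩ := hg Cg hCg 10 cθ 8
  obtain ⟨N, hN⟩ : ∃ N, N = N₆ + N₇ + cθ + cΞ + 6 := ⟨_, rfl⟩
  obtain ⟨X₆, hg⟩ := hg N (by omega)
  obtain ⟨X₇, hc⟩ := hc N (by omega) (A₃ + 2)
  have hH := one_le_two_hd (E := E)
  refine ⟨N, cθ, cΞ, Cc * (Ci + 1), by omega, by omega, by omega, by positivity, ?_⟩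
  have hT := tendsto_XL (N := N) (by omega)
  filter_upwards [eventually_ge_atTop X₆, eventually_ge_atTop X₇, eventually_ge_atTop A₀,
    eventually_ge_atTop (3 * (Cc + 1) * (C₂ * 2 ^ hd E)), ev_log Ci N,
    hT.eventually (eventually_ge_atTop Li), hT.eventually (mu_link (E := E) (ι := ι) A₃),
    hT.eventually (ev_pow_m 1 1 one_pos (A₃ + 3))]
    with X x6 x7 xA xC xlog xLi xmu xe L D ff Γ h s r l l' hs z hz hlow hF1 hF2 hp
  rw [← hs.hL] at xlog xLi xmu xe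
  have l0 := hs.l0
  have s0 := hs.s0
  have L0 := hs.L0
  have X0 := hs.X0
  have X1 := hs.X1
  have r0 := hs.r0
  have XL : X ≤ L := by simpa using hs.pow_le_L (k := 1) (by omega)
  have c1 : C₂ * 2 ^ hd E ≤ X := by
    have b := mul_pos (show 0 < C₂ by linarith) (show 0 < 2 ^ hd E by positivity)
    linarith only [xC, b, mul_pos hCc b]
  have c2 : 2 * C₂ ≤ X := by
    have b := mul_pos (show 0 < C₂ by linarith) (show 0 < 2 ^ hd E by positivity)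
    linarith only [xC, b, mul_pos hCc b, mul_le_mul_of_nonneg_left hH (show 0 ≤ C₂ by linarith)]
  have c3 : 2 ^ hd E ≤ X := by linarith [mul_le_mul_of_nonneg_right hC₂ (show 0 ≤ 2 ^ hd E by positivity)]
  have tsl : ts L ≤ l ^ 2 := by linarith [hs.s_le_l_sq, hs.hs]
  have hlow' : (L ^ (A₃ + 1))⁻¹ ≤ l ^ 2 * P (2 * l ^ 2) (D.τb L) z := by
    have b1 := mul_le_mul_of_nonneg_left (h.Pτ_le_m (s := 2 * l ^ 2) (by linarith [sq_nonneg l]) z)
      (sq_nonneg l)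
    have b2 : 0 ≤ l ^ 2 * P (2 * l ^ 2) (D.τb L) z :=
      mul_nonneg (sq_nonneg l) (P_nonneg (by positivity) h.τb0 z)
    rw [pow_succ, mul_inv, mul_inv_le_iff₀ L0]
    linarith [mul_le_mul_of_nonneg_left (c3.trans XL) b2]
  have hmu := xmu D ff Γ Q C₁ _ _ X s r l l' N cθ cΞ z (by omega) h hs hlow' hF1
  set μ := ∫ y, kk l z y * P s (D.τb L) y with hμ
  have μ0 : 0 ≤ μ :=
    integral_nonneg fun y => mul_nonneg (kk_nonneg _ _ _) (P_nonneg s0.le h.τb0 y)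
  have e4 : 4 * (s * L ^ 40 / 4) = s * L ^ 40 := by ring
  have X11 : X ^ 11 ≤ L := hs.pow_le_L (by omega)
  have kz1 : kz L ≤ 1 := Real.exp_le_one_iff.2 (by linarith)
  obtain ⟨x₀, σ, hx₀, hcell, hσ1, hσ2, hσ3⟩ := hw (D.εb L) (P (ts L) ff) (D.Tb L) C₁ (rho L) (big L)
    (kz L) (tm L / 2) (L ^ (A₃ + 2))⁻¹ (L ^ (A₃ + 1))⁻¹ s (s * L ^ 40 / 4) (r / X) l l'
    (2 * X ^ 3) (X ^ 6 / L) (X ^ 10 / L) z (h.bar hs.L1)
    (by unfold tm; linarith [hs.exp_le]) (by positivity)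
    (by rw [pow_succ L (A₃ + 1), mul_inv, mul_comm C₂, mul_assoc]
        refine mul_le_of_le_one_right (by positivity) ?_
        rw [inv_mul_le_iff₀ L0]; linarith)
    s0 (by positivity)
    (by rw [div_pow, le_div_iff₀ (by positivity), hs.r_sq]
        have b1 : X ^ 2 ≤ L := hs.pow_le_L (by omega)
        have b2 : L ≤ L ^ 6 := le_self_pow₀ hs.L1 (by norm_num)
        linarith only [mul_le_mul_of_nonneg_left (b1.trans b2) s0.le, mul_pos s0 (pow_pos L0 6)])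
    (by linarith [hs.s_le_l_sq]) l0 hs.l_le
    (by have b1 : (A₀ * l') ^ 2 ≤ (X * l') ^ 2 :=
          pow_le_pow_left₀ (mul_nonneg (by linarith) hs.l'0.le)
            (mul_le_mul_of_nonneg_right xA hs.l'0.le) 2
        have b2 := hs.Xl'_sq_le
        have b3 := hs.mul_le_top (c := 4) (k := 10) (by norm_num) (by norm_num)
        have b4 : 256 * (L ^ 9 * s) ≤ L * (L ^ 9 * s) :=
          mul_le_mul_of_nonneg_right hs.L_ge (by positivity)
        linarith)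
    (by unfold tm; linarith [hs.top_le, Real.exp_pos (-L)]) (by linarith)
    (by linarith [one_le_pow₀ (n := 3) X1]) (by positivity)
    (by rw [← mul_div_assoc]
        refine div_le_div_of_nonneg_right ?_ L0.le
        linarith [mul_le_mul_of_nonneg_right c2 (pow_pos X0 9).le])
    (by rw [← mul_div_assoc, div_le_one L0]
        linarith [mul_le_mul_of_nonneg_right c2 (pow_pos X0 10).le, pow_pos X0 10])
    (by rw [div_inv_eq_mul, le_div_iff₀ L0]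
        have b1 : s * L ^ 40 / 4 ≤ Real.exp (-L) := by linarith [hs.top_le, Real.exp_pos (-L)]
        have b2 : Real.exp (-L) * L ^ (A₃ + 3) ≤ 1 := by
          rw [Real.exp_neg, inv_mul_le_iff₀ (Real.exp_pos _)]
          simpa using xe
        calc kz L * (s * L ^ 40 / 4) * L ^ (A₃ + 2) * L
            ≤ 1 * Real.exp (-L) * L ^ (A₃ + 2) * L := by gcongr
          _ = Real.exp (-L) * L ^ (A₃ + 3) := by ring
          _ ≤ X ^ 6 := b2.trans (one_le_pow₀ X1))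
    (by rw [h.τf_Tb]; exact hlow')
    (by rw [h.τf_Tb]
        linarith [mul_le_mul_of_nonneg_left hmu (pow_pos X0 3).le])
    (by rw [h.τf_Tb, e4]; exact hF2)
  rw [h.τf_Tb] at hσ2 hσ3
  have σ0 : 0 < σ := hcell.σ0
  have hσ : (L ^ (A₃ + 2))⁻¹ ≤ σ := by
    rw [pow_succ L (A₃ + 1), mul_inv, mul_inv_le_iff₀ L0]
    linarith [mul_le_mul_of_nonneg_left (show C₂ ≤ L by linarith) σ0.le]
  have hup : l ^ 2 * P (16 * l ^ 2) D.τ z ≤ 2 ^ hd E * C₂ * σ := by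
    have b1 := mul_le_mul_of_nonneg_left (h.Pτ_le_m (s := 16 * l ^ 2) (by linarith [sq_nonneg l]) z)
      (sq_nonneg l)
    linarith [mul_le_mul_of_nonneg_left hσ3 (show 0 ≤ 2 ^ hd E by positivity)]
  obtain ⟨W, x₁, hW, g1, g2⟩ := hg X L x6 hs.hL _ _ _ _ σ l r x₀ hs.r_eq (hs.hl' ▸ hcell)
    (h.bar hs.L1).c_T
  have hb := h.bar hs.L1
  have pk0 := pk_pos_m (E := E) l0
  have cdd : Continuous (dd W x₁) := (lipschitz_dd W x₁).continuous
  have mS : MeasurableSet (ball z (2 * l) ∩ {y | r ≤ dd W x₁ y}) :=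
    measurableSet_ball.inter (measurableSet_le measurable_const cdd.measurable)
  have iτ : IntegrableOn (τf (D.Tb L)) (ball x₀ (8 * l) ∩ {y | r / 8 < dd W x₁ y}) :=
    hb.bm_τ.integrableOn (isBounded_ball.subset inter_subset_left)
  have sub5 : ball z (5 * l) ⊆ ball x₀ (8 * l) :=
    ball_subset_ball' (by rw [dist_comm, dist_eq_norm]; linarith)
  obtain ⟨t, Err, t1, t2, bE, E0, hiso, hE⟩ := hi L xLi D ff Γ h z l r (s + ts L) σ
    ((X ^ 8 * X ^ N)⁻¹ * σ * pk E l) _ (by linarith) (by linarith [hs.hs]) hs.T6 hs.T20 r0 hs.r_le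
    hs.l_le_exp hσ hup mS inter_subset_left
    (by refine le_trans ?_ g2
        rw [show P (ts L) D.τ = τf (D.Tb L) from h.τf_Tb.symm]
        exact setIntegral_mono_set iτ (Eventually.of_forall hb.τ_nonneg)
          (thick_sub_m2 W x₁ r0 hs.r_le hx₀).eventuallyLE)
  have key := hc X L x7 hs.hL D ff Γ _ h t (s + ts L) l r σ _ _ z x₁ W Err (D.er L (s + ts L))
    t1 t2 (by linarith [hs.hs]) hs.T6 hs.T20 l0 hs.r_eq hs.l_le_exp (by linarith) hσ hW hup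
    (by refine le_trans ?_ g1
        refine setIntegral_mono_set ?_ (Eventually.of_forall fun y => add_nonneg
          (hb.τpar_nonneg W y) (mul_nonneg (sq_nonneg _) (hb.τ_nonneg y))) sub5.eventuallyLE
        exact (((hb.c_τpar W).add (((cdd.div_const l).pow 2).mul hb.c_τ)).continuousOn.integrableOn_compact
          (isCompact_closedBall x₀ (8 * l))).mono_set ball_subset_closedBall)
    (by refine le_trans (le_trans ?_ g2) ?_
        · exact setIntegral_mono_set iτ (Eventually.of_forall hb.τ_nonneg)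
            (inter_subset_inter_left _ sub5).eventuallyLE
        · gcongr
          exact le_mul_of_one_le_left (by positivity) (one_le_pow₀ X1))
    bE E0
    (fun y hy e he => hiso y e (by
      have := norm_le_norm_add_norm_sub' y z
      rw [mem_ball, dist_eq_norm] at hy
      linarith [hs.l_le_exp, hs.exp_le]) he)
    hE (h.bm_er (by linarith [ts_pos L])) (h.er0 L0.le (by linarith [ts_pos L])) hp le_rfl
  simp only [← h.P_βb s0] at key
  have sp : σ * pk E l ≤ C₂ * 2 ^ hd E * X ^ 3 * μ := by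
    have b1 : P (2 * l ^ 2) (D.τb L) z ≤ 2 ^ hd E * P (4 * l ^ 2) (D.τb L) z :=
      P_le_of_le_mul h.bm_τb h.τb0 (by positivity) (by linarith [sq_nonneg l]) (by linarith) z
    calc σ * pk E l ≤ C₂ * (l ^ 2 * (2 ^ hd E * P (4 * l ^ 2) (D.τb L) z)) * pk E l := by
          refine mul_le_mul_of_nonneg_right (hσ2.trans ?_) pk0.le
          gcongr
      _ = C₂ * 2 ^ hd E * (l ^ finrank ℝ E * P (4 * l ^ 2) (D.τb L) z) := by
          rw [← sq_mul_pk (E := E) l0]; ring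
      _ ≤ C₂ * 2 ^ hd E * (X ^ 3 * μ) := by gcongr
      _ = _ := by ring
  exact fin_m2 hs.hX hs.hL (by omega) hCc hCi (by positivity) xC xlog sp σ0 pk0 μ0
    (integral_nonneg fun y => mul_nonneg (kk_nonneg _ _ _) (np_nonneg _))
    (integral_nonneg h.ee_nonneg) (integral_nonneg (h.er0 L0.le (by linarith [ts_pos L]))) key

end Pool.Agent.Lib.MP_8daebb_an.AS
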