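import Pool.Agent.Lib.MP_8daebb_an.AS.S3a

/-! The first pointwise bounds (section 3). -/

open MeasureTheory Metric Set Module
open scoped RealInnerProductSpace

namespace Pool.Agent.Lib.MP_8daebb_an.AS

open HK

variable {E : Type*} [NormedAddCommGroup E] [InnerProductSpace ℝ E] [FiniteDimensional ℝ E]
  [MeasurableSpace E] [BorelSpace E]

variable {ι : Type*} [Fintype ι]

theorem rho_sq_s3 (L : ℝ) : rho L ^ 2 = Real.exp (-6 * L) := by
  rw [rho, sq, ← Real.exp_add]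
  congr 1
  ring

theorem exp_cmp_s3 {K a b c : ℝ} (h : K ≤ Real.exp c) (hab : a + c ≤ b) :
    K * Real.exp a ≤ Real.exp b := by
  refine (mul_le_mul_of_nonneg_right h (Real.exp_pos _).le).trans ?_
  rw [← Real.exp_add]
  exact Real.exp_le_exp.2 (by linarith)

theorem com_s3 (C₁ Cw : ℝ) (A : ℕ) : ∀ᶠ L : ℝ in Filter.atTop, 22 ≤ L ∧
    (2 * L) ^ finrank ℝ E * Real.exp (1 / 8) * (L ^ (A + finrank ℝ E + 1))⁻¹ ≤ (L ^ A)⁻¹ ∧
    2 * 2 ^ hd E * 3 ^ hd E * max C₁ 1 * Real.exp (-(L ^ 2 / 8)) ≤ (L ^ 6)⁻¹ ∧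
    L * rho L ≤ 1 / 2 ∧ 2 * rho L ^ 2 ≤ tm L ∧
    8 ^ hd E + Cw * (2 ^ hd E * (2 * max C₁ 1 + 3)) ≤ L ∧ 20 * (Cw + 1) ≤ L := by
  filter_upwards [Filter.eventually_ge_atTop 22,
    Filter.eventually_ge_atTop (2 ^ finrank ℝ E * Real.exp (1 / 8)),
    ev_pow_s3 (2 * 2 ^ hd E * 3 ^ hd E * max C₁ 1) 6 one_pos, ev_pow_s3 2 1 three_pos,
    Filter.eventually_ge_atTop (8 ^ hd E + Cw * (2 ^ hd E * (2 * max C₁ 1 + 3))),
    Filter.eventually_ge_atTop (20 * (Cw + 1))] with L h1 h2 h3 h4 h5 h6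
  have L0 : 0 < L := by linarith
  refine ⟨h1, ?_, ?_, ?_, ?_, h5, h6⟩
  · have e : (2 * L) ^ finrank ℝ E * Real.exp (1 / 8) * (L ^ (A + finrank ℝ E + 1))⁻¹ =
        2 ^ finrank ℝ E * Real.exp (1 / 8) / L * (L ^ A)⁻¹ := by
      field_simp
      ring
    rw [e]
    exact mul_le_of_le_one_left (by positivity) ((div_le_one L0).2 h2)
  · have := exp_cmp_s3 (a := -(L ^ 2 / 8)) (b := 0) h3 (by nlinarith)
    rw [Real.exp_zero] at this
    rw [← one_div, le_div_iff₀ (by positivity)]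
    linarith
  · have := exp_cmp_s3 (a := -3 * L) (b := 0) h4 (by linarith)
    rw [Real.exp_zero] at this
    unfold rho
    linarith
  · rw [rho_sq_s3]
    exact exp_cmp_s3 (c := L) (by linarith [Real.add_one_le_exp L]) (by linarith)

theorem p1a (hm : 2 ≤ finrank ℝ E) (C₁ : ℝ) (A : ℕ) : ∃ C L₀ : ℝ, 0 < C ∧ ∀ L, L₀ ≤ L →
    ∀ (D : Dat E ι) (ff Γ : E → ℝ) (Q : ℕ) (κ : ℝ), GS D ff Γ Q C₁ L (L ^ A)⁻¹ κ →
    ∀ T, ts L ≤ T → T ≤ Real.exp (-2 * L) → ∀ y : E, ‖y‖ ≤ 2 →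
    P T D.β y ≤ C * Real.log L / L * P T D.τ y + P T D.ee y +
      (L ^ 5)⁻¹ * P (8 * T) (fun w => D.τ w + D.ee w) y + ng' L := by
  obtain ⟨C₃, Cd, Ld, -, hCd, hdp⟩ := dpoint (E := E) (ι := ι) C₁
  obtain ⟨Cs, hCs, hst⟩ := stop (E := E) C₁
  obtain ⟨Cw, hCw, hw⟩ := walk_loc (E := E)
  obtain ⟨n, hn⟩ : ∃ n, n = A + finrank ℝ E + 1 := ⟨_, rfl⟩
  obtain ⟨K, hK⟩ : ∃ K : ℝ, K = 2 * Cs * ((n + 2 : ℕ) : ℝ) := ⟨_, rfl⟩
  have n1 : (1 : ℝ) ≤ ((n + 2 : ℕ) : ℝ) := by exact_mod_cast Nat.succ_le_succ (Nat.zero_le _)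
  have K1 : 1 ≤ K := hK ▸ one_le_mul_of_one_le_of_one_le (by linarith) n1
  have K2 : 0 < (Cs + 2 * Cd) * K := by positivity
  have h12 : (0 : ℝ) < 1 / 2 := by norm_num
  obtain ⟨L₀, hL₀⟩ := Filter.eventually_atTop.1 ((com_s3 (E := E) C₁ Cw A).and
    ((ev_pow_s3 1 1 (one_div_pos.2 K2)).and ((Filter.eventually_ge_atTop (4 * Cs)).and
    ((ev_pow_s3 8 2 h12).and ((ev_pow_s3 Cs (n + 1) h12).and ((ev_pow_s3 1 12 one_pos).and
    ((ev_pow_s3 1024 2 two_pos).and (Filter.eventually_ge_atTop Ld))))))))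
  refine ⟨2 * Cd * K, L₀, by positivity, fun L hL D ff Γ Q κ h T T0 T1 y hy => ?_⟩
  obtain ⟨⟨L22, n2, n3, n4, n5, n6, n7⟩, c1, c2, c3, c5, c6, c7, c8⟩ := hL₀ L hL
  rw [← hn] at n2
  have L0 : 0 < L := by linarith
  have L1 : 1 ≤ L := by linarith
  have Le : L ≤ Real.exp L := by linarith [Real.add_one_le_exp L]
  have r := rho_sq_pos_s3 L
  have t0 : 0 < T := (Real.exp_pos _).trans_le T0
  have lg : 1 ≤ Real.log L := by
    rw [Real.le_log_iff_exp_le L0]; linarith [Real.exp_one_lt_three]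
  obtain ⟨a, ha⟩ : ∃ a, a = K * Real.log L / L := ⟨_, rfl⟩
  have a0 : 0 < a := by rw [ha]; positivity
  have a1 : 1 ≤ a * L := by
    rw [ha, div_mul_cancel₀ _ L0.ne']; exact one_le_mul_of_one_le_of_one_le K1 lg
  have a2 : (Cs + 2 * Cd) * a ≤ 1 := by
    rw [pow_one, one_mul, ← Real.log_le_iff_le_exp L0, one_div_mul_eq_div, le_div_iff₀ K2] at c1
    rw [ha, ← mul_div_assoc, div_le_one L0]
    linarith
  have a3 : 0 ≤ Cs * a := by positivity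
  have a4 : 0 ≤ 2 * Cd * a := by positivity
  have s5 : 2 * (4 * L ^ 2 * rho L ^ 2) * Real.exp (L / 2) ≤ Real.exp (-5 * L) := by
    have := exp_cmp_s3 (a := -6 * L + L / 2) (b := -5 * L) c3 (by linarith)
    rw [Real.exp_add] at this
    rw [rho_sq_s3]
    linarith
  have s6 : Real.exp (-5 * L) ≤ 1 := Real.exp_le_one_iff.2 (by linarith)
  have s7 : rho L ^ 2 ≤ 4 * L ^ 2 * rho L ^ 2 :=
    le_mul_of_one_le_left r.le (by linarith [one_le_pow₀ (n := 2) L1])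
  have s8 : rho L ^ 2 ≤ Real.exp (-5 * L) := by
    rw [rho_sq_s3]; exact Real.exp_le_exp.2 (by linarith)
  have fl0 : 0 < (L ^ n)⁻¹ := by positivity
  rw [show 2 * Cd * K * Real.log L / L = 2 * Cd * a by rw [ha]; ring]
  refine h.final_s3 (e := (1 / 4) ^ 2 / (32 * T)) a4 (by linarith) L22 hCw n6 n7 ?_ ?_ ?_
    (by linarith) (hw _ _ (rho L ^ 2) (Real.exp (-5 * L)) (5 / 2) (1 / 4) (L ^ 6) T 0
      (h.bm_fS3 _) (h.abs_fS3_le a4 (by linarith) L1) r s8 (one_le_pow₀ L1) ?_ (by norm_num) ?_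
      (fun x hx => ?_) y (by rw [sub_zero]; linarith))
  · rw [rho_sq_s3]
    exact (exp_cmp_s3 (c := L) (by linarith) (by linarith)).trans T0
  · exact (mul_le_mul_of_nonneg_left T1 (by norm_num)).trans
      (exp_cmp_s3 (c := L) (by linarith) (by linarith))
  · have := exp_cmp_s3 (a := -2 * L) (b := 0) c7 (by linarith)
    rw [Real.exp_zero] at this
    rw [le_div_iff₀ (by positivity)]
    linarith [mul_le_mul_of_nonneg_left T1 (show 0 ≤ 1024 * L ^ 2 by positivity)]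
  · rw [show (L ^ 6) ^ 2 = 1 * L ^ 12 by ring]
    exact (exp_cmp_s3 c6 (by linarith)).trans T0
  · have := exp_cmp_s3 (K := 16 * Cw) (a := -5 * L) (b := 0) (c := L) (by linarith) (by linarith)
    rw [Real.exp_zero] at this
    linarith
  rw [sub_zero] at hx
  rcases le_total (tt D.T x (4 * L ^ 2 * rho L ^ 2)) (L ^ n)⁻¹ with hg | hg
  · exact ⟨_, ⟨le_rfl, s8⟩, h.good_s3 a4 L1 n2 n3 n4 n5 hx hg⟩
  obtain ⟨s, ⟨s1, s2⟩, s3, s4⟩ := hst _ _ _ _ _ _ _ h.st x _ _ a (L / 2) fl0 hg s7 a0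
    (by linarith) (by linarith) (s5.trans s6) (by
      have e1 : a * (L / 2) / Cs = ((n + 2 : ℕ) : ℝ) * Real.log L := by
        rw [ha, hK]; field_simp
      have e2 : (L ^ n)⁻¹ * L ^ (n + 2) = L * L := by field_simp; ring
      rw [e1, Real.exp_nat_mul, Real.exp_log L0, rho, Real.log_exp, abs_of_neg (by linarith), e2]
      nlinarith)
  have s9 := s2.trans s5
  have s0 : rho L ^ 2 ≤ s := by linarith
  refine ⟨s, ⟨s0, s9⟩, h.dense_s3 (by linarith) ?_⟩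
  have d1 := (hdp L c8 D ff Γ Q _ κ h x s 1 hx s0 le_rfl (by
    have := exp_cmp_s3 (K := 16) (a := -5 * L) (b := -L) (c := L) (by linarith) (by linarith)
    unfold tm
    linarith)).1
  have k0 : 0 < kz L := Real.exp_pos _
  have d2 : L * kz L ≤ ZZ D.T x s := by
    have u1 := exp_cmp_s3 (a := -L / 2) (b := 0) c5 (by linarith)
    have u2 := mul_le_mul_of_nonneg_right s4 (pow_pos L0 n).le
    rw [inv_mul_cancel₀ (pow_pos L0 n).ne'] at u2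
    rw [Real.exp_zero, pow_succ] at u1
    refine le_of_mul_le_mul_left ?_ (show 0 < Cs * L ^ n by positivity)
    unfold kz
    linarith
  have d3 : kz L * s ≤ a * ZZ D.T x s := by
    linarith [mul_le_mul_of_nonneg_left (s9.trans s6) k0.le, mul_le_mul_of_nonneg_right a1 k0.le,
      mul_le_mul_of_nonneg_left d2 a0.le]
  linarith [mul_le_mul_of_nonneg_left (add_le_add s3 d3) hCd.le]

theorem p1b (hm : 2 ≤ finrank ℝ E) (C₁ : ℝ) (A : ℕ) : ∃ (A₃ : ℕ) (L₀ : ℝ), ∀ L, L₀ ≤ L →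
    ∀ (D : Dat E ι) (ff Γ : E → ℝ) (Q : ℕ) (κ : ℝ), GS D ff Γ Q C₁ L (L ^ A)⁻¹ κ →
    ∀ (T l : ℝ) (z : E), ts L ≤ T → T * L ^ 6 ≤ l ^ 2 → l ^ 2 ≤ T * L ^ 20 → 0 < l →
    l ≤ Real.exp (-L) → ‖z‖ ≤ 3 / 2 → l ^ 2 * P (2 * l ^ 2) D.τ z ≤ (L ^ A₃)⁻¹ →
    ∀ y : E, ‖y - z‖ ≤ l →
    P T D.β y ≤ (L ^ 3)⁻¹ * P T D.τ y + P T D.ee y +
      (L ^ 5)⁻¹ * P (8 * T) (fun w => D.τ w + D.ee w) y + ng' L := by
  obtain ⟨C₃, Cd, Ld, -, hCd, hdp⟩ := dpoint (E := E) (ι := ι) C₁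
  obtain ⟨Cw, hCw, hw⟩ := walk_loc (E := E)
  obtain ⟨n, hn⟩ : ∃ n, n = A + finrank ℝ E + 1 := ⟨_, rfl⟩
  have h12 : (0 : ℝ) < 1 / 2 := by norm_num
  obtain ⟨L₀, hL₀⟩ := Filter.eventually_atTop.1 ((com_s3 (E := E) C₁ Cw A).and
    ((ev_pow_s3 8 (2 * (n + 6) + 2) two_pos).and ((ev_pow_s3 1 (n + 4) h12).and
    ((Filter.eventually_ge_atTop
      (Cd * 2 ^ hd E * (2 ^ hd E * Real.exp (4 / 4) + 4 * max C₁ 1 + 1))).and
    (Filter.eventually_ge_atTop Ld)))))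
  refine ⟨(10 + (n + 6)) * finrank ℝ E + (n + 4), L₀,
    fun L hL D ff Γ Q κ h T l z T0 T1 T2 l0 l1 hz hlow y hy => ?_⟩
  obtain ⟨⟨L22, n2, n3, n4, n5, n6, n7⟩, c1, c2, c3, c8⟩ := hL₀ L hL
  rw [← hn] at n2
  have L0 : 0 < L := by linarith
  have L1 : 1 ≤ L := by linarith
  have Le : L ≤ Real.exp L := by linarith [Real.add_one_le_exp L]
  have r := rho_sq_pos_s3 L
  have t0 : 0 < T := (Real.exp_pos _).trans_le T0
  have a0 : 0 ≤ (L ^ 3)⁻¹ := by positivity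
  have a1 : (L ^ 3)⁻¹ ≤ 1 := inv_le_one_of_one_le₀ (one_le_pow₀ L1)
  have l2 : 16 * l ≤ 1 := by
    have := exp_cmp_s3 (K := 16) (a := -L) (b := 0) (c := L) (by linarith) (by linarith)
    rw [Real.exp_zero] at this
    linarith
  have L6 : L ≤ L ^ 6 := le_self_pow₀ L1 (by norm_num)
  have TL : T * L ≤ l ^ 2 := (mul_le_mul_of_nonneg_left L6 t0.le).trans T1
  have T3 : 16 * T ≤ tm L := by
    have u1 : T ≤ l ^ 2 := (le_mul_of_one_le_right t0.le L1).trans TL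
    have u2 := mul_le_mul_of_nonneg_left l2 l0.le
    unfold tm
    linarith
  obtain ⟨s, hs⟩ : ∃ s, s = T / L ^ (2 * (n + 6)) := ⟨_, rfl⟩
  have s0 : 0 < s := by rw [hs]; positivity
  have s1 : s * L ^ (2 * (n + 6)) = T := by rw [hs]; field_simp
  have s2 : s ≤ T := s1 ▸ le_mul_of_one_le_right s0.le (one_le_pow₀ L1)
  have s3 : 2 * (4 * L ^ 2 * rho L ^ 2) ≤ s := by
    have := (exp_cmp_s3 (a := -6 * L) (b := -4 * L) c1 (by linarith)).trans T0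
    rw [hs, le_div_iff₀ (by positivity), rho_sq_s3]
    rw [pow_add] at this
    linarith
  have s7 : rho L ^ 2 ≤ 4 * L ^ 2 * rho L ^ 2 :=
    le_mul_of_one_le_left r.le (by linarith [one_le_pow₀ (n := 2) L1])
  have s8 : rho L ^ 2 ≤ s := by linarith
  refine h.final_s3 (e := (l / 2) ^ 2 / (32 * T)) a0 a1 L22 hCw n6 n7 ?_ (by linarith) ?_
    (by linarith [norm_le_norm_sub_add y z])
    (hw _ _ (rho L ^ 2) s (2 * l) (l / 2) (L ^ 6) T z
      (h.bm_fS3 _) (h.abs_fS3_le a0 a1 L1) r s8 (one_le_pow₀ L1) ?_ (by linarith) ?_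
      (fun x hx => ?_) y (by linarith))
  · rw [rho_sq_s3]
    exact (exp_cmp_s3 (c := L) (by linarith) (by linarith)).trans T0
  · have u1 : (4 : ℝ) ^ 4 ≤ L ^ 4 := pow_le_pow_left₀ (by norm_num) (by linarith) 4
    rw [le_div_iff₀ (by positivity)]
    linarith [mul_le_mul_of_nonneg_left u1 (show 0 ≤ T * L ^ 2 by positivity)]
  · rw [← pow_mul, ← s1, mul_comm]
    exact mul_le_mul_of_nonneg_left (pow_le_pow_right₀ L1 (by omega)) s0.le
  · linarith [mul_le_mul_of_nonneg_left s2 hCw.le,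
      mul_le_mul_of_nonneg_left (show 4 * Cw ≤ L by linarith) t0.le]
  have hx' : ‖x‖ ≤ 5 / 2 := by linarith [norm_le_norm_sub_add x z]
  rcases le_total (tt D.T x (4 * L ^ 2 * rho L ^ 2)) (L ^ n)⁻¹ with hg | hg
  · exact ⟨_, ⟨le_rfl, s8⟩, h.good_s3 a0 L1 n2 n3 n4 n5 hx' hg⟩
  refine ⟨s, ⟨s8, le_rfl⟩, h.dense_s3 s0.le ?_⟩
  have d1 := (hdp L c8 D ff Γ Q _ κ h x s 1 hx' s8 le_rfl (by linarith)).1
  have d2 := hg.trans (h.st.zz_ge_s3 x (by positivity) s3)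
  obtain ⟨X, hX⟩ : ∃ X, X = P (2 * l ^ 2) D.τ z := ⟨_, rfl⟩
  have X0 : 0 ≤ X := hX ▸ P_nonneg (by positivity) h.τ_nonneg_s3 z
  have b1 : P (l ^ 2) D.τ x ≤ 2 ^ hd E * Real.exp (4 / 4) * X :=
    hX ▸ P_shift_le h.bm_τ_s3 h.τ_nonneg_s3 (by positivity) (by
      rw [norm_sub_rev]
      linarith [pow_le_pow_left₀ (norm_nonneg _) hx 2])
  have b2 : ((L ^ (10 + (n + 6))) ^ 2) ^ hd E = L ^ ((10 + (n + 6)) * finrank ℝ E) := by
    rw [rpow_hd_eq (by positivity), Real.sqrt_sq (by positivity), ← pow_mul]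
  have d3 := h.st.th_le_s3 x (b := l ^ 2 / 4)
    (K := L ^ ((10 + (n + 6)) * finrank ℝ E) * (2 ^ hd E * Real.exp (4 / 4) * X)) s0
    (by positivity) (by positivity) fun t u1 u2 => by
      refine (P_le_of_le_mul (c := (L ^ (10 + (n + 6))) ^ 2) (s := l ^ 2) h.bm_τ_s3 h.τ_nonneg_s3
        (by linarith) (by linarith) ?_ x).trans ?_
      · have e : (L ^ (10 + (n + 6))) ^ 2 * s = T * L ^ 20 := by rw [← s1]; ring
        exact (T2.trans e.ge).trans (mul_le_mul_of_nonneg_left (by linarith) (by positivity))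
      · rw [b2]
        exact mul_le_mul_of_nonneg_left b1 (by positivity)
  obtain ⟨u, hu⟩ : ∃ u, u = (L ^ (n + 4))⁻¹ := ⟨_, rfl⟩
  have u0 : 0 < u := by rw [hu]; positivity
  have e1 : L ^ ((10 + (n + 6)) * finrank ℝ E) * (l ^ 2 * X) ≤ u := by
    rw [← hX, pow_add, mul_inv, ← hu] at hlow
    refine (mul_le_mul_of_nonneg_left hlow (by positivity)).trans (le_of_eq ?_)
    rw [← mul_assoc, mul_inv_cancel₀ (by positivity), one_mul]
  have e2 : s / (l ^ 2 / 4) ≤ 4 * u := by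
    rw [div_le_iff₀ (by positivity), hu]
    have v1 : s * L ^ (n + 4) ≤ l ^ 2 := by
      refine le_trans ?_ T1
      rw [← s1, mul_assoc, ← pow_add]
      exact mul_le_mul_of_nonneg_left (pow_le_pow_right₀ L1 (by omega)) s0.le
    rw [← le_div_iff₀ (by positivity), div_eq_inv_mul] at v1
    linarith
  have e3 : kz L * s ≤ u := by
    have v1 := exp_cmp_s3 (a := -L / 2) (b := 0) c2 (by linarith)
    rw [Real.exp_zero, one_mul, mul_comm, ← le_div_iff₀ (by positivity), one_div, ← hu] at v1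
    have v2 : tm L ≤ 1 := Real.exp_le_one_iff.2 (by linarith)
    exact (mul_le_of_le_one_right (Real.exp_pos _).le (by linarith)).trans v1
  have e4 : C₁ * (s / (l ^ 2 / 4)) ≤ max C₁ 1 * (4 * u) :=
    mul_le_mul (le_max_left _ _) e2 (by positivity) (by positivity)
  have p2 : (0 : ℝ) < 2 ^ hd E := by positivity
  have e5 := mul_le_mul_of_nonneg_left e1 (show 0 ≤ 2 ^ hd E * Real.exp (4 / 4) by positivity)
  have e6 : th D.T x s + kz L * s ≤ (2 ^ hd E * Real.exp (4 / 4) + 4 * max C₁ 1 + 1) * u := by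
    have : 0 ≤ 2 ^ hd E * Real.exp (4 / 4) * u := by positivity
    linarith
  have e7 : L * u = (L ^ 3)⁻¹ * (L ^ n)⁻¹ := by rw [hu]; field_simp; ring
  refine d1.trans (le_of_mul_le_mul_left ?_ p2)
  linarith [mul_le_mul_of_nonneg_left e6 (show 0 ≤ 2 ^ hd E * Cd by positivity),
    mul_le_mul_of_nonneg_right c3 u0.le, mul_le_mul_of_nonneg_left d2 a0]

end Pool.Agent.Lib.MP_8daebb_an.AS
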