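import Pool.Agent.Lib.MP_8daebb_an.AS.M2
import Pool.Agent.Lib.MP_8daebb_an.AS.S3

/-! The inequality in every cell. -/

open MeasureTheory Metric Set Module Filter
open scoped RealInnerProductSpace

namespace Pool.Agent.Lib.MP_8daebb_an.AS

open HK

variable {E : Type*} [NormedAddCommGroup E] [InnerProductSpace ℝ E] [FiniteDimensional ℝ E]
  [MeasurableSpace E] [BorelSpace E] {ι : Type*} [Fintype ι]

namespace Dat

variable (D : Dat E ι)

/-- Mass of a cell times the ratio of the second test. -/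
noncomputable def Ff (L η₂ s l u : ℝ) (z : E) : ℝ :=
  (∫ y, kk l z y * P s (D.τb L) y) / (P (4 * u ^ 2) (D.τb L) z + η₂ / u ^ 2) *
    P (2 * u ^ 2) (D.fe L η₂ s) z

/-- Loss of negative part in a cell. -/
noncomputable def Dl (L s l : ℝ) (z : E) : ℝ :=
  (∫ y, kk l z y * np (P s (D.βb L) y)) - np (∫ y, kk l z y * P s (D.βb L) y)

end Dat

namespace GS

variable {D : Dat E ι} {ff Γ : E → ℝ} {Q : ℕ} {C₁ L η κ : ℝ} (h : GS D ff Γ Q C₁ L η κ)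
include h

theorem fe0 (hL : 1 ≤ L) {η₂ s : ℝ} (hη : 0 < η₂) (hs : 0 < s) (y : E) : 0 ≤ D.fe L η₂ s y :=
  mul_nonneg (((h.bar hL).bm_e0 hη hs (le_mul_of_one_le_right hs.le (one_le_pow₀ hL))).2.1 y)
    (h.τb0 y)

theorem bm_fe (hL : 1 ≤ L) {η₂ s : ℝ} (hη : 0 < η₂) (hs : 0 < s) : BM (D.fe L η₂ s) :=
  ((h.bar hL).bm_e0 hη hs (le_mul_of_one_le_right hs.le (one_le_pow₀ hL))).1.mul h.bm_τb

theorem mu0 {s : ℝ} (hs : 0 < s) (l : ℝ) (z : E) : 0 ≤ ∫ y, kk l z y * P s (D.τb L) y :=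
  integral_nonneg fun y => mul_nonneg (kk_nonneg _ _ _) (P_nonneg hs.le h.τb0 y)

theorem Ff0 (hL : 1 ≤ L) {η₂ s : ℝ} (hη : 0 < η₂) (hs : 0 < s) (l u : ℝ) (z : E) :
    0 ≤ D.Ff L η₂ s l u z :=
  mul_nonneg (div_nonneg (h.mu0 hs l z) (add_nonneg (P_nonneg (by positivity) h.τb0 z)
    (by positivity))) (P_nonneg (by positivity) (h.fe0 hL hη hs) z)

theorem Dl0 {s l : ℝ} (hs : 0 < s) (hl : 0 < l) (z : E) : 0 ≤ D.Dl L s l z :=
  sub_nonneg.2 (np_int_le (h.bm_βb.P hs) hl z)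

/-- A pointwise bound integrated against the cell weight. -/
theorem soft (hL : 0 ≤ L) {s l c : ℝ} (hs : 0 < s) (hl : 0 < l) {z : E}
    (hp : ∀ y, ‖y - z‖ ≤ l → P (s + ts L) D.β y ≤ c * P (s + ts L) D.τ y + D.er L (s + ts L) y) :
    ∫ y, kk l z y * P s (D.βb L) y ≤ c * (∫ y, kk l z y * P s (D.τb L) y) +
      ∫ y in ball z (2 * l), D.er L (s + ts L) y := by
  have T0 : 0 < s + ts L := by linarith [ts_pos L]
  have b1 := h.bm_er T0
  have i1 := integrable_kk_mul hl z (h.bm_τb.P hs)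
  have i2 := integrable_kk_mul hl z b1
  calc ∫ y, kk l z y * P s (D.βb L) y
      ≤ ∫ y, (c * (kk l z y * P s (D.τb L) y) + kk l z y * D.er L (s + ts L) y) := by
        refine integral_mono (integrable_kk_mul hl z (h.bm_βb.P hs)) ((i1.const_mul c).add i2)
          fun y => ?_
        simp only
        rcases le_total l ‖y - z‖ with hy | hy
        · rw [kk_eq_zero hl hy]; simp
        · have := mul_le_mul_of_nonneg_left (hp y hy) (kk_nonneg l z y)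
          rw [h.P_βb hs, h.P_τb hs]
          linarith
    _ = c * (∫ y, kk l z y * P s (D.τb L) y) + ∫ y, kk l z y * D.er L (s + ts L) y := by
        rw [integral_add (i1.const_mul c) i2, integral_const_mul]
    _ ≤ _ := by
        gcongr
        refine (kk_le_ball hl z b1 (h.er0 hL T0)).trans ?_
        exact setIntegral_mono_set (b1.integrableOn isBounded_ball)
          (Eventually.of_forall (h.er0 hL T0)) (ball_subset_ball (by linarith)).eventuallyLE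

end GS

/-- The first pointwise bound with the constant `X / L`. -/
theorem p1a' (hm : 2 ≤ finrank ℝ E) (C₁ : ℝ) (A N : ℕ) (hN : 1 ≤ N) : ∀ᶠ X : ℝ in atTop,
    ∀ L, L = X ^ (2 * N) →
    ∀ (D : Dat E ι) (ff Γ : E → ℝ) (Q : ℕ) (κ : ℝ), GS D ff Γ Q C₁ L (L ^ A)⁻¹ κ →
    ∀ T, ts L ≤ T → T ≤ Real.exp (-2 * L) → ∀ y : E, ‖y‖ ≤ 2 →
    P T D.β y ≤ X / L * P T D.τ y + D.er L T y := by
  obtain ⟨C, L₀, -, hp⟩ := p1a (ι := ι) hm C₁ A
  filter_upwards [ev_log C N, (tendsto_XL hN).eventually (eventually_ge_atTop L₀),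
    eventually_gt_atTop 0] with X x1 x2 X0 L hL D ff Γ Q κ h T t1 t2 y hy
  rw [← hL] at x1 x2
  have L0 : 0 < L := by rw [hL]; positivity
  have b1 := hp L x2 D ff Γ Q κ h T t1 t2 y hy
  have b2 : C * Real.log L / L * P T D.τ y ≤ X / L * P T D.τ y :=
    mul_le_mul_of_nonneg_right (div_le_div_of_nonneg_right x1 L0.le)
      (P_nonneg ((ts_pos L).le.trans t1) h.τ0 y)
  unfold Dat.er
  linarith

theorem point (hm : 3 ≤ finrank ℝ E) (hG : G6.GeomStmt E) (Q : ℕ) (C₁ : ℝ) (A : ℕ) :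
    ∃ (A₃ N cθ cΞ : ℕ) (C : ℝ), 4 ≤ N ∧ cθ ≤ N ∧ cΞ + 1 ≤ N ∧ 1 ≤ C ∧ ∀ᶠ X : ℝ in atTop,
    ∀ (L : ℝ) (D : Dat E ι) (ff Γ : E → ℝ),
    GS D ff Γ Q C₁ L (L ^ A)⁻¹ (L ^ (finrank ℝ E + 1))⁻¹ →
    ∀ s r l l', Sc X L s r l l' N cθ cΞ → ∀ z : E, ‖z‖ ≤ 1 →
    ∫ y, kk l z y * P s (D.βb L) y ≤ (X ^ 2 * L)⁻¹ * (∫ y, kk l z y * P s (D.τb L) y) +
      (X ^ 2 * L)⁻¹ * l ^ finrank ℝ E * P (4 * l ^ 2) (D.τb L) z +
      (X ^ 5)⁻¹ * D.Ff L (L ^ A₃)⁻¹ s l l z + (X ^ 5)⁻¹ * D.Ff L (L ^ A₃)⁻¹ s l l' z +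
      C * D.Dl L s l z + (X ^ N)⁻¹ * (∫ y in ball z (2 * l), np (P s (D.βb L) y)) +
      C * (∫ y in ball z (3 * l), D.ee y) + C * ∫ y in ball z (2 * l), D.er L (s + ts L) y := by
  obtain ⟨A₃, L₁, hb⟩ := p1b (ι := ι) (by omega : 2 ≤ finrank ℝ E) C₁ A
  obtain ⟨N, cθ, cΞ, C, hN, hθ, hΞ, hC, hh⟩ := hard_cell (ι := ι) hm hG Q C₁ A A₃
  refine ⟨A₃ + 2, N, cθ, cΞ, C + 1, hN, hθ, hΞ, by linarith, ?_⟩
  filter_upwards [hh, p1a' (ι := ι) (by omega : 2 ≤ finrank ℝ E) C₁ A N (by omega),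
    (tendsto_XL (N := N) (by omega)).eventually (eventually_ge_atTop L₁)]
    with X hh ha x1 L D ff Γ h s r l l' hs z hz
  rw [← hs.hL] at x1
  have l0 := hs.l0
  have s0 := hs.s0
  have L0 := hs.L0
  have X0 := hs.X0
  have T0 : 0 < s + ts L := by linarith [ts_pos L]
  have η0 : 0 < (L ^ (A₃ + 2))⁻¹ := by positivity
  have hp : ∀ y, ‖y - z‖ ≤ 2 * l → P (s + ts L) D.β y ≤
      X / L * P (s + ts L) D.τ y + D.er L (s + ts L) y := fun y hy =>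
    ha L hs.hL D ff Γ Q _ h _ (by linarith) hs.T_le_exp y (by
      have := norm_le_norm_add_norm_sub' y z
      linarith [hs.l_le_exp, hs.exp_le])
  have hs1 := h.soft L0.le s0 l0 fun y hy => hp y (by linarith)
  have μ0 := h.mu0 s0 l z
  have n1 : 0 ≤ (X ^ 2 * L)⁻¹ * ∫ y, kk l z y * P s (D.τb L) y := by positivity
  have n2 : 0 ≤ (X ^ 2 * L)⁻¹ * l ^ finrank ℝ E * P (4 * l ^ 2) (D.τb L) z :=
    mul_nonneg (by positivity) (P_nonneg (by positivity) h.τb0 z)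
  have n3 : ∀ u, 0 ≤ (X ^ 5)⁻¹ * D.Ff L (L ^ (A₃ + 2))⁻¹ s l u z := fun u =>
    mul_nonneg (by positivity) (h.Ff0 hs.L1 η0 s0 l u z)
  have n4 := h.Dl0 s0 l0 z
  have n5 : 0 ≤ (X ^ N)⁻¹ * ∫ y in ball z (2 * l), np (P s (D.βb L) y) :=
    mul_nonneg (by positivity) (integral_nonneg fun y => np_nonneg _)
  have n6 : 0 ≤ ∫ y in ball z (3 * l), D.ee y := integral_nonneg h.ee_nonneg
  have n7 : 0 ≤ ∫ y in ball z (2 * l), D.er L (s + ts L) y := integral_nonneg (h.er0 L0.le T0)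
  have n8 := mul_nonneg hC.le n4
  have n9 := mul_nonneg hC.le n6
  have n10 := mul_nonneg hC.le n7
  have n11 := n3 l
  have n12 := n3 l'
  rcases le_total (l ^ 2 * P (2 * l ^ 2) D.τ z) (L ^ A₃)⁻¹ with hlow | hlow
  · have b1 := h.soft L0.le s0 l0 (c := (L ^ 3)⁻¹) (z := z) fun y hy => by
      have := hb L x1 D ff Γ Q _ h (s + ts L) l z (by linarith) hs.T6' hs.T20 l0 hs.l_le_exp
        (by linarith) hlow y hy
      unfold Dat.er
      linarith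
    have b2 : (L ^ 3)⁻¹ ≤ (X ^ 2 * L)⁻¹ := by
      refine inv_anti₀ (by positivity) ?_
      have b3 : X ^ 2 ≤ L := hs.pow_le_L (by omega)
      have b4 : L ≤ L ^ 2 := le_self_pow₀ hs.L1 (by norm_num)
      rw [pow_succ L 2]
      exact mul_le_mul_of_nonneg_right (b3.trans b4) L0.le
    have b3 := mul_le_mul_of_nonneg_right b2 μ0
    linarith
  rcases le_total (l ^ finrank ℝ E * P (4 * l ^ 2) (D.τb L) z)
    (X ^ 3 * ∫ y, kk l z y * P s (D.τb L) y) with hF1 | hF1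
  swap
  · have b1 := mul_le_mul_of_nonneg_left hF1 (show 0 ≤ (X ^ 2 * L)⁻¹ by positivity)
    have b2 : (X ^ 2 * L)⁻¹ * (X ^ 3 * ∫ y, kk l z y * P s (D.τb L) y) =
        X / L * ∫ y, kk l z y * P s (D.τb L) y := by field_simp
    linarith
  by_cases hF2 : ∀ u, u = l ∨ u = l' → P (2 * u ^ 2) (D.fe L (L ^ (A₃ + 2))⁻¹ s) z ≤
      X ^ 6 / L * (P (4 * u ^ 2) (D.τb L) z + (L ^ (A₃ + 2))⁻¹ / u ^ 2)
  swap
  · push Not at hF2
    obtain ⟨u, hu, hF2⟩ := hF2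
    have u0 : 0 < u := by rcases hu with rfl | rfl; exacts [l0, hs.l'0]
    have d0 : 0 < P (4 * u ^ 2) (D.τb L) z + (L ^ (A₃ + 2))⁻¹ / u ^ 2 :=
      add_pos_of_nonneg_of_pos (P_nonneg (by positivity) h.τb0 z) (by positivity)
    have b1 : X / L * (∫ y, kk l z y * P s (D.τb L) y) ≤
        (X ^ 5)⁻¹ * D.Ff L (L ^ (A₃ + 2))⁻¹ s l u z := by
      unfold Dat.Ff
      calc X / L * (∫ y, kk l z y * P s (D.τb L) y)
          = (X ^ 5)⁻¹ * ((∫ y, kk l z y * P s (D.τb L) y) /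
              (P (4 * u ^ 2) (D.τb L) z + (L ^ (A₃ + 2))⁻¹ / u ^ 2) *
              (X ^ 6 / L * (P (4 * u ^ 2) (D.τb L) z + (L ^ (A₃ + 2))⁻¹ / u ^ 2))) := by
            generalize P (4 * u ^ 2) (D.τb L) z + (L ^ (A₃ + 2))⁻¹ / u ^ 2 = d at d0
            field_simp
        _ ≤ _ := by gcongr
    rcases hu with rfl | rfl <;> linarith
  rcases le_total (∫ y, kk l z y * P s (D.βb L) y) 0 with ha0 | ha0
  · linarith
  have key := hh L D ff Γ h s r l l' hs z hz hlow hF1 hF2 fun y hy =>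
    hp y (by rw [mem_ball, dist_eq_norm] at hy; exact hy.le)
  have b1 : D.Dl L s l z = ∫ y, kk l z y * np (P s (D.βb L) y) := by
    unfold Dat.Dl
    rw [np_of_nonneg ha0, sub_zero]
  rw [← b1] at key
  linarith

end Pool.Agent.Lib.MP_8daebb_an.AS
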