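import Pool.Agent.Lib.MP_8daebb_an.AS.M1

/-! Functions with controlled mass, and negligible errors. -/

open MeasureTheory Metric Set Module Filter
open scoped RealInnerProductSpace

namespace Pool.Agent.Lib.MP_8daebb_an.AS

open HK

variable {E : Type*} [NormedAddCommGroup E] [InnerProductSpace ℝ E] [FiniteDimensional ℝ E]
  [MeasurableSpace E] [BorelSpace E] {ι : Type*} [Fintype ι]

/-- Total mass. -/
noncomputable def Dat.tot (D : Dat E ι) : ℝ := ∫ y in ball (0 : E) 2, (D.τ y + D.ee y)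

/-- The remainder. -/
noncomputable def rm (L Tot : ℝ) : ℝ :=
  Real.exp (-(3 / 4) * L) * Tot + Real.exp (-(5 / 4) * L ^ 2)

/-- `L` is large compared with `C`. -/
structure Lg (C L : ℝ) : Prop where
  ge : 256 ≤ L
  c : 4 * C ≤ Real.exp (L / 8)
  tail : ∀ x, L ^ 3 ≤ x → C * big L * Real.exp (-x) ≤ ng' L
  sm : ∀ s c : ℝ, 0 < s → s ≤ Real.exp (-L) → 0 < c → c ≤ 10 ^ 5 → L ^ 3 ≤ 1 / (c * s)

theorem ev_Lg (C : ℝ) : ∀ᶠ L : ℝ in atTop, Lg C L := by
  filter_upwards [eventually_ge_atTop 256, ev_pow_m (4 * C) (1 / 8) (by norm_num) 0, ev_tail C,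
    ev_small] with L h1 h2 h3 h4
  exact ⟨h1, by rwa [pow_zero, mul_one, one_div, inv_mul_eq_div] at h2, h3, h4⟩

theorem rm_nonneg (L : ℝ) {Tot : ℝ} (h : 0 ≤ Tot) : 0 ≤ rm L Tot := by unfold rm; positivity

theorem Lg.ng {C L : ℝ} (hL : Lg C L) : 2 * (Real.exp (L / 8) * ng' L) ≤
    Real.exp (-(5 / 4) * L ^ 2) := by
  unfold ng'
  calc 2 * (Real.exp (L / 8) * Real.exp (-(3 / 2) * L ^ 2))
      ≤ Real.exp 1 * (Real.exp (L / 8) * Real.exp (-(3 / 2) * L ^ 2)) := by
        gcongr; linarith [Real.add_one_le_exp 1]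
    _ = Real.exp (1 + (L / 8 + -(3 / 2) * L ^ 2)) := by rw [Real.exp_add, Real.exp_add]
    _ ≤ _ := Real.exp_le_exp.2 (by nlinarith [hL.ge])

theorem Lg.one_le {C L : ℝ} (hL : Lg C L) : 1 ≤ Real.exp (L / 8) :=
  Real.one_le_exp (by linarith [hL.ge])

theorem Lg.err {C L Tot C' w I t c B : ℝ} (hL : Lg C L) (h0 : 0 ≤ Tot) (c0 : 0 ≤ C') (hc : C' ≤ C)
    (w0 : 0 ≤ w) (hw : w ≤ 4 * Real.exp (-L)) (hI : I ≤ Real.exp (L / 8) * (Tot + ng' L))
    (t0 : 0 < t) (ht : t ≤ Real.exp (-L)) (d0 : 0 < c) (hd : c ≤ 10 ^ 5)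
    (hB : B ≤ Real.exp (L / 8) * big L) :
    C' * (w * I + B * Real.exp (-(1 / (c * t)))) ≤ rm L Tot := by
  have n0 := ng'_pos L
  have b0 := big_pos L
  have h1 := hL.tail _ (hL.sm t c t0 ht d0 hd)
  have h2 : C' * (B * Real.exp (-(1 / (c * t)))) ≤ Real.exp (L / 8) * ng' L := by
    calc C' * (B * Real.exp (-(1 / (c * t))))
        ≤ C * (Real.exp (L / 8) * big L * Real.exp (-(1 / (c * t)))) := by
          refine le_trans (mul_le_mul_of_nonneg_left ?_ c0) (mul_le_mul_of_nonneg_right hc ?_)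
          · gcongr
          · positivity
      _ = Real.exp (L / 8) * (C * big L * Real.exp (-(1 / (c * t)))) := by ring
      _ ≤ _ := by gcongr
  have e1 : Real.exp (L / 8) * Real.exp (-L) * Real.exp (L / 8) = Real.exp (-(3 / 4) * L) := by
    rw [← Real.exp_add, ← Real.exp_add]; congr 1; ring
  have h3 : C' * (w * I) ≤ Real.exp (-(3 / 4) * L) * (Tot + ng' L) := by
    calc C' * (w * I) ≤ C * (4 * Real.exp (-L) * (Real.exp (L / 8) * (Tot + ng' L))) := by
          refine le_trans (mul_le_mul_of_nonneg_left ?_ c0) (mul_le_mul_of_nonneg_right hc ?_)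
          · exact (mul_le_mul_of_nonneg_left hI w0).trans (by gcongr)
          · positivity
      _ = 4 * C * Real.exp (-L) * Real.exp (L / 8) * (Tot + ng' L) := by ring
      _ ≤ Real.exp (L / 8) * Real.exp (-L) * Real.exp (L / 8) * (Tot + ng' L) := by
          gcongr; exact hL.c
      _ = _ := by rw [e1]
  have h4 : Real.exp (-(3 / 4) * L) * ng' L ≤ Real.exp (L / 8) * ng' L := by
    gcongr; linarith [hL.ge]
  have h5 := hL.ng
  unfold rm
  linarith

theorem Lg.err' {C L Tot w I : ℝ} (hL : Lg C L) (h0 : 0 ≤ Tot) (hc : 1 ≤ C)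
    (w0 : 0 ≤ w) (hw : w ≤ 4 * Real.exp (-L)) (hI : I ≤ Real.exp (L / 8) * (Tot + ng' L)) :
    w * I ≤ rm L Tot := by
  have := hL.err (B := 0) h0 zero_le_one hc w0 hw hI (Real.exp_pos _) le_rfl one_pos
    (by norm_num) (by have := big_pos L; positivity)
  linarith

theorem Lg.ng_le {C L Tot c : ℝ} (hL : Lg C L) (h0 : 0 ≤ Tot) (hc : c ≤ C) (c0 : 0 ≤ c) :
    c * ng' L ≤ rm L Tot := by
  have h1 := hL.ng
  have h2 : c * ng' L ≤ Real.exp (L / 8) * ng' L :=
    mul_le_mul_of_nonneg_right (by linarith [hL.c]) (ng'_pos L).le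
  have h3 : 0 ≤ Real.exp (-(3 / 4) * L) * Tot := by positivity
  have h4 := mul_nonneg c0 (ng'_pos L).le
  unfold rm
  linarith

/-- A function with controlled size and mass. -/
structure Nice (L Tot K : ℝ) (g : E → ℝ) : Prop where
  bm : BM g
  le : ∀ y, |g y| ≤ K * big L
  int : ∫ y in ball (0 : E) (3 / 2), |g y| ≤ K * (Tot + ng' L)

namespace Nice

variable {L Tot K K' : ℝ} {f g : E → ℝ}

theorem mono (h : Nice L Tot K g) (h0 : 0 ≤ Tot) (hK : K ≤ K') : Nice L Tot K' g :=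
  ⟨h.bm, fun y => (h.le y).trans (mul_le_mul_of_nonneg_right hK (big_pos L).le),
    h.int.trans (mul_le_mul_of_nonneg_right hK (by linarith [ng'_pos L]))⟩

theorem dom (h : Nice L Tot K g) (hf : BM f) (h1 : ∀ y, |f y| ≤ K * big L)
    (h2 : ∀ y, ‖y‖ ≤ 3 / 2 → |f y| ≤ g y) : Nice L Tot K f := by
  refine ⟨hf, h1, le_trans ?_ h.int⟩
  refine setIntegral_mono_on (hf.abs.integrableOn isBounded_ball)
    (h.bm.abs.integrableOn isBounded_ball) measurableSet_ball fun y hy => ?_
  exact (h2 y (mem_ball_zero_iff.1 hy).le).trans (le_abs_self _)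

theorem abs (h : Nice L Tot K g) : Nice L Tot K (fun y => |g y|) :=
  ⟨h.bm.abs, by simpa using h.le, by simpa using h.int⟩

theorem of_le (h : Nice L Tot K g) (hf : BM f) (h1 : ∀ y, |f y| ≤ |g y|) : Nice L Tot K f :=
  h.abs.dom hf (fun y => (h1 y).trans (h.le y)) fun y _ => h1 y

theorem np (h : Nice L Tot K g) : Nice L Tot K (fun y => np (g y)) :=
  h.of_le (bm_np h.bm) fun y => by rw [abs_of_nonneg (np_nonneg _)]; exact np_le_abs _

theorem add (h : Nice L Tot K f) (h' : Nice L Tot K' g) :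
    Nice L Tot (K + K') (fun y => f y + g y) := by
  refine ⟨h.bm.add h'.bm, fun y => ?_, ?_⟩
  · linarith [abs_add_le (f y) (g y), h.le y, h'.le y]
  · have i1 := h.bm.abs.integrableOn (isBounded_ball (x := (0 : E)) (r := 3 / 2))
    have i2 := h'.bm.abs.integrableOn (isBounded_ball (x := (0 : E)) (r := 3 / 2))
    have := integral_mono ((h.bm.add h'.bm).abs.integrableOn isBounded_ball) (i1.add i2)
      fun y => abs_add_le (f y) (g y)
    simp only [Pi.add_apply] at this
    rw [integral_add i1 i2] at this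
    linarith [h.int, h'.int]

theorem smul (h : Nice L Tot K g) {c : ℝ} (hc : 0 ≤ c) :
    Nice L Tot (c * K) (fun y => c * g y) := by
  refine ⟨h.bm.const_mul c, fun y => ?_, ?_⟩
  · rw [abs_mul, abs_of_nonneg hc, mul_assoc]
    exact mul_le_mul_of_nonneg_left (h.le y) hc
  · simp only [abs_mul, abs_of_nonneg hc]
    rw [integral_const_mul, mul_assoc]
    exact mul_le_mul_of_nonneg_left h.int hc

theorem int_le (h : Nice L Tot K g) {ρ : ℝ} (hρ : ρ ≤ 3 / 2) :
    ∫ y in ball (0 : E) ρ, g y ≤ K * (Tot + ng' L) := by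
  refine le_trans ?_ h.int
  refine (integral_mono (h.bm.integrableOn isBounded_ball) (h.bm.abs.integrableOn isBounded_ball)
    fun y => le_abs_self _).trans ?_
  exact setIntegral_mono_set (h.bm.abs.integrableOn isBounded_ball)
    (Eventually.of_forall fun y => abs_nonneg _) (ball_subset_ball hρ).eventuallyLE

end Nice

/-- Volume of the ball of radius two. -/
noncomputable def vl (E : Type*) [NormedAddCommGroup E] [InnerProductSpace ℝ E]
    [FiniteDimensional ℝ E] [MeasurableSpace E] [BorelSpace E] : ℝ :=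
  (volume : Measure E).real (ball 0 2) + 1

theorem one_le_vl : 1 ≤ vl E := le_add_of_nonneg_left measureReal_nonneg

theorem real_le_vl {ρ : ℝ} (h : ρ ≤ 2) : (volume : Measure E).real (ball 0 ρ) ≤ vl E :=
  (measureReal_mono (ball_subset_ball h) measure_ball_lt_top.ne).trans (by unfold vl; linarith)

theorem nice_ng {L Tot : ℝ} (hL : 0 ≤ L) (h0 : 0 ≤ Tot) :
    Nice L Tot (vl E) (fun _ : E => ng' L) := by
  have n0 := ng'_pos L
  have v1 := one_le_vl (E := E)
  refine ⟨BM.const _, fun y => ?_, ?_⟩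
  · rw [abs_of_pos n0]
    refine le_trans ?_ (le_mul_of_one_le_left (big_pos L).le v1)
    exact Real.exp_le_exp.2 (by nlinarith [sq_nonneg L])
  · rw [setIntegral_const, abs_of_pos n0, smul_eq_mul]
    exact mul_le_mul (real_le_vl (by norm_num)) (by linarith) n0.le (by linarith)

namespace Wt

variable {φ f g : E → ℝ} (hφ : Wt φ)
include hφ

theorem mono (hf : BM f) (hg : BM g) (h : ∀ y, ‖y‖ ≤ 1 → f y ≤ g y) :
    ∫ y, φ y * f y ≤ ∫ y, φ y * g y := by
  refine integral_mono (hφ.integrable_mul hf) (hφ.integrable_mul hg) fun y => ?_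
  rcases le_total 1 ‖y‖ with hy | hy
  · simp [hφ.zero y hy]
  · exact mul_le_mul_of_nonneg_left (h y hy) (hφ.nonneg y)

theorem add (hf : BM f) (hg : BM g) :
    ∫ y, φ y * (f y + g y) = (∫ y, φ y * f y) + ∫ y, φ y * g y := by
  simp only [mul_add]
  exact integral_add (hφ.integrable_mul hf) (hφ.integrable_mul hg)

theorem sub (hf : BM f) (hg : BM g) :
    ∫ y, φ y * (f y - g y) = (∫ y, φ y * f y) - ∫ y, φ y * g y := by
  simp only [mul_sub]
  exact integral_sub (hφ.integrable_mul hf) (hφ.integrable_mul hg)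

omit hφ in
theorem smul (c : ℝ) (φ f : E → ℝ) : ∫ y, φ y * (c * f y) = c * ∫ y, φ y * f y := by
  rw [← integral_const_mul]; congr 1; funext y; ring

theorem int0 (h : ∀ y, 0 ≤ f y) : 0 ≤ ∫ y, φ y * f y :=
  integral_nonneg fun y => mul_nonneg (hφ.nonneg y) (h y)

theorem const_le (hE : 0 < finrank ℝ E) {c : ℝ} (hc : 0 ≤ c) : ∫ y, φ y * c ≤ vl E * c := by
  rw [integral_mul_const]
  refine mul_le_mul_of_nonneg_right ?_ hc
  rw [← setIntegral_eq_integral_of_forall_compl_eq_zero (s := ball 0 2)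
    fun y hy => hφ.zero y (by rw [mem_ball_zero_iff] at hy; linarith)]
  refine le_trans (integral_mono (hφ.bm.integrableOn isBounded_ball)
    ((BM.const 1).integrableOn isBounded_ball) (hφ.le_one' hE)) ?_
  rw [setIntegral_const, smul_eq_mul, mul_one]
  exact real_le_vl le_rfl

end Wt

end Pool.Agent.Lib.MP_8daebb_an.AS
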