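import Pool.Agent.Lib.MP_8daebb_an.AS.M4

/-! Weighted bounds for the data. -/

open MeasureTheory Metric Set Module Filter
open scoped RealInnerProductSpace

namespace Pool.Agent.Lib.MP_8daebb_an.AS

open HK

variable {E : Type*} [NormedAddCommGroup E] [InnerProductSpace ℝ E] [FiniteDimensional ℝ E]
  [MeasurableSpace E] [BorelSpace E] {ι : Type*} [Fintype ι]

/-- `L` is large compared with the constants of the weighted bounds. -/
structure Ok (E : Type*) [NormedAddCommGroup E] [InnerProductSpace ℝ E] [FiniteDimensional ℝ E]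
    [MeasurableSpace E] [BorelSpace E] (C₁ C L : ℝ) : Prop extends Lg C L where
  dim : 0 < finrank ℝ E
  c0 : 1 ≤ C₁
  c1 : 2 * 2 ^ hd E * vl E ≤ C
  c2 : C₁ + vl E + 1 ≤ C
  wt : ∃ Cw, 0 ≤ Cw ∧ Cw ≤ C ∧ ∀ (φ f : E → ℝ) (B t : ℝ), Wt φ → BM f → (∀ y, |f y| ≤ B) → 0 < t →
    |(∫ y, φ y * P t f y) - ∫ y, φ y * f y| ≤
      Cw * (√t * (∫ y in ball (0 : E) (5 / 4), |f y|) + B * Real.exp (-(1 / (128 * t))))

theorem ev_Ok (hE : 0 < finrank ℝ E) {C₁ : ℝ} (hC : 1 ≤ C₁) (C' : ℝ) :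
    ∃ C, C' ≤ C ∧ ∀ᶠ L : ℝ in atTop, Ok E C₁ C L := by
  obtain ⟨Cw, hw0, hw⟩ := wt (E := E)
  refine ⟨max (max C' Cw) (max (2 * 2 ^ hd E * vl E) (C₁ + vl E + 1)),
    (le_max_left _ _).trans (le_max_left _ _), ?_⟩
  filter_upwards [ev_Lg (max (max C' Cw) (max (2 * 2 ^ hd E * vl E) (C₁ + vl E + 1)))] with L hL
  exact ⟨hL, hE, hC, (le_max_left _ _).trans (le_max_right _ _),
    (le_max_right _ _).trans (le_max_right _ _), Cw, hw0.le,
    (le_max_right _ _).trans (le_max_left _ _), hw⟩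

namespace Ok

variable {C₁ C L Tot : ℝ} {f g φ : E → ℝ} (hO : Ok E C₁ C L)
include hO

theorem one : 1 ≤ C := by linarith [hO.c0, hO.c2, one_le_vl (E := E)]

theorem exp_le : Real.exp (-L) ≤ 1 / 256 := by
  rw [Real.exp_neg, one_div]
  exact inv_anti₀ (by norm_num) (by linarith [Real.add_one_le_exp L, hO.ge])

theorem exp2_le : 256 * Real.exp (-2 * L) ≤ Real.exp (-L) := by
  rw [Sc.exp_two]
  nlinarith [hO.exp_le, Real.exp_pos (-L)]

theorem rho_le : rho L ^ 2 ≤ Real.exp (-2 * L) := by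
  rw [rho_sq]; exact Real.exp_le_exp.2 (by linarith [hO.ge])

theorem ts_le : ts L ≤ Real.exp (-2 * L) := Real.exp_le_exp.2 (by linarith [hO.ge])

theorem niceP (h0 : 0 ≤ Tot) (hf : BM f) (f0 : ∀ y, 0 ≤ f y) (fB : ∀ y, f y ≤ 2 * big L)
    (hT : ∫ y in ball (0 : E) 2, f y ≤ Tot) {t : ℝ} (t0 : 0 < t) (ht : t ≤ Real.exp (-L)) :
    Nice L Tot 2 (P t f) := by
  have n0 := ng'_pos L
  refine ⟨hf.P t0, abs_P_le_const t0 fun y => by rw [abs_of_nonneg (f0 y)]; exact fB y, ?_⟩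
  simp only [abs_of_nonneg (P_nonneg t0.le f0 _)]
  have a1 := lev hf f0 fB t0 (measurableSet_ball (x := (0 : E)) (ε := 3 / 2)) isBounded_ball
    (d := 1 / 4) (by norm_num)
  have a2 : ∫ y in cthickening (1 / 4) (ball (0 : E) (3 / 2)), f y ≤ ∫ y in ball (0 : E) 2, f y := by
    refine setIntegral_mono_set (hf.integrableOn isBounded_ball) (Eventually.of_forall f0)
      (LE.le.eventuallyLE ?_)
    rw [cthickening_ball (by norm_num) (by norm_num)]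
    exact closedBall_subset_ball (by norm_num)
  have a3 := hO.tail _ (hO.sm t 128 t0 ht (by norm_num) (by norm_num))
  rw [show (1 / 4 : ℝ) ^ 2 / (8 * t) = 1 / (128 * t) by field_simp; norm_num] at a1
  have a4 : 2 ^ hd E * Real.exp (-(1 / (128 * t))) * (2 * big L) *
      (volume : Measure E).real (ball 0 (3 / 2)) ≤ C * big L * Real.exp (-(1 / (128 * t))) := by
    have := big_pos L
    calc _ ≤ 2 ^ hd E * Real.exp (-(1 / (128 * t))) * (2 * big L) * vl E := by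
          gcongr; exact real_le_vl (by norm_num)
      _ = 2 * 2 ^ hd E * vl E * big L * Real.exp (-(1 / (128 * t))) := by ring
      _ ≤ _ := by gcongr; exact hO.c1
  linarith

theorem wP (h0 : 0 ≤ Tot) (hφ : Wt φ) (hg : Nice L Tot (Real.exp (L / 8)) g) {t : ℝ} (t0 : 0 < t)
    (ht : t ≤ 16 * Real.exp (-2 * L)) :
    |(∫ y, φ y * P t g y) - ∫ y, φ y * g y| ≤ rm L Tot := by
  obtain ⟨Cw, c0, c1, hw⟩ := hO.wt
  refine (hw φ g _ t hφ hg.bm hg.le t0).trans (hO.err h0 c0 c1 (Real.sqrt_nonneg _) ?_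
    (hg.abs.int_le (by norm_num)) t0 (by linarith [hO.exp2_le, Real.exp_pos (-L)]) (by norm_num)
    (by norm_num) le_rfl)
  rw [Real.sqrt_le_left (by positivity), mul_pow, ← Sc.exp_two]
  linarith

theorem wkk (h0 : 0 ≤ Tot) (hφ : Wt φ) (hg : Nice L Tot (Real.exp (L / 8)) g) {l : ℝ} (l0 : 0 < l)
    (hl : l ≤ Real.exp (-L)) :
    |(∫ z, φ z * ∫ y, kk l z y * g y) - ck E * l ^ finrank ℝ E * ∫ y, φ y * g y| ≤
      ck E * l ^ finrank ℝ E * rm L Tot := by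
  refine (wt_kk hφ hg.bm l0 (by linarith [hO.exp_le])).trans ?_
  have := ck_pos (E := E)
  gcongr
  exact hO.err' h0 hO.one l0.le (by linarith) (hg.abs.int_le (by norm_num))

theorem wball (h0 : 0 ≤ Tot) (hφ : Wt φ) (hg : Nice L Tot (Real.exp (L / 8)) g)
    (g0 : ∀ y, 0 ≤ g y) {s : ℝ} (s0 : 0 < s) (hs : s ≤ 4 * Real.exp (-L)) :
    ∫ z, φ z * ∫ y in ball z s, g y ≤
      om E * s ^ finrank ℝ E * ((∫ y, φ y * g y) + rm L Tot) := by
  refine (wt_ball hφ hg.bm g0 s0 (by linarith [hO.exp_le])).trans ?_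
  have := om_pos (V := E)
  gcongr
  exact hO.err' h0 hO.one s0.le hs (hg.int_le (by norm_num))

end Ok

namespace GS

variable {D : Dat E ι} {ff Γ φ f : E → ℝ} {Q : ℕ} {C₁ C L η κ : ℝ} (h : GS D ff Γ Q C₁ L η κ)
include h

theorem tot0 : 0 ≤ D.tot := integral_nonneg fun y => add_nonneg (h.τ0 y) (h.ee_nonneg y)

theorem sub_tot (hf : BM f) (f1 : ∀ y, f y ≤ D.τ y + D.ee y) :
    ∫ y in ball (0 : E) 2, f y ≤ D.tot :=
  integral_mono (hf.integrableOn isBounded_ball)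
    ((h.bτ.add h.bee).integrableOn isBounded_ball) f1

theorem sub_le (f1 : ∀ y, f y ≤ D.τ y + D.ee y) (y : E) : f y ≤ 2 * big L := by
  linarith [f1 y, h.τle y, h.ee_le y]

theorem τ_sub (y : E) : D.τ y ≤ D.τ y + D.ee y := le_add_of_nonneg_right (h.ee_nonneg y)

theorem ee_sub (y : E) : D.ee y ≤ D.τ y + D.ee y := le_add_of_nonneg_left (h.τ0 y)

theorem β_le (y : E) : |D.β y| ≤ 2 * (|D.ε y| + D.τ y) := by
  have := abs_sub (2 * D.ε y) (D.τ y)
  rw [abs_mul, abs_two, abs_of_nonneg (h.τ0 y)] at this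
  unfold Dat.β
  linarith [h.τ0 y]

variable (hO : Ok E C₁ C L)
include hO

theorem nP (hf : BM f) (f0 : ∀ y, 0 ≤ f y) (f1 : ∀ y, f y ≤ D.τ y + D.ee y) {t : ℝ} (t0 : 0 < t)
    (ht : t ≤ Real.exp (-L)) : Nice L D.tot 2 (P t f) :=
  hO.niceP h.tot0 hf f0 (h.sub_le f1) (h.sub_tot hf f1) t0 ht

theorem up {K : ℝ} (hf : Nice L D.tot K f) (hK : K ≤ 4 * C₁ + 4 * vl E + 4) :
    Nice L D.tot (Real.exp (L / 8)) f :=
  hf.mono h.tot0 (by linarith [hO.c, hO.c2])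

theorem nP' (hf : BM f) (f0 : ∀ y, 0 ≤ f y) (f1 : ∀ y, f y ≤ D.τ y + D.ee y) {t : ℝ} (t0 : 0 < t)
    (ht : t ≤ Real.exp (-L)) : Nice L D.tot (Real.exp (L / 8)) (P t f) :=
  h.up hO (h.nP hO hf f0 f1 t0 ht) (by linarith [hO.c0, one_le_vl (E := E)])

theorem n0 (hf : BM f) (f0 : ∀ y, 0 ≤ f y) (f1 : ∀ y, f y ≤ D.τ y + D.ee y) :
    Nice L D.tot (Real.exp (L / 8)) f := by
  refine h.up hO (K := 2) ⟨hf, fun y => by rw [abs_of_nonneg (f0 y)]; exact h.sub_le f1 y, ?_⟩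
    (by linarith [hO.c0, one_le_vl (E := E)])
  simp only [abs_of_nonneg (f0 _)]
  have := setIntegral_mono_set (hf.integrableOn (isBounded_ball (x := (0 : E)) (r := 2)))
    (Eventually.of_forall f0) (ball_subset_ball (show (3 / 2 : ℝ) ≤ 2 by norm_num)).eventuallyLE
  linarith [h.sub_tot hf f1, h.tot0, ng'_pos L]

theorem nβ : Nice L D.tot (Real.exp (L / 8)) D.β := by
  have r0 : 0 < rho L ^ 2 := pow_pos h.st.ρ_pos 2
  have c0 := hO.c0
  refine h.up hO (((h.nP hO h.bτ h.τ0 h.τ_sub r0 (by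
    linarith [hO.rho_le, hO.exp2_le, Real.exp_pos (-L)])).smul (c := 2 * C₁) (by linarith)).dom
    h.bβ (fun y => (h.st.abs_β_le y).trans ?_) fun y hy => ?_) (by linarith [one_le_vl (E := E)])
  · exact mul_le_mul_of_nonneg_right (by linarith) (big_pos L).le
  · linarith [h.β_le y, h.har y (by linarith)]

theorem nPβ {t : ℝ} (t0 : 0 < t) (ht : t ≤ 16 * Real.exp (-2 * L)) :
    Nice L D.tot (Real.exp (L / 8)) (P t D.β) := by
  have r0 : 0 < rho L ^ 2 := pow_pos h.st.ρ_pos 2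
  have c0 := hO.c0
  have v1 := one_le_vl (E := E)
  have e0 := Real.exp_pos (-L)
  have e1 := hO.exp2_le
  refine h.up hO ((((h.nP hO h.bτ h.τ0 h.τ_sub (t := t + rho L ^ 2) (by linarith) (by
    linarith [hO.rho_le])).smul (c := 2 * C₁) (by linarith)).add
    ((nice_ng (by linarith [hO.ge]) h.tot0).smul (c := 2) (by norm_num))).dom (h.bβ.P t0)
    (fun y => (abs_P_le_const t0 h.st.abs_β_le y).trans ?_) fun y hy => ?_) (by linarith)
  · exact mul_le_mul_of_nonneg_right (by linarith) (big_pos L).le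
  · have a1 := abs_P_le_of_le ((h.st.bm_ε.abs.add h.bτ).const_mul 2) t0 h.β_le y
    rw [P_const_mul] at a1
    have a2 := h.harP y t (by linarith) t0 (by unfold tm; linarith)
    linarith [ng_le_ng' L]

theorem ner {T : ℝ} (T0 : 0 < T) (hT : T ≤ Real.exp (-2 * L)) :
    Nice L D.tot (Real.exp (L / 8)) (D.er L T) := by
  have e0 := Real.exp_pos (-L)
  have e1 := hO.exp2_le
  have L1 : 1 ≤ L := by linarith [hO.ge]
  have a1 : (L ^ 5)⁻¹ ≤ 1 := inv_le_one_of_one_le₀ (one_le_pow₀ L1)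
  exact h.up hO (((h.nP hO h.bee h.ee_nonneg h.ee_sub T0 (by linarith)).add
    ((h.nP hO (h.bτ.add h.bee) (fun y => add_nonneg (h.τ0 y) (h.ee_nonneg y))
      (fun y => le_rfl) (t := 8 * T) (by linarith) (by linarith)).smul
      (c := (L ^ 5)⁻¹) (by positivity))).add (nice_ng (by linarith) h.tot0))
    (by linarith [hO.c0, one_le_vl (E := E)])

theorem wPf (hφ : Wt φ) (hf : BM f) (f0 : ∀ y, 0 ≤ f y) (f1 : ∀ y, f y ≤ D.τ y + D.ee y) {t : ℝ}
    (t0 : 0 < t) (ht : t ≤ 16 * Real.exp (-2 * L)) :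
    ∫ y, φ y * P t f y ≤ (∫ y, φ y * f y) + rm L D.tot := by
  linarith [le_abs_self _ |>.trans (hO.wP h.tot0 hφ (h.n0 hO hf f0 f1) t0 ht)]

theorem wer (hφ : Wt φ) {T : ℝ} (T0 : 0 < T) (hT : T ≤ Real.exp (-2 * L)) :
    ∫ y, φ y * D.er L T y ≤ 2 * (∫ y, φ y * D.ee y) + (L ^ 5)⁻¹ * (∫ y, φ y * D.τ y) +
      3 * rm L D.tot := by
  have L1 : 1 ≤ L := by linarith [hO.ge]
  have a0 : 0 ≤ (L ^ 5)⁻¹ := by positivity
  have a1 : (L ^ 5)⁻¹ ≤ 1 := inv_le_one_of_one_le₀ (one_le_pow₀ L1)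
  have b := (h.bτ.add h.bee).P (show 0 < 8 * T by linarith)
  unfold Dat.er
  rw [hφ.add ((h.bee.P T0).add (b.const_mul _)) (BM.const _),
    hφ.add (h.bee.P T0) (b.const_mul _), Wt.smul]
  have a2 := h.wPf hO hφ h.bee h.ee_nonneg h.ee_sub T0 (by linarith)
  have a3 := h.wPf hO hφ (h.bτ.add h.bee) (fun y => add_nonneg (h.τ0 y) (h.ee_nonneg y))
    (fun y => le_rfl) (t := 8 * T) (by linarith) (by linarith)
  rw [hφ.add h.bτ h.bee] at a3
  have a4 := (hφ.const_le hO.dim (ng'_pos L).le).trans (hO.ng_le h.tot0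
    (by linarith [hO.c0, hO.c2]) (by linarith [one_le_vl (E := E)]))
  have a5 := mul_le_mul_of_nonneg_left a3 a0
  have a6 := mul_le_mul_of_nonneg_right a1
    (add_nonneg (hφ.int0 h.ee_nonneg) (rm_nonneg L h.tot0))
  linarith

/-- The absolute value of the averaged defect. -/
theorem wabs (hφ : Wt φ) {c : ℝ} (hc : 0 ≤ c) (h0 : 0 ≤ ∫ y, φ y * D.βb L y)
    (hp : ∀ y : E, ‖y‖ ≤ 1 → P (ts L) D.β y ≤ c * P (ts L) D.τ y + D.er L (ts L) y) :
    ∫ y, φ y * |D.βb L y| ≤ 2 * c * ((∫ y, φ y * D.τ y) + rm L D.tot) +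
      2 * (2 * (∫ y, φ y * D.ee y) + (L ^ 5)⁻¹ * (∫ y, φ y * D.τ y) + 3 * rm L D.tot) := by
  have t0 := ts_pos L
  have t1 := hO.ts_le
  have b1 := (h.bm_τb.const_mul c).add (h.bm_er t0)
  have a1 := hφ.mono h.bm_βb.abs ((b1.const_mul 2).sub h.bm_βb) fun y hy => by
    rw [abs_eq_np]
    have : max (D.βb L y) 0 ≤ c * D.τb L y + D.er L (ts L) y :=
      max_le (hp y hy) (add_nonneg (mul_nonneg hc (h.τb0 y)) (h.er0 (by linarith [hO.ge]) t0 y))
    linarith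
  rw [hφ.sub (b1.const_mul 2) h.bm_βb, Wt.smul, hφ.add (h.bm_τb.const_mul c) (h.bm_er t0),
    Wt.smul] at a1
  have a2 := mul_le_mul_of_nonneg_left
    (h.wPf hO hφ h.bτ h.τ0 h.τ_sub t0 (by linarith)) hc
  have a3 := h.wer hO hφ t0 t1
  unfold Dat.τb at a1
  linarith

end GS

end Pool.Agent.Lib.MP_8daebb_an.AS
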