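import Pool.Agent.Lib.MP_8daebb_an.AS.M3
import Pool.Agent.Lib.MP_8daebb_an.AS.M5

/-! The inequality in one window of scales. -/

open MeasureTheory Metric Set Module Filter
open scoped RealInnerProductSpace

namespace Pool.Agent.Lib.MP_8daebb_an.AS

open HK

variable {E : Type*} [NormedAddCommGroup E] [InnerProductSpace ℝ E] [FiniteDimensional ℝ E]
  [MeasurableSpace E] [BorelSpace E] {ι : Type*} [Fintype ι]

/-- Weighted negative part at level `s`. -/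
noncomputable def Dat.Nn (D : Dat E ι) (L : ℝ) (φ : E → ℝ) (s : ℝ) : ℝ :=
  ∫ y, φ y * np (P s (D.βb L) y)

theorem Wt.le8 {φ f₀ f₁ f₂ f₃ f₄ f₅ f₆ f₇ f₈ : E → ℝ} (hφ : Wt φ) {c₁ c₂ c₃ c₄ c₅ c₆ c₇ c₈ : ℝ}
    (b₀ : BM f₀) (b₁ : BM f₁) (b₂ : BM f₂) (b₃ : BM f₃) (b₄ : BM f₄) (b₅ : BM f₅) (b₆ : BM f₆)
    (b₇ : BM f₇) (b₈ : BM f₈) (h : ∀ z, ‖z‖ ≤ 1 → f₀ z ≤ c₁ * f₁ z + c₂ * f₂ z + c₃ * f₃ z +
      c₄ * f₄ z + c₅ * f₅ z + c₆ * f₆ z + c₇ * f₇ z + c₈ * f₈ z) :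
    ∫ z, φ z * f₀ z ≤ c₁ * (∫ z, φ z * f₁ z) + c₂ * (∫ z, φ z * f₂ z) + c₃ * (∫ z, φ z * f₃ z) +
      c₄ * (∫ z, φ z * f₄ z) + c₅ * (∫ z, φ z * f₅ z) + c₆ * (∫ z, φ z * f₆ z) +
      c₇ * (∫ z, φ z * f₇ z) + c₈ * ∫ z, φ z * f₈ z := by
  have a₂ := (b₁.const_mul c₁).add (b₂.const_mul c₂)
  have a₃ := a₂.add (b₃.const_mul c₃)
  have a₄ := a₃.add (b₄.const_mul c₄)
  have a₅ := a₄.add (b₅.const_mul c₅)
  have a₆ := a₅.add (b₆.const_mul c₆)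
  have a₇ := a₆.add (b₇.const_mul c₇)
  have := hφ.mono b₀ (a₇.add (b₈.const_mul c₈)) h
  rw [hφ.add a₇ (b₈.const_mul c₈), hφ.add a₆ (b₇.const_mul c₇), hφ.add a₅ (b₆.const_mul c₆),
    hφ.add a₄ (b₅.const_mul c₅), hφ.add a₃ (b₄.const_mul c₄), hφ.add a₂ (b₃.const_mul c₃),
    hφ.add (b₁.const_mul c₁) (b₂.const_mul c₂)] at this
  simpa only [Wt.smul] using this

theorem fin_m6 {k o₂ o₃ Ca Cn Cp d₂ d₅ dN d w β τ e A B b R I₀ I₁ I₂ I₃ I₄ I₅ I₆ I₇ I₈ : ℝ}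
    (hk : 0 < k) (h₂ : 0 ≤ o₂) (h₃ : 0 ≤ o₃) (ha : 0 ≤ Ca) (hn : 0 ≤ Cn) (hp : 0 ≤ Cp)
    (w0 : 0 < w) (p₂ : 0 ≤ d₂) (q₂ : d₂ ≤ 1) (p₅ : 0 ≤ d₅) (q₅ : d₅ ≤ 1) (pN : 0 ≤ dN)
    (qN : dN ≤ 1) (qd : d ≤ d₂) (τ0 : 0 ≤ τ) (e0 : 0 ≤ e) (A0 : 0 ≤ A) (B0 : 0 ≤ B) (R0 : 0 ≤ R)
    (t₀ : k * w * (β - 2 * R) ≤ I₀) (t₁ : I₁ ≤ k * w * (τ + 2 * R)) (t₂ : I₂ ≤ τ + R)
    (t₃ : I₃ ≤ w * (Ca * A + R)) (t₄ : I₄ ≤ w * (Ca * A + R))
    (t₅ : I₅ ≤ k * w * b + w * (Cn * (dN * B) + R)) (t₆ : I₆ ≤ w * (o₂ * (B + 2 * R)))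
    (t₇ : I₇ ≤ w * (o₃ * (e + R))) (t₈ : I₈ ≤ w * (o₂ * (2 * e + d * τ + 4 * R)))
    (key : I₀ ≤ d₂ * I₁ + d₂ * w * I₂ + d₅ * I₃ + d₅ * I₄ + Cp * I₅ + dN * I₆ + Cp * I₇ + Cp * I₈) :
    β ≤ (4 * k + 3 + 2 * Ca + Cp * (1 + Cn + o₃ + 4 * o₂) + 2 * o₂) / k *
      (d₂ * τ + d₅ * A + dN * B + e + R) + Cp * b := by
  have a : k * (β - 2 * R) ≤ d₂ * (k * (τ + 2 * R)) + d₂ * (τ + R) + 2 * (d₅ * (Ca * A + R)) +
      Cp * (k * b + (Cn * (dN * B) + R)) + dN * (o₂ * (B + 2 * R)) + Cp * (o₃ * (e + R)) +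
      Cp * (o₂ * (2 * e + d * τ + 4 * R)) := by
    refine le_of_mul_le_mul_left ?_ w0
    have u₁ := mul_le_mul_of_nonneg_left t₁ p₂
    have u₂ := mul_le_mul_of_nonneg_left t₂ (mul_nonneg p₂ w0.le)
    have u₃ := mul_le_mul_of_nonneg_left t₃ p₅
    have u₄ := mul_le_mul_of_nonneg_left t₄ p₅
    have u₅ := mul_le_mul_of_nonneg_left t₅ hp
    have u₆ := mul_le_mul_of_nonneg_left t₆ pN
    have u₇ := mul_le_mul_of_nonneg_left t₇ hp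
    have u₈ := mul_le_mul_of_nonneg_left t₈ hp
    linarith
  rw [div_mul_eq_mul_div, ← sub_le_iff_le_add, le_div_iff₀ hk]
  have v₁ : d₂ * R ≤ R := mul_le_of_le_one_left R0 q₂
  have v₂ : d₅ * R ≤ R := mul_le_of_le_one_left R0 q₅
  have v₃ : dN * R ≤ R := mul_le_of_le_one_left R0 qN
  have v₄ : d * τ ≤ d₂ * τ := mul_le_mul_of_nonneg_right qd τ0
  have v₅ := mul_le_mul_of_nonneg_left v₁ hk.le
  have v₆ := mul_le_mul_of_nonneg_left v₃ h₂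
  have v₇ := mul_le_mul_of_nonneg_left v₄ (mul_nonneg hp h₂)
  obtain ⟨x, hx⟩ : ∃ x, x = d₂ * τ := ⟨_, rfl⟩
  obtain ⟨y, hy⟩ : ∃ y, y = d₅ * A := ⟨_, rfl⟩
  obtain ⟨z, hz⟩ : ∃ z, z = dN * B := ⟨_, rfl⟩
  have x0 : 0 ≤ x := hx ▸ mul_nonneg p₂ τ0
  have y0 : 0 ≤ y := hy ▸ mul_nonneg p₅ A0
  have z0 : 0 ≤ z := hz ▸ mul_nonneg pN B0
  have a' : (β - Cp * b) * k ≤ (k + 1 + Cp * o₂) * x + 2 * Ca * y + (Cp * Cn + o₂) * z +
      (Cp * o₃ + 2 * (Cp * o₂)) * e + (4 * k + 3 + Cp + 2 * o₂ + Cp * o₃ + 4 * (Cp * o₂)) * R := by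
    rw [hx, hy, hz]; linarith
  rw [← hx, ← hy, ← hz]
  have m₂ := mul_nonneg hp h₂
  have m₃ := mul_nonneg hp h₃
  have mn := mul_nonneg hp hn
  refine a'.trans ?_
  rw [mul_add _ _ R, mul_add _ _ e, mul_add _ _ z, mul_add _ _ y]
  refine add_le_add (add_le_add (add_le_add (add_le_add ?_ ?_) ?_) ?_) ?_ <;>
    exact mul_le_mul_of_nonneg_right (by linarith) (by assumption)

namespace GS

variable {D : Dat E ι} {ff Γ φ : E → ℝ} {Q : ℕ} {C₁ C L η κ : ℝ} (h : GS D ff Γ Q C₁ L η κ)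
include h

theorem bm_Ff (hL : 1 ≤ L) {η₂ s l u : ℝ} (hη : 0 < η₂) (hs : 0 < s) (hl : 0 < l) (hu : 0 < u) :
    BM (D.Ff L η₂ s l u) := by
  have b1 := bm_kk hl (h.bm_τb.P hs)
  have b2 := h.bm_τb.P (show 0 < 4 * u ^ 2 by positivity)
  refine BM.mul ((b1.div_const (η₂ / u ^ 2)).of_abs_le
    (b1.meas.div (b2.meas.add measurable_const)) fun z => ?_)
    ((h.bm_fe hL hη hs).P (by positivity))
  have p0 : 0 ≤ P (4 * u ^ 2) (D.τb L) z := P_nonneg (by positivity) h.τb0 z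
  have m0 := h.mu0 hs l z
  rw [abs_of_nonneg (by positivity)]
  exact div_le_div_of_nonneg_left m0 (by positivity) (by linarith)

variable (hO : Ok E C₁ C L)
include hO

theorem nβb : Nice L D.tot (Real.exp (L / 8)) (D.βb L) :=
  h.nPβ hO (ts_pos L) (by linarith [hO.ts_le, Real.exp_pos (-2 * L)])

theorem nPβb {s : ℝ} (s0 : 0 < s) (hs : s ≤ Real.exp (-2 * L)) :
    Nice L D.tot (Real.exp (L / 8)) (P s (D.βb L)) := by
  rw [show P s (D.βb L) = P (s + ts L) D.β from funext (h.P_βb s0)]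
  exact h.nPβ hO (by linarith [ts_pos L]) (by linarith [hO.ts_le, Real.exp_pos (-2 * L)])

theorem Nn_le (hφ : Wt φ) {s : ℝ} (s0 : 0 < s) (hs : s ≤ Real.exp (-2 * L)) :
    D.Nn L φ s ≤ (∫ y, φ y * |D.βb L y|) + rm L D.tot := by
  have a1 := hφ.mono (bm_np (h.bm_βb.P s0)) (h.bm_βb.abs.P s0)
    fun y _ => (np_le_abs _).trans (abs_P_le s0.le _ y)
  have a2 := (le_abs_self _).trans (hO.wP h.tot0 hφ (h.nβb hO).abs s0 (by linarith))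
  unfold Dat.Nn
  linarith

end GS

theorem window (Cp : ℝ) (hCp : 0 ≤ Cp) : ∃ K C' : ℝ, 0 < K ∧
    ∀ (D : Dat E ι) (ff Γ φ : E → ℝ) (Q N cθ cΞ : ℕ) (C₁ C L η κ η₂ X s r l l' : ℝ), C' ≤ C →
    GS D ff Γ Q C₁ L η κ → Ok E C₁ C L → Sc X L s r l l' N cθ cΞ → Wt φ → 0 < η₂ →
    Nice L D.tot (Real.exp (L / 8)) (D.fe L η₂ s) →
    (∀ z : E, ‖z‖ ≤ 1 →
      ∫ y, kk l z y * P s (D.βb L) y ≤ (X ^ 2 * L)⁻¹ * (∫ y, kk l z y * P s (D.τb L) y) +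
      (X ^ 2 * L)⁻¹ * l ^ finrank ℝ E * P (4 * l ^ 2) (D.τb L) z +
      (X ^ 5)⁻¹ * D.Ff L η₂ s l l z + (X ^ 5)⁻¹ * D.Ff L η₂ s l l' z +
      Cp * D.Dl L s l z + (X ^ N)⁻¹ * (∫ y in ball z (2 * l), np (P s (D.βb L) y)) +
      Cp * (∫ y in ball z (3 * l), D.ee y) + Cp * ∫ y in ball z (2 * l), D.er L (s + ts L) y) →
    ∫ y, φ y * D.β y ≤ K * ((X ^ 2 * L)⁻¹ * (∫ y, φ y * D.τ y) +
      (X ^ 5)⁻¹ * (∫ y, φ y * D.fe L η₂ s y) + (X ^ N)⁻¹ * (∫ y, φ y * |D.βb L y|) +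
      (∫ y, φ y * D.ee y) + rm L D.tot) + Cp * (D.Nn L φ s - D.Nn L φ (s * L ^ 40)) := by
  obtain ⟨Ca, ha0, ha⟩ := av_fail (E := E)
  obtain ⟨Cn, hn0, hn⟩ := neg_chain (E := E)
  have k0 := ck_pos (E := E)
  have o0 := om_pos (V := E)
  refine ⟨(4 * ck E + 3 + 2 * Ca + Cp * (1 + Cn + om E * 3 ^ finrank ℝ E +
    4 * (om E * 2 ^ finrank ℝ E)) + 2 * (om E * 2 ^ finrank ℝ E)) / ck E, max Ca Cn,
    by positivity, ?_⟩
  intro D ff Γ φ Q N cθ cΞ C₁ C L η κ η₂ X s r l l' hC h hO hs hφ η0 nfe hpt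
  have l0 := hs.l0
  have s0 := hs.s0
  have L0 := hs.L0
  have L1 := hs.L1
  have X0 := hs.X0
  have X1 := hs.X1
  have t0 := ts_pos L
  have T0 : 0 < s + ts L := by linarith
  have R0 := rm_nonneg L h.tot0
  have e0 := Real.exp_pos (-L)
  have e1 := Real.exp_pos (-2 * L)
  have e2 := hO.exp2_le
  have sle : s ≤ Real.exp (-2 * L) := hs.s_le_top.trans hs.hs'
  have lle := hs.l_le_exp
  have sq : ∀ u, 0 < u → u ≤ Real.exp (-L) → u ^ 2 ≤ Real.exp (-2 * L) := fun u u0 hu => by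
    rw [Sc.exp_two]; exact pow_le_pow_left₀ u0.le hu 2
  have w0 : 0 < l ^ finrank ℝ E := pow_pos l0 _
  have t3 : ∀ u, l ≤ u → u ≤ Real.exp (-L) → ∫ z, φ z * D.Ff L η₂ s l u z ≤
      l ^ finrank ℝ E * (Ca * (∫ y, φ y * D.fe L η₂ s y) + rm L D.tot) := fun u hu hu' => by
    have u0 := l0.trans_le hu
    have a1 := ha φ (D.τb L) (D.fe L η₂ s) (η₂ / u ^ 2) _ s l u hφ h.bm_τb h.τb0 nfe.bm
      (h.fe0 L1 η0 s0) (fun y => (le_abs_self _).trans (nfe.le y)) (by positivity) s0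
      (by linarith [hs.s_le_l_sq]) l0 hu (by linarith [hO.exp_le])
    have a2 := hO.err h.tot0 ha0.le ((le_max_left _ _).trans hC) u0.le (by linarith)
      (nfe.int_le (ρ := 5 / 4) (by norm_num)) (pow_pos u0 2) (by linarith [sq u u0 hu'])
      (c := 600) (by norm_num) (by norm_num) le_rfl
    have a3 := mul_le_mul_of_nonneg_left a2 w0.le
    unfold Dat.Ff
    linarith
  refine fin_m6 (d := (L ^ 5)⁻¹) k0 (by positivity) (by positivity) ha0.le hn0.le hCp w0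
    (by positivity) (inv_le_one_of_one_le₀ (one_le_mul_of_one_le_of_one_le (one_le_pow₀ X1) L1))
    (by positivity) (inv_le_one_of_one_le₀ (one_le_pow₀ X1)) (by positivity)
    (inv_le_one_of_one_le₀ (one_le_pow₀ X1)) ?_ (hφ.int0 h.τ0) (hφ.int0 h.ee_nonneg)
    (hφ.int0 (h.fe0 L1 η0 s0)) (hφ.int0 fun y => abs_nonneg _) R0 ?_ ?_ ?_ (t3 l le_rfl lle)
    (t3 l' hs.l_le hs.l'_le_exp) ?_ ?_ ?_ ?_
    (hφ.le8 (bm_kk l0 (h.bm_βb.P s0)) (bm_kk l0 (h.bm_τb.P s0)) (h.bm_τb.P (by positivity))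
      (h.bm_Ff L1 η0 s0 l0 l0) (h.bm_Ff L1 η0 s0 l0 hs.l'0)
      ((bm_kk l0 (bm_np (h.bm_βb.P s0))).sub (bm_np (bm_kk l0 (h.bm_βb.P s0))))
      (bm_ball (by positivity) (bm_np (h.bm_βb.P s0))) (bm_ball (by positivity) h.bee)
      (bm_ball (by positivity) (h.bm_er T0)) hpt)
  · refine inv_anti₀ (by positivity) ?_
    have b3 : X ^ 2 ≤ L := hs.pow_le_L (by have := hs.hN; omega)
    have b4 : L ≤ L ^ 4 := le_self_pow₀ L1 (by norm_num)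
    rw [pow_succ L 4]
    exact mul_le_mul_of_nonneg_right (b3.trans b4) L0.le
  · have a1 := (abs_le.1 (hO.wkk h.tot0 hφ (h.nPβb hO s0 sle) l0 lle)).1
    have a2 := (abs_le.1 (hO.wP h.tot0 hφ (h.nβ hO) T0 (by linarith [hs.T_le_exp]))).1
    simp only [← h.P_βb s0] at a2
    have a3 := mul_le_mul_of_nonneg_left a2 (mul_pos k0 w0).le
    linarith
  · have a0 : Nice L D.tot (Real.exp (L / 8)) (P s (D.τb L)) := by
      rw [show P s (D.τb L) = P (s + ts L) D.τ from funext (h.P_τb s0)]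
      exact h.nP' hO h.bτ h.τ0 h.τ_sub T0 (by linarith [hs.T_le_exp])
    have a1 := (abs_le.1 (hO.wkk h.tot0 hφ a0 l0 lle)).2
    have a2 := h.wPf hO hφ h.bτ h.τ0 h.τ_sub T0 (by linarith [hs.T_le_exp])
    simp only [← h.P_τb s0] at a2
    have a3 := mul_le_mul_of_nonneg_left a2 (mul_pos k0 w0).le
    linarith
  · have a0 : 0 < 4 * l ^ 2 := by positivity
    simp only [h.P_τb a0]
    exact h.wPf hO hφ h.bτ h.τ0 h.τ_sub (by linarith) (by linarith [sq l l0 lle, hO.ts_le])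
  · have s1 : 0 < s * L ^ 40 := by positivity
    have a1 := hn φ (D.βb L) _ s (s * L ^ 40) l hφ h.bm_βb (h.nβb hO).le s0
      (by linarith [hs.s_le_l_sq]) l0
      (by linarith [hs.l_sq_le, hs.mul_le_top (c := 16) (k := 8) (by norm_num) (by norm_num)])
      (by linarith [hs.top_le, hO.exp_le])
    have a2 := hO.err h.tot0 hn0.le ((le_max_right _ _).trans hC) (Real.sqrt_nonneg (s * L ^ 40))
      (by rw [Real.sqrt_le_left (by positivity), mul_pow, ← Sc.exp_two]; linarith [hs.hs'])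
      (h.nβb hO).int s1 (by linarith [hs.hs']) (c := 600) (by norm_num) (by norm_num) le_rfl
    have a3 : l / √(s * L ^ 40) ≤ (X ^ N)⁻¹ := by
      rw [div_le_iff₀ (Real.sqrt_pos.2 s1), le_inv_mul_iff₀ (by positivity),
        Real.le_sqrt (by positivity) s1.le, mul_pow, ← hs.sqrt_L, Real.sq_sqrt L0.le]
      have b1 := mul_le_mul_of_nonneg_left hs.l_sq_le L0.le
      have b2 := hs.mul_le_top (c := 4) (k := 9) (by norm_num) (by norm_num)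
      calc _ ≤ _ := b1
        _ = 4 * L ^ 9 * s := by ring
        _ ≤ _ := b2
    have a4 := mul_le_mul_of_nonneg_left (mul_le_mul_of_nonneg_right a3
      (hφ.int0 fun y => abs_nonneg (D.βb L y))) (mul_pos hn0 w0).le
    have a5 := mul_le_mul_of_nonneg_left a2 w0.le
    unfold Dat.Nn
    linarith
  · have a1 := hO.wball h.tot0 hφ (h.nPβb hO s0 sle).np (fun y => np_nonneg _) (s := 2 * l)
      (by positivity) (by linarith)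
    have a2 := mul_le_mul_of_nonneg_left (h.Nn_le hO hφ s0 sle)
      (show 0 ≤ om E * (2 * l) ^ finrank ℝ E by positivity)
    rw [mul_pow] at a1 a2
    unfold Dat.Nn at a2
    linarith
  · have a1 := hO.wball h.tot0 hφ (h.n0 hO h.bee h.ee_nonneg h.ee_sub) h.ee_nonneg (s := 3 * l)
      (by positivity) (by linarith)
    rw [mul_pow] at a1
    linarith
  · have a1 := hO.wball h.tot0 hφ (h.ner hO T0 hs.T_le_exp) (h.er0 L0.le T0) (s := 2 * l)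
      (by positivity) (by linarith)
    have a2 := mul_le_mul_of_nonneg_left (h.wer hO hφ T0 hs.T_le_exp)
      (show 0 ≤ om E * (2 * l) ^ finrank ℝ E by positivity)
    rw [mul_pow] at a1 a2
    linarith

end Pool.Agent.Lib.MP_8daebb_an.AS
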