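import Pool.Agent.Lib.MP_8daebb_an.AS.M6

/-! Averaging over the windows. -/

open MeasureTheory Metric Set Module Filter
open scoped RealInnerProductSpace

namespace Pool.Agent.Lib.MP_8daebb_an.AS

open HK

variable {E : Type*} [NormedAddCommGroup E] [InnerProductSpace ℝ E] [FiniteDimensional ℝ E]
  [MeasurableSpace E] [BorelSpace E] {ι : Type*} [Fintype ι]

theorem fin_m7 {X L n Kw Cp dN β τ e B R S M : ℝ} (hX : 2 ≤ X) (hL : X ^ 5 ≤ L) (hn : L / X ≤ n)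
    (hK : 0 ≤ Kw) (hp : 0 ≤ Cp) (hN : dN ≤ (X ^ 4)⁻¹) (τ0 : 0 ≤ τ) (e0 : 0 ≤ e) (B0 : 0 ≤ B)
    (R0 : 0 ≤ R) (hB : B ≤ 2 * (X / L) * (τ + R) + 2 * (2 * e + (L ^ 5)⁻¹ * τ + 3 * R))
    (hS : S ≤ X * (τ + R) + n * X * (B + R)) (hM : M ≤ B + R)
    (key : n * β ≤ Kw * (n * ((X ^ 2 * L)⁻¹ * τ + dN * B + e + R) + (X ^ 5)⁻¹ * S) + Cp * M) :
    β ≤ (19 * Kw + 9 * Cp) * ((X ^ 2 * L)⁻¹ * τ + e + R) := by
  have X0 : 0 < X := by linarith
  have X1 : 1 ≤ X := by linarith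
  have XL : X ≤ L := (le_self_pow₀ X1 (by norm_num)).trans hL
  have L0 : 0 < L := by linarith
  have L1 : 1 ≤ L := by linarith
  obtain ⟨q, hq⟩ : ∃ q, q = (X ^ 4)⁻¹ := ⟨_, rfl⟩
  obtain ⟨δ, hδ⟩ : ∃ δ, δ = (X ^ 2 * L)⁻¹ := ⟨_, rfl⟩
  have q0 : 0 < q := by rw [hq]; positivity
  have δ0 : 0 < δ := by rw [hδ]; positivity
  have q1 : q ≤ 1 := hq ▸ inv_le_one_of_one_le₀ (one_le_pow₀ X1)
  have a1 : X / L ≤ 1 := (div_le_one L0).2 XL
  have a2 : (L ^ 5)⁻¹ ≤ X / L := by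
    rw [inv_eq_one_div]
    exact div_le_div₀ X0.le X1 L0 (le_self_pow₀ L1 (by norm_num))
  have a3 : q * (X / L) ≤ δ := by
    rw [show q * (X / L) = δ / X by rw [hq, hδ]; field_simp]
    exact div_le_self δ0.le X1
  have a4 : 1 ≤ n * q := by
    rw [hq, le_mul_inv_iff₀ (by positivity), one_mul]
    refine le_trans ?_ hn
    rwa [le_div_iff₀ X0, ← pow_succ]
  have n1 : 1 ≤ n := by nlinarith
  have a5 : q ≤ n * δ := by
    calc q = L / X * δ / X := by rw [hq, hδ]; field_simp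
      _ ≤ L / X * δ := div_le_self (by positivity) X1
      _ ≤ _ := mul_le_mul_of_nonneg_right hn δ0.le
  have b1 : B ≤ 4 * (X / L * τ) + 4 * e + 8 * R := by
    linarith [mul_le_mul_of_nonneg_right a1 R0, mul_le_mul_of_nonneg_right a2 τ0]
  have b2 : q * B ≤ 4 * (δ * τ) + 4 * e + 8 * R := by
    linarith [mul_le_mul_of_nonneg_left b1 q0.le, mul_le_mul_of_nonneg_right a3 τ0,
      mul_le_of_le_one_left e0 q1, mul_le_of_le_one_left R0 q1]
  have b3 : q * R ≤ R := mul_le_of_le_one_left R0 q1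
  have n0 : 0 < n := by linarith
  have c1 : (X ^ 5)⁻¹ * S ≤ n * (5 * (δ * τ) + 4 * e + 10 * R) := by
    have d1 := mul_le_mul_of_nonneg_left hS (show 0 ≤ (X ^ 5)⁻¹ by positivity)
    have d2 : (X ^ 5)⁻¹ * (X * (τ + R) + n * X * (B + R)) =
        q * τ + q * R + n * (q * B) + n * (q * R) := by rw [hq]; field_simp; ring
    linarith [mul_le_mul_of_nonneg_right a5 τ0, mul_le_mul_of_nonneg_left b2 n0.le,
      mul_le_mul_of_nonneg_left b3 n0.le, le_mul_of_one_le_left R0 n1]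
  have c2 : M ≤ n * (4 * (δ * τ) + 4 * e + 9 * R) := by
    linarith [le_mul_of_one_le_left (add_nonneg B0 R0) a4, mul_le_mul_of_nonneg_left b2 n0.le,
      mul_le_mul_of_nonneg_left b3 n0.le]
  have c3 : dN * B ≤ 4 * (δ * τ) + 4 * e + 8 * R :=
    (mul_le_mul_of_nonneg_right (hq ▸ hN) B0).trans b2
  rw [← hδ] at key ⊢
  have δτ : 0 ≤ δ * τ := by positivity
  have c4 : n * (δ * τ + dN * B + e + R) + (X ^ 5)⁻¹ * S ≤ n * (19 * (δ * τ + e + R)) := by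
    have := mul_le_mul_of_nonneg_left c3 n0.le
    linarith [mul_nonneg n0.le δτ, mul_nonneg n0.le e0]
  have c5 : M ≤ n * (9 * (δ * τ + e + R)) := by
    linarith [mul_nonneg n0.le δτ, mul_nonneg n0.le e0]
  refine le_of_mul_le_mul_left ?_ n0
  linarith [mul_le_mul_of_nonneg_left c4 hK, mul_le_mul_of_nonneg_left c5 hp]

theorem GS.nfe {D : Dat E ι} {ff Γ : E → ℝ} {Q : ℕ} {C₁ C L η κ : ℝ} (h : GS D ff Γ Q C₁ L η κ)
    (hO : Ok E C₁ C L) {k : ℕ} (hk : 80 * ((2 ^ hd E + 2) * C₁) * L ^ (k + 1) ≤ Real.exp (1 / 8 * L))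
    {s : ℝ} (s0 : 0 < s) : Nice L D.tot (Real.exp (L / 8)) (D.fe L (L ^ k)⁻¹ s) := by
  have L1 : 1 ≤ L := by linarith [hO.ge]
  have L0 : 0 < L := by linarith
  have c0 : 0 < C₁ := by linarith [hO.c0]
  have η0 : 0 < (L ^ k)⁻¹ := by positivity
  obtain ⟨-, b0, b1⟩ := (h.bar L1).bm_e0 η0 s0
    (le_mul_of_one_le_right s0.le (one_le_pow₀ (n := 40) L1))
  have a1 : ∀ y, e0 (D.εb L) (D.Tb L) (L ^ k)⁻¹ s (s * L ^ 40) y ≤
      40 * ((2 ^ hd E + 2) * C₁) * L ^ (k + 1) := fun y => by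
    refine (b1 y).trans ?_
    rw [mul_div_cancel_left₀ _ s0.ne', Real.log_pow, div_inv_eq_mul]
    have := mul_le_mul_of_nonneg_left ((Real.log_le_sub_one_of_pos L0).trans (sub_le_self L zero_le_one))
      (show 0 ≤ 40 * ((2 ^ hd E + 2) * C₁ * L ^ k) by positivity)
    push_cast
    rw [pow_succ]
    linarith
  refine (((h.nP hO h.bτ h.τ0 h.τ_sub (ts_pos L) (by
    linarith [hO.ts_le, hO.exp2_le, Real.exp_pos (-L)])).smul
    (c := 40 * ((2 ^ hd E + 2) * C₁) * L ^ (k + 1)) (by positivity)).of_le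
    (h.bm_fe L1 η0 s0) fun y => ?_).mono h.tot0 (by rw [div_eq_inv_mul, ← one_div]; linarith)
  rw [abs_of_nonneg (h.fe0 L1 η0 s0 y)]
  exact (mul_le_mul_of_nonneg_right (a1 y) (h.τb0 y)).trans (le_abs_self _)

theorem gs_main (hm : 3 ≤ finrank ℝ E) (hG : G6.GeomStmt E) (Q : ℕ) {C₁ : ℝ} (hC : 1 ≤ C₁)
    (A : ℕ) : ∃ (N : ℕ) (K : ℝ), 1 ≤ N ∧ 0 < K ∧ ∀ᶠ X : ℝ in atTop, ∀ L, L = X ^ (2 * N) →
    ∀ (D : Dat E ι) (ff Γ φ : E → ℝ),
    GS D ff Γ Q C₁ L (L ^ A)⁻¹ (L ^ (finrank ℝ E + 1))⁻¹ → Wt φ →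
    ∫ y, φ y * D.β y ≤ K * ((X ^ 2 * L)⁻¹ * (∫ y, φ y * D.τ y) + (∫ y, φ y * D.ee y) +
      rm L D.tot) := by
  obtain ⟨k, N, cθ, cΞ, Cp, hN, hθ, hΞ, hp, hpt⟩ := point (ι := ι) hm hG Q C₁ A
  obtain ⟨Kw, C', hK, hw⟩ := window (E := E) (ι := ι) Cp (by linarith)
  obtain ⟨Ce, he0, he⟩ := ent (E := E)
  obtain ⟨C, hC', hO⟩ := ev_Ok (E := E) (by omega) hC (max C' Ce)
  refine ⟨N, 19 * Kw + 9 * Cp, by omega, by linarith, ?_⟩
  have hT := tendsto_XL (N := N) (by omega)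
  filter_upwards [hpt, p1a' (ι := ι) (by omega : 2 ≤ finrank ℝ E) C₁ A N (by omega),
    hT.eventually hO, ev_log 40 N, ev_log (Ce * 40) N, ev_log (Ce * (k + 2)) N,
    hT.eventually (ev_pow_m (80 * ((2 ^ hd E + 2) * C₁)) (1 / 8) (by norm_num) (k + 1)),
    hT.eventually (ev_pow_m 1 2 two_pos k), hT.eventually (eventually_ge_atTop (C₁ + 1)),
    eventually_ge_atTop 2] with X hpt ha hO x1 x2 x3 x4 x5 x6 hX L hL D ff Γ φ h hφ
  rw [← hL] at hO x1 x2 x3 x4 x5 x6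
  have X0 : 0 < X := by linarith
  have X1 : 1 ≤ X := by linarith
  have L1 : 1 ≤ L := by linarith [hO.ge]
  have L0 : 0 < L := by linarith
  have t0 := ts_pos L
  have R0 := rm_nonneg L h.tot0
  have τ0 := hφ.int0 h.τ0
  have e0' := hφ.int0 h.ee_nonneg
  have η0 : 0 < (L ^ k)⁻¹ := by positivity
  have X5 : X ^ 5 ≤ L := hL ▸ pow_le_pow_right₀ X1 (by omega)
  have XL : X ≤ L := (le_self_pow₀ X1 (by norm_num)).trans X5
  have lg1 : 1 ≤ Real.log L := by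
    rw [Real.le_log_iff_exp_le L0]; linarith [Real.exp_one_lt_d9, hO.ge]
  rcases le_total (∫ y, φ y * D.βb L y) 0 with h0 | h0
  · have a1 := (abs_le.1 (hO.wP h.tot0 hφ (h.nβ hO) t0
      (by linarith [hO.ts_le, Real.exp_pos (-2 * L)]))).1
    have a2 : 0 ≤ (X ^ 2 * L)⁻¹ * ∫ y, φ y * D.τ y := by positivity
    refine le_trans ?_ (le_mul_of_one_le_left (by linarith) (by linarith))
    unfold Dat.βb at h0
    linarith
  have hB := h.wabs hO hφ (c := X / L) (by positivity) h0 fun y hy =>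
    ha L hL D ff Γ Q _ h _ le_rfl hO.ts_le y (by linarith)
  obtain ⟨n, hn⟩ : ∃ n : ℕ, n = ⌈L / X⌉₊ := ⟨_, rfl⟩
  have n1 : L / X ≤ n := hn ▸ Nat.le_ceil _
  have n2 : (n : ℝ) * X ≤ 2 * L := by
    have a1 : (n : ℝ) < L / X + 1 := hn ▸ Nat.ceil_lt_add_one (by positivity)
    have a2 := mul_le_mul_of_nonneg_right a1.le X0.le
    rw [add_mul, div_mul_cancel₀ _ X0.ne'] at a2
    linarith
  obtain ⟨s, hs⟩ : ∃ s : ℕ → ℝ, ∀ i, s i = ts L * (L ^ 40) ^ i := ⟨_, fun _ => rfl⟩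
  have sz : s 0 = ts L := by rw [hs, pow_zero, mul_one]
  have ss : ∀ i, s i * L ^ 40 = s (i + 1) := fun i => by rw [hs, hs, pow_succ (L ^ 40), mul_assoc]
  have sge : ∀ i, ts L ≤ s i := fun i =>
    hs i ▸ le_mul_of_one_le_right t0.le (one_le_pow₀ (one_le_pow₀ L1))
  have lgn : Real.log (s n / ts L) = n * (40 * Real.log L) := by
    rw [hs, mul_div_cancel_left₀ _ t0.ne', Real.log_pow, Real.log_pow]; norm_num
  have sle : ∀ i ≤ n, s i ≤ Real.exp (-2 * L) := fun i hi => by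
    have a1 : s i ≤ s n := by
      rw [hs, hs]; exact mul_le_mul_of_nonneg_left (pow_le_pow_right₀ (one_le_pow₀ L1) hi) t0.le
    have a2 : Real.log (s n / ts L) ≤ 2 * L := by
      rw [lgn]; exact (mul_le_mul_of_nonneg_left x1 n.cast_nonneg).trans n2
    rw [Real.log_le_iff_le_exp (div_pos (t0.trans_le (sge n)) t0), div_le_iff₀ t0] at a2
    refine a1.trans (a2.trans_eq ?_)
    unfold ts; rw [← Real.exp_add]; congr 1; ring
  have hb := h.bar L1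
  have ind : ∀ i ≤ n, i * ∫ y, φ y * D.β y ≤ Kw * (i * ((X ^ 2 * L)⁻¹ * (∫ y, φ y * D.τ y) +
      (X ^ N)⁻¹ * (∫ y, φ y * |D.βb L y|) + (∫ y, φ y * D.ee y) + rm L D.tot) +
      (X ^ 5)⁻¹ * ∫ y, φ y * (e0 (D.εb L) (D.Tb L) (L ^ k)⁻¹ (ts L) (s i) y * D.τb L y)) +
      Cp * (D.Nn L φ (ts L) - D.Nn L φ (s i)) := by
    intro i
    induction i with
    | zero => intro _; simp [sz, e0]
    | succ i ih =>
      intro hi
      have s0 := t0.trans_le (sge i)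
      have sc : Sc X L (s i) _ _ _ N cθ cΞ :=
        ⟨hX, hL, hN, hθ, hΞ, sge i, (ss i).symm ▸ sle _ hi, rfl, rfl, rfl⟩
      have a1 := hw D ff Γ φ Q N cθ cΞ C₁ C L _ _ _ X (s i) _ _ _ ((le_max_left _ _).trans hC') h
        hO sc hφ η0 (h.nfe hO x4 s0) (hpt L D ff Γ h _ _ _ _ sc)
      have a2 : ∫ y, φ y * (e0 (D.εb L) (D.Tb L) (L ^ k)⁻¹ (ts L) (s (i + 1)) y * D.τb L y) =
          (∫ y, φ y * (e0 (D.εb L) (D.Tb L) (L ^ k)⁻¹ (ts L) (s i) y * D.τb L y)) +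
          ∫ y, φ y * D.fe L (L ^ k)⁻¹ (s i) y := by
        rw [← hφ.add ((hb.bm_e0 η0 t0 (sge i)).1.mul h.bm_τb) (h.bm_fe L1 η0 s0)]
        congr 1; funext y
        rw [Dat.fe, ← add_mul, hb.e0_add η0 t0 (sge i) sc.s_le_top, ss]
      rw [ss] at a1
      rw [a2]
      push_cast
      linarith [ih (by omega)]
  have sn0 := t0.trans_le (sge n)
  have sn1 := sle n le_rfl
  have e2 := hO.exp2_le
  refine fin_m7 hX X5 n1 hK.le (by linarith) (inv_anti₀ (by positivity) (pow_le_pow_right₀ X1 hN))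
    τ0 e0' (hφ.int0 fun y => abs_nonneg _) R0 hB ?_ ?_ (ind n le_rfl)
  · have a1 := he _ _ φ _ _ _ _ _ _ (L ^ k)⁻¹ (ts L) (s n) hb
      (by unfold tm; linarith [hO.exp_le]) hφ η0 t0 (sge n)
      (by unfold tm; linarith [Real.exp_pos (-L)])
    rw [h.τf_Tb, h.βf_b, lgn] at a1
    have a2 := hO.err h.tot0 he0.le ((le_max_right _ _).trans hC') (Real.sqrt_nonneg (s n))
      (by rw [Real.sqrt_le_left (by positivity), mul_pow, ← Sc.exp_two]; linarith)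
      ((h.nβb hO).abs.int_le (ρ := 5 / 4) (by norm_num)) sn0 (by linarith [Real.exp_pos (-L)])
      (c := 600) (by norm_num) (by norm_num) (le_mul_of_one_le_left (big_pos L).le hO.one_le)
    have a3 : Real.log ((C₁ + (L ^ k)⁻¹) / (L ^ k)⁻¹) ≤ (k + 1) * Real.log L := by
      rw [← Nat.cast_add_one, ← Real.log_pow]
      refine Real.log_le_log (by positivity) ?_
      rw [div_inv_eq_mul, pow_succ' L]
      refine mul_le_mul_of_nonneg_right ?_ (by positivity)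
      linarith [inv_le_one_of_one_le₀ (one_le_pow₀ (n := k) L1)]
    have a4 : kz L * s n / (L ^ k)⁻¹ ≤ 1 := by
      have b1 : kz L ≤ 1 := Real.exp_le_one_iff.2 (by linarith)
      rw [div_inv_eq_mul]
      calc kz L * s n * L ^ k ≤ 1 * Real.exp (-2 * L) * Real.exp (2 * L) := by
            gcongr; linarith
        _ = 1 := by rw [one_mul, ← Real.exp_add]; simp
    have a5 : Ce * (Real.log ((C₁ + (L ^ k)⁻¹) / (L ^ k)⁻¹) + kz L * s n / (L ^ k)⁻¹) ≤ X := by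
      refine le_trans ?_ x3
      rw [mul_assoc]
      exact mul_le_mul_of_nonneg_left (by linarith) he0.le
    have a6 := h.wPf hO hφ h.bτ h.τ0 h.τ_sub t0 (by linarith [hO.ts_le])
    have a7 := mul_le_mul a5 a6 (hφ.int0 h.τb0) X0.le
    have B0 := hφ.int0 fun y => abs_nonneg (D.βb L y)
    have a8 := mul_le_mul_of_nonneg_left (mul_le_mul_of_nonneg_right x2 B0) n.cast_nonneg
    have a9 := mul_le_mul_of_nonneg_left (mul_le_mul x1 a2 (by
      have := big_pos L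
      have : 0 ≤ ∫ y in ball (0 : E) (5 / 4), |D.βb L y| := integral_nonneg fun y => abs_nonneg _
      positivity) X0.le) n.cast_nonneg
    unfold Dat.τb at a1 ⊢
    linarith
  · have a1 : 0 ≤ D.Nn L φ (s n) := hφ.int0 fun y => np_nonneg _
    linarith [h.Nn_le hO hφ t0 hO.ts_le]

end Pool.Agent.Lib.MP_8daebb_an.AS
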