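import Pool.Agent.Lib.MP_8daebb_an.AS.M7
import Pool.Agent.Lib.MP_8daebb_an.AS.Glob

/-! The one-sided stress lemma. -/

open MeasureTheory Metric Set Module Filter
open scoped RealInnerProductSpace

namespace Pool.Agent.Lib.MP_8daebb_an.AS

open HK

variable {E : Type*} [NormedAddCommGroup E] [InnerProductSpace ℝ E] [FiniteDimensional ℝ E]
  [MeasurableSpace E] [BorelSpace E]

theorem ev_rm (K : ℝ) : ∀ᶠ L : ℝ in atTop, ∀ Tot, 0 ≤ Tot →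
    K * rm L Tot ≤ Real.exp (-L / 2) * Tot + Real.exp (-L ^ 2) := by
  filter_upwards [ev_pow_m K (1 / 4) (by norm_num) 0, eventually_ge_atTop 1] with L h1 h2 Tot h0
  rw [pow_zero, mul_one] at h1
  refine (mul_le_mul_of_nonneg_right h1 (rm_nonneg L h0)).trans ?_
  unfold rm
  rw [mul_add, ← mul_assoc, ← Real.exp_add, ← Real.exp_add]
  gcongr
  · linarith
  · nlinarith

theorem s_lemma {ι : Type*} [Fintype ι] (hm : 3 ≤ finrank ℝ E) (hG : G6.GeomStmt E) :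
    SLem E ι := by
  intro Q C₀ A hC
  obtain ⟨C₁, L₁, hC₁, hg⟩ := glob (E := E) (ι := ι) (by omega) Q C₀ A hC
  obtain ⟨N, K, hN, hK, hX⟩ := gs_main (ι := ι) hm hG Q hC₁ (A + 1)
  have N0 : (0 : ℝ) < ((2 * N : ℕ) : ℝ)⁻¹ := by
    have : 0 < 2 * N := by omega
    positivity
  have hT := tendsto_rpow_atTop N0
  obtain ⟨L₀, hL₀⟩ := eventually_atTop.1 (((hT.eventually (hX.and (eventually_ge_atTop K))).and
    (ev_rm K)).and ((eventually_ge_atTop L₁).and (eventually_gt_atTop 0)))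
  refine ⟨_, N0, K, L₀, fun L hL D hD φ φ0 φ1 φ2 => ?_⟩
  obtain ⟨⟨⟨h1, h2⟩, h3⟩, h4, L0⟩ := hL₀ L hL
  obtain ⟨D', ff, Γ, h, he⟩ := hg L h4 D hD
  have hφ : Wt φ := ⟨φ0, φ1, φ2⟩
  have key := h1 L (Real.rpow_inv_natCast_pow L0.le (by omega)).symm D' ff Γ φ h hφ
  have cg : ∀ f g : E → ℝ, (∀ y, ‖y‖ ≤ 3 → f y = g y) → ∫ y, φ y * f y = ∫ y, φ y * g y := by
    intro f g hfg
    congr 1; funext y
    rcases le_total 1 ‖y‖ with hy | hy
    · rw [φ2 y hy, zero_mul, zero_mul]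
    · rw [hfg y (by linarith)]
  have eτ : ∀ y, ‖y‖ ≤ 3 → D'.τ y = D.τ y := fun y hy => by unfold Dat.τ; rw [(he y hy).2.1]
  have et : D'.tot = ∫ y in ball (0 : E) 2, (D.τ y + D.ee y) :=
    setIntegral_congr_fun measurableSet_ball fun y hy => by
      have hy' : ‖y‖ ≤ 3 := by linarith [mem_ball_zero_iff.1 hy]
      simp only [eτ y hy', (he y hy').2.2]
  have h5 := h3 _ h.tot0
  have τ0 := hφ.int0 h.τ0
  rw [cg D'.β D.β fun y hy => by unfold Dat.β; rw [(he y hy).1, eτ y hy],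
    cg D'.ee D.ee fun y hy => (he y hy).2.2] at key
  rw [cg D'.τ D.τ eτ] at key τ0
  rw [et] at key h5
  have X0 : 0 < L ^ ((2 * N : ℕ) : ℝ)⁻¹ := Real.rpow_pos_of_pos L0 _
  have h6 : K * ((L ^ ((2 * N : ℕ) : ℝ)⁻¹) ^ 2 * L)⁻¹ ≤ L ^ (-(1 + ((2 * N : ℕ) : ℝ)⁻¹)) := by
    rw [Real.rpow_neg L0.le, Real.rpow_add L0, Real.rpow_one]
    generalize L ^ ((2 * N : ℕ) : ℝ)⁻¹ = X at X0 h2
    calc K * (X ^ 2 * L)⁻¹ ≤ X * (X ^ 2 * L)⁻¹ := by gcongr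
      _ = _ := by field_simp
  linarith [mul_le_mul_of_nonneg_right h6 τ0]

end Pool.Agent.Lib.MP_8daebb_an.AS
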