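import Pool.Agent.Lib.MP_8daebb_an.HK.Max

/-! The localised maximum principle. -/

open MeasureTheory Metric Filter Topology Set Real Module

namespace Pool.Agent.Lib.MP_8daebb_an.AS

open HK

variable {V : Type*} [NormedAddCommGroup V] [InnerProductSpace ℝ V] [FiniteDimensional ℝ V]
  [MeasurableSpace V] [BorelSpace V]

theorem max_four_s1 {f : V → ℝ} (hf : BM f) {s₀ s₁ T θ M : ℝ} (hs₀ : 0 < s₀) (hT : 0 < T) (hθ : 0 < θ)
    (hθ1 : 4 * θ ≤ 1) (hs₁ : s₁ ≤ 4 * θ ^ 2 * T) (hM : ∀ y, |f y| ≤ M)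
    (h : ∀ x, ∃ s, s₀ ≤ s ∧ s ≤ s₁ ∧ gI s f x ≤ 0) (y : V) :
    P T f y ≤ (24 + 4 * hd V) * 4 ^ hd V * θ * P (4 * T) (fun y => |f y|) y + 8 * exp (-(2 * θ)⁻¹) * M := by
  obtain ⟨a, ha⟩ : ∃ a, a = (θ * T)⁻¹ := ⟨_, rfl⟩
  have a0 : 0 < a := by rw [ha]; positivity
  have aT : a * T = θ⁻¹ := by rw [ha]; field_simp
  have as : a * s₁ ≤ 4 * θ := by
    rw [ha, inv_mul_le_iff₀ (by positivity)]
    nlinarith
  have M0 : 0 ≤ M := (abs_nonneg _).trans (hM y)
  have hf' : BM (fun y => f y - 8 * θ * |f y|) := hf.sub (hf.abs.const_mul _)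
  have e0 : ∀ u, 0 < u → ∀ x, P u (fun y => f y - 8 * θ * |f y|) x =
      P u f x - 8 * θ * P u (fun y => |f y|) x := fun u hu x => by
    rw [P_sub hf (hf.abs.const_mul _) hu, P_const_mul]
  have hφ : ∀ {b : ℝ}, 0 < b → IntegrableOn (fun u => exp (-b * u)) (Ioi 0) := fun hb =>
    exp_neg_integrableOn_Ioi 0 hb
  have hZ := potential_nonpos hf' a0 hs₀ fun x => by
    obtain ⟨s, h1, h2, h3⟩ := h x
    refine ⟨s, h1, le_trans ?_ h3⟩
    refine setIntegral_mono_on ((integrableOn_mul_P hf' measurableSet_Ioi Subset.rfl (hφ a0)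
      x).mono_set Ioc_subset_Ioi_self) (integrableOn_P hf le_rfl x) measurableSet_Ioc
      fun u hu => ?_
    have hu1 : a * u ≤ 4 * θ := (mul_le_mul_of_nonneg_left (hu.2.trans h2) a0.le).trans as
    have hu0 : 0 < a * u := mul_pos a0 hu.1
    have b1 := Real.abs_exp_sub_one_le (x := a * u) (by rw [abs_of_pos hu0]; linarith)
    rw [abs_of_pos hu0] at b1
    have b2 := abs_P_le hu.1.le f x
    have b3 : 0 ≤ exp (a * u) - 1 := sub_nonneg.2 (one_le_exp hu0.le)
    rw [e0 u hu.1, neg_mul, exp_neg, inv_mul_le_iff₀ (exp_pos _)]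
    have b4 := neg_abs_le (P u f x)
    have b5 := le_abs_self (exp (a * u) - 1)
    nlinarith [abs_nonneg (P u f x)]
  have h1 : ∫ u in Ioi 0, exp (-a * u) * P (T + u) (fun y => f y - 8 * θ * |f y|) y ≤ 0 := by
    rw [← P_integral_mul_P hf' measurableSet_Ioi Subset.rfl (by fun_prop) (hφ a0) hT]
    exact (P_mono (bm_integral_mul_P hf' measurableSet_Ioi Subset.rfl (by fun_prop) (hφ a0))
      (BM.const 0) hT hZ y).trans_eq (P_const hT 0 y)
  have hi : IntegrableOn (fun u => exp (-a * u) * P (T + u) (fun y => f y - 8 * θ * |f y|) y)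
      (Ioi 0) := by
    refine (integrableOn_mul_P (hf'.P hT) measurableSet_Ioi Subset.rfl (hφ a0) y).congr_fun
      (fun u hu => ?_) measurableSet_Ioi
    simp only [P_P hf' hu hT, add_comm]
  set Q := P (4 * T) (fun y => |f y|) y with hQ
  have Q0 : 0 ≤ Q := P_nonneg (by positivity) (fun _ => abs_nonneg _) y
  have hd0 := hd_nonneg (V := V)
  obtain ⟨K, hK⟩ : ∃ K, K = (12 + 2 * hd V) * 4 ^ hd V * θ * Q + 4 * exp (-(2 * θ)⁻¹) * M := ⟨_, rfl⟩
  have h2 : ∫ u in Ioi 0, exp (-a * u) * P T f y ≤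
      ∫ u in Ioi 0, (exp (-a * u) * P (T + u) (fun y => f y - 8 * θ * |f y|) y +
        exp (-(a / 2) * u) * K) := by
    refine setIntegral_mono_on ((hφ a0).mul_const _) (hi.add ((hφ (half_pos a0)).mul_const _))
      measurableSet_Ioi fun u hu => ?_
    have hu0 : 0 < u := hu
    have e : exp (-(a / 2) * u) = exp (-a * u) * exp (a * u / 2) := by
      rw [← exp_add]; congr 1; ring
    rw [e, mul_assoc, ← mul_add, e0 _ (by positivity)]
    refine mul_le_mul_of_nonneg_left ?_ (exp_pos _).le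
    have c0 : 1 + a * u / 2 ≤ exp (a * u / 2) := by linarith [add_one_le_exp (a * u / 2)]
    have c1 : 0 < a * u := mul_pos a0 hu0
    rcases le_total u T with huT | huT
    · have d1 := abs_P_sub_time hf hT (show T ≤ T + u by linarith) (by linarith) y
      have d2 := P_le_of_le_mul hf.abs (fun _ => abs_nonneg _) (c := 4) (t := T + u) (s := 4 * T)
        (by positivity) (by linarith) (by linarith) y
      rw [← hQ] at d1 d2
      rw [add_sub_cancel_left, show u / T = θ * (a * u) by rw [ha]; field_simp] at d1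
      have d3 := neg_abs_le (P (T + u) f y - P T f y)
      have d4 : 0 ≤ 4 ^ hd V * θ * Q := by positivity
      have d5 : 0 ≤ exp (a * u / 2) * (4 * exp (-(2 * θ)⁻¹) * M) := by positivity
      have d6 : (1 + a * u / 2) * ((12 + 2 * hd V) * (4 ^ hd V * θ * Q)) ≤
          exp (a * u / 2) * ((12 + 2 * hd V) * (4 ^ hd V * θ * Q)) := by gcongr
      have d7 := mul_le_mul_of_nonneg_left d2 hθ.le
      rw [hK]
      nlinarith [mul_nonneg hd0 d4, mul_nonneg c1.le d4]
    · have d1 := abs_P_le_const hT hM y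
      have d2 := abs_P_le_const (show 0 < T + u by positivity) hM y
      have d3 := abs_P_le_const (f := fun y => |f y|) (show 0 < T + u by positivity)
        (fun y => by rw [abs_abs]; exact hM y) y
      have d4 : 1 ≤ exp (a * u / 2) * exp (-(2 * θ)⁻¹) := by
        rw [← exp_add]
        refine one_le_exp ?_
        have := mul_le_mul_of_nonneg_left huT a0.le
        rw [aT] at this
        rw [mul_inv]
        linarith
      have d5 : 0 ≤ exp (a * u / 2) * ((12 + 2 * hd V) * 4 ^ hd V * θ * Q) := by positivity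
      have d6 := mul_le_mul_of_nonneg_right d4 M0
      have d7 := (le_abs_self _).trans d3
      have d8 := mul_le_mul hθ1 d7 (P_nonneg (by positivity) (fun _ => abs_nonneg _) y) zero_le_one
      rw [hK]
      nlinarith [le_abs_self (P T f y), neg_abs_le (P (T + u) f y)]
  rw [integral_add hi ((hφ (half_pos a0)).mul_const _), integral_mul_const, integral_mul_const,
    integral_exp_mul_Ioi (by linarith), integral_exp_mul_Ioi (by linarith)] at h2
  simp only [mul_zero, exp_zero, neg_div_neg_eq] at h2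
  have h3 : 1 / a * P T f y ≤ 1 / a * (2 * K) := by
    have : 1 / (a / 2) * K = 1 / a * (2 * K) := by field_simp
    linarith
  have h4 := le_of_mul_le_mul_left h3 (by positivity)
  rw [hK] at h4
  linarith

theorem P_ind_le_s1 {A : Set V} {x : V} {d t : ℝ} (ht : 0 < t) (hd0 : 0 ≤ d)
    (h : ∀ y ∈ A, d ≤ ‖y - x‖) :
    P t (A.indicator fun _ => (1 : ℝ)) x ≤ 2 ^ hd V * exp (-(d ^ 2 / (8 * t))) := by
  have := abs_P_le_tail (f := A.indicator fun _ => (1 : ℝ)) (g := fun _ => (1 : ℝ)) (BM.const 1) ht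
    (A := d ^ 2 / t) (x := x) (fun y => by by_cases hy : y ∈ A <;> simp [hy]) fun y hy => by
      rw [div_mul_cancel₀ _ ht.ne']
      exact pow_le_pow_left₀ hd0 (h y (mem_of_indicator_ne_zero hy)) 2
  rw [P_const (by positivity), mul_one, div_div, mul_comm t] at this
  exact (le_abs_self _).trans this

theorem walk_loc_s1 : ∃ C > (0 : ℝ), ∀ (f : V → ℝ) (B s₀ s₁ R d N T : ℝ) (z : V), BM f →
    (∀ y, |f y| ≤ B) → 0 < s₀ → s₀ ≤ s₁ → 1 ≤ N → N ^ 2 * s₁ ≤ T → 0 < d → C * s₁ ≤ d ^ 2 →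
    (∀ x, ‖x - z‖ ≤ R → ∃ s ∈ Icc s₀ s₁, (∫ t in (0 : ℝ)..s, P t f x) ≤ 0) →
    ∀ y, ‖y - z‖ ≤ R - 2 * d → P T f y ≤ C / N * P (4 * T) (fun w => |f w|) y +
      C * B * (Real.exp (-N) + Real.exp (-(d ^ 2 / (32 * T)))) := by
  have hd0 := hd_nonneg (V := V)
  have g1 : (1 : ℝ) ≤ 2 ^ hd V := one_le_rpow one_le_two hd0
  have g2 : (2 : ℝ) ^ hd V ≤ 4 ^ hd V := rpow_le_rpow two_pos.le (by norm_num) hd0
  obtain ⟨K, hK⟩ : ∃ K, K = (12 + 2 * hd V) * 4 ^ hd V := ⟨_, rfl⟩
  have K1 : 12 * 4 ^ hd V ≤ K := by rw [hK]; gcongr; linarith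
  have K0 : 0 < K := by linarith
  refine ⟨4 * K * 2 ^ hd V, by positivity,
    fun f B s₀ s₁ R d N T z hf hB hs₀ hs hN hT d0 hC h y hy => ?_⟩
  have B0 : 0 ≤ B := (abs_nonneg _).trans (hB y)
  have s1 : 0 < s₁ := hs₀.trans_le hs
  have N0 : 0 < N := by linarith
  have T0 : 0 < T := lt_of_lt_of_le (by positivity) hT
  have Q0 := P_nonneg (f := fun w => |f w|) (show 0 ≤ 4 * T by positivity) (fun _ => abs_nonneg _) y
  have KC : K ≤ 4 * K * 2 ^ hd V := by nlinarith
  rcases le_total N 2 with hN2 | hN2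
  · have a1 := (le_abs_self _).trans (abs_P_le T0.le f y)
    have a2 := P_le_of_le_mul hf.abs (fun _ => abs_nonneg _) (c := 4) (s := 4 * T) T0
      (by linarith) le_rfl y
    have a3 : 4 ^ hd V ≤ 4 * K * 2 ^ hd V / N := by
      rw [le_div_iff₀ N0]; nlinarith
    have a4 := mul_le_mul_of_nonneg_right a3 Q0
    exact (a1.trans (a2.trans a4)).trans (le_add_of_nonneg_right (by positivity))
  set A : Set V := (ball z (R - d))ᶜ with hA
  have mA : MeasurableSet A := measurableSet_ball.compl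
  have bA : BM (A.indicator fun _ => (1 : ℝ)) := (BM.const 1).indicator mA
  have iA : ∀ w, 0 ≤ A.indicator (fun _ => (1 : ℝ)) w ∧ A.indicator (fun _ => (1 : ℝ)) w ≤ 1 :=
    fun w => by by_cases hw : w ∈ A <;> simp [hw]
  have hg : BM fun w => f w - 2 * B * A.indicator (fun _ => (1 : ℝ)) w := hf.sub (bA.const_mul _)
  have eg : ∀ t, 0 < t → ∀ x, P t (fun w => f w - 2 * B * A.indicator (fun _ => (1 : ℝ)) w) x =
      P t f x - 2 * B * P t (A.indicator fun _ => (1 : ℝ)) x := fun t ht x => by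
    rw [P_sub hf (bA.const_mul _) ht, P_const_mul]
  have hfar : ∀ t, 0 < t → P t (A.indicator fun _ => (1 : ℝ)) y ≤
      2 ^ hd V * exp (-(d ^ 2 / (8 * t))) := fun t ht =>
    P_ind_le_s1 ht d0.le fun w hw => by
      have b1 : R - d ≤ ‖w - z‖ := by simpa [hA, dist_eq_norm] using hw
      linarith [norm_sub_le_norm_sub_add_norm_sub w y z]
  have key := max_four_s1 hg (s₁ := s₁) (θ := (2 * N)⁻¹) (M := 3 * B) hs₀ T0 (by positivity)
    (by rw [← div_eq_mul_inv, div_le_one (by positivity)]; linarith)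
    (by
      calc s₁ = N ^ 2 * s₁ / N ^ 2 := by field_simp
        _ ≤ T / N ^ 2 := by gcongr
        _ = _ := by field_simp; norm_num)
    (fun w => by
      refine (abs_sub _ _).trans ?_
      rw [abs_of_nonneg (mul_nonneg (by positivity) (iA w).1)]
      nlinarith [hB w, (iA w).2])
    (fun x => by
      rcases le_or_gt ‖x - z‖ R with hx | hx
      · obtain ⟨s, hs', h3⟩ := h x hx
        rw [intervalIntegral.integral_of_le (hs₀.le.trans hs'.1)] at h3
        exact ⟨s, hs'.1, hs'.2, (gI_mono hg hf (fun w => sub_le_self _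
          (mul_nonneg (by positivity) (iA w).1)) s x).trans h3⟩
      · refine ⟨s₀, le_rfl, hs, (gI_le_of_le hg (K := 0) hs₀.le fun u hu => ?_).trans_eq
          (mul_zero _)⟩
        have b1 := P_ind_le_s1 (A := ball z (R - d)) hu.1 d0.le (x := x)
          fun w hw => by
            have b1 : ‖w - z‖ < R - d := by simpa [dist_eq_norm] using hw
            linarith [norm_sub_le_norm_sub_add_norm_sub x w z, norm_sub_rev x w]
        have b2 : (A.indicator fun _ => (1 : ℝ)) =
            fun w => 1 - (ball z (R - d)).indicator (fun _ => (1 : ℝ)) w := funext fun w => by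
          by_cases hw : w ∈ ball z (R - d) <;> simp [hA, hw]
        have b3 : 2 * 2 ^ hd V ≤ exp (d ^ 2 / (8 * u)) := by
          refine le_trans ?_ (add_one_le_exp _)
          refine le_trans ?_ (le_add_of_nonneg_right zero_le_one)
          rw [le_div_iff₀ (by linarith [hu.1])]
          have c1 : 2 ^ hd V * u ≤ 2 ^ hd V * s₁ := by have := hu.2.trans hs; gcongr
          have c2 : 4 * (2 ^ hd V * s₁) ≤ K * (2 ^ hd V * s₁) := by gcongr; linarith
          nlinarith
        have b4 : 2 ^ hd V * exp (-(d ^ 2 / (8 * u))) ≤ 1 / 2 := by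
          rw [exp_neg, ← div_eq_mul_inv, div_le_iff₀ (exp_pos _)]; linarith
        rw [eg u hu.1, b2, P_sub (BM.const 1) ((BM.const 1).indicator measurableSet_ball) hu.1,
          P_const hu.1]
        nlinarith [(le_abs_self _).trans (abs_P_le_const hu.1 hB x)]) y
  have a1 : P (4 * T) (fun w => |f w - 2 * B * A.indicator (fun _ => (1 : ℝ)) w|) y ≤
      P (4 * T) (fun w => |f w|) y + 2 * B * P (4 * T) (A.indicator fun _ => (1 : ℝ)) y := by
    rw [← P_const_mul, ← P_add hf.abs (bA.const_mul _) (by positivity)]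
    refine P_mono hg.abs (hf.abs.add (bA.const_mul _)) (by positivity) (fun w => ?_) y
    refine (abs_sub _ _).trans ?_
    rw [abs_of_nonneg (mul_nonneg (by positivity) (iA w).1)]
  have a2 := hfar (4 * T) (by positivity)
  have a3 := (hfar T T0).trans (mul_le_mul_of_nonneg_left (exp_le_exp.2
    (show -(d ^ 2 / (8 * T)) ≤ -(d ^ 2 / (32 * T)) by gcongr; norm_num)) (by positivity))
  rw [show 8 * (4 * T) = 32 * T by ring] at a2
  rw [eg T T0, show (2 * (2 * N)⁻¹)⁻¹ = N by field_simp,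
    show (24 + 4 * hd V) * 4 ^ hd V * (2 * N)⁻¹ = K / N by rw [hK]; field_simp; ring] at key
  set X := exp (-(d ^ 2 / (32 * T))) with hX
  have X0 : 0 < X := exp_pos _
  have a4 := mul_le_mul_of_nonneg_left (a1.trans (add_le_add le_rfl
    (mul_le_mul_of_nonneg_left a2 (by positivity)))) (show 0 ≤ K / N by positivity)
  have a5 := mul_le_mul_of_nonneg_left a3 (show 0 ≤ 2 * B by positivity)
  have a6 : K / N * (2 * B * (2 ^ hd V * X)) ≤ K * (2 * B * (2 ^ hd V * X)) :=
    mul_le_mul_of_nonneg_right (div_le_self K0.le hN) (by positivity)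
  have a7 : K / N * P (4 * T) (fun w => |f w|) y ≤
      4 * K * 2 ^ hd V / N * P (4 * T) (fun w => |f w|) y := by gcongr
  have a8 : 1 * (2 * B * (2 ^ hd V * X)) ≤ K * (2 * B * (2 ^ hd V * X)) := by gcongr; linarith
  have a9 : 24 * (B * exp (-N)) ≤ 4 * K * 2 ^ hd V * (B * exp (-N)) := by gcongr; nlinarith
  nlinarith

end Pool.Agent.Lib.MP_8daebb_an.AS
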