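import Pool.Agent.Lib.MP_8daebb_an.AS.S1d
import Pool.Agent.Lib.MP_8daebb_an.AS.S1e

/-! Gaussian identities, stopping, maximum principle (sections 1 and 2). -/

open MeasureTheory Metric Set Module
open scoped RealInnerProductSpace

namespace Pool.Agent.Lib.MP_8daebb_an.AS

open HK

variable {E : Type*} [NormedAddCommGroup E] [InnerProductSpace ℝ E] [FiniteDimensional ℝ E]
  [MeasurableSpace E] [BorelSpace E]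

variable {ε ff : E → ℝ} {T : E → E →L[ℝ] E} {C₁ ρ B κ tM : ℝ}

theorem St.rad_nonneg (h : St ε T ff C₁ ρ B κ tM) (x : E) {t : ℝ} (ht : 0 < t) :
    0 ≤ rad T x t :=
  rad_nonneg_s1 h x ht

theorem St.rad_le (h : St ε T ff C₁ ρ B κ tM) (x : E) {t : ℝ} (ht : 0 < t) :
    rad T x t ≤ 2 ^ hd E * tt T x (2 * t) :=
  rad_le_s1 h x ht

theorem St.rad_mono (h : St ε T ff C₁ ρ B κ tM) (x : E) {t s c : ℝ} (ht : 0 < t) (hts : t ≤ s)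
    (hc : s ≤ c * t) : rad T x t ≤ c ^ hd E * rad T x s :=
  rad_mono_s1 h x ht hts hc

theorem St.continuousOn_rad (h : St ε T ff C₁ ρ B κ tM) :
    ContinuousOn (fun p : ℝ × E => rad T p.2 p.1) (Ioi 0 ×ˢ univ) :=
  continuousOn_rad_s1 h

theorem continuousOn_P {f : E → ℝ} (hf : BM f) :
    ContinuousOn (fun p : ℝ × E => P p.1 f p.2) (Ioi 0 ×ˢ univ) :=
  continuousOn_P_s1 hf

/-- Identity (M) for the energy density. -/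
theorem tt_deriv : ∃ C > (0 : ℝ), ∀ (ε ff : E → ℝ) (T : E → E →L[ℝ] E) (C₁ ρ B κ tM : ℝ),
    St ε T ff C₁ ρ B κ tM → tM ≤ 1 → ∀ (x : E) (t : ℝ), ‖x‖ ≤ 5 / 2 → 0 < t → 2 * t ≤ tM →
    ∃ D', HasDerivAt (tt T x) D' t ∧
      |D' - 2 * rad T x t / t| ≤ C * (P (2 * t) (fun y => |βf ε T y|) x + κ) :=
  tt_deriv_s1

/-- Integrated identities (M) and (I). -/
theorem dpoint {ι : Type*} [Fintype ι] (C₁ : ℝ) : ∃ C₃ C L₀ : ℝ, 1 ≤ C₃ ∧ 0 < C ∧ ∀ L, L₀ ≤ L →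
    ∀ (D : Dat E ι) (ff Γ : E → ℝ) (Q : ℕ) (η κ : ℝ), GS D ff Γ Q C₁ L η κ →
    ∀ (x : E) (s N : ℝ), ‖x‖ ≤ 5 / 2 → rho L ^ 2 ≤ s → 1 ≤ N → 16 * N * s ≤ tm L →
    (∫ t in (0 : ℝ)..s, P t D.β x) ≤ C * (th D.T x s + kz L * s) ∧
    ∀ e : E, ‖e‖ = 1 → -(C * (th D.T x s + kz L * N * s + L / N)) ≤
      ∫ t in (0 : ℝ)..s, P t (fun y => See D.ε D.T e y - C₃ * D.β y) x :=
  dpoint_s1 C₁

/-- Stopping. -/
theorem stop (C₁ : ℝ) : ∃ C : ℝ, 1 ≤ C ∧ ∀ (ε ff : E → ℝ) (T : E → E →L[ℝ] E) (ρ B κ tM : ℝ),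
    St ε T ff C₁ ρ B κ tM → ∀ (x : E) (s₁ fl a w : ℝ), 0 < fl → fl ≤ tt T x s₁ → ρ ^ 2 ≤ s₁ →
    0 < a → C * a ≤ 1 → 0 ≤ w → 2 * s₁ * Real.exp w ≤ 1 →
    C * (1 + |Real.log ρ|) ≤ fl * Real.exp (a * w / C) →
    ∃ s ∈ Icc (2 * s₁) (2 * s₁ * Real.exp w), th T x s ≤ a * ZZ T x s ∧ fl ≤ C * ZZ T x s :=
  stop_s1 C₁

/-- Localised maximum principle. -/
theorem walk_loc : ∃ C > (0 : ℝ), ∀ (f : E → ℝ) (B s₀ s₁ R d N T : ℝ) (z : E), BM f →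
    (∀ y, |f y| ≤ B) → 0 < s₀ → s₀ ≤ s₁ → 1 ≤ N → N ^ 2 * s₁ ≤ T → 0 < d → C * s₁ ≤ d ^ 2 →
    (∀ x, ‖x - z‖ ≤ R → ∃ s ∈ Icc s₀ s₁, (∫ t in (0 : ℝ)..s, P t f x) ≤ 0) →
    ∀ y, ‖y - z‖ ≤ R - 2 * d → P T f y ≤ C / N * P (4 * T) (fun w => |f w|) y +
      C * B * (Real.exp (-N) + Real.exp (-(d ^ 2 / (32 * T)))) :=
  walk_loc_s1

end Pool.Agent.Lib.MP_8daebb_an.AS
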