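import Pool.Agent.Lib.MP_8daebb_an.AS.Def
import Pool.Agent.Lib.MP_8daebb_an.HK.Max
import Pool.Agent.Lib.MP_8daebb_an.HK.Dv

/-! Stress pairs tested with Gaussian fields: the two pointwise identities. -/

open MeasureTheory Metric Filter Topology Set Real Module
open scoped RealInnerProductSpace

namespace Pool.Agent.Lib.MP_8daebb_an.AS

open HK

variable {E : Type*} [NormedAddCommGroup E] [InnerProductSpace ℝ E] [FiniteDimensional ℝ E]

/-! ### Traces -/

theorem ta_tr_sum (A : E →L[ℝ] E) :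
    tr A = ∑ i, ⟪stdOrthonormalBasis ℝ E i, A (stdOrthonormalBasis ℝ E i)⟫ :=
  LinearMap.trace_eq_sum_inner _ _

omit [FiniteDimensional ℝ E] in
theorem ta_tr_add (A B : E →L[ℝ] E) : tr (A + B) = tr A + tr B := by simp [tr]

omit [FiniteDimensional ℝ E] in
theorem ta_tr_smul (c : ℝ) (A : E →L[ℝ] E) : tr (c • A) = c * tr A := by simp [tr]

theorem ta_tr_id : tr (ContinuousLinearMap.id ℝ E) = 2 * hd E := by
  simp [tr, hd]; ring

theorem ta_tr_smulRight (l : E →L[ℝ] ℝ) (b : E) : tr (l.smulRight b) = l b :=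
  LinearMap.trace_smulRight (l : E →ₗ[ℝ] ℝ) b

theorem ta_abs_tr_le (A : E →L[ℝ] E) : |tr A| ≤ 2 * hd E * ‖A‖ := by
  rw [ta_tr_sum]
  refine (Finset.abs_sum_le_sum_abs _ _).trans ?_
  refine (Finset.sum_le_card_nsmul _ _ ‖A‖ fun i _ => ?_).trans (le_of_eq ?_)
  · have h1 := (stdOrthonormalBasis ℝ E).orthonormal.1 i
    have h2 := A.le_opNorm (stdOrthonormalBasis ℝ E i)
    have h3 := abs_real_inner_le_norm (stdOrthonormalBasis ℝ E i) (A (stdOrthonormalBasis ℝ E i))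
    rw [h1] at h2 h3
    linarith
  · rw [Finset.card_univ, Fintype.card_fin, nsmul_eq_mul, hd]; ring

theorem ta_continuous_tr : Continuous (tr : (E →L[ℝ] E) → ℝ) := by
  simp only [funext (ta_tr_sum (E := E))]
  fun_prop

omit [FiniteDimensional ℝ E] in
theorem ta_pair_add (ε : ℝ) (T A B : E →L[ℝ] E) : pair ε T (A + B) = pair ε T A + pair ε T B := by
  simp only [pair, ContinuousLinearMap.comp_add, ta_tr_add]; ring

omit [FiniteDimensional ℝ E] in
theorem ta_pair_smul (ε c : ℝ) (T A : E →L[ℝ] E) : pair ε T (c • A) = c * pair ε T A := by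
  simp only [pair, ContinuousLinearMap.comp_smul, ta_tr_smul]; ring

theorem ta_pair_id (ε : ℝ) (T : E →L[ℝ] E) :
    pair ε T (ContinuousLinearMap.id ℝ E) = 2 * hd E * ε - tr T := by
  simp only [pair, ta_tr_id, ContinuousLinearMap.comp_id]; ring

theorem ta_pair_smulRight (ε : ℝ) (T : E →L[ℝ] E) (l : E →L[ℝ] ℝ) (b : E) :
    pair ε T (l.smulRight b) = ε * l b - l (T b) := by
  have : T.comp (l.smulRight b) = l.smulRight (T b) := by ext v; simp
  rw [pair, this, ta_tr_smulRight, ta_tr_smulRight]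

theorem ta_abs_pair_le (ε : ℝ) (T A : E →L[ℝ] E) :
    |pair ε T A| ≤ 2 * hd E * (|ε| + ‖T‖) * ‖A‖ := by
  have h1 := ta_abs_tr_le A
  have h2 := (ta_abs_tr_le (T.comp A)).trans
    (mul_le_mul_of_nonneg_left (T.opNorm_comp_le A) (by have := hd_nonneg (V := E); positivity))
  have h3 := mul_le_mul_of_nonneg_left h1 (abs_nonneg ε)
  rw [pair]
  refine (abs_sub _ _).trans ?_
  rw [abs_mul]
  linarith

omit [FiniteDimensional ℝ E] in
theorem ta_cs {T : E →L[ℝ] E} (hs : ∀ v w, ⟪T v, w⟫ = ⟪v, T w⟫) (hp : ∀ v, 0 ≤ ⟪T v, v⟫)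
    (v w : E) : ⟪T v, w⟫ ^ 2 ≤ ⟪T v, v⟫ * ⟪T w, w⟫ := by
  have key : ∀ l : ℝ, 0 ≤ ⟪T v, v⟫ * (l * l) + 2 * ⟪T v, w⟫ * l + ⟪T w, w⟫ := fun l => by
    have h := hp (l • v + w)
    have e : ⟪T w, v⟫ = ⟪T v, w⟫ := by rw [hs, real_inner_comm]
    simp only [map_add, map_smul, inner_add_left, inner_add_right, real_inner_smul_left,
      real_inner_smul_right, e] at h
    linarith
  have := discrim_le_zero key
  unfold discrim at this
  nlinarith

theorem ta_tr_nonneg {T : E →L[ℝ] E} (hp : ∀ v, 0 ≤ ⟪T v, v⟫) : 0 ≤ tr T := by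
  rw [ta_tr_sum]
  exact Finset.sum_nonneg fun i _ => by rw [real_inner_comm]; exact hp _

theorem ta_norm_sq_le {T : E →L[ℝ] E} (hs : ∀ v w, ⟪T v, w⟫ = ⟪v, T w⟫) (hp : ∀ v, 0 ≤ ⟪T v, v⟫)
    (v : E) : ‖T v‖ ^ 2 ≤ ⟪T v, v⟫ * tr T := by
  rw [ta_tr_sum, Finset.mul_sum, ← (stdOrthonormalBasis ℝ E).sum_sq_inner_left]
  refine Finset.sum_le_sum fun i _ => ?_
  rw [real_inner_comm (T (stdOrthonormalBasis ℝ E i))]
  exact ta_cs hs hp _ _

theorem ta_norm_le_tr {T : E →L[ℝ] E} (hs : ∀ v w, ⟪T v, w⟫ = ⟪v, T w⟫) (hp : ∀ v, 0 ≤ ⟪T v, v⟫) :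
    ‖T‖ ≤ tr T := by
  have h0 := ta_tr_nonneg hp
  refine T.opNorm_le_bound h0 fun v => ?_
  have h1 := ta_norm_sq_le hs hp v
  have h2 := real_inner_le_norm (T v) v
  rcases (norm_nonneg (T v)).eq_or_lt with h | h
  · rw [← h]; positivity
  · refine le_of_mul_le_mul_left ?_ h
    nlinarith [mul_le_mul_of_nonneg_right h2 h0]

theorem ta_quad_le {T : E →L[ℝ] E} (hs : ∀ v w, ⟪T v, w⟫ = ⟪v, T w⟫) (hp : ∀ v, 0 ≤ ⟪T v, v⟫)
    (v : E) : ⟪T v, v⟫ ≤ tr T * ‖v‖ ^ 2 := by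
  have h1 := real_inner_le_norm (T v) v
  have h2 := (T.le_opNorm v).trans (mul_le_mul_of_nonneg_right (ta_norm_le_tr hs hp) (norm_nonneg v))
  nlinarith [norm_nonneg v]

variable [MeasurableSpace E] [BorelSpace E]

/-- A stress pair that is almost divergence free when tested with Gaussian fields centred in the
ball of radius `R`, for times up to `t₁`. -/
structure Tri (ε : E → ℝ) (T : E → E →L[ℝ] E) (R t₁ κ : ℝ) : Prop where
  bε : BM ε
  mT : StronglyMeasurable T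
  bT : ∃ C, ∀ y, ‖T y‖ ≤ C
  symm : ∀ y v w, ⟪T y v, w⟫ = ⟪v, T y w⟫
  psd : ∀ y v, 0 ≤ ⟪T y v, v⟫
  t_le : t₁ ≤ 1
  s1 : ∀ x : E, ‖x‖ ≤ R → ∀ t, 0 < t → t ≤ t₁ → ∀ (Y : E → E) (K : ℝ), ContDiff ℝ 1 Y →
    (∀ y, ‖Y y‖ ≤ K * G t (y - x)) → (∀ y, ‖fderiv ℝ Y y‖ ≤ K * G t (y - x)) →
    |∫ y, pair (ε y) (T y) (fderiv ℝ Y y)| ≤ κ * K

/-- The radial part of the energy. -/
noncomputable def rq (T : E → E →L[ℝ] E) (t : ℝ) (x : E) : ℝ :=
  ∫ y, G t (y - x) * ⟪T y (y - x), y - x⟫ / 4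

variable {ε : E → ℝ} {T : E → E →L[ℝ] E} {R t₁ κ t : ℝ} {x : E}

theorem Tri.bτ (h : Tri ε T R t₁ κ) : BM (fun y => tr (T y)) := by
  obtain ⟨C, hC⟩ := h.bT
  exact ⟨(ta_continuous_tr.comp_stronglyMeasurable h.mT).measurable, 2 * hd E * C, fun y =>
    (ta_abs_tr_le _).trans (mul_le_mul_of_nonneg_left (hC y)
      (by have := hd_nonneg (V := E); positivity))⟩

theorem Tri.τ_nonneg (h : Tri ε T R t₁ κ) (y : E) : 0 ≤ tr (T y) := ta_tr_nonneg (h.psd y)

theorem Tri.bβ (h : Tri ε T R t₁ κ) : BM (fun y => 2 * ε y - tr (T y)) :=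
  (h.bε.const_mul 2).sub h.bτ

theorem Tri.meas_quad (h : Tri ε T R t₁ κ) {X : Type*} [MeasurableSpace X] {p a b : X → E}
    (hp : Measurable p) (ha : Measurable a) (hb : Measurable b) :
    Measurable fun q => ⟪T (p q) (a q), b q⟫ :=
  Measurable.inner ((isBoundedBilinearMap_apply (𝕜 := ℝ) (E := E) (F := E)).continuous.comp_stronglyMeasurable
    ((h.mT.comp_measurable hp).prodMk ha.stronglyMeasurable)).measurable hb

theorem Tri.bm_quad (h : Tri ε T R t₁ κ) (v w : E) : BM fun y => ⟪T y v, w⟫ := by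
  obtain ⟨C, hC⟩ := h.bT
  refine ⟨h.meas_quad measurable_id measurable_const measurable_const, C * ‖v‖ * ‖w‖, fun y => ?_⟩
  refine (abs_real_inner_le_norm _ _).trans (mul_le_mul_of_nonneg_right ?_ (norm_nonneg _))
  exact ((T y).le_opNorm v).trans (mul_le_mul_of_nonneg_right (hC y) (norm_nonneg _))

theorem Tri.rad_le_aux (h : Tri ε T R t₁ κ) (ht : 0 < t) (x y : E) :
    |G t (y - x) * ⟪T y (y - x), y - x⟫ / 4| ≤ 2 * 2 ^ hd E * t * (G (2 * t) (y - x) * tr (T y)) := by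
  have h1 := ta_quad_le (h.symm y) (h.psd y) (y - x)
  have h2 := mul_le_mul_of_nonneg_right (sq_mul_G_le ht (y - x)) (h.τ_nonneg y)
  have h3 := mul_le_mul_of_nonneg_left h1 (G_pos ht (y - x)).le
  rw [abs_of_nonneg (div_nonneg (mul_nonneg (G_pos ht _).le (h.psd y _)) (by norm_num))]
  linarith

theorem Tri.int_rad (h : Tri ε T R t₁ κ) (ht : 0 < t) (x : E) :
    Integrable fun y => G t (y - x) * ⟪T y (y - x), y - x⟫ / 4 :=
  ((h.bτ.integrable_G (by positivity : 0 < 2 * t) x).const_mul _).mono'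
    (Measurable.aestronglyMeasurable (Measurable.div_const (Measurable.mul (by fun_prop)
      (h.meas_quad measurable_id (by fun_prop) (by fun_prop))) _))
    (Eventually.of_forall (h.rad_le_aux ht x))

theorem Tri.rad_nonneg (h : Tri ε T R t₁ κ) (ht : 0 ≤ t) (x : E) : 0 ≤ rq T t x :=
  integral_nonneg fun y => div_nonneg (mul_nonneg (G_nonneg ht _) (h.psd y _)) (by norm_num)

theorem Tri.rad_le (h : Tri ε T R t₁ κ) (ht : 0 < t) (x : E) :
    rq T t x ≤ 2 * 2 ^ hd E * t * P (2 * t) (fun y => tr (T y)) x :=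
  (le_abs_self _).trans (abs_integral_le_P h.bτ (by positivity) (h.rad_le_aux ht x))

theorem Tri.rad_le_of_le_mul (h : Tri ε T R t₁ κ) {s c : ℝ} (ht : 0 < t) (hts : t ≤ s)
    (hc : s ≤ c * t) (x : E) : rq T t x ≤ c ^ hd E * rq T s x := by
  rw [rq, rq, ← integral_const_mul]
  refine integral_mono (h.int_rad ht x) ((h.int_rad (ht.trans_le hts) x).const_mul _) fun y => ?_
  have := mul_le_mul_of_nonneg_right (G_le_of_le_mul ht hts hc (y - x)) (h.psd y (y - x))
  simp only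
  linarith

theorem Tri.measurable_rad (h : Tri ε T R t₁ κ) : Measurable fun p : ℝ × E => rq T p.1 p.2 := by
  have h1 : Measurable (fun q : (ℝ × E) × E =>
      G q.1.1 (q.2 - q.1.2) * ⟪T q.2 (q.2 - q.1.2), q.2 - q.1.2⟫ / 4) :=
    ((measurable_G.comp (f := fun q : (ℝ × E) × E => (q.1.1, q.2 - q.1.2)) (by fun_prop)).mul
      (h.meas_quad measurable_snd (by fun_prop) (by fun_prop))).div_const 4
  exact h1.stronglyMeasurable.integral_prod_right'.measurable

theorem Tri.κ_nonneg (h : Tri ε T R t₁ κ) (hx : ‖x‖ ≤ R) (ht : 0 < t) (ht₁ : t ≤ t₁) :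
    0 ≤ κ := by
  have := h.s1 x hx t ht ht₁ (fun _ => 0) 1 contDiff_const
    (fun y => by simpa using (G_pos ht _).le) (fun y => by simpa using (G_pos ht _).le)
  simpa using (abs_nonneg _).trans this

/-- The monotonicity identity. -/
theorem Tri.identM (h : Tri ε T R t₁ κ) (hx : ‖x‖ ≤ R) (ht : 0 < t)
    (ht₁ : 2 * t ≤ t₁) :
    |t * Cv (dG t) ε x + P t (fun y => tr (T y)) x / 2 - rq T t x / t| ≤ 3 * 2 ^ hd E * κ := by
  have hD : ∀ y, HasFDerivAt (fun y => G t (y - x) • (y - x))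
      (G t (y - x) • ContinuousLinearMap.id ℝ E +
        (-(G t (y - x) / (2 * t)) • innerSL ℝ (y - x)).smulRight (y - x)) y := fun y => by
    have h1 := (hasFDerivAt_G ht (y - x)).comp y ((hasFDerivAt_id y).sub_const x)
    rw [ContinuousLinearMap.comp_id] at h1
    exact h1.smul ((hasFDerivAt_id y).sub_const x)
  have hs : √t ≤ 1 := sqrt_le_one.2 (by linarith [h.t_le])
  have key := h.s1 x hx (2 * t) (by positivity) ht₁ (fun y => G t (y - x) • (y - x)) (5 * 2 ^ hd E)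
    (((contDiff_G t).comp (contDiff_id.sub contDiff_const)).smul (contDiff_id.sub contDiff_const))
    (fun y => by
      rw [norm_smul, Real.norm_eq_abs, abs_G ht.le, mul_comm]
      refine (norm_mul_G_le ht _).trans (mul_le_mul_of_nonneg_right
        (mul_le_of_le_one_right (by positivity) hs) (G_pos (by positivity) _).le))
    (fun y => by
      rw [(hD y).fderiv]
      refine (norm_add_le _ _).trans ?_
      have hG := G_pos ht (y - x)
      have h1 := G_le_two ht (y - x)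
      have h2 := sq_mul_G_le ht (y - x)
      have h3 : ‖G t (y - x) • ContinuousLinearMap.id ℝ E‖ ≤ G t (y - x) := by
        rw [norm_smul, Real.norm_eq_abs, abs_G ht.le]
        exact mul_le_of_le_one_right hG.le ContinuousLinearMap.norm_id_le
      have h4 : G t (y - x) / (2 * t) * ‖y - x‖ * ‖y - x‖ ≤ 4 * 2 ^ hd E * G (2 * t) (y - x) := by
        rw [div_mul_eq_mul_div, div_mul_eq_mul_div, div_le_iff₀ (by positivity)]
        nlinarith
      rw [ContinuousLinearMap.norm_smulRight_apply, norm_smul (-(G t (y - x) / (2 * t))), innerSL_apply_norm, norm_neg,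
        Real.norm_eq_abs, abs_of_nonneg (by positivity : 0 ≤ G t (y - x) / (2 * t))]
      linarith)
  have e : ∀ y, pair (ε y) (T y) (fderiv ℝ (fun y => G t (y - x) • (y - x)) y) =
      -2 * (t * (dG t (y - x) * ε y) + G t (y - x) * tr (T y) / 2 -
        G t (y - x) * ⟪T y (y - x), y - x⟫ / 4 / t) := fun y => by
    rw [(hD y).fderiv, ta_pair_add, ta_pair_smul, ta_pair_id, ta_pair_smulRight]
    simp only [smul_apply, innerSL_apply_apply, smul_eq_mul,
      real_inner_self_eq_norm_sq, dG, real_inner_comm (T y (y - x))]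
    field_simp
    ring
  simp only [e] at key
  have i1 := ((ker_dG ht).int_cv h.bε x).const_mul t
  have i2 := (h.bτ.integrable_G ht x).div_const 2
  rw [integral_const_mul, integral_sub (i1.fun_add i2) ((h.int_rad ht x).div_const t),
    integral_add i1 i2, integral_const_mul, integral_div, integral_div, abs_mul, abs_neg,
    abs_two] at key
  have κ0 := h.κ_nonneg hx ht (by linarith)
  have : (0 : ℝ) ≤ 2 ^ hd E * κ := by positivity
  unfold Cv P rq
  linarith

/-- The monotonicity identity as a derivative. -/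
theorem Tri.hasDerivAt_Th (h : Tri ε T R t₁ κ) (hx : ‖x‖ ≤ R) (ht : 0 < t)
    (ht₁ : 2 * t ≤ t₁) : ∃ er, |er| ≤ 3 * 2 ^ hd E * κ ∧ HasDerivAt (fun s => s * P s ε x)
      (P t (fun y => 2 * ε y - tr (T y)) x / 2 + rq T t x / t + er) t := by
  refine ⟨_, h.identM hx ht ht₁, ?_⟩
  refine ((hasDerivAt_id t).mul (hasDerivAt_P h.bε ht x)).congr_deriv ?_
  rw [P_sub (h.bε.const_mul 2) h.bτ ht, P_const_mul]
  simp only [id]
  ring

end Pool.Agent.Lib.MP_8daebb_an.AS
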