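import Pool.Agent.Lib.MP_8daebb_an.AS.S1a

/-! The isotropy identity and the bounds for truncated potentials. -/

open MeasureTheory Metric Filter Topology Set Real Module
open scoped RealInnerProductSpace

namespace Pool.Agent.Lib.MP_8daebb_an.AS

open HK

theorem tb_le_integral {Φ φ : ℝ → ℝ} {r C : ℝ} (hr : 0 < r) (h0 : Φ 0 = 0)
    (hC : ∀ t ∈ Ioc 0 r, |Φ t| ≤ C * t)
    (hd : ∀ t ∈ Ioc 0 r, ∃ d, HasDerivAt Φ d t ∧ d ≤ φ t) (hi : IntegrableOn φ (Ioc 0 r)) :
    Φ r ≤ ∫ t in Ioc 0 r, φ t := by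
  choose! d h1 h2 using hd
  have hc : ContinuousOn Φ (Icc 0 r) := fun t ht => by
    rcases ht.1.eq_or_lt with rfl | ht0
    · rw [ContinuousWithinAt, h0, tendsto_zero_iff_abs_tendsto_zero]
      have h3 : Tendsto (fun t : ℝ => C * t) (𝓝[Icc 0 r] 0) (𝓝 0) := by
        have : Continuous (fun t : ℝ => C * t) := by fun_prop
        simpa using (this.tendsto 0).mono_left nhdsWithin_le_nhds
      refine squeeze_zero' (Eventually.of_forall fun _ => abs_nonneg _) ?_ h3
      filter_upwards [self_mem_nhdsWithin] with s hs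
      rcases hs.1.eq_or_lt with rfl | hs0
      · simp [h0]
      · exact hC s ⟨hs0, hs.2⟩
    · exact (h1 t ⟨ht0, ht.2⟩).continuousAt.continuousWithinAt
  have := intervalIntegral.sub_le_integral_of_hasDeriv_right_of_le hr.le hc
    (fun t ht => (h1 t (Ioo_subset_Ioc_self ht)).hasDerivWithinAt)
    ((integrableOn_Icc_iff_integrableOn_Ioc).2 hi) (fun t ht => h2 t (Ioo_subset_Ioc_self ht))
  rwa [h0, sub_zero, intervalIntegral.integral_of_le hr.le] at this

variable {E : Type*} [NormedAddCommGroup E] [InnerProductSpace ℝ E] [FiniteDimensional ℝ E]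
  [MeasurableSpace E] [BorelSpace E] {ε : E → ℝ} {T : E → E →L[ℝ] E} {R t₁ κ t r : ℝ} {x e : E}

theorem Tri.int_pair (h : Tri ε T R t₁ κ) {A : E → E →L[ℝ] E} (hA : StronglyMeasurable A)
    (hi : Integrable fun y => ‖A y‖) : Integrable fun y => pair (ε y) (T y) (A y) := by
  obtain ⟨C, hC⟩ := h.bT
  obtain ⟨D, hD⟩ := h.bε.bdd
  have hc : Continuous fun p : ℝ × (E →L[ℝ] E) × (E →L[ℝ] E) => pair p.1 p.2.1 p.2.2 := by
    have := ta_continuous_tr (E := E)
    unfold pair
    fun_prop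
  refine (hi.const_mul (2 * hd E * (D + C))).mono' (hc.comp_stronglyMeasurable
    (h.bε.meas.stronglyMeasurable.prodMk (h.mT.prodMk hA))).aestronglyMeasurable
    (Eventually.of_forall fun y => (ta_abs_pair_le _ _ _).trans ?_)
  have := hd_nonneg (V := E)
  gcongr
  exacts [hD y, hC y]

/-- A second moment of the excess. -/
noncomputable def wq2 (ε : E → ℝ) (e : E) (t : ℝ) (x : E) : ℝ :=
  ∫ y, ⟪y - x, e⟫ ^ 2 * G t (y - x) * ε y

omit [FiniteDimensional ℝ E] [MeasurableSpace E] [BorelSpace E] in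
theorem tb_inner_sq_le (he : ‖e‖ = 1) (z : E) : ⟪z, e⟫ ^ 2 ≤ ‖z‖ ^ 2 := by
  have := abs_real_inner_le_norm z e
  rw [he, mul_one] at this
  exact sq_le_sq' (by linarith [neg_abs_le ⟪z, e⟫]) ((le_abs_self _).trans this)

theorem abs_wq2_le (hε : BM ε) (he : ‖e‖ = 1) (ht : 0 < t) (x : E) :
    |wq2 ε e t x| ≤ 8 * 2 ^ hd E * t * P (2 * t) (fun y => |ε y|) x :=
  abs_integral_le_P hε.abs (by positivity) fun y => by
    have hG := G_pos ht (y - x)
    rw [abs_mul, abs_of_nonneg (by positivity), ← mul_assoc]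
    exact mul_le_mul_of_nonneg_right ((mul_le_mul_of_nonneg_right (tb_inner_sq_le he _) hG.le).trans
      (sq_mul_G_le ht _)) (abs_nonneg _)

theorem hasDerivAt_wq2 (hε : BM ε) (he : ‖e‖ = 1) (ht : 0 < t) (x : E) :
    Integrable (fun y => ⟪y - x, e⟫ ^ 2 * dG t (y - x) * ε y) ∧
    HasDerivAt (fun s => wq2 ε e s x) (∫ y, ⟪y - x, e⟫ ^ 2 * dG t (y - x) * ε y) t := by
  obtain ⟨C, C0, hC⟩ := hε.bdd'
  have hpos : ∀ s ∈ ball t (t / 2), 0 < s := fun s hs => by
    rw [mem_ball, Real.dist_eq, abs_lt] at hs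
    linarith [hs.1]
  have h0 := hd_nonneg (V := E)
  refine hasDerivAt_integral_of_dominated_loc_of_deriv_le (μ := volume)
    (F := fun s y => ⟪y - x, e⟫ ^ 2 * G s (y - x) * ε y)
    (F' := fun s y => ⟪y - x, e⟫ ^ 2 * dG s (y - x) * ε y)
    (bound := fun y => (2 + hd E) * 2 ^ hd E / (t / 2) * 3 ^ hd E *
      (8 * 2 ^ hd E * (3 * t) * G (2 * (3 * t)) (y - x)) * C)
    (ball_mem_nhds t (half_pos ht))
    (Eventually.of_forall fun s => (Measurable.mul (by fun_prop) hε.meas).aestronglyMeasurable) ?_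
    (Measurable.mul (by fun_prop) hε.meas).aestronglyMeasurable
    (Eventually.of_forall fun y s hs => ?_)
    ((((integrable_G_sub (by positivity) x).const_mul _).const_mul _).mul_const _)
    (Eventually.of_forall fun y s hs => ((hasDerivAt_G (hpos s hs) _).const_mul _).mul_const _)
  · refine hε.integrable_mul (((integrable_G_sub (show 0 < 2 * t by positivity) x).const_mul
      (8 * 2 ^ hd E * t)).mono' (by fun_prop) (Eventually.of_forall fun y => ?_))
    have hG := G_pos ht (y - x)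
    rw [Real.norm_eq_abs, abs_of_nonneg (by positivity)]
    exact (mul_le_mul_of_nonneg_right (tb_inner_sq_le he _) hG.le).trans (sq_mul_G_le ht _)
  · have h1 := abs_dG_le_near ht (y - x) hs
    have h2 := sq_mul_G_le (show 0 < 3 * t by positivity) (y - x)
    have hG := G_pos (show 0 < 2 * (3 * t) by positivity) (y - x)
    rw [Real.norm_eq_abs, abs_mul, abs_mul, abs_of_nonneg (sq_nonneg _)]
    refine mul_le_mul ?_ (hC y) (abs_nonneg _) (by positivity)
    calc _ ≤ ‖y - x‖ ^ 2 * ((2 + hd E) * 2 ^ hd E / (t / 2) * (3 ^ hd E * G (3 * t) (y - x))) :=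
          mul_le_mul (tb_inner_sq_le he _) h1 (abs_nonneg _) (sq_nonneg _)
      _ = (2 + hd E) * 2 ^ hd E / (t / 2) * 3 ^ hd E * (‖y - x‖ ^ 2 * G (3 * t) (y - x)) := by ring
      _ ≤ _ := by gcongr

/-- The isotropy identity. -/
theorem Tri.identI (h : Tri ε T R t₁ κ) (hx : ‖x‖ ≤ R) (he : ‖e‖ = 1) (ht : 0 < t)
    (ht₁ : 2 * t ≤ t₁) :
    (∫ y, ⟪y - x, e⟫ ^ 2 * dG t (y - x) * ε y) / 2 - 4 * 2 ^ hd E * (rq T (2 * t) x / t) -
      27 * 2 ^ hd E * κ ≤ P t (fun y => ε y - ⟪T y e, e⟫) x := by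
  have t1 : t ≤ 1 := by linarith [h.t_le]
  let Y : E → E := fun y => (⟪y - x, e⟫ * G t (y - x)) • e +
    (⟪y - x, e⟫ ^ 2 * G t (y - x) / (4 * t)) • (y - x)
  let A : E → E →L[ℝ] E := fun y =>
    (G t (y - x) • innerSL ℝ e - (⟪y - x, e⟫ * G t (y - x) / (2 * t)) • innerSL ℝ (y - x)).smulRight e
    + ((⟪y - x, e⟫ ^ 2 * G t (y - x) / (4 * t)) • ContinuousLinearMap.id ℝ E +
      ((⟪y - x, e⟫ * G t (y - x) / (2 * t)) • innerSL ℝ e -
        (⟪y - x, e⟫ ^ 2 * G t (y - x) / (8 * t ^ 2)) • innerSL ℝ (y - x)).smulRight (y - x))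
  have hD : ∀ y, HasFDerivAt Y (A y) y := fun y => by
    have h0 := (hasFDerivAt_id (𝕜 := ℝ) y).sub_const x
    have h1 := (hasFDerivAt_G ht (y - x)).comp y h0
    have h2 : HasFDerivAt (fun y => ⟪y - x, e⟫) (innerSL ℝ e) y := by
      have e1 : (fun y => ⟪y - x, e⟫) = innerSL ℝ e ∘ fun y : E => id y - x :=
        funext fun y => real_inner_comm _ _
      rw [e1]
      exact (((innerSL ℝ e).hasFDerivAt (x := id y - x)).comp y h0).congr_fderiv
        (ContinuousLinearMap.comp_id _)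
    refine HasFDerivAt.congr_fderiv (((h2.mul h1).smul_const e).add
      ((((h2.pow 2).mul h1).mul_const (4 * t)⁻¹).smul h0)) ?_
    ext v
    simp [A]
    congr 1
    · congr 1; ring
    · congr 1
      congr 1; field_simp; ring_nf
  have hu : ∀ z : E, (1 + 5 / 4 * (‖z‖ ^ 2 / t) + (‖z‖ ^ 2 / t) ^ 2 / 8) * G t z ≤
      27 * 2 ^ hd E * G (2 * t) z := fun z => by
    have a0 := G_le_two ht z
    have a1 := pow_mul_G_le ht 1 z
    have a2 := pow_mul_G_le ht 2 z
    norm_num [Nat.factorial] at a1 a2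
    linarith
  have hY : ∀ y, ‖Y y‖ ≤ 27 * 2 ^ hd E * G (2 * t) (y - x) := fun y => by
    refine (norm_add_le _ _).trans (le_trans ?_ (hu _))
    have hG := G_pos ht (y - x)
    have a1 := abs_real_inner_le_norm (y - x) e
    have a2 := tb_inner_sq_le he (y - x)
    have a3 : ‖y - x‖ ^ 2 ≤ ‖y - x‖ ^ 2 / t := le_div_self (sq_nonneg _) ht t1
    have a4 : ‖y - x‖ ≤ (1 + ‖y - x‖ ^ 2 / t) / 2 := by nlinarith [sq_nonneg (‖y - x‖ - 1)]
    have a5 : ⟪y - x, e⟫ ^ 2 * G t (y - x) / (4 * t) ≤ ‖y - x‖ ^ 2 / t / 4 * G t (y - x) := by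
      rw [div_div, div_mul_eq_mul_div, mul_comm t]; gcongr
    rw [he, mul_one] at a1
    rw [norm_smul, norm_smul, he, mul_one, Real.norm_eq_abs, Real.norm_eq_abs, abs_mul, abs_G ht.le,
      abs_of_nonneg (by positivity : 0 ≤ ⟪y - x, e⟫ ^ 2 * G t (y - x) / (4 * t))]
    have a6 := mul_le_mul a5 a4 (norm_nonneg _) (by positivity)
    have a7 := mul_le_mul_of_nonneg_right (a1.trans a4) hG.le
    have a8 : 0 ≤ ‖y - x‖ ^ 2 / t * G t (y - x) := by positivity
    nlinarith
  have hA : ∀ y, ‖A y‖ ≤ 27 * 2 ^ hd E * G (2 * t) (y - x) := fun y => by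
    refine le_trans ?_ (hu _)
    have hG := G_pos ht (y - x)
    have a1 := abs_real_inner_le_norm (y - x) e
    have a2 := tb_inner_sq_le he (y - x)
    rw [he, mul_one] at a1
    have b1 : |⟪y - x, e⟫ * G t (y - x) / (2 * t)| * ‖y - x‖ ≤ ‖y - x‖ ^ 2 / t / 2 * G t (y - x) := by
      rw [abs_div, abs_mul, abs_G ht.le, abs_of_pos (by positivity : 0 < 2 * t)]
      calc _ ≤ ‖y - x‖ * G t (y - x) / (2 * t) * ‖y - x‖ := by gcongr
        _ = _ := by ring
    have b2 : |⟪y - x, e⟫ ^ 2 * G t (y - x) / (4 * t)| ≤ ‖y - x‖ ^ 2 / t / 4 * G t (y - x) := by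
      rw [abs_of_nonneg (by positivity)]
      calc _ ≤ ‖y - x‖ ^ 2 * G t (y - x) / (4 * t) := by gcongr
        _ = _ := by ring
    have b3 : |⟪y - x, e⟫ ^ 2 * G t (y - x) / (8 * t ^ 2)| * ‖y - x‖ * ‖y - x‖ ≤
        (‖y - x‖ ^ 2 / t) ^ 2 / 8 * G t (y - x) := by
      rw [abs_of_nonneg (by positivity)]
      calc _ ≤ ‖y - x‖ ^ 2 * G t (y - x) / (8 * t ^ 2) * ‖y - x‖ * ‖y - x‖ := by gcongr
        _ = _ := by ring
    have c : ∀ (p q : ℝ) (b : E), ‖(p • innerSL ℝ e - q • innerSL ℝ (y - x)).smulRight b‖ ≤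
        (|p| + |q| * ‖y - x‖) * ‖b‖ := fun p q b => by
      rw [ContinuousLinearMap.norm_smulRight_apply]
      refine mul_le_mul_of_nonneg_right ((norm_sub_le _ _).trans (le_of_eq ?_)) (norm_nonneg _)
      rw [norm_smul, norm_smul, innerSL_apply_norm, innerSL_apply_norm, he, mul_one,
        Real.norm_eq_abs, Real.norm_eq_abs]
    have c1 := c (G t (y - x)) (⟪y - x, e⟫ * G t (y - x) / (2 * t)) e
    have c2 := c (⟪y - x, e⟫ * G t (y - x) / (2 * t)) (⟪y - x, e⟫ ^ 2 * G t (y - x) / (8 * t ^ 2))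
      (y - x)
    have c3 : ‖(⟪y - x, e⟫ ^ 2 * G t (y - x) / (4 * t)) • ContinuousLinearMap.id ℝ E‖ ≤
        |⟪y - x, e⟫ ^ 2 * G t (y - x) / (4 * t)| := by
      rw [norm_smul]
      exact mul_le_of_le_one_right (abs_nonneg _) ContinuousLinearMap.norm_id_le
    rw [he, mul_one, abs_G ht.le] at c1
    refine (norm_add_le _ _).trans ((add_le_add c1 ((norm_add_le _ _).trans
      (add_le_add c3 c2))).trans ?_)
    linarith
  have hYc : ContDiff ℝ 1 Y := by
    have g1 : ContDiff ℝ 1 fun y => G t (y - x) := (contDiff_G t).comp (contDiff_id.sub contDiff_const)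
    have g2 : ContDiff ℝ 1 fun y : E => ⟪y - x, e⟫ :=
      (contDiff_id.sub contDiff_const).inner ℝ contDiff_const
    exact ((g2.mul g1).smul contDiff_const).add
      ((((g2.pow 2).mul g1).div_const _).smul (contDiff_id.sub contDiff_const))
  have hf : fderiv ℝ Y = A := funext fun y => (hD y).fderiv
  have key := h.s1 x hx (2 * t) (by positivity) ht₁ Y _ hYc hY (by rw [hf]; exact hA)
  have cA : Continuous A := hf ▸ hYc.continuous_fderiv one_ne_zero
  have i1 := h.int_pair cA.stronglyMeasurable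
    (((integrable_G_sub (show 0 < 2 * t by positivity) x).const_mul _).mono'
      cA.norm.aestronglyMeasurable (Eventually.of_forall fun y => by rw [norm_norm]; exact hA y))
  have i2 := (hasDerivAt_wq2 h.bε he ht x).1.div_const 2
  have i3 := ((h.int_rad (show 0 < 2 * t by positivity) x).div_const t).const_mul (4 * 2 ^ hd E)
  have main := integral_mono ((i1.fun_add i2).sub i3)
    ((h.bε.sub (h.bm_quad e e)).integrable_G ht x) fun y => by
      have hG := G_pos ht (y - x)
      have e1 : pair (ε y) (T y) (A y) = G t (y - x) * (ε y - ⟪T y e, e⟫) -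
          ⟪y - x, e⟫ ^ 2 * dG t (y - x) * ε y / 2 -
          ⟪y - x, e⟫ ^ 2 * G t (y - x) / (4 * t) * tr (T y) +
          ⟪y - x, e⟫ ^ 2 * G t (y - x) / (8 * t ^ 2) * ⟪T y (y - x), y - x⟫ := by
        simp only [A, ta_pair_add, ta_pair_smul, ta_pair_id, ta_pair_smulRight, sub_apply,
          smul_apply, innerSL_apply_apply, smul_eq_mul, real_inner_self_eq_norm_sq, he, dG,
          ← h.symm y e (y - x), real_inner_comm (T y e), real_inner_comm (T y (y - x)) (y - x),
          real_inner_comm (y - x) e]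
        field_simp
        ring
      have e2 : ⟪y - x, e⟫ ^ 2 * G t (y - x) / (8 * t ^ 2) ≤ 2 ^ hd E * G (2 * t) (y - x) / t := by
        rw [div_le_div_iff₀ (by positivity) ht]
        nlinarith [mul_le_mul_of_nonneg_right ((mul_le_mul_of_nonneg_right (tb_inner_sq_le he _)
          hG.le).trans (sq_mul_G_le ht (y - x))) ht.le]
      have e3 := mul_le_mul_of_nonneg_right e2 (h.psd y (y - x))
      have e4 : 0 ≤ ⟪y - x, e⟫ ^ 2 * G t (y - x) / (4 * t) * tr (T y) :=
        mul_nonneg (by positivity) (h.τ_nonneg y)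
      simp only [Pi.sub_apply, e1]
      have e5 : 2 ^ hd E * G (2 * t) (y - x) / t * ⟪T y (y - x), y - x⟫ =
        4 * 2 ^ hd E * (G (2 * t) (y - x) * ⟪T y (y - x), y - x⟫ / 4 / t) := by ring
      linarith
  rw [integral_sub' (i1.fun_add i2) i3, integral_add i1 i2, integral_div, integral_const_mul,
    integral_div] at main
  rw [hf, abs_le] at key
  unfold P rq
  linarith [key.1]

/-- The truncated potential of the defect is bounded by the density. -/
theorem Tri.gI_β_le (h : Tri ε T R t₁ κ) (hx : ‖x‖ ≤ R) (hr : 0 < r)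
    (hr₁ : 2 * r ≤ t₁) :
    gI r (fun y => 2 * ε y - tr (T y)) x ≤ 2 * (r * P r ε x) + 6 * 2 ^ hd E * κ * r := by
  obtain ⟨C, hC⟩ := h.bε.bdd
  have i1 := (integrableOn_P h.bβ (le_refl 0) (b := r) x).div_const 2
  have i2 : IntegrableOn (fun _ => 3 * 2 ^ hd E * κ) (Ioc 0 r) :=
    integrableOn_const measure_Ioc_lt_top.ne
  have := tb_le_integral (Φ := fun s => -(s * P s ε x)) (C := C) hr (by simp)
    (fun t ht => by
      rw [abs_neg, abs_mul, abs_of_pos ht.1, mul_comm]
      exact mul_le_mul_of_nonneg_right (abs_P_le_const ht.1 hC x) ht.1.le)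
    (fun t ht => by
      obtain ⟨er, h1, h2⟩ := h.hasDerivAt_Th hx ht.1 (by linarith [ht.2])
      refine ⟨_, h2.neg, ?_⟩
      have := div_nonneg (h.rad_nonneg ht.1.le x) ht.1.le
      simp only [Pi.sub_apply]
      linarith [neg_abs_le er]) (i2.sub i1)
  rw [integral_sub' i2 i1, integral_div, setIntegral_const, Real.volume_real_Ioc_of_le hr.le,
    smul_eq_mul] at this
  unfold gI
  linarith

/-- The truncated potential of the stress in a direction is bounded below. -/
theorem Tri.gI_S_ge (h : Tri ε T R t₁ κ) (hx : ‖x‖ ≤ R) (he : ‖e‖ = 1) (hr : 0 < r)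
    (hr₁ : 4 * r ≤ t₁) :
    2 * 2 ^ hd E * gI r (fun y => 2 * ε y - tr (T y)) x -
      16 * 4 ^ hd E * (r * P (2 * r) (fun y => |ε y| + tr (T y)) x) - 51 * 4 ^ hd E * κ * r ≤
      gI r (fun y => ε y - ⟪T y e, e⟫) x := by
  obtain ⟨C, C0, hC⟩ := h.bε.bdd'
  have κ0 := h.κ_nonneg hx hr (by linarith)
  have p1 : (1 : ℝ) ≤ 2 ^ hd E := one_le_rpow (by norm_num) hd_nonneg
  have p4 : (4 : ℝ) ^ hd E = 2 ^ hd E * 2 ^ hd E := by
    rw [← mul_rpow (by norm_num) (by norm_num)]; norm_num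
  have i1 := integrableOn_P (h.bε.sub (h.bm_quad e e)) (le_refl 0) (b := r) x
  have i0 : IntervalIntegrable (fun u => P u (fun y => 2 * ε y - tr (T y)) x) volume 0 (2 * r) :=
    (intervalIntegrable_iff_integrableOn_Ioc_of_le (by positivity)).2
      (integrableOn_P h.bβ le_rfl x)
  have i2 : IntegrableOn (fun u => 4 * 2 ^ hd E * P (2 * u) (fun y => 2 * ε y - tr (T y)) x)
      (Ioc 0 r) := by
    have := i0.comp_mul_left (c := 2)
    rw [zero_div, mul_div_cancel_left₀ _ two_ne_zero] at this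
    exact ((intervalIntegrable_iff_integrableOn_Ioc_of_le hr.le).1 this).const_mul _
  have i3 : IntegrableOn (fun _ => 51 * 4 ^ hd E * κ) (Ioc 0 r) :=
    integrableOn_const measure_Ioc_lt_top.ne
  have := tb_le_integral (Φ := fun s => wq2 ε e s x / 2 - 4 * 2 ^ hd E * (2 * s * P (2 * s) ε x))
    (C := 12 * 2 ^ hd E * C) hr (by
      have : hd E ≠ 0 := by
        intro h0
        have h1 : finrank ℝ E = 0 := by simpa [hd] using h0
        have := finrank_zero_iff.1 h1
        rw [Subsingleton.elim e 0, norm_zero] at he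
        exact zero_ne_one he
      simp [wq2, G, zero_rpow (neg_ne_zero.2 this)])
    (fun t ht => by
      have t0 := ht.1
      have a1 := abs_wq2_le h.bε he ht.1 x
      have a2 := (le_abs_self _).trans (abs_P_le_const (f := fun y => |ε y|)
        (show 0 < 2 * t by positivity) (fun y => by rw [abs_abs]; exact hC y) x)
      have a3 := abs_P_le_const (show 0 < 2 * t by positivity) hC x
      have a4 := mul_le_mul_of_nonneg_left a2 (show 0 ≤ 8 * 2 ^ hd E * t by positivity)
      have a5 := mul_le_mul_of_nonneg_left a3 (show 0 ≤ 8 * 2 ^ hd E * t by positivity)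
      refine (abs_sub _ _).trans ?_
      rw [abs_div, abs_two, show 4 * 2 ^ hd E * (2 * t * P (2 * t) ε x) =
        8 * 2 ^ hd E * t * P (2 * t) ε x by ring, abs_mul, abs_of_nonneg (by positivity :
          0 ≤ 8 * 2 ^ hd E * t)]
      linarith)
    (fun t ht => by
      have t0 := ht.1
      obtain ⟨er, h1, h2⟩ := h.hasDerivAt_Th hx (show 0 < 2 * t by positivity) (by linarith [ht.2])
      have h3 := h2.comp t ((hasDerivAt_id t).const_mul 2)
      refine ⟨_, ((hasDerivAt_wq2 h.bε he t0 x).2.div_const 2).sub (h3.const_mul _), ?_⟩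
      have h4 := h.identI hx he t0 (by linarith [ht.2])
      have h5 := mul_le_mul_of_nonneg_left ((neg_le_abs er).trans h1)
        (show 0 ≤ 8 * 2 ^ hd E by positivity)
      have h6 : 2 ^ hd E * κ ≤ 2 ^ hd E * 2 ^ hd E * κ := by gcongr; nlinarith
      have h7 : rq T (2 * t) x / (2 * t) = rq T (2 * t) x / t / 2 := by ring
      simp only [Pi.add_apply, Pi.sub_apply]
      rw [p4, h7]
      linarith) ((i1.sub i2).add i3)
  rw [integral_add' (i1.sub i2) i3, integral_sub' i1 i2, setIntegral_const,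
    Real.volume_real_Ioc_of_le hr.le, smul_eq_mul, integral_const_mul,
    ← intervalIntegral.integral_of_le hr.le (f := fun u => P (2 * u) _ x),
    intervalIntegral.integral_comp_mul_left (fun u => P u (fun y => 2 * ε y - tr (T y)) x)
      two_ne_zero, mul_zero, intervalIntegral.integral_of_le (by positivity), smul_eq_mul] at this
  have hb := h.bε.abs.add h.bτ
  have b0 : ∀ y, 0 ≤ |ε y| + tr (T y) := fun y => add_nonneg (abs_nonneg _) (h.τ_nonneg y)
  set H := P (2 * r) (fun y => |ε y| + tr (T y)) x with hH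
  have H0 : 0 ≤ H := P_nonneg (by positivity) b0 x
  have d1 : P (2 * r) (fun y => |ε y|) x ≤ H := P_mono h.bε.abs hb (by positivity)
    (fun y => le_add_of_nonneg_right (h.τ_nonneg y)) x
  have d2 := (abs_wq2_le h.bε he hr x).trans (mul_le_mul_of_nonneg_left d1 (by positivity))
  have d3 := mul_le_mul_of_nonneg_left ((le_abs_self _).trans
    ((abs_P_le (show 0 ≤ 2 * r by positivity) ε x).trans d1)) (show 0 ≤ 8 * 2 ^ hd E * r by positivity)
  have d4 : -(r * (2 * (2 ^ hd E * H))) ≤ ∫ u in Ioc r (2 * r), P u (fun y => 2 * ε y - tr (T y)) x := by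
    have := setIntegral_mono_on (integrableOn_const (C := -(2 * (2 ^ hd E * H)))
      measure_Ioc_lt_top.ne) (integrableOn_P h.bβ hr.le (b := 2 * r) x) measurableSet_Ioc
      fun u hu => by
        have u0 := hr.trans hu.1
        have f1 := abs_P_le_of_le (f := fun y => 2 * ε y - tr (T y)) (hb.const_mul 2) u0
          (fun y => by
            refine (abs_sub _ _).trans ?_
            rw [abs_mul, abs_two, abs_of_nonneg (h.τ_nonneg y)]
            linarith [h.τ_nonneg y]) x
        have f2 := P_le_of_le_mul hb b0 (c := 2) u0 hu.2 (by linarith [hu.1]) x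
        rw [P_const_mul] at f1
        linarith [neg_abs_le (P u (fun y => 2 * ε y - tr (T y)) x)]
    rw [setIntegral_const, Real.volume_real_Ioc_of_le (by linarith), smul_eq_mul] at this
    linarith
  have d5 := gI_split h.bβ hr.le (show r ≤ 2 * r by linarith) x
  have d6 := mul_le_mul_of_nonneg_left d4 (show 0 ≤ 2 * 2 ^ hd E by positivity)
  have d7 : 2 ^ hd E * (r * H) ≤ 2 ^ hd E * 2 ^ hd E * (r * H) := by gcongr; nlinarith
  unfold gI at d5 ⊢
  rw [d5, p4] at this
  rw [p4]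
  linarith [neg_abs_le (wq2 ε e r x)]

end Pool.Agent.Lib.MP_8daebb_an.AS
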