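import Pool.Agent.Lib.MP_8daebb_an.AS.S1b
import Pool.Agent.Lib.MP_8daebb_an.AS.Bas

/-! The Gaussian identities for stress triples. -/

open MeasureTheory Metric Filter Topology Set Real Module
open scoped RealInnerProductSpace

namespace Pool.Agent.Lib.MP_8daebb_an.AS

open HK

variable {E : Type*} [NormedAddCommGroup E] [InnerProductSpace ℝ E] [FiniteDimensional ℝ E]
  [MeasurableSpace E] [BorelSpace E]

variable {ε ff : E → ℝ} {T : E → E →L[ℝ] E} {C₁ ρ B κ tM : ℝ}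

theorem St.tri_s1 (h : St ε T ff C₁ ρ B κ tM) : Tri ε T (5 / 2) (min tM 1) (2 * κ) where
  bε := h.bm_ε
  mT := h.c_T.stronglyMeasurable
  bT := ⟨B, fun y => (h.norm_le y).trans (h.τ_le y)⟩
  symm := h.symm
  psd := h.psd
  t_le := min_le_right _ _
  s1 := fun x hx t ht ht₁ Y K hY h1 h2 => by
    have K0 : 0 ≤ K := nonneg_of_mul_nonneg_left ((norm_nonneg _).trans (h1 x)) (G_pos ht _)
    have hb : ∀ y, K * G t (y - x) ≤ K * (4 * π * t) ^ (-hd E) := fun y =>
      mul_le_mul_of_nonneg_left (G_le_zero ht _) K0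
    refine (h.stat Y hY ⟨_, fun y => ⟨(h1 y).trans (hb y), (h2 y).trans (hb y)⟩⟩).trans ?_
    refine (le_abs_self _).trans ((abs_integral_le_P h.bm_ff ht (x := x) (C := 2 * K)
      fun y => ?_).trans ?_)
    · have := h.ff_nonneg y
      rw [abs_of_nonneg (by positivity)]
      nlinarith [mul_le_mul_of_nonneg_left (add_le_add (h2 y) (h1 y)) this]
    · have := h.ffP x t hx ht (ht₁.trans (min_le_left _ _))
      nlinarith

theorem rad_eq_s1 (T : E → E →L[ℝ] E) (x : E) (t : ℝ) : rad T x t = rq T t x := by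
  unfold rad rq
  rw [integral_div]

theorem rad_nonneg_s1 (h : St ε T ff C₁ ρ B κ tM) (x : E) {t : ℝ} (ht : 0 < t) :
    0 ≤ rad T x t := by
  rw [rad_eq_s1]; exact h.tri_s1.rad_nonneg ht.le x

theorem rad_le_s1 (h : St ε T ff C₁ ρ B κ tM) (x : E) {t : ℝ} (ht : 0 < t) :
    rad T x t ≤ 2 ^ hd E * tt T x (2 * t) := by
  rw [rad_eq_s1]
  refine (h.tri_s1.rad_le ht x).trans (le_of_eq ?_)
  unfold tt τf
  ring

theorem rad_mono_s1 (h : St ε T ff C₁ ρ B κ tM) (x : E) {t s c : ℝ} (ht : 0 < t) (hts : t ≤ s)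
    (hc : s ≤ c * t) : rad T x t ≤ c ^ hd E * rad T x s := by
  rw [rad_eq_s1, rad_eq_s1]; exact h.tri_s1.rad_le_of_le_mul ht hts hc x

theorem cont_aux_s1 {F : ℝ × E → E → ℝ} {C : ℝ} (C0 : 0 ≤ C)
    (hm : ∀ p, AEStronglyMeasurable (F p))
    (hc : ∀ y, ContinuousOn (fun p => F p y) (Ioi 0 ×ˢ univ))
    (hb : ∀ p y, 0 < p.1 → |F p y| ≤ C * (1 + p.1) * G (2 * p.1) (y - p.2)) :
    ContinuousOn (fun p => ∫ y, F p y) (Ioi 0 ×ˢ univ) := by
  intro p hp
  have hp0 : 0 < p.1 := hp.1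
  have hU : Ioo (p.1 / 2) (2 * p.1) ×ˢ ball p.2 1 ∈ 𝓝 p :=
    prod_mem_nhds (Ioo_mem_nhds (by linarith) (by linarith)) (ball_mem_nhds _ one_pos)
  refine (continuousAt_of_dominated (bound := fun y => C * (1 + 2 * p.1) * (4 ^ hd E *
    (2 ^ hd E * exp (1 / (4 * p.1) / 4) * G (2 * (4 * p.1)) (y - p.2))))
    (Eventually.of_forall hm) ?_ ?_ (Eventually.of_forall fun y => ?_)).continuousWithinAt
  · filter_upwards [hU] with q hq
    refine Eventually.of_forall fun y => ?_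
    have q0 : 0 < q.1 := by linarith [hq.1.1]
    have a1 := G_le_of_le_mul (c := 4) (s := 4 * p.1) (show 0 < 2 * q.1 by positivity)
      (by linarith [hq.1.2]) (by linarith [hq.1.1]) (y - q.2)
    have a2 := G_shift_one (show 0 < 4 * p.1 by positivity) (y - p.2) (h := p.2 - q.2)
      (by rw [← dist_eq_norm, dist_comm]; exact (mem_ball.1 hq.2).le)
    rw [sub_add_sub_cancel] at a2
    refine (hb q y q0).trans (mul_le_mul ?_ (a1.trans ?_) (G_pos (by positivity) _).le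
      (by positivity))
    · have := hq.1.2
      gcongr
    · gcongr
  · exact (((integrable_G_sub (by positivity) _).const_mul _).const_mul _).const_mul _
  · exact (hc y).continuousAt (prod_mem_nhds (Ioi_mem_nhds hp0) univ_mem)

theorem cont_G_s1 (y : E) : ContinuousOn (fun p : ℝ × E => G p.1 (y - p.2)) (Ioi 0 ×ˢ univ) :=
  continuousOn_G.comp (f := fun p : ℝ × E => (p.1, y - p.2)) (by fun_prop)
    fun _ hp => ⟨hp.1, mem_univ _⟩

theorem continuousOn_rad_s1 (h : St ε T ff C₁ ρ B κ tM) :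
    ContinuousOn (fun p : ℝ × E => rad T p.2 p.1) (Ioi 0 ×ˢ univ) := by
  simp only [rad_eq_s1]
  have B0 : 0 ≤ B := (abs_nonneg _).trans (h.ε_le 0)
  have hT := h.c_T
  refine cont_aux_s1 (C := 2 * 2 ^ hd E * B) (by positivity) (fun p => ?_) (fun y => ?_)
    fun p y hp => (h.tri_s1.rad_le_aux hp p.2 y).trans ?_
  · have := (contDiff_G (V := E) p.1 (n := 0)).continuous
    exact Continuous.aestronglyMeasurable (by fun_prop)
  · exact ((cont_G_s1 y).mul (Continuous.continuousOn (by fun_prop))).div_const _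
  · have a1 := h.τ_le y
    have a2 := G_pos (show 0 < 2 * p.1 by positivity) (y - p.2)
    calc _ ≤ 2 * 2 ^ hd E * (1 + p.1) * (G (2 * p.1) (y - p.2) * B) := by
          unfold τf at a1
          have := h.tri_s1.τ_nonneg y
          gcongr; linarith
      _ = _ := by ring

theorem continuousOn_P_s1 {f : E → ℝ} (hf : BM f) :
    ContinuousOn (fun p : ℝ × E => P p.1 f p.2) (Ioi 0 ×ˢ univ) := by
  obtain ⟨C, C0, hC⟩ := hf.bdd'
  refine cont_aux_s1 (C := 2 ^ hd E * C) (by positivity) (fun p => ?_) (fun y => ?_)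
    fun p y hp => ?_
  · have := (contDiff_G (V := E) p.1 (n := 0)).continuous
    exact (Continuous.aestronglyMeasurable (by fun_prop)).mul hf.meas.aestronglyMeasurable
  · exact (cont_G_s1 y).mul continuousOn_const
  · have a2 := G_pos (show 0 < 2 * p.1 by positivity) (y - p.2)
    rw [abs_mul, abs_G hp.le]
    calc _ ≤ (2 ^ hd E * G (2 * p.1) (y - p.2)) * (C * (1 + p.1)) :=
          mul_le_mul (G_le_two hp _) ((hC y).trans (by nlinarith)) (abs_nonneg _) (by positivity)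
      _ = _ := by ring

theorem tt_deriv_s1 : ∃ C > (0 : ℝ), ∀ (ε ff : E → ℝ) (T : E → E →L[ℝ] E) (C₁ ρ B κ tM : ℝ),
    St ε T ff C₁ ρ B κ tM → tM ≤ 1 → ∀ (x : E) (t : ℝ), ‖x‖ ≤ 5 / 2 → 0 < t → 2 * t ≤ tM →
    ∃ D', HasDerivAt (tt T x) D' t ∧
      |D' - 2 * rad T x t / t| ≤ C * (P (2 * t) (fun y => |βf ε T y|) x + κ) := by
  have hd0 := hd_nonneg (V := E)
  refine ⟨(12 + hd E) * 2 ^ hd E, by positivity, fun ε ff T C₁ ρ B κ tM h h1 x t hx ht h2 => ?_⟩
  have ht₁ : 2 * t ≤ min tM 1 := le_min h2 (h2.trans h1)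
  obtain ⟨er, he, hD⟩ := h.tri_s1.hasDerivAt_Th hx ht ht₁
  have k0 := h.tri_s1.κ_nonneg hx ht (by linarith)
  have hβ := (hasDerivAt_id t).mul (hasDerivAt_P h.bm_β ht x)
  refine ⟨_, ((hD.const_mul 2).sub hβ).congr_of_eventuallyEq ?_, ?_⟩
  · filter_upwards [Ioi_mem_nhds ht] with s hs
    have e : τf T = fun y => 2 * ε y - βf ε T y := funext fun y => by simp [τf, βf]
    simp only [tt, Pi.sub_apply, Pi.mul_apply, id]
    rw [e, P_sub (h.bm_ε.const_mul 2) h.bm_β hs, P_const_mul]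
    ring
  · have a := abs_Cv_dG_le (f := βf ε T) h.bm_β.abs (fun _ => le_rfl) ht x
    have p0 := P_nonneg (f := fun y => |βf ε T y|) (show 0 ≤ 2 * t by positivity)
      (fun _ => abs_nonneg _) x
    have a' : |t * Cv (dG t) (βf ε T) x| ≤
        (2 + hd E) * 2 ^ hd E * P (2 * t) (fun y => |βf ε T y|) x := by
      rw [abs_mul, abs_of_pos ht]
      refine (mul_le_mul_of_nonneg_left a ht.le).trans (le_of_eq ?_)
      field_simp
    have e : P t (fun y => 2 * ε y - tr (T y)) x = P t (βf ε T) x := rfl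
    rw [rad_eq_s1, e]
    have e2 : 2 * (P t (βf ε T) x / 2 + rq T t x / t + er) -
        (1 * P t (βf ε T) x + id t * Cv (dG t) (βf ε T) x) - 2 * rq T t x / t =
        2 * er - t * Cv (dG t) (βf ε T) x := by simp only [id]; ring
    rw [e2]
    refine (abs_sub _ _).trans ?_
    rw [abs_mul, abs_two]
    have g0 : (0 : ℝ) < 2 ^ hd E := by positivity
    nlinarith [mul_nonneg g0.le p0, mul_nonneg (mul_nonneg hd0 g0.le) k0]

theorem St.int_th_s1 (h : St ε T ff C₁ ρ B κ tM) (x : E) {s : ℝ} (hs : 0 < s) :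
    IntegrableOn (fun t => P (4 * t) (τf T) x / t) (Ioi s) ∧ th T x s ≤ C₁ / 4 := by
  have hb : ∀ t ∈ Ioi s, P (4 * t) (τf T) x / t ≤ C₁ / 4 * t ^ (-2 : ℝ) := fun t ht => by
    have t0 : 0 < t := hs.trans ht
    have := h.tt_le x (show 0 < 4 * t by positivity)
    unfold tt at this
    rw [rpow_neg t0.le, rpow_two, div_le_iff₀ t0]
    calc _ = 4 * t * P (4 * t) (τf T) x / (4 * t) := by field_simp
      _ ≤ C₁ / (4 * t) := by gcongr
      _ = _ := by field_simp
  have hi := (integrableOn_Ioi_rpow_of_lt (show (-2 : ℝ) < -1 by norm_num) hs).const_mul (C₁ / 4)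
  have hm : Measurable fun t => P (4 * t) (τf T) x / t :=
    ((measurable_P_time h.bm_τ.meas x).comp (measurable_id.const_mul 4)).div measurable_id
  have hI : IntegrableOn (fun t => P (4 * t) (τf T) x / t) (Ioi s) := by
    refine hi.mono' hm.aestronglyMeasurable ((ae_restrict_iff' measurableSet_Ioi).2
      (Eventually.of_forall fun t ht => ?_))
    have t0 : 0 < t := hs.trans ht
    rw [Real.norm_of_nonneg (div_nonneg (P_nonneg (by positivity) h.τ_nonneg x) t0.le)]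
    exact hb t ht
  refine ⟨hI, ?_⟩
  have := setIntegral_mono_on hI hi measurableSet_Ioi hb
  rw [integral_const_mul, integral_Ioi_rpow_of_lt (by norm_num) hs] at this
  refine (mul_le_mul_of_nonneg_left this hs.le).trans (le_of_eq ?_)
  norm_num [rpow_neg_one]
  field_simp

theorem St.le_th_s1 (h : St ε T ff C₁ ρ B κ tM) (x : E) {s σ : ℝ} (hs : 0 < s) (h1 : s ≤ σ)
    (h2 : σ ≤ 4 * s) : s * P σ (τf T) x ≤ 2 * 8 ^ hd E * th T x s := by
  have hI := (h.int_th_s1 x hs).1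
  have a1 : ∫ t in Ioc s (2 * s), P (4 * t) (τf T) x / t ≤ ∫ t in Ioi s, P (4 * t) (τf T) x / t :=
    setIntegral_mono_set hI ((ae_restrict_iff' measurableSet_Ioi).2 (Eventually.of_forall
      fun t ht => div_nonneg (P_nonneg (by linarith [mem_Ioi.1 ht]) h.τ_nonneg x)
        (by linarith [mem_Ioi.1 ht]))) Ioc_subset_Ioi_self.eventuallyLE
  have a2 : ∫ t in Ioc s (2 * s), P σ (τf T) x / 8 ^ hd E / (2 * s) ≤
      ∫ t in Ioc s (2 * s), P (4 * t) (τf T) x / t := by
    refine setIntegral_mono_on (integrableOn_const measure_Ioc_lt_top.ne)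
      (hI.mono_set Ioc_subset_Ioi_self) measurableSet_Ioc fun t ht => ?_
    have t0 : 0 < t := hs.trans ht.1
    have := P_le_of_le_mul h.bm_τ h.τ_nonneg (c := 8) (s := 4 * t) (hs.trans_le h1)
      (by linarith [ht.1]) (by linarith [ht.2]) x
    refine div_le_div₀ (P_nonneg (by positivity) h.τ_nonneg x) ?_ t0 ht.2
    rwa [div_le_iff₀' (by positivity)]
  rw [setIntegral_const, Real.volume_real_Ioc_of_le (by linarith), smul_eq_mul] at a2
  have a3 := mul_le_mul_of_nonneg_left (a2.trans a1) (show 0 ≤ 2 * 8 ^ hd E * s by positivity)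
  unfold th
  calc _ = 2 * 8 ^ hd E * s * ((2 * s - s) * (P σ (τf T) x / 8 ^ hd E / (2 * s))) := by
        field_simp; ring
    _ ≤ _ := a3
    _ = _ := by ring

theorem St.th_nonneg_s1 (h : St ε T ff C₁ ρ B κ tM) (x : E) {s : ℝ} (hs : 0 < s) :
    0 ≤ th T x s :=
  mul_nonneg hs.le (setIntegral_nonneg measurableSet_Ioi fun t ht => div_nonneg
    (P_nonneg (by linarith [mem_Ioi.1 ht]) h.τ_nonneg x) (by linarith [mem_Ioi.1 ht]))

theorem dpoint_s1 {ι : Type*} [Fintype ι] (C₁ : ℝ) : ∃ C₃ C L₀ : ℝ, 1 ≤ C₃ ∧ 0 < C ∧ ∀ L, L₀ ≤ L →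
    ∀ (D : Dat E ι) (ff Γ : E → ℝ) (Q : ℕ) (η κ : ℝ), GS D ff Γ Q C₁ L η κ →
    ∀ (x : E) (s N : ℝ), ‖x‖ ≤ 5 / 2 → rho L ^ 2 ≤ s → 1 ≤ N → 16 * N * s ≤ tm L →
    (∫ t in (0 : ℝ)..s, P t D.β x) ≤ C * (th D.T x s + kz L * s) ∧
    ∀ e : E, ‖e‖ = 1 → -(C * (th D.T x s + kz L * N * s + L / N)) ≤
      ∫ t in (0 : ℝ)..s, P t (fun y => See D.ε D.T e y - C₃ * D.β y) x := by
  have hd0 := hd_nonneg (V := E)
  have g1 : (1 : ℝ) ≤ 2 ^ hd E := one_le_rpow one_le_two hd0
  have g2 : (2 : ℝ) ^ hd E ≤ 4 ^ hd E := rpow_le_rpow two_pos.le (by norm_num) hd0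
  have g3 : (0 : ℝ) < 8 ^ hd E := by positivity
  refine ⟨2 * 2 ^ hd E, 4 ^ hd E * (32 * 8 ^ hd E * |C₁| + 118), 1, by linarith, by positivity,
    fun L hL D ff Γ Q η κ h x s N hx hρ hN hs => ?_⟩
  have ρ0 : 0 < rho L ^ 2 := pow_pos h.st.ρ_pos 2
  have s0 : 0 < s := ρ0.trans_le hρ
  have tm1 : tm L ≤ 1 := exp_le_one_iff.2 (by linarith)
  have s16 : 16 * s ≤ tm L := by nlinarith
  have k0 : 0 < kz L := exp_pos _
  have nk : ng L ≤ kz L := exp_le_exp.2 (by nlinarith)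
  have th0 := h.st.th_nonneg_s1 x s0
  have bετ : BM fun y => |D.ε y| + D.τ y := h.st.bm_ε.abs.add h.st.bm_τ
  have key : ∀ u, s ≤ u → u ≤ 2 * s → s * P u (fun y => |D.ε y| + D.τ y) x ≤
      2 * 8 ^ hd E * |C₁| * th D.T x s + kz L * s := fun u h1 h2 => by
    have a1 := h.harP x u hx (s0.trans_le h1) (by linarith)
    have a2 := h.st.le_th_s1 x (σ := u + rho L ^ 2) s0 (by linarith) (by linarith)
    have a3 := P_nonneg (show 0 ≤ u + rho L ^ 2 by linarith) h.st.τ_nonneg x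
    have a4 : P (u + rho L ^ 2) D.τ x = P (u + rho L ^ 2) (τf D.T) x := rfl
    rw [a4] at a1
    have a5 := mul_le_mul_of_nonneg_right (le_abs_self C₁) (mul_nonneg s0.le a3)
    have a6 := mul_le_mul_of_nonneg_left a2 (abs_nonneg C₁)
    nlinarith
  have c0 : 0 ≤ 8 ^ hd E * |C₁| * th D.T x s := by positivity
  have c1 : 0 < kz L * s := by positivity
  have c2 : 0 ≤ 8 ^ hd E * |C₁| * (kz L * s) := by positivity
  constructor
  · have a1 := h.st.tri_s1.gI_β_le hx s0 (le_min (by linarith) (by linarith))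
    have a2 := P_mono h.st.bm_ε bετ s0 (fun y => by
      linarith [le_abs_self (D.ε y), show 0 ≤ D.τ y from h.st.τ_nonneg y]) x
    have a3 := (mul_le_mul_of_nonneg_left a2 s0.le).trans (key s le_rfl (by linarith))
    rw [intervalIntegral.integral_of_le s0.le]
    refine le_trans (b := gI s (fun y => 2 * D.ε y - tr (D.T y)) x) le_rfl (a1.trans ?_)
    have a4 := mul_le_mul_of_nonneg_right (g1.trans g2) c0
    have a5 := mul_le_mul_of_nonneg_right (g1.trans g2) c1.le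
    have a6 := mul_le_mul_of_nonneg_right g2 c1.le
    have a7 := mul_nonneg (zero_le_one.trans (g1.trans g2)) c2
    have a8 := mul_nonneg (zero_le_one.trans (g1.trans g2)) th0
    nlinarith
  · intro e he
    have a1 := h.st.tri_s1.gI_S_ge hx he s0 (le_min (by linarith) (by linarith))
    have a2 : ∫ t in (0 : ℝ)..s, P t (fun y => See D.ε D.T e y - 2 * 2 ^ hd E * D.β y) x =
        gI s (fun y => D.ε y - ⟪D.T y e, e⟫) x -
          2 * 2 ^ hd E * gI s (fun y => 2 * D.ε y - tr (D.T y)) x := by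
      rw [intervalIntegral.integral_of_le s0.le, ← gI_const_mul,
        ← gI_sub (h.st.bm_ε.sub (h.st.bm_inner e e)) (h.st.tri_s1.bβ.const_mul _)]
      rfl
    have a3 : s * P (2 * s) (fun y => |D.ε y| + tr (D.T y)) x ≤ _ := key (2 * s) (by linarith) le_rfl
    have g4 : (0 : ℝ) < 4 ^ hd E := by positivity
    have a4 := mul_le_mul_of_nonneg_left a3 g4.le
    have a5 : kz L * s ≤ kz L * N * s + L / N := by
      have : 0 ≤ L / N := by positivity
      nlinarith
    have a6 : 4 ^ hd E * (32 * 8 ^ hd E * |C₁| + 118) * (th D.T x s + kz L * s) ≤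
        4 ^ hd E * (32 * 8 ^ hd E * |C₁| + 118) * (th D.T x s + kz L * N * s + L / N) := by
      gcongr ?_ * ?_; linarith
    have a7 := mul_nonneg g4.le c2
    have a8 := mul_nonneg g4.le th0
    rw [a2]
    nlinarith

end Pool.Agent.Lib.MP_8daebb_an.AS
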