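import Pool.Agent.Lib.MP_8daebb_an.AS.S1c

/-! The stopping lemma. -/

open MeasureTheory Metric Filter Topology Set Real Module
open scoped RealInnerProductSpace

namespace Pool.Agent.Lib.MP_8daebb_an.AS

open HK

variable {E : Type*} [NormedAddCommGroup E] [InnerProductSpace ℝ E] [FiniteDimensional ℝ E]
  [MeasurableSpace E] [BorelSpace E]

variable {ε ff : E → ℝ} {T : E → E →L[ℝ] E} {C₁ ρ B κ tM : ℝ}

theorem ZZ_eq_s1 (T : E → E →L[ℝ] E) (x : E) {s : ℝ} (hs : 0 ≤ s) : ZZ T x s = gI s (τf T) x :=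
  intervalIntegral.integral_of_le hs

theorem St.hasDerivAt_ZZ_s1 (h : St ε T ff C₁ ρ B κ tM) (x : E) {s : ℝ} (hs : 0 < s) :
    HasDerivAt (ZZ T x) (P s (τf T) x) s :=
  intervalIntegral.integral_hasDerivAt_right
    ((intervalIntegrable_iff_integrableOn_Ioc_of_le hs.le).2 (integrableOn_P h.bm_τ le_rfl x))
    (measurable_P_time h.bm_τ.meas x).stronglyMeasurable.stronglyMeasurableAtFilter
    (hasDerivAt_P h.bm_τ hs x).continuousAt

theorem St.hasDerivAt_H_s1 (h : St ε T ff C₁ ρ B κ tM) (x : E) {s : ℝ} (hs : 0 < s) :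
    HasDerivAt (fun u => ∫ t in Ioi u, P (4 * t) (τf T) x / t) (-(P (4 * s) (τf T) x / s)) s := by
  have hI := (h.int_th_s1 x (half_pos hs)).1
  have hm : Measurable fun t => P (4 * t) (τf T) x / t :=
    ((measurable_P_time h.bm_τ.meas x).comp (measurable_id.const_mul 4)).div measurable_id
  have hc : ContinuousAt (fun t => P (4 * t) (τf T) x / t) s :=
    (ContinuousAt.comp (g := fun u => P u (τf T) x) (f := fun t : ℝ => 4 * t)
      (hasDerivAt_P h.bm_τ (by positivity) x).continuousAt (by fun_prop)).div continuousAt_id hs.ne'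
  have h1 := intervalIntegral.integral_hasDerivAt_right (a := s / 2)
    ((intervalIntegrable_iff_integrableOn_Ioc_of_le (by linarith)).2
      (hI.mono_set Ioc_subset_Ioi_self)) hm.stronglyMeasurable.stronglyMeasurableAtFilter hc
  refine (h1.const_sub (∫ t in Ioi (s / 2), P (4 * t) (τf T) x / t)).congr_of_eventuallyEq ?_
  filter_upwards [Ioi_mem_nhds (show s / 2 < s by linarith)] with u hu
  have hu' : s / 2 ≤ u := le_of_lt hu
  rw [intervalIntegral.integral_of_le hu', ← Ioc_union_Ioi_eq_Ioi hu',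
    setIntegral_union Ioc_disjoint_Ioi_same measurableSet_Ioi (hI.mono_set Ioc_subset_Ioi_self)
      (hI.mono_set (Ioi_subset_Ioi hu'))]
  ring

theorem St.hasDerivAt_Phi_s1 (h : St ε T ff C₁ ρ B κ tM) (x : E) {s : ℝ} (hs : 0 < s) :
    HasDerivAt (fun u => ZZ T x (4 * u) + 4 * th T x u) (4 * th T x s / s) s := by
  have h1 := (h.hasDerivAt_ZZ_s1 x (show 0 < 4 * s by positivity)).comp s
    ((hasDerivAt_id s).const_mul 4)
  have h2 := ((hasDerivAt_id s).mul (h.hasDerivAt_H_s1 x hs)).const_mul 4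
  refine (h1.add h2).congr_deriv ?_
  simp only [th, id]
  field_simp
  ring

theorem St.ZZ_four_le_s1 (h : St ε T ff C₁ ρ B κ tM) (x : E) {s : ℝ} (hs : 0 < s) :
    ZZ T x (4 * s) ≤ ZZ T x s + 6 * 8 ^ hd E * th T x s := by
  rw [ZZ_eq_s1 T x hs.le, ZZ_eq_s1 T x (by positivity), gI_split h.bm_τ hs.le (by linarith)]
  have a : ∫ u in Ioc s (4 * s), P u (τf T) x ≤
      ∫ _ in Ioc s (4 * s), 2 * 8 ^ hd E * th T x s / s := by
    refine setIntegral_mono_on (integrableOn_P h.bm_τ hs.le x)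
      (integrableOn_const measure_Ioc_lt_top.ne) measurableSet_Ioc fun u hu => ?_
    rw [le_div_iff₀' hs]
    exact h.le_th_s1 x hs hu.1.le hu.2
  rw [setIntegral_const, Real.volume_real_Ioc_of_le (by linarith), smul_eq_mul] at a
  have e : (4 * s - s) * (2 * 8 ^ hd E * th T x s / s) = 6 * 8 ^ hd E * th T x s := by
    field_simp; ring
  linarith

theorem St.tt_le_ZZ_s1 (h : St ε T ff C₁ ρ B κ tM) (x : E) {r s : ℝ} (hr : 0 < r)
    (hs : 2 * r ≤ s) : tt T x r ≤ 2 ^ hd E * ZZ T x s := by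
  have a : ∫ _ in Ioc r (2 * r), P r (τf T) x / 2 ^ hd E ≤
      ∫ u in Ioc r (2 * r), P u (τf T) x := by
    refine setIntegral_mono_on (integrableOn_const measure_Ioc_lt_top.ne)
      (integrableOn_P h.bm_τ hr.le x) measurableSet_Ioc fun u hu => ?_
    rw [div_le_iff₀' (by positivity)]
    exact P_le_of_le_mul h.bm_τ h.τ_nonneg hr hu.1.le hu.2 x
  rw [setIntegral_const, Real.volume_real_Ioc_of_le (by linarith), smul_eq_mul] at a
  have b := gI_mono_time h.bm_τ h.τ_nonneg (show 0 ≤ 2 * r by positivity) hs x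
  rw [gI_split h.bm_τ hr.le (show r ≤ 2 * r by linarith)] at b
  have c := gI_nonneg h.τ_nonneg r x
  rw [ZZ_eq_s1 T x (by linarith), ← div_le_iff₀' (by positivity)]
  have e : tt T x r / 2 ^ hd E = (2 * r - r) * (P r (τf T) x / 2 ^ hd E) := by unfold tt; ring
  linarith

theorem St.ZZ_le_log_s1 (h : St ε T ff C₁ ρ B κ tM) (x : E) {s : ℝ} (hs : 0 ≤ s) (h4 : s ≤ 4)
    (hρ : ρ ^ 2 ≤ 4) : ZZ T x s ≤ |C₁| * (4 + 2 * |log ρ|) := by
  have ρ0 : 0 < ρ ^ 2 := pow_pos h.ρ_pos 2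
  have hb : ∀ u, 0 < u → (u + ρ ^ 2) * P u (τf T) x ≤ |C₁| := fun u hu =>
    ((mul_le_mul_of_nonneg_left (P_mono h.bm_τ (h.bm_ε.abs.add h.bm_τ) hu
      (fun y => le_add_of_nonneg_left (abs_nonneg _)) x) (by positivity)).trans
      (h.dens x u hu)).trans (le_abs_self _)
  have a1 : gI (ρ ^ 2) (τf T) x ≤ ρ ^ 2 * (|C₁| / ρ ^ 2) := gI_le_of_le h.bm_τ ρ0.le fun u hu => by
    rw [le_div_iff₀' ρ0]
    nlinarith [hb u hu.1, mul_nonneg hu.1.le (P_nonneg hu.1.le h.τ_nonneg x)]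
  have a2 : ∫ u in Ioc (ρ ^ 2) 4, P u (τf T) x ≤ ∫ u in Ioc (ρ ^ 2) 4, |C₁| * u⁻¹ := by
    refine setIntegral_mono_on (integrableOn_P h.bm_τ ρ0.le x) ?_ measurableSet_Ioc fun u hu => ?_
    · refine (ContinuousOn.integrableOn_Icc ?_).mono_set Ioc_subset_Icc_self
      exact continuousOn_const.mul (continuousOn_id.inv₀ fun u hu => (ρ0.trans_le hu.1).ne')
    · have u0 := ρ0.trans hu.1
      rw [← div_eq_mul_inv, le_div_iff₀' u0]
      nlinarith [hb u u0, mul_nonneg ρ0.le (P_nonneg u0.le h.τ_nonneg x)]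
  rw [← intervalIntegral.integral_of_le (f := fun u => |C₁| * u⁻¹) hρ,
    intervalIntegral.integral_const_mul, integral_inv_of_pos ρ0 (by norm_num),
    log_div (by norm_num) ρ0.ne', log_pow] at a2
  have a3 := gI_mono_time h.bm_τ h.τ_nonneg hs h4 x
  rw [gI_split h.bm_τ ρ0.le hρ] at a3
  rw [mul_div_cancel₀ _ ρ0.ne'] at a1
  have a4 : log 4 - (2 : ℕ) * log ρ ≤ 3 + 2 * |log ρ| := by
    have := log_le_sub_one_of_pos (show (0 : ℝ) < 4 by norm_num)
    push_cast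
    linarith [neg_abs_le (log ρ)]
  have a5 := mul_le_mul_of_nonneg_left a4 (abs_nonneg C₁)
  rw [ZZ_eq_s1 T x hs]
  linarith

theorem stop_s1 (C₁ : ℝ) : ∃ C : ℝ, 1 ≤ C ∧ ∀ (ε ff : E → ℝ) (T : E → E →L[ℝ] E) (ρ B κ tM : ℝ),
    St ε T ff C₁ ρ B κ tM → ∀ (x : E) (s₁ fl a w : ℝ), 0 < fl → fl ≤ tt T x s₁ → ρ ^ 2 ≤ s₁ →
    0 < a → C * a ≤ 1 → 0 ≤ w → 2 * s₁ * Real.exp w ≤ 1 →
    C * (1 + |Real.log ρ|) ≤ fl * Real.exp (a * w / C) →
    ∃ s ∈ Icc (2 * s₁) (2 * s₁ * Real.exp w), th T x s ≤ a * ZZ T x s ∧ fl ≤ C * ZZ T x s := by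
  have hd0 := hd_nonneg (V := E)
  have g1 : (0 : ℝ) < 2 ^ hd E := by positivity
  have g2 : (0 : ℝ) < 8 ^ hd E := by positivity
  have g3 : 0 ≤ 2 ^ hd E * |C₁| := by positivity
  obtain ⟨C, hC⟩ : ∃ C, C = 5 * (2 ^ hd E * |C₁|) + 6 * 8 ^ hd E + 4 + 2 ^ hd E := ⟨_, rfl⟩
  have C1 : 1 ≤ C := by linarith
  refine ⟨C, C1, fun ε ff T ρ B κ tM h x s₁ fl a w hfl h1 hρ ha hCa hw hb hL => ?_⟩
  have s0 : 0 < s₁ := (pow_pos h.ρ_pos 2).trans_le hρ
  have e1 : 1 ≤ exp w := one_le_exp hw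
  have low : ∀ s, 2 * s₁ ≤ s → fl ≤ 2 ^ hd E * ZZ T x s := fun s hs =>
    h1.trans (h.tt_le_ZZ_s1 x s0 hs)
  by_contra hn
  have hn' : ∀ s ∈ Icc (2 * s₁) (2 * s₁ * exp w), a * ZZ T x s < th T x s := fun s hs => by
    refine not_le.1 fun hh => hn ⟨s, hs, hh, (low s hs.1).trans ?_⟩
    refine mul_le_mul_of_nonneg_right (by linarith) ?_
    exact nonneg_of_mul_nonneg_right (hfl.le.trans (low s hs.1)) g1
  set Φ : ℝ → ℝ := fun u => ZZ T x (4 * u) + 4 * th T x u with hΦ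
  have hD : ∀ u, HasDerivAt (fun u => Φ (2 * s₁ * exp u) * exp (-(2 * a) * u))
      ((4 * th T x (2 * s₁ * exp u) - 2 * a * Φ (2 * s₁ * exp u)) * exp (-(2 * a) * u)) u := by
    intro u
    have b1 := (h.hasDerivAt_Phi_s1 x (show 0 < 2 * s₁ * exp u by positivity)).comp u
      ((hasDerivAt_exp u).const_mul (2 * s₁))
    have b2 := ((hasDerivAt_id u).const_mul (-(2 * a))).exp
    refine (b1.mul b2).congr_deriv ?_
    simp only [hΦ, id, Function.comp]
    field_simp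
    ring
  have hM : MonotoneOn (fun u => Φ (2 * s₁ * exp u) * exp (-(2 * a) * u)) (Icc 0 w) := by
    refine monotoneOn_of_deriv_nonneg (convex_Icc 0 w)
      (fun u _ => (hD u).continuousAt.continuousWithinAt)
      (fun u _ => (hD u).differentiableAt.differentiableWithinAt) fun u hu => ?_
    have hu' := interior_subset hu
    rw [(hD u).deriv]
    refine mul_nonneg ?_ (exp_pos _).le
    have u0 : 0 < 2 * s₁ * exp u := by positivity
    have b1 := hn' (2 * s₁ * exp u) ⟨le_mul_of_one_le_right (by positivity) (one_le_exp hu'.1),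
      mul_le_mul_of_nonneg_left (exp_le_exp.2 hu'.2) (by positivity)⟩
    have b2 := mul_le_mul_of_nonneg_left (h.ZZ_four_le_s1 x u0) ha.le
    have b3 := h.th_nonneg_s1 x u0
    have b4 : (6 * 8 ^ hd E + 4) * a ≤ 1 :=
      (mul_le_mul_of_nonneg_right (by linarith) ha.le).trans hCa
    have b5 := mul_le_mul_of_nonneg_right b4 b3
    simp only [hΦ]
    nlinarith
  have b1 := hM (left_mem_Icc.2 hw) (right_mem_Icc.2 hw) hw
  simp only [mul_zero, exp_zero, mul_one, hΦ] at b1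
  have b0 : 0 < 2 * s₁ * exp w := by positivity
  have b2 := low (4 * (2 * s₁)) (by linarith)
  have b3 := h.th_nonneg_s1 x (show 0 < 2 * s₁ by positivity)
  have b4 := h.ZZ_le_log_s1 x (s := 4 * (2 * s₁ * exp w)) (by positivity) (by linarith)
    (by nlinarith)
  have b5 := (h.int_th_s1 x b0).2
  have b6 : ZZ T x (4 * (2 * s₁ * exp w)) + 4 * th T x (2 * s₁ * exp w) ≤
      5 * |C₁| * (1 + |log ρ|) := by
    nlinarith [le_abs_self C₁, mul_nonneg (abs_nonneg C₁) (abs_nonneg (log ρ))]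
  have b7 : fl ≤ 2 ^ hd E * (5 * |C₁| * (1 + |log ρ|) * exp (-(2 * a) * w)) :=
    b2.trans (mul_le_mul_of_nonneg_left ((le_add_of_nonneg_right (by positivity)).trans
      (b1.trans (mul_le_mul_of_nonneg_right b6 (exp_pos _).le))) g1.le)
  have b8 : exp (-(2 * a) * w) * exp (a * w / C) ≤ 1 := by
    rw [← exp_add, exp_le_one_iff]
    have := div_le_self (mul_nonneg ha.le hw) C1
    nlinarith [mul_nonneg ha.le hw]
  have b9 := mul_le_mul_of_nonneg_right b7 (exp_pos (a * w / C)).le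
  have c0 : 0 < 1 + |log ρ| := by positivity
  have c1 := mul_le_mul_of_nonneg_left b8 (show 0 ≤ 5 * (2 ^ hd E * |C₁|) * (1 + |log ρ|) by positivity)
  have c2 : 5 * (2 ^ hd E * |C₁|) * (1 + |log ρ|) < C * (1 + |log ρ|) :=
    mul_lt_mul_of_pos_right (by linarith) c0
  nlinarith

end Pool.Agent.Lib.MP_8daebb_an.AS
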