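import Pool.Agent.Lib.MP_8daebb_an.AS.S1
import Pool.Agent.Lib.MP_8daebb_an.AS.Bas2

/-! Lemmas for the first pointwise bounds (section 3). -/

open MeasureTheory Metric Set Module Filter
open scoped RealInnerProductSpace

namespace Pool.Agent.Lib.MP_8daebb_an.AS

open HK

variable {E : Type*} [NormedAddCommGroup E] [InnerProductSpace ℝ E] [FiniteDimensional ℝ E]
  [MeasurableSpace E] [BorelSpace E]

theorem ev_pow_s3 (K : ℝ) (n : ℕ) {c : ℝ} (hc : 0 < c) :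
    ∀ᶠ L : ℝ in atTop, K * L ^ n ≤ Real.exp (c * L) := by
  filter_upwards [eventually_ge_atTop 0,
    eventually_ge_atTop (K * (n + 1).factorial / c ^ (n + 1))] with L h0 h1
  refine le_trans ?_ (Real.pow_div_factorial_le_exp (c * L) (by positivity) (n + 1))
  rw [div_le_iff₀ (by positivity)] at h1
  rw [le_div_iff₀ (by positivity), mul_pow, pow_succ L]
  linarith [mul_le_mul_of_nonneg_right h1 (pow_nonneg h0 n)]

theorem intInt_P_s3 {f : E → ℝ} (hf : BM f) (x : E) {a b : ℝ} (ha : 0 ≤ a) (hab : a ≤ b) :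
    IntervalIntegrable (fun t => P t f x) volume a b := by
  obtain ⟨C, hC⟩ := hf.bdd
  rw [intervalIntegrable_iff_integrableOn_Ioc_of_le hab]
  refine Measure.integrableOn_of_bounded (M := C) measure_Ioc_lt_top.ne
    ((measurable_P hf.meas).comp (measurable_id.prodMk measurable_const)).aestronglyMeasurable ?_
  filter_upwards [ae_restrict_mem measurableSet_Ioc] with t ht
  exact abs_P_le_const (ha.trans_lt ht.1) hC x

theorem inv_sq_s3 {s c : ℝ} (h : 0 < s + c) :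
    IntegrableOn (fun t : ℝ => ((t + c) ^ 2)⁻¹) (Ioi s) ∧
      ∫ t in Ioi s, ((t + c) ^ 2)⁻¹ = (s + c)⁻¹ := by
  have d : ∀ x ∈ Ici s, HasDerivAt (fun t : ℝ => -(t + c)⁻¹) (((x + c) ^ 2)⁻¹) x := fun x hx =>
    (((hasDerivAt_id x).add_const c).inv (by
      have : s ≤ x := hx
      simp only [id]; linarith)).neg.congr_deriv (by simp [div_eq_mul_inv])
  have l : Tendsto (fun t : ℝ => -(t + c)⁻¹) atTop (nhds 0) := by
    simpa using (tendsto_inv_atTop_zero.comp (tendsto_atTop_add_const_right _ c tendsto_id)).neg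
  refine ⟨integrableOn_Ioi_deriv_of_nonneg' d (fun x _ => by positivity) l, ?_⟩
  rw [integral_Ioi_of_hasDerivAt_of_nonneg' d (fun x _ => by positivity) l]
  simp

section St

variable {ε ff : E → ℝ} {T : E → E →L[ℝ] E} {C₁ ρ B κ tM : ℝ}

theorem St.zz_ge_s3 (h : St ε T ff C₁ ρ B κ tM) (x : E) {s₁ s : ℝ} (h1 : 0 < s₁)
    (h2 : 2 * s₁ ≤ s) : tt T x s₁ ≤ 2 ^ hd E * ZZ T x s := by
  have a1 : ∫ t in s₁..(2 * s₁), P t (τf T) x ≤ ZZ T x s := by
    refine intervalIntegral.integral_mono_interval h1.le (by linarith) h2 ?_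
      (intInt_P_s3 h.bm_τ x le_rfl (by linarith))
    filter_upwards [ae_restrict_mem measurableSet_Ioc] with t ht
    exact P_nonneg ht.1.le h.τ_nonneg x
  have a2 : ∫ _ in s₁..(2 * s₁), P s₁ (τf T) x ≤
      ∫ t in s₁..(2 * s₁), 2 ^ hd E * P t (τf T) x :=
    intervalIntegral.integral_mono_on (by linarith) intervalIntegrable_const
      ((intInt_P_s3 h.bm_τ x h1.le (by linarith)).const_mul _)
      fun t ht => P_le_of_le_mul h.bm_τ h.τ_nonneg h1 ht.1 ht.2 x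
  rw [intervalIntegral.integral_const_mul, intervalIntegral.integral_const, smul_eq_mul,
    show 2 * s₁ - s₁ = s₁ by ring] at a2
  exact a2.trans (mul_le_mul_of_nonneg_left a1 (by positivity))

theorem St.th_le_s3 (h : St ε T ff C₁ ρ B κ tM) (x : E) {s b K : ℝ} (hs : 0 < s) (hb : 0 < b)
    (hK0 : 0 ≤ K) (hK : ∀ t, s < t → t ≤ b → P (4 * t) (τf T) x ≤ K) :
    th T x s ≤ K * b + C₁ * (s / b) := by
  have C0 : 0 ≤ C₁ :=
    le_trans (mul_nonneg one_pos.le (P_nonneg one_pos.le h.τ_nonneg x)) (h.tt_le x one_pos)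
  obtain ⟨i1, e1⟩ := inv_sq_s3 (s := s) (c := 0) (by linarith)
  obtain ⟨i2, e2⟩ := inv_sq_s3 (s := s) (c := b) (by linarith)
  have a1 : ∫ t in Ioi s, P (4 * t) (τf T) x / t ≤
      ∫ t in Ioi s, (K * b * ((t + 0) ^ 2)⁻¹ + C₁ * ((t + b) ^ 2)⁻¹) := by
    refine integral_mono_of_nonneg ?_ ((i1.const_mul _).add (i2.const_mul _)) ?_
    · filter_upwards [ae_restrict_mem measurableSet_Ioi] with t ht
      have t0 : 0 < t := hs.trans ht
      exact div_nonneg (P_nonneg (by linarith) h.τ_nonneg x) t0.le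
    filter_upwards [ae_restrict_mem measurableSet_Ioi] with t ht
    have t0 : 0 < t := hs.trans ht
    rcases le_total t b with u | u
    · refine le_trans ?_ (le_add_of_nonneg_right (by positivity))
      rw [add_zero, ← div_eq_mul_inv, div_le_div_iff₀ t0 (by positivity)]
      have b1 := mul_le_mul_of_nonneg_right (hK t ht u) (sq_nonneg t)
      have b2 := mul_le_mul_of_nonneg_left u (show 0 ≤ K * t by positivity)
      linarith
    · refine le_trans ?_ (le_add_of_nonneg_left (by positivity))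
      rw [← div_eq_mul_inv, div_le_div_iff₀ t0 (by positivity)]
      have b1 : 4 * t * P (4 * t) (τf T) x ≤ C₁ := h.tt_le x (by linarith)
      have b2 : (t + b) ^ 2 ≤ (2 * t) ^ 2 := pow_le_pow_left₀ (by linarith) (by linarith) 2
      have b3 := mul_le_mul_of_nonneg_left b2 (P_nonneg (t := 4 * t) (by linarith) h.τ_nonneg x)
      have b4 := mul_le_mul_of_nonneg_right b1 t0.le
      linarith
  rw [integral_add (i1.const_mul _) (i2.const_mul _), integral_const_mul, integral_const_mul,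
    e1, e2, add_zero] at a1
  refine (mul_le_mul_of_nonneg_left a1 hs.le).trans ?_
  have a2 : s * (s + b)⁻¹ ≤ s / b := by
    rw [← div_eq_mul_inv]; exact div_le_div_of_nonneg_left hs.le hb (by linarith)
  have a3 : s * (K * b * s⁻¹) = K * b := by field_simp
  linarith [mul_le_mul_of_nonneg_left a2 C0]

end St

variable {ι : Type*} [Fintype ι] {D : Dat E ι} {ff Γ : E → ℝ} {Q : ℕ} {C₁ L η κ : ℝ}

/-- The function to which the maximum principle is applied. -/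
noncomputable def fS3 (D : Dat E ι) (L a : ℝ) (y : E) : ℝ :=
  D.β y - a * D.τ y - D.ee y - (L ^ 6)⁻¹ * P (3 * rho L ^ 2) D.τ y - ng L

theorem rho_sq_pos_s3 (L : ℝ) : 0 < rho L ^ 2 := pow_pos (Real.exp_pos _) 2

theorem GS.bm_ee_s3 (h : GS D ff Γ Q C₁ L η κ) : BM D.ee :=
  ⟨h.c_ee.measurable, big L, fun y => (abs_of_nonneg (h.ee_nonneg y)).trans_le (h.ee_le y)⟩

theorem GS.bm_τ_s3 (h : GS D ff Γ Q C₁ L η κ) : BM D.τ := h.st.bm_τ

theorem GS.bm_β_s3 (h : GS D ff Γ Q C₁ L η κ) : BM D.β := h.st.bm_β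

theorem GS.τ_nonneg_s3 (h : GS D ff Γ Q C₁ L η κ) (y : E) : 0 ≤ D.τ y := h.st.τ_nonneg y

theorem GS.abs_β_s3 (h : GS D ff Γ Q C₁ L η κ) (y : E) : |D.β y| ≤ 2 * (|D.ε y| + D.τ y) := by
  have h1 := h.τ_nonneg_s3 y
  unfold Dat.β
  rw [abs_le]
  constructor <;> linarith [le_abs_self (D.ε y), neg_abs_le (D.ε y)]

theorem GS.bm_fS3 (h : GS D ff Γ Q C₁ L η κ) (a : ℝ) : BM (fS3 D L a) :=
  (((h.bm_β_s3.sub (h.bm_τ_s3.const_mul a)).sub h.bm_ee_s3).sub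
    ((h.bm_τ_s3.P (by linarith [rho_sq_pos_s3 L])).const_mul _)).sub (BM.const _)

theorem GS.P_fS3 (h : GS D ff Γ Q C₁ L η κ) (a : ℝ) {t : ℝ} (ht : 0 < t) (x : E) :
    P t (fS3 D L a) x = P t D.β x - a * P t D.τ x - P t D.ee x -
      (L ^ 6)⁻¹ * P (t + 3 * rho L ^ 2) D.τ x - ng L := by
  have r : 0 < 3 * rho L ^ 2 := by linarith [rho_sq_pos_s3 L]
  have b1 := h.bm_β_s3.sub (h.bm_τ_s3.const_mul a)
  have b2 := b1.sub h.bm_ee_s3
  have b3 := (h.bm_τ_s3.P r).const_mul (L ^ 6)⁻¹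
  unfold fS3
  rw [P_sub (b2.sub b3) (BM.const _) ht, P_sub b2 b3 ht, P_sub b1 h.bm_ee_s3 ht,
    P_sub h.bm_β_s3 (h.bm_τ_s3.const_mul a) ht, P_const_mul, P_const_mul, P_const ht,
    P_P h.bm_τ_s3 ht r]

theorem GS.abs_fS3 (h : GS D ff Γ Q C₁ L η κ) {a : ℝ} (a0 : 0 ≤ a) (a1 : a ≤ 1) (hL : 1 ≤ L)
    (y : E) : |fS3 D L a y| ≤
      2 * (|D.ε y| + D.τ y) + D.τ y + D.ee y + P (3 * rho L ^ 2) D.τ y + ng L := by
  have h1 := h.τ_nonneg_s3 y
  have h2 := h.ee_nonneg y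
  have h3 : 0 ≤ P (3 * rho L ^ 2) D.τ y := P_nonneg (by positivity) h.τ_nonneg_s3 y
  have h4 : 0 < ng L := Real.exp_pos _
  have h5 := abs_le.1 (h.abs_β_s3 y)
  have h6 : (L ^ 6)⁻¹ ≤ 1 := inv_le_one_of_one_le₀ (one_le_pow₀ hL)
  have h7 := mul_le_mul_of_nonneg_right h6 h3
  have h8 := mul_le_mul_of_nonneg_right a1 h1
  have h9 : 0 ≤ (L ^ 6)⁻¹ * P (3 * rho L ^ 2) D.τ y := by positivity
  have h10 := mul_nonneg a0 h1
  unfold fS3
  rw [abs_le]
  constructor <;> linarith [h5.1, h5.2]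

theorem GS.abs_fS3_le (h : GS D ff Γ Q C₁ L η κ) {a : ℝ} (a0 : 0 ≤ a) (a1 : a ≤ 1) (hL : 1 ≤ L)
    (y : E) : |fS3 D L a y| ≤ 8 * big L := by
  have h1 : D.τ y ≤ big L := h.st.τ_le y
  have h2 : P (3 * rho L ^ 2) D.τ y ≤ big L := (le_abs_self _).trans (abs_P_le_const
    (by linarith [rho_sq_pos_s3 L])
    (fun z => (abs_of_nonneg (h.τ_nonneg_s3 z)).trans_le (h.st.τ_le z)) y)
  have h3 : ng L ≤ big L := Real.exp_le_exp.2 (by nlinarith)
  linarith [h.abs_fS3 a0 a1 hL y, h.st.ε_le y, h.ee_le y]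

theorem GS.dense_s3 (h : GS D ff Γ Q C₁ L η κ) {a s : ℝ} (hs : 0 ≤ s) {x : E}
    (h1 : (∫ t in (0 : ℝ)..s, P t D.β x) ≤ a * ZZ D.T x s) :
    (∫ t in (0 : ℝ)..s, P t (fS3 D L a) x) ≤ 0 := by
  have i1 := intInt_P_s3 h.bm_β_s3 x le_rfl hs
  have i2 := (intInt_P_s3 h.bm_τ_s3 x le_rfl hs).const_mul a
  have a1 : (∫ t in (0 : ℝ)..s, P t (fS3 D L a) x) ≤
      ∫ t in (0 : ℝ)..s, (P t D.β x - a * P t D.τ x) := by
    refine intervalIntegral.integral_mono_on_of_le_Ioo hs (intInt_P_s3 (h.bm_fS3 a) x le_rfl hs)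
      (i1.sub i2) fun t ht => ?_
    rw [h.P_fS3 a ht.1]
    have b1 : 0 ≤ P t D.ee x := P_nonneg ht.1.le h.ee_nonneg x
    have b2 : 0 ≤ P (t + 3 * rho L ^ 2) D.τ x :=
      P_nonneg (by linarith [ht.1, rho_sq_pos_s3 L]) h.τ_nonneg_s3 x
    have b3 : 0 ≤ (L ^ 6)⁻¹ * P (t + 3 * rho L ^ 2) D.τ x := by positivity
    have b4 : 0 < ng L := Real.exp_pos _
    linarith
  rw [intervalIntegral.integral_sub i1 i2, intervalIntegral.integral_const_mul] at a1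
  exact a1.trans (sub_nonpos.2 h1)

theorem GS.ball_s3 (h : GS D ff Γ Q C₁ L η κ) {fl : ℝ} (hL : 1 ≤ L)
    (n2 : (2 * L) ^ finrank ℝ E * Real.exp (1 / 8) * fl ≤ η) (n4 : L * rho L ≤ 1 / 2) {x : E}
    (hx : ‖x‖ ≤ 5 / 2) (hg : tt D.T x (4 * L ^ 2 * rho L ^ 2) ≤ fl) {y : E}
    (hy : ‖y - x‖ ≤ L * rho L) : D.β y ≤ D.ee y := by
  have r := rho_sq_pos_s3 L
  have L2 : 1 ≤ L ^ 2 := one_le_pow₀ hL
  have y3 : ‖y‖ ≤ 3 := by linarith [norm_le_norm_sub_add y x]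
  have a1 := P_le_of_le_mul (c := 2 * L ^ 2) (s := 2 * L ^ 2 * rho L ^ 2) h.bm_τ_s3 h.τ_nonneg_s3 r
    (by nlinarith) le_rfl y
  have a2 := P_shift_le (A := 1 / 2) (t := 2 * L ^ 2 * rho L ^ 2) (x := x) (x' := y) h.bm_τ_s3
    h.τ_nonneg_s3 (by positivity) (by
      rw [norm_sub_rev]
      linarith [pow_le_pow_left₀ (norm_nonneg _) hy 2, mul_pow L (rho L) 2])
  have a3 : (2 * L ^ 2) ^ hd E * 2 ^ hd E = (2 * L) ^ finrank ℝ E := by
    rw [← Real.mul_rpow (by positivity) (by positivity), rpow_hd_eq (by positivity),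
      show 2 * L ^ 2 * 2 = (2 * L) ^ 2 by ring, Real.sqrt_sq (by linarith)]
  rw [show 2 * (2 * L ^ 2 * rho L ^ 2) = 4 * L ^ 2 * rho L ^ 2 by ring,
    show (1 / 2 / 4 : ℝ) = 1 / 8 by norm_num] at a2
  obtain ⟨X, hX⟩ : ∃ X, X = P (4 * L ^ 2 * rho L ^ 2) D.τ x := ⟨_, rfl⟩
  have X0 : 0 ≤ X := hX ▸ P_nonneg (by positivity) h.τ_nonneg_s3 x
  have a4 : 4 * L ^ 2 * rho L ^ 2 * X ≤ fl := hX ▸ hg
  have a5 : rho L ^ 2 * X ≤ fl := by nlinarith [mul_nonneg r.le X0]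
  rw [← hX] at a2
  have a6 : P (rho L ^ 2) D.τ y ≤ (2 * L) ^ finrank ℝ E * Real.exp (1 / 8) * X := by
    rw [← a3]
    linarith [mul_le_mul_of_nonneg_left a2 (show 0 ≤ (2 * L ^ 2) ^ hd E by positivity)]
  have a7 := mul_le_mul_of_nonneg_left a5
    (show 0 ≤ (2 * L) ^ finrank ℝ E * Real.exp (1 / 8) by positivity)
  exact (le_abs_self _).trans
    (h.s6 y y3 (by linarith [mul_le_mul_of_nonneg_left a6 r.le])).1

theorem GS.good_s3 (h : GS D ff Γ Q C₁ L η κ) {a fl : ℝ} (ha : 0 ≤ a) (hL : 1 ≤ L)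
    (n2 : (2 * L) ^ finrank ℝ E * Real.exp (1 / 8) * fl ≤ η)
    (n3 : 2 * 2 ^ hd E * 3 ^ hd E * max C₁ 1 * Real.exp (-(L ^ 2 / 8)) ≤ (L ^ 6)⁻¹)
    (n4 : L * rho L ≤ 1 / 2) (n5 : 2 * rho L ^ 2 ≤ tm L) {x : E} (hx : ‖x‖ ≤ 5 / 2)
    (hg : tt D.T x (4 * L ^ 2 * rho L ^ 2) ≤ fl) :
    (∫ t in (0 : ℝ)..rho L ^ 2, P t (fS3 D L a) x) ≤ 0 := by
  have r := rho_sq_pos_s3 L
  rw [intervalIntegral.integral_of_le r.le]
  refine setIntegral_nonpos measurableSet_Ioc fun t ht => ?_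
  obtain ⟨t0, t1⟩ := ht
  have b0 := h.st.bm_ε.abs.add h.bm_τ_s3
  have b1 := h.bm_β_s3.sub h.bm_ee_s3
  have a1 : P t (fun y => D.β y - D.ee y) x ≤ P t (fun y => max (D.β y - D.ee y) 0) x :=
    P_mono b1 (b1.max (BM.const 0)) t0 (fun y => le_max_left _ _) x
  have a2 := abs_P_le_tail (f := fun y => max (D.β y - D.ee y) 0) (A := L ^ 2) (x := x)
    (b0.const_mul 2) t0 (fun y => by
      have := h.abs_β_s3 y
      rw [abs_of_nonneg (le_max_right _ _)]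
      exact max_le (by linarith [le_abs_self (D.β y), h.ee_nonneg y])
        ((abs_nonneg _).trans this)) (fun y hy => by
      have : L * rho L < ‖y - x‖ := not_le.1 fun u =>
        hy (max_eq_right (sub_nonpos.2 (h.ball_s3 hL n2 n4 hx hg u)))
      have h2 : (L * rho L) ^ 2 ≤ ‖y - x‖ ^ 2 :=
        pow_le_pow_left₀ (mul_nonneg (by linarith) (Real.exp_pos _).le) this.le 2
      linarith [mul_pow L (rho L) 2, mul_le_mul_of_nonneg_left t1 (sq_nonneg L)])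
  rw [P_const_mul] at a2
  rw [P_sub h.bm_β_s3 h.bm_ee_s3 t0] at a1
  have a3 := h.harP x (2 * t) hx (by linarith) (by linarith)
  have a4 := P_le_of_le_mul (c := 3) (t := 2 * t + rho L ^ 2) (s := t + 3 * rho L ^ 2) h.bm_τ_s3
    h.τ_nonneg_s3 (by linarith) (by linarith) (by linarith) x
  rw [h.P_fS3 a t0]
  obtain ⟨X, hX⟩ : ∃ X, X = P (t + 3 * rho L ^ 2) D.τ x := ⟨_, rfl⟩
  have X0 : 0 ≤ X := hX ▸ P_nonneg (by positivity) h.τ_nonneg_s3 x
  rw [← hX] at a4 ⊢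
  have g0 : 0 < ng L := Real.exp_pos _
  have c1 : (1 : ℝ) ≤ 3 ^ hd E * max C₁ 1 := one_le_mul_of_one_le_of_one_le
    (Real.one_le_rpow (by norm_num) hd_nonneg) (le_max_right _ _)
  have a5 : C₁ * P (2 * t + rho L ^ 2) D.τ x ≤ max C₁ 1 * (3 ^ hd E * X) :=
    (mul_le_mul_of_nonneg_right (le_max_left _ _)
      (P_nonneg (by linarith) h.τ_nonneg_s3 x)).trans
      (mul_le_mul_of_nonneg_left a4 (by positivity))
  have a6 : P (2 * t) (fun y => |D.ε y| + D.τ y) x ≤ 3 ^ hd E * max C₁ 1 * (X + ng L) := by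
    linarith [mul_le_mul_of_nonneg_right c1 g0.le]
  have a7 := mul_le_mul_of_nonneg_left a6
    (show 0 ≤ 2 * (2 ^ hd E * Real.exp (-(L ^ 2 / 8))) by positivity)
  have a8 := mul_le_mul_of_nonneg_right n3 (add_nonneg X0 g0.le)
  have a9 := mul_le_mul_of_nonneg_right (inv_le_one_of_one_le₀ (one_le_pow₀ (n := 6) hL)) g0.le
  have a10 := mul_nonneg ha (P_nonneg t0.le h.τ_nonneg_s3 x)
  linarith [le_abs_self (P t (fun y => max (D.β y - D.ee y) 0) x)]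

theorem GS.final_s3 (h : GS D ff Γ Q C₁ L η κ) {a Cw T e : ℝ} (a0 : 0 ≤ a) (a1 : a ≤ 1)
    (hL : 22 ≤ L) (hC : 0 < Cw) (n6 : 8 ^ hd E + Cw * (2 ^ hd E * (2 * max C₁ 1 + 3)) ≤ L)
    (n7 : 20 * (Cw + 1) ≤ L) (T0 : 3 * rho L ^ 2 ≤ T) (T1 : 4 * T ≤ tm L) (he : 2 * L ^ 2 ≤ e)
    {y : E} (hy : ‖y‖ ≤ 5 / 2)
    (hw : P T (fS3 D L a) y ≤ Cw / L ^ 6 * P (4 * T) (fun w => |fS3 D L a w|) y +
      Cw * (8 * big L) * (Real.exp (-L ^ 6) + Real.exp (-e))) :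
    P T D.β y ≤ a * P T D.τ y + P T D.ee y +
      (L ^ 5)⁻¹ * P (8 * T) (fun w => D.τ w + D.ee w) y + ng' L := by
  have r := rho_sq_pos_s3 L
  have t0 : 0 < T := by linarith
  have L1 : 1 ≤ L := by linarith
  have bτ := h.bm_τ_s3
  have be := h.bm_ee_s3
  have b0 := h.st.bm_ε.abs.add bτ
  have bP := bτ.P (show 0 < 3 * rho L ^ 2 by linarith)
  rw [h.P_fS3 a t0] at hw
  rw [P_add bτ be (by linarith)]
  obtain ⟨X, hX⟩ : ∃ X, X = P (8 * T) D.τ y := ⟨_, rfl⟩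
  obtain ⟨Y, hY⟩ : ∃ Y, Y = P (8 * T) D.ee y := ⟨_, rfl⟩
  have X0 : 0 ≤ X := hX ▸ P_nonneg (by linarith) h.τ_nonneg_s3 y
  have Y0 : 0 ≤ Y := hY ▸ P_nonneg (by linarith) h.ee_nonneg y
  have k : ∀ t c, 0 < t → t ≤ 8 * T → 8 * T ≤ c * t → P t D.τ y ≤ c ^ hd E * X :=
    fun t c u1 u2 u3 => hX ▸ P_le_of_le_mul bτ h.τ_nonneg_s3 u1 u2 u3 y
  have k1 := k (T + 3 * rho L ^ 2) 8 (by linarith) (by linarith) (by linarith)
  have k2 := k (4 * T) 2 (by linarith) (by linarith) (by linarith)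
  have k3 := k (4 * T + 3 * rho L ^ 2) 2 (by linarith) (by linarith) (by linarith)
  have k4 := k (4 * T + rho L ^ 2) 2 (by linarith) (by linarith) (by linarith)
  have k5 : P (4 * T) D.ee y ≤ 2 ^ hd E * Y :=
    hY ▸ P_le_of_le_mul be h.ee_nonneg (by linarith) (by linarith) (by linarith) y
  have k6 := h.harP y (4 * T) hy (by linarith) T1
  have k7 : C₁ * P (4 * T + rho L ^ 2) D.τ y ≤ max C₁ 1 * (2 ^ hd E * X) :=
    (mul_le_mul_of_nonneg_right (le_max_left _ _)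
      (P_nonneg (by linarith) h.τ_nonneg_s3 y)).trans
      (mul_le_mul_of_nonneg_left k4 (by positivity))
  have t4 : 0 < 4 * T := by linarith
  have k8 := P_mono (h.bm_fS3 a).abs (((((b0.const_mul 2).add bτ).add be).add bP).add (BM.const _))
    t4 (h.abs_fS3 a0 a1 L1) y
  rw [P_add ((((b0.const_mul 2).add bτ).add be).add bP) (BM.const _) t4,
    P_add (((b0.const_mul 2).add bτ).add be) bP t4, P_add ((b0.const_mul 2).add bτ) be t4,
    P_add (b0.const_mul 2) bτ t4, P_const_mul, P_const t4, P_P bτ t4 (by linarith)] at k8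
  rw [← hX, ← hY]
  have g0 : 0 < ng L := Real.exp_pos _
  have m1 : (1 : ℝ) ≤ max C₁ 1 := le_max_right _ _
  have p2 : (0 : ℝ) < 2 ^ hd E := by positivity
  have k9 : P (4 * T) (fun w => |fS3 D L a w|) y ≤
      2 ^ hd E * (2 * max C₁ 1 + 3) * (X + Y) + 3 * ng L := by
    have u1 := mul_nonneg p2.le X0
    have u2 := mul_nonneg (mul_nonneg p2.le Y0) (show 0 ≤ 2 * max C₁ 1 + 2 by positivity)
    linarith
  have i6 : (L ^ 6)⁻¹ ≤ 1 := inv_le_one_of_one_le₀ (one_le_pow₀ L1)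
  have i0 : 0 < (L ^ 6)⁻¹ := by positivity
  have q1 := mul_le_mul_of_nonneg_left k9 (show 0 ≤ Cw / L ^ 6 by positivity)
  have q2 := mul_le_mul_of_nonneg_left
    (k1.trans (mul_le_mul_of_nonneg_left (le_add_of_nonneg_right Y0) (by positivity))) i0.le
  have q3 := mul_le_mul_of_nonneg_right (mul_le_mul_of_nonneg_left n6 i0.le) (add_nonneg X0 Y0)
  have q4 : (L ^ 6)⁻¹ * L = (L ^ 5)⁻¹ := by field_simp
  have e1 : Real.exp (-L ^ 6) ≤ ng L := Real.exp_le_exp.2 (by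
    have : 2 ≤ L ^ 4 := le_trans (by linarith) (le_self_pow₀ L1 (by norm_num))
    nlinarith [mul_le_mul_of_nonneg_right this (sq_nonneg L)])
  have e2 : Real.exp (-e) ≤ ng L := Real.exp_le_exp.2 (by linarith)
  have g1 : 1 ≤ big L := Real.one_le_exp (by linarith)
  have e3 : L * (big L * ng L) ≤ ng' L := by
    refine (mul_le_mul_of_nonneg_right (show L ≤ Real.exp L by linarith [Real.add_one_le_exp L])
      (by positivity)).trans ?_
    unfold big ng ng'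
    rw [← Real.exp_add, ← Real.exp_add]
    exact Real.exp_le_exp.2 (by nlinarith)
  have e4 := mul_le_mul_of_nonneg_left (add_le_add e1 e2) (show 0 ≤ Cw * (8 * big L) by positivity)
  have e5 := mul_le_mul_of_nonneg_right n7 (show 0 ≤ big L * ng L by positivity)
  have e6 := mul_le_mul_of_nonneg_right g1 g0.le
  have e7 := mul_le_mul_of_nonneg_left e6 hC.le
  have e8 := mul_le_mul_of_nonneg_right i6 (show 0 ≤ Cw * ng L by positivity)
  have e9 : 0 ≤ Cw * (big L * ng L) := by positivity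
  rw [q4] at q3
  rw [div_eq_mul_inv] at q1 hw
  linarith

end Pool.Agent.Lib.MP_8daebb_an.AS
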