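import Pool.Agent.Lib.MP_8daebb_an.AS.Bas
import Pool.Agent.Lib.MP_8daebb_an.HK.Flow

/-! Basic facts on the sheet functions in the global setting. -/

open MeasureTheory Metric Set Module
open scoped RealInnerProductSpace

namespace Pool.Agent.Lib.MP_8daebb_an.AS

open HK

variable {E : Type*} [NormedAddCommGroup E] [InnerProductSpace ℝ E] [FiniteDimensional ℝ E]
  [MeasurableSpace E] [BorelSpace E]

variable {ι : Type*} [Fintype ι] {D : Dat E ι} {ff Γ : E → ℝ} {Q : ℕ} {C₁ L η κ t s : ℝ}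

/-- The crude majorant `|ε| + τ + Γ`. -/
noncomputable def Dat.wf (D : Dat E ι) (Γ : E → ℝ) (y : E) : ℝ := |D.ε y| + D.τ y + Γ y

section pointwise
omit [FiniteDimensional ℝ E] [MeasurableSpace E] [BorelSpace E]

theorem Dat.qf_nonneg (D : Dat E ι) (Q : ℕ) (y v : E) : 0 ≤ D.qf Q y v :=
  Finset.sum_nonneg fun _ _ => Finset.sum_nonneg fun _ _ => sq_nonneg _

theorem Dat.en_nonneg (D : Dat E ι) (Q : ℕ) (y : E) : 0 ≤ D.en Q y :=
  Finset.sum_nonneg fun _ _ => Finset.sum_nonneg fun _ _ => sq_nonneg _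

theorem Dat.en_eq_sum {κ' : Type*} [Fintype κ'] (b : OrthonormalBasis κ' ℝ E) (D : Dat E ι) (Q : ℕ)
    (y : E) : D.en Q y = ∑ k, D.qf Q y (b k) := by
  unfold Dat.en Dat.qf
  simp only [norm_sq_eq_sum b]
  rw [Finset.sum_comm (s := Finset.univ (α := κ'))]
  exact Finset.sum_congr rfl fun i _ => Finset.sum_comm

theorem Dat.qf_le_en (D : Dat E ι) (Q : ℕ) (y e : E) : D.qf Q y e ≤ D.en Q y * ‖e‖ ^ 2 := by
  unfold Dat.en Dat.qf
  simp only [Finset.sum_mul]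
  refine Finset.sum_le_sum fun i _ => Finset.sum_le_sum fun j _ => ?_
  rw [← mul_pow, ← sq_abs]
  exact pow_le_pow_left₀ (abs_nonneg _) ((fderiv ℝ (D.u i j) y).le_opNorm e) 2

theorem Dat.norm_sq_le_en (D : Dat E ι) (i : ι) {j : ℕ} (hj : j < Q) (y : E) :
    ‖fderiv ℝ (D.u i j) y‖ ^ 2 ≤ D.en Q y :=
  (Finset.single_le_sum (f := fun j => ‖fderiv ℝ (D.u i j) y‖ ^ 2) (fun _ _ => sq_nonneg _)
    (Finset.mem_range.2 hj)).trans
    (Finset.single_le_sum (f := fun i => ∑ j ∈ Finset.range Q, ‖fderiv ℝ (D.u i j) y‖ ^ 2)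
      (fun _ _ => Finset.sum_nonneg fun _ _ => sq_nonneg _) (Finset.mem_univ i))

theorem Dat.Su_le (D : Dat E ι) (Q : ℕ) (e y : E) : D.Su Q e y ≤ D.en Q y / 2 := by
  unfold Dat.Su; linarith [D.qf_nonneg Q y e]

theorem Dat.abs_Su_le (D : Dat E ι) (Q : ℕ) {e : E} (he : ‖e‖ = 1) (y : E) :
    |D.Su Q e y| ≤ D.en Q y / 2 := by
  have h := D.qf_le_en Q y e
  rw [he, one_pow, mul_one] at h
  unfold Dat.Su
  rw [abs_le]
  constructor <;> linarith [D.qf_nonneg Q y e]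

end pointwise

namespace GS

variable (h : GS D ff Γ Q C₁ L η κ)
include h

theorem τ_nonneg (y : E) : 0 ≤ D.τ y := h.st.τ_nonneg y

theorem τ_le (y : E) : D.τ y ≤ big L := h.st.τ_le y

theorem bm_τ : BM D.τ := h.st.bm_τ

theorem bm_β : BM D.β := h.st.bm_β

theorem bm_ε : BM D.ε := h.st.bm_ε

theorem bm_Γ : BM Γ :=
  BM.of_continuous h.c_Γ fun y => by rw [abs_of_nonneg (h.Γ_nonneg y)]; exact h.Γ_le y

theorem bm_ee : BM D.ee :=
  BM.of_continuous h.c_ee fun y => by rw [abs_of_nonneg (h.ee_nonneg y)]; exact h.ee_le y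

theorem bm_τpar (W : Submodule ℝ E) : BM (τpar W D.T) :=
  BM.of_continuous (h.st.c_τpar W) fun y => by
    rw [abs_of_nonneg (h.st.τpar_nonneg W y)]; exact (h.st.τpar_le W y).trans (h.st.τ_le y)

theorem bm_See (e : E) : BM (See D.ε D.T e) := h.bm_ε.sub (h.st.bm_inner e e)

theorem P_τ_le (x : E) (ht : 0 < t) : P t D.τ x ≤ C₁ / (t + rho L ^ 2) := by
  rw [le_div_iff₀ (by positivity), mul_comm]
  refine le_trans (mul_le_mul_of_nonneg_left ?_ (by positivity)) (h.st.dens x t ht)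
  exact P_mono h.bm_τ (h.bm_ε.abs.add h.bm_τ) ht (fun y => le_add_of_nonneg_left (abs_nonneg _)) x

theorem C₁_nonneg : 0 ≤ C₁ := by
  have h1 := h.st.tt_le 0 one_pos
  have h2 : 0 ≤ P 1 (τf D.T) (0 : E) := P_nonneg zero_le_one h.st.τ_nonneg 0
  unfold tt at h1
  linarith

theorem c2b_U (i : ι) (j : ℕ) : C2b (D.U i j) := C2b.of_compact (h.c_U i j) (h.U_supp i j)

theorem cd_u (i : ι) (j : ℕ) : ContDiff ℝ 2 (D.u i j) := (h.c_U i (j + 1)).sub (h.c_U i j)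

theorem supp_u (i : ι) (j : ℕ) : HasCompactSupport (D.u i j) :=
  (h.U_supp i (j + 1)).sub (h.U_supp i j)

theorem c2b_u (i : ι) (j : ℕ) : C2b (D.u i j) := C2b.of_compact (h.cd_u i j) (h.supp_u i j)

theorem bm_U (i : ι) (j : ℕ) : BM (D.U i j) := (h.c2b_U i j).c1.bm

theorem bm_u (i : ι) (j : ℕ) : BM (D.u i j) := (h.c2b_u i j).c1.bm

theorem abs_u_le (i : ι) {j : ℕ} (hj : j < Q) (y : E) : |D.u i j y| ≤ 2 * C₁ := by
  have h1 := h.U_le i (j + 1) hj y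
  have h2 := h.U_le i j hj.le y
  exact (abs_sub _ _).trans (by linarith)

theorem sm_u (ht : 0 < t) (i : ι) (j : ℕ) : (D.sm t).u i j = P t (D.u i j) := by
  funext y
  exact (P_sub (h.bm_U i (j + 1)) (h.bm_U i j) ht y).symm

theorem sm_en (ht : 0 < t) (y : E) :
    (D.sm t).en Q y = ∑ i, ∑ j ∈ Finset.range Q, ‖fderiv ℝ (P t (D.u i j)) y‖ ^ 2 := by
  simp only [Dat.en, h.sm_u ht]

theorem sm_qf (ht : 0 < t) (y e : E) :
    (D.sm t).qf Q y e = ∑ i, ∑ j ∈ Finset.range Q, fderiv ℝ (P t (D.u i j)) y e ^ 2 := by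
  simp only [Dat.qf, h.sm_u ht]

theorem integrable_norm_fderiv (i : ι) (j : ℕ) : Integrable fun y => ‖fderiv ℝ (D.u i j) y‖ :=
  (h.c2b_u i j).c1.cont.norm.integrable_of_hasCompactSupport ((h.supp_u i j).fderiv ℝ).norm

theorem li_norm_fderiv (i : ι) (j : ℕ) : LI fun y => ‖fderiv ℝ (D.u i j) y‖ :=
  ⟨(h.c2b_u i j).c1.bm_norm, h.integrable_norm_fderiv i j⟩

theorem li_en : LI (D.en Q) :=
  LI.sum _ fun i _ => LI.sum _ fun j _ => (h.li_norm_fderiv i j).sq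

theorem bm_en : BM (D.en Q) := h.li_en.bm

theorem bm_qf (e : E) : BM fun y => D.qf Q y e :=
  BM.sum _ fun i _ => BM.sum _ fun j _ => ((h.c2b_u i j).c1.bm_apply e).sq

theorem li_sm_en (ht : 0 < t) : LI ((D.sm t).en Q) := by
  rw [funext (h.sm_en ht)]
  exact LI.sum _ fun i _ => LI.sum _ fun j _ =>
    ((LI.of_compact (h.cd_u i j).continuous (h.supp_u i j)).norm_fderiv_P ht).sq

theorem bm_sm_en (ht : 0 < t) : BM ((D.sm t).en Q) := (h.li_sm_en ht).bm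

theorem bm_sm_qf (ht : 0 < t) (e : E) : BM fun y => (D.sm t).qf Q y e := by
  simp only [h.sm_qf ht]
  exact BM.sum _ fun i _ => BM.sum _ fun j _ => ((h.bm_u i j).fderiv_P ht e).sq

theorem bm_sm_Su (ht : 0 < t) (e : E) : BM ((D.sm t).Su Q e) :=
  ((h.bm_sm_en ht).div_const 2).sub (h.bm_sm_qf ht e)

theorem en_le (y : E) : D.en Q y ≤ D.τ y + finrank ℝ E * Γ y := by
  set b := stdOrthonormalBasis ℝ E
  rw [D.en_eq_sum b, Dat.τ, tr_eq_sum b]
  calc _ ≤ ∑ k, (⟪D.T y (b k), b k⟫ + Γ y) := Finset.sum_le_sum fun k _ => by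
        simpa [b.orthonormal.1 k] using h.s4 y (b k)
    _ = _ := by simp [Finset.sum_add_distrib]

theorem sm_qf_le (ht : 0 < t) (x e : E) :
    (D.sm t).qf Q x e ≤ P t (fun y => D.qf Q y e) x := by
  rw [h.sm_qf ht]
  unfold Dat.qf
  rw [P_sum _ (fun i _ => BM.sum _ fun j _ => ((h.c2b_u i j).c1.bm_apply e).sq) ht]
  refine Finset.sum_le_sum fun i _ => ?_
  rw [P_sum _ (fun j _ => ((h.c2b_u i j).c1.bm_apply e).sq) ht]
  refine Finset.sum_le_sum fun j _ => ?_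
  rw [fderiv_P_comm (h.c2b_u i j).c1 ht]
  exact P_sq_le ((h.c2b_u i j).c1.bm_apply e) ht x

theorem sm_qf_le' (ht : 0 < t) (x e : E) :
    (D.sm t).qf Q x e ≤ P t (fun y => ⟪D.T y e, e⟫) x + P t Γ x * ‖e‖ ^ 2 := by
  rw [← P_mul_const, ← P_add (h.st.bm_inner e e) (h.bm_Γ.mul_const _) ht]
  exact (h.sm_qf_le ht x e).trans
    (P_mono (h.bm_qf e) ((h.st.bm_inner e e).add (h.bm_Γ.mul_const _)) ht (fun y => h.s4 y e) x)

theorem sm_en_le (ht : 0 < t) (x : E) : (D.sm t).en Q x ≤ P t (D.en Q) x := by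
  set b := stdOrthonormalBasis ℝ E
  rw [(D.sm t).en_eq_sum b, funext (D.en_eq_sum b Q), P_sum _ (fun k _ => h.bm_qf _) ht]
  exact Finset.sum_le_sum fun k _ => h.sm_qf_le ht x _

theorem P_en_le (ht : 0 < t) (x : E) : P t (D.en Q) x ≤ P t D.τ x + finrank ℝ E * P t Γ x := by
  rw [← P_const_mul, ← P_add h.bm_τ (h.bm_Γ.const_mul _) ht]
  exact P_mono h.bm_en (h.bm_τ.add (h.bm_Γ.const_mul _)) ht h.en_le x

theorem sm_en_le' (ht : 0 < t) (x : E) :
    (D.sm t).en Q x ≤ P t D.τ x + finrank ℝ E * P t Γ x :=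
  (h.sm_en_le ht x).trans (h.P_en_le ht x)

theorem sm_en_le_const (ht : 0 < t) (x : E) :
    (D.sm t).en Q x ≤ Fintype.card ι * Q * (36 * 4 ^ hd E * C₁ ^ 2) / t := by
  rw [h.sm_en ht]
  have h5 : (4 : ℝ) ^ hd E = 2 ^ hd E * 2 ^ hd E := by
    rw [← Real.mul_rpow (by norm_num) (by norm_num)]; norm_num
  calc _ ≤ ∑ _i : ι, ∑ _j ∈ Finset.range Q, 36 * 4 ^ hd E * C₁ ^ 2 / t := by
        refine Finset.sum_le_sum fun i _ => Finset.sum_le_sum fun j hj => ?_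
        have h1 := norm_fderiv_P_le_const (h.bm_u i j) (h.abs_u_le i (Finset.mem_range.1 hj)) ht x
        refine (pow_le_pow_left₀ (norm_nonneg _) h1 2).trans (le_of_eq ?_)
        rw [mul_pow, div_pow, Real.sq_sqrt ht.le, h5]; ring
    _ = _ := by simp; ring

/-- the tangential part of the smoothed energy -/
theorem sm_par_le (W : Submodule ℝ E) (ht : 0 < t) (x : E) :
    ∑ i, ∑ j ∈ Finset.range Q, ‖(fderiv ℝ (P t (D.u i j)) x).comp W.starProjection‖ ^ 2 ≤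
      P t (τpar W D.T) x + finrank ℝ E * P t Γ x := by
  set b := stdOrthonormalBasis ℝ E
  have hΓ : 0 ≤ P t Γ x := P_nonneg ht.le h.Γ_nonneg x
  have e1 : τpar W D.T = fun y =>
      ∑ k, ⟪D.T y (W.starProjection (b k)), W.starProjection (b k)⟫ := by
    funext y
    rw [τpar, tr_conj_bas, tr_eq_sum b]
    refine Finset.sum_congr rfl fun k _ => ?_
    simp only [ContinuousLinearMap.comp_apply]
    rw [W.inner_starProjection_left_eq_right]
  calc _ = ∑ k, (D.sm t).qf Q x (W.starProjection (b k)) := by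
        simp only [norm_sq_eq_sum b, h.sm_qf ht, ContinuousLinearMap.comp_apply]
        rw [Finset.sum_comm (s := Finset.univ (α := Fin _))]
        exact Finset.sum_congr rfl fun i _ => Finset.sum_comm
    _ ≤ ∑ k, (P t (fun y => ⟪D.T y (W.starProjection (b k)), W.starProjection (b k)⟫) x +
        P t Γ x) := by
        refine Finset.sum_le_sum fun k _ => (h.sm_qf_le' ht x _).trans ?_
        have h1 : ‖W.starProjection (b k)‖ ≤ 1 :=
          (W.norm_starProjection_apply_le _).trans (b.orthonormal.1 k).le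
        have h2 : ‖W.starProjection (b k)‖ ^ 2 ≤ 1 := pow_le_one₀ (norm_nonneg _) h1
        nlinarith
    _ = _ := by
        rw [e1, P_sum _ (fun k _ => h.st.bm_inner _ _) ht]
        simp [Finset.sum_add_distrib]

theorem lap_P_U (ht : 0 < t) (i : ι) {j : ℕ} (hj : j ≤ Q) (x : E) :
    0 ≤ lap (P t (D.U i j)) x + P t Γ x := by
  rw [lap_P_comm (h.c2b_U i j) ht, ← P_add (h.c2b_U i j).bm_lap h.bm_Γ ht]
  exact P_nonneg ht.le (h.s5 i j hj) x

theorem wf_nonneg (y : E) : 0 ≤ D.wf Γ y :=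
  add_nonneg (add_nonneg (abs_nonneg _) (h.τ_nonneg y)) (h.Γ_nonneg y)

theorem wf_le (y : E) : D.wf Γ y ≤ 3 * big L := by
  unfold Dat.wf; linarith [h.st.ε_le y, h.τ_le y, h.Γ_le y]

theorem bm_wf : BM (D.wf Γ) := (h.bm_ε.abs.add h.bm_τ).add h.bm_Γ

theorem en_le_wf (hm : 1 ≤ finrank ℝ E) (y : E) : D.en Q y ≤ finrank ℝ E * D.wf Γ y := by
  have h1 : (1 : ℝ) ≤ finrank ℝ E := by exact_mod_cast hm
  have h2 := h.en_le y
  unfold Dat.wf
  nlinarith [h.τ_nonneg y, h.Γ_nonneg y, abs_nonneg (D.ε y)]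

theorem P_wf_le (hκ : κ ≤ 1) (hL : 1 ≤ L) {x : E} (hx : ‖x‖ ≤ 5 / 2) (hs : 0 < s)
    (hs' : s ≤ tm L) : P s (D.wf Γ) x ≤ (C₁ + 1) * P (s + rho L ^ 2) D.τ x + 2 * kz L := by
  have h1 := h.harP x s hx hs hs'
  have h2 := h.ΓP x s hx hs hs'
  have h3 : 0 ≤ P (s + rho L ^ 2) D.τ x := P_nonneg (by positivity) h.τ_nonneg x
  have h4 : ng L ≤ kz L := Real.exp_le_exp.2 (by nlinarith)
  have h5 := P_add (h.bm_ε.abs.add h.bm_τ) h.bm_Γ hs x
  change P s (D.wf Γ) x = _ at h5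
  nlinarith

theorem P_wf_le' (hκ : κ ≤ 1) (hL : 1 ≤ L) {x : E} (hx : ‖x‖ ≤ 5 / 2) (hs : 0 < s)
    (hs' : s ≤ tm L) : P s (D.wf Γ) x ≤ ((C₁ + 1) * C₁ + 4) / (s + rho L ^ 2) := by
  have h1 := h.P_wf_le hκ hL hx hs hs'
  have h2 := h.P_τ_le x (show 0 < s + rho L ^ 2 by positivity)
  have h0 := h.C₁_nonneg
  have hρ := h.st.ρ_pos
  have h3 : C₁ / (s + rho L ^ 2 + rho L ^ 2) ≤ C₁ / (s + rho L ^ 2) := by
    gcongr; linarith [sq_nonneg (rho L)]
  have h4 : kz L ≤ 1 := Real.exp_le_one_iff.2 (by linarith)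
  have h5 : tm L ≤ 1 := Real.exp_le_one_iff.2 (by linarith)
  have h6 : rho L ≤ 1 := Real.exp_le_one_iff.2 (by linarith)
  have h7 : s + rho L ^ 2 ≤ 2 := by nlinarith
  have h8 : 2 * kz L ≤ 4 / (s + rho L ^ 2) := by
    rw [le_div_iff₀ (by positivity)]
    nlinarith [show 0 < kz L from Real.exp_pos _]
  calc _ ≤ (C₁ + 1) * (C₁ / (s + rho L ^ 2)) + 4 / (s + rho L ^ 2) := by
        nlinarith [h2.trans h3]
    _ = _ := by ring

theorem en_far {y : E} (hy : 4 < ‖y‖) : D.en Q y = 0 := by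
  refine Finset.sum_eq_zero fun i _ => Finset.sum_eq_zero fun j _ => ?_
  have h1 : D.u i j =ᶠ[nhds y] fun _ => 0 := by
    filter_upwards [(isOpen_lt continuous_const continuous_norm).mem_nhds hy] with w hw
    simp [Dat.u, h.U_far i _ w (le_of_lt hw)]
  simp [h1.fderiv_eq]

theorem integral_en_le : ∫ y, D.en Q y ≤ (1 + finrank ℝ E) * big L * (5 ^ finrank ℝ E * om E) := by
  rw [← real_ball (0 : E) (show (0 : ℝ) < 5 by norm_num),
    ← setIntegral_eq_integral_of_forall_compl_eq_zero (s := ball (0 : E) 5) fun y hy => h.en_far (by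
      rw [mem_ball_zero_iff, not_lt] at hy; linarith)]
  refine (Real.le_norm_self _).trans (norm_setIntegral_le_of_norm_le_const measure_ball_lt_top
    fun y _ => ?_)
  rw [Real.norm_eq_abs, abs_of_nonneg (D.en_nonneg Q y)]
  have h1 := h.en_le y
  have h2 := mul_le_mul_of_nonneg_left (h.Γ_le y) (Nat.cast_nonneg (finrank ℝ E))
  linarith [h.τ_le y]

end GS

end Pool.Agent.Lib.MP_8daebb_an.AS
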