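import Pool.Agent.Lib.MP_8daebb_an.HK.Lap

/-! The energy of a function where it is small, and the negative parts along the heat flow. -/

open MeasureTheory Metric Set Real Filter
open scoped RealInnerProductSpace

namespace Pool.Agent.Lib.MP_8daebb_an.AS

open HK

variable {V : Type*} [NormedAddCommGroup V] [InnerProductSpace ℝ V] [FiniteDimensional ℝ V]
  [MeasurableSpace V] [BorelSpace V]

/-- The energy density of `v`, damped where `v` is large compared with `h`. -/
noncomputable def eet (h : ℝ) (v : V → ℝ) (y : V) : ℝ := ‖fderiv ℝ v y‖ ^ 2 / (1 + (v y / h) ^ 2)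

omit [FiniteDimensional ℝ V] [MeasurableSpace V] [BorelSpace V] in
theorem eet_nonneg (h : ℝ) (v : V → ℝ) (y : V) : 0 ≤ eet h v y := by unfold eet; positivity

omit [FiniteDimensional ℝ V] [MeasurableSpace V] [BorelSpace V] in
theorem eet_le (h : ℝ) (v : V → ℝ) (y : V) : eet h v y ≤ ‖fderiv ℝ v y‖ ^ 2 :=
  div_le_self (by positivity) (by nlinarith [sq_nonneg (v y / h)])

omit [FiniteDimensional ℝ V] [MeasurableSpace V] [BorelSpace V] in
theorem sq_le_two_eet {h : ℝ} (hh : 0 < h) {v : V → ℝ} {y : V} (hy : |v y| ≤ h) :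
    ‖fderiv ℝ v y‖ ^ 2 ≤ 2 * eet h v y := by
  have h1 : (v y / h) ^ 2 ≤ 1 := by
    rw [← sq_abs, abs_div, abs_of_pos hh]
    exact pow_le_one₀ (by positivity) ((div_le_one hh).2 hy)
  rw [eet, mul_div_assoc', le_div_iff₀ (by positivity)]
  nlinarith [sq_nonneg ‖fderiv ℝ v y‖]

omit [FiniteDimensional ℝ V] in
theorem bm_eet (h : ℝ) {v : V → ℝ} (hv : C1b v) : BM (eet h v) := by
  refine (hv.bm_norm.pow 2).of_abs_le ?_ fun y => ?_
  · exact (hv.bm_norm.meas.pow_const 2).div
      (measurable_const.add ((hv.bm.meas.div_const h).pow_const 2))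
  · rw [abs_of_nonneg (eet_nonneg h v y)]; exact eet_le h v y

/-- Testing the Laplacian with a bounded function of `v`. -/
theorem P_eet_le {h s : ℝ} (hh : 0 < h) (hs : 0 < s) {v : V → ℝ} (hv : C2b v) (x : V) :
    P s (eet h v) x ≤ 2 * h * (P s (fun y => |lap v y|) x +
      3 * 2 ^ hd V / √s * P (2 * s) (fun y => ‖fderiv ℝ v y‖) x) := by
  have hd1 : ∀ y, HasFDerivAt (fun y => h * arctan (v y / h))
      ((1 / (1 + (v y / h) ^ 2)) • fderiv ℝ v y) y := fun y => by
    have a1 : HasFDerivAt (fun y => v y / h) (h⁻¹ • fderiv ℝ v y) y := by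
      simpa [div_eq_mul_inv] using
        ((hv.c1.cd.differentiable one_ne_zero y).hasFDerivAt).mul_const h⁻¹
    refine (a1.arctan.const_mul h).congr_fderiv ?_
    ext e
    simp only [smul_apply, smul_eq_mul]
    field_simp
  have hb : ∀ y, |h * arctan (v y / h)| ≤ 2 * h := fun y => by
    rw [abs_mul, abs_of_pos hh, mul_comm]
    have h1 := arctan_lt_pi_div_two (v y / h)
    have h2 := neg_pi_div_two_lt_arctan (v y / h)
    have h3 := pi_lt_four
    refine mul_le_mul_of_nonneg_right (abs_le.2 ⟨by linarith, by linarith⟩) hh.le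
  have hc : ContDiff ℝ 1 fun y => h * arctan (v y / h) :=
    contDiff_const.mul ((hv.c1.cd.div_const h).arctan)
  have hφ : C1b fun y => h * arctan (v y / h) := by
    refine ⟨BM.of_continuous hc.continuous hb, hc, ?_⟩
    obtain ⟨C, hC⟩ := hv.c1.db
    refine ⟨C, fun y => ?_⟩
    rw [(hd1 y).fderiv, norm_smul, Real.norm_eq_abs, abs_of_pos (by positivity)]
    refine (mul_le_of_le_one_left (norm_nonneg _) ?_).trans (hC y)
    rw [div_le_one (by positivity)]
    nlinarith [sq_nonneg (v y / h)]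
  have key := abs_P_green_le hφ hv hs x
  have e : (fun y => ⟪gradient (fun y => h * arctan (v y / h)) y, gradient v y⟫) = eet h v := by
    ext y
    rw [gradient, (hd1 y).fderiv, map_smul, real_inner_smul_left, ← gradient,
      real_inner_self_eq_norm_sq, norm_gradient, eet]
    ring
  rw [e] at key
  have h1 : |P s (fun y => h * arctan (v y / h) * lap v y) x| ≤
      2 * h * P s (fun y => |lap v y|) x := by
    rw [← P_const_mul]
    refine abs_P_le_of_le (hv.bm_lap.abs.const_mul _) hs (fun y => ?_) x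
    rw [abs_mul]
    exact mul_le_mul_of_nonneg_right (hb y) (abs_nonneg _)
  have h2 : P (2 * s) (fun y => |h * arctan (v y / h)| * ‖fderiv ℝ v y‖) x ≤
      2 * h * P (2 * s) (fun y => ‖fderiv ℝ v y‖) x := by
    rw [← P_const_mul]
    exact P_mono (hφ.bm.abs.mul hv.c1.bm_norm) (hv.c1.bm_norm.const_mul _) (by positivity)
      (fun y => mul_le_mul_of_nonneg_right (hb y) (norm_nonneg _)) x
  have h3 := mul_le_mul_of_nonneg_left h2 (show 0 ≤ 3 * 2 ^ hd V / √s by positivity)
  have h4 := (abs_le.1 key).2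
  have h5 := (abs_le.1 h1).1
  linarith

end Pool.Agent.Lib.MP_8daebb_an.AS
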