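import Pool.Agent.Lib.MP_8daebb_an.AS.S4a
import Pool.Agent.Lib.MP_8daebb_an.AS.WEet

/-! The damped energy of the oscillation, and the bands. -/

open MeasureTheory Metric Set Module
open scoped RealInnerProductSpace

namespace Pool.Agent.Lib.MP_8daebb_an.AS

open HK

variable {E : Type*} [NormedAddCommGroup E] [InnerProductSpace ℝ E] [FiniteDimensional ℝ E]
  [MeasurableSpace E] [BorelSpace E]

variable {ι : Type*} [Fintype ι] {D : Dat E ι} {ff Γ : E → ℝ} {Q : ℕ} {C₁ L η κ t t' s : ℝ}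

/-- Damped energy of `u - P t u`. -/
noncomputable def Dat.EET (D : Dat E ι) (Q : ℕ) (dh t : ℝ) (y : E) : ℝ :=
  ∑ i, ∑ j ∈ Finset.range Q, eet dh (fun w => D.u i j w - P t (D.u i j) w) y

/-- Energy between two levels. -/
noncomputable def Dat.band (D : Dat E ι) (Q : ℕ) (t t' : ℝ) (y : E) : ℝ :=
  ∑ i, ∑ j ∈ Finset.range Q, ‖fderiv ℝ (P t (D.u i j)) y - fderiv ℝ (P t' (D.u i j)) y‖ ^ 2

theorem Dat.EET_nonneg (D : Dat E ι) (Q : ℕ) (dh t : ℝ) (y : E) : 0 ≤ D.EET Q dh t y :=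
  Finset.sum_nonneg fun _ _ => Finset.sum_nonneg fun _ _ => eet_nonneg _ _ _

theorem Dat.band_nonneg (D : Dat E ι) (Q : ℕ) (t t' : ℝ) (y : E) : 0 ≤ D.band Q t t' y :=
  Finset.sum_nonneg fun _ _ => Finset.sum_nonneg fun _ _ => sq_nonneg _

omit [FiniteDimensional ℝ E] [BorelSpace E] in
theorem c2b_sub_s4b {f g : E → ℝ} (hf : C2b f) (hg : C2b g) : C2b (fun y => f y - g y) := by
  refine ⟨hf.c1.sub hg.c1, hf.cd.sub hg.cd, fun e => ?_⟩
  simp only [fderiv_fun_sub (hf.cd.differentiable two_ne_zero _)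
    (hg.cd.differentiable two_ne_zero _), sub_apply]
  exact (hf.d1 e).sub (hg.d1 e)

theorem norm_fderiv_P_le_P {f : E → ℝ} (hf : C1b f) (ht : 0 < t) (x : E) :
    ‖fderiv ℝ (P t f) x‖ ≤ P t (fun y => ‖fderiv ℝ f y‖) x := by
  refine ContinuousLinearMap.opNorm_le_bound _ (P_nonneg ht.le (fun _ => norm_nonneg _) x)
    fun e => ?_
  rw [fderiv_P_comm hf ht, ← P_mul_const]
  exact abs_P_le_of_le (hf.bm_norm.mul_const _) ht (fun y => (fderiv ℝ f y).le_opNorm e) x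

theorem norm_sq_le_s4b {F : Type*} [NormedAddCommGroup F] (a b : F) :
    ‖a‖ ^ 2 ≤ 2 * ‖a - b‖ ^ 2 + 2 * ‖b‖ ^ 2 := by
  have h : ‖a‖ ≤ ‖a - b‖ + ‖b‖ := by simpa using norm_add_le (a - b) b
  nlinarith [norm_nonneg a, norm_nonneg (a - b), norm_nonneg b, sq_nonneg (‖a - b‖ - ‖b‖)]

namespace GS

variable (h : GS D ff Γ Q C₁ L η κ)
include h

theorem c2b_v (ht : 0 < t) (i : ι) (j : ℕ) : C2b (fun w => D.u i j w - P t (D.u i j) w) :=
  c2b_sub_s4b (h.c2b_u i j) ((h.bm_u i j).c2b_P ht)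

theorem fderiv_v (ht : 0 < t) (i : ι) (j : ℕ) (y : E) :
    fderiv ℝ (fun w => D.u i j w - P t (D.u i j) w) y =
      fderiv ℝ (D.u i j) y - fderiv ℝ (P t (D.u i j)) y :=
  fderiv_fun_sub ((h.cd_u i j).differentiable two_ne_zero y) (differentiable_P (h.bm_u i j) ht y)

theorem bm_EET (dh : ℝ) (ht : 0 < t) : BM (D.EET Q dh t) :=
  BM.sum _ fun i _ => BM.sum _ fun j _ => bm_eet dh (h.c2b_v ht i j).c1

theorem EET_le (dh : ℝ) (ht : 0 < t) (y : E) :
    D.EET Q dh t y ≤ 2 * D.en Q y + 2 * (D.sm t).en Q y := by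
  rw [h.sm_en ht]
  simp only [Dat.EET, Dat.en, Finset.mul_sum, ← Finset.sum_add_distrib]
  refine Finset.sum_le_sum fun i _ => Finset.sum_le_sum fun j _ => (eet_le _ _ _).trans ?_
  rw [h.fderiv_v ht]
  simpa using norm_sq_le_s4b (fderiv ℝ (D.u i j) y - fderiv ℝ (P t (D.u i j)) y)
    (-fderiv ℝ (P t (D.u i j)) y)

theorem band_le (ht : 0 < t) (ht' : 0 < t') (y : E) :
    D.band Q t t' y ≤ 2 * (D.sm t).en Q y + 2 * (D.sm t').en Q y := by
  rw [h.sm_en ht, h.sm_en ht']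
  simp only [Dat.band, Finset.mul_sum, ← Finset.sum_add_distrib]
  refine Finset.sum_le_sum fun i _ => Finset.sum_le_sum fun j _ => ?_
  simpa using norm_sq_le_s4b (fderiv ℝ (P t (D.u i j)) y - fderiv ℝ (P t' (D.u i j)) y)
    (-fderiv ℝ (P t' (D.u i j)) y)

theorem sm_en_le_band (ht : 0 < t) (ht' : 0 < t') (y : E) :
    (D.sm t).en Q y ≤ 2 * D.band Q t t' y + 2 * (D.sm t').en Q y := by
  rw [h.sm_en ht, h.sm_en ht']
  simp only [Dat.band, Finset.mul_sum, ← Finset.sum_add_distrib]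
  exact Finset.sum_le_sum fun i _ => Finset.sum_le_sum fun j _ => norm_sq_le_s4b _ _

theorem continuous_band (ht : 0 < t) (ht' : 0 < t') : Continuous (D.band Q t t') :=
  continuous_finsetSum _ fun i _ => continuous_finsetSum _ fun j _ =>
    ((continuous_fderiv_P (h.bm_u i j) ht).sub (continuous_fderiv_P (h.bm_u i j) ht')).norm.pow 2

theorem li_band (ht : 0 < t) (ht' : 0 < t') : LI (D.band Q t t') :=
  LI.of_le (h.continuous_band ht ht').measurable
    (((h.li_sm_en ht).const_mul 2).add ((h.li_sm_en ht').const_mul 2)) fun y => by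
      rw [abs_of_nonneg (D.band_nonneg Q t t' y)]; exact h.band_le ht ht' y

theorem bm_band (ht : 0 < t) (ht' : 0 < t') : BM (D.band Q t t') := (h.li_band ht ht').bm

theorem P_Γ_le (hκ : κ ≤ 1) (hL : 1 ≤ L) {x : E} (hx : ‖x‖ ≤ 5 / 2) (hs : 0 < s)
    (hs' : s ≤ tm L) : P s Γ x ≤ ((C₁ + 1) * C₁ + 4) / s := by
  have h0 := h.C₁_nonneg
  refine (P_mono h.bm_Γ h.bm_wf hs (fun y => le_add_of_nonneg_left
    (add_nonneg (abs_nonneg _) (h.τ_nonneg y))) x).trans ((h.P_wf_le' hκ hL hx hs hs').trans ?_)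
  gcongr
  linarith [sq_nonneg (rho L)]

theorem P_norm_fderiv_le (hm : 1 ≤ finrank ℝ E) (hκ : κ ≤ 1) (hL : 1 ≤ L) (i : ι) {j : ℕ}
    (hj : j < Q) {x : E} (hx : ‖x‖ ≤ 5 / 2) (hs : 0 < s) (hs' : s ≤ tm L) :
    P s (fun y => ‖fderiv ℝ (D.u i j) y‖) x ≤ √(finrank ℝ E * ((C₁ + 1) * C₁ + 4)) / √s := by
  have h0 := h.C₁_nonneg
  have hb := (h.c2b_u i j).c1.bm_norm
  rw [← Real.sqrt_div (by positivity)]
  refine (P_le_sqrt_P_sq hb hs x).trans (Real.sqrt_le_sqrt ?_)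
  calc _ ≤ P s (fun y => finrank ℝ E * D.wf Γ y) x :=
        P_mono hb.sq (h.bm_wf.const_mul _) hs
          (fun y => (D.norm_sq_le_en i hj y).trans (h.en_le_wf hm y)) x
    _ ≤ finrank ℝ E * (((C₁ + 1) * C₁ + 4) / (s + rho L ^ 2)) := by
        rw [P_const_mul]; gcongr; exact h.P_wf_le' hκ hL hx hs hs'
    _ ≤ finrank ℝ E * (((C₁ + 1) * C₁ + 4) / s) := by gcongr; linarith [sq_nonneg (rho L)]
    _ = _ := by ring

theorem P_nu_le (hκ : κ ≤ 1) (hL : 1 ≤ L) (i : ι) {j : ℕ} (hj : j ≤ Q) {x : E}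
    (hx : ‖x‖ ≤ 5 / 2) (hs : 0 < s) (hs' : s ≤ tm L) :
    P s (fun y => lap (D.U i j) y + Γ y) x ≤
      ((2 + hd E) * 2 ^ hd E * C₁ + ((C₁ + 1) * C₁ + 4)) / s := by
  rw [P_add (h.c2b_U i j).bm_lap h.bm_Γ hs, ← lap_P_comm (h.c2b_U i j) hs, add_div]
  refine add_le_add ?_ (h.P_Γ_le hκ hL hx hs hs')
  have h1 := abs_lap_P_le (h.bm_U i j) (BM.const C₁) (h.U_le i j hj) hs x
  rw [P_const (by positivity)] at h1
  exact (le_abs_self _).trans (h1.trans_eq (by ring))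

theorem abs_lap_u_le (i : ι) {j : ℕ} (hj : j < Q) (y : E) :
    |lap (D.u i j) y| ≤ (lap (D.U i (j + 1)) y + Γ y) + (lap (D.U i j) y + Γ y) := by
  have h1 := lap_sub (h.c_U i (j + 1)) (h.c_U i j) y
  change lap (D.u i j) y = _ at h1
  rw [h1, abs_le]
  constructor <;> linarith [h.s5 i (j + 1) hj y, h.s5 i j hj.le y]

end GS

theorem P_EET_le (hm : 1 ≤ finrank ℝ E) (Q : ℕ) (C₁ : ℝ) : ∃ C : ℝ, 0 < C ∧
    ∀ (L : ℝ) (D : Dat E ι) (ff Γ : E → ℝ) (η κ : ℝ), GS D ff Γ Q C₁ L η κ → 1 ≤ L → κ ≤ 1 →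
    ∀ (dh t s : ℝ) (x : E), 0 < dh → 0 < t → 0 < s → 2 * s + t ≤ tm L → ‖x‖ ≤ 5 / 2 →
    P s (D.EET Q dh t) x ≤ C * dh / s := by
  set a := (2 + hd E) * 2 ^ hd E * C₁ + ((C₁ + 1) * C₁ + 4) with ha
  set b := √(finrank ℝ E * ((C₁ + 1) * C₁ + 4)) with hb
  refine ⟨Fintype.card ι * Q * |8 * a + 12 * 2 ^ hd E * b| + 1, by positivity, ?_⟩
  intro L D ff Γ η κ h hL hκ dh t s x hdh ht hs hst hx
  have h0 := h.C₁_nonneg
  have ha0 : 0 ≤ a := by have := hd_nonneg (V := E); positivity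
  have hb0 : 0 ≤ b := Real.sqrt_nonneg _
  have hsq : 0 < √s := Real.sqrt_pos.2 hs
  have key : ∀ i, ∀ j ∈ Finset.range Q, P s (eet dh fun w => D.u i j w - P t (D.u i j) w) x ≤
      (8 * a + 12 * 2 ^ hd E * b) * dh / s := fun i j hj => by
    have hj' := Finset.mem_range.1 hj
    set g : E → ℝ := fun y => (lap (D.U i (j + 1)) y + Γ y) + (lap (D.U i j) y + Γ y) with hg
    have b1 := (h.c2b_U i (j + 1)).bm_lap.add h.bm_Γ
    have b2 := (h.c2b_U i j).bm_lap.add h.bm_Γ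
    have bg : BM g := b1.add b2
    have pg : ∀ s', s ≤ s' → s' ≤ tm L → P s' g x ≤ 2 * a / s := fun s' h1 h2 => by
      have h3 : 0 < s' := hs.trans_le h1
      rw [hg, P_add b1 b2 h3]
      have h4 : a / s' ≤ a / s := by gcongr
      have h5 := h.P_nu_le hκ hL i (j := j + 1) hj' hx h3 h2
      have h6 := h.P_nu_le hκ hL i hj'.le hx h3 h2
      rw [mul_div_assoc]; linarith
    have l1 : P s (fun y => |lap (fun w => D.u i j w - P t (D.u i j) w) y|) x ≤ 4 * a / s := by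
      calc _ ≤ P s (fun y => g y + P t g y) x := by
            refine P_mono (h.c2b_v ht i j).bm_lap.abs (bg.add (bg.P ht)) hs (fun y => ?_) x
            rw [lap_sub (h.cd_u i j) (contDiff_P_two (h.bm_u i j) ht), lap_P_comm (h.c2b_u i j) ht]
            exact (abs_sub _ _).trans (add_le_add (h.abs_lap_u_le i hj' y)
              (abs_P_le_of_le bg ht (h.abs_lap_u_le i hj') y))
        _ ≤ 2 * a / s + 2 * a / s := by
            rw [P_add bg (bg.P ht) hs, P_P bg hs ht]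
            exact add_le_add (pg s le_rfl (by linarith)) (pg (s + t) (by linarith) (by linarith))
        _ = _ := by ring
    have bn := (h.c2b_u i j).c1.bm_norm
    have pn : ∀ s', s ≤ s' → s' ≤ tm L →
        P s' (fun y => ‖fderiv ℝ (D.u i j) y‖) x ≤ b / √s := fun s' h1 h2 =>
      (h.P_norm_fderiv_le hm hκ hL i hj' hx (hs.trans_le h1) h2).trans (by gcongr)
    have l2 : P (2 * s) (fun y => ‖fderiv ℝ (fun w => D.u i j w - P t (D.u i j) w) y‖) x ≤
        2 * (b / √s) := by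
      have h2s : 0 < 2 * s := by positivity
      calc _ ≤ P (2 * s) (fun y => ‖fderiv ℝ (D.u i j) y‖ +
            P t (fun w => ‖fderiv ℝ (D.u i j) w‖) y) x := by
            refine P_mono (h.c2b_v ht i j).c1.bm_norm (bn.add (bn.P ht)) h2s (fun y => ?_) x
            rw [h.fderiv_v ht]
            exact (norm_sub_le _ _).trans (add_le_add le_rfl
              (norm_fderiv_P_le_P (h.c2b_u i j).c1 ht y))
        _ ≤ b / √s + b / √s := by
            rw [P_add bn (bn.P ht) h2s, P_P bn h2s ht]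
            exact add_le_add (pn _ (by linarith) (by linarith)) (pn _ (by linarith) hst)
        _ = _ := by ring
    calc _ ≤ _ := P_eet_le hdh hs (h.c2b_v ht i j) x
      _ ≤ 2 * dh * (4 * a / s + 3 * 2 ^ hd E / √s * (2 * (b / √s))) := by gcongr
      _ = 2 * dh * (4 * a / s + 6 * 2 ^ hd E * b / (√s * √s)) := by field_simp; ring
      _ = _ := by rw [Real.mul_self_sqrt hs.le]; ring
  unfold Dat.EET
  rw [P_sum _ (fun i _ => BM.sum _ fun j _ => bm_eet dh (h.c2b_v ht i j).c1) hs]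
  calc _ ≤ ∑ _i : ι, ∑ _j ∈ Finset.range Q, (8 * a + 12 * 2 ^ hd E * b) * dh / s := by
        refine Finset.sum_le_sum fun i _ => ?_
        rw [P_sum _ (fun j _ => bm_eet dh (h.c2b_v ht i j).c1) hs]
        exact Finset.sum_le_sum (key i)
    _ = Fintype.card ι * Q * (8 * a + 12 * 2 ^ hd E * b) * dh / s := by simp; ring
    _ ≤ _ := by
        rw [abs_of_nonneg (by positivity)]
        gcongr; linarith

end Pool.Agent.Lib.MP_8daebb_an.AS
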