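import Pool.Agent.Lib.MP_8daebb_an.AS.S4b
import Pool.Agent.Lib.MP_8daebb_an.AS.S3a

/-! Pointwise isotropy: good points. -/

open MeasureTheory Metric Set Module
open scoped RealInnerProductSpace

namespace Pool.Agent.Lib.MP_8daebb_an.AS

open HK

variable {E : Type*} [NormedAddCommGroup E] [InnerProductSpace ℝ E] [FiniteDimensional ℝ E]
  [MeasurableSpace E] [BorelSpace E]

omit [FiniteDimensional ℝ E] [MeasurableSpace E] [BorelSpace E] in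
theorem alg_s4c (a b : E →L[ℝ] ℝ) {e : E} (he : ‖e‖ = 1) {k : ℝ} (hk : 1 ≤ k) :
    -(k⁻¹ * ‖a‖ ^ 2 + 3 * k * ‖a - b‖ ^ 2) ≤
      (‖a‖ ^ 2 / 2 - a e ^ 2) - (‖b‖ ^ 2 / 2 - b e ^ 2) := by
  have h1 : ‖b‖ ≤ ‖a‖ + ‖a - b‖ := by
    simpa using norm_sub_le a (a - b)
  have h2 : |a e| ≤ ‖a‖ := by simpa [he] using a.le_opNorm e
  have h3 : |a e - b e| ≤ ‖a - b‖ := by simpa [he] using (a - b).le_opNorm e
  have h4 : a e * (a e - b e) ≤ ‖a‖ * ‖a - b‖ :=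
    (le_abs_self _).trans ((abs_mul _ _).trans_le
      (mul_le_mul h2 h3 (abs_nonneg _) (norm_nonneg _)))
  have h5 := pow_le_pow_left₀ (norm_nonneg _) h1 2
  have k0 : 0 < k := by linarith
  have h6 : 3 * (‖a‖ * ‖a - b‖) ≤ k⁻¹ * ‖a‖ ^ 2 + 9 / 4 * k * ‖a - b‖ ^ 2 := by
    have e1 : k⁻¹ * (‖a‖ - 3 / 2 * k * ‖a - b‖) ^ 2 =
        k⁻¹ * ‖a‖ ^ 2 + 9 / 4 * k * ‖a - b‖ ^ 2 - 3 * (‖a‖ * ‖a - b‖) := by
      field_simp
      ring
    have : 0 ≤ k⁻¹ * (‖a‖ - 3 / 2 * k * ‖a - b‖) ^ 2 := by positivity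
    linarith
  have h7 := mul_le_mul_of_nonneg_right hk (sq_nonneg ‖a - b‖)
  linarith [sq_nonneg (a e - b e), sq_nonneg ‖a - b‖]

variable {ι : Type*} [Fintype ι] {D : Dat E ι} {ff Γ : E → ℝ} {Q : ℕ} {C₁ L η κ : ℝ}

/-- The isotropy defect. -/
noncomputable def fS4 (D : Dat E ι) (Q : ℕ) (C₃ t : ℝ) (e y : E) : ℝ :=
  See D.ε D.T e y - (D.sm t).Su Q e y - C₃ * D.β y

/-- Errors at good points. -/
noncomputable def gA (D : Dat E ι) (Γ : E → ℝ) (Q : ℕ) (L C₃ dh t : ℝ) (y : E) : ℝ :=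
  (C₃ + finrank ℝ E + 2) * D.ee y + 6 * L ^ 3 * D.EET Q dh t y +
    (L ^ 3)⁻¹ * (finrank ℝ E * D.wf Γ y)

/-- Errors from the tails. -/
noncomputable def gB (D : Dat E ι) (L t : ℝ) (y : E) : ℝ :=
  (L ^ 3)⁻¹ * (P (3 * rho L ^ 2) D.τ y + P (t + 3 * rho L ^ 2) D.τ y) + kz L

/-- All errors. -/
noncomputable def gS4 (D : Dat E ι) (Γ : E → ℝ) (Q : ℕ) (L C₃ dh a t t' : ℝ) (y : E) : ℝ :=
  2 * a * D.τ y + D.band Q t t' y + gA D Γ Q L C₃ dh t y + gB D L t y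

namespace GS

variable (h : GS D ff Γ Q C₁ L η κ)
include h

theorem Su_sub_s4c {t dh k : ℝ} (ht : 0 < t) (hd : 0 < dh) (hk : 1 ≤ k) {e y : E} (he : ‖e‖ = 1)
    (hy : ∀ i, ∀ j < Q, |D.u i j y - P t (D.u i j) y| ≤ dh) :
    -(k⁻¹ * D.en Q y + 6 * k * D.EET Q dh t y) ≤ D.Su Q e y - (D.sm t).Su Q e y := by
  unfold Dat.Su
  rw [h.sm_en ht, h.sm_qf ht]
  unfold Dat.en Dat.qf Dat.EET
  simp only [Finset.mul_sum, Finset.sum_div, ← Finset.sum_add_distrib, ← Finset.sum_sub_distrib,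
    ← Finset.sum_neg_distrib]
  refine Finset.sum_le_sum fun i _ => Finset.sum_le_sum fun j hj => ?_
  have h1 := alg_s4c (fderiv ℝ (D.u i j) y) (fderiv ℝ (P t (D.u i j)) y) he hk
  have h2 := sq_le_two_eet (v := fun w => D.u i j w - P t (D.u i j) w) hd
    (hy i j (Finset.mem_range.1 hj))
  rw [h.fderiv_v ht] at h2
  linarith [mul_le_mul_of_nonneg_left h2 (show 0 ≤ 3 * k by linarith)]

theorem See_ge_s4c {e y : E} (he : ‖e‖ = 1) (h1 : |D.β y| ≤ D.ee y)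
    (h2 : ∀ v, |⟪D.T y v, v⟫ - D.qf Q y v| ≤ D.ee y * ‖v‖ ^ 2) :
    D.Su Q e y - (finrank ℝ E + 2) * D.ee y ≤ See D.ε D.T e y := by
  set b := stdOrthonormalBasis ℝ E
  have a1 : D.en Q y ≤ D.τ y + finrank ℝ E * D.ee y := by
    rw [D.en_eq_sum b, Dat.τ, tr_eq_sum b]
    refine (Finset.sum_le_sum (g := fun k => ⟪D.T y (b k), b k⟫ + D.ee y) fun k _ => ?_).trans
      (by simp [Finset.sum_add_distrib])
    have := (abs_le.1 (h2 (b k))).1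
    rw [b.orthonormal.1 k] at this
    linarith
  have a2 := (abs_le.1 (h2 e)).2
  have a3 := (abs_le.1 h1).1
  have a4 := h.ee_nonneg y
  have a5 : 0 ≤ finrank ℝ E * D.ee y := by positivity
  rw [he] at a2
  unfold Dat.β at a3
  unfold Dat.Su See
  linarith

theorem dens_s4c (hL : 1 ≤ L) {t fl s : ℝ} {x y : E}
    (hg : ∀ s, rho L ^ 2 ≤ s → s ≤ 6 * L * t → tt D.T x s ≤ fl)
    (hy : ‖y - x‖ ^ 2 ≤ L * rho L ^ 2) (s1 : rho L ^ 2 ≤ s) (s2 : s ≤ 3 * t) :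
    s * P s D.τ y ≤ (2 * L) ^ finrank ℝ E * Real.exp (1 / 4) * fl := by
  have r := rho_sq_pos_s3 L
  have s0 : 0 < s := r.trans_le s1
  have s3 : s ≤ L * s := le_mul_of_one_le_left s0.le hL
  have a1 := P_le_of_le_mul (c := L) (s := L * s) h.bm_τ h.τ_nonneg s0 s3 le_rfl y
  have a2 := P_shift_le (A := 1) (t := L * s) (x := x) (x' := y) h.bm_τ h.τ_nonneg (by linarith) (by
    rw [norm_sub_rev]
    linarith [mul_le_mul_of_nonneg_left s1 (show 0 ≤ L by linarith)])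
  have a3 : L ^ hd E * 2 ^ hd E ≤ (2 * L) ^ finrank ℝ E := by
    rw [← Real.mul_rpow (by linarith) (by norm_num), mul_comm, ← Real.rpow_natCast]
    refine Real.rpow_le_rpow_of_exponent_le (by linarith) ?_
    unfold hd
    linarith [(Nat.cast_nonneg (finrank ℝ E) : (0 : ℝ) ≤ _)]
  have a4 : 2 * (L * s) * P (2 * (L * s)) D.τ x ≤ fl := hg _ (by linarith)
    (by linarith [mul_le_mul_of_nonneg_left s2 (show 0 ≤ L by linarith)])
  obtain ⟨X, hX⟩ : ∃ X, X = P (2 * (L * s)) D.τ x := ⟨_, rfl⟩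
  have X0 : 0 ≤ X := hX ▸ P_nonneg (by linarith) h.τ_nonneg x
  rw [← hX] at a2 a4
  have a5 : s * X ≤ fl := by nlinarith [mul_nonneg s0.le X0]
  have a6 : P s D.τ y ≤ (2 * L) ^ finrank ℝ E * Real.exp (1 / 4) * X := by
    linarith [mul_le_mul_of_nonneg_left a2 (show 0 ≤ L ^ hd E by positivity),
      mul_le_mul_of_nonneg_right a3 (show 0 ≤ Real.exp (1 / 4) * X by positivity)]
  linarith [mul_le_mul_of_nonneg_left a6 s0.le, mul_le_mul_of_nonneg_left a5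
    (show 0 ≤ (2 * L) ^ finrank ℝ E * Real.exp (1 / 4) by positivity)]

theorem osc_s4c (hm : 1 ≤ finrank ℝ E) (hκ : κ ≤ 1) (hL : 1 ≤ L) {t d A₀ : ℝ} {y : E}
    (hy : ‖y‖ ≤ 5 / 2) (t1 : rho L ^ 2 ≤ t) (t2 : t ≤ Real.exp (-5 * L)) (t3 : 3 * t ≤ tm L)
    (hdn : ∀ s, rho L ^ 2 ≤ s → s ≤ 3 * t → s * P s D.τ y ≤ d) (hA : 0 ≤ A₀)
    (hA' : finrank ℝ E * ((C₁ + 1) * d + 2 * kz L) ≤ A₀ ^ 2) (i : ι) {j : ℕ} (hj : j < Q) :
    |D.u i j y - P t (D.u i j) y| ≤ 3 * 2 ^ hd E * A₀ * (2 + L) := by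
  have r := rho_sq_pos_s3 L
  have c1 := (h.c2b_u i j).c1
  have C0 := h.C₁_nonneg
  have k0 : 0 < kz L := Real.exp_pos _
  have tm1 : tm L ≤ 1 := Real.exp_le_one_iff.2 (by linarith)
  have key : ∀ s s', 0 < s → s ≤ t → 0 < s' → s' ≤ 2 * s + rho L ^ 2 →
      P (2 * s) (fun y => ‖fderiv ℝ (D.u i j) y‖) y ≤ A₀ / √s' := fun s s' s0 s1 s2 s3 => by
    refine (P_le_sqrt_P_sq c1.bm_norm (by linarith) y).trans ?_
    rw [← Real.sqrt_sq hA, ← Real.sqrt_div (sq_nonneg _)]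
    refine Real.sqrt_le_sqrt ?_
    have a1 := P_mono (c1.bm_norm.pow 2) (h.bm_wf.const_mul (finrank ℝ E)) (t := 2 * s)
      (by linarith) (fun w => (D.norm_sq_le_en i hj w).trans (h.en_le_wf hm w)) y
    rw [P_const_mul] at a1
    have a2 := h.P_wf_le hκ hL hy (s := 2 * s) (by linarith) (by linarith)
    have a3 := hdn (2 * s + rho L ^ 2) (by linarith) (by linarith)
    have a4 : 0 ≤ P (2 * s + rho L ^ 2) D.τ y := P_nonneg (by linarith) h.τ_nonneg y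
    have a5 : s' * P (2 * s + rho L ^ 2) D.τ y ≤ d := (mul_le_mul_of_nonneg_right s3 a4).trans a3
    have a6 : P (2 * s) (D.wf Γ) y * s' ≤ (C₁ + 1) * d + 2 * kz L := by
      linarith [mul_le_mul_of_nonneg_right a2 s2.le,
        mul_le_mul_of_nonneg_left a5 (show 0 ≤ C₁ + 1 by linarith),
        mul_le_mul_of_nonneg_left (show s' ≤ 1 by linarith) k0.le]
    rw [le_div_iff₀ s2]
    linarith [mul_le_mul_of_nonneg_right a1 s2.le,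
      mul_le_mul_of_nonneg_left a6 (Nat.cast_nonneg (finrank ℝ E) : (0 : ℝ) ≤ _)]
  refine (abs_sub_P_le_log c1 r t1
    (fun s hs => key s _ hs.1 (hs.2.trans t1) r (by linarith [hs.1]))
    (fun s hs => key s _ (r.trans_le hs.1) hs.2 (r.trans_le hs.1) (by linarith [hs.1]))).trans ?_
  refine mul_le_mul_of_nonneg_left (add_le_add le_rfl ?_) (by positivity)
  rw [Real.log_le_iff_le_exp (div_pos (r.trans_le t1) r), div_le_iff₀ r, rho, ← Real.exp_nat_mul,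
    ← Real.exp_add]
  exact t2.trans (Real.exp_le_exp.2 (by push_cast; linarith))

theorem sm_en_le_s4c (hm : 1 ≤ finrank ℝ E) {t : ℝ} (ht : 0 < t) (y : E) :
    (D.sm t).en Q y ≤ finrank ℝ E * P t (D.wf Γ) y := by
  rw [← P_const_mul]
  exact (h.sm_en_le ht y).trans (P_mono h.bm_en (h.bm_wf.const_mul _) ht (h.en_le_wf hm) y)

theorem abs_fS4 (hm : 1 ≤ finrank ℝ E) {C₃ t : ℝ} (hC : 0 ≤ C₃) (ht : 0 < t) {e : E}
    (he : ‖e‖ = 1) (y : E) : |fS4 D Q C₃ t e y| ≤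
      (1 + 2 * C₃ + finrank ℝ E) * (D.wf Γ y + P t (D.wf Γ) y) := by
  have a1 := abs_le.1 ((D.sm t).abs_Su_le Q he y)
  have a2 := h.sm_en_le_s4c hm ht y
  have a3 : ⟪D.T y e, e⟫ ≤ D.τ y * ‖e‖ ^ 2 := h.st.inner_le y e
  have a4 := h.st.psd y e
  have a5 : |C₃ * D.β y| ≤ C₃ * (2 * D.wf Γ y) := by
    rw [abs_mul, abs_of_nonneg hC]
    refine mul_le_mul_of_nonneg_left ((h.abs_β_s3 y).trans ?_) hC
    unfold Dat.wf
    linarith [h.Γ_nonneg y]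
  have a6 := abs_le.1 a5
  have a7 : 0 ≤ P t (D.wf Γ) y := P_nonneg ht.le h.wf_nonneg y
  have a8 := h.wf_nonneg y
  have a9 : |D.ε y| + D.τ y ≤ D.wf Γ y := le_add_of_nonneg_right (h.Γ_nonneg y)
  have b1 := mul_nonneg hC a7
  have b2 : 0 ≤ finrank ℝ E * D.wf Γ y := by positivity
  have b3 : 0 ≤ finrank ℝ E * P t (D.wf Γ) y := by positivity
  rw [he] at a3
  unfold fS4 See
  rw [abs_le]
  constructor <;> linarith [a1.1, a1.2, a6.1, a6.2, le_abs_self (D.ε y), neg_abs_le (D.ε y),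
    h.τ_nonneg y]

theorem bm_fS4 (C₃ : ℝ) {t : ℝ} (ht : 0 < t) (e : E) : BM (fS4 D Q C₃ t e) :=
  ((h.bm_See e).sub (h.bm_sm_Su ht e)).sub (h.bm_β.const_mul _)

theorem bm_gA (C₃ dh : ℝ) {t : ℝ} (ht : 0 < t) : BM (gA D Γ Q L C₃ dh t) :=
  ((h.bm_ee.const_mul _).add ((h.bm_EET dh ht).const_mul _)).add
    ((h.bm_wf.const_mul _).const_mul _)

theorem bm_gB {t : ℝ} (ht : 0 < t) : BM (gB D L t) :=
  (((h.bm_τ.P (by linarith [rho_sq_pos_s3 L])).add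
    (h.bm_τ.P (by linarith [rho_sq_pos_s3 L]))).const_mul _).add (BM.const _)

theorem bm_gS4 (C₃ dh a : ℝ) {t t' : ℝ} (ht : 0 < t) (ht' : 0 < t') :
    BM (gS4 D Γ Q L C₃ dh a t t') :=
  (((h.bm_τ.const_mul _).add (h.bm_band ht ht')).add (h.bm_gA C₃ dh ht)).add (h.bm_gB ht)

theorem gA_nonneg (hL : 1 ≤ L) {C₃ : ℝ} (hC : 0 ≤ C₃) (dh t : ℝ) (y : E) :
    0 ≤ gA D Γ Q L C₃ dh t y := by
  have a1 := h.ee_nonneg y
  have a2 := D.EET_nonneg Q dh t y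
  have a3 := h.wf_nonneg y
  unfold gA
  positivity

theorem gB_nonneg (hL : 1 ≤ L) {t : ℝ} (ht : 0 < t) (y : E) : 0 ≤ gB D L t y := by
  have a1 : 0 ≤ P (3 * rho L ^ 2) D.τ y := P_nonneg (by positivity) h.τ_nonneg y
  have a2 : 0 ≤ P (t + 3 * rho L ^ 2) D.τ y := P_nonneg (by positivity) h.τ_nonneg y
  have a3 : 0 < kz L := Real.exp_pos _
  unfold gB
  positivity

theorem P_gB {s t : ℝ} (hs : 0 < s) (ht : 0 < t) (x : E) : P s (gB D L t) x =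
    (L ^ 3)⁻¹ * (P (s + 3 * rho L ^ 2) D.τ x + P (s + (t + 3 * rho L ^ 2)) D.τ x) + kz L := by
  have r1 : 0 < 3 * rho L ^ 2 := by linarith [rho_sq_pos_s3 L]
  have r2 : 0 < t + 3 * rho L ^ 2 := by linarith
  unfold gB
  rw [P_add (((h.bm_τ.P r1).add (h.bm_τ.P r2)).const_mul _) (BM.const _) hs, P_const_mul,
    P_add (h.bm_τ.P r1) (h.bm_τ.P r2) hs, P_const hs, P_P h.bm_τ hs r1, P_P h.bm_τ hs r2]

theorem P_H_s4c (hκ : κ ≤ 1) (hL : 1 ≤ L) {x : E} (hx : ‖x‖ ≤ 5 / 2) {s t s₁ s₂ c : ℝ}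
    (hs : 0 < s) (ht : 0 < t) (hst : s + t ≤ tm L) (u1 : s + rho L ^ 2 ≤ s₁)
    (u2 : s₁ ≤ c * (s + rho L ^ 2)) (u3 : s + t + rho L ^ 2 ≤ s₂)
    (u4 : s₂ ≤ c * (s + t + rho L ^ 2)) :
    P s (fun y => D.wf Γ y + P t (D.wf Γ) y) x ≤
      (C₁ + 1) * (c ^ hd E * (P s₁ D.τ x + P s₂ D.τ x)) + 4 * kz L := by
  have r := rho_sq_pos_s3 L
  have C0 : 0 ≤ C₁ + 1 := by linarith [h.C₁_nonneg]
  rw [P_add h.bm_wf (h.bm_wf.P ht) hs, P_P h.bm_wf hs ht]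
  linarith [h.P_wf_le hκ hL hx hs (by linarith), h.P_wf_le hκ hL hx (add_pos hs ht) hst,
    mul_le_mul_of_nonneg_left (P_le_of_le_mul h.bm_τ h.τ_nonneg (by linarith) u1 u2 x) C0,
    mul_le_mul_of_nonneg_left (P_le_of_le_mul h.bm_τ h.τ_nonneg (by linarith) u3 u4 x) C0]

theorem good_s4c (hm : 1 ≤ finrank ℝ E) (hκ : κ ≤ 1) (hL : 1 ≤ L) {C₃ dh a t t' fl A₀ : ℝ}
    (hC : 0 ≤ C₃) (hdh : 0 < dh) (ha : 0 ≤ a) (hA : 0 ≤ A₀) (t1 : rho L ^ 2 ≤ t)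
    (t2 : t ≤ Real.exp (-5 * L)) (t3 : 3 * t ≤ tm L) (t4 : 0 < t')
    (n1 : (2 * L) ^ finrank ℝ E * Real.exp (1 / 4) * fl ≤ η)
    (n2 : finrank ℝ E * ((C₁ + 1) * ((2 * L) ^ finrank ℝ E * Real.exp (1 / 4) * fl) + 2 * kz L) ≤
      A₀ ^ 2) (n3 : 3 * 2 ^ hd E * A₀ * (2 + L) ≤ dh) (n4 : L * rho L ^ 2 ≤ (1 / 4) ^ 2)
    (n5 : 2 ^ hd E * Real.exp (-(L / 8)) * (1 + 2 * C₃ + finrank ℝ E) *
      (4 * (C₁ + 1) * 3 ^ hd E) ≤ (L ^ 3)⁻¹) {e x : E} (he : ‖e‖ = 1) (hx : ‖x‖ ≤ 9 / 4)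
    (hg : ∀ s, rho L ^ 2 ≤ s → s ≤ 6 * L * t → tt D.T x s ≤ fl) :
    (∫ s in (0 : ℝ)..rho L ^ 2,
      P s (fun y => -fS4 D Q C₃ t e y - gS4 D Γ Q L C₃ dh a t t' y) x) ≤ 0 := by
  have r := rho_sq_pos_s3 L
  have t0 : 0 < t := r.trans_le t1
  have L3 : 1 ≤ L ^ 3 := one_le_pow₀ hL
  have ball : ∀ y, ‖y - x‖ ^ 2 ≤ L * rho L ^ 2 →
      -fS4 D Q C₃ t e y - gA D Γ Q L C₃ dh t y ≤ 0 := fun y hy => by
    have y1 : ‖y‖ ≤ 5 / 2 := by
      linarith [norm_le_norm_sub_add y x, le_of_sq_le_sq (hy.trans n4) (by norm_num)]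
    have d1 := fun s => h.dens_s4c hL (s := s) hg hy
    obtain ⟨b1, b2⟩ := h.s6 y (by linarith) ((d1 _ le_rfl (by linarith)).trans n1)
    have b3 := h.Su_sub_s4c t0 hdh L3 he fun i j hj =>
      (h.osc_s4c hm hκ hL y1 t1 t2 t3 d1 hA n2 i hj).trans n3
    have b4 := h.See_ge_s4c he b1 b2
    have b5 := mul_le_mul_of_nonneg_left ((le_abs_self _).trans b1) hC
    have b6 := mul_le_mul_of_nonneg_left (h.en_le_wf hm y) (show 0 ≤ (L ^ 3)⁻¹ by positivity)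
    unfold fS4 gA
    linarith
  rw [intervalIntegral.integral_of_le r.le]
  refine setIntegral_nonpos measurableSet_Ioc fun s hs => ?_
  obtain ⟨s0, s1⟩ := hs
  have b1 := ((h.bm_fS4 C₃ t0 e).neg.sub (h.bm_gA C₃ dh t0)).max (BM.const 0)
  have b0 := h.bm_wf.add (h.bm_wf.P t0)
  have a1 : P s (fun y => -fS4 D Q C₃ t e y - gS4 D Γ Q L C₃ dh a t t' y) x ≤
      P s (fun y => max (-fS4 D Q C₃ t e y - gA D Γ Q L C₃ dh t y) 0 - gB D L t y) x :=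
    P_mono ((h.bm_fS4 C₃ t0 e).neg.sub (h.bm_gS4 C₃ dh a t0 t4)) (b1.sub (h.bm_gB t0)) s0
      (fun y => by
        have u1 := mul_nonneg ha (h.τ_nonneg y)
        have u2 := D.band_nonneg Q t t' y
        have u3 := le_max_left (-fS4 D Q C₃ t e y - gA D Γ Q L C₃ dh t y) 0
        unfold gS4
        linarith) x
  have a2 := abs_P_le_tail (f := fun y => max (-fS4 D Q C₃ t e y - gA D Γ Q L C₃ dh t y) 0)
    (A := L) (x := x) (b0.const_mul (1 + 2 * C₃ + finrank ℝ E)) s0 (fun y => by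
      have := h.abs_fS4 hm hC t0 he y
      rw [abs_of_nonneg (le_max_right _ _)]
      exact max_le (by linarith [neg_abs_le (fS4 D Q C₃ t e y), h.gA_nonneg hL hC dh t y])
        ((abs_nonneg _).trans this)) (fun y hy => by
      have : L * rho L ^ 2 < ‖y - x‖ ^ 2 := not_le.1 fun u => hy (max_eq_right (ball y u))
      linarith [mul_le_mul_of_nonneg_left s1 (show 0 ≤ L by linarith)])
  rw [P_const_mul] at a2
  rw [P_sub b1 (h.bm_gB t0) s0, h.P_gB s0 t0] at a1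
  have a3 := h.P_H_s4c hκ hL (x := x) (by linarith) (s := 2 * s) (t := t) (c := 3)
    (s₁ := s + 3 * rho L ^ 2) (s₂ := s + (t + 3 * rho L ^ 2)) (by linarith) t0 (by linarith)
    (by linarith) (by linarith) (by linarith) (by linarith)
  obtain ⟨X, hX⟩ : ∃ X, X = P (s + 3 * rho L ^ 2) D.τ x + P (s + (t + 3 * rho L ^ 2)) D.τ x :=
    ⟨_, rfl⟩
  have X0 : 0 ≤ X := hX ▸ add_nonneg (P_nonneg (by linarith) h.τ_nonneg x)
    (P_nonneg (by linarith) h.τ_nonneg x)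
  rw [← hX] at a1 a3
  have k0 : 0 < kz L := Real.exp_pos _
  have C0 := h.C₁_nonneg
  have c1 : (1 : ℝ) ≤ (C₁ + 1) * 3 ^ hd E := one_le_mul_of_one_le_of_one_le (by linarith)
    (Real.one_le_rpow (by norm_num) hd_nonneg)
  have a4 : P (2 * s) (fun y => D.wf Γ y + P t (D.wf Γ) y) x ≤
      4 * (C₁ + 1) * 3 ^ hd E * (X + kz L) := by
    linarith [mul_le_mul_of_nonneg_right c1 k0.le,
      mul_nonneg (show 0 ≤ (C₁ + 1) * 3 ^ hd E by linarith) X0]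
  have a5 := mul_le_mul_of_nonneg_left a4
    (show 0 ≤ 2 ^ hd E * Real.exp (-(L / 8)) * (1 + 2 * C₃ + finrank ℝ E) by positivity)
  have a6 := mul_le_mul_of_nonneg_right n5 (add_nonneg X0 k0.le)
  have a7 := mul_le_mul_of_nonneg_right (inv_le_one_of_one_le₀ L3) k0.le
  linarith [le_abs_self (P s (fun y => max (-fS4 D Q C₃ t e y - gA D Γ Q L C₃ dh t y) 0) x)]

end GS

end Pool.Agent.Lib.MP_8daebb_an.AS
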