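import Pool.Agent.Lib.MP_8daebb_an.AS.S4c

/-! Pointwise isotropy. -/

open MeasureTheory Metric Set Module
open scoped RealInnerProductSpace

namespace Pool.Agent.Lib.MP_8daebb_an.AS

open HK

variable {E : Type*} [NormedAddCommGroup E] [InnerProductSpace ℝ E] [FiniteDimensional ℝ E]
  [MeasurableSpace E] [BorelSpace E]

variable {ι : Type*} [Fintype ι]

theorem exp_cmp_s4d {K a b c : ℝ} (h : K ≤ Real.exp c) (hab : a + c ≤ b) :
    K * Real.exp a ≤ Real.exp b := by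
  refine (mul_le_mul_of_nonneg_right h (Real.exp_pos _).le).trans ?_
  rw [← Real.exp_add]
  exact Real.exp_le_exp.2 (by linarith)

theorem exp_inv_s4d {K p a c : ℝ} (hp : 0 < p) (h : K * p ≤ Real.exp c) (hab : a + c ≤ 0) :
    K * Real.exp a ≤ p⁻¹ := by
  have := exp_cmp_s4d h hab
  rw [Real.exp_zero] at this
  rw [← one_div, le_div_iff₀ hp]
  linarith

theorem rho_sq_s4d (L : ℝ) : rho L ^ 2 = Real.exp (-6 * L) := by
  rw [rho, sq, ← Real.exp_add]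
  congr 1
  ring

theorem ev_sqrt_s4d (K : ℝ) (n : ℕ) {c : ℝ} (hc : 0 < c) :
    ∀ᶠ L : ℝ in Filter.atTop, K * L ^ n ≤ Real.exp (c * √L) := by
  filter_upwards [Real.tendsto_sqrt_atTop.eventually (ev_pow_s3 K (2 * n) hc),
    Filter.eventually_ge_atTop 0] with L h h0
  rwa [pow_mul, Real.sq_sqrt h0] at h

namespace GS

variable {D : Dat E ι} {ff Γ : E → ℝ} {Q : ℕ} {C₁ L η κ : ℝ} (h : GS D ff Γ Q C₁ L η κ)
include h

theorem dense_s4d (hL : 1 ≤ L) {C₃ dh a t t' s R : ℝ} (hC : 0 ≤ C₃) (t0 : 0 < t) (t4 : 0 < t')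
    (hs : 0 ≤ s) {e x : E}
    (h1 : -R ≤ ∫ σ in (0 : ℝ)..s, P σ (fun y => See D.ε D.T e y - C₃ * D.β y) x)
    (h2 : R + s * (Fintype.card ι * Q * (36 * 4 ^ hd E * C₁ ^ 2) / t') ≤ 2 * a * ZZ D.T x s) :
    (∫ σ in (0 : ℝ)..s,
      P σ (fun y => -fS4 D Q C₃ t e y - gS4 D Γ Q L C₃ dh a t t' y) x) ≤ 0 := by
  obtain ⟨K, hK⟩ : ∃ K, K = Fintype.card ι * Q * (36 * 4 ^ hd E * C₁ ^ 2) / t' := ⟨_, rfl⟩
  have b1 := (h.bm_See e).sub (h.bm_β.const_mul C₃)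
  have b2 := (h.bm_fS4 C₃ t0 e).neg.sub (h.bm_gS4 C₃ dh a t0 t4)
  have i1 := intInt_P_s3 b1 x le_rfl hs
  have i2 := (intInt_P_s3 h.bm_τ x le_rfl hs).const_mul (2 * a)
  have i3 : IntervalIntegrable (fun _ : ℝ => K) volume 0 s := intervalIntegrable_const
  have a1 := intervalIntegral.integral_mono_on_of_le_Ioo hs (intInt_P_s3 b2 x le_rfl hs)
    ((i3.sub i1).sub i2) fun σ hσ => by
      rw [← P_const hσ.1 K x, ← P_const_mul, ← P_sub (BM.const K) b1 hσ.1,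
        ← P_sub ((BM.const K).sub b1) (h.bm_τ.const_mul _) hσ.1]
      refine P_mono b2 (((BM.const K).sub b1).sub (h.bm_τ.const_mul _)) hσ.1 (fun y => ?_) x
      have u1 := (D.sm t).Su_le Q e y
      have u2 := h.sm_en_le_band t0 t4 y
      have u3 := h.sm_en_le_const t4 y
      have u4 := h.gA_nonneg hL hC dh t y
      have u5 := h.gB_nonneg hL t0 y
      unfold fS4 gS4
      linarith
  rw [intervalIntegral.integral_sub (i3.sub i1) i2, intervalIntegral.integral_sub i3 i1,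
    intervalIntegral.integral_const_mul, intervalIntegral.integral_const, sub_zero,
    smul_eq_mul] at a1
  rw [← hK] at h2
  unfold ZZ at h2
  exact a1.trans (by change _ - _ - 2 * a * ∫ t in (0 : ℝ)..s, P t (τf D.T) x ≤ 0; linarith)

theorem gS4_nonneg (hL : 1 ≤ L) {C₃ a t : ℝ} (hC : 0 ≤ C₃) (ha : 0 ≤ a) (t0 : 0 < t)
    (dh t' : ℝ) (y : E) : 0 ≤ gS4 D Γ Q L C₃ dh a t t' y :=
  add_nonneg (add_nonneg (add_nonneg (mul_nonneg (by linarith) (h.τ_nonneg y))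
    (D.band_nonneg Q t t' y)) (h.gA_nonneg hL hC dh t y)) (h.gB_nonneg hL t0 y)

theorem abs_f_s4d (hm : 1 ≤ finrank ℝ E) (hL : 1 ≤ L) {C₃ dh a t t' : ℝ} (hC : 0 ≤ C₃)
    (ha : 0 ≤ a) (t0 : 0 < t) {e : E} (he : ‖e‖ = 1) (y : E) :
    |-fS4 D Q C₃ t e y - gS4 D Γ Q L C₃ dh a t t' y| ≤
      (1 + 2 * C₃ + finrank ℝ E) * (D.wf Γ y + P t (D.wf Γ) y) +
        gS4 D Γ Q L C₃ dh a t t' y := by
  have a1 := abs_le.1 (h.abs_fS4 hm hC t0 he y)
  have a2 := h.gS4_nonneg hL hC ha t0 dh t' y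
  rw [abs_le]
  constructor <;> linarith [a1.1, a1.2]

theorem abs_f_le_s4d (hm : 1 ≤ finrank ℝ E) (hL : 1 ≤ L) {C₃ dh a t t' : ℝ} (hC : 0 ≤ C₃)
    (ha : 0 ≤ a) (ha' : a ≤ 1) (t0 : 0 < t) (t4 : 0 < t') {e : E} (he : ‖e‖ = 1) (y : E) :
    |-fS4 D Q C₃ t e y - gS4 D Γ Q L C₃ dh a t t' y| ≤
      (13 + 13 * C₃ + 94 * finrank ℝ E) * L ^ 3 * big L := by
  have r := rho_sq_pos_s3 L
  have pw : ∀ s, 0 < s → P s (D.wf Γ) y ≤ 3 * big L := fun s hs => (le_abs_self _).trans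
    (abs_P_le_const hs (fun z => (abs_of_nonneg (h.wf_nonneg z)).trans_le (h.wf_le z)) y)
  have pτ : ∀ s, 0 < s → P s D.τ y ≤ big L := fun s hs => (le_abs_self _).trans
    (abs_P_le_const hs (fun z => (abs_of_nonneg (h.τ_nonneg z)).trans_le (h.τ_le z)) y)
  have m0 : (0 : ℝ) ≤ finrank ℝ E := Nat.cast_nonneg _
  have g1 : 1 ≤ big L := Real.one_le_exp (by linarith)
  have L3 : 1 ≤ L ^ 3 := one_le_pow₀ hL
  have i3 : (L ^ 3)⁻¹ ≤ 1 := inv_le_one_of_one_le₀ L3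
  have e0 := (h.en_le_wf hm y).trans (mul_le_mul_of_nonneg_left (h.wf_le y) m0)
  have e1 := (h.sm_en_le_s4c hm t0 y).trans (mul_le_mul_of_nonneg_left (pw t t0) m0)
  have e2 := (h.sm_en_le_s4c hm t4 y).trans (mul_le_mul_of_nonneg_left (pw t' t4) m0)
  have a1 := mul_le_mul_of_nonneg_left (add_le_add (h.wf_le y) (pw t t0))
    (show 0 ≤ 1 + 2 * C₃ + finrank ℝ E by positivity)
  have a2 := mul_le_mul ha' (h.τ_le y) (h.τ_nonneg y) zero_le_one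
  have a3 := h.band_le t0 t4 y
  have a4 := mul_le_mul_of_nonneg_left (h.ee_le y) (show 0 ≤ C₃ + finrank ℝ E + 2 by positivity)
  have a5 := mul_le_mul_of_nonneg_left (show D.EET Q dh t y ≤ 12 * finrank ℝ E * big L by
    linarith [h.EET_le dh t0 y]) (show 0 ≤ 6 * L ^ 3 by positivity)
  have a6 := mul_le_mul i3 (mul_le_mul_of_nonneg_left (h.wf_le y) m0)
    (mul_nonneg m0 (h.wf_nonneg y)) zero_le_one
  have a7 := mul_le_mul i3 (add_le_add (pτ (3 * rho L ^ 2) (by linarith))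
    (pτ (t + 3 * rho L ^ 2) (by linarith))) (add_nonneg (P_nonneg (by linarith) h.τ_nonneg y)
      (P_nonneg (by linarith) h.τ_nonneg y)) zero_le_one
  have a8 : kz L ≤ 1 := Real.exp_le_one_iff.2 (by linarith)
  have a9 := mul_le_mul_of_nonneg_right L3
    (show 0 ≤ (13 + 13 * C₃ + 22 * finrank ℝ E) * big L by positivity)
  refine (h.abs_f_s4d hm hL hC ha t0 he y).trans ?_
  unfold gS4 gA gB
  linarith

theorem final_s4d (hm : 1 ≤ finrank ℝ E) (hκ : κ ≤ 1) (hL : 1 ≤ L)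
    {C₃ dh a t t' T Cw CE Ka lam u tl : ℝ} (hC : 0 ≤ C₃) (ha : a = Ka * lam) (Ka0 : 0 ≤ Ka)
    (hl : 0 ≤ lam) (t0 : 0 < t) (t4 : 0 < t') (T1 : t + 3 * rho L ^ 2 ≤ 4 * T)
    (T2 : 8 * T ≤ tm L) (hC0 : 0 ≤ Cw) (hCw : Cw ≤ L) (CE0 : 0 ≤ CE) (hu : kz L ≤ u)
    (htl : tl ≤ u) {e y : E} (he : ‖e‖ = 1) (hy : ‖y‖ ≤ 5 / 2)
    (hE : L ^ 3 * P (4 * T) (D.EET Q dh t) y ≤ CE * u)
    (hw : P T (fun y => -fS4 D Q C₃ t e y - gS4 D Γ Q L C₃ dh a t t' y) y ≤ Cw / L ^ 4 *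
      P (4 * T) (fun w => |-fS4 D Q C₃ t e w - gS4 D Γ Q L C₃ dh a t t' w|) y + tl) :
    C₃ * P T D.β y - ((4 ^ hd E + 1) * (2 * Ka + 1 + (C₃ + finrank ℝ E + 2) + 6 * CE +
      finrank ℝ E * ((|C₁| + 1) * 2 ^ hd E) + 2 * finrank ℝ E + 2 * 2 ^ hd E + 1) +
      (1 + 2 * C₃ + finrank ℝ E) * (2 * ((|C₁| + 1) * 2 ^ hd E) + 4) + 1) *
      (lam * P (4 * T) D.τ y + P (4 * T) (D.band Q t t') y + P (4 * T) D.ee y +
        (L ^ 3)⁻¹ * P (8 * T) D.τ y + u) ≤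
      P T (fun w => See D.ε D.T e w - (D.sm t).Su Q e w) y := by
  have r := rho_sq_pos_s3 L
  have T0 : 0 < T := by linarith
  have T4 : 0 < 4 * T := by linarith
  have C0 := h.C₁_nonneg
  have a0 : 0 ≤ a := by rw [ha]; positivity
  have m0 : (0 : ℝ) ≤ finrank ℝ E := Nat.cast_nonneg _
  have k0 : 0 < kz L := Real.exp_pos _
  have L3 : 1 ≤ L ^ 3 := one_le_pow₀ hL
  have i3 : (L ^ 3)⁻¹ ≤ 1 := inv_le_one_of_one_le₀ L3
  have i0 : 0 < (L ^ 3)⁻¹ := by positivity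
  rw [abs_of_nonneg C0]
  have bF := h.bm_fS4 C₃ t0 e
  have bG := h.bm_gS4 C₃ dh a t0 t4
  have bH := h.bm_wf.add (h.bm_wf.P t0)
  have p1 : P T (fS4 D Q C₃ t e) y =
      P T (fun w => See D.ε D.T e w - (D.sm t).Su Q e w) y - C₃ * P T D.β y := by
    rw [← P_const_mul, ← P_sub ((h.bm_See e).sub (h.bm_sm_Su t0 e)) (h.bm_β.const_mul _) T0]
    rfl
  rw [P_sub bF.neg bG T0, P_neg, p1] at hw
  have p2 := P_le_of_le_mul (c := 4) bG (h.gS4_nonneg hL hC a0 t0 dh t') T0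
    (show T ≤ 4 * T by linarith) le_rfl y
  have p3 := P_mono (bF.neg.sub bG).abs ((bH.const_mul _).add bG) T4
    (h.abs_f_s4d hm hL hC a0 t0 he) y
  rw [P_add (bH.const_mul _) bG T4, P_const_mul] at p3
  have p4 := h.P_H_s4c hκ hL hy (c := 2) (s₁ := 8 * T) (s₂ := 8 * T) T4 t0 (by linarith)
    (by linarith) (by linarith) (by linarith) (by linarith)
  have p5 := h.P_wf_le hκ hL hy T4 (by linarith)
  have k : ∀ s, 4 * T ≤ s → s ≤ 8 * T → P s D.τ y ≤ 2 ^ hd E * P (8 * T) D.τ y :=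
    fun s u1 u2 => P_le_of_le_mul h.bm_τ h.τ_nonneg (by linarith) u2 (by linarith) y
  have k1 := k (4 * T + rho L ^ 2) (by linarith) (by linarith)
  have k2 := k (4 * T + 3 * rho L ^ 2) (by linarith) (by linarith)
  have k3 := k (4 * T + (t + 3 * rho L ^ 2)) (by linarith) (by linarith)
  have p6 : P (4 * T) (gS4 D Γ Q L C₃ dh a t t') y = 2 * a * P (4 * T) D.τ y +
      P (4 * T) (D.band Q t t') y + ((C₃ + finrank ℝ E + 2) * P (4 * T) D.ee y +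
        6 * L ^ 3 * P (4 * T) (D.EET Q dh t) y +
        (L ^ 3)⁻¹ * (finrank ℝ E * P (4 * T) (D.wf Γ) y)) + P (4 * T) (gB D L t) y := by
    have b1 := h.bm_τ.const_mul (2 * a)
    have b2 := h.bm_band t0 t4
    have b3 := h.bm_ee.const_mul (C₃ + finrank ℝ E + 2)
    have b4 := (h.bm_EET dh t0).const_mul (6 * L ^ 3)
    have b5 := (h.bm_wf.const_mul (finrank ℝ E)).const_mul (L ^ 3)⁻¹
    rw [← P_const_mul, ← P_const_mul, ← P_const_mul, ← P_const_mul, ← P_const_mul,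
      ← P_add b1 b2 T4, ← P_add b3 b4 T4, ← P_add (b3.add b4) b5 T4,
      ← P_add (b1.add b2) ((b3.add b4).add b5) T4,
      ← P_add ((b1.add b2).add ((b3.add b4).add b5)) (h.bm_gB t0) T4]
    rfl
  rw [h.P_gB T4 t0] at p6
  have G0 : 0 ≤ P (4 * T) (gS4 D Γ Q L C₃ dh a t t') y :=
    P_nonneg T4.le (h.gS4_nonneg hL hC a0 t0 dh t') y
  have H0 : 0 ≤ P (4 * T) (fun w => D.wf Γ w + P t (D.wf Γ) w) y :=
    P_nonneg T4.le (fun w => add_nonneg (h.wf_nonneg w) (P_nonneg t0.le h.wf_nonneg w)) y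
  have s1 : 0 ≤ lam * P (4 * T) D.τ y := mul_nonneg hl (P_nonneg T4.le h.τ_nonneg y)
  have s2 : 0 ≤ P (4 * T) (D.band Q t t') y := P_nonneg T4.le (D.band_nonneg Q t t') y
  have s3 : 0 ≤ P (4 * T) D.ee y := P_nonneg T4.le h.ee_nonneg y
  have s4 : 0 ≤ (L ^ 3)⁻¹ * P (8 * T) D.τ y :=
    mul_nonneg i0.le (P_nonneg (by linarith) h.τ_nonneg y)
  obtain ⟨S, hS⟩ : ∃ S, S = lam * P (4 * T) D.τ y + P (4 * T) (D.band Q t t') y +
    P (4 * T) D.ee y + (L ^ 3)⁻¹ * P (8 * T) D.τ y + u := ⟨_, rfl⟩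
  rw [← hS]
  have q0 : (L ^ 3)⁻¹ * kz L ≤ S := by linarith [mul_le_mul_of_nonneg_right i3 k0.le]
  have q4 : (L ^ 3)⁻¹ * P (8 * T) D.τ y ≤ S := by linarith
  have p2' : (0 : ℝ) < 2 ^ hd E := by positivity
  have q5 := mul_le_mul_of_nonneg_left q4 (show 0 ≤ (C₁ + 1) * 2 ^ hd E by positivity)
  have q1 : P (4 * T) (gS4 D Γ Q L C₃ dh a t t') y ≤ (2 * Ka + 1 + (C₃ + finrank ℝ E + 2) +
      6 * CE + finrank ℝ E * ((C₁ + 1) * 2 ^ hd E) + 2 * finrank ℝ E + 2 * 2 ^ hd E + 1) * S := by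
    have v1 := mul_le_mul_of_nonneg_left (show lam * P (4 * T) D.τ y ≤ S by linarith) Ka0
    have v2 := mul_le_mul_of_nonneg_left (show P (4 * T) D.ee y ≤ S by linarith)
      (show 0 ≤ C₃ + finrank ℝ E + 2 by positivity)
    have v3 := mul_le_mul_of_nonneg_left (show u ≤ S by linarith) CE0
    have v4 : (L ^ 3)⁻¹ * P (4 * T) (D.wf Γ) y ≤ (C₁ + 1) * 2 ^ hd E * S + 2 * S := by
      linarith [mul_le_mul_of_nonneg_left p5 i0.le, mul_le_mul_of_nonneg_left k1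
        (show 0 ≤ (L ^ 3)⁻¹ * (C₁ + 1) by positivity)]
    have v5 := mul_le_mul_of_nonneg_left v4 m0
    have v6 := mul_le_mul_of_nonneg_left (add_le_add k2 k3) i0.le
    have v7 := mul_le_mul_of_nonneg_left q4 p2'.le
    rw [p6, ha]
    linarith
  have q2 : (L ^ 3)⁻¹ * P (4 * T) (fun w => D.wf Γ w + P t (D.wf Γ) w) y ≤
      (2 * ((C₁ + 1) * 2 ^ hd E) + 4) * S := by
    linarith [mul_le_mul_of_nonneg_left p4 i0.le]
  have q3 : Cw / L ^ 4 ≤ (L ^ 3)⁻¹ := by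
    rw [div_le_iff₀ (by positivity), pow_succ L 3, ← mul_assoc, inv_mul_cancel₀ (by positivity),
      one_mul]
    exact hCw
  have c0 : 0 ≤ 1 + 2 * C₃ + finrank ℝ E := by positivity
  have q6 := mul_le_mul q3 p3 (P_nonneg T4.le (fun _ => abs_nonneg _) y) i0.le
  have q7 := mul_le_mul_of_nonneg_left q2 c0
  have q8 := mul_le_mul_of_nonneg_right i3 G0
  have q9 := mul_le_mul_of_nonneg_left q1 (show (0 : ℝ) ≤ 4 ^ hd E + 1 by positivity)
  linarith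

end GS

theorem iso_pt (hm : 2 ≤ finrank ℝ E) (Q : ℕ) (C₁ : ℝ) (A q : ℕ) :
    ∃ C₃ C L₀ : ℝ, 1 ≤ C₃ ∧ 0 < C ∧ ∀ L, L₀ ≤ L → ∀ (D : Dat E ι) (ff Γ : E → ℝ) (κ : ℝ),
    GS D ff Γ Q C₁ L (L ^ A)⁻¹ κ → κ ≤ 1 → ∀ t T : ℝ, rho L ^ 2 ≤ t →
    t * Real.exp (2 * √L) ≤ Real.exp (-5 * L) → ts L ≤ T → T ≤ Real.exp (-2 * L) →
    ∀ y e : E, ‖y‖ ≤ 2 → ‖e‖ = 1 →
    C₃ * P T D.β y - C * (Real.log L / √L * P (4 * T) D.τ y +
      P (4 * T) (D.band Q t (t * Real.exp (2 * √L))) y + P (4 * T) D.ee y +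
      (L ^ 3)⁻¹ * P (8 * T) D.τ y + (L ^ q)⁻¹ / T) ≤
      P T (fun w => See D.ε D.T e w - (D.sm t).Su Q e w) y := by
  obtain ⟨C₃, Cd, Ld, hC₃, hCd, hdp⟩ := dpoint (E := E) (ι := ι) C₁
  obtain ⟨Cs, hCs, hst⟩ := stop (E := E) C₁
  obtain ⟨Cw, hCw, hw⟩ := walk_loc (E := E)
  have hm1 : 1 ≤ finrank ℝ E := by omega
  obtain ⟨CE, hCE, hE⟩ := P_EET_le (E := E) (ι := ι) hm1 Q C₁
  obtain ⟨p, hp⟩ : ∃ p, p = finrank ℝ E + 2 * (q + 5) + 1 + A := ⟨_, rfl⟩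
  obtain ⟨K, hK⟩ : ∃ K : ℝ, K = 3 * ((p + 2 : ℕ) : ℝ) := ⟨_, rfl⟩
  obtain ⟨Cn, hCn⟩ : ∃ Cn : ℝ, Cn = Fintype.card ι * Q * (36 * 4 ^ hd E * C₁ ^ 2) := ⟨_, rfl⟩
  have Cn0 : 0 ≤ Cn := by rw [hCn]; positivity
  have K3 : 3 ≤ K := by
    have : (1 : ℝ) ≤ ((p + 2 : ℕ) : ℝ) := by exact_mod_cast Nat.succ_le_succ (Nat.zero_le _)
    linarith
  have K2 : 0 < (Cs + Cd) * (Cs * K) := by positivity
  have h12 : (0 : ℝ) < 1 / 2 := by norm_num
  have h53 : (0 : ℝ) < 5 / 3 := by norm_num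
  obtain ⟨L₀, hL₀⟩ := Filter.eventually_atTop.1 ((Filter.eventually_ge_atTop (22 + |Ld| + 4 * Cs +
    64 * Cw + 9 * 2 ^ hd E + 2 * finrank ℝ E * (|C₁| + 1) * (2 ^ finrank ℝ E * Real.exp (1 / 4)))).and
    ((ev_pow_s3 (4 * finrank ℝ E) (2 * (q + 5)) h12).and ((ev_pow_s3 16 1 one_pos).and
    ((ev_pow_s3 (2 ^ hd E * (1 + 2 * C₃ + finrank ℝ E) * (4 * (C₁ + 1) * 3 ^ hd E)) 3
      (by norm_num : (0 : ℝ) < 1 / 8)).and
    ((ev_sqrt_s4d 1 1 (one_div_pos.2 K2)).and ((ev_sqrt_s4d 12 1 h53).and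
    ((ev_sqrt_s4d (12 * Cn / Cd) (p + 2) h53).and ((ev_pow_s3 16 (p + 3) one_pos).and
    ((ev_pow_s3 1 (2 * p + 4) h12).and ((ev_pow_s3 1 8 one_pos).and
    ((ev_pow_s3 4096 2 two_pos).and
    (ev_pow_s3 (2 * Cw * (13 + 13 * C₃ + 94 * finrank ℝ E)) 3 one_pos))))))))))))
  refine ⟨C₃, (4 ^ hd E + 1) * (2 * (Cd * (Cs * K)) + 1 + (C₃ + finrank ℝ E + 2) + 6 * CE +
      finrank ℝ E * ((|C₁| + 1) * 2 ^ hd E) + 2 * finrank ℝ E + 2 * 2 ^ hd E + 1) +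
      (1 + 2 * C₃ + finrank ℝ E) * (2 * ((|C₁| + 1) * 2 ^ hd E) + 4) + 1, L₀, hC₃, by positivity,
    fun L hL D ff Γ κ h hκ t T t1 t2 T0 T1 y e hy he => ?_⟩
  obtain ⟨c0, c1, c2, c3, c4, c5, c6, c7, c8, c9, c10, c11⟩ := hL₀ L hL
  have C0 := h.C₁_nonneg
  have p2 : (0 : ℝ) < 2 ^ hd E := by positivity
  have m1 : (1 : ℝ) ≤ finrank ℝ E := by exact_mod_cast hm1
  have z0 : 0 < 2 ^ finrank ℝ E * Real.exp (1 / 4) := by positivity
  have z1 : 2 ^ finrank ℝ E * Real.exp (1 / 4) ≤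
      finrank ℝ E * (C₁ + 1) * (2 ^ finrank ℝ E * Real.exp (1 / 4)) :=
    le_mul_of_one_le_left z0.le (one_le_mul_of_one_le_of_one_le m1 (by linarith))
  rw [abs_of_nonneg C0] at c0
  have z2 := abs_nonneg Ld
  obtain ⟨L22, f1, f2, f3, f4, f5⟩ : 22 ≤ L ∧ |Ld| ≤ L ∧ 4 * Cs ≤ L ∧ 64 * Cw ≤ L ∧
      9 * 2 ^ hd E ≤ L ∧
      2 * (finrank ℝ E * (C₁ + 1) * (2 ^ finrank ℝ E * Real.exp (1 / 4))) ≤ L := by
    refine ⟨?_, ?_, ?_, ?_, ?_, ?_⟩ <;> linarith only [c0, z0, z1, z2, p2, hCs, hCw]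
  clear c0 z2 hL₀ hL
  have L0 : 0 < L := by linarith
  have L1 : 1 ≤ L := by linarith
  have Le : L ≤ Real.exp L := by linarith [Real.add_one_le_exp L]
  have r := rho_sq_pos_s3 L
  have t0 : 0 < t := r.trans_le t1
  have T' : 0 < T := (Real.exp_pos _).trans_le T0
  have sq0 : 0 < √L := Real.sqrt_pos.2 L0
  have sq1 : √L ≤ L := Real.sqrt_le_self_iff.2 (Or.inr L1)
  have t3 : t ≤ Real.exp (-5 * L) :=
    (le_mul_of_one_le_right t0.le (Real.one_le_exp (by linarith))).trans t2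
  have t4 : 0 < t * Real.exp (2 * √L) := by positivity
  have t5 : t ≤ T := t3.trans ((Real.exp_le_exp.2 (by linarith)).trans T0)
  have T2 : 16 * T ≤ tm L := (mul_le_mul_of_nonneg_left T1 (by norm_num)).trans
    (exp_cmp_s4d (c := L) (by linarith) (by linarith))
  have s6 : Real.exp (-5 * L) ≤ 1 := Real.exp_le_one_iff.2 (by linarith)
  have tm1 : tm L ≤ 1 := Real.exp_le_one_iff.2 (by linarith)
  have lg : 1 ≤ Real.log L := by
    rw [Real.le_log_iff_exp_le L0]; linarith [Real.exp_one_lt_three]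
  obtain ⟨lam, hl⟩ : ∃ lam, lam = Real.log L / √L := ⟨_, rfl⟩
  have l0 : 0 < lam := by rw [hl]; positivity
  have l1 : 1 ≤ lam * L := by
    rw [hl, div_mul_eq_mul_div, le_div_iff₀ sq0]
    linarith [mul_le_mul_of_nonneg_right lg L0.le]
  have l2 : (Cs + Cd) * (Cs * K * lam) ≤ 1 := by
    rw [pow_one, one_mul, ← Real.log_le_iff_le_exp L0, one_div_mul_eq_div, le_div_iff₀ K2] at c4
    rw [hl, ← mul_div_assoc, ← mul_div_assoc, div_le_one sq0]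
    linarith
  have a0 : 0 < Cs * K * lam := by positivity
  have a1 : 0 ≤ Cs * (Cs * K * lam) := by positivity
  have a2 : 0 ≤ Cd * (Cs * K) * lam := by positivity
  have k0 : 0 < kz L := Real.exp_pos _
  have k1 : kz L ≤ (L ^ (2 * p + 4))⁻¹ := by
    have := exp_inv_s4d (a := -L / 2) (by positivity) c8 (by linarith)
    rwa [one_mul] at this
  have k2 : kz L ≤ (L ^ q)⁻¹ / T := by
    refine k1.trans ((inv_anti₀ (by positivity)
      (pow_le_pow_right₀ L1 (show q ≤ 2 * p + 4 by omega))).trans ?_)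
    exact le_div_self (by positivity) T' (by linarith)
  have fl0 : 0 < (L ^ p)⁻¹ := by positivity
  rw [← hl]
  refine h.final_s4d (dh := (L ^ (q + 3))⁻¹) (CE := CE) (Ka := Cd * (Cs * K)) hm1 hκ L1
    (by linarith) rfl (by positivity) l0.le t0 t4 (by linarith) (by linarith) hCw.le (by linarith)
    hCE.le k2 (le_trans ?_ k2) he (by linarith) ?_
    (hw _ _ (rho L ^ 2) (Real.exp (-5 * L)) (9 / 4) (1 / 8) (L ^ 4) T 0
      ((h.bm_fS4 C₃ t0 e).neg.sub (h.bm_gS4 C₃ _ _ t0 t4))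
      (h.abs_f_le_s4d hm1 L1 (by linarith) a2 (by linarith) t0 t4 he) r (t1.trans t3)
      (one_le_pow₀ L1) ?_ (by norm_num) ?_ (fun x hx => ?_) y (by rw [sub_zero]; linarith))
  · have e1 : Real.exp (-L ^ 4) ≤ ng L := Real.exp_le_exp.2 (by
      have : 2 ≤ L ^ 2 := le_trans (by linarith) (le_self_pow₀ L1 (by norm_num))
      linarith [mul_le_mul_of_nonneg_right this (sq_nonneg L)])
    have e2 : Real.exp (-((1 / 8) ^ 2 / (32 * T))) ≤ ng L := Real.exp_le_exp.2 (by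
      have := exp_cmp_s4d (a := -2 * L) (b := 0) c10 (by linarith)
      rw [Real.exp_zero] at this
      have : 2 * L ^ 2 ≤ (1 / 8) ^ 2 / (32 * T) := by
        rw [le_div_iff₀ (by positivity)]
        linarith [mul_le_mul_of_nonneg_left T1 (show 0 ≤ 4096 * L ^ 2 by positivity)]
      linarith)
    have e3 := exp_cmp_s4d (a := 10 * L + -2 * L ^ 2) (b := -L / 2) c11
      (by linarith only [L0, mul_le_mul_of_nonneg_left L22 L0.le])
    rw [Real.exp_add] at e3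
    have g0 : 0 < big L := Real.exp_pos _
    have e4 := mul_le_mul_of_nonneg_left (add_le_add e1 e2)
      (show 0 ≤ Cw * ((13 + 13 * C₃ + 94 * finrank ℝ E) * L ^ 3 * big L) by positivity)
    unfold big ng at e4
    unfold big kz
    linarith
  · have e1 := hE L D ff Γ _ κ h L1 hκ (L ^ (q + 3))⁻¹ t (4 * T) y (by positivity) t0
      (by linarith) (by linarith) (by linarith)
    refine (mul_le_mul_of_nonneg_left e1 (by positivity)).trans ?_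
    have e2 : L ^ 3 * (CE * (L ^ (q + 3))⁻¹ / (4 * T)) = CE * ((L ^ q)⁻¹ / T) / 4 := by
      field_simp
      ring
    rw [e2]
    exact div_le_self (by positivity) (by norm_num)
  · rw [show (L ^ 4) ^ 2 = 1 * L ^ 8 by ring]
    exact (exp_cmp_s4d c9 (by linarith)).trans T0
  · have := exp_cmp_s4d (K := 64 * Cw) (a := -5 * L) (b := 0) (c := L) (by linarith) (by linarith)
    rw [Real.exp_zero] at this
    linarith
  rw [sub_zero] at hx
  by_cases hg : ∀ s, rho L ^ 2 ≤ s → s ≤ 6 * L * t → tt D.T x s ≤ (L ^ p)⁻¹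
  · have e1 : (2 * L) ^ finrank ℝ E * Real.exp (1 / 4) * (L ^ p)⁻¹ =
        2 ^ finrank ℝ E * Real.exp (1 / 4) / L * (((L ^ (q + 5))⁻¹) ^ 2 * (L ^ A)⁻¹) := by
      rw [hp]
      field_simp
      ring
    have e2 : ((L ^ (q + 5))⁻¹) ^ 2 ≤ 1 :=
      pow_le_one₀ (by positivity) (inv_le_one_of_one_le₀ (one_le_pow₀ L1))
    have e3 : (L ^ A)⁻¹ ≤ 1 := inv_le_one_of_one_le₀ (one_le_pow₀ L1)
    refine ⟨_, ⟨le_rfl, t1.trans t3⟩, h.good_s4c (A₀ := (L ^ (q + 5))⁻¹) hm1 hκ L1 (by linarith)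
      (by positivity) a2 (by positivity) t1 t3 (by linarith) t4 ?_ ?_ ?_ ?_ ?_ he hx hg⟩
    · rw [e1]
      exact (mul_le_of_le_one_left (by positivity) ((div_le_one L0).2 (by linarith))).trans
        (mul_le_of_le_one_left (by positivity) e2)
    · have u1 := exp_inv_s4d (a := -L / 2) (by positivity) c1 (by linarith)
      rw [mul_comm 2 (q + 5), pow_mul, ← inv_pow] at u1
      have u2 : finrank ℝ E * (C₁ + 1) * (2 ^ finrank ℝ E * Real.exp (1 / 4) / L) ≤ 1 / 2 := by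
        rw [← mul_div_assoc, div_le_iff₀ L0]
        linarith
      have u3 := mul_le_mul u2 (mul_le_of_le_one_right (sq_nonneg (L ^ (q + 5))⁻¹) e3)
        (by positivity) (by norm_num)
      rw [e1]
      unfold kz
      linarith
    · have u1 : (L ^ (q + 3))⁻¹ = (L ^ (q + 5))⁻¹ * (L * L) := by field_simp; ring
      have u2 : 3 * 2 ^ hd E * (2 + L) ≤ L * L := by
        linarith [mul_le_mul_of_nonneg_right (show 9 * 2 ^ hd E ≤ L by linarith) L0.le,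
          mul_le_mul_of_nonneg_left L1 p2.le]
      rw [u1]
      linarith [mul_le_mul_of_nonneg_left u2 (show 0 ≤ (L ^ (q + 5))⁻¹ by positivity)]
    · have := exp_cmp_s4d (a := -6 * L) (b := 0) c2 (by linarith)
      rw [Real.exp_zero] at this
      rw [rho_sq_s4d]
      linarith
    · linarith [exp_inv_s4d (a := -(L / 8)) (by positivity) c3 (by linarith)]
  push Not at hg
  obtain ⟨s₁, u1, u2, hg⟩ := hg
  have ex : Real.exp (5 / 3 * √L) * Real.exp (√L / 3) = Real.exp (2 * √L) := by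
    rw [← Real.exp_add]; congr 1; ring
  have w1 : 2 * s₁ * Real.exp (√L / 3) ≤ 12 * L * (t * Real.exp (√L / 3)) := by
    linarith [mul_le_mul_of_nonneg_right u2 (Real.exp_pos (√L / 3)).le]
  have w0 : 0 ≤ t * Real.exp (√L / 3) := by positivity
  have w2 : 2 * s₁ * Real.exp (√L / 3) ≤ Real.exp (-5 * L) := by
    rw [← ex] at t2
    linarith [mul_le_mul_of_nonneg_right c5 w0]
  obtain ⟨s, ⟨s1, s2⟩, s3, s4⟩ := hst _ _ _ _ _ _ _ h.st x s₁ _ (Cs * K * lam) (√L / 3) fl0 hg.le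
    u1 a0 (by linarith) (by linarith) (w2.trans s6) (by
      have e1 : Cs * K * lam * (√L / 3) / Cs = ((p + 2 : ℕ) : ℝ) * Real.log L := by
        rw [hl, hK]; field_simp
      have e2 : (L ^ p)⁻¹ * L ^ (p + 2) = L * L := by field_simp; ring
      rw [e1, Real.exp_nat_mul, Real.exp_log L0, rho, Real.log_exp, abs_of_neg (by linarith), e2]
      linarith [mul_le_mul_of_nonneg_right (show 4 * Cs ≤ L by linarith) L0.le,
        mul_le_mul_of_nonneg_left L1 (show 0 ≤ Cs by linarith)])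
  have s9 := s2.trans w2
  have s0 : rho L ^ 2 ≤ s := by linarith
  refine ⟨s, ⟨s0, s9⟩, h.dense_s4d L1 (by linarith) t0 t4 (by linarith)
    ((hdp L (by linarith [le_abs_self Ld]) D ff Γ Q _ κ h x s (L ^ (p + 3)) (by linarith) s0
      (one_le_pow₀ L1) ?_).2 e he) ?_⟩
  · exact (mul_le_mul_of_nonneg_left s9 (by positivity)).trans (exp_cmp_s4d c7 (by linarith))
  rw [← hCn]
  obtain ⟨u, hu⟩ : ∃ u, u = (L ^ (p + 1))⁻¹ := ⟨_, rfl⟩
  have u0 : 0 < u := by rw [hu]; positivity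
  have d1 : kz L * L ^ (p + 3) * s ≤ u := by
    refine (mul_le_of_le_one_right (by positivity) (s9.trans s6)).trans
      ((mul_le_mul_of_nonneg_right k1 (by positivity)).trans (le_of_eq ?_))
    rw [hu]; field_simp; ring
  have d2 : L / L ^ (p + 3) ≤ u := by
    rw [hu, ← one_div, div_le_div_iff₀ (by positivity) (by positivity), one_mul, ← pow_succ']
    exact pow_le_pow_right₀ L1 (by omega)
  have d3 : s * (Cn / (t * Real.exp (2 * √L))) ≤ Cd * u := by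
    rw [hu, ← mul_div_assoc, ← div_eq_mul_inv, div_le_div_iff₀ t4 (by positivity), ← ex]
    rw [div_mul_eq_mul_div, div_le_iff₀ hCd, pow_succ] at c6
    linarith [mul_le_mul_of_nonneg_right c6 w0,
      mul_le_mul_of_nonneg_right (s2.trans w1) (show 0 ≤ Cn * L ^ (p + 1) by positivity)]
  have d4 : 3 * u ≤ Cs * K * lam * ZZ D.T x s := by
    have v1 : u * L = (L ^ p)⁻¹ := by rw [hu]; field_simp; ring
    have v2 := mul_le_mul_of_nonneg_left s4 (show 0 ≤ K * lam by positivity)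
    have v3 := mul_le_mul K3 l1 zero_le_one (by linarith)
    rw [← v1] at v2
    linarith [mul_le_mul_of_nonneg_right v3 u0.le]
  linarith [mul_le_mul_of_nonneg_left (add_le_add (add_le_add s3 d1) d2) hCd.le,
    mul_le_mul_of_nonneg_left d4 hCd.le]

end Pool.Agent.Lib.MP_8daebb_an.AS
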