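import Pool.Agent.Lib.MP_8daebb_an.AS.S4m
import Pool.Agent.Lib.MP_8daebb_an.AS.Bas2
import Pool.Agent.Lib.MP_8daebb_an.PR.Pair

/-! Rescaled potentials for the pair estimate. -/

open MeasureTheory Metric Set Module Filter
open scoped RealInnerProductSpace

namespace Pool.Agent.Lib.MP_8daebb_an.AS

open HK

variable {E : Type*} [NormedAddCommGroup E] [InnerProductSpace ℝ E] [FiniteDimensional ℝ E]
  [MeasurableSpace E] [BorelSpace E]

theorem integral_scale_s7 (f : E → ℝ) (o : E) {l : ℝ} (hl : 0 < l) :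
    ∫ y, f (o + l • y) = (l ^ finrank ℝ E)⁻¹ * ∫ x, f x := by
  rw [Measure.integral_comp_smul_of_nonneg volume (fun x => f (o + x)) l (hR := hl.le),
    integral_add_left_eq_self f o, smul_eq_mul]

theorem P_scale_s7 (f : E → ℝ) (o : E) {l s : ℝ} (hl : 0 < l) (hs : 0 < s) (y : E) :
    P s (fun y => f (o + l • y)) y = P (l ^ 2 * s) f (o + l • y) := by
  have hp : 0 < l ^ finrank ℝ E := by positivity
  have e : l ^ (-(2 * hd E)) = (l ^ finrank ℝ E)⁻¹ := by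
    rw [Real.rpow_neg hl.le, ← Real.rpow_natCast, hd]; congr 2; ring
  have h1 := integral_scale_s7 (fun x => G (l ^ 2 * s) (x - (o + l • y)) * f x) o hl
  have h2 : ∀ w, G (l ^ 2 * s) (o + l • w - (o + l • y)) = (l ^ finrank ℝ E)⁻¹ * G s (w - y) :=
    fun w => by
      rw [add_sub_add_left_eq_sub, ← smul_sub, G_smul (by positivity) hl, e,
        mul_div_cancel_left₀ _ (by positivity)]
  simp only [h2, mul_assoc, integral_const_mul] at h1
  exact mul_left_cancel₀ (inv_pos.2 hp).ne' h1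

theorem setIntegral_scale_s7 {f g : E → ℝ} (hg : BM g) (h0 : ∀ y, 0 ≤ g y) {o : E} {l K : ℝ}
    (hl : 0 < l) (hK : 0 ≤ K) {A S : Set E} (hA : MeasurableSet A) (hS : MeasurableSet S)
    (hb : Bornology.IsBounded S) (hf0 : ∀ y, 0 ≤ f y)
    (hAS : ∀ y ∈ A, o + l • y ∈ S ∧ f y ≤ K * (l ^ 2 * g (o + l • y))) {M : ℝ}
    (hM : ∫ x in S, g x ≤ M * pk E l) : ∫ y in A, f y ≤ K * M := by
  have hi : Integrable (S.indicator g) := ind_int_bas2 hg hS hb
  have hi' : Integrable fun y => S.indicator g (o + l • y) :=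
    (hi.comp_add_left o).comp_smul hl.ne'
  have hp : 0 < l ^ finrank ℝ E := by positivity
  calc _ = ∫ y, A.indicator f y := (integral_indicator hA).symm
    _ ≤ ∫ y, K * (l ^ 2 * S.indicator g (o + l • y)) := by
        refine integral_mono_of_nonneg (.of_forall (indicator_nonneg fun y _ => hf0 y))
          ((hi'.const_mul _).const_mul _) (.of_forall fun y => ?_)
        by_cases hy : y ∈ A
        · simp only [indicator_of_mem hy, indicator_of_mem (hAS y hy).1]; exact (hAS y hy).2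
        · simp only [indicator_of_notMem hy]
          exact mul_nonneg hK (mul_nonneg (sq_nonneg _) (indicator_nonneg (fun y _ => h0 y) _))
    _ = K * (l ^ 2 * ((l ^ finrank ℝ E)⁻¹ * ∫ x in S, g x)) := by
        rw [integral_const_mul, integral_const_mul, integral_scale_s7 (S.indicator g) o hl,
          integral_indicator hS]
    _ ≤ K * (l ^ 2 * ((l ^ finrank ℝ E)⁻¹ * (M * pk E l))) := by gcongr
    _ = _ := by rw [← pk_mul (E := E) hl]; field_simp [(pk_pos (E := E) hl).ne']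

omit [FiniteDimensional ℝ E] [MeasurableSpace E] [BorelSpace E] in
theorem fderiv_scale_s7 {f : E → ℝ} (hf : Differentiable ℝ f) (o : E) (l : ℝ) (y : E) :
    fderiv ℝ (fun y => f (o + l • y)) y = l • fderiv ℝ f (o + l • y) := by
  have h1 : HasFDerivAt (fun y : E => o + l • y) (l • ContinuousLinearMap.id ℝ E) y :=
    ((hasFDerivAt_id y).const_smul l).const_add o
  have h2 := (hf (o + l • y)).hasFDerivAt.comp y h1
  have h3 : (fun y => f (o + l • y)) = f ∘ fun y : E => o + l • y := rfl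
  rw [h3, h2.fderiv]
  ext v
  simp

theorem sum_weight_s7 (a : ℕ → ℝ) (Q : ℕ) :
    ∑ j ∈ Finset.range Q, ((Q : ℝ) - j) * (a (j + 1) - a j) =
      ∑ j ∈ Finset.range (Q + 1), a j - (Q + 1) * a 0 := by
  induction Q with
  | zero => simp
  | succ Q ih =>
    have h1 := Finset.sum_range_sub a (Q + 1)
    have h2 : ∑ j ∈ Finset.range (Q + 1), (((Q + 1 : ℕ) : ℝ) - j) * (a (j + 1) - a j) =
        ∑ j ∈ Finset.range (Q + 1), ((Q : ℝ) - j) * (a (j + 1) - a j) +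
          ∑ j ∈ Finset.range (Q + 1), (a (j + 1) - a j) := by
      rw [← Finset.sum_add_distrib]
      exact Finset.sum_congr rfl fun j _ => by push_cast; ring
    rw [h2, h1, Finset.sum_range_succ, ih, Finset.sum_range_succ a (Q + 1)]
    push_cast; ring

theorem norm_sum_sq_s7 {F κ : Type*} [NormedAddCommGroup F] [NormedSpace ℝ F] [Fintype κ]
    (c : κ → ℝ) (v : κ → F) {K : ℝ} (hc : ∀ p, |c p| ≤ K) :
    ‖∑ p, c p • v p‖ ^ 2 ≤ Fintype.card κ * K ^ 2 * ∑ p, ‖v p‖ ^ 2 := by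
  have h1 : ‖∑ p, c p • v p‖ ≤ ∑ p, K * ‖v p‖ :=
    (norm_sum_le _ _).trans (Finset.sum_le_sum fun p _ => by
      rw [norm_smul, Real.norm_eq_abs]; gcongr; exact hc p)
  refine (pow_le_pow_left₀ (norm_nonneg _) h1 2).trans (sq_sum_le_card_mul_sum_sq.trans ?_)
  simp only [mul_pow, ← Finset.mul_sum, Finset.card_univ]
  exact (mul_assoc _ _ _).ge

variable {ι : Type*} [Fintype ι]

/-- rescaled sheet functions -/
noncomputable def us (D : Dat E ι) (Q : ℕ) (t : ℝ) (o : E) (l : ℝ) (p : ι × Fin Q) (y : E) : ℝ :=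
  P t (D.u p.1 p.2) (o + l • y)

/-- the weights -/
def cfs (ι : Type*) (Q : ℕ) (p : ι × Fin Q) : ℝ := Q - p.2

/-- rescaled total potential -/
noncomputable def Vs (D : Dat E ι) (Q : ℕ) (t : ℝ) (o : E) (l : ℝ) (y : E) : ℝ :=
  ∑ p, cfs ι Q p * us D Q t o l p y

/-- rescaled error -/
noncomputable def Γs (ι : Type*) [Fintype ι] (Γ : E → ℝ) (Q : ℕ) (t : ℝ) (o : E) (l : ℝ) (y : E) :
    ℝ := Fintype.card ι * (Q + 1) * (l ^ 2 * P t Γ (o + l • y))

omit [Fintype ι] in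
theorem abs_cfs_le (Q : ℕ) (p : ι × Fin Q) : |cfs ι Q p| ≤ Q := by
  have h1 : ((p.2 : ℕ) : ℝ) ≤ Q := by exact_mod_cast p.2.2.le
  have h2 : (0 : ℝ) ≤ (p.2 : ℕ) := Nat.cast_nonneg _
  unfold cfs
  rw [abs_le]; constructor <;> linarith

theorem sum_prod_s7 {Q : ℕ} (F : ι → ℕ → ℝ) :
    ∑ p : ι × Fin Q, F p.1 p.2 = ∑ i, ∑ j ∈ Finset.range Q, F i j := by
  rw [Fintype.sum_prod_type]
  exact Finset.sum_congr rfl fun i _ => (Finset.sum_range (F i)).symm

namespace GS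

variable {D : Dat E ι} {ff Γ : E → ℝ} {Q : ℕ} {C₁ L η κ t l : ℝ} {o : E}
  (h : GS D ff Γ Q C₁ L η κ)
include h

theorem cb_us (ht : 0 < t) (n : ℕ) (p : ι × Fin Q) : PR.Cb n (us D Q t o l p) :=
  (PR.cb_P (h.bm_u _ _) n ht).comp_affine o l

theorem cb_Vs (ht : 0 < t) (n : ℕ) : PR.Cb n (Vs D Q t o l) :=
  PR.Cb.sum _ fun p _ => (h.cb_us ht n p).const_mul _

theorem cb_Γs (ht : 0 < t) (n : ℕ) : PR.Cb n (Γs ι Γ Q t o l) :=
  (((PR.cb_P h.bm_Γ n ht).comp_affine o l).const_mul _).const_mul _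

theorem Γs_nonneg (ht : 0 < t) (y : E) : 0 ≤ Γs ι Γ Q t o l y :=
  mul_nonneg (by positivity) (mul_nonneg (sq_nonneg _) (P_nonneg ht.le h.Γ_nonneg _))

theorem lap_us (ht : 0 < t) (p : ι × Fin Q) (y : E) : lap (us D Q t o l p) y =
    l ^ 2 * (lap (P t (D.U p.1 (p.2 + 1))) (o + l • y) - lap (P t (D.U p.1 p.2)) (o + l • y)) := by
  rw [← lap_sub (contDiff_P_two (h.bm_U _ _) ht) (contDiff_P_two (h.bm_U _ _) ht),
    ← PR.lap_comp_affine ((contDiff_P_two (h.bm_U _ _) ht).sub (contDiff_P_two (h.bm_U _ _) ht))]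
  congr 1
  funext w
  exact P_sub (h.bm_U _ _) (h.bm_U _ _) ht _

theorem chg_eq (ht : 0 < t) (y : E) : PR.chg (Vs D Q t o l) (Γs ι Γ Q t o l) y =
    l ^ 2 * ∑ i, ∑ j ∈ Finset.range (Q + 1),
      (lap (P t (D.U i j)) (o + l • y) + P t Γ (o + l • y)) := by
  have h0 : ∀ i x, lap (P t (D.U i 0)) x = 0 := fun i x => by
    rw [show P t (D.U i 0) = fun _ => 0 from funext fun w => by
      rw [show D.U i 0 = fun _ => 0 from funext (h.U_zero i), P_const ht], lap_const]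
  unfold PR.chg Vs Γs
  rw [PR.lap_sum_mul _ _ fun p _ => (h.cb_us ht 2 p).contDiff]
  simp only [h.lap_us ht, cfs]
  rw [sum_prod_s7 fun i j => ((Q : ℝ) - j) * (l ^ 2 *
    (lap (P t (D.U i (j + 1))) (o + l • y) - lap (P t (D.U i j)) (o + l • y)))]
  have h1 := fun i => sum_weight_s7 (fun j => lap (P t (D.U i j)) (o + l • y)) Q
  simp only [h0, mul_zero, sub_zero] at h1
  simp only [mul_left_comm _ (l ^ 2), ← Finset.mul_sum, h1, Finset.sum_add_distrib,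
    Finset.sum_const, Finset.card_range, Finset.card_univ, nsmul_eq_mul]
  push_cast; ring

theorem chg_nonneg (ht : 0 < t) (y : E) : 0 ≤ PR.chg (Vs D Q t o l) (Γs ι Γ Q t o l) y := by
  rw [h.chg_eq ht]
  exact mul_nonneg (sq_nonneg _) (Finset.sum_nonneg fun i _ => Finset.sum_nonneg fun j hj =>
    h.lap_P_U ht i (Nat.lt_succ_iff.1 (Finset.mem_range.1 hj)) _)

theorem abs_lap_us_le (ht : 0 < t) (p : ι × Fin Q) (y : E) :
    |lap (us D Q t o l p) y| ≤ PR.chg (Vs D Q t o l) (Γs ι Γ Q t o l) y := by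
  rw [h.chg_eq ht, h.lap_us ht, abs_mul, abs_of_nonneg (sq_nonneg l)]
  refine mul_le_mul_of_nonneg_left ?_ (sq_nonneg l)
  set ν : ι → ℕ → ℝ := fun i j => lap (P t (D.U i j)) (o + l • y) + P t Γ (o + l • y) with hν
  have n0 : ∀ i, ∀ j ∈ Finset.range (Q + 1), 0 ≤ ν i j := fun i j hj =>
    h.lap_P_U ht i (Nat.lt_succ_iff.1 (Finset.mem_range.1 hj)) _
  have hp := p.2.2
  have m1 : (p.2 : ℕ) + 1 ∈ Finset.range (Q + 1) := Finset.mem_range.2 (by omega)
  have m2 : (p.2 : ℕ) ∈ Finset.range (Q + 1) := Finset.mem_range.2 (by omega)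
  have h1 := Finset.single_le_sum (n0 p.1) m1
  have h2 := Finset.single_le_sum (n0 p.1) m2
  have h3 := Finset.single_le_sum (f := fun i => ∑ j ∈ Finset.range (Q + 1), ν i j)
    (fun i _ => Finset.sum_nonneg (n0 i)) (Finset.mem_univ p.1)
  have h4 := n0 p.1 _ m1
  have h5 := n0 p.1 _ m2
  change _ ≤ ∑ i, ∑ j ∈ Finset.range (Q + 1), ν i j
  simp only [hν] at h1 h2 h3 h4 h5 ⊢
  rw [abs_le]; constructor <;> linarith

theorem fderiv_us (ht : 0 < t) (p : ι × Fin Q) (y : E) :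
    fderiv ℝ (us D Q t o l p) y = l • fderiv ℝ (P t (D.u p.1 p.2)) (o + l • y) :=
  fderiv_scale_s7 (differentiable_P (h.bm_u _ _) ht) o l y

theorem fderiv_Vs (ht : 0 < t) (y : E) : fderiv ℝ (Vs D Q t o l) y =
    ∑ p : ι × Fin Q, (cfs ι Q p * l) • fderiv ℝ (P t (D.u p.1 p.2)) (o + l • y) := by
  have hd : ∀ p, DifferentiableAt ℝ (us D Q t o l p) y := fun p => (h.cb_us ht 1 p).2.1 y
  unfold Vs
  rw [fderiv_fun_sum fun p _ => (hd p).const_mul _]
  refine Finset.sum_congr rfl fun p _ => ?_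
  rw [fderiv_const_mul (hd p), h.fderiv_us ht, smul_smul]

theorem norm_fderiv_Vs_comp (ht : 0 < t) (hl : 0 < l) (A : E →L[ℝ] E) (y : E) :
    ‖(fderiv ℝ (Vs D Q t o l) y).comp A‖ ^ 2 ≤ Fintype.card ι * Q ^ 3 * (l ^ 2 *
      ∑ i, ∑ j ∈ Finset.range Q, ‖(fderiv ℝ (P t (D.u i j)) (o + l • y)).comp A‖ ^ 2) := by
  rw [h.fderiv_Vs ht, ContinuousLinearMap.finsetSum_comp]
  simp only [ContinuousLinearMap.smul_comp]
  refine (norm_sum_sq_s7 _ _ (K := Q * l) fun p => ?_).trans (le_of_eq ?_)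
  · rw [abs_mul, abs_of_pos hl]; gcongr; exact abs_cfs_le Q p
  · rw [sum_prod_s7 fun i j => ‖(fderiv ℝ (P t (D.u i j)) (o + l • y)).comp A‖ ^ 2]
    simp only [Fintype.card_prod, Fintype.card_fin]
    push_cast; ring

theorem norm_fderiv_Vs (ht : 0 < t) (hl : 0 < l) (y : E) :
    ‖fderiv ℝ (Vs D Q t o l) y‖ ^ 2 ≤ Fintype.card ι * Q ^ 3 *
      (l ^ 2 * (P t D.τ (o + l • y) + finrank ℝ E * P t Γ (o + l • y))) := by
  have h1 := h.norm_fderiv_Vs_comp (o := o) ht hl (ContinuousLinearMap.id ℝ E) y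
  simp only [ContinuousLinearMap.comp_id] at h1
  rw [← h.sm_en ht] at h1
  refine h1.trans ?_
  gcongr
  exact h.sm_en_le' ht _

theorem norm_fderiv_Vs_par (ht : 0 < t) (hl : 0 < l) (W : Submodule ℝ E) (y : E) :
    ‖(fderiv ℝ (Vs D Q t o l) y).comp (PR.pa W)‖ ^ 2 ≤ Fintype.card ι * Q ^ 3 *
      (l ^ 2 * (P t (τpar W D.T) (o + l • y) + finrank ℝ E * P t Γ (o + l • y))) := by
  refine (h.norm_fderiv_Vs_comp ht hl _ y).trans ?_
  gcongr
  exact h.sm_par_le W ht _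

theorem abs_Vs_le (ht : 0 < t) (y : E) :
    |Vs D Q t o l y| ≤ Fintype.card ι * Q ^ 2 * (2 * C₁) := by
  refine (Finset.abs_sum_le_sum_abs _ _).trans ((Finset.sum_le_sum
    (g := fun _ => Q * (2 * C₁)) fun p _ => ?_).trans (le_of_eq ?_))
  · rw [abs_mul]
    exact mul_le_mul (abs_cfs_le Q p) (abs_P_le_const ht (h.abs_u_le p.1 p.2.2) _) (abs_nonneg _)
      (Nat.cast_nonneg _)
  · simp; ring

theorem P_Γs (ht : 0 < t) (hl : 0 < l) {s : ℝ} (hs : 0 < s) (y : E) :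
    P s (Γs ι Γ Q t o l) y =
      Fintype.card ι * (Q + 1) * (l ^ 2 * P (l ^ 2 * s + t) Γ (o + l • y)) := by
  unfold Γs
  rw [P_const_mul, P_const_mul, P_scale_s7 _ o hl hs, P_P h.bm_Γ (by positivity) ht]

theorem P_us (ht : 0 < t) (hl : 0 < l) {s : ℝ} (hs : 0 < s) (p : ι × Fin Q) :
    P s (us D Q t o l p) = us D Q (l ^ 2 * s + t) o l p := by
  funext y
  unfold us
  rw [P_scale_s7 _ o hl hs, P_P (h.bm_u _ _) (by positivity) ht]

theorem norm_fderiv_us (ht : 0 < t) (p : ι × Fin Q) (y : E) :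
    ‖fderiv ℝ (us D Q t o l p) y‖ ^ 2 ≤
      l ^ 2 * (P t D.τ (o + l • y) + finrank ℝ E * P t Γ (o + l • y)) := by
  rw [h.fderiv_us ht, norm_smul, mul_pow, Real.norm_eq_abs, sq_abs]
  refine mul_le_mul_of_nonneg_left (le_trans ?_ (h.sm_en_le' ht _)) (sq_nonneg l)
  rw [← h.sm_u ht]
  exact (D.sm t).norm_sq_le_en p.1 p.2.2 _

theorem P_chg_le (ht : 0 < t) {s : ℝ} (hs : 0 < s) (y : E) :
    P s (PR.chg (Vs D Q t o l) (Γs ι Γ Q t o l)) y ≤
      (2 + hd E) * 2 ^ hd E * (Fintype.card ι * Q ^ 2 * (2 * C₁)) / s +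
        P s (Γs ι Γ Q t o l) y := by
  unfold PR.chg
  rw [P_add (PR.Cb.lap (n := 0) (h.cb_Vs ht 2)).bm (h.cb_Γs ht 0).bm hs,
    ← PR.lap_P_cb (h.cb_Vs ht 2) hs]
  have h1 := abs_lap_P_le (h.cb_Vs (o := o) (l := l) ht 0).bm (BM.const _) (h.abs_Vs_le ht) hs y
  rw [P_const (by positivity)] at h1
  have h2 := (le_abs_self _).trans h1
  rw [div_mul_eq_mul_div] at h2
  linarith

end GS

end Pool.Agent.Lib.MP_8daebb_an.AS
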