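import Pool.Agent.Lib.MP_8daebb_an.AS.S7pa

/-! The hypotheses of the pair estimate for the rescaled potentials. -/

open MeasureTheory Metric Set Module Filter
open scoped RealInnerProductSpace

namespace Pool.Agent.Lib.MP_8daebb_an.AS

open HK

variable {E : Type*} [NormedAddCommGroup E] [InnerProductSpace ℝ E] [FiniteDimensional ℝ E]
  [MeasurableSpace E] [BorelSpace E]

variable {ι : Type*} [Fintype ι]

/-- Hypotheses on a cell. -/
structure C7 (D : Dat E ι) (ff Γ : E → ℝ) (Q : ℕ) (C₁ L η κ t l a₁ : ℝ) (z x₁ : E)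
    (W : Submodule ℝ E) : Prop where
  gs : GS D ff Γ Q C₁ L η κ
  κ0 : 0 ≤ κ
  t0 : 0 < t
  tts : t < ts L
  l0 : 0 < l
  l5 : l ≤ 1 / 5
  tm : 2 * l ^ 2 + t ≤ tm L
  tρ : t + rho L ^ 2 ≤ l ^ 2
  z_le : ‖z‖ ≤ 3 / 2
  dz : dd W x₁ z ≤ l
  dim : finrank ℝ W + 2 = finrank ℝ E
  par : (∫ y in ball z (5 * l), (τpar W (PT (ts L) D.T) y +
    (dd W x₁ y / l) ^ 2 * τf (PT (ts L) D.T) y)) ≤ a₁ * pk E l

/-- mass of the error in the cell -/
noncomputable def gm7 (D : Dat E ι) (L κ l : ℝ) (z : E) : ℝ :=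
  κ * (cM E * (l ^ 2 * P (16 * l ^ 2) D.τ z)) + kz L * (5 ^ finrank ℝ E * om E)

theorem dd_scale_s7 (W : Submodule ℝ E) (x₁ z y : E) {l : ℝ} (hl : 0 < l) :
    dd W x₁ (z - PR.pe W (z - x₁) + l • y) = l * ‖PR.pe W y‖ := by
  change ‖PR.pe W (z - PR.pe W (z - x₁) + l • y - x₁)‖ = _
  rw [show z - PR.pe W (z - x₁) + l • y - x₁ = (z - x₁) - PR.pe W (z - x₁) + l • y by abel,
    map_add, map_sub (PR.pe W) (z - x₁), PR.pe_pe, sub_self, zero_add, map_smul, norm_smul,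
    Real.norm_of_nonneg hl.le]

namespace C7

variable {D : Dat E ι} {ff Γ : E → ℝ} {Q : ℕ} {C₁ L η κ t l a₁ : ℝ} {z x₁ : E}
  {W : Submodule ℝ E} (h : C7 D ff Γ Q C₁ L η κ t l a₁ z x₁ W)
include h

theorem near {y : E} {R : ℝ} (hy : y ∈ ball (0 : E) R) :
    ‖z - PR.pe W (z - x₁) + l • y - z‖ < (R + 1) * l := by
  rw [show z - PR.pe W (z - x₁) + l • y - z = l • y - PR.pe W (z - x₁) by abel]
  have h1 := norm_sub_le (l • y) (PR.pe W (z - x₁))
  have h2 : ‖PR.pe W (z - x₁)‖ ≤ l := h.dz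
  rw [norm_smul, Real.norm_of_nonneg h.l0.le] at h1
  have h3 := mul_lt_mul_of_pos_left (mem_ball_zero_iff.1 hy) h.l0
  linarith

theorem norm_le {y : E} (hy : y ∈ ball (0 : E) 3) : ‖z - PR.pe W (z - x₁) + l • y‖ ≤ 5 / 2 := by
  have h1 := h.near hy
  have h2 := norm_le_norm_add_norm_sub' (z - PR.pe W (z - x₁) + l • y) z
  linarith [h.z_le, h.l5]

theorem gm_nonneg : 0 ≤ gm7 D L κ l z :=
  add_nonneg (mul_nonneg h.κ0 (mul_nonneg cM_pos.le (mul_nonneg (sq_nonneg _)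
    (P_nonneg (by positivity) h.gs.τ_nonneg z))))
    (mul_nonneg (Real.exp_pos _).le (mul_nonneg (by positivity) om_pos.le))

theorem mass_Γ : ∫ y in ball z (5 * l), P t Γ y ≤ gm7 D L κ l z * pk E l :=
  h.gs.mass_P_Γ h.κ0 h.l0 h.l5 h.t0 (by linarith [h.tm, sq_nonneg l])
    (by linarith [h.tρ, sq_nonneg l]) h.z_le

theorem mass_add {f : E → ℝ} (hf : BM f) {S : Set E} (hS : S ⊆ ball z (5 * l)) {M : ℝ}
    (hM : ∫ y in S, f y ≤ M * pk E l) :
    ∫ y in S, (f y + finrank ℝ E * P t Γ y) ≤ (M + finrank ℝ E * gm7 D L κ l z) * pk E l := by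
  have hb : Bornology.IsBounded S := isBounded_ball.subset hS
  have bΓ := h.gs.bm_Γ.P h.t0
  rw [integral_add (hf.integrableOn hb) ((bΓ.const_mul _).integrableOn hb), integral_const_mul]
  have h1 := mul_le_mul_of_nonneg_left ((setIntegral_le_ball bΓ
    (P_nonneg h.t0.le h.gs.Γ_nonneg) hS).trans h.mass_Γ) (Nat.cast_nonneg (α := ℝ) (finrank ℝ E))
  linarith

theorem par_ge {g : E → ℝ} (hg : BM g) {S : Set E} (hS : MeasurableSet S)
    (hSz : S ⊆ ball z (5 * l)) {c : ℝ} (hc : 0 ≤ c)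
    (hgc : ∀ y ∈ S, g y ≤ c * (P (ts L) (τpar W D.T) y + (dd W x₁ y / l) ^ 2 * P (ts L) D.τ y)) :
    ∫ y in S, g y ≤ c * (a₁ * pk E l) := by
  have hts : 0 < ts L := Real.exp_pos _
  have hp := h.par
  rw [h.gs.st.τpar_PT W hts, h.gs.st.τf_PT hts] at hp
  have b1 := (h.gs.bm_τpar W).P hts
  have b2 := h.gs.bm_τ.P hts
  have hi : IntegrableOn (fun y => P (ts L) (τpar W D.T) y +
      (dd W x₁ y / l) ^ 2 * P (ts L) D.τ y) (ball z (5 * l)) := by
    refine (b1.integrableOn isBounded_ball).add ?_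
    have hc : Continuous fun y => (dd W x₁ y / l) ^ 2 * P (ts L) D.τ y :=
      (((lipschitz_dd W x₁).continuous.div_const l).pow 2).mul (continuous_P h.gs.bm_τ hts)
    exact (hc.continuousOn.integrableOn_compact (isCompact_closedBall z (5 * l))).mono_set
      ball_subset_closedBall
  calc _ ≤ ∫ y in S, c * (P (ts L) (τpar W D.T) y + (dd W x₁ y / l) ^ 2 * P (ts L) D.τ y) :=
        setIntegral_mono_on (hg.integrableOn (isBounded_ball.subset hSz))
          ((hi.mono_set hSz).const_mul c) hS hgc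
    _ ≤ _ := by
        rw [integral_const_mul]
        refine mul_le_mul_of_nonneg_left (le_trans (setIntegral_mono_set hi (.of_forall fun y =>
          add_nonneg (P_nonneg hts.le (h.gs.st.τpar_nonneg W) y) (mul_nonneg (sq_nonneg _)
            (P_nonneg hts.le h.gs.τ_nonneg y))) hSz.eventuallyLE) hp) hc

theorem a₁_nonneg : 0 ≤ a₁ := by
  have h1 := h.par_ge (BM.const 0) MeasurableSet.empty (empty_subset _)
    zero_le_one fun y hy => absurd hy (notMem_empty y)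
  rw [Measure.restrict_empty, integral_zero_measure, one_mul] at h1
  exact nonneg_of_mul_nonneg_left h1 (pk_pos h.l0)

theorem P_Γs_le {s : ℝ} (hs : s ∈ Ioc (0 : ℝ) 2) {y : E} (hy : y ∈ ball (0 : E) 3) :
    P s (Γs ι Γ Q t (z - PR.pe W (z - x₁)) l) y ≤
      Fintype.card ι * (Q + 1) * (κ * C₁ + 3 * kz L) / (s + rho L ^ 2 / l ^ 2) := by
  have hl := h.l0
  have hs0 := hs.1
  have ht := h.t0
  have hρ := h.gs.st.ρ_pos
  have hl2 : 0 < l ^ 2 := by positivity
  have h1 := h.gs.ΓP _ (l ^ 2 * s + t) (h.norm_le hy) (by positivity)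
    (by nlinarith [h.tm, hs.2])
  have h2 := h.gs.P_τ_le (z - PR.pe W (z - x₁) + l • y)
    (show 0 < l ^ 2 * s + t + rho L ^ 2 by positivity)
  have h3 : C₁ / (l ^ 2 * s + t + rho L ^ 2 + rho L ^ 2) ≤ C₁ / (l ^ 2 * s + rho L ^ 2) := by
    gcongr
    · exact h.gs.C₁_nonneg
    · linarith [sq_nonneg (rho L)]
  have h4 : rho L ^ 2 / l ^ 2 ≤ 1 := (div_le_one hl2).2 (by linarith [h.tρ])
  have h5 : l ^ 2 * kz L ≤ 3 * kz L / (s + rho L ^ 2 / l ^ 2) := by
    have hk : 0 < kz L := Real.exp_pos _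
    have h6 : l ^ 2 ≤ 1 := pow_le_one₀ hl.le (by linarith [h.l5])
    rw [le_div_iff₀ (by positivity)]
    have h7 : l ^ 2 * (s + rho L ^ 2 / l ^ 2) ≤ 1 * 3 := by gcongr; linarith [hs.2]
    nlinarith
  rw [h.gs.P_Γs ht hl hs0, mul_div_assoc]
  refine mul_le_mul_of_nonneg_left ?_ (by positivity)
  calc _ ≤ l ^ 2 * (κ * (C₁ / (l ^ 2 * s + rho L ^ 2)) + kz L) := by
        refine mul_le_mul_of_nonneg_left (h1.trans ?_) hl2.le
        linarith [mul_le_mul_of_nonneg_left (h2.trans h3) h.κ0]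
    _ = κ * C₁ / (s + rho L ^ 2 / l ^ 2) + l ^ 2 * kz L := by field_simp
    _ ≤ _ := by rw [add_div]; linarith

theorem norm_fderiv_P_us {s c : ℝ} (hs : 0 < s) (hs1 : s ≤ 1) (hc : 8 ≤ c * s) (p : ι × Fin Q)
    {y : E} (hy : y ∈ ball (0 : E) 2) :
    ‖fderiv ℝ (P s (us D Q t (z - PR.pe W (z - x₁)) l p)) y‖ ^ 2 ≤
      (1 + finrank ℝ E * κ) * (c ^ hd E * (2 ^ hd E * Real.exp 1) *
        (l ^ 2 * P (16 * l ^ 2) D.τ z)) + finrank ℝ E * kz L := by
  have hl := h.l0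
  have ht := h.t0
  have hρ := h.gs.st.ρ_pos
  have hl2 : 0 < l ^ 2 := by positivity
  have hc0 : 0 < c := pos_of_mul_pos_left (show 0 < c * s by linarith) hs.le
  have hx : ‖z - PR.pe W (z - x₁) + l • y - z‖ ≤ 5 * l := by linarith [h.near hy]
  have b1 : l ^ 2 * s ≤ l ^ 2 := mul_le_of_le_one_right hl2.le hs1
  have b2 : 8 * l ^ 2 ≤ c * (l ^ 2 * s) := by nlinarith
  have h1 := P_le_cell h.gs.bm_τ h.gs.τ_nonneg hl (c := c) (s := l ^ 2 * s + t) (by positivity)
    (by nlinarith [h.tρ, sq_nonneg (rho L)]) (by nlinarith) hx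
  have h2 := P_le_cell h.gs.bm_τ h.gs.τ_nonneg hl (c := c) (s := l ^ 2 * s + t + rho L ^ 2)
    (by positivity) (by nlinarith [h.tρ]) (by nlinarith [sq_nonneg (rho L)]) hx
  have h3 := h.gs.ΓP _ (l ^ 2 * s + t) (h.norm_le (ball_subset_ball (by norm_num) hy))
    (by positivity) (by nlinarith [h.tm])
  have h4 : l ^ 2 * kz L ≤ kz L :=
    mul_le_of_le_one_left (Real.exp_pos _).le (pow_le_one₀ hl.le (by linarith [h.l5]))
  rw [h.gs.P_us ht hl hs]
  refine (h.gs.norm_fderiv_us (by positivity) p y).trans ?_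
  have h5 := mul_le_mul_of_nonneg_left (h3.trans (add_le_add_left
    (mul_le_mul_of_nonneg_left h2 h.κ0) _)) (Nat.cast_nonneg (α := ℝ) (finrank ℝ E))
  have h6 := mul_le_mul_of_nonneg_left (add_le_add h1 h5) hl2.le
  have h7 := mul_le_mul_of_nonneg_left h4 (Nat.cast_nonneg (α := ℝ) (finrank ℝ E))
  linarith

end C7

theorem top_s7 : ∃ Cl > (0 : ℝ), ∀ (D : Dat E ι) (ff Γ : E → ℝ) (Q : ℕ) (C₁ L η κ t l a₁ : ℝ)
    (z x₁ : E) (W : Submodule ℝ E), C7 D ff Γ Q C₁ L η κ t l a₁ z x₁ W → Cl * ts L ≤ l ^ 2 →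
    PR.Top W (Vs D Q t (z - PR.pe W (z - x₁)) l) (Γs ι Γ Q t (z - PR.pe W (z - x₁)) l)
      (Fintype.card ι * Q ^ 3 *
        (cM E * (l ^ 2 * P (16 * l ^ 2) D.τ z) + finrank ℝ E * gm7 D L κ l z))
      (Fintype.card ι * Q ^ 3 * (128 * a₁ + finrank ℝ E * gm7 D L κ l z))
      (Fintype.card ι * (Q + 1) * gm7 D L κ l z)
      (Fintype.card ι * (Q + 1) * (κ * C₁ + 3 * kz L)) (rho L ^ 2 / l ^ 2)
      ((2 + hd E) * 2 ^ hd E * (Fintype.card ι * Q ^ 2 * (2 * C₁)) +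
        Fintype.card ι * (Q + 1) * (κ * C₁ + 3 * kz L)) := by
  obtain ⟨Cl, hCl, hlev⟩ := lev' (E := E)
  refine ⟨64 * Cl, by positivity, fun D ff Γ Q C₁ L η κ t l a₁ z x₁ W h hL => ?_⟩
  have g := h.gs
  have hl := h.l0
  have ht := h.t0
  have hρ := g.st.ρ_pos
  have hts : 0 < ts L := Real.exp_pos _
  have hC := g.C₁_nonneg
  have hh := hd_nonneg (V := E)
  have hpk := pk_pos (E := E) hl
  have ha := h.a₁_nonneg
  have hA : 0 ≤ (Fintype.card ι : ℝ) * (Q + 1) * (κ * C₁ + 3 * kz L) :=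
    mul_nonneg (by positivity) (add_nonneg (mul_nonneg h.κ0 hC)
      (mul_nonneg (by norm_num) (Real.exp_pos _).le))
  have bΓ := (g.bm_Γ.P ht).const_mul (finrank ℝ E)
  have Γ0 : ∀ y, 0 ≤ (finrank ℝ E : ℝ) * P t Γ y := fun y =>
    mul_nonneg (Nat.cast_nonneg _) (P_nonneg ht.le g.Γ_nonneg y)
  have m4 : ∀ y ∈ ball (0 : E) 3, z - PR.pe W (z - x₁) + l • y ∈ ball z (4 * l) := fun y hy => by
    rw [mem_ball_iff_norm]; linarith [h.near hy]
  have s45 : ball z (4 * l) ⊆ ball z (5 * l) := ball_subset_ball (by linarith)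
  have unb : ∀ f : E → ℝ, BM f → (∀ y, 0 ≤ f y) → ∀ S : Set E, MeasurableSet S →
      S ⊆ ball z (4 * l) → ∫ y in S, P t f y ≤ 2 * ∫ y in cthickening (l / 8) S, P (ts L) f y :=
    fun f hf f0 S hS hSz => by
      have h1 := hlev (P t f) (ts L - t) (l / 8) S (hf.P ht) (P_nonneg ht.le f0)
        (sub_pos.2 h.tts) hS (isBounded_ball.subset hSz) (by positivity) (by nlinarith)
      simpa only [P_P hf (sub_pos.2 h.tts) ht, sub_add_cancel] using h1
  have cth : ∀ S : Set E, S ⊆ ball z (4 * l) → cthickening (l / 8) S ⊆ ball z (5 * l) :=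
    fun S hS => by
      refine (cthickening_subset_of_subset _ hS).trans ?_
      rw [cthickening_ball (by positivity) (by positivity)]
      exact closedBall_subset_ball (by linarith)
  refine ⟨h.dim, g.cb_Vs ht 3, g.cb_Γs ht 1, g.Γs_nonneg ht, g.chg_nonneg ht, ?_, ?_, ?_, ?_,
    by positivity, hA, add_nonneg (by positivity) hA, fun s hs y hy => h.P_Γs_le hs hy,
    fun s hs y hy => ?_⟩
  · refine setIntegral_scale_s7 ((g.bm_τ.P ht).add bΓ)
      (fun y => add_nonneg (P_nonneg ht.le g.τ_nonneg y) (Γ0 y)) hl (by positivity)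
      measurableSet_ball measurableSet_ball isBounded_ball (fun y => sq_nonneg _)
      (fun y hy => ⟨s45 (m4 y hy), g.norm_fderiv_Vs ht hl y⟩)
      (h.mass_add (g.bm_τ.P ht) Subset.rfl (mass_P_le g.bm_τ g.τ_nonneg hl ht ?_ z))
    nlinarith [h.tρ, sq_nonneg (rho L)]
  · refine setIntegral_scale_s7 (((g.bm_τpar W).P ht).add bΓ)
      (fun y => add_nonneg (P_nonneg ht.le (g.st.τpar_nonneg W) y) (Γ0 y)) hl (by positivity)
      measurableSet_ball measurableSet_ball isBounded_ball (fun y => sq_nonneg _)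
      (fun y hy => ⟨m4 y hy, g.norm_fderiv_Vs_par ht hl W y⟩)
      (h.mass_add ((g.bm_τpar W).P ht) s45 ?_)
    have h1 := unb _ (g.bm_τpar W) (g.st.τpar_nonneg W) _ measurableSet_ball Subset.rfl
    have h2 := h.par_ge ((g.bm_τpar W).P hts)
      isClosed_cthickening.measurableSet (cth _ Subset.rfl) zero_le_one fun y _ => by
        linarith [mul_nonneg (sq_nonneg (dd W x₁ y / l)) (P_nonneg hts.le g.τ_nonneg y)]
    nlinarith [mul_nonneg ha hpk.le]
  · have cd := (lipschitz_dd W x₁).continuous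
    have mS : MeasurableSet (ball z (4 * l) ∩ {y | l / 4 ≤ dd W x₁ y}) :=
      measurableSet_ball.inter (isClosed_le continuous_const cd).measurableSet
    refine setIntegral_scale_s7 ((g.bm_τ.P ht).add bΓ)
      (fun y => add_nonneg (P_nonneg ht.le g.τ_nonneg y) (Γ0 y)) hl (by positivity)
      (measurableSet_ball.inter (isClosed_le continuous_const (by fun_prop)).measurableSet) mS
      (isBounded_ball.subset inter_subset_left) (fun y => sq_nonneg _)
      (fun y hy => ⟨⟨m4 y hy.1, ?_⟩, g.norm_fderiv_Vs ht hl y⟩)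
      (h.mass_add (g.bm_τ.P ht) (inter_subset_left.trans s45) ?_)
    · have h1 : 1 / 4 ≤ ‖PR.pe W y‖ := hy.2
      change l / 4 ≤ dd W x₁ _
      rw [dd_scale_s7 W x₁ z y hl]
      nlinarith
    have h1 := unb _ g.bm_τ g.τ_nonneg _ mS inter_subset_left
    have h2 := h.par_ge (g.bm_τ.P hts) isClosed_cthickening.measurableSet
      (cth (ball z (4 * l) ∩ {y | l / 4 ≤ dd W x₁ y}) inter_subset_left) (c := 64) (by norm_num)
      fun y hy => by
        have h3 : l / 8 ≤ dd W x₁ y := by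
          refine le_of_forall_pos_le_add fun e he => ?_
          obtain ⟨w, hw, hyw⟩ := mem_thickening_iff.1
            (cthickening_subset_thickening' (show 0 < l / 8 + e by positivity) (by linarith) _ hy)
          have h4 := (lipschitz_dd W x₁).dist_le_mul y w
          have h5 : l / 4 ≤ dd W x₁ w := hw.2
          rw [NNReal.coe_one, one_mul, Real.dist_eq] at h4
          linarith [(abs_le.1 h4).1]
        have h4 : 1 / 8 ≤ dd W x₁ y / l := by rw [le_div_iff₀ hl]; linarith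
        have h5 : (1 / 8) ^ 2 ≤ (dd W x₁ y / l) ^ 2 := by gcongr
        nlinarith [mul_le_mul_of_nonneg_right h5 (P_nonneg hts.le g.τ_nonneg y),
          P_nonneg hts.le (g.st.τpar_nonneg W) y]
    linarith
  · exact setIntegral_scale_s7 (g.bm_Γ.P ht) (P_nonneg ht.le g.Γ_nonneg) hl (by positivity)
      measurableSet_ball measurableSet_ball isBounded_ball (g.Γs_nonneg ht)
      (fun y hy => ⟨s45 (m4 y hy), le_rfl⟩) h.mass_Γ
  · refine (g.P_chg_le ht hs.1 y).trans ?_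
    rw [add_div]
    refine add_le_add le_rfl ((h.P_Γs_le hs hy).trans ?_)
    have := hs.1
    gcongr
    exact le_add_of_nonneg_right (by positivity)

end Pool.Agent.Lib.MP_8daebb_an.AS
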