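import Mathlib

/-! One-dimensional lemmas for the choice of the window. -/

open MeasureTheory Set Real intervalIntegral

namespace Pool.Agent.Lib.MP_8daebb_an.AS

theorem w1_hasDerivAt_int {f : ℝ → ℝ} {a b t : ℝ} (hf : ContinuousOn f (Icc a b))
    (ht : t ∈ Icc a b) :
    HasDerivWithinAt (fun u => ∫ s in a..u, f s) (f t) (Icc a b) t := by
  have : Fact (t ∈ Icc a b) := ⟨ht⟩
  have hi : IntervalIntegrable f volume a t :=
    (hf.mono (by rw [uIcc_of_le ht.1]; exact Icc_subset_Icc_right ht.2)).intervalIntegrable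
  exact integral_hasDerivWithinAt_right hi
    (hf.stronglyMeasurableAtFilter_nhdsWithin measurableSet_Icc t) (hf t ht)

/-- A function with nonnegative derivative on a closed interval is monotone. -/
theorem w1_le_of_deriv {H H' : ℝ → ℝ} {a b : ℝ} (hab : a ≤ b)
    (hH : ∀ t ∈ Icc a b, HasDerivWithinAt H (H' t) (Icc a b) t) (h0 : ∀ t ∈ Icc a b, 0 ≤ H' t) :
    H a ≤ H b := by
  have hm : MonotoneOn H (Icc a b) := by
    refine monotoneOn_of_hasDerivWithinAt_nonneg (f' := H') (convex_Icc a b)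
      (fun t ht => (hH t ht).continuousWithinAt) (fun t ht => ?_) (fun t ht => ?_)
    · exact (hH t (interior_subset ht)).mono interior_subset
    · exact h0 t (interior_subset ht)
  exact hm (left_mem_Icc.2 hab) (right_mem_Icc.2 hab) hab

theorem w1_int_inv {a b : ℝ} (ha : 0 < a) (hab : a ≤ b) : ∫ s in a..b, 1 / s = log (b / a) := by
  rw [integral_one_div_of_pos ha (ha.trans_le hab)]

/-- The integrated monotonicity identity, divided by the regularised density. -/
theorem win_identity {t₀ t₁ η Dm A e₀ : ℝ} {Th D D' b rad er Φ : ℝ → ℝ} (h0 : 0 < t₀)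
    (h01 : t₀ ≤ t₁) (hη : 0 < η)
    (hTh : ∀ t ∈ Icc t₀ t₁, HasDerivAt Th ((b t / 2 + rad t + er t) / t) t)
    (hD : ∀ t ∈ Icc t₀ t₁, HasDerivAt D (D' t / t) t)
    (hrel : ∀ t ∈ Icc t₀ t₁, D t = 2 * Th t - b t + η)
    (hlo : ∀ t ∈ Icc t₀ t₁, η ≤ D t) (hhi : ∀ t ∈ Icc t₀ t₁, D t ≤ Dm)
    (hD' : ∀ t ∈ Icc t₀ t₁, |D' t| ≤ A * D t) (hb : ∀ t ∈ Icc t₀ t₁, |b t| ≤ Φ t)
    (her : ∀ t ∈ Icc t₀ t₁, |er t| ≤ e₀)
    (crad : ContinuousOn rad (Icc t₀ t₁)) (cΦ : ContinuousOn Φ (Icc t₀ t₁)) :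
    ∫ t in t₀..t₁, rad t / D t / t ≤ Φ t₀ / D t₀ / 2 + Φ t₁ / D t₁ / 2 + log (Dm / η) / 2 +
      (A + 1) / 2 * (∫ t in t₀..t₁, Φ t / D t / t) + e₀ / η * log (t₁ / t₀) := by
  have hDpos : ∀ t ∈ Icc t₀ t₁, 0 < D t := fun t ht => hη.trans_le (hlo t ht)
  have htpos : ∀ t ∈ Icc t₀ t₁, 0 < t := fun t ht => h0.trans_le ht.1
  have cD : ContinuousOn D (Icc t₀ t₁) := fun t ht => (hD t ht).continuousAt.continuousWithinAt
  have c1 : ContinuousOn (fun t => rad t / D t / t) (Icc t₀ t₁) :=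
    (crad.div cD fun t ht => (hDpos t ht).ne').div continuousOn_id fun t ht => (htpos t ht).ne'
  have c2 : ContinuousOn (fun t => Φ t / D t / t) (Icc t₀ t₁) :=
    (cΦ.div cD fun t ht => (hDpos t ht).ne').div continuousOn_id fun t ht => (htpos t ht).ne'
  have c3 : ContinuousOn (fun t : ℝ => 1 / t) (Icc t₀ t₁) :=
    continuousOn_const.div continuousOn_id fun t ht => (htpos t ht).ne'
  have key := w1_le_of_deriv (a := t₀) (b := t₁)
    (H := fun u => (Th u + η / 2) / D u + log (D u) / 2 + (A + 1) / 2 * (∫ t in t₀..u, Φ t / D t / t)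
      + e₀ / η * (∫ t in t₀..u, 1 / t) - ∫ t in t₀..u, rad t / D t / t)
    (H' := fun t => (((b t / 2 + rad t + er t) / t) * D t - (Th t + η / 2) * (D' t / t)) / D t ^ 2
      + (D' t / t) / D t / 2 + (A + 1) / 2 * (Φ t / D t / t) + e₀ / η * (1 / t) - rad t / D t / t)
    h01 (fun t ht => by
      have a1 := (((hTh t ht).add_const (η / 2)).div (hD t ht) (hDpos t ht).ne').hasDerivWithinAt
        (s := Icc t₀ t₁)
      have a2 := (((hD t ht).log (hDpos t ht).ne').div_const 2).hasDerivWithinAt (s := Icc t₀ t₁)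
      exact (((a1.add a2).add ((w1_hasDerivAt_int c2 ht).const_mul _)).add
        ((w1_hasDerivAt_int c3 ht).const_mul _)).sub (w1_hasDerivAt_int c1 ht))
    (fun t ht => by
      have d := hDpos t ht
      have tp := htpos t ht
      have e1 : Th t + η / 2 = (D t + b t) / 2 := by rw [hrel t ht]; ring
      have e2 : (((b t / 2 + rad t + er t) / t) * D t - (Th t + η / 2) * (D' t / t)) / D t ^ 2
          + (D' t / t) / D t / 2 + (A + 1) / 2 * (Φ t / D t / t) + e₀ / η * (1 / t) - rad t / D t / t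
          = ((b t / 2 * (1 - D' t / D t) + (A + 1) / 2 * Φ t) / D t + (er t / D t + e₀ / η)) / t := by
        rw [e1]; field_simp; ring
      rw [e2]
      have h1 : |D' t / D t| ≤ A := by
        rw [abs_div, abs_of_pos d, div_le_iff₀ d]; exact hD' t ht
      have h2 : |b t / 2 * (1 - D' t / D t)| ≤ (A + 1) / 2 * Φ t := by
        rw [abs_mul, abs_div, abs_two]
        have : |1 - D' t / D t| ≤ A + 1 := by
          refine (abs_sub _ _).trans ?_
          rw [abs_one]; linarith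
        have hb' := hb t ht
        calc |b t| / 2 * |1 - D' t / D t| ≤ Φ t / 2 * (A + 1) := by
              gcongr
              exact div_nonneg ((abs_nonneg _).trans hb') (by norm_num)
          _ = _ := by ring
      have h3 : |er t / D t| ≤ e₀ / η := by
        rw [abs_div, abs_of_pos d]
        exact div_le_div₀ ((abs_nonneg _).trans (her t ht)) (her t ht) hη (hlo t ht)
      have h4 := neg_abs_le (b t / 2 * (1 - D' t / D t))
      have h5 := neg_abs_le (er t / D t)
      refine div_nonneg (add_nonneg (div_nonneg (by linarith) d.le) (by linarith)) tp.le)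
  simp only [integral_same, mul_zero, add_zero, sub_zero] at key
  rw [w1_int_inv h0 h01] at key
  have m0 := left_mem_Icc.2 h01
  have m1 := right_mem_Icc.2 h01
  have e0' : (Th t₀ + η / 2) / D t₀ = 1 / 2 + b t₀ / D t₀ / 2 := by
    have := hDpos t₀ m0
    rw [show Th t₀ + η / 2 = (D t₀ + b t₀) / 2 by rw [hrel t₀ m0]; ring]; field_simp
  have e1' : (Th t₁ + η / 2) / D t₁ = 1 / 2 + b t₁ / D t₁ / 2 := by
    have := hDpos t₁ m1
    rw [show Th t₁ + η / 2 = (D t₁ + b t₁) / 2 by rw [hrel t₁ m1]; ring]; field_simp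
  rw [e0', e1'] at key
  have b0 : -(b t₀ / D t₀) ≤ Φ t₀ / D t₀ := by
    rw [← neg_div]
    exact div_le_div_of_nonneg_right ((neg_le_abs _).trans (hb t₀ m0)) (hDpos t₀ m0).le
  have b1 : b t₁ / D t₁ ≤ Φ t₁ / D t₁ :=
    div_le_div_of_nonneg_right ((le_abs_self _).trans (hb t₁ m1)) (hDpos t₁ m1).le
  have l1 : log (D t₁) - log (D t₀) ≤ log (Dm / η) := by
    have hm : 0 < Dm := (hDpos t₁ m1).trans_le (hhi t₁ m1)
    rw [log_div hm.ne' hη.ne']
    have := log_le_log (hDpos t₁ m1) (hhi t₁ m1)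
    have := log_le_log hη (hlo t₀ m0)
    linarith
  linarith

/-- A point whose defect integral over the window is small has almost constant density. -/
theorem win_calm {t₀ t₂ η c e e₀ : ℝ} {Th D b rad er Φ : ℝ → ℝ} (h0 : 0 < t₀)
    (h02 : 2 * t₀ ≤ t₂) (hη : 0 < η) (hc : 1 ≤ c)
    (hTh : ∀ t ∈ Icc t₀ t₂, HasDerivAt Th ((b t / 2 + rad t + er t) / t) t)
    (hrel : ∀ t ∈ Icc t₀ t₂, D t = 2 * Th t - b t + η)
    (hlo : ∀ t ∈ Icc t₀ t₂, η ≤ D t) (hb : ∀ t ∈ Icc t₀ t₂, |b t| ≤ Φ t)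
    (hrad : ∀ t ∈ Icc t₀ t₂, 0 ≤ rad t) (her : ∀ t ∈ Icc t₀ t₂, |er t| ≤ e₀)
    (hq : ∀ t ∈ Icc t₀ t₂, ∀ s ∈ Icc t₀ t₂, t ≤ s → s ≤ 2 * t → rad t + Φ t ≤ c * (rad s + Φ s))
    (cD : ContinuousOn D (Icc t₀ t₂))
    (crad : ContinuousOn rad (Icc t₀ t₂)) (cΦ : ContinuousOn Φ (Icc t₀ t₂))
    (he : (∫ t in t₀..t₂, (rad t + Φ t) / D t / t) + e₀ / η * log (t₂ / t₀) ≤ e)
    (hsm : 24 * c * e ≤ 1) :
    ∀ t ∈ Icc t₀ (t₂ / 2), ∀ t' ∈ Icc t₀ (t₂ / 2),
      D t' ≤ 2 * D t ∧ rad t + Φ t ≤ 4 * c * e * D t ∧ |Th t - Th t'| ≤ 2 * e * D t := by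
  have h02' : t₀ ≤ t₂ := by linarith
  have hDpos : ∀ t ∈ Icc t₀ t₂, 0 < D t := fun t ht => hη.trans_le (hlo t ht)
  have htpos : ∀ t ∈ Icc t₀ t₂, 0 < t := fun t ht => h0.trans_le ht.1
  have hΦ : ∀ t ∈ Icc t₀ t₂, 0 ≤ Φ t := fun t ht => (abs_nonneg _).trans (hb t ht)
  have he₀ : 0 ≤ e₀ := (abs_nonneg _).trans (her t₀ (left_mem_Icc.2 h02'))
  set q : ℝ → ℝ := fun t => (rad t + Φ t) / D t / t with hqdef
  have cq : ContinuousOn q (Icc t₀ t₂) :=
    ((crad.add cΦ).div cD fun t ht => (hDpos t ht).ne').div continuousOn_id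
      fun t ht => (htpos t ht).ne'
  have q0 : ∀ t ∈ Icc t₀ t₂, 0 ≤ q t := fun t ht =>
    div_nonneg (div_nonneg (add_nonneg (hrad t ht) (hΦ t ht)) (hDpos t ht).le) (htpos t ht).le
  set E := ∫ t in t₀..t₂, q t with hE
  have iq : ∀ a b, t₀ ≤ a → a ≤ b → b ≤ t₂ → IntervalIntegrable q volume a b := fun a b ha hab hb =>
    (cq.mono (by rw [uIcc_of_le hab]; exact Icc_subset_Icc ha hb)).intervalIntegrable
  have sub : ∀ a b, t₀ ≤ a → a ≤ b → b ≤ t₂ → ∫ t in a..b, q t ≤ E := fun a b ha hab hb =>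
    integral_mono_interval ha hab hb
      ((ae_restrict_iff' measurableSet_Ioc).2 (ae_of_all _ fun t ht => q0 t (Ioc_subset_Icc_self ht)))
      (iq _ _ le_rfl h02' le_rfl)
  have E0 : 0 ≤ E := integral_nonneg h02' q0
  have lg0 : 0 ≤ e₀ / η * log (t₂ / t₀) :=
    mul_nonneg (by positivity) (log_nonneg ((one_le_div h0).2 h02'))
  have hEe : E ≤ e := by linarith
  have e0 : 0 ≤ e := E0.trans hEe
  have l2 : (1 : ℝ) / 2 ≤ log 2 := by have := log_two_gt_d9; linarith
  -- a good scale in the top octave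
  obtain ⟨s, hs, hsq⟩ : ∃ s ∈ Icc (t₂ / 2) t₂, rad s + Φ s ≤ 2 * E * D s := by
    have ha : t₀ ≤ t₂ / 2 := by linarith
    have hab : t₂ / 2 ≤ t₂ := by linarith
    have cs : ContinuousOn (fun t => (rad t + Φ t) / D t) (Icc (t₂ / 2) t₂) :=
      ((crad.add cΦ).div cD fun t ht => (hDpos t ht).ne').mono (Icc_subset_Icc_left ha)
    obtain ⟨s, hs, hmin⟩ := isCompact_Icc.exists_isMinOn (nonempty_Icc.2 hab) cs
    have hs' : s ∈ Icc t₀ t₂ := Icc_subset_Icc_left ha hs
    refine ⟨s, hs, ?_⟩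
    have h1 : ∫ t in (t₂ / 2)..t₂, (rad s + Φ s) / D s * (1 / t) ≤ ∫ t in (t₂ / 2)..t₂, q t := by
      refine integral_mono_on hab ?_ (iq _ _ ha hab le_rfl) fun t ht => ?_
      · refine (ContinuousOn.intervalIntegrable ?_)
        rw [uIcc_of_le hab]
        exact continuousOn_const.mul (continuousOn_const.div continuousOn_id fun t ht =>
          (htpos t (Icc_subset_Icc_left ha ht)).ne')
      · have := hmin ht
        have tp := htpos t (Icc_subset_Icc_left ha ht)
        simp only [hqdef, mul_one_div]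
        exact div_le_div_of_nonneg_right this tp.le
    rw [intervalIntegral.integral_const_mul, w1_int_inv (by linarith) hab,
      show t₂ / (t₂ / 2) = 2 by field_simp [show t₂ ≠ 0 by linarith]] at h1
    have h2 := h1.trans (sub _ _ ha hab le_rfl)
    have h3 : 0 ≤ (rad s + Φ s) / D s :=
      div_nonneg (add_nonneg (hrad s hs') (hΦ s hs')) (hDpos s hs').le
    have h4 : (rad s + Φ s) / D s ≤ 2 * E := by nlinarith
    rwa [div_le_iff₀ (hDpos s hs')] at h4
  have hs0 : t₀ ≤ s := by linarith [hs.1]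
  have hsI : s ∈ Icc t₀ t₂ := ⟨hs0, hs.2⟩
  have subI : Icc t₀ s ⊆ Icc t₀ t₂ := Icc_subset_Icc_right hs.2
  obtain ⟨p, hp, hmax⟩ := isCompact_Icc.exists_isMaxOn (nonempty_Icc.2 hs0) (cD.mono subI)
  have hM : ∀ t ∈ Icc t₀ s, D t ≤ D p := fun t ht => hmax ht
  have Mpos : 0 < D p := hDpos p (subI hp)
  -- pointwise bound of the defect
  have A1 : ∀ t ∈ Icc t₀ s, rad t + Φ t ≤ 2 * c * E * D p := by
    intro t ht
    have tI := subI ht
    have tp := htpos t tI
    rcases le_total s (2 * t) with h | h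
    · calc rad t + Φ t ≤ c * (rad s + Φ s) := hq t tI s hsI ht.2 h
        _ ≤ c * (2 * E * D p) := by
          gcongr
          exact hsq.trans (by gcongr; exact hM s (right_mem_Icc.2 hs0))
        _ = _ := by ring
    · have hab : t ≤ 2 * t := by linarith
      have h1 : ∫ u in t..(2 * t), (rad t + Φ t) * (1 / u) ≤ ∫ u in t..(2 * t), c * D p * q u := by
        refine integral_mono_on hab ?_ ((iq _ _ ht.1 hab (h.trans hs.2)).const_mul _) fun u hu => ?_
        · refine (ContinuousOn.intervalIntegrable ?_)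
          rw [uIcc_of_le hab]
          exact continuousOn_const.mul (continuousOn_const.div continuousOn_id fun u hu =>
            (tp.trans_le hu.1).ne')
        · have uI : u ∈ Icc t₀ s := ⟨ht.1.trans hu.1, hu.2.trans h⟩
          have up := htpos u (subI uI)
          have dp := hDpos u (subI uI)
          have a1 := hq t tI u (subI uI) hu.1 hu.2
          have a2 : rad u + Φ u ≤ D p * ((rad u + Φ u) / D u) := by
            rw [mul_div_assoc', le_div_iff₀ dp, mul_comm (D p)]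
            exact mul_le_mul_of_nonneg_left (hM u uI)
              (add_nonneg (hrad u (subI uI)) (hΦ u (subI uI)))
          simp only [hqdef, mul_one_div]
          rw [mul_div_assoc', div_le_div_iff_of_pos_right up]
          calc _ ≤ c * (rad u + Φ u) := a1
            _ ≤ c * (D p * ((rad u + Φ u) / D u)) := by gcongr
            _ = _ := by ring
      rw [intervalIntegral.integral_const_mul, intervalIntegral.integral_const_mul,
        w1_int_inv tp hab, show 2 * t / t = 2 by field_simp] at h1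
      have h2 := sub _ _ ht.1 hab (h.trans hs.2)
      have h3 : 0 ≤ rad t + Φ t := add_nonneg (hrad t tI) (hΦ t tI)
      have h4 : c * D p * ∫ u in t..(2 * t), q u ≤ c * D p * E := by gcongr
      nlinarith
  -- variation of `Th`
  have A2 : ∀ t ∈ Icc t₀ s, ∀ t' ∈ Icc t₀ s, t ≤ t' → |Th t - Th t'| ≤ e * D p := by
    intro t ht t' ht' htt
    have sI : Icc t t' ⊆ Icc t₀ s := Icc_subset_Icc ht.1 ht'.2
    have c3 : ContinuousOn (fun u : ℝ => 1 / u) (Icc t t') :=
      continuousOn_const.div continuousOn_id fun u hu => (htpos u (subI (sI hu))).ne'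
    have cq' : ContinuousOn q (Icc t t') := cq.mono (sI.trans subI)
    have bd : ∀ u ∈ Icc t t', |(b u / 2 + rad u + er u) / u| ≤ D p * q u + e₀ * (1 / u) := by
      intro u hu
      have uI := subI (sI hu)
      have up := htpos u uI
      have dp := hDpos u uI
      have a2 : rad u + Φ u ≤ D p * ((rad u + Φ u) / D u) := by
        rw [mul_div_assoc', le_div_iff₀ dp, mul_comm (D p)]
        exact mul_le_mul_of_nonneg_left (hM u (sI hu)) (add_nonneg (hrad u uI) (hΦ u uI))
      have a3 : |b u / 2 + rad u + er u| ≤ rad u + Φ u + e₀ := by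
        have := hb u uI
        have := her u uI
        have := hrad u uI
        rw [abs_le] at *
        constructor <;> linarith [hΦ u uI]
      simp only [hqdef, mul_one_div]
      rw [abs_div, abs_of_pos up, mul_div_assoc', ← add_div, div_le_div_iff_of_pos_right up]
      linarith
    have fin : D p * (∫ u in t..t', q u) + e₀ * (∫ u in t..t', 1 / u) ≤ e * D p := by
      have tp := htpos t (subI ht)
      rw [w1_int_inv tp htt]
      have h1 := sub _ _ ht.1 htt (ht'.2.trans hs.2)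
      have h2 : log (t' / t) ≤ log (t₂ / t₀) :=
        log_le_log (div_pos (tp.trans_le htt) tp) (div_le_div₀ (by linarith) (ht'.2.trans hs.2) h0 ht.1)
      have h3 : e₀ * log (t' / t) ≤ D p * (e₀ / η * log (t₂ / t₀)) := by
        have h4 : 1 ≤ D p / η := (one_le_div hη).2 (hlo p (subI hp))
        have h5 : 0 ≤ e₀ * log (t₂ / t₀) := mul_nonneg he₀ (log_nonneg ((one_le_div h0).2 h02'))
        calc e₀ * log (t' / t) ≤ e₀ * log (t₂ / t₀) := by gcongr
          _ ≤ D p / η * (e₀ * log (t₂ / t₀)) := le_mul_of_one_le_left h5 h4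
          _ = _ := by ring
      nlinarith
    have k1 := w1_le_of_deriv (a := t) (b := t')
      (H := fun u => D p * (∫ v in t..u, q v) + e₀ * (∫ v in t..u, 1 / v) - Th u)
      (H' := fun u => D p * q u + e₀ * (1 / u) - (b u / 2 + rad u + er u) / u) htt
      (fun u hu => (((w1_hasDerivAt_int cq' hu).const_mul _).add
        ((w1_hasDerivAt_int c3 hu).const_mul _)).sub (hTh u (subI (sI hu))).hasDerivWithinAt)
      (fun u hu => by linarith [bd u hu, le_abs_self ((b u / 2 + rad u + er u) / u)])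
    have k2 := w1_le_of_deriv (a := t) (b := t')
      (H := fun u => D p * (∫ v in t..u, q v) + e₀ * (∫ v in t..u, 1 / v) + Th u)
      (H' := fun u => D p * q u + e₀ * (1 / u) + (b u / 2 + rad u + er u) / u) htt
      (fun u hu => (((w1_hasDerivAt_int cq' hu).const_mul _).add
        ((w1_hasDerivAt_int c3 hu).const_mul _)).add (hTh u (subI (sI hu))).hasDerivWithinAt)
      (fun u hu => by linarith [bd u hu, neg_abs_le ((b u / 2 + rad u + er u) / u)])
    simp only [integral_same, mul_zero, add_zero, zero_sub, zero_add] at k1 k2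
    rw [abs_le]; constructor <;> linarith
  have A2' : ∀ t ∈ Icc t₀ s, ∀ t' ∈ Icc t₀ s, |Th t - Th t'| ≤ e * D p := by
    intro t ht t' ht'
    rcases le_total t t' with h | h
    · exact A2 t ht t' ht' h
    · rw [abs_sub_comm]; exact A2 t' ht' t ht h
  have hce : 0 ≤ c * e := by positivity
  have hcE : c * E ≤ c * e := by gcongr
  have A3 : ∀ t ∈ Icc t₀ s, D p ≤ 2 * D t := by
    intro t ht
    have h1 := hrel t (subI ht)
    have h2 := hrel p (subI hp)
    have h3 := abs_le.1 (A2' t ht p hp)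
    have h4 := abs_le.1 (hb t (subI ht))
    have h5 := abs_le.1 (hb p (subI hp))
    have h6 := A1 t ht
    have h7 := A1 p hp
    have h8 := hrad t (subI ht)
    have h9 := hrad p (subI hp)
    have h10 : e ≤ c * e := le_mul_of_one_le_left e0 hc
    have h11 : c * E * D p ≤ c * e * D p := by gcongr
    have h12 : e * D p ≤ c * e * D p := by gcongr
    have h13 : 24 * (c * e * D p) ≤ D p := by nlinarith
    nlinarith
  intro t ht t' ht'
  have tI : t ∈ Icc t₀ s := ⟨ht.1, ht.2.trans hs.1⟩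
  have tI' : t' ∈ Icc t₀ s := ⟨ht'.1, ht'.2.trans hs.1⟩
  have h3 := A3 t tI
  refine ⟨(hM t' tI').trans h3, (A1 t tI).trans ?_, (A2' t tI t' tI').trans ?_⟩
  · calc 2 * c * E * D p = 2 * (c * E) * D p := by ring
      _ ≤ 2 * (c * e) * (2 * D t) := by gcongr
      _ = _ := by ring
  · nlinarith

end Pool.Agent.Lib.MP_8daebb_an.AS
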