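import Pool.Agent.Lib.MP_8daebb_an.AS.S1
import Pool.Agent.Lib.MP_8daebb_an.AS.W1D
import Pool.Agent.Lib.MP_8daebb_an.AS.Bas2
import Pool.Agent.Lib.MP_8daebb_an.HK.Dv

/-! The non-calmness function and the entropy bound. -/

open MeasureTheory Metric Set Module Real Filter
open scoped RealInnerProductSpace

namespace Pool.Agent.Lib.MP_8daebb_an.AS

open HK

variable {E : Type*} [NormedAddCommGroup E] [InnerProductSpace ℝ E] [FiniteDimensional ℝ E]
  [MeasurableSpace E] [BorelSpace E]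

/-- The integrand of `e0`. -/
noncomputable def qe (ε : E → ℝ) (T : E → E →L[ℝ] E) (η₂ : ℝ) (x : E) (t : ℝ) : ℝ :=
  (rad T x t + t * P (2 * t) (fun y => |βf ε T y|) x) / ((tt T x t + η₂) * t)

/-- The defect part of the integrand of `e0`. -/
noncomputable def pe (ε : E → ℝ) (T : E → E →L[ℝ] E) (η₂ : ℝ) (x : E) (t : ℝ) : ℝ :=
  P (2 * t) (fun y => |βf ε T y|) x / (tt T x t + η₂)

theorem e0_eq (ε : E → ℝ) (T : E → E →L[ℝ] E) (η₂ a b : ℝ) (x : E) :
    e0 ε T η₂ a b x = ∫ t in a..b, qe ε T η₂ x t := rfl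

variable {ε ff : E → ℝ} {T : E → E →L[ℝ] E} {C₁ ρ B κ tM η₂ : ℝ}

theorem St.tt_nonneg5 (h : St ε T ff C₁ ρ B κ tM) (x : E) {t : ℝ} (ht : 0 ≤ t) : 0 ≤ tt T x t :=
  mul_nonneg ht (P_nonneg ht h.τ_nonneg x)

theorem St.C₁_nonneg5 (h : St ε T ff C₁ ρ B κ tM) : 0 ≤ C₁ :=
  (h.tt_nonneg5 0 zero_le_one).trans (h.tt_le 0 one_pos)

theorem St.κ_nonneg5 (h : St ε T ff C₁ ρ B κ tM) : 0 ≤ κ :=
  (h.ff_nonneg 0).trans (h.ff_small 0 (by simp; norm_num))

theorem St.B_nonneg5 (h : St ε T ff C₁ ρ B κ tM) : 0 ≤ B := (h.τ_nonneg 0).trans (h.τ_le 0)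

theorem St.abs_β_le5 (h : St ε T ff C₁ ρ B κ tM) (y : E) : |βf ε T y| ≤ 2 * (|ε y| + τf T y) := by
  have h0 := h.τ_nonneg y
  have : βf ε T y = 2 * ε y - τf T y := rfl
  rw [this, abs_le]
  constructor <;> linarith [le_abs_self (ε y), neg_abs_le (ε y)]

theorem St.Φ_le5 (h : St ε T ff C₁ ρ B κ tM) (x : E) {t : ℝ} (ht : 0 < t) :
    t * P (2 * t) (fun y => |βf ε T y|) x ≤ C₁ := by
  have t2 : 0 < 2 * t := by positivity
  have h1 := P_mono h.bm_β.abs ((h.bm_ε.abs.add h.bm_τ).const_mul 2) t2 h.abs_β_le5 x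
  rw [P_const_mul] at h1
  have h2 := h.dens x _ t2
  have h3 : 0 ≤ P (2 * t) (fun y => |ε y| + τf T y) x :=
    P_nonneg t2.le (fun y => add_nonneg (abs_nonneg _) (h.τ_nonneg y)) x
  nlinarith [mul_le_mul_of_nonneg_left h1 ht.le, mul_nonneg (sq_nonneg ρ) h3]

theorem St.D_pos5 (h : St ε T ff C₁ ρ B κ tM) (hη : 0 < η₂) (x : E) {t : ℝ} (ht : 0 < t) :
    0 < tt T x t + η₂ := add_pos_of_nonneg_of_pos (h.tt_nonneg5 x ht.le) hη

theorem St.pe_nonneg (h : St ε T ff C₁ ρ B κ tM) (hη : 0 < η₂) (x : E) {t : ℝ} (ht : 0 < t) :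
    0 ≤ pe ε T η₂ x t :=
  div_nonneg (P_nonneg (by positivity) (fun _ => abs_nonneg _) x) (h.D_pos5 hη x ht).le

theorem St.qe_eq (h : St ε T ff C₁ ρ B κ tM) (hη : 0 < η₂) (x : E) {t : ℝ} (ht : 0 < t) :
    qe ε T η₂ x t = rad T x t / t / (tt T x t + η₂) + pe ε T η₂ x t := by
  have := h.D_pos5 hη x ht
  unfold qe pe
  field_simp

theorem St.qe_nonneg (h : St ε T ff C₁ ρ B κ tM) (hη : 0 < η₂) (x : E) {t : ℝ} (ht : 0 < t) :
    0 ≤ qe ε T η₂ x t := by
  rw [h.qe_eq hη x ht]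
  exact add_nonneg (div_nonneg (div_nonneg (h.rad_nonneg x ht) ht.le) (h.D_pos5 hη x ht).le)
    (h.pe_nonneg hη x ht)

theorem St.qe_le (h : St ε T ff C₁ ρ B κ tM) (hη : 0 < η₂) (x : E) {t : ℝ} (ht : 0 < t) :
    qe ε T η₂ x t ≤ (2 ^ hd E + 1) * C₁ / η₂ * (1 / t) := by
  have h1 := (h.rad_le x ht).trans (mul_le_mul_of_nonneg_left (h.tt_le x (by positivity))
    (by positivity))
  have h2 := h.Φ_le5 x ht
  have h3 := h.tt_nonneg5 x ht.le
  have h4 := h.C₁_nonneg5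
  calc qe ε T η₂ x t ≤ (2 ^ hd E * C₁ + C₁) / (η₂ * t) :=
        div_le_div₀ (by positivity) (add_le_add h1 h2) (by positivity)
          (mul_le_mul_of_nonneg_right (by linarith) ht.le)
    _ = _ := by field_simp

theorem St.measurable_tt5 (h : St ε T ff C₁ ρ B κ tM) : Measurable fun p : E × ℝ => tt T p.1 p.2 :=
  measurable_snd.mul ((measurable_P h.bm_τ.meas).comp measurable_swap)

theorem St.measurable_Φ5 (h : St ε T ff C₁ ρ B κ tM) :
    Measurable fun p : E × ℝ => P (2 * p.2) (fun y => |βf ε T y|) p.1 :=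
  (measurable_P h.bm_β.abs.meas).comp (f := fun p : E × ℝ => (2 * p.2, p.1)) (by fun_prop)

theorem St.measurable_rad5 (h : St ε T ff C₁ ρ B κ tM) :
    Measurable fun p : E × ℝ => rad T p.1 p.2 := by
  have hT := h.c_T
  have h1 : Continuous fun q : (E × ℝ) × E => ⟪T q.2 (q.2 - q.1.1), q.2 - q.1.1⟫ := by fun_prop
  have h2 : Measurable fun q : (E × ℝ) × E =>
      G q.1.2 (q.2 - q.1.1) * ⟪T q.2 (q.2 - q.1.1), q.2 - q.1.1⟫ :=
    (measurable_G.comp (f := fun q : (E × ℝ) × E => (q.1.2, q.2 - q.1.1)) (by fun_prop)).mul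
      h1.measurable
  exact h2.stronglyMeasurable.integral_prod_right'.measurable.div_const 4

theorem St.measurable_qe (h : St ε T ff C₁ ρ B κ tM) (η₂ : ℝ) :
    Measurable fun p : E × ℝ => qe ε T η₂ p.1 p.2 :=
  (h.measurable_rad5.add (measurable_snd.mul h.measurable_Φ5)).div
    ((h.measurable_tt5.add_const η₂).mul measurable_snd)

theorem St.measurable_pe (h : St ε T ff C₁ ρ B κ tM) (η₂ : ℝ) :
    Measurable fun p : E × ℝ => pe ε T η₂ p.1 p.2 :=
  h.measurable_Φ5.div (h.measurable_tt5.add_const η₂)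

theorem St.continuousOn_tt5 (h : St ε T ff C₁ ρ B κ tM) (x : E) :
    ContinuousOn (tt T x) (Ioi 0) := continuousOn_id.mul (continuousOn_P_time h.bm_τ x)

theorem St.continuousOn_pe (h : St ε T ff C₁ ρ B κ tM) (hη : 0 < η₂) (x : E) :
    ContinuousOn (pe ε T η₂ x) (Ioi 0) := by
  refine ContinuousOn.div ?_ ((h.continuousOn_tt5 x).add continuousOn_const)
    fun t ht => (h.D_pos5 hη x ht).ne'
  exact (continuousOn_P_time h.bm_β.abs x).comp (f := fun t : ℝ => 2 * t) (by fun_prop)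
    fun t ht => by have : 0 < t := ht; exact mem_Ioi.2 (by positivity)

theorem St.continuousOn_qe (h : St ε T ff C₁ ρ B κ tM) (hη : 0 < η₂) (x : E) :
    ContinuousOn (qe ε T η₂ x) (Ioi 0) := by
  have h1 : ContinuousOn (rad T x) (Ioi 0) :=
    h.continuousOn_rad.comp (f := fun t : ℝ => (t, x)) (by fun_prop) fun t ht => ⟨ht, mem_univ _⟩
  refine ContinuousOn.congr (((h1.div continuousOn_id fun t ht => ne_of_gt ht).div
    ((h.continuousOn_tt5 x).add continuousOn_const) fun t ht => (h.D_pos5 hη x ht).ne').add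
      (h.continuousOn_pe hη x)) fun t ht => h.qe_eq hη x ht

theorem ii_of_Ioi {f : ℝ → ℝ} (hf : ContinuousOn f (Ioi 0)) {a b : ℝ} (ha : 0 < a) (hb : 0 < b) :
    IntervalIntegrable f volume a b :=
  (hf.mono fun _ ht => (lt_min ha hb).trans_le ht.1).intervalIntegrable

theorem St.e0_nonneg (h : St ε T ff C₁ ρ B κ tM) (hη : 0 < η₂) {a b : ℝ} (ha : 0 < a)
    (hab : a ≤ b) (x : E) : 0 ≤ e0 ε T η₂ a b x :=
  intervalIntegral.integral_nonneg hab fun _ ht => h.qe_nonneg hη x (ha.trans_le ht.1)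

theorem St.e0_le (h : St ε T ff C₁ ρ B κ tM) (hη : 0 < η₂) {a b : ℝ} (ha : 0 < a)
    (hab : a ≤ b) (x : E) : e0 ε T η₂ a b x ≤ (2 ^ hd E + 1) * C₁ / η₂ * log (b / a) := by
  have hb := ha.trans_le hab
  rw [← w1_int_inv ha hab, ← intervalIntegral.integral_const_mul]
  refine intervalIntegral.integral_mono_on hab (ii_of_Ioi (h.continuousOn_qe hη x) ha hb)
    (ii_of_Ioi (continuousOn_const.mul (continuousOn_const.div continuousOn_id
      fun t ht => ne_of_gt ht)) ha hb) fun t ht => h.qe_le hη x (ha.trans_le ht.1)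

theorem St.bm_e05 (h : St ε T ff C₁ ρ B κ tM) (hη : 0 < η₂) {a b : ℝ} (ha : 0 < a)
    (hab : a ≤ b) : BM (e0 ε T η₂ a b) := by
  refine ⟨?_, _, fun x => by rw [abs_of_nonneg (h.e0_nonneg hη ha hab x)]; exact h.e0_le hη ha hab x⟩
  have : e0 ε T η₂ a b = fun x => ∫ t in Ioc a b, qe ε T η₂ x t := by
    ext x; rw [e0_eq, intervalIntegral.integral_of_le hab]
  rw [this]
  exact (h.measurable_qe η₂).stronglyMeasurable.integral_prod_right'.measurable

theorem St.e0_add5 (h : St ε T ff C₁ ρ B κ tM) (hη : 0 < η₂) {a b c : ℝ} (ha : 0 < a)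
    (hb : 0 < b) (hc : 0 < c) (x : E) :
    e0 ε T η₂ a b x + e0 ε T η₂ b c x = e0 ε T η₂ a c x :=
  intervalIntegral.integral_add_adjacent_intervals (ii_of_Ioi (h.continuousOn_qe hη x) ha hb)
    (ii_of_Ioi (h.continuousOn_qe hη x) hb hc)

theorem St.e0_mono (h : St ε T ff C₁ ρ B κ tM) (hη : 0 < η₂) {a b c d : ℝ} (ha : 0 < a)
    (hab : a ≤ b) (hbc : b ≤ c) (hcd : c ≤ d) (x : E) : e0 ε T η₂ b c x ≤ e0 ε T η₂ a d x := by
  have hb := ha.trans_le hab
  have hc := hb.trans_le hbc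
  have hd' := hc.trans_le hcd
  rw [← h.e0_add5 hη ha hb hd', ← h.e0_add5 hη hb hc hd']
  linarith [h.e0_nonneg hη ha hab x, h.e0_nonneg hη hc hcd x]

/-- Variation of the logarithm of the regularised density. -/
theorem logD : ∃ C : ℝ, 1 ≤ C ∧ ∀ (ε ff : E → ℝ) (T : E → E →L[ℝ] E) (C₁ ρ B κ tM η₂ a b : ℝ)
    (x : E), St ε T ff C₁ ρ B κ tM → tM ≤ 1 → 0 < η₂ → 0 < a → a ≤ b → 2 * b ≤ tM →
    ‖x‖ ≤ 5 / 2 →
    |log (tt T x b + η₂) - log (tt T x a + η₂)| ≤ C * (e0 ε T η₂ a b x + κ * b / η₂) ∧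
    e0 ε T η₂ a b x ≤ (log (tt T x b + η₂) - log (tt T x a + η₂)) / 2 +
      C * (∫ t in a..b, pe ε T η₂ x t) + C * (κ * b / η₂) := by
  obtain ⟨C, C0, hC⟩ := tt_deriv (E := E)
  refine ⟨C + 2, by linarith, fun ε ff T C₁ ρ B κ tM η₂ a b x h hM hη ha hab hb hx => ?_⟩
  have hI : ∀ t ∈ Icc a b, 0 < t := fun t ht => ha.trans_le ht.1
  have κ0 := h.κ_nonneg5
  have key : ∀ t ∈ Icc a b, HasDerivAt (tt T x) (deriv (tt T x) t) t ∧
      |deriv (tt T x) t / (tt T x t + η₂) - 2 * (rad T x t / t / (tt T x t + η₂))| ≤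
        C * pe ε T η₂ x t + C * (κ / η₂) := fun t ht => by
    obtain ⟨D', h1, h2⟩ := hC ε ff T C₁ ρ B κ tM h hM x t hx (hI t ht) (by linarith [ht.2])
    rw [h1.deriv]
    refine ⟨h1, ?_⟩
    have d := h.D_pos5 hη x (hI t ht)
    have e : D' / (tt T x t + η₂) - 2 * (rad T x t / t / (tt T x t + η₂)) =
        (D' - 2 * rad T x t / t) / (tt T x t + η₂) := by ring
    rw [e, abs_div, abs_of_pos d]
    have h3 : κ / (tt T x t + η₂) ≤ κ / η₂ :=
      div_le_div_of_nonneg_left κ0 hη (by linarith [h.tt_nonneg5 x (hI t ht).le])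
    calc _ ≤ C * (P (2 * t) (fun y => |βf ε T y|) x + κ) / (tt T x t + η₂) := by gcongr
      _ = C * pe ε T η₂ x t + C * (κ / (tt T x t + η₂)) := by unfold pe; ring
      _ ≤ _ := by gcongr
  have dl : ∀ t ∈ Icc a b, HasDerivWithinAt (fun u => log (tt T x u + η₂))
      (deriv (tt T x) t / (tt T x t + η₂)) (Icc a b) t := fun t ht =>
    (((key t ht).1.add_const η₂).log (h.D_pos5 hη x (hI t ht)).ne').hasDerivWithinAt
  have cq : ContinuousOn (qe ε T η₂ x) (Icc a b) := (h.continuousOn_qe hη x).mono hI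
  have cp : ContinuousOn (pe ε T η₂ x) (Icc a b) := (h.continuousOn_pe hη x).mono hI
  have di : ∀ t ∈ Icc a b, HasDerivWithinAt (fun u : ℝ => (C + 2) * (κ / η₂) * u)
      ((C + 2) * (κ / η₂)) (Icc a b) t := fun t _ => by
    simpa using ((hasDerivAt_id t).const_mul ((C + 2) * (κ / η₂))).hasDerivWithinAt
  have r0 : ∀ t ∈ Icc a b, 0 ≤ rad T x t / t / (tt T x t + η₂) := fun t ht =>
    div_nonneg (div_nonneg (h.rad_nonneg x (hI t ht)) (hI t ht).le) (h.D_pos5 hη x (hI t ht)).le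
  have k0 : 0 ≤ κ / η₂ := by positivity
  have k1 := w1_le_of_deriv hab
    (H := fun u => (C + 2) * (∫ t in a..u, qe ε T η₂ x t) + (C + 2) * (κ / η₂) * u
      - log (tt T x u + η₂))
    (fun t ht => (((w1_hasDerivAt_int cq ht).const_mul _).add (di t ht)).sub (dl t ht))
    (fun t ht => by
      have := abs_le.1 (key t ht).2
      have := h.pe_nonneg hη x (hI t ht)
      have := r0 t ht
      rw [h.qe_eq hη x (hI t ht)]
      nlinarith)
  have k2 := w1_le_of_deriv hab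
    (H := fun u => (C + 2) * (∫ t in a..u, qe ε T η₂ x t) + (C + 2) * (κ / η₂) * u
      + log (tt T x u + η₂))
    (fun t ht => (((w1_hasDerivAt_int cq ht).const_mul _).add (di t ht)).add (dl t ht))
    (fun t ht => by
      have := abs_le.1 (key t ht).2
      have := h.pe_nonneg hη x (hI t ht)
      have := r0 t ht
      rw [h.qe_eq hη x (hI t ht)]
      nlinarith)
  have k3 := w1_le_of_deriv hab
    (H := fun u => (C + 2) * (∫ t in a..u, pe ε T η₂ x t) + (C + 2) * (κ / η₂) * u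
      + log (tt T x u + η₂) / 2 - ∫ t in a..u, qe ε T η₂ x t)
    (fun t ht => ((((w1_hasDerivAt_int cp ht).const_mul _).add (di t ht)).add
      ((dl t ht).div_const 2)).sub (w1_hasDerivAt_int cq ht))
    (fun t ht => by
      have := abs_le.1 (key t ht).2
      have := h.pe_nonneg hη x (hI t ht)
      rw [h.qe_eq hη x (hI t ht)]
      nlinarith)
  simp only [intervalIntegral.integral_same, mul_zero, zero_add, sub_zero] at k1 k2 k3
  have z : 0 ≤ (C + 2) * (κ / η₂) * a := by positivity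
  have e : κ * b / η₂ = κ / η₂ * b := by ring
  rw [e0_eq, e, abs_le]
  refine ⟨⟨by nlinarith, by nlinarith⟩, by nlinarith⟩

end Pool.Agent.Lib.MP_8daebb_an.AS
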