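import Pool.Agent.Lib.MP_8daebb_an.AS.W5a

/-! The entropy bound and the mass of the failing cells. -/

open MeasureTheory Metric Set Module Real Filter
open scoped RealInnerProductSpace

namespace Pool.Agent.Lib.MP_8daebb_an.AS

open HK

variable {E : Type*} [NormedAddCommGroup E] [InnerProductSpace ℝ E] [FiniteDimensional ℝ E]
  [MeasurableSpace E] [BorelSpace E]

theorem Wt.int5 {φ : E → ℝ} (hφ : Wt φ) : Integrable φ := by
  simpa using hφ.integrable_mul (BM.const 1)

theorem Wt.int_nonneg5 {φ f : E → ℝ} (hφ : Wt φ) (h0 : ∀ y, 0 ≤ f y) : 0 ≤ ∫ y, φ y * f y :=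
  integral_nonneg fun y => mul_nonneg (hφ.nonneg y) (h0 y)

theorem Wt.int_mono5 {φ f g : E → ℝ} (hφ : Wt φ) (hf : BM f) (hg : BM g)
    (h : ∀ y, ‖y‖ < 1 → f y ≤ g y) : ∫ y, φ y * f y ≤ ∫ y, φ y * g y := by
  refine integral_mono (hφ.integrable_mul hf) (hφ.integrable_mul hg) fun y => ?_
  rcases lt_or_ge ‖y‖ 1 with hy | hy
  · exact mul_le_mul_of_nonneg_left (h y hy) (hφ.nonneg y)
  · simp [hφ.zero y hy]

/-- Entropy bound. -/
theorem ent_s5 : ∃ C > (0 : ℝ), ∀ (ε ff φ : E → ℝ) (T : E → E →L[ℝ] E) (C₁ ρ B κ tM η₂ a b : ℝ),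
    St ε T ff C₁ ρ B κ tM → tM ≤ 1 → Wt φ → 0 < η₂ → 0 < a → a ≤ b → 2 * b ≤ tM →
    ∫ x, φ x * (e0 ε T η₂ a b x * τf T x) ≤
      C * (Real.log ((C₁ + η₂) / η₂) + κ * b / η₂) * (∫ x, φ x * τf T x) +
      C * Real.log (b / a) * ((∫ x, φ x * |βf ε T x|) +
        √b * (∫ x in ball (0 : E) (5 / 4), |βf ε T x|) + B * Real.exp (-(1 / (600 * b)))) := by
  obtain ⟨C, C1, hC⟩ := logD (E := E)
  obtain ⟨C', C'0, hC'⟩ := av_wt (E := E)
  refine ⟨C + 3 * (C * C'), by positivity,
    fun ε ff φ T C₁ ρ B κ tM η₂ a b h hM hw hη ha hab hb => ?_⟩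
  have κ0 := h.κ_nonneg5
  have c0 := h.C₁_nonneg5
  have B0 := h.B_nonneg5
  have b0 := ha.trans_le hab
  have lg : 0 ≤ log (b / a) := log_nonneg ((one_le_div ha).2 hab)
  have lg2 : 0 ≤ log ((C₁ + η₂) / η₂) := log_nonneg ((one_le_div hη).2 (by linarith))
  have kb : 0 ≤ κ * b / η₂ := by positivity
  have bp : BM fun p : E × ℝ => τf T p.1 * pe ε T η₂ p.1 (max p.2 a) := by
    refine (h.bm_τ.comp measurable_fst).mul ⟨(h.measurable_pe η₂).comp
      (f := fun p : E × ℝ => (p.1, max p.2 a)) (by fun_prop), 3 * B / η₂, fun p => ?_⟩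
    have t0 : 0 < max p.2 a := ha.trans_le (le_max_right _ _)
    rw [abs_of_nonneg (h.pe_nonneg hη _ t0)]
    refine div_le_div₀ (by positivity) ((le_abs_self _).trans (abs_P_le_const (by positivity)
      (fun y => by rw [abs_abs]; exact h.abs_β_le y) _)) hη ?_
    linarith [h.tt_nonneg5 p.1 t0.le]
  have hI : Integrable (fun p : E × ℝ => φ p.1 * (τf T p.1 * pe ε T η₂ p.1 (max p.2 a)))
      (volume.prod (volume.restrict (Ioc a b))) := by
    have := hw.int5.mul_prod (integrable_const (μ := volume.restrict (Ioc a b)) (1 : ℝ))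
    simpa using bp.integrable_mul this
  have e1 : ∀ x, φ x * (τf T x * ∫ t in a..b, pe ε T η₂ x t) =
      ∫ t in Ioc a b, φ x * (τf T x * pe ε T η₂ x (max t a)) := fun x => by
    rw [integral_const_mul, integral_const_mul, intervalIntegral.integral_of_le hab]
    congr 2
    exact setIntegral_congr_fun measurableSet_Ioc fun t ht => by simp only [max_eq_left ht.1.le]
  have i1 : Integrable fun x => φ x * (τf T x * ∫ t in a..b, pe ε T η₂ x t) := by
    simp only [e1]; exact hI.integral_prod_left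
  have n1 := hw.int_nonneg5 h.τ_nonneg
  have n2 := hw.int_nonneg5 (f := fun x => |βf ε T x|) fun _ => abs_nonneg _
  have n3 : 0 ≤ ∫ x in ball (0 : E) (5 / 4), |βf ε T x| := integral_nonneg fun _ => abs_nonneg _
  set W := (∫ x, φ x * |βf ε T x|) + √b * (∫ x in ball (0 : E) (5 / 4), |βf ε T x|) +
    B * Real.exp (-(1 / (600 * b))) with hW
  have W0 : 0 ≤ W := by positivity
  have k1 : ∫ x, φ x * (τf T x * ∫ t in a..b, pe ε T η₂ x t) ≤ C' * (3 * W) * log (b / a) := by
    simp only [e1]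
    rw [integral_integral_swap hI, ← w1_int_inv ha hab, ← intervalIntegral.integral_const_mul,
      intervalIntegral.integral_of_le hab]
    refine setIntegral_mono_on hI.integral_prod_right ?_ measurableSet_Ioc fun t ht => ?_
    · exact (intervalIntegrable_iff_integrableOn_Ioc_of_le hab).1 (ii_of_Ioi
        (continuousOn_const.mul (continuousOn_const.div continuousOn_id
          fun t ht => ne_of_gt ht)) ha b0)
    · have t0 : 0 < t := ha.trans ht.1
      simp only [max_eq_left ht.1.le]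
      have a1 := hC' φ (τf T) (fun x => (tt T x t + η₂) / t) (fun x => |βf ε T x|) (η₂ / t) (3 * B)
        t hw h.bm_τ h.τ_nonneg ((((h.bm_τ.P t0).meas.const_mul t).add_const η₂).div_const t)
        (by positivity) (fun x => by gcongr; linarith [h.tt_nonneg5 x t0.le]) t0
        (by linarith [ht.2])
        (fun x => by rw [le_div_iff₀ t0, mul_comm]; exact le_add_of_nonneg_right hη.le)
        h.bm_β.abs (fun _ => abs_nonneg _) h.abs_β_le
      have e2 : ∀ x, φ x * (τf T x * pe ε T η₂ x t) = 1 / t * (φ x * (τf T x /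
          ((tt T x t + η₂) / t) * P (2 * t) (fun y => |βf ε T y|) x)) := fun x => by
        have := h.D_pos5 hη x t0
        rw [pe]
        field_simp
      simp only [e2]
      rw [integral_const_mul, mul_comm]
      refine mul_le_mul_of_nonneg_right (a1.trans (mul_le_mul_of_nonneg_left ?_ C'0.le))
        (by positivity)
      have a2 : √t * (∫ x in ball (0 : E) (5 / 4), |βf ε T x|) ≤
          √b * ∫ x in ball (0 : E) (5 / 4), |βf ε T x| := by gcongr; exact ht.2
      have a3 : B * exp (-(1 / (600 * t))) ≤ B * exp (-(1 / (600 * b))) := by gcongr; exact ht.2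
      have a4 : 0 ≤ √b * ∫ x in ball (0 : E) (5 / 4), |βf ε T x| := by positivity
      rw [hW]
      linarith
  have C0 : 0 ≤ C := by linarith
  have pt : ∀ x, φ x * (e0 ε T η₂ a b x * τf T x) ≤
      C * (log ((C₁ + η₂) / η₂) + κ * b / η₂) * (φ x * τf T x) +
      C * (φ x * (τf T x * ∫ t in a..b, pe ε T η₂ x t)) := fun x => by
    have w0 := hw.nonneg x
    have τ0 := h.τ_nonneg x
    rcases lt_or_ge ‖x‖ 1 with hx | hx
    · have a1 := (hC ε ff T C₁ ρ B κ tM η₂ a b x h hM hη ha hab hb (by linarith)).2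
      have a2 : log (tt T x b + η₂) - log (tt T x a + η₂) ≤ log ((C₁ + η₂) / η₂) := by
        rw [log_div (by positivity) hη.ne']
        have := log_le_log (h.D_pos5 hη x b0) (add_le_add_left (h.tt_le x b0) η₂)
        have := log_le_log hη (le_add_of_nonneg_left (h.tt_nonneg5 x ha.le))
        linarith
      have a3 : e0 ε T η₂ a b x ≤ C * (log ((C₁ + η₂) / η₂) + κ * b / η₂) +
          C * ∫ t in a..b, pe ε T η₂ x t := by nlinarith
      calc _ ≤ φ x * ((C * (log ((C₁ + η₂) / η₂) + κ * b / η₂) +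
            C * ∫ t in a..b, pe ε T η₂ x t) * τf T x) := by gcongr
        _ = _ := by ring
    · simp [hw.zero x hx]
  have j1 := (hw.integrable_mul h.bm_τ).const_mul (C * (log ((C₁ + η₂) / η₂) + κ * b / η₂))
  have j2 := i1.const_mul C
  have k2 := integral_mono (hw.integrable_mul ((h.bm_e05 hη ha hab).mul h.bm_τ)) (j1.add j2) pt
  rw [integral_add' j1 j2, integral_const_mul, integral_const_mul] at k2
  have z : 0 ≤ C * C' := by positivity
  refine k2.trans (add_le_add ?_ ?_)
  · gcongr; linarith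
  · calc _ ≤ C * (C' * (3 * W) * log (b / a)) := by gcongr
      _ = 3 * (C * C') * log (b / a) * W := by ring
      _ ≤ _ := by gcongr; linarith

/-- Mass of the cells that fail the second test. -/
theorem av_fail_s5 : ∃ C > (0 : ℝ), ∀ (φ τ f : E → ℝ) (η B s l lam : ℝ), Wt φ → BM τ →
    (∀ y, 0 ≤ τ y) → BM f → (∀ y, 0 ≤ f y) → (∀ y, f y ≤ B) → 0 < η → 0 < s → s ≤ l ^ 2 →
    0 < l → l ≤ lam → lam ≤ 1 →
    ∫ z, φ z * ((∫ y, kk l z y * P s τ y) / (P (4 * lam ^ 2) τ z + η) * P (2 * lam ^ 2) f z) ≤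
      C * l ^ finrank ℝ E * ((∫ y, φ y * f y) + lam * (∫ y in ball (0 : E) (5 / 4), f y) +
        B * Real.exp (-(1 / (600 * lam ^ 2)))) := by
  obtain ⟨C, C0, hC⟩ := av_wt (E := E)
  refine ⟨(4 * π) ^ hd E * exp (1 / 4) * 4 ^ hd E * C, by positivity,
    fun φ τ f η B s l lam hφ hτ τ0 hf f0 fB hη hs hsl hl hll hlam => ?_⟩
  have lam0 : 0 < lam := hl.trans_le hll
  have l2 : l ^ 2 ≤ lam ^ 2 := by gcongr
  have t0 : 0 < lam ^ 2 := by positivity
  have u0 : 0 < l ^ 2 + s := by positivity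
  have p4 : ∀ z, 0 ≤ P (4 * lam ^ 2) τ z := P_nonneg (by positivity) τ0
  have bD : BM fun z => P (4 * lam ^ 2) τ z + η := (hτ.P (by positivity)).add (BM.const η)
  have a1 := hC φ (P (l ^ 2 + s) τ) (fun z => 4 ^ hd E * (P (4 * lam ^ 2) τ z + η)) f
    (4 ^ hd E * η) B (lam ^ 2) hφ (hτ.P u0) (P_nonneg u0.le τ0) (bD.const_mul _).meas
    (by positivity) (fun z => by gcongr; linarith [p4 z]) t0 (pow_le_one₀ lam0.le hlam)
    (fun z => by
      rw [P_P hτ t0 u0]
      refine (P_le_of_le_mul hτ τ0 (s := 4 * lam ^ 2) (c := 4) (by positivity) (by linarith)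
        (by linarith) z).trans ?_
      gcongr; linarith) hf f0 fB
  rw [sqrt_sq lam0.le] at a1
  have bq : ∀ {g : E → ℝ} {c : ℝ}, BM g → 0 < c →
      BM fun z => g z / (c * (P (4 * lam ^ 2) τ z + η)) := fun {g c} hg hc =>
    (hg.abs.div_const (c * η)).of_abs_le (hg.meas.div (bD.const_mul _).meas) fun z => by
      have := p4 z
      rw [abs_div, abs_of_pos (show 0 < c * (P (4 * lam ^ 2) τ z + η) by positivity)]
      gcongr; linarith
  have b1 := bq (bm_kk hl (hτ.P hs)) one_pos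
  simp only [one_mul] at b1
  have b2 := bq (c := 4 ^ hd E) (hτ.P u0) (by positivity)
  have b3 := hf.P (show 0 < 2 * lam ^ 2 by positivity)
  have a2 := hφ.int_mono5 (b1.mul b3) ((b2.mul b3).const_mul
    ((4 * π) ^ hd E * exp (1 / 4) * 4 ^ hd E * l ^ finrank ℝ E)) fun z _ => by
      have c1 := kk_le_ball hl z (hτ.P hs) (P_nonneg hs.le τ0)
      have c2 := mass_ball_le_P (hτ.P hs) (P_nonneg hs.le τ0) (t := l ^ 2) (A := 1) (r := l)
        (by positivity) z (by linarith)
      rw [P_P hτ (by positivity) hs, mul_rpow (by positivity) (by positivity),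
        rpow_hd_eq (t := l ^ 2) (by positivity), sqrt_sq hl.le] at c2
      have c3 : 0 ≤ P (2 * lam ^ 2) f z := P_nonneg (by positivity) f0 z
      have := p4 z
      calc _ ≤ ((4 * π) ^ hd E * l ^ finrank ℝ E * exp (1 / 4) * P (l ^ 2 + s) τ z) /
            (P (4 * lam ^ 2) τ z + η) * P (2 * lam ^ 2) f z := by
            gcongr; exact c1.trans c2
        _ = _ := by field_simp
  refine a2.trans ?_
  simp only [mul_left_comm (φ _) ((4 * π) ^ hd E * exp (1 / 4) * 4 ^ hd E * l ^ finrank ℝ E)]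
  rw [integral_const_mul]
  calc _ ≤ (4 * π) ^ hd E * exp (1 / 4) * 4 ^ hd E * l ^ finrank ℝ E * (C * ((∫ y, φ y * f y) +
        lam * (∫ y in ball (0 : E) (5 / 4), f y) + B * Real.exp (-(1 / (600 * lam ^ 2))))) := by
        gcongr
    _ = _ := by ring

end Pool.Agent.Lib.MP_8daebb_an.AS
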