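import Pool.Agent.Lib.MP_8daebb_an.AS.W5b

/-! The negative parts almost telescope. -/

open MeasureTheory Metric Set Module Real Filter
open scoped RealInnerProductSpace

namespace Pool.Agent.Lib.MP_8daebb_an.AS

open HK

variable {E : Type*} [NormedAddCommGroup E] [InnerProductSpace ℝ E] [FiniteDimensional ℝ E]
  [MeasurableSpace E] [BorelSpace E]

theorem np_nonneg5 (a : ℝ) : 0 ≤ np a := le_max_right _ _

theorem neg_le_np5 (a : ℝ) : -a ≤ np a := le_max_left _ _

theorem np_le_abs5 (a : ℝ) : np a ≤ |a| := max_le (neg_le_abs a) (abs_nonneg a)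

theorem abs_np_le5 (a : ℝ) : |np a| ≤ |a| := by
  rw [abs_of_nonneg (np_nonneg5 a)]; exact np_le_abs5 a

theorem np_mul5 {c : ℝ} (hc : 0 ≤ c) (a : ℝ) : np (c * a) = c * np a := by
  unfold np
  rw [mul_max_of_nonneg _ _ hc, mul_zero, mul_neg]

theorem np_le_add5 {a b d : ℝ} (h : |b - a| ≤ d) : np a ≤ np b + d := by
  have := abs_le.1 h
  exact max_le (by linarith [neg_le_np5 b]) (by linarith [np_nonneg5 b])

theorem bm_np5 {X : Type*} [MeasurableSpace X] {f : X → ℝ} (hf : BM f) : BM fun x => np (f x) :=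
  hf.neg.max (BM.const 0)

theorem np_P_le5 {f : E → ℝ} (hf : BM f) {t : ℝ} (ht : 0 < t) (x : E) :
    np (P t f x) ≤ P t (fun y => np (f y)) x := by
  refine max_le ?_ (P_nonneg ht.le (fun y => np_nonneg5 _) x)
  rw [← P_neg]
  exact P_mono hf.neg (bm_np5 hf) ht (fun y => neg_le_np5 _) x

omit [InnerProductSpace ℝ E] [FiniteDimensional ℝ E] [MeasurableSpace E] [BorelSpace E] in
theorem kk_shift5 (l : ℝ) (z y : E) : kk l z y = kk l 0 (y - z) := by simp [kk]

theorem P_kk5 {f : E → ℝ} (hf : BM f) {l t : ℝ} (hl : 0 < l) (ht : 0 < t) (x : E) :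
    P t (fun z => ∫ y, kk l z y * f y) x = ∫ y, kk l x y * P t f y := by
  have hK : Ker (kk l (0 : E)) := ⟨(kk_cont_bas2 l 0).measurable, by
    simpa using integrable_kk_mul hl (0 : E) (BM.const 1)⟩
  have e : ∀ (g : E → ℝ) (z : E), ∫ y, kk l z y * g y = Cv (kk l 0) g z := fun g z => by
    simp only [Cv, ← kk_shift5]
  simp only [e]
  exact P_Cv_comm hK hf ht x

theorem abs_kk_sub5 {f : E → ℝ} (hf : BM f) {l a d : ℝ} (hl : 0 < l) {x : E}
    (h : ∀ y, ‖y - x‖ < l → |f y - a| ≤ d) :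
    |(∫ y, kk l x y * f y) - ck E * l ^ finrank ℝ E * a| ≤ ck E * l ^ finrank ℝ E * d := by
  rw [← integral_kk hl x, ← integral_mul_const, ← integral_mul_const,
    ← integral_sub (integrable_kk_mul hl x hf) (integrable_kk_mul hl x (BM.const a))]
  refine norm_integral_le_of_norm_le (f := fun y => kk l x y * f y - kk l x y * a)
    (integrable_kk_mul hl x (BM.const d)) (Eventually.of_forall fun y => ?_)
  rw [Real.norm_eq_abs, ← mul_sub, abs_mul, abs_of_nonneg (kk_nonneg _ _ _)]
  rcases lt_or_ge ‖y - x‖ l with hy | hy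
  · exact mul_le_mul_of_nonneg_left (h y hy) (kk_nonneg _ _ _)
  · simp [kk_eq_zero hl hy]

theorem abs_kk_P_le5 {g : E → ℝ} (hg : BM g) {l s : ℝ} (hl : 0 < l) (hs : 0 < s) (z : E) :
    |∫ y, kk l z y * P s g y| ≤
      (4 * π) ^ hd E * exp (1 / 4) * l ^ finrank ℝ E * P (l ^ 2 + s) (fun y => |g y|) z := by
  have p0 : ∀ y, 0 ≤ P s (fun y => |g y|) y := P_nonneg hs.le fun _ => abs_nonneg _
  have c0 : |∫ y, kk l z y * P s g y| ≤ ∫ y, kk l z y * P s (fun y => |g y|) y := by
    refine norm_integral_le_of_norm_le (f := fun y => kk l z y * P s g y)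
      (integrable_kk_mul hl z (hg.abs.P hs)) (Eventually.of_forall fun y => ?_)
    rw [Real.norm_eq_abs, abs_mul, abs_of_nonneg (kk_nonneg _ _ _)]
    exact mul_le_mul_of_nonneg_left (abs_P_le hs.le g y) (kk_nonneg _ _ _)
  have c1 := kk_le_ball hl z (hg.abs.P hs) p0
  have c2 := mass_ball_le_P (hg.abs.P hs) p0 (t := l ^ 2) (A := 1) (r := l)
    (by positivity) z (by linarith)
  rw [P_P hg.abs (by positivity) hs, mul_rpow (by positivity) (by positivity),
    rpow_hd_eq (t := l ^ 2) (by positivity), sqrt_sq hl.le] at c2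
  linarith

theorem levB5 {g : E → ℝ} (hg : BM g) {B t s' : ℝ} (hB : ∀ y, |g y| ≤ B) (ht : 0 < t)
    (hts : t ≤ s') : ∫ y in ball (0 : E) (5 / 4), P t (fun y => |g y|) y ≤
      (∫ y in ball (0 : E) (3 / 2), |g y|) +
        2 ^ hd E * volume.real (ball (0 : E) (5 / 4)) * (B * exp (-(1 / (600 * s')))) := by
  have B0 : 0 ≤ B := (abs_nonneg _).trans (hB 0)
  have h1 := lev hg.abs (fun _ => abs_nonneg _) hB ht (A := ball (0 : E) (5 / 4)) measurableSet_ball
    isBounded_ball (d := 1 / 5) (by norm_num)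
  rw [cthickening_ball (by norm_num) (by norm_num)] at h1
  have h2 : ∫ y in closedBall (0 : E) (1 / 5 + 5 / 4), |g y| ≤ ∫ y in ball (0 : E) (3 / 2), |g y| :=
    setIntegral_mono_set (hg.abs.integrableOn isBounded_ball)
      (Eventually.of_forall fun _ => abs_nonneg _)
      (closedBall_subset_ball (by norm_num)).eventuallyLE
  have h3 : exp (-((1 / 5) ^ 2 / (8 * t))) ≤ exp (-(1 / (600 * s'))) := by
    rw [exp_le_exp, neg_le_neg_iff, div_le_div_iff₀ (by linarith) (by positivity)]
    linarith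
  have h4 : 0 ≤ volume.real (ball (0 : E) (5 / 4)) := measureReal_nonneg
  calc _ ≤ _ := h1
    _ ≤ (∫ y in ball (0 : E) (3 / 2), |g y|) + 2 ^ hd E * exp (-(1 / (600 * s'))) * B *
        volume.real (ball (0 : E) (5 / 4)) := by gcongr
    _ = _ := by ring

/-- The negative parts almost telescope. -/
theorem neg_chain_s5 : ∃ C > (0 : ℝ), ∀ (φ g : E → ℝ) (B s s' l : ℝ), Wt φ → BM g →
    (∀ y, |g y| ≤ B) → 0 < s → s ≤ l ^ 2 → 0 < l → 4 * l ^ 2 ≤ s' → s' ≤ 1 / 400 →
    ∫ z, φ z * ((∫ y, kk l z y * np (P s g y)) - np (∫ y, kk l z y * P s g y)) ≤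
      ck E * l ^ finrank ℝ E * ((∫ y, φ y * np (P s g y)) - ∫ y, φ y * np (P s' g y)) +
      C * l ^ finrank ℝ E * (l / √s' * (∫ y, φ y * |g y|) +
        √s' * (∫ y in ball (0 : E) (3 / 2), |g y|) + B * Real.exp (-(1 / (600 * s')))) := by
  obtain ⟨C, C0, hC⟩ := wt (E := E)
  have k0 := ck_pos (E := E)
  set cv : ℝ := 2 ^ hd E * volume.real (ball (0 : E) (5 / 4)) with hcv
  have cv0 : 0 ≤ cv := mul_nonneg (by positivity) measureReal_nonneg
  set c4 : ℝ := 4 * 4 ^ hd E with hc4
  set c5 : ℝ := (4 * π) ^ hd E * exp (1 / 4) with hc5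
  have c40 : 0 < c4 := by positivity
  have c50 : 0 < c5 := by positivity
  refine ⟨ck E * (1 + cv) + ck E * c4 * (1 + 2 * C) + C * (c5 * (1 + cv) + ck E), by positivity,
    fun φ g B s s' l hφ hg hB hs hsl hl hls hs' => ?_⟩
  have B0 : 0 ≤ B := (abs_nonneg _).trans (hB 0)
  have l2 : 0 < l ^ 2 := by positivity
  have s0 : 0 < s' := by linarith
  have S0 : 0 < s' - s := by linarith
  have q0 : 0 < √s' := sqrt_pos.2 s0
  have lq : l ≤ √s' := le_sqrt_of_sq_le (by linarith)
  have q1 : √s' ≤ 1 / 20 := sqrt_le_iff.2 ⟨by norm_num, by linarith⟩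
  set m := l ^ finrank ℝ E with hm
  have m0 : 0 < m := by positivity
  set I := ∫ y in ball (0 : E) (3 / 2), |g y| with hI
  set J := ∫ y, φ y * |g y| with hJ
  set e := B * exp (-(1 / (600 * s'))) with he
  have I0 : 0 ≤ I := integral_nonneg fun _ => abs_nonneg _
  have J0 : 0 ≤ J := hφ.int_nonneg5 fun _ => abs_nonneg _
  have e0 : 0 ≤ e := by positivity
  have bP := hg.P hs
  have bP' := hg.P s0
  have bH : BM fun z => ∫ y, kk l z y * P s g y := bm_kk hl bP
  have mono : ∀ {f f' : E → ℝ}, BM f → BM f' → (∀ y, f y ≤ f' y) →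
      ∫ y in ball (0 : E) (5 / 4), f y ≤ ∫ y in ball (0 : E) (5 / 4), f' y :=
    fun hf hf' h => setIntegral_mono (hf.integrableOn isBounded_ball)
      (hf'.integrableOn isBounded_ball) h
  -- first step
  have a1 := (abs_le.1 (wt_kk hφ (bm_np5 bP) hl (by linarith))).2
  have a2 := (mono (bm_np5 bP).abs (hg.abs.P hs)
    fun y => (abs_np_le5 _).trans (abs_P_le hs.le g y)).trans (levB5 hg hB hs (s' := s') (by linarith))
  -- second step
  have b1 : ∀ x, ck E * m * np (P s' g x) ≤ P (s' - s) (fun z => np (∫ y, kk l z y * P s g y)) x +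
      ck E * m * (c4 * (l / √s')) * P (4 * s') (fun y => |g y|) x := fun x => by
    have h1 := abs_kk_sub5 bP' hl (x := x) (a := P s' g x)
      (d := c4 * (l / √s') * P (4 * s') (fun y => |g y|) x) fun y hy => by
        rw [norm_sub_rev] at hy
        have h2 : ‖x - y‖ ^ 2 ≤ s' := by
          linarith [pow_le_pow_left₀ (norm_nonneg (x - y)) (le_of_lt hy) 2, sq_nonneg l]
        refine (abs_P_sub_space hg s0 h2).trans ?_
        have := P_nonneg (show 0 ≤ 4 * s' by positivity) (fun y => abs_nonneg (g y)) x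
        gcongr
    have h2 := np_P_le5 bH S0 x
    rw [P_kk5 bP hl S0] at h2
    simp only [P_P hg S0 hs, sub_add_cancel] at h2
    have h3 := np_le_add5 h1
    rw [np_mul5 (by positivity)] at h3
    linarith
  have b2 := hφ.int_mono5 ((bm_np5 bP').const_mul _) (((bm_np5 bH).P S0).add
    ((hg.abs.P (show 0 < 4 * s' by positivity)).const_mul _)) fun x _ => b1 x
  simp only [mul_add, mul_left_comm (φ _) (ck E * m), mul_left_comm (φ _)
    (ck E * m * (c4 * (l / √s')))] at b2
  rw [integral_add (hφ.integrable_mul ((bm_np5 bH).P S0))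
    ((hφ.integrable_mul (hg.abs.P (by positivity))).const_mul _), integral_const_mul,
    integral_const_mul] at b2
  -- third step
  have hH : ∀ z, |∫ y, kk l z y * P s g y| ≤ ck E * m * B := fun z => by
    simpa using abs_kk_sub5 bP hl (x := z) (a := 0) (d := B) fun y _ => by
      rw [sub_zero]; exact abs_P_le_const hs hB y
  have d1 := (abs_le.1 (hC φ _ _ _ hφ (bm_np5 bH) (fun z => (abs_np_le5 _).trans (hH z)) S0)).2
  have u0 : 0 < l ^ 2 + s := by positivity
  have d2 := mono (bm_np5 bH).abs ((hg.abs.P u0).const_mul (c5 * m))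
    fun z => (abs_np_le5 _).trans (abs_kk_P_le5 hg hl hs z)
  rw [integral_const_mul] at d2
  have d3 := levB5 hg hB u0 (s' := s') (by linarith)
  have d4 : √(s' - s) ≤ √s' := sqrt_le_sqrt (by linarith)
  have d5 : ck E * m * B * exp (-(1 / (128 * (s' - s)))) ≤ ck E * m * e := by
    rw [he, mul_assoc (ck E * m)]
    have : exp (-(1 / (128 * (s' - s)))) ≤ exp (-(1 / (600 * s'))) := by
      rw [exp_le_exp, neg_le_neg_iff]
      exact one_div_le_one_div_of_le (by positivity) (by linarith)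
    gcongr
  have d6 : √(s' - s) * ∫ y in ball (0 : E) (5 / 4), |np (∫ y', kk l y y' * P s g y')| ≤
      √s' * (c5 * m * (I + cv * e)) :=
    mul_le_mul d4 (d2.trans (by gcongr)) (integral_nonneg fun _ => abs_nonneg _) q0.le
  -- fourth step
  have f1 := (abs_le.1 (hC φ _ B _ hφ hg.abs (fun y => by rw [abs_abs]; exact hB y)
    (show 0 < 4 * s' by positivity))).2
  simp only [abs_abs] at f1
  have f2 : ∫ y in ball (0 : E) (5 / 4), |g y| ≤ I :=
    setIntegral_mono_set (hg.abs.integrableOn isBounded_ball)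
      (Eventually.of_forall fun _ => abs_nonneg _) (ball_subset_ball (by norm_num)).eventuallyLE
  have f3 : √(4 * s') = 2 * √s' := by
    rw [sqrt_mul (by norm_num), show (4 : ℝ) = 2 ^ 2 by norm_num, sqrt_sq (by norm_num)]
  have f4 : B * exp (-(1 / (128 * (4 * s')))) ≤ e := by
    have : exp (-(1 / (128 * (4 * s')))) ≤ exp (-(1 / (600 * s'))) := by
      rw [exp_le_exp, neg_le_neg_iff]
      exact one_div_le_one_div_of_le (by positivity) (by linarith)
    exact mul_le_mul_of_nonneg_left this B0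
  have f5 : ∫ y, φ y * P (4 * s') (fun y => |g y|) y ≤ J + C * (2 * √s' * I + e) := by
    have : √(4 * s') * (∫ y in ball (0 : E) (5 / 4), |g y|) ≤ 2 * √s' * I := by
      rw [f3]; gcongr
    linarith only [f1, mul_le_mul_of_nonneg_left (add_le_add this f4) C0.le]
  simp only [mul_sub (φ _)]
  rw [integral_sub (hφ.integrable_mul (bm_kk hl (bm_np5 bP))) (hφ.integrable_mul (bm_np5 bH))]
  set u := l / √s' with hu
  have u1 : u ≤ 1 := (div_le_one q0).2 lq
  have u0' : 0 ≤ u := by positivity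
  set W := u * J + √s' * I + e with hW
  have q1' : √s' ≤ 1 := q1.trans (by norm_num)
  have w1 : 0 ≤ u * J := by positivity
  have w2 : 0 ≤ √s' * I := by positivity
  have t1 : ck E * m * (l * ∫ y in ball (0 : E) (5 / 4), |np (P s g y)|) ≤
      ck E * (1 + cv) * m * W := by
    have : l * (∫ y in ball (0 : E) (5 / 4), |np (P s g y)|) ≤ (1 + cv) * W := by
      calc _ ≤ √s' * (I + cv * e) :=
            mul_le_mul lq a2 (integral_nonneg fun _ => abs_nonneg _) q0.le
        _ ≤ _ := by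
            rw [hW]
            linarith only [w1, e0, mul_nonneg cv0 w1, mul_nonneg cv0 w2,
              mul_le_of_le_one_left (mul_nonneg cv0 e0) q1']
    calc _ ≤ ck E * m * ((1 + cv) * W) := by gcongr
      _ = _ := by ring
  have t2 : ck E * m * (c4 * u) * ∫ y, φ y * P (4 * s') (fun y => |g y|) y ≤
      ck E * c4 * (1 + 2 * C) * m * W := by
    have : u * (J + C * (2 * √s' * I + e)) ≤ (1 + 2 * C) * W := by
      have h1 : u * (C * (2 * √s' * I + e)) ≤ C * (2 * √s' * I + e) :=
        mul_le_of_le_one_left (by positivity) u1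
      rw [hW]
      linarith [mul_nonneg C0.le w1, mul_nonneg C0.le e0]
    calc _ ≤ ck E * m * (c4 * u) * (J + C * (2 * √s' * I + e)) := by gcongr
      _ = ck E * m * c4 * (u * (J + C * (2 * √s' * I + e))) := by ring
      _ ≤ ck E * m * c4 * ((1 + 2 * C) * W) := by gcongr
      _ = _ := by ring
  have t3 : C * (√(s' - s) * (∫ y in ball (0 : E) (5 / 4), |np (∫ y', kk l y y' * P s g y')|) +
      ck E * m * B * exp (-(1 / (128 * (s' - s))))) ≤ C * (c5 * (1 + cv) + ck E) * m * W := by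
    have h1 : √s' * (I + cv * e) ≤ (1 + cv) * W := by
      rw [hW]
      linarith only [w1, e0, mul_nonneg cv0 w1, mul_nonneg cv0 w2,
              mul_le_of_le_one_left (mul_nonneg cv0 e0) q1']
    have h2 : e ≤ W := by rw [hW]; linarith
    calc _ ≤ C * (√s' * (c5 * m * (I + cv * e)) + ck E * m * e) := by gcongr
      _ = C * (c5 * m * (√s' * (I + cv * e)) + ck E * m * e) := by ring
      _ ≤ C * (c5 * m * ((1 + cv) * W) + ck E * m * W) := by gcongr
      _ = _ := by ring
  linarith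

end Pool.Agent.Lib.MP_8daebb_an.AS
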